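import Mathlib

/-!
Convex polyhedra in three-dimensional Euclidean space, their faces and face counts.
-/

namespace Pool.Agent.P.MP_e40812_co

/-- A convex polyhedron: the convex hull of finitely many points of `ℝ³`, of dimension three. -/
def IsPolyhedron (P : Set (EuclideanSpace ℝ (Fin 3))) : Prop :=
  (∃ S : Finset (EuclideanSpace ℝ (Fin 3)), P = convexHull ℝ (S : Set (EuclideanSpace ℝ (Fin 3))))
    ∧ Module.finrank ℝ (vectorSpan ℝ P) = 3

/-- `F` is a `j`-dimensional face of `P`: the nonempty set of maximum points on `P` of a linear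
functional, whose affine hull has dimension `j`. -/
def IsFace (P : Set (EuclideanSpace ℝ (Fin 3))) (j : ℕ) (F : Set (EuclideanSpace ℝ (Fin 3))) :
    Prop :=
  F.Nonempty ∧ IsExposed ℝ P F ∧ Module.finrank ℝ (vectorSpan ℝ F) = j

/-- The number of edges of `P` contained in `F`. -/
noncomputable def sides (P F : Set (EuclideanSpace ℝ (Fin 3))) : ℕ :=
  {E | IsFace P 1 E ∧ E ⊆ F}.ncard

/-- The number `p_n(P)` of two-dimensional faces of `P` with exactly `n` edges. -/
noncomputable def faceCount (P : Set (EuclideanSpace ℝ (Fin 3))) (n : ℕ) : ℕ :=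
  {F | IsFace P 2 F ∧ sides P F = n}.ncard

end Pool.Agent.P.MP_e40812_co
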