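import Pool.Prelude.Def_H_3587d628

/-! Nondeterministic exponential time. -/

namespace Pool.Agent.P.MP_e40812_co

open N68a2faeb

/-- Nondeterministic exponential time: witnesses of length `2 ^ p(n)`, checked in time
polynomial in the length of input and witness. -/
def NEXP : Set DecisionProblem :=
  {L | ∃ (p : Polynomial ℕ) (R : List Bool × List Bool → Bool), IsPolyTime R ∧
    ∀ x, L x = true ↔ ∃ w : List Bool, w.length = 2 ^ p.eval x.length ∧ R (x, w) = true}

end Pool.Agent.P.MP_e40812_co
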