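import Pool.Agent.P.MP_e40812_co.Defs

/-!
Explicit systems of conditions on the numbers `p_3, ..., p_24`.
-/

namespace Pool.Agent.P.MP_e40812_co

/-- The vectors `(p_3, ..., p_24)` of convex polyhedra all of whose faces have at most 24 sides. -/
def Real24 : Set (Fin 22 → ℕ) :=
  {p | ∃ P, IsPolyhedron P ∧ (∀ i : Fin 22, faceCount P (i + 3) = p i) ∧
    ∀ n, 24 < n → faceCount P n = 0}

/-- Finite Boolean combinations of polynomial inequalities, polynomial congruences, convex
conditions (such as arbitrary families of linear inequalities) and semilinear conditions. -/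
inductive Explicit : Set (Fin 22 → ℕ) → Prop
  | poly (f : MvPolynomial (Fin 22) ℝ) :
      Explicit {p | 0 < MvPolynomial.eval (fun i => (p i : ℝ)) f}
  | cong (f : MvPolynomial (Fin 22) ℤ) (q : ℕ) (hq : 0 < q) :
      Explicit {p | (q : ℤ) ∣ MvPolynomial.eval (fun i => (p i : ℤ)) f}
  | convex (C : Set (Fin 22 → ℝ)) (hC : Convex ℝ C) : Explicit {p | (fun i => (p i : ℝ)) ∈ C}
  | semilinear (S : Set (Fin 22 → ℕ)) (hS : IsSemilinearSet S) : Explicit S
  | compl {S : Set (Fin 22 → ℕ)} : Explicit S → Explicit Sᶜ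
  | inter {S S' : Set (Fin 22 → ℕ)} : Explicit S → Explicit S' → Explicit (S ∩ S')

end Pool.Agent.P.MP_e40812_co
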