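import Pool.Agent.P.MP_e40812_co.Rigid

/-!
Construction of stacked triangulations with geometric realisations.
-/

namespace Pool.Agent.P.MP_e40812_co

open Finset

/-- Supporting functionals and points with the incidences of the triangle system. -/
def Geo {ι : Type*} (V : Finset ι) (F : Finset (Finset ι)) : Prop :=
  ∃ (φ : ι → EuclideanSpace ℝ (Fin 3) →ₗ[ℝ] ℝ) (x : Finset ι → EuclideanSpace ℝ (Fin 3)),
    ∀ t ∈ F, ∀ v ∈ V, (v ∈ t → φ v (x t) = 1) ∧ (v ∉ t → φ v (x t) < 1)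

lemma ev_neg {a : ℝ} (b : ℝ) (h : a < 0) :
    ∀ᶠ ε in nhdsWithin (0 : ℝ) (Set.Ioi 0), a + ε * b < 0 := by
  apply Filter.Eventually.filter_mono nhdsWithin_le_nhds
  have hc : Continuous fun ε : ℝ => a + ε * b := by fun_prop
  have : (fun ε : ℝ => a + ε * b) 0 < 0 := by simpa using h
  exact hc.continuousAt.eventually_lt continuousAt_const this

lemma Geo.stk {ι : Type*} [DecidableEq ι] {V : Finset ι} {F : Finset (Finset ι)} {a b c y : ι}
    (h : Pre V F) (g : Geo V F) (t : T F a b c) (hV : y ∉ V) :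
    Geo (insert y V) (stk F y a b c) := by
  obtain ⟨φ, x, g⟩ := g
  have hy : ∀ s ∈ F, y ∉ s := fun s hs hy => hV (h.sub s hs hy)
  have dir : ∀ {p q r}, T F p q r → ∃ u, φ p u = 0 ∧ φ q u = 0 ∧ φ r u = 1 := by
    intro p q r k
    obtain ⟨d, hd, k'⟩ := h.next k
    have h1 := (g _ k'.2.2.2 r (h.mem k.rot')).2 (by simp [k.2.1.symm, k.2.2.1.symm, hd.symm])
    refine ⟨(1 - φ r (x {p, q, d}))⁻¹ • (x {p, q, r} - x {p, q, d}), ?_, ?_, ?_⟩ <;>
      rw [map_smul, map_sub]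
    · rw [(g _ k.2.2.2 p (h.mem k)).1 (by simp), (g _ k'.2.2.2 p (h.mem k)).1 (by simp)]
      simp
    · rw [(g _ k.2.2.2 q (h.mem k.rot)).1 (by simp), (g _ k'.2.2.2 q (h.mem k.rot)).1 (by simp)]
      simp
    · rw [(g _ k.2.2.2 r (h.mem k.rot')).1 (by simp)]
      exact inv_mul_cancel₀ (by linarith)
  obtain ⟨uc, c1, c2, c3⟩ := dir t
  obtain ⟨ua, a1, a2, a3⟩ := dir t.rot
  obtain ⟨ub, b1, b2, b3⟩ := dir t.rot'
  have ha := h.mem t
  have hb := h.mem t.rot
  have hc := h.mem t.rot'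
  have le : ∀ s ∈ F, ∀ v ∈ V, φ v (x s) ≤ 1 := fun s hs v hv => by
    by_cases k : v ∈ s
    · exact ((g s hs v hv).1 k).le
    · exact ((g s hs v hv).2 k).le
  have E1 : ∀ u, ∀ᶠ ε in nhdsWithin (0 : ℝ) (Set.Ioi 0), ∀ v ∈ V \ {a, b, c},
      φ v (x {a, b, c}) - 1 + ε * (-φ v u) < 0 := fun u => by
    rw [Finset.eventually_all]
    exact fun v hv => ev_neg _ (sub_neg.2 ((g _ t.2.2.2 v (mem_sdiff.1 hv).1).2 (mem_sdiff.1 hv).2))
  have E2 : ∀ᶠ ε in nhdsWithin (0 : ℝ) (Set.Ioi 0), ∀ s ∈ F.erase {a, b, c},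
      φ a (x s) + φ b (x s) + φ c (x s) - 3 + ε * 1 < 0 := by
    rw [Finset.eventually_all]
    intro s hs
    obtain ⟨hne, hs⟩ := mem_erase.1 hs
    refine ev_neg _ ?_
    have l1 := le s hs a ha
    have l2 := le s hs b hb
    have l3 := le s hs c hc
    by_contra hh
    refine hne (eq_of_subset_of_card_le ?_ (by rw [t.card, h.three s hs])).symm
    simp only [insert_subset_iff, singleton_subset_iff]
    refine ⟨?_, ?_, ?_⟩ <;> by_contra k
    · linarith [(g s hs a ha).2 k]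
    · linarith [(g s hs b hb).2 k]
    · linarith [(g s hs c hc).2 k]
  obtain ⟨δ, ⟨⟨⟨⟨d1, d2⟩, d3⟩, d4⟩, d5⟩, d6⟩ := ((((((E1 ua).and (E1 ub)).and (E1 uc)).and E2).and
    (ev_neg (a := -3) 1 (by norm_num))).and self_mem_nhdsWithin).exists
  have d7 : 0 < δ := d6
  have d8 : 0 < 3 - δ := by linarith
  have pa := (g _ t.2.2.2 a ha).1 (by simp)
  have pb := (g _ t.2.2.2 b hb).1 (by simp)
  have pc := (g _ t.2.2.2 c hc).1 (by simp)
  obtain ⟨ψ, hψ⟩ : ∃ ψ, ψ = Function.update φ y ((3 - δ)⁻¹ • (φ a + φ b + φ c)) := ⟨_, rfl⟩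
  have ψy : ∀ z, ψ y z = (3 - δ)⁻¹ * (φ a z + φ b z + φ c z) := by simp [hψ, mul_add]
  have ψv : ∀ v ∈ V, ψ v = φ v := fun v hv => by
    rw [hψ, Function.update_of_ne fun e : v = y => hV (e ▸ hv)]
  have new : ∀ {p q r u}, T F p q r → ({p, q, r} : Finset ι) = {a, b, c} → φ p u = 0 → φ q u = 0 →
      φ r u = 1 → φ a u + φ b u + φ c u = 1 →
      (∀ v ∈ V \ {a, b, c}, φ v (x {a, b, c}) - 1 + δ * (-φ v u) < 0) → ∀ v ∈ insert y V,
      (v ∈ ({y, p, q} : Finset ι) → ψ v (x {a, b, c} - δ • u) = 1) ∧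
        (v ∉ ({y, p, q} : Finset ι) → ψ v (x {a, b, c} - δ • u) < 1) := by
    intro p q r u k e h1 h2 h3 h4 h5 v hv
    rcases mem_insert.1 hv with rfl | hv
    · refine ⟨fun _ => ?_, fun hh => absurd (by simp) hh⟩
      rw [ψy]
      simp only [map_sub, map_smul, smul_eq_mul, pa, pb, pc]
      rw [inv_mul_eq_one₀ d8.ne']
      linear_combination δ * h4
    · rw [ψv v hv, map_sub, map_smul, smul_eq_mul]
      have hvy : v ≠ y := fun e => hV (e ▸ hv)
      simp only [mem_insert, mem_singleton, hvy, false_or, not_or]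
      refine ⟨?_, fun hh => ?_⟩
      · rintro (rfl | rfl)
        · rw [h1, (g _ t.2.2.2 v hv).1 (e ▸ by simp)]
          simp
        · rw [h2, (g _ t.2.2.2 v hv).1 (e ▸ by simp)]
          simp
      · by_cases hr : v = r
        · subst hr
          rw [h3, (g _ t.2.2.2 v hv).1 (e ▸ by simp)]
          linarith
        · have := h5 v (mem_sdiff.2 ⟨hv, by simp [← e, hh.1, hh.2, hr]⟩)
          linarith
  obtain ⟨f1, f2, f3⟩ := fresh hy t
  refine ⟨ψ, fun s => if y ∈ s then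
    x {a, b, c} - δ • (if c ∉ s then uc else if a ∉ s then ua else ub) else x s, fun s hs => ?_⟩
  replace hs := mem_stk.1 hs
  rcases hs with rfl | rfl | rfl | ⟨hne, hs⟩
  · beta_reduce
    rw [if_pos (by simp), if_pos (by simp [f3.symm, t.2.1.symm, t.2.2.1.symm])]
    exact new t rfl c1 c2 c3 (by linarith) d3
  · beta_reduce
    rw [if_pos (by simp), if_neg (by simp), if_pos (by simp [f1.symm, t.1, t.2.1])]
    exact new t.rot (by rw [tri23, tri12]) a1 a2 a3 (by linarith) d1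
  · beta_reduce
    rw [if_pos (by simp), if_neg (by simp), if_neg (by simp)]
    exact new t.rot' (by rw [tri12, tri23]) b1 b2 b3 (by linarith) d2
  · intro v hv
    beta_reduce
    rw [if_neg (hy s hs)]
    rcases mem_insert.1 hv with rfl | hv
    · refine ⟨fun hh => absurd hh (hy s hs), fun _ => ?_⟩
      rw [ψy, inv_mul_lt_one₀ d8]
      linarith [d4 s (mem_erase.2 ⟨hne, hs⟩)]
    · rw [ψv v hv]
      exact g s hs v hv

/-- An extension of a realised triangle system, with its effect on the degrees. -/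
structure Ext (V : Finset ℕ) (F : Finset (Finset ℕ)) (V' : Finset ℕ) (F' : Finset (Finset ℕ))
    (R : Finset ℕ → Prop) (δ : ℕ → ℕ) (μ : Multiset ℕ) : Prop where
  pre : Pre V' F'
  geo : Geo V' F'
  sub : V ⊆ V'
  keep : ∀ s ∈ F, ¬ R s → s ∈ F'
  dg : ∀ v ∈ V, deg F' v = deg F v + δ v
  new : (V' \ V).val.map (deg F') = μ

lemma sdiff_val_add {A B C : Finset ℕ} (h1 : A ⊆ B) (h2 : B ⊆ C) :
    (C \ A).val = (B \ A).val + (C \ B).val := by
  have h : Disjoint (B \ A) (C \ B) := disjoint_sdiff.mono_left sdiff_subset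
  rw [← disjUnion_val _ _ h, disjUnion_eq_union, union_comm, sdiff_union_sdiff_cancel h2 h1]

lemma Ext.trans {V F V₁ F₁ V₂ F₂ R₁ R₂ δ₁ δ₂ μ₁ μ₂} (h₁ : Ext V F V₁ F₁ R₁ δ₁ μ₁)
    (h₂ : Ext V₁ F₁ V₂ F₂ R₂ δ₂ μ₂) (h : ∀ v, v ∉ V → δ₂ v = 0) :
    Ext V F V₂ F₂ (fun s => R₁ s ∨ R₂ s) (fun v => δ₁ v + δ₂ v) (μ₁ + μ₂) := by
  refine ⟨h₂.pre, h₂.geo, h₁.sub.trans h₂.sub, fun s hs hR => ?_, fun v hv => ?_, ?_⟩
  · exact h₂.keep s (h₁.keep s hs fun k => hR (Or.inl k)) fun k => hR (Or.inr k)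
  · rw [h₂.dg v (h₁.sub hv), h₁.dg v hv, add_assoc]
  · rw [sdiff_val_add h₁.sub h₂.sub, Multiset.map_add, h₂.new, ← h₁.new]
    congr 1
    refine Multiset.map_congr rfl fun v hv => ?_
    obtain ⟨k1, k2⟩ := mem_sdiff.1 hv
    rw [h₂.dg v k1, h v k2, add_zero]

lemma Ext.all {V F V' F' R δ μ} (h : Ext V F V' F' R δ μ) :
    V'.val.map (deg F') = V.val.map (fun v => deg F v + δ v) + μ := by
  have := sdiff_val_add (empty_subset V) h.sub
  rw [sdiff_empty, sdiff_empty] at this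
  rw [this, Multiset.map_add, h.new, Multiset.map_congr rfl h.dg]

/-- The degree increments at the three corners. -/
def e3 (p q d α β γ v : ℕ) : ℕ :=
  (if v = p then α else 0) + (if v = q then β else 0) + if v = d then γ else 0

/-- Every triangle can be subdivided with given increments and given new degrees. -/
def Gad (α β γ : ℕ) (μ : Multiset ℕ) : Prop :=
  ∀ V F p q d, Pre V F → Geo V F → T F p q d →
    ∃ V' F', Ext V F V' F' (fun s => s = {p, q, d}) (e3 p q d α β γ) μ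

lemma Ext.congr {V F V' F' R R' δ δ' μ} (h : Ext V F V' F' R δ μ) (hR : ∀ s ∈ F, R s → R' s)
    (hδ : ∀ v ∈ V, δ v = δ' v) : Ext V F V' F' R' δ' μ :=
  ⟨h.pre, h.geo, h.sub, fun s hs k => h.keep s hs fun k' => k (hR s hs k'),
    fun v hv => hδ v hv ▸ h.dg v hv, h.new⟩

lemma Gad.zero : Gad 0 0 0 0 := fun V F _ _ _ h g _ =>
  ⟨V, F, h, g, Subset.refl _, fun _ hs _ => hs, fun _ _ => by simp [e3], by simp⟩

lemma Gad.rot {α β γ μ} (h : Gad α β γ μ) : Gad γ α β μ := fun V F p q d hp g t => by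
  obtain ⟨V', F', e⟩ := h V F q d p hp g t.rot
  exact ⟨V', F', e.congr (fun s _ k => by rw [k, tri23, tri12]) fun v _ => by
    unfold e3
    ring⟩

lemma Gad.comp {α₁ β₁ γ₁ μ₁ α₂ β₂ γ₂ μ₂ α₃ β₃ γ₃ μ₃} (h₁ : Gad α₁ β₁ γ₁ μ₁) (h₂ : Gad α₂ β₂ γ₂ μ₂)
    (h₃ : Gad α₃ β₃ γ₃ μ₃) : Gad (1 + α₁ + α₂) (1 + β₁ + α₃) (1 + β₂ + β₃)
      ({3 + γ₁ + γ₂ + γ₃} + (μ₁ + μ₂ + μ₃)) := by
  intro V F p q d h g t
  obtain ⟨z, hz⟩ := Infinite.exists_notMem_finset V
  have hy : ∀ s ∈ F, z ∉ s := fun s hs hy => hz (h.sub s hs hy)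
  obtain ⟨f1, f2, f3⟩ := fresh hy t
  have h0 := h.stk t hz
  have t1 : T (stk F z p q d) p q z := stk_edge t hy (by simp) (by simp) t.1
  have t2 : T (stk F z p q d) p d z := stk_edge t hy (by simp) (by simp) t.2.1
  have t3 : T (stk F z p q d) q d z := stk_edge t hy (by simp) (by simp) t.2.2.1
  have n1 : ∀ a b : ℕ, ({a, d, z} : Finset ℕ) ≠ {p, q, z} := fun a _ e => by
    have : d ∈ ({p, q, z} : Finset ℕ) := e ▸ (by simp)
    simp [t.2.1.symm, t.2.2.1.symm, f3.symm] at this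
  have n2 : ({q, d, z} : Finset ℕ) ≠ {p, d, z} := fun e => by
    have : q ∈ ({p, d, z} : Finset ℕ) := e ▸ (by simp)
    simp [t.1.symm, t.2.2.1, f2.symm] at this
  have out : ∀ {a b α β γ v}, T (stk F z p q d) a b z → v ∉ insert z V → e3 a b z α β γ v = 0 := by
    intro a b α β γ v k hv
    have k1 : v ≠ a := fun e => hv (e ▸ h0.mem k)
    have k2 : v ≠ b := fun e => hv (e ▸ h0.mem k.rot)
    have k3 : v ≠ z := fun e => hv (e ▸ h0.mem k.rot')
    simp [e3, k1, k2, k3]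
  obtain ⟨V₁, F₁, e₁⟩ := h₁ _ _ p q z h0 (g.stk h t hz) t1
  obtain ⟨V₂, F₂, e₂⟩ := h₂ V₁ F₁ p d z e₁.pre e₁.geo
    ⟨t2.1, t2.2.1, t2.2.2.1, e₁.keep _ t2.2.2.2 (n1 p p)⟩
  have e₁₂ := e₁.trans e₂ fun v hv => out t2 hv
  obtain ⟨V₃, F₃, e₃⟩ := h₃ V₂ F₂ q d z e₂.pre e₂.geo
    ⟨t3.1, t3.2.1, t3.2.2.1, e₁₂.keep _ t3.2.2.2 (not_or.2 ⟨n1 q q, n2⟩)⟩
  have e := e₁₂.trans e₃ fun v hv => out t3 hv
  refine ⟨V₃, F₃, e.pre, e.geo, (subset_insert _ _).trans e.sub, fun s hs k => ?_,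
    fun v hv => ?_, ?_⟩
  · refine e.keep s (mem_stk.2 (Or.inr (Or.inr (Or.inr ⟨k, hs⟩)))) ?_
    rintro ((rfl | rfl) | rfl) <;> exact hy _ hs (by simp)
  · have hvz : v ≠ z := fun e => hz (e ▸ hv)
    rw [e.dg v (mem_insert_of_mem hv), deg_stk t hy hvz]
    have k1 := t.1
    have k2 := t.2.1
    have k3 := t.2.2.1
    simp only [e3, mem_insert, mem_singleton]
    split_ifs <;> omega
  · rw [sdiff_val_add (subset_insert z V) e.sub, Multiset.map_add, e.new, insert_sdiff_of_notMem _ hz,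
      sdiff_self]
    congr 1
    simp only [bot_eq_empty, insert_empty_eq, singleton_val, Multiset.map_singleton,
      Multiset.singleton_inj]
    rw [e.dg z (mem_insert_self _ _), deg_stk_self t hy]
    simp only [e3, f1, f2, f3, if_true, if_false]
    ring

lemma Gad.cast {α β γ μ α' β' γ' μ'} (h : Gad α β γ μ) (h1 : α = α') (h2 : β = β') (h3 : γ = γ')
    (h4 : μ = μ') : Gad α' β' γ' μ' := h1 ▸ h2 ▸ h3 ▸ h4 ▸ h

lemma gad_chain (l : ℕ) : Gad (1 + l) (1 + l) 1 ({3} + Multiset.replicate l 4) := by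
  induction l with
  | zero => exact Gad.zero.comp Gad.zero Gad.zero
  | succ l ih =>
    refine (ih.comp Gad.zero Gad.zero).cast (by ring) (by ring) rfl ?_
    rw [Multiset.replicate_succ, ← Multiset.singleton_add]
    simp only [add_zero]
    abel

lemma gad_lev (j : ℕ) : ∀ c l, c + 1 = 2 ^ (j + 1) →
    Gad (c + l) (c + l) c (lev (j + 1) + Multiset.replicate l 4) := by
  induction j with
  | zero =>
    intro c l hc
    obtain rfl : c = 1 := by omega
    simpa [lev] using gad_chain l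
  | succ j ih =>
    intro c l hc
    have h2 := Nat.two_pow_pos (j + 1)
    obtain ⟨c', hc'⟩ : ∃ c', c' + 1 = 2 ^ (j + 1) := ⟨2 ^ (j + 1) - 1, by omega⟩
    refine ((ih c' l hc').comp (ih c' 0 hc') (ih c' 0 hc')).cast (by omega) (by omega) (by omega) ?_
    rw [lev.eq_2 (j + 1), show 3 + c' + c' + c' = 3 * 2 ^ (j + 1) by omega]
    simp only [Multiset.replicate_zero, add_zero, succ_nsmul, zero_nsmul, zero_add]
    abel

lemma gad_y {j c : ℕ} (hc : c + 1 = 2 ^ (j + 1)) (a : ℕ) : Gad (2 * c + 1) (2 * c + 1)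
    (2 * c + 1 + a) ({2 ^ (j + 1) * 3 + a} + (3 • lev (j + 1) + Multiset.replicate a 4)) := by
  refine ((gad_lev j c 0 hc).comp (gad_lev j c a hc).rot (gad_lev j c 0 hc)).cast (by omega)
    (by omega) (by omega) ?_
  rw [show 3 + c + (c + a) + c = 2 ^ (j + 1) * 3 + a by omega]
  simp only [Multiset.replicate_zero, add_zero, succ_nsmul, zero_nsmul, zero_add]
  abel

/-- The new degrees created for a group of three numbers. -/
def grp (j : ℕ) (g : Multiset ℕ) : Multiset ℕ :=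
  {2 ^ j * 6 + g.sum} + g.map (fun x => 2 ^ j * 3 + x) + 9 • lev j + Multiset.replicate g.sum 4

lemma gad_x {j c : ℕ} (hc : c + 1 = 2 ^ (j + 1)) {g : Multiset ℕ} (hg : g.card = 3) :
    Gad (4 * c + 3) (4 * c + 3) (4 * c + 3) (grp (j + 1) g) := by
  obtain ⟨x, y, z, rfl⟩ := Multiset.card_eq_three.1 hg
  refine ((gad_y hc x).comp (gad_y hc y) (gad_y hc z)).cast (by omega) (by omega) (by omega) ?_
  rw [show 3 + (2 * c + 1 + x) + (2 * c + 1 + y) + (2 * c + 1 + z) = 2 ^ (j + 1) * 6 + (x + (y + z))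
    by omega]
  simp only [grp, Multiset.insert_eq_cons, Multiset.sum_cons, Multiset.sum_singleton,
    Multiset.map_cons, Multiset.map_singleton, Multiset.replicate_add]
  simp only [← Multiset.singleton_add]
  ext n
  simp only [Multiset.count_add, Multiset.count_nsmul]
  ring

lemma sum_grp (j : ℕ) (l : Multiset (Multiset ℕ)) : (l.map (grp j)).sum =
    (l.map Multiset.sum).map (fun x => 2 ^ j * 6 + x) + l.sum.map (fun x => 2 ^ j * 3 + x) +
      (9 * l.card) • lev j + Multiset.replicate l.sum.sum 4 := by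
  induction l using Multiset.induction_on with
  | empty => simp
  | cons g l ih =>
    rw [Multiset.map_cons, Multiset.sum_cons, ih]
    simp only [Multiset.map_cons, Multiset.sum_cons, grp, Multiset.map_add, Multiset.sum_add,
      Multiset.replicate_add, Multiset.card_cons]
    simp only [← Multiset.singleton_add]
    ext n
    simp only [Multiset.count_add, Multiset.count_nsmul]
    ring

lemma apply_all (c : ℕ) (l : Multiset (Multiset ℕ)) : (∀ μ ∈ l, Gad c c c μ) →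
    ∀ V F R, Pre V F → Geo V F → R ⊆ F → R.card = l.card →
      ∃ V' F', Ext V F V' F' (fun s => s ∈ R) (fun v => c * deg R v) l.sum := by
  induction l using Multiset.induction_on with
  | empty =>
    intro _ V F R h g _ hc
    obtain rfl : R = ∅ := by simpa using hc
    exact ⟨V, F, h, g, Subset.refl _, fun _ hs _ => hs, fun _ _ => by simp [deg], by simp⟩
  | cons μ l ih =>
    intro hl V F R h g hR hc
    rw [Multiset.card_cons] at hc
    obtain ⟨t, ht⟩ := card_pos.1 (show 0 < R.card by omega)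
    obtain ⟨p, q, d, k, rfl⟩ := h.exists_T0 (hR ht)
    obtain ⟨V₁, F₁, e₁⟩ := hl μ (Multiset.mem_cons_self _ _) V F p q d h g k
    obtain ⟨V₂, F₂, e₂⟩ := ih (fun ν hν => hl ν (Multiset.mem_cons_of_mem hν)) V₁ F₁
      (R.erase {p, q, d}) e₁.pre e₁.geo
      (fun s hs => e₁.keep s (hR (mem_erase.1 hs).2) (mem_erase.1 hs).1)
      (by rw [card_erase_of_mem ht]; omega)
    refine ⟨V₂, F₂, Multiset.sum_cons μ l ▸ (e₁.trans e₂ fun v hv => ?_).congr ?_ fun v _ => ?_⟩
    · rw [deg, filter_eq_empty_iff.2 fun s hs k => hv (h.sub s (hR (mem_erase.1 hs).2) k)]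
      simp
    · rintro s - (rfl | k)
      · exact ht
      · exact (mem_erase.1 k).2
    · simp only [deg, card_filter]
      rw [← add_sum_erase R _ ht, mul_add]
      congr 1
      have k1 := k.1
      have k2 := k.2.1
      have k3 := k.2.2.1
      simp only [e3, mem_insert, mem_singleton]
      split_ifs <;> omega

lemma pre_tet : Pre {0, 1, 2, 3} ({{0, 1, 2}, {0, 1, 3}, {0, 2, 3}, {1, 2, 3}} : Finset (Finset ℕ)) := by
  refine ⟨by decide, by decide, by decide, fun {a b c} k => ?_, by decide⟩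
  have hs : ∀ t ∈ ({{0, 1, 2}, {0, 1, 3}, {0, 2, 3}, {1, 2, 3}} : Finset (Finset ℕ)), ∀ x ∈ t,
      x < 4 := by decide
  have ha := hs _ k.2.2.2 a (by simp)
  have hb := hs _ k.2.2.2 b (by simp)
  have hc := hs _ k.2.2.2 c (by simp)
  refine ⟨6 - a - b - c, ?_⟩
  revert k
  unfold T
  interval_cases a <;> interval_cases b <;> interval_cases c <;> decide

lemma geo_tet : Geo {0, 1, 2, 3} ({{0, 1, 2}, {0, 1, 3}, {0, 2, 3}, {1, 2, 3}} : Finset (Finset ℕ)) := by
  let n : ℕ → EuclideanSpace ℝ (Fin 3) := fun i =>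
    if i = 0 then !₂[1, 1, 1] else if i = 1 then !₂[1, -1, -1] else if i = 2 then !₂[-1, 1, -1]
      else !₂[-1, -1, 1]
  refine ⟨fun v => (innerSL ℝ (n v)).toLinearMap, fun t => ∑ v ∈ t, n v, fun t ht v hv => ?_⟩
  simp only [mem_insert, mem_singleton] at ht hv
  rcases ht with rfl | rfl | rfl | rfl <;> rcases hv with rfl | rfl | rfl | rfl <;>
    simp [n, PiLp.inner_apply, Fin.sum_univ_three] <;> norm_num

/-- The degrees of the unweighted vertices of the base triangulation. -/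
def zz (m : ℕ) : Multiset ℕ :=
  {4 * (m + 4), 4 * (m + 4), 16, 12, 12} + Multiset.replicate m 16 +
    Multiset.replicate (m + 6) 6 + Multiset.replicate (3 * m + 18) 3

theorem build {j : ℕ} (hj : j ≠ 0) {a B : Multiset ℕ} (h : TS a B) :
    ∃ (V : Finset ℕ) (F : Finset (Finset ℕ)), Pre V F ∧ Geo V F ∧ V.val.map (deg F) =
      top (2 ^ j) (zz B.card) a B + (18 * B.card + 54) • lev j + Multiset.replicate a.sum 4 := by
  obtain ⟨l, h3, rfl, rfl⟩ := h
  obtain ⟨j, rfl⟩ := Nat.exists_eq_succ_of_ne_zero hj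
  have h2 := Nat.two_pow_pos (j + 1)
  obtain ⟨c, hc⟩ : ∃ c, c + 1 = 2 ^ (j + 1) := ⟨2 ^ (j + 1) - 1, by omega⟩
  rw [Multiset.card_map]
  obtain ⟨V₁, F₁, e₁⟩ := gad_chain l.card _ _ 0 1 2 pre_tet geo_tet (by unfold T; decide)
  have a₁ : V₁.val.map (deg F₁) =
      {l.card + 4, l.card + 4, 4, 3, 3} + Multiset.replicate l.card 4 := by
    rw [e₁.all, ← add_assoc]
    congr 1
    have d : ∀ v ∈ ({0, 1, 2, 3} : Finset ℕ),
        deg ({{0, 1, 2}, {0, 1, 3}, {0, 2, 3}, {1, 2, 3}} : Finset (Finset ℕ)) v = 3 := by decide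
    rw [Multiset.map_congr rfl fun v hv => by rw [d v hv],
      show ({0, 1, 2, 3} : Finset ℕ).val = {0, 1, 2, 3} from rfl]
    simp [e3, show 3 + (1 + l.card) = l.card + 4 by ring]
  have c₁ : F₁.card = l.card + (l.card + 6) := by
    have k1 := congrArg Multiset.card a₁
    have k2 := e₁.pre.card
    simp only [Multiset.card_map, card_val, Multiset.card_add, Multiset.card_replicate,
      Multiset.insert_eq_cons, Multiset.card_cons, Multiset.card_singleton] at k1
    omega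
  obtain ⟨V₂, F₂, e₂⟩ := apply_all (4 * c + 3)
    ((l + Multiset.replicate (l.card + 6) {0, 0, 0}).map (grp (j + 1))) (fun μ hμ => by
      obtain ⟨g, hg, rfl⟩ := Multiset.mem_map.1 hμ
      refine gad_x hc ?_
      rcases Multiset.mem_add.1 hg with k | k
      · exact h3 g k
      · rw [Multiset.eq_of_mem_replicate k]
        rfl) V₁ F₁ F₁ e₁.pre e₁.geo (Subset.refl _)
    (by rw [c₁, Multiset.card_map, Multiset.card_add, Multiset.card_replicate])
  refine ⟨V₂, F₂, e₂.pre, e₂.geo, ?_⟩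
  have a₂ : V₁.val.map (fun v => deg F₁ v + (4 * c + 3) * deg F₁ v) =
      (V₁.val.map (deg F₁)).map fun x => 2 ^ (j + 1) * (4 * x) := by
    rw [Multiset.map_map]
    refine Multiset.map_congr rfl fun v _ => ?_
    simp only [Function.comp, ← hc]
    ring
  have a₃ : (Multiset.replicate (l.card + 6) ({0, 0, 0} : Multiset ℕ)).sum =
      Multiset.replicate (3 * l.card + 18) 0 := by
    rw [Multiset.sum_replicate, show ({0, 0, 0} : Multiset ℕ) = Multiset.replicate 3 0 from rfl,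
      Multiset.nsmul_replicate]
    congr 1
    ring
  rw [e₂.all, a₂, a₁, sum_grp, Multiset.sum_add, a₃]
  simp only [top, zz, Multiset.map_add, Multiset.map_replicate, Multiset.insert_eq_cons,
    Multiset.map_cons, Multiset.map_singleton, Multiset.sum_cons, Multiset.sum_singleton,
    Multiset.sum_add, Multiset.sum_replicate, Multiset.card_add, Multiset.card_replicate,
    smul_zero, add_zero, Nat.succ_eq_add_one, Nat.reduceMul,
    show 9 * (l.card + (l.card + 6)) = 18 * l.card + 54 by ring]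
  abel

end Pool.Agent.P.MP_e40812_co
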