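import Pool.Agent.P.MP_e40812_co.Geo
import Pool.Agent.P.MP_e40812_co.Build

/-!
Simple polyhedra and abstract triangulated spheres.
-/

namespace Pool.Agent.P.MP_e40812_co

open Module Finset

section General

variable {W : Type*} [AddCommGroup W] [Module ℝ W] {ι : Type*} [DecidableEq ι] {pt : ι → W}
  {X : Finset ι}

lemma nsides_eq (hV : finrank ℝ W = 3) (hX : Conv pt X) {A : Finset ι} (hA : Facet pt X A) :
    nsides pt X A = A.card := by
  classical
  refine le_antisymm ?_ (card_le_nsides hV hX hA)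
  have := card_mul_le_card_mul (s := (edgeSets pt X).filter fun E => E ⊆ A) (t := A)
    (fun E w => w ∈ E) (m := 2) (n := 2) (fun E hE => by
      obtain ⟨hE, hEA⟩ := mem_filter.1 hE
      obtain ⟨x, y, h, rfl⟩ := mem_edgeSets.1 hE
      exact one_lt_card.2 ⟨x, mem_filter.2 ⟨hEA (by simp), by simp⟩, y,
        mem_filter.2 ⟨hEA (by simp), by simp⟩, h.2.2.1⟩) (fun w hw => by
      refine le_trans ?_ (edge_nbrs_le_two hV hA hw)
      refine le_trans (card_le_card (t := (A.filter fun p => Edge pt X w p).image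
        fun p => ({w, p} : Finset ι)) fun E hE => ?_) card_image_le
      obtain ⟨hE, hwE⟩ := mem_filter.1 hE
      obtain ⟨hE, hEA⟩ := mem_filter.1 hE
      obtain ⟨x, y, h, rfl⟩ := mem_edgeSets.1 hE
      simp only [mem_insert, mem_singleton] at hwE
      rcases hwE with rfl | rfl
      · exact mem_image.2 ⟨y, mem_filter.2 ⟨hEA (by simp), h⟩, rfl⟩
      · exact mem_image.2 ⟨x, mem_filter.2 ⟨hEA (by simp), h.symm⟩, pair_comm _ _⟩)
  have e : nsides pt X A = ((edgeSets pt X).filter fun E => E ⊆ A).card := by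
    unfold nsides
    congr
  omega

lemma rot_step (hX : Conv pt X) {x : ι} (hx : x ∈ X) (m : W →ₗ[ℝ] ℝ)
    (hp : ∃ z ∈ X, m (pt x) < m (pt z)) (hn : ∃ z ∈ X, m (pt z) < m (pt x)) :
    ∃ p ∈ X, m (pt x) < m (pt p) ∧ (Edge pt X x p ∨ ∃ A, Facet pt X A ∧ x ∈ A ∧ p ∈ A) := by
  classical
  obtain ⟨ψ, hψ⟩ := hX x hx
  obtain ⟨τ, hτ, hle, p, hp, hb, he⟩ := rotate (X.erase x)
    (fun z => ψ (pt z) - ψ (pt x)) (fun z => m (pt z) - m (pt x))
    (fun z hz => sub_neg.2 (hψ z (mem_erase.1 hz).2 (mem_erase.1 hz).1))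
    (by
      obtain ⟨z, hz, hz'⟩ := hp
      refine ⟨z, mem_erase.2 ⟨?_, hz⟩, sub_pos.2 hz'⟩
      rintro rfl
      exact lt_irrefl _ hz')
  obtain ⟨hpx, hpX⟩ := mem_erase.1 hp
  have hlt : ∀ z ∈ X, (ψ + τ • m) (pt z) ≠ (ψ + τ • m) (pt x) →
      (ψ + τ • m) (pt z) < (ψ + τ • m) (pt x) := by
    intro z hz hne
    refine lt_of_le_of_ne ?_ hne
    have := hle z (mem_erase.2 ⟨fun e => hne (e ▸ rfl), hz⟩)
    simp only [LinearMap.add_apply, LinearMap.smul_apply, smul_eq_mul]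
    linarith
  have hpe : (ψ + τ • m) (pt p) = (ψ + τ • m) (pt x) := by
    simp only [LinearMap.add_apply, LinearMap.smul_apply, smul_eq_mul]
    linarith
  refine ⟨p, hpX, by linarith, ?_⟩
  by_cases h : ∃ k ∈ X, k ≠ x ∧ k ≠ p ∧ (ψ + τ • m) (pt k) = (ψ + τ • m) (pt x)
  · obtain ⟨k, hk, hkx, hkp, hke⟩ := h
    refine Or.inr ⟨X.filter fun z => (ψ + τ • m) (pt z) = (ψ + τ • m) (pt x),
      ⟨two_lt_card_iff.2 ⟨x, p, k, mem_filter.2 ⟨hx, rfl⟩, mem_filter.2 ⟨hpX, hpe⟩,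
        mem_filter.2 ⟨hk, hke⟩, hpx.symm, hkx.symm, hkp.symm⟩, ψ + τ • m, fun h0 => ?_, _,
        filter_subset _ _, fun i hi => (mem_filter.1 hi).2,
        fun i hi hi' => hlt i hi fun e => hi' (mem_filter.2 ⟨hi, e⟩)⟩,
      mem_filter.2 ⟨hx, rfl⟩, mem_filter.2 ⟨hpX, hpe⟩⟩
    obtain ⟨q, hq, hq'⟩ := hn
    have e1 := LinearMap.congr_fun h0 (pt q - pt x)
    simp only [LinearMap.add_apply, LinearMap.smul_apply, map_sub, smul_eq_mul,
      LinearMap.zero_apply] at e1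
    have := hψ q hq (by
      rintro rfl
      exact lt_irrefl _ hq')
    nlinarith
  · push Not at h
    exact Or.inl ⟨hx, hpX, hpx.symm, ψ + τ • m, hpe, fun k hk h1 h2 => hlt k hk (h k hk h1 h2)⟩

lemma exists_facet (hV : finrank ℝ W = 3) (hX : Conv pt X) (hF : Full pt X) (h3 : 3 ≤ X.card)
    {x : ι} (hx : x ∈ X) : ∃ A, Facet pt X A ∧ x ∈ A := by
  obtain ⟨p, hp, q, hq, hpq⟩ := one_lt_card.1 (show 1 < (X.erase x).card by
    rw [card_erase_of_mem hx]
    omega)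
  rw [mem_erase] at hp hq
  obtain ⟨m₁, a1, a2⟩ := exists_dual_sep (indep3 hX hx hp.2 hq.2 hp.1.symm hq.1.symm hpq)
  obtain ⟨m₂, b1, b2⟩ := exists_dual_sep (indep3 hX hx hq.2 hp.2 hq.1.symm hp.1.symm hpq.symm)
  rw [map_sub] at a1 a2 b1 b2
  obtain ⟨r, -, -, h | ⟨A, hA, h, -⟩⟩ := rot_step hX hx (m₁ - m₂)
    ⟨p, hp.2, by simp only [LinearMap.sub_apply]; linarith⟩
    ⟨q, hq.2, by simp only [LinearMap.sub_apply]; linarith⟩
  · obtain ⟨A, -, hA, -, -, h, -⟩ := two_facets hV hF h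
    exact ⟨A, hA, h⟩
  · exact ⟨A, hA, h⟩

omit [DecidableEq ι] in
lemma other_facet (hV : finrank ℝ W = 3) (hF : Full pt X) {x y : ι} (h : Edge pt X x y)
    (A : Finset ι) : ∃ B, Facet pt X B ∧ B ≠ A ∧ x ∈ B ∧ y ∈ B := by
  obtain ⟨B, C, hB, hC, hBC, h1, h2, h3, h4⟩ := two_facets hV hF h
  by_cases hBA : B = A
  · exact ⟨C, hC, fun e => hBC (hBA.trans e.symm), h3, h4⟩
  · exact ⟨B, hB, hBA, h1, h2⟩

lemma three_facets (hV : finrank ℝ W = 3) (hX : Conv pt X) (hF : Full pt X) (h3 : 3 ≤ X.card)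
    {x : ι} (hx : x ∈ X) : 3 ≤ deg (facets pt X) x := by
  obtain ⟨A, hA, hxA⟩ := exists_facet hV hX hF h3 hx
  obtain ⟨p, hp, q, hq, hpq, ep, eq⟩ := two_edges hV hX hA hxA
  obtain ⟨B, hB, hBA, b1, b2⟩ := other_facet hV hF ep A
  obtain ⟨C, hC, hCA, c1, c2⟩ := other_facet hV hF eq A
  refine two_lt_card_iff.2 ⟨A, B, C, mem_filter.2 ⟨mem_facets.2 hA, hxA⟩,
    mem_filter.2 ⟨mem_facets.2 hB, b1⟩, mem_filter.2 ⟨mem_facets.2 hC, c1⟩, hBA.symm, hCA.symm, ?_⟩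
  rintro rfl
  exact hBA (facet_eq_of_three hV hX hB hA b1 b2 c2 hxA hp hq ep.2.2.1 eq.2.2.1 hpq)

omit [DecidableEq ι] in
lemma closed_all {Y : Finset ι} (f : ι → ℝ) (hf : ∀ i ∈ Y, ∀ j ∈ Y, i ≠ j → f i ≠ f j)
    (C : (ι → Prop) → Prop) (hC : ∀ P, C P → C fun i => ¬ P i)
    (up : ∀ P, C P → ∀ x ∈ Y, P x → (∃ z ∈ Y, f x < f z) → ∃ z ∈ Y, P z ∧ f x < f z)
    (P : ι → Prop) (hP : C P) {x y : ι} (hx : x ∈ Y) (hy : y ∈ Y) (h : P x) : P y := by
  classical
  obtain ⟨M, hM, hM'⟩ := exists_max_image Y f ⟨x, hx⟩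
  have key : ∀ Q, C Q → ∀ z ∈ Y, Q z → Q M := by
    intro Q hQ z hz h
    by_contra hn
    obtain ⟨u, hu, hu'⟩ := exists_max_image (Y.filter Q) f ⟨z, mem_filter.2 ⟨hz, h⟩⟩
    obtain ⟨hu, hQu⟩ := mem_filter.1 hu
    obtain ⟨v, hv, h1, h2⟩ := up Q hQ u hu hQu
      ⟨M, hM, lt_of_le_of_ne (hM' u hu) (hf u hu M hM fun e => hn (e ▸ hQu))⟩
    exact absurd (hu' v (mem_filter.2 ⟨hv, h1⟩)) (not_le.2 h2)
  by_contra hn
  exact key _ (hC P hP) y hy hn (key P hP x hx h)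

lemma edge_conn (hV : finrank ℝ W = 3) (hX : Conv pt X) (hF : Full pt X) (h3 : 3 ≤ X.card)
    (P : ι → Prop) (hP : ∀ a b, Edge pt X a b → P a → P b) {x y : ι} (hx : x ∈ X) (hy : y ∈ X)
    (h : P x) : P y := by
  obtain ⟨l, hl⟩ := exists_generic hX
  have hC : ∀ Q : ι → Prop, (∀ a b, Edge pt X a b → Q a → Q b) →
      ∀ a b, Edge pt X a b → ¬ Q a → ¬ Q b := fun Q hQ a b e h1 h2 => h1 (hQ b a e.symm h2)
  have poly : ∀ A, Facet pt X A → ∀ Q : ι → Prop, (∀ a b, Edge pt X a b → Q a → Q b) →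
      ∀ a ∈ A, ∀ b ∈ A, Q a → Q b := by
    intro A hA Q hQ a ha b hb h
    refine closed_all (fun i => l (pt i))
      (fun i hi j hj => hl i (hA.subset hi) j (hA.subset hj)) _ hC ?_ Q hQ ha hb h
    intro Q hQ u hu hQu hz
    obtain ⟨p, hp, -, -, -, ep, -⟩ := two_edges hV hX hA hu
    rcases lt_or_gt_of_ne (hl u ep.1 p ep.2.1 ep.2.2.1) with k | k
    · exact ⟨p, hp, hQ u p ep hQu, k⟩
    · obtain ⟨q, hq, eq, k'⟩ := edge_of_rot hV hX hA hu l hz ⟨p, hp, k⟩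
      exact ⟨q, hq, hQ u q eq hQu, k'⟩
  refine closed_all (fun i => l (pt i)) hl _ hC ?_ P hP hx hy h
  intro Q hQ u hu hQu hz
  obtain ⟨A, hA, huA⟩ := exists_facet hV hX hF h3 hu
  obtain ⟨p, -, -, -, -, ep, -⟩ := two_edges hV hX hA huA
  rcases lt_or_gt_of_ne (hl u ep.1 p ep.2.1 ep.2.2.1) with k | k
  · exact ⟨p, ep.2.1, hQ u p ep hQu, k⟩
  · obtain ⟨q, hq, k', e | ⟨B, hB, h1, h2⟩⟩ := rot_step hX hu l hz ⟨p, ep.2.1, k⟩
    · exact ⟨q, hq, hQ u q e hQu, k'⟩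
    · exact ⟨q, hq, poly B hB Q hQ u h1 q h2 hQu, k'⟩

theorem tri_of_simple (hV : finrank ℝ W = 3) (hX : Conv pt X) (hF : Full pt X) (h3 : 3 ≤ X.card)
    (hs : ∑ A ∈ facets pt X, A.card + 12 = 6 * (facets pt X).card) :
    ∃ F, Tri (facets pt X) F ∧ ∀ A ∈ facets pt X, deg F A = A.card := by
  obtain ⟨τ, hτ⟩ : ∃ τ : ι → Finset (Finset ι), τ = fun x => (facets pt X).filter fun A => x ∈ A :=
    ⟨_, rfl⟩
  have mτ : ∀ x A, A ∈ τ x ↔ Facet pt X A ∧ x ∈ A := by simp [hτ, mem_facets]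
  have s1 := sum_deg X (facets pt X)
  rw [sum_congr rfl fun A hA => show (A ∩ X).card = A.card by
    rw [inter_eq_left.2 (mem_facets.1 hA).subset]] at s1
  have s2 := sum_facets hV hX (by omega)
  have s3 : ∑ A ∈ facets pt X, A.card = ∑ A ∈ facets pt X, ((A.card - 2) + 2) :=
    sum_congr rfl fun A hA => by
      have := (mem_facets.1 hA).1
      omega
  have s4 := sum_le_sum fun x hx => three_facets hV hX hF h3 (x := x) hx
  rw [sum_add_distrib, sum_const, smul_eq_mul] at s3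
  rw [sum_const, smul_eq_mul] at s4
  replace s1 : ∑ x ∈ X, deg (facets pt X) x + 12 = 6 * (facets pt X).card := s1 ▸ hs
  have c3 : ∀ x ∈ X, (τ x).card = 3 := fun x hx => by
    rw [hτ]
    exact ((sum_eq_sum_iff_of_le fun x hx => three_facets hV hX hF h3 (x := x) hx).1 (by
      rw [sum_const, smul_eq_mul]
      omega) x hx).symm
  have inj : ∀ x ∈ X, ∀ y ∈ X, τ x = τ y → x = y := by
    intro x hx y _ e
    by_contra hxy
    obtain ⟨A, B, C, h1, h2, h3, e'⟩ := card_eq_three.1 (c3 x hx)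
    have a1 := (mτ x A).1 (e' ▸ by simp)
    have a2 := (mτ x B).1 (e' ▸ by simp)
    have a3 := (mτ x C).1 (e' ▸ by simp)
    rw [e] at e'
    exact three_facets_false hV hX a1.1 a2.1 a3.1 h1 h2 h3 hxy a1.2 ((mτ y A).1 (e' ▸ by simp)).2
      a2.2 ((mτ y B).1 (e' ▸ by simp)).2 a3.2 ((mτ y C).1 (e' ▸ by simp)).2
  have ofT : ∀ {A B C}, T (X.image τ) A B C → ∃ x ∈ X, τ x = {A, B, C} ∧
      (Facet pt X A ∧ x ∈ A) ∧ Facet pt X B ∧ x ∈ B := by
    intro A B C k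
    obtain ⟨x, hx, e⟩ := mem_image.1 k.2.2.2
    exact ⟨x, hx, e, (mτ x A).1 (e ▸ by simp), (mτ x B).1 (e ▸ by simp)⟩
  have toT : ∀ {A B y}, A ≠ B → Facet pt X A → Facet pt X B → y ∈ A → y ∈ B →
      ∃ D, T (X.image τ) A B D ∧ τ y = {A, B, D} := by
    intro A B y hAB hA hB h1 h2
    obtain ⟨D, d1, d2, e⟩ := three_of_mem (c3 y (hA.subset h1)) ((mτ y A).2 ⟨hA, h1⟩)
      ((mτ y B).2 ⟨hB, h2⟩) hAB
    exact ⟨D, ⟨hAB, d1, d2, e ▸ mem_image_of_mem τ (hA.subset h1)⟩, e⟩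
  refine ⟨X.image τ, ⟨⟨fun t ht => ?_, fun t ht => ?_, fun A hA => ?_, fun {A B C} k => ?_, ?_⟩,
    fun {A B C D E} k1 k2 k3 => ?_, fun S hS hc t ht => ?_⟩, fun A hA => ?_⟩
  · obtain ⟨x, hx, rfl⟩ := mem_image.1 ht
    exact c3 x hx
  · obtain ⟨x, hx, rfl⟩ := mem_image.1 ht
    exact hτ ▸ filter_subset _ _
  · rw [mem_facets] at hA
    obtain ⟨x, hx⟩ := card_pos.1 (show 0 < A.card by have := hA.1; omega)
    exact ⟨τ x, mem_image_of_mem τ (hA.subset hx), (mτ x A).2 ⟨hA, hx⟩⟩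
  · obtain ⟨x, hx, e, ⟨hA, hxA⟩, hB, hxB⟩ := ofT k
    obtain ⟨y, hyA, hyB, hyx⟩ : ∃ y ∈ A, y ∈ B ∧ x ≠ y := by
      obtain ⟨p, hp, q, hq, hpq, ep, eq⟩ := two_edges hV hX hA hxA
      obtain ⟨B', b0, b1, b2, b3⟩ := other_facet hV hF ep A
      obtain ⟨C', c0, c1, c2, c4⟩ := other_facet hV hF eq A
      have m1 := (mτ x B').2 ⟨b0, b2⟩
      have m2 := (mτ x C').2 ⟨c0, c2⟩
      simp only [e, mem_insert, mem_singleton, b1, c1, false_or] at m1 m2
      rcases m1 with rfl | rfl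
      · exact ⟨p, hp, b3, ep.2.2.1⟩
      rcases m2 with rfl | rfl
      · exact ⟨q, hq, c4, eq.2.2.1⟩
      exact absurd (facet_eq_of_three hV hX b0 hA b2 b3 c4 hxA hp hq ep.2.2.1 eq.2.2.1 hpq) b1
    obtain ⟨D, k', e'⟩ := toT k.1 hA hB hyA hyB
    refine ⟨D, ?_, k'⟩
    rintro rfl
    exact hyx (inj x hx y (hA.subset hyA) (e.trans e'.symm))
  · rw [card_image_of_injOn inj]
    omega
  · obtain ⟨x, -, e1, ⟨hA, x1⟩, hB, x2⟩ := ofT k1
    obtain ⟨y, -, e2, ⟨-, y1⟩, -, y2⟩ := ofT k2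
    obtain ⟨z, -, e3, ⟨-, z1⟩, -, z2⟩ := ofT k3
    by_cases hxy : x = y
    · exact Or.inl (tri_inj (e1.symm.trans (hxy ▸ e2)) k1.2.1 k1.2.2.1)
    by_cases hxz : x = z
    · exact Or.inr (Or.inl (tri_inj (e1.symm.trans (hxz ▸ e3)) k1.2.1 k1.2.2.1))
    by_cases hyz : y = z
    · exact Or.inr (Or.inr (tri_inj (e2.symm.trans (hyz ▸ e3)) k2.2.1 k2.2.2.1))
    exact absurd (facet_eq_of_three hV hX hA hB x1 y1 z1 x2 y2 z2 hxy hxz hyz) k1.1
  · obtain ⟨s, hs, hS⟩ := hS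
    obtain ⟨x, hx, rfl⟩ := mem_image.1 hs
    obtain ⟨y, hy, rfl⟩ := mem_image.1 ht
    refine edge_conn hV hX hF h3 (fun x => S (τ x)) (fun a b e h => ?_) hx hy hS
    obtain ⟨A, B, hA, hB, hAB, h1, h2, h3, h4⟩ := two_facets hV hF e
    obtain ⟨C, k1, e1⟩ := toT hAB hA hB h1 h3
    obtain ⟨D, k2, e2⟩ := toT hAB hA hB h2 h4
    exact e2 ▸ hc A B C D k1 k2 (e1 ▸ h)
  · rw [mem_facets] at hA
    have : ((X.image τ).filter fun t => A ∈ t) = A.image τ := by
      ext t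
      simp only [mem_filter, mem_image]
      constructor
      · rintro ⟨⟨x, -, rfl⟩, h⟩
        exact ⟨x, ((mτ x A).1 h).2, rfl⟩
      · rintro ⟨x, hx, rfl⟩
        exact ⟨⟨x, hA.subset hx, rfl⟩, (mτ x A).2 ⟨hA, hx⟩⟩
    rw [deg, this, card_image_of_injOn fun x hx y hy => inj x (hA.subset hx) y (hA.subset hy)]

end General

lemma count_map_val {α : Type*} (V : Finset α) (f : α → ℕ) (n : ℕ) :
    (V.val.map f).count n = (V.filter fun v => f v = n).card := by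
  rw [Multiset.count_map, ← card_val, filter_val]
  simp only [eq_comm]

open Classical in
theorem tri_of_poly {P : Set (EuclideanSpace ℝ (Fin 3))} (hP : IsPolyhedron P) {s : Multiset ℕ}
    (h3 : ∀ n ∈ s, 3 ≤ n) (hc : ∀ n, 3 ≤ n → faceCount P n = s.count n)
    (hs : s.sum + 12 = 6 * s.card) :
    ∃ (V : Finset (Finset (EuclideanSpace ℝ (Fin 3)))) (F : Finset (Finset _)),
      Tri V F ∧ V.val.map (deg F) = s := by
  obtain ⟨X, rfl, hX, hd⟩ := exists_vertices hP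
  have e : (facets id X).val.map card = s := by
    ext n
    rw [count_map_val]
    by_cases hn : 3 ≤ n
    · rw [← hc n hn, faceCount_eq hX hd]
      exact congrArg card (filter_congr fun A hA => by
        rw [nsides_eq finrank_three hX (mem_facets.1 hA)])
    · rw [Multiset.count_eq_zero.2 fun h => hn (h3 n h), card_eq_zero, filter_eq_empty_iff]
      exact fun A hA h => hn (h ▸ (mem_facets.1 hA).1)
  have hne : X.Nonempty := by
    rw [nonempty_iff_ne_empty]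
    rintro rfl
    rw [coe_empty, vectorSpan_empty, finrank_bot] at hd
    omega
  obtain ⟨F, h, h'⟩ := tri_of_simple finrank_three hX (full_of_dim hd) (by
    have := dim_lt_card hne
    omega) (by rw [sum_eq_multiset_sum, e, hs, ← e, Multiset.card_map, card_val])
  exact ⟨_, F, h, by rw [← e, Multiset.map_congr rfl h']⟩

theorem poly_of_geo {ι : Type*} [DecidableEq ι] {V : Finset ι} {F : Finset (Finset ι)}
    (h : Pre V F) (g : Geo V F) :
    ∃ P, IsPolyhedron P ∧ ∀ n, faceCount P n = (V.val.map (deg F)).count n := by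
  classical
  obtain ⟨φ, x, g⟩ := g
  have le : ∀ s ∈ F, ∀ v ∈ V, φ v (x s) ≤ 1 := fun s hs v hv => by
    by_cases k : v ∈ s
    · exact ((g s hs v hv).1 k).le
    · exact ((g s hs v hv).2 k).le
  have sep : ∀ s ∈ F, ∀ t ∈ F, s ≠ t → (∑ v ∈ t, φ v) (x s) < (∑ v ∈ t, φ v) (x t) := by
    intro s hs t ht hst
    simp only [LinearMap.sum_apply]
    obtain ⟨v, hv, hvs⟩ : ∃ v ∈ t, v ∉ s := by
      by_contra hh
      push Not at hh
      exact hst (eq_of_subset_of_card_le hh (by rw [h.three s hs, h.three t ht])).symm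
    refine sum_lt_sum (fun u hu => ?_) ⟨v, hv, ?_⟩
    · rw [(g t ht u (h.sub t ht hu)).1 hu]
      exact le s hs u (h.sub t ht hu)
    · rw [(g t ht v (h.sub t ht hv)).1 hv]
      exact (g s hs v (h.sub t ht hv)).2 hvs
  have inj : ∀ s ∈ F, ∀ t ∈ F, x s = x t → s = t := fun s hs t ht e => by
    by_contra hst
    exact (sep s hs t ht hst).ne (by rw [e])
  have hX : Conv id (F.image x) := by
    intro p hp
    obtain ⟨t, ht, rfl⟩ := mem_image.1 hp
    refine ⟨∑ v ∈ t, φ v, fun q hq hne => ?_⟩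
    obtain ⟨s, hs, rfl⟩ := mem_image.1 hq
    exact sep s hs t ht fun e => hne (e ▸ rfl)
  obtain ⟨A, hA⟩ : ∃ A : ι → Finset (EuclideanSpace ℝ (Fin 3)),
    A = fun v => (F.filter fun t => v ∈ t).image x := ⟨_, rfl⟩
  have cA : ∀ v, (A v).card = deg F v := fun v => by
    rw [hA]
    exact card_image_of_injOn fun s hs t ht => inj s (mem_filter.1 hs).1 t (mem_filter.1 ht).1
  have mA : ∀ v, ∀ t ∈ F, x t ∈ A v ↔ v ∈ t := by
    intro v t ht
    simp only [hA, mem_image, mem_filter]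
    exact ⟨fun ⟨s, hs, e⟩ => inj s hs.1 t ht e ▸ hs.2, fun k => ⟨t, ⟨ht, k⟩, rfl⟩⟩
  have sA : ∀ v, A v ⊆ F.image x := fun v => hA ▸ image_subset_image (filter_subset _ _)
  have fA : ∀ v ∈ V, Facet id (F.image x) (A v) := by
    intro v hv
    refine ⟨(cA v).symm ▸ h.three_le hv, φ v, fun h0 => ?_, 1, sA v, fun p hp => ?_,
      fun p hp hp' => ?_⟩
    · obtain ⟨t, ht, hvt⟩ := h.cover v hv
      simpa [h0] using (g t ht v hv).1 hvt
    · obtain ⟨t, ht, rfl⟩ := mem_image.1 (sA v hp)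
      exact (g t ht v hv).1 ((mA v t ht).1 hp)
    · obtain ⟨t, ht, rfl⟩ := mem_image.1 hp
      exact (g t ht v hv).2 fun k => hp' ((mA v t ht).2 k)
  have iA : ∀ u ∈ V, ∀ v ∈ V, A u = A v → u = v := by
    intro u hu v _ e
    by_contra huv
    have key : ∀ t ∈ F, u ∈ t → v ∈ t := fun t ht k => (mA v t ht).1 (e ▸ (mA u t ht).2 k)
    obtain ⟨t, ht, hut⟩ := h.cover u hu
    obtain ⟨a, k, -⟩ := h.exists_T2 ht hut (key t ht hut) huv
    obtain ⟨d, hd, k'⟩ := h.next k.s23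
    have := key _ k'.2.2.2 (by simp)
    simp [Ne.symm huv, k.2.2.1, hd.symm] at this
  have hc := h.card
  obtain ⟨u, hu, v, hv, huv⟩ := one_lt_card.1 (show 1 < V.card by omega)
  have h3 : 3 ≤ (F.image x).card := (fA u hu).1.trans (card_le_card (sA u))
  have hd : finrank ℝ (vectorSpan ℝ ((F.image x : Finset _) : Set (EuclideanSpace ℝ (Fin 3)))) =
      3 := by
    by_contra hne
    obtain ⟨f, hf, hf'⟩ := Submodule.exists_dual_map_eq_bot_of_lt_top
      (p := vectorSpan ℝ ((F.image x : Finset _) : Set (EuclideanSpace ℝ (Fin 3))))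
      (lt_top_iff_ne_top.2 fun e => hne (by rw [e, finrank_top, finrank_three])) inferInstance
    obtain ⟨p, hp⟩ := card_pos.1 (show 0 < (F.image x).card by omega)
    have fX : Facet id (F.image x) (F.image x) := ⟨h3, f, hf, f p, Subset.refl _, fun q hq => by
      have : f (q - p) ∈ (vectorSpan ℝ ((F.image x : Finset _) :
          Set (EuclideanSpace ℝ (Fin 3)))).map f :=
        Submodule.mem_map_of_mem (vsub_mem_vectorSpan ℝ hq hp)
      rwa [hf', Submodule.mem_bot, map_sub, sub_eq_zero] at this, fun q hq hq' => absurd hq hq'⟩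
    have key : ∀ w ∈ V, A w = F.image x := fun w hw => by
      by_contra hne
      obtain ⟨z, z1, z2⟩ := facet_not_subset finrank_three hX (fA w hw) fX hne
      exact z2 (sA w z1)
    exact huv (iA u hu v hv ((key u hu).trans (key v hv).symm))
  have hfac : facets id (F.image x) = V.image A := by
    have hsub : V.image A ⊆ facets id (F.image x) := fun B hB => by
      obtain ⟨w, hw, rfl⟩ := mem_image.1 hB
      exact mem_facets.2 (fA w hw)
    have s1 := sum_facets finrank_three hX (by omega)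
    rw [← sum_sdiff hsub, sum_image iA, card_image_of_injOn inj] at s1
    have s2 : ∑ w ∈ V, deg F w = ∑ w ∈ V, (((A w).card - 2) + 2) := sum_congr rfl fun w hw => by
      have := h.three_le hw
      rw [cA]
      omega
    have s3 := h.sum_deg
    simp only [sum_add_distrib, sum_const, smul_eq_mul] at s2
    rw [card_image_of_injOn inj] at h3
    have s4 : ∑ B ∈ facets id (F.image x) \ V.image A, (B.card - 2) = 0 := by omega
    refine Subset.antisymm (fun B hB => ?_) hsub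
    by_contra hn
    have k1 := sum_eq_zero_iff.1 s4 B (mem_sdiff.2 ⟨hB, hn⟩)
    have k2 := (mem_facets.1 hB).1
    omega
  refine ⟨convexHull ℝ ((F.image x : Finset _) : Set _), ⟨⟨_, rfl⟩, by rw [vectorSpan_hull, hd]⟩,
    fun n => ?_⟩
  rw [faceCount_eq hX hd, count_map_val, hfac, filter_image,
    card_image_of_injOn fun a ha b hb => iA a (mem_filter.1 ha).1 b (mem_filter.1 hb).1]
  exact congrArg card (filter_congr fun w hw => by rw [nsides_eq finrank_three hX (fA w hw), cA])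

end Pool.Agent.P.MP_e40812_co
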