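import Pool.Agent.P.MP_e40812_co.Dual

/-!
Inequalities for the numbers of sides of the facets of a point family in convex position.
-/

namespace Pool.Agent.P.MP_e40812_co

open Module Finset

variable {V : Type*} [AddCommGroup V] [Module ℝ V] {ι : Type*} [DecidableEq ι]

open Classical in
/-- The edges as two-element sets. -/
noncomputable def edgeSets (pt : ι → V) (X : Finset ι) : Finset (Finset ι) :=
  X.powerset.filter fun E => ∃ x y, Edge pt X x y ∧ E = {x, y}

open Classical in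
/-- The number of edges inside `A`. -/
noncomputable def nsides (pt : ι → V) (X : Finset ι) (A : Finset ι) : ℕ :=
  ((edgeSets pt X).filter fun E => E ⊆ A).card

open Classical in
/-- The members of `K` adjacent to `v`. -/
noncomputable def nb (K : Finset (Finset ι)) (v : Finset ι) : Finset (Finset ι) :=
  K.filter fun A => Adj v A

open Classical in
/-- The number of ordered corners of `v` with respect to `K`. -/
noncomputable def cor (K : Finset (Finset ι)) (X v : Finset ι) : ℕ :=
  ∑ w ∈ X, ((K ×ˢ K).filter fun e => Corner v w e.1 e.2).card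

open Classical in
/-- Ordered pairs of members of `K` that are edges of the polar family of `Y`. -/
noncomputable def de (g : Finset ι → Module.Dual ℝ V) (Y K : Finset (Finset ι)) :
    Finset (Finset ι × Finset ι) :=
  (K ×ˢ K).filter fun e => Edge g Y e.1 e.2

variable {pt : ι → V} {X : Finset ι} {o : V} {g : Finset ι → Module.Dual ℝ V}

lemma mem_edgeSets {E : Finset ι} : E ∈ edgeSets pt X ↔ ∃ x y, Edge pt X x y ∧ E = {x, y} := by
  classical
  simp only [edgeSets, mem_filter, mem_powerset]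
  refine ⟨fun h => h.2, fun h => ⟨?_, h⟩⟩
  obtain ⟨x, y, h, rfl⟩ := h
  exact insert_subset h.1 (singleton_subset_iff.2 h.2.1)

lemma mem_nb {K : Finset (Finset ι)} {v A : Finset ι} : A ∈ nb K v ↔ A ∈ K ∧ Adj v A := by
  simp only [nb, mem_filter]

omit [DecidableEq ι] in
lemma mem_de {Y K : Finset (Finset ι)} {e : Finset ι × Finset ι} :
    e ∈ de g Y K ↔ (e.1 ∈ K ∧ e.2 ∈ K) ∧ Edge g Y e.1 e.2 := by
  simp only [de, mem_filter, mem_product]

lemma nsides_le_nb (hV : finrank ℝ V = 3) (hX : Conv pt X) (hF : Full pt X) {A : Finset ι}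
    (hA : Facet pt X A) : nsides pt X A ≤ (nb (facets pt X) A).card := by
  classical
  refine card_le_card_of_forall_subsingleton (fun E B => E ⊆ B) (fun E hE => ?_)
    (fun B hB => ?_)
  · obtain ⟨hE, hEA⟩ := mem_filter.1 hE
    obtain ⟨x, y, hxy, rfl⟩ := mem_edgeSets.1 hE
    have hxA : x ∈ A := hEA (by simp)
    have hyA : y ∈ A := hEA (by simp)
    have key : ∀ B, Facet pt X B → B ≠ A → x ∈ B → y ∈ B →
        ∃ b, b ∈ nb (facets pt X) A ∧ ({x, y} : Finset ι) ⊆ b := fun B hB hBA hx hy =>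
      ⟨B, mem_nb.2 ⟨mem_facets.2 hB, hBA.symm, one_lt_card.2
        ⟨x, mem_inter.2 ⟨hxA, hx⟩, y, mem_inter.2 ⟨hyA, hy⟩, hxy.2.2.1⟩⟩,
        insert_subset hx (singleton_subset_iff.2 hy)⟩
    obtain ⟨B, C, hB, hC, hBC, h1, h2, h3, h4⟩ := two_facets hV hF hxy
    by_cases hBA : B = A
    · exact key C hC (fun h => hBC (hBA.trans h.symm)) h3 h4
    · exact key B hB hBA h1 h2
  · obtain ⟨hB, hAB⟩ := mem_nb.1 hB
    have h2 := facet_inter_le hV hX hA (mem_facets.1 hB) hAB.1
    have key : ∀ E ∈ edgeSets pt X, E ⊆ A → E ⊆ B → E = A ∩ B := by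
      intro E hE h1 h3
      obtain ⟨x, y, hxy, rfl⟩ := mem_edgeSets.1 hE
      refine eq_of_subset_of_card_le (subset_inter h1 h3) ?_
      rw [card_pair hxy.2.2.1]
      exact h2
    rintro E ⟨hE, hE'⟩ E' ⟨hE1, hE1'⟩
    obtain ⟨a, b⟩ := mem_filter.1 hE
    obtain ⟨c, d⟩ := mem_filter.1 hE1
    rw [key E a b hE', key E' c d hE1']

lemma card_le_nsides (hV : finrank ℝ V = 3) (hX : Conv pt X) {A : Finset ι}
    (hA : Facet pt X A) : A.card ≤ nsides pt X A := by
  classical
  have := card_mul_le_card_mul (s := A) (t := (edgeSets pt X).filter fun E => E ⊆ A)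
    (fun w E => w ∈ E) (m := 2) (n := 2) (fun w hw => by
      obtain ⟨p, hp, q, hq, hpq, ep, eq⟩ := two_edges hV hX hA hw
      refine one_lt_card.2 ⟨{w, p}, ?_, {w, q}, ?_, fun h => ?_⟩
      · exact mem_filter.2 ⟨mem_filter.2 ⟨mem_edgeSets.2 ⟨w, p, ep, rfl⟩,
          insert_subset hw (singleton_subset_iff.2 hp)⟩, by simp⟩
      · exact mem_filter.2 ⟨mem_filter.2 ⟨mem_edgeSets.2 ⟨w, q, eq, rfl⟩,
          insert_subset hw (singleton_subset_iff.2 hq)⟩, by simp⟩
      · have : p ∈ ({w, q} : Finset ι) := h ▸ (by simp)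
        simp only [mem_insert, mem_singleton] at this
        rcases this with h | h
        · exact ep.2.2.1 h.symm
        · exact hpq h) (fun E hE => by
      obtain ⟨x, y, -, rfl⟩ := mem_edgeSets.1 (mem_filter.1 hE).1
      refine le_trans (card_le_card (t := {x, y}) fun w hw => (mem_filter.1 hw).2) card_le_two)
  have e : nsides pt X A = ((edgeSets pt X).filter fun E => E ⊆ A).card := by
    unfold nsides
    congr
  omega

lemma cor_ge (K : Finset (Finset ι)) {v : Finset ι} (hv : v ⊆ X) :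
    4 * (nb K v).card ≤ cor K X v + 2 * v.card := by
  classical
  have h1 : ∑ w ∈ v, ((nb K v).filter fun A => w ∈ A).offDiag.card ≤ cor K X v := by
    refine le_trans (sum_le_sum fun w hw => card_le_card ?_) (sum_le_sum_of_subset hv)
    intro e he
    obtain ⟨k1, k2, k3⟩ := mem_offDiag.1 he
    obtain ⟨k1, k1'⟩ := mem_filter.1 k1
    obtain ⟨k2, k2'⟩ := mem_filter.1 k2
    rw [mem_nb] at k1 k2
    exact mem_filter.2 ⟨mem_product.2 ⟨k1.1, k2.1⟩, hw, k1', k2', k3, k1.2, k2.2⟩
  have h2 : ∑ w ∈ v, 2 * ((nb K v).filter fun A => w ∈ A).card ≤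
      ∑ w ∈ v, (((nb K v).filter fun A => w ∈ A).offDiag.card + 2) := by
    refine sum_le_sum fun w _ => ?_
    rw [offDiag_card]
    generalize ((nb K v).filter fun A => w ∈ A).card = k
    rcases k with _ | _ | k
    · simp
    · simp
    · have : (k + 1 + 1) * (k + 1 + 1) = k * k + 4 * k + 4 := by ring
      omega
  have h3 := sum_card_bipartiteAbove_eq_sum_card_bipartiteBelow (s := v) (t := nb K v)
    (fun w A => w ∈ A)
  simp only [bipartiteAbove, bipartiteBelow] at h3
  have h4 : ∑ _A ∈ nb K v, 2 ≤ ∑ A ∈ nb K v, (v.filter fun w => w ∈ A).card := by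
    refine sum_le_sum fun A hA => ?_
    rw [filter_mem_eq_inter]
    exact (mem_nb.1 hA).2.2
  rw [← mul_sum, h3, sum_add_distrib] at h2
  rw [sum_const, smul_eq_mul] at h4 h2
  omega

lemma sum_cor_le (hV : finrank ℝ V = 3) (hX : Conv pt X) (hg : Polar pt X o g)
    {Y K R : Finset (Finset ι)} (hY : ∀ A ∈ Y, Facet pt X A) (hK : K ⊆ Y)
    (hR : ∀ v ∈ R, Facet pt X v ∧ v ∉ Y) : ∑ v ∈ R, cor K X v ≤ 2 * (de g Y K).card := by
  classical
  have h1 := sum_card_bipartiteAbove_eq_sum_card_bipartiteBelow (s := R ×ˢ X) (t := K ×ˢ K)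
    (fun c e => Corner c.1 c.2 e.1 e.2)
  simp only [bipartiteAbove, bipartiteBelow] at h1
  rw [sum_product] at h1
  have h2 : ∑ v ∈ R, cor K X v =
      ∑ e ∈ K ×ˢ K, ((R ×ˢ X).filter fun c => Corner c.1 c.2 e.1 e.2).card := by
    rw [← h1]
    rfl
  rw [h2, de, card_filter, mul_sum]
  refine sum_le_sum fun e he => ?_
  obtain ⟨k1, k2⟩ := mem_product.1 he
  split_ifs with h
  · exact corners_le_two hV hX (hY _ (hK k1)) (hY _ (hK k2)) _ fun c hc =>
      ⟨(hR _ (mem_product.1 (mem_filter.1 hc).1).1).1, (mem_filter.1 hc).2⟩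
  · rw [mul_zero, Nat.le_zero, card_eq_zero, filter_eq_empty_iff]
    intro c hc hc'
    have := hR _ (mem_product.1 hc).1
    exact h (dual_edge_of_corner hV hX hg hY this.1 this.2 (hK k1) (hK k2) hc')

open Classical in
lemma card_pairs (K B : Finset (Finset ι)) :
    ((K ×ˢ B).filter fun e => Adj e.2 e.1).card = ∑ v ∈ B, (nb K v).card := by
  rw [card_filter, sum_product_right]
  refine sum_congr rfl fun v _ => ?_
  rw [nb, card_filter]

lemma sum_nsides_le (hV : finrank ℝ V = 3) (hX : Conv pt X) (hF : Full pt X)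
    (hg : Polar pt X o g) {Y K : Finset (Finset ι)} (hY : ∀ A ∈ Y, Facet pt X A) (hK : K ⊆ Y) :
    ∑ A ∈ K, nsides pt X A ≤ (de g Y K).card + ∑ v ∈ facets pt X \ K, (nb K v).card := by
  classical
  have hKF : K ⊆ facets pt X := fun A hA => mem_facets.2 (hY A (hK hA))
  have h1 : ∑ A ∈ K, nsides pt X A ≤ ∑ A ∈ K, (nb (facets pt X) A).card :=
    sum_le_sum fun A hA => nsides_le_nb hV hX hF (hY A (hK hA))
  have h2 := sum_card_bipartiteAbove_eq_sum_card_bipartiteBelow (s := K) (t := facets pt X)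
    (fun A v => Adj v A)
  simp only [bipartiteAbove, bipartiteBelow] at h2
  have h3 : ∑ A ∈ K, (nb (facets pt X) A).card = ∑ v ∈ facets pt X, (nb K v).card := by
    refine Eq.trans (sum_congr rfl fun A _ => ?_) h2
    congr 1
    ext v
    rw [mem_nb, mem_filter]
    exact ⟨fun h => ⟨h.1, h.2.symm⟩, fun h => ⟨h.1, h.2.symm⟩⟩
  have h4 := sum_sdiff (f := fun v => (nb K v).card) hKF
  have h5 : ∑ v ∈ K, (nb K v).card ≤ (de g Y K).card := by
    rw [← card_pairs]
    refine card_le_card fun e he => ?_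
    obtain ⟨k1, k2⟩ := mem_filter.1 he
    rw [mem_product] at k1
    exact mem_de.2 ⟨k1, dual_edge_of_adj hV hX hg hY (hK k1.1) (hK k1.2) k2.symm⟩
  omega

lemma de_add_le (hV : finrank ℝ V = 3) (hX : Conv pt X) (hg : Polar pt X o g)
    {K B : Finset (Finset ι)} (hK : ∀ A ∈ K, Facet pt X A) (hB : ∀ A ∈ B, Facet pt X A)
    (hKB : Disjoint K B) (h3 : 3 ≤ K.card) :
    (de g (K ∪ B) K).card + 2 * ∑ v ∈ B, (nb K v).card + 12 ≤ 6 * (K.card + B.card) := by
  classical
  have hY : ∀ A ∈ K ∪ B, Facet pt X A := fun A hA => (mem_union.1 hA).elim (hK A) (hB A)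
  have hD : finrank ℝ (Module.Dual ℝ V) = 3 := by rw [Subspace.dual_finrank_eq, hV]
  let D := (K ×ˢ B).filter fun e => Adj e.2 e.1
  have hDm : ∀ e ∈ D, e.1 ∈ K ∧ e.2 ∈ B ∧ Edge g (K ∪ B) e.1 e.2 := fun e he => by
    obtain ⟨k1, k2⟩ := mem_filter.1 he
    rw [mem_product] at k1
    exact ⟨k1.1, k1.2, dual_edge_of_adj hV hX hg hY (mem_union_left _ k1.1)
      (mem_union_right _ k1.2) k2.symm⟩
  have hc : (K ∪ B).card = K.card + B.card := card_union_of_disjoint hKB
  have h1 := edges_le hD (dual_conv hV hX hg hY) (by omega)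
    (de g (K ∪ B) K ∪ D ∪ D.image Prod.swap) (fun e he => by
      rcases mem_union.1 he with he | he
      · rcases mem_union.1 he with he | he
        · exact (mem_de.1 he).2
        · exact (hDm e he).2.2
      · obtain ⟨e', he', rfl⟩ := mem_image.1 he
        exact (hDm e' he').2.2.symm)
  have d1 : Disjoint (de g (K ∪ B) K) D := by
    rw [disjoint_left]
    intro e he he'
    exact disjoint_left.1 hKB (mem_de.1 he).1.2 (hDm e he').2.1
  have d2 : Disjoint (de g (K ∪ B) K ∪ D) (D.image Prod.swap) := by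
    rw [disjoint_left]
    intro e he he'
    obtain ⟨e', he'', rfl⟩ := mem_image.1 he'
    rcases mem_union.1 he with he | he
    · exact disjoint_left.1 hKB (mem_de.1 he).1.1 (hDm e' he'').2.1
    · exact disjoint_left.1 hKB (hDm _ he).1 (hDm e' he'').2.1
  rw [card_union_of_disjoint d2, card_union_of_disjoint d1,
    card_image_of_injective _ Prod.swap_injective, hc] at h1
  have h2 : D.card = ∑ v ∈ B, (nb K v).card := by convert card_pairs K B
  omega

lemma bip_le (hV : finrank ℝ V = 3) (hX : Conv pt X) (hg : Polar pt X o g)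
    {K B : Finset (Finset ι)} (hK : ∀ A ∈ K, Facet pt X A) (hB : ∀ A ∈ B, Facet pt X A)
    (hKB : Disjoint K B) (h3 : 3 ≤ K.card) :
    ∑ v ∈ B, (nb K v).card + 4 ≤ 2 * (K.card + B.card) := by
  classical
  have hY : ∀ A ∈ K ∪ B, Facet pt X A := fun A hA => (mem_union.1 hA).elim (hK A) (hB A)
  have hD : finrank ℝ (Module.Dual ℝ V) = 3 := by rw [Subspace.dual_finrank_eq, hV]
  have hc : (K ∪ B).card = K.card + B.card := card_union_of_disjoint hKB
  have h1 := edges_bip_le hD (dual_conv hV hX hg hY) (by omega) K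
    ((K ×ˢ B).filter fun e => Adj e.2 e.1) (fun e he => by
      obtain ⟨k1, k2⟩ := mem_filter.1 he
      rw [mem_product] at k1
      exact ⟨dual_edge_of_adj hV hX hg hY (mem_union_left _ k1.1)
        (mem_union_right _ k1.2) k2.symm, k1.1, fun h => disjoint_left.1 hKB h k1.2⟩)
  rw [card_pairs, hc] at h1
  exact h1

theorem comb_M (hV : finrank ℝ V = 3) (hX : Conv pt X) (hF : Full pt X)
    {K : Finset (Finset ι)} (hK : K ⊆ facets pt X) (h3 : 3 ≤ K.card) :
    ∑ A ∈ K, nsides pt X A + 24 ≤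
      12 * K.card + ∑ v ∈ facets pt X \ K, min (nsides pt X v / 2) 3 := by
  classical
  obtain ⟨o, g, hg⟩ := exists_polar hF
  have hKF : ∀ A ∈ K, Facet pt X A := fun A hA => mem_facets.1 (hK hA)
  let B := (facets pt X \ K).filter fun v => 4 ≤ (nb K v).card
  let R := (facets pt X \ K).filter fun v => ¬ 4 ≤ (nb K v).card
  have hBF : ∀ A ∈ B, Facet pt X A := fun A hA => mem_facets.1 (mem_sdiff.1 (mem_filter.1 hA).1).1
  have hKB : Disjoint K B := by
    rw [disjoint_right]
    exact fun A hA => (mem_sdiff.1 (mem_filter.1 hA).1).2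
  have hY : ∀ A ∈ K ∪ B, Facet pt X A := fun A hA => (mem_union.1 hA).elim (hKF A) (hBF A)
  have h1 := sum_nsides_le hV hX hF hg hY subset_union_left
  have h2 := de_add_le hV hX hg hKF hBF hKB h3
  have h4 := sum_cor_le hV hX hg hY subset_union_left (R := R) fun v hv => by
    obtain ⟨k1, k2⟩ := mem_filter.1 hv
    refine ⟨mem_facets.1 (mem_sdiff.1 k1).1, fun h => ?_⟩
    rcases mem_union.1 h with h | h
    · exact (mem_sdiff.1 k1).2 h
    · exact k2 (mem_filter.1 h).2
  have h5 := sum_filter_add_sum_filter_not (facets pt X \ K) (fun v => 4 ≤ (nb K v).card)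
    fun v => (nb K v).card
  have h6 := sum_filter_add_sum_filter_not (facets pt X \ K) (fun v => 4 ≤ (nb K v).card)
    fun v => min (nsides pt X v / 2) 3
  have h7 : ∑ v ∈ R, 2 * (nb K v).card ≤
      ∑ v ∈ R, (2 * min (nsides pt X v / 2) 3 + cor K X v) := by
    refine sum_le_sum fun v hv => ?_
    obtain ⟨k1, k2⟩ := mem_filter.1 hv
    have hv := mem_facets.1 (mem_sdiff.1 k1).1
    have e1 := cor_ge K hv.subset
    have e2 := card_le_nsides hV hX hv
    have e3 := hv.1
    omega
  have h8 : ∑ v ∈ B, 12 ≤ ∑ v ∈ B, (min (nsides pt X v / 2) 3 + 3 * (nb K v).card) := by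
    refine sum_le_sum fun v hv => ?_
    have k2 := (mem_filter.1 hv).2
    omega
  rw [← mul_sum, sum_add_distrib, ← mul_sum] at h7
  rw [sum_add_distrib, ← mul_sum, sum_const, smul_eq_mul] at h8
  change ∑ v ∈ B, _ + ∑ v ∈ R, _ = _ at h5 h6
  omega

theorem comb_N (hV : finrank ℝ V = 3) (hX : Conv pt X) (hF : Full pt X)
    {K : Finset (Finset ι)} (hK : K ⊆ facets pt X) (h3 : 3 ≤ K.card) :
    ∑ A ∈ K, nsides pt X A + 28 ≤
      14 * K.card + ∑ v ∈ facets pt X \ K, min (nsides pt X v / 2) 2 := by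
  classical
  obtain ⟨o, g, hg⟩ := exists_polar hF
  have hKF : ∀ A ∈ K, Facet pt X A := fun A hA => mem_facets.1 (hK hA)
  let B := (facets pt X \ K).filter fun v => 3 ≤ (nb K v).card
  let R := (facets pt X \ K).filter fun v => ¬ 3 ≤ (nb K v).card
  have hBF : ∀ A ∈ B, Facet pt X A := fun A hA => mem_facets.1 (mem_sdiff.1 (mem_filter.1 hA).1).1
  have hKB : Disjoint K B := by
    rw [disjoint_right]
    exact fun A hA => (mem_sdiff.1 (mem_filter.1 hA).1).2
  have h1 := sum_nsides_le hV hX hF hg hKF (Subset.refl _)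
  have h2 := de_add_le hV hX hg hKF (B := ∅) (by simp) (by simp) h3
  rw [union_empty, sum_empty, card_empty] at h2
  have h2' := bip_le hV hX hg hKF hBF hKB h3
  have h4 := sum_cor_le hV hX hg hKF (Subset.refl _) (R := facets pt X \ K) fun v hv =>
    ⟨mem_facets.1 (mem_sdiff.1 hv).1, (mem_sdiff.1 hv).2⟩
  have h5 := sum_filter_add_sum_filter_not (facets pt X \ K) (fun v => 3 ≤ (nb K v).card)
    fun v => (nb K v).card
  have h6 := sum_filter_add_sum_filter_not (facets pt X \ K) (fun v => 3 ≤ (nb K v).card)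
    fun v => min (nsides pt X v / 2) 2
  have h6' := sum_filter_add_sum_filter_not (facets pt X \ K) (fun v => 3 ≤ (nb K v).card)
    fun v => cor K X v
  have h7 : ∑ v ∈ R, 2 * (nb K v).card ≤
      ∑ v ∈ R, (2 * min (nsides pt X v / 2) 2 + cor K X v) := by
    refine sum_le_sum fun v hv => ?_
    obtain ⟨k1, k2⟩ := mem_filter.1 hv
    have hv := mem_facets.1 (mem_sdiff.1 k1).1
    have e1 := cor_ge K hv.subset
    have e2 := card_le_nsides hV hX hv
    have e3 := hv.1
    omega
  have h8 : ∑ v ∈ B, 4 ≤ ∑ v ∈ B, (2 * min (nsides pt X v / 2) 2 + cor K X v) := by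
    refine sum_le_sum fun v hv => ?_
    obtain ⟨k1, k2⟩ := mem_filter.1 hv
    have hv := mem_facets.1 (mem_sdiff.1 k1).1
    have e1 := cor_ge K hv.subset
    have e2 := card_le_nsides hV hX hv
    have e3 := hv.1
    omega
  rw [← mul_sum, sum_add_distrib, ← mul_sum] at h7
  rw [sum_add_distrib, ← mul_sum, sum_const, smul_eq_mul] at h8
  change ∑ v ∈ B, _ + ∑ v ∈ R, _ = _ at h5 h6 h6'
  omega

end Pool.Agent.P.MP_e40812_co
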