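import Pool.Agent.P.MP_e40812_co.Hull

/-!
Euler type upper bounds for the number of edges of a point family in convex position.
-/

namespace Pool.Agent.P.MP_e40812_co

open Module Finset

variable {V : Type*} [AddCommGroup V] [Module ℝ V] {ι : Type*}

open Classical in
/-- The facets of the family. -/
noncomputable def facets (pt : ι → V) (X : Finset ι) : Finset (Finset ι) :=
  X.powerset.filter (Facet pt X)

open Classical in
/-- The points of `A` where `f` is neither maximal nor minimal. -/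
noncomputable def mid (f : ι → ℝ) (A : Finset ι) : Finset ι :=
  A.filter fun x => (∃ p ∈ A, f x < f p) ∧ ∃ q ∈ A, f q < f x

variable {pt : ι → V} {X : Finset ι}

lemma mem_facets {A : Finset ι} : A ∈ facets pt X ↔ Facet pt X A := by
  classical
  simp only [facets, mem_filter, mem_powerset]
  exact ⟨fun h => h.2, fun h => ⟨h.subset, h⟩⟩

lemma mem_mid {f : ι → ℝ} {A : Finset ι} {x : ι} :
    x ∈ mid f A ↔ x ∈ A ∧ (∃ p ∈ A, f x < f p) ∧ ∃ q ∈ A, f q < f x := by
  simp only [mid, mem_filter]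

lemma card_mid {f : ι → ℝ} {A : Finset ι} (hA : 2 ≤ A.card)
    (hf : ∀ i ∈ A, ∀ j ∈ A, i ≠ j → f i ≠ f j) : (mid f A).card + 2 = A.card := by
  classical
  have hne : A.Nonempty := card_pos.1 (by omega)
  obtain ⟨M, hM, hM'⟩ := exists_max_image A f hne
  obtain ⟨m, hm, hm'⟩ := exists_min_image A f hne
  have hMm : m ≠ M := by
    rintro rfl
    obtain ⟨a, ha, b, hb, hab⟩ := one_lt_card.1 (show 1 < A.card by omega)
    exact hf a ha b hb hab
      ((le_antisymm (hM' a ha) (hm' a ha)).trans (le_antisymm (hm' b hb) (hM' b hb)))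
  have : mid f A = (A.erase M).erase m := by
    ext x
    rw [mem_mid, mem_erase, mem_erase]
    constructor
    · rintro ⟨hx, ⟨p, hp, hp'⟩, q, hq, hq'⟩
      refine ⟨?_, ?_, hx⟩
      · rintro rfl
        exact absurd (hm' q hq) (not_le.2 hq')
      · rintro rfl
        exact absurd (hM' p hp) (not_le.2 hp')
    · rintro ⟨h1, h2, hx⟩
      exact ⟨hx, ⟨M, hM, lt_of_le_of_ne (hM' x hx) (hf x hx M hM h2)⟩,
        m, hm, lt_of_le_of_ne (hm' x hx) (hf m hm x hx h1.symm)⟩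
  rw [this, card_erase_of_mem (mem_erase.2 ⟨hMm, hm⟩), card_erase_of_mem hM]
  omega

lemma mid_vec (hV : finrank ℝ V = 3) (hX : Conv pt X) (l : V →ₗ[ℝ] ℝ) {A : Finset ι}
    (hA : Facet pt X A) {x : ι} (hx : x ∈ mid (fun i => l (pt i)) A) :
    ∃ u : V, l u = 0 ∧ (∀ φ c, Supp pt X φ c A → φ u = 0) ∧
      ∀ B φ c, Facet pt X B → B ≠ A → x ∈ B → Supp pt X φ c B → φ u < 0 := by
  obtain ⟨hxA, ⟨p, hp, hp'⟩, q, hq, hq'⟩ := mem_mid.1 hx
  refine ⟨(l (pt x) - l (pt q)) • (pt p - pt x) + (l (pt p) - l (pt x)) • (pt q - pt x), ?_, ?_,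
    ?_⟩
  · simp only [map_add, map_smul, map_sub, smul_eq_mul]
    ring
  · intro φ c hs
    simp only [map_add, map_smul, map_sub, smul_eq_mul, hs.2.1 p hp, hs.2.1 q hq, hs.2.1 x hxA]
    ring
  · intro B φ c hB hBA hxB hs
    have hAX := hA.subset
    simp only [map_add, map_smul, map_sub, smul_eq_mul, hs.2.1 x hxB]
    have h1 := hs.le (hAX hp)
    have h2 := hs.le (hAX hq)
    have hxp : x ≠ p := by
      rintro rfl
      exact lt_irrefl _ hp'
    have hxq : x ≠ q := by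
      rintro rfl
      exact lt_irrefl _ hq'
    have hpq : p ≠ q := by
      rintro rfl
      exact lt_irrefl _ (hp'.trans hq')
    by_cases hpB : p ∈ B
    · have hqB : q ∉ B := fun hqB =>
        hBA (facet_eq_of_three hV hX hB hA hxB hpB hqB hxA hp hq hxp hxq hpq)
      have := hs.2.2 q (hAX hq) hqB
      nlinarith
    · have := hs.2.2 p (hAX hp) hpB
      nlinarith

open Classical in
lemma mid_le_two (hV : finrank ℝ V = 3) (hX : Conv pt X) {l : V →ₗ[ℝ] ℝ} (x : ι) :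
    ((facets pt X).filter fun A => x ∈ mid (fun i => l (pt i)) A).card ≤ 2 := by
  by_contra h
  push Not at h
  obtain ⟨A, B, C, hA, hB, hC, hAB, hAC, hBC⟩ := two_lt_card_iff.1 h
  rw [mem_filter, mem_facets] at hA hB hC
  have hl : l ≠ 0 := by
    rintro rfl
    obtain ⟨-, ⟨p, -, hp⟩, -⟩ := mem_mid.1 hA.2
    simp at hp
  obtain ⟨u₁, a1, a2, a3⟩ := mid_vec hV hX l hA.1 hA.2
  obtain ⟨u₂, b1, b2, b3⟩ := mid_vec hV hX l hB.1 hB.2
  obtain ⟨u₃, c1, c2, c3⟩ := mid_vec hV hX l hC.1 hC.2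
  have hxA := (mem_mid.1 hA.2).1
  have hxB := (mem_mid.1 hB.2).1
  have hxC := (mem_mid.1 hC.2).1
  obtain ⟨-, a, -, ca, ha⟩ := id hA.1
  obtain ⟨-, b, -, cb, hb⟩ := id hB.1
  obtain ⟨-, d, -, cd, hd⟩ := id hC.1
  exact three_false hV hl a1 b1 c1 (a2 a ca ha) (b3 A a ca hA.1 hAB hxA ha)
    (c3 A a ca hA.1 hAC hxA ha) (a3 B b cb hB.1 hAB.symm hxB hb) (b2 b cb hb)
    (c3 B b cb hB.1 hBC hxB hb) (a3 C d cd hC.1 hAC.symm hxC hd)
    (b3 C d cd hC.1 hBC.symm hxC hd) (c2 d cd hd)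

lemma exists_generic (hX : Conv pt X) :
    ∃ l : V →ₗ[ℝ] ℝ, ∀ i ∈ X, ∀ j ∈ X, i ≠ j → l (pt i) ≠ l (pt j) := by
  classical
  obtain ⟨l, hl⟩ := Module.exists_dual_forall_apply_ne_zero (K := ℝ)
    (fun p : X.offDiag => pt p.1.2 - pt p.1.1) (fun p => by
      obtain ⟨h1, h2, h3⟩ := mem_offDiag.1 p.2
      exact hX.ne h1 h2 h3)
  refine ⟨l, fun i hi j hj hij h => hl ⟨(i, j), mem_offDiag.2 ⟨hi, hj, hij⟩⟩ ?_⟩
  simp [h]

lemma sum_facets (hV : finrank ℝ V = 3) (hX : Conv pt X) (h2 : 2 ≤ X.card) :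
    ∑ A ∈ facets pt X, (A.card - 2) ≤ 2 * (X.card - 2) := by
  classical
  obtain ⟨l, hl⟩ := exists_generic hX
  have h1 : ∑ A ∈ facets pt X, (A.card - 2) =
      ∑ A ∈ facets pt X, ((mid (fun i => l (pt i)) X).filter
        fun x => x ∈ mid (fun i => l (pt i)) A).card := by
    refine sum_congr rfl fun A hA => ?_
    rw [mem_facets] at hA
    have hAX := hA.subset
    have := card_mid (f := fun i => l (pt i)) (A := A) (by have := hA.1; omega)
      (fun i hi j hj hij => hl i (hAX hi) j (hAX hj) hij)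
    have e : ((mid (fun i => l (pt i)) X).filter fun x => x ∈ mid (fun i => l (pt i)) A) =
        mid (fun i => l (pt i)) A := by
      ext x
      rw [mem_filter]
      refine ⟨fun h => h.2, fun h => ⟨?_, h⟩⟩
      obtain ⟨hx, ⟨p, hp, hp'⟩, q, hq, hq'⟩ := mem_mid.1 h
      exact mem_mid.2 ⟨hAX hx, ⟨p, hAX hp, hp'⟩, q, hAX hq, hq'⟩
    rw [e]
    omega
  have h3 := card_mid (f := fun i => l (pt i)) (A := X) h2 hl
  rw [h1]
  have h4 := sum_card_bipartiteAbove_eq_sum_card_bipartiteBelow (s := facets pt X)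
    (t := mid (fun i => l (pt i)) X) (fun A x => x ∈ mid (fun i => l (pt i)) A)
  simp only [bipartiteAbove, bipartiteBelow] at h4
  rw [h4]
  calc _ ≤ ∑ _x ∈ mid (fun i => l (pt i)) X, 2 := sum_le_sum fun x _ => by
        convert mid_le_two hV hX (l := l) x
    _ = _ := by
        rw [sum_const, smul_eq_mul]
        omega

open Classical in
lemma count_edges (hV : finrank ℝ V = 3) (hX : Conv pt X) (h3 : 3 ≤ X.card)
    (D : Finset (ι × ι)) (hD : ∀ e ∈ D, Edge pt X e.1 e.2) (t : ℕ)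
    (ht : ∀ A, Facet pt X A → (D.filter fun e => e.1 ∈ A ∧ e.2 ∈ A).card ≤ t * (A.card - 2)) :
    D.card ≤ t * (X.card - 2) := by
  by_cases hF : Full pt X
  · have h1 := sum_card_bipartiteAbove_eq_sum_card_bipartiteBelow (s := facets pt X)
      (t := D) (fun A e => e.1 ∈ A ∧ e.2 ∈ A)
    simp only [bipartiteAbove, bipartiteBelow] at h1
    have h2 : ∑ _e ∈ D, 2 ≤ ∑ e ∈ D, ((facets pt X).filter fun A => e.1 ∈ A ∧ e.2 ∈ A).card := by
      refine sum_le_sum fun e he => ?_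
      obtain ⟨A, B, hA, hB, hAB, h1, h2, h3, h4⟩ := two_facets hV hF (hD e he)
      exact one_lt_card.2 ⟨A, mem_filter.2 ⟨mem_facets.2 hA, h1, h2⟩, B,
        mem_filter.2 ⟨mem_facets.2 hB, h3, h4⟩, hAB⟩
    have h4 : ∑ A ∈ facets pt X, (D.filter fun e => e.1 ∈ A ∧ e.2 ∈ A).card ≤
        ∑ A ∈ facets pt X, t * (A.card - 2) := sum_le_sum fun A hA => ht A (mem_facets.1 hA)
    rw [← mul_sum] at h4
    have h5 := Nat.mul_le_mul_left t (sum_facets hV hX (by omega))
    rw [sum_const, smul_eq_mul] at h2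
    have h6 : t * (2 * (X.card - 2)) = 2 * (t * (X.card - 2)) := by ring
    omega
  · simp only [Full, not_forall, not_exists, not_and, not_not] at hF
    obtain ⟨φ, hφ, c, hc⟩ := hF
    have hXF : Facet pt X X := ⟨h3, φ, hφ, c, Subset.refl _, hc, fun i hi hi' => absurd hi hi'⟩
    have := ht X hXF
    rwa [filter_true_of_mem fun e he => ⟨(hD e he).1, (hD e he).2.1⟩] at this

open Classical in
lemma card_le_two_mul_fst (hV : finrank ℝ V = 3) {A : Finset ι} (hA : Facet pt X A)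
    (D : Finset (ι × ι)) (hD : ∀ e ∈ D, Edge pt X e.1 e.2 ∧ e.2 ∈ A) (B : Finset ι)
    (hBA : B ⊆ A) (hB : ∀ e ∈ D, e.1 ∈ B) : D.card ≤ 2 * B.card := by
  refine card_le_mul_card_image_of_maps_to (f := Prod.fst) hB 2 fun w hw => ?_
  refine le_trans ?_ (edge_nbrs_le_two hV hA (hBA hw))
  refine card_le_card_of_injOn Prod.snd (fun e he => ?_) fun e he e' he' h => ?_
  · obtain ⟨he1, he2⟩ := mem_filter.1 (mem_coe.1 he)
    exact mem_coe.2 (mem_filter.2 ⟨(hD e he1).2, he2 ▸ (hD e he1).1⟩)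
  · have h1 := (mem_filter.1 (mem_coe.1 he)).2
    have h2 := (mem_filter.1 (mem_coe.1 he')).2
    exact Prod.ext (h1.trans h2.symm) h

open Classical in
lemma card_le_two_mul_snd (hV : finrank ℝ V = 3) {A : Finset ι} (hA : Facet pt X A)
    (D : Finset (ι × ι)) (hD : ∀ e ∈ D, Edge pt X e.1 e.2 ∧ e.1 ∈ A) (B : Finset ι)
    (hBA : B ⊆ A) (hB : ∀ e ∈ D, e.2 ∈ B) : D.card ≤ 2 * B.card := by
  have := card_le_two_mul_fst hV hA (D.image Prod.swap) (fun e he => by
    obtain ⟨e', he', rfl⟩ := mem_image.1 he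
    exact ⟨(hD e' he').1.symm, (hD e' he').2⟩) B hBA (fun e he => by
    obtain ⟨e', he', rfl⟩ := mem_image.1 he
    exact hB e' he')
  rwa [card_image_of_injective _ Prod.swap_injective] at this

/-- At most `3 n - 6` edges. -/
theorem edges_le (hV : finrank ℝ V = 3) (hX : Conv pt X) (h3 : 3 ≤ X.card)
    (D : Finset (ι × ι)) (hD : ∀ e ∈ D, Edge pt X e.1 e.2) : D.card + 12 ≤ 6 * X.card := by
  classical
  have := count_edges hV hX h3 D hD 6 fun A hA => by
    have h1 := card_le_two_mul_fst hV hA (D.filter fun e => e.1 ∈ A ∧ e.2 ∈ A)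
      (fun e he => ⟨hD e (mem_filter.1 he).1, (mem_filter.1 he).2.2⟩) A (Subset.refl _)
      (fun e he => (mem_filter.1 he).2.1)
    have h2 := hA.1
    have h3 : 2 * A.card ≤ 6 * (A.card - 2) := by omega
    convert h1.trans h3
  omega

/-- At most `2 n - 4` edges between a set and its complement. -/
theorem edges_bip_le (hV : finrank ℝ V = 3) (hX : Conv pt X) (h3 : 3 ≤ X.card) (K : Finset ι)
    (D : Finset (ι × ι)) (hD : ∀ e ∈ D, Edge pt X e.1 e.2 ∧ e.1 ∈ K ∧ e.2 ∉ K) :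
    D.card + 4 ≤ 2 * X.card := by
  classical
  have := count_edges hV hX h3 D (fun e he => (hD e he).1) 2 fun A hA => by
    have h1 := card_le_two_mul_fst hV hA (D.filter fun e => e.1 ∈ A ∧ e.2 ∈ A)
      (fun e he => ⟨(hD e (mem_filter.1 he).1).1, (mem_filter.1 he).2.2⟩) (A ∩ K)
      inter_subset_left
      (fun e he => mem_inter.2 ⟨(mem_filter.1 he).2.1, (hD e (mem_filter.1 he).1).2.1⟩)
    have h2 := card_le_two_mul_snd hV hA (D.filter fun e => e.1 ∈ A ∧ e.2 ∈ A)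
      (fun e he => ⟨(hD e (mem_filter.1 he).1).1, (mem_filter.1 he).2.1⟩) (A \ K)
      sdiff_subset
      (fun e he => mem_sdiff.2 ⟨(mem_filter.1 he).2.2, (hD e (mem_filter.1 he).1).2.2⟩)
    have h3 := hA.1
    have h4 := card_sdiff_add_card_inter A K
    have h5 : (D.filter fun e => e.1 ∈ A ∧ e.2 ∈ A).card ≤ 2 * (A.card - 2) := by omega
    convert h5
  omega

end Pool.Agent.P.MP_e40812_co
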