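import Pool.Agent.P.MP_e40812_co.Rigid

/-!
Subsets with prescribed intersection sizes with the blocks of three partitions, encoded as a
partition of numbers into triples with prescribed sums.
-/

namespace Pool.Agent.P.MP_e40812_co

open Finset

/-- Items of the first kind. -/
def v1 (p : ℕ × Bool) : ℕ := 8 + p.2.toNat + 512 * p.1

/-- Items of the second kind. -/
def v2 (b : ℕ) (p : ℕ × Bool) : ℕ := 32 + p.2.toNat + 512 * (b * p.1)

/-- Items of the third kind. -/
def v3 (b : ℕ) (p : ℕ × Bool) : ℕ := 128 + 2 * (!p.2).toNat + 512 * (b * (b * p.1))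

/-- The target sums. -/
def tgt (b x y z : ℕ) : ℕ := 170 + 512 * (x + b * (y + b * z))

lemma digit {b x y u v : ℕ} (hx : x < b) (hy : y < b) (h : x + b * u = y + b * v) :
    x = y ∧ u = v := by
  have h1 := congrArg (· % b) h
  simp only [Nat.add_mul_mod_self_left, Nat.mod_eq_of_lt hx, Nat.mod_eq_of_lt hy] at h1
  subst h1
  exact ⟨rfl, Nat.eq_of_mul_eq_mul_left (by omega) (Nat.add_left_cancel h)⟩

lemma core {b x y z : ℕ} {p q r : ℕ × Bool} (hp : p.1 < b) (hq : q.1 < b) (hx : x < b)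
    (hy : y < b) (h : v1 p + v2 b q + v3 b r = tgt b x y z) :
    ∃ σ, p = (x, σ) ∧ q = (y, σ) ∧ r = (z, σ) := by
  obtain ⟨p, s⟩ := p
  obtain ⟨q, t⟩ := q
  obtain ⟨r, u⟩ := r
  simp only [v1, v2, v3, tgt, mul_add] at h
  have h1 : p + b * (q + b * r) = x + b * (y + b * z) ∧ s = t ∧ s = u := by
    simp only [mul_add]
    cases s <;> cases t <;> cases u <;> simp at h ⊢ <;> omega
  obtain ⟨rfl, h2⟩ := digit hp hx h1.1
  obtain ⟨rfl, rfl⟩ := digit hq hy h2
  exact ⟨s, rfl, by rw [h1.2.1], by rw [h1.2.2]⟩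

/-- The shape of an item. -/
def Form (b n : ℕ) : Prop :=
  (∃ p, p.1 < b ∧ v1 p = n) ∨ (∃ p, p.1 < b ∧ v2 b p = n) ∨ ∃ p, v3 b p = n

lemma decode {b x y z : ℕ} {g : Multiset ℕ} (h3 : g.card = 3) (hg : ∀ n ∈ g, Form b n)
    (hx : x < b) (hy : y < b) (h : g.sum = tgt b x y z) :
    ∃ σ, g = {v1 (x, σ)} + {v2 b (y, σ)} + {v3 b (z, σ)} := by
  obtain ⟨k, m, n, rfl⟩ := Multiset.card_eq_three.1 h3
  have h1 := hg k (by simp)
  have h2 := hg m (by simp)
  have h4 := hg n (by simp)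
  simp only [Multiset.insert_eq_cons, Multiset.sum_cons, Multiset.sum_singleton] at h
  simp only [Multiset.insert_eq_cons, ← Multiset.singleton_add]
  rcases h1 with ⟨p, hp, rfl⟩ | ⟨p, hp, rfl⟩ | ⟨p, rfl⟩ <;>
    rcases h2 with ⟨q, hq, rfl⟩ | ⟨q, hq, rfl⟩ | ⟨q, rfl⟩ <;>
    rcases h4 with ⟨r, hr, rfl⟩ | ⟨r, hr, rfl⟩ | ⟨r, rfl⟩
  all_goals try
    (exfalso
     have := Bool.toNat_le p.2
     have := Bool.toNat_le q.2
     have := Bool.toNat_le r.2
     have := Bool.toNat_le (!p.2)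
     have := Bool.toNat_le (!q.2)
     have := Bool.toNat_le (!r.2)
     simp only [v1, v2, v3, tgt] at h
     omega)
  · obtain ⟨σ, rfl, rfl, rfl⟩ := core (z := z) (r := r) hp hq hx hy (by omega)
    exact ⟨σ, by abel⟩
  · obtain ⟨σ, rfl, rfl, rfl⟩ := core (z := z) (r := q) hp hr hx hy (by omega)
    exact ⟨σ, by abel⟩
  · obtain ⟨σ, rfl, rfl, rfl⟩ := core (z := z) (r := r) hq hp hx hy (by omega)
    exact ⟨σ, by abel⟩
  · obtain ⟨σ, rfl, rfl, rfl⟩ := core (z := z) (r := q) hr hp hx hy (by omega)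
    exact ⟨σ, by abel⟩
  · obtain ⟨σ, rfl, rfl, rfl⟩ := core (z := z) (r := p) hq hr hx hy (by omega)
    exact ⟨σ, by abel⟩
  · obtain ⟨σ, rfl, rfl, rfl⟩ := core (z := z) (r := p) hr hq hx hy (by omega)
    exact ⟨σ, by abel⟩

lemma exists_fun {κ α β : Type*} [DecidableEq κ] [DecidableEq α] [Inhabited α] (f : α → β)
    (h : κ → β) (s : Finset κ) : ∀ l : Multiset α, l.map f = s.val.map h →
      ∃ g : κ → α, l = s.val.map g ∧ ∀ k ∈ s, f (g k) = h k := by
  induction s using Finset.induction_on with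
  | empty =>
    intro l hl
    exact ⟨fun _ => default, by simpa using hl, by simp⟩
  | insert k s hk ih =>
    intro l hl
    rw [insert_val_of_notMem hk, Multiset.map_cons] at hl
    obtain ⟨a, ha, h1, h2⟩ := (Multiset.map_eq_cons f l _ _).2 hl
    obtain ⟨g, g1, g2⟩ := ih _ h2
    have hne : ∀ x ∈ s, Function.update g k a x = g x := fun x hx =>
      Function.update_of_ne (fun e : x = k => hk (e ▸ hx)) _ _
    refine ⟨Function.update g k a, ?_, fun x hx => ?_⟩
    · rw [insert_val_of_notMem hk, Multiset.map_cons, Function.update_self,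
        Multiset.map_congr rfl hne, ← g1, Multiset.cons_erase ha]
    · rcases mem_insert.1 hx with rfl | hx
      · rw [Function.update_self, h1]
      · rw [hne x hx, g2 x hx]

lemma sep3 {α : Type*} (c : α → ℕ) {A₁ A₂ A₃ D₁ D₂ D₃ : Multiset α} (a1 : ∀ x ∈ A₁, c x = 1)
    (a2 : ∀ x ∈ A₂, c x = 2) (a3 : ∀ x ∈ A₃, c x = 3) (d1 : ∀ x ∈ D₁, c x = 1)
    (d2 : ∀ x ∈ D₂, c x = 2) (d3 : ∀ x ∈ D₃, c x = 3) (h : A₁ + A₂ + A₃ = D₁ + D₂ + D₃) :
    A₁ = D₁ ∧ A₂ = D₂ ∧ A₃ = D₃ := by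
  have key : ∀ {i} {A : Multiset α}, (∀ x ∈ A, c x = i) → ∀ k,
      A.filter (fun x => c x = k) = if i = k then A else 0 := by
    intro i A hA k
    split_ifs with e
    · exact Multiset.filter_eq_self.2 fun x hx => (hA x hx).trans e
    · exact Multiset.filter_eq_nil.2 fun x hx e' => e ((hA x hx).symm.trans e')
  have := fun k => congrArg (Multiset.filter fun x => c x = k) h
  simp only [Multiset.filter_add, key a1, key a2, key a3, key d1, key d2, key d3] at this
  exact ⟨by simpa using this 1, by simpa using this 2, by simpa using this 3⟩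

theorem ts_iff {κ : Type*} [DecidableEq κ] (s : Finset κ) {b : ℕ} (hb : 0 < b) (l₁ l₂ l₃ : κ → ℕ)
    (d₁ d₂ d₃ : κ → Bool) (h₁ : ∀ k ∈ s, l₁ k < b) (h₂ : ∀ k ∈ s, l₂ k < b) :
    TS (s.val.map (fun k => v1 (l₁ k, d₁ k)) + s.val.map (fun k => v2 b (l₂ k, d₂ k)) +
      s.val.map fun k => v3 b (l₃ k, d₃ k)) (s.val.map fun k => tgt b (l₁ k) (l₂ k) (l₃ k)) ↔
    ∃ σ : κ → Bool, (s.val.map fun k => (l₁ k, σ k)) = (s.val.map fun k => (l₁ k, d₁ k)) ∧
      (s.val.map fun k => (l₂ k, σ k)) = (s.val.map fun k => (l₂ k, d₂ k)) ∧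
      (s.val.map fun k => (l₃ k, σ k)) = s.val.map fun k => (l₃ k, d₃ k) := by
  have hsum : ∀ σ : κ → Bool, (s.val.map fun k =>
      ({v1 (l₁ k, σ k)} + {v2 b (l₂ k, σ k)} + {v3 b (l₃ k, σ k)} : Multiset ℕ)).sum =
      (s.val.map fun k => (l₁ k, σ k)).map v1 + (s.val.map fun k => (l₂ k, σ k)).map (v2 b) +
        (s.val.map fun k => (l₃ k, σ k)).map (v3 b) := by
    intro σ
    rw [← sum_eq_multiset_sum]
    simp only [Multiset.map_map, Function.comp_def]
    simp only [map_val_eq_sum, sum_add_distrib]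
  constructor
  · rintro ⟨l, h3, hl, hs⟩
    obtain ⟨g, rfl, hg⟩ := exists_fun _ _ s l hs
    have key : ∀ k ∈ s, ∃ σ, g k = {v1 (l₁ k, σ)} + {v2 b (l₂ k, σ)} + {v3 b (l₃ k, σ)} := by
      intro k hk
      have hm : g k ∈ s.val.map g := Multiset.mem_map_of_mem _ hk
      refine decode (h3 _ hm) (fun n hn => ?_) (h₁ k hk) (h₂ k hk) (hg k hk)
      have := Multiset.mem_of_le (Multiset.le_sum_of_mem hm) hn
      simp only [hl, Multiset.mem_add, Multiset.mem_map] at this
      rcases this with (⟨i, hi, e⟩ | ⟨i, hi, e⟩) | ⟨i, -, e⟩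
      · exact Or.inl ⟨_, h₁ i hi, e⟩
      · exact Or.inr (Or.inl ⟨_, h₂ i hi, e⟩)
      · exact Or.inr (Or.inr ⟨_, e⟩)
    choose! σ hσ using key
    rw [Multiset.map_congr rfl hσ, hsum] at hl
    obtain ⟨c, hc⟩ : ∃ c : ℕ → ℕ,
      c = fun n => if n % 512 < 16 then 1 else if n % 512 < 64 then 2 else 3 := ⟨_, rfl⟩
    have c1 : ∀ A : Multiset (ℕ × Bool), ∀ x ∈ A.map v1, c x = 1 := fun A x hx => by
      obtain ⟨p, -, rfl⟩ := Multiset.mem_map.1 hx
      have := Bool.toNat_le p.2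
      simp only [hc, v1]
      split_ifs <;> omega
    have c2 : ∀ A : Multiset (ℕ × Bool), ∀ x ∈ A.map (v2 b), c x = 2 := fun A x hx => by
      obtain ⟨p, -, rfl⟩ := Multiset.mem_map.1 hx
      have := Bool.toNat_le p.2
      simp only [hc, v2]
      split_ifs <;> omega
    have c3 : ∀ A : Multiset (ℕ × Bool), ∀ x ∈ A.map (v3 b), c x = 3 := fun A x hx => by
      obtain ⟨p, -, rfl⟩ := Multiset.mem_map.1 hx
      have := Bool.toNat_le (!p.2)
      simp only [hc, v3]
      split_ifs <;> omega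
    obtain ⟨e1, e2, e3⟩ := sep3 c (c1 _) (c2 _) (c3 _) (c1 (s.val.map fun k => (l₁ k, d₁ k)))
      (c2 (s.val.map fun k => (l₂ k, d₂ k))) (c3 (s.val.map fun k => (l₃ k, d₃ k)))
      (hl.trans (by simp only [Multiset.map_map, Function.comp_def]))
    refine ⟨σ, Multiset.map_injective ?_ e1, Multiset.map_injective ?_ e2,
      Multiset.map_injective ?_ e3⟩
    · rintro ⟨x, s⟩ ⟨y, t⟩ h
      simp only [v1] at h
      cases s <;> cases t <;> simp at h ⊢ <;> omega
    · rintro ⟨x, s⟩ ⟨y, t⟩ h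
      simp only [v2] at h
      have : b * x = b * y ∧ s = t := by
        generalize b * x = u at h
        generalize b * y = v at h
        cases s <;> cases t <;> simp at h ⊢ <;> omega
      rw [Nat.eq_of_mul_eq_mul_left hb this.1, this.2]
    · rintro ⟨x, s⟩ ⟨y, t⟩ h
      simp only [v3] at h
      have : b * (b * x) = b * (b * y) ∧ s = t := by
        generalize b * (b * x) = u at h
        generalize b * (b * y) = v at h
        cases s <;> cases t <;> simp at h ⊢ <;> omega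
      rw [Nat.eq_of_mul_eq_mul_left hb (Nat.eq_of_mul_eq_mul_left hb this.1), this.2]
  · rintro ⟨σ, e1, e2, e3⟩
    refine ⟨_, fun g hg => ?_, (hsum σ).trans ?_, ?_⟩
    · obtain ⟨k, -, rfl⟩ := Multiset.mem_map.1 hg
      simp
    · rw [e1, e2, e3]
      simp only [Multiset.map_map, Function.comp_def]
    · rw [Multiset.map_map]
      refine Multiset.map_congr rfl fun k _ => ?_
      simp only [Function.comp, Multiset.sum_add, Multiset.sum_singleton, v1, v2, v3, tgt]
      cases σ k <;> simp <;> ring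

end Pool.Agent.P.MP_e40812_co
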