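import Pool.Agent.P.MP_e40812_co.Count

/-!
The polar family of the facets of a full-dimensional point family in convex position.
-/

namespace Pool.Agent.P.MP_e40812_co

open Module Finset

variable {V : Type*} [AddCommGroup V] [Module ℝ V] {ι : Type*} [DecidableEq ι]

/-- Two distinct sets with two common points. -/
def Adj (A B : Finset ι) : Prop := A ≠ B ∧ 2 ≤ (A ∩ B).card

/-- Normalised supporting functionals of the facets with respect to an inner point. -/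
def Polar (pt : ι → V) (X : Finset ι) (o : V) (g : Finset ι → Module.Dual ℝ V) : Prop :=
  ∀ A, Facet pt X A → Supp pt X (g A) (1 + g A o) A

/-- Two facets `A`, `A'` that are adjacent to `v` and meet it at the common point `w`. -/
def Corner (v : Finset ι) (w : ι) (A A' : Finset ι) : Prop :=
  w ∈ v ∧ w ∈ A ∧ w ∈ A' ∧ A ≠ A' ∧ Adj v A ∧ Adj v A'

variable {pt : ι → V} {X : Finset ι} {o : V} {g : Finset ι → Module.Dual ℝ V}

lemma Adj.symm {A B : Finset ι} (h : Adj A B) : Adj B A :=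
  ⟨h.1.symm, by rw [inter_comm]; exact h.2⟩

lemma Adj.exists_ne {A B : Finset ι} (h : Adj A B) (w : ι) : ∃ p ∈ A, p ∈ B ∧ p ≠ w := by
  obtain ⟨p, hp, hpw⟩ := exists_mem_ne (show 1 < (A ∩ B).card from h.2) w
  exact ⟨p, (mem_inter.1 hp).1, (mem_inter.1 hp).2, hpw⟩

omit [DecidableEq ι] in
lemma exists_polar (hF : Full pt X) :
    ∃ (o : V) (g : Finset ι → Module.Dual ℝ V), Polar pt X o g := by
  refine ⟨(X.card : ℝ)⁻¹ • ∑ i ∈ X, pt i, ?_⟩
  generalize ho : (X.card : ℝ)⁻¹ • ∑ i ∈ X, pt i = o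
  have key : ∀ A, Facet pt X A → ∃ h : Module.Dual ℝ V, Supp pt X h (1 + h o) A := by
    rintro A ⟨-, φ, hφ, c, hs⟩
    obtain ⟨i, hi, hi'⟩ := hF φ hφ c
    have hc : (0 : ℝ) < X.card := by exact_mod_cast card_pos.2 ⟨i, hi⟩
    have h1 : ∑ j ∈ X, φ (pt j) < ∑ _j ∈ X, c :=
      sum_lt_sum (fun j hj => hs.le hj) ⟨i, hi, lt_of_le_of_ne (hs.le hi) hi'⟩
    have h2 : φ o < c := by
      rw [← ho, map_smul, map_sum, smul_eq_mul, inv_mul_lt_iff₀ hc]
      simpa using h1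
    have h3 : 0 < c - φ o := sub_pos.2 h2
    refine ⟨(c - φ o)⁻¹ • φ, hs.1, fun j hj => ?_, fun j hj hj' => ?_⟩
    · simp only [LinearMap.smul_apply, smul_eq_mul, hs.2.1 j hj]
      field_simp
      ring
    · simp only [LinearMap.smul_apply, smul_eq_mul]
      have := hs.2.2 j hj hj'
      have e : 1 + (c - φ o)⁻¹ * φ o = (c - φ o)⁻¹ * c := by
        field_simp
        ring
      rw [e]
      exact mul_lt_mul_of_pos_left this (inv_pos.2 h3)
  choose! g hg using key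
  exact ⟨g, hg⟩

omit [DecidableEq ι] in
lemma dual_conv (hV : finrank ℝ V = 3) (hX : Conv pt X) (hg : Polar pt X o g)
    {Y : Finset (Finset ι)} (hY : ∀ A ∈ Y, Facet pt X A) : Conv g Y := by
  intro A hA
  refine ⟨Module.Dual.eval ℝ V (∑ z ∈ A, (pt z - o)), fun B hB hBA => ?_⟩
  rw [Module.Dual.eval_apply, Module.Dual.eval_apply]
  simp only [map_sum, map_sub]
  have sA := hg A (hY A hA)
  have sB := hg B (hY B hB)
  obtain ⟨z, hz, hzB⟩ := facet_not_subset hV hX (hY A hA) (hY B hB) hBA.symm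
  refine sum_lt_sum (fun y hy => ?_) ⟨z, hz, ?_⟩
  · have := sB.le (sA.1 hy)
    rw [sA.2.1 y hy]
    linarith
  · have := sB.2.2 z (sA.1 hz) hzB
    rw [sA.2.1 z hz]
    linarith

lemma dual_edge_of_adj (hV : finrank ℝ V = 3) (hX : Conv pt X) (hg : Polar pt X o g)
    {Y : Finset (Finset ι)} (hY : ∀ A ∈ Y, Facet pt X A) {A B : Finset ι} (hA : A ∈ Y)
    (hB : B ∈ Y) (h : Adj A B) : Edge g Y A B := by
  obtain ⟨x, hx, y, hy, hxy⟩ := one_lt_card.1 (show 1 < (A ∩ B).card from h.2)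
  rw [mem_inter] at hx hy
  have sA := hg A (hY A hA)
  have sB := hg B (hY B hB)
  refine ⟨hA, hB, h.1, Module.Dual.eval ℝ V ((pt x - o) + (pt y - o)), ?_, fun C hC hCA hCB => ?_⟩
  · rw [Module.Dual.eval_apply, Module.Dual.eval_apply]
    simp only [map_add, map_sub, sA.2.1 x hx.1, sA.2.1 y hy.1, sB.2.1 x hx.2, sB.2.1 y hy.2]
    ring
  · rw [Module.Dual.eval_apply, Module.Dual.eval_apply]
    simp only [map_add, map_sub, sA.2.1 x hx.1, sA.2.1 y hy.1]
    have sC := hg C (hY C hC)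
    have h1 := sC.le (sA.1 hx.1)
    have h2 := sC.le (sA.1 hy.1)
    by_cases hxC : x ∈ C
    · have hyC : y ∉ C := fun hyC => three_facets_false hV hX (hY A hA) (hY B hB) (hY C hC) h.1
        hCA.symm hCB.symm hxy hx.1 hy.1 hx.2 hy.2 hxC hyC
      have := sC.2.2 y (sA.1 hy.1) hyC
      linarith
    · have := sC.2.2 x (sA.1 hx.1) hxC
      linarith

lemma dual_edge_of_corner (hV : finrank ℝ V = 3) (hX : Conv pt X) (hg : Polar pt X o g)
    {Y : Finset (Finset ι)} (hY : ∀ A ∈ Y, Facet pt X A) {v A A' : Finset ι} {w : ι}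
    (hv : Facet pt X v) (hvY : v ∉ Y) (hA : A ∈ Y) (hA' : A' ∈ Y) (h : Corner v w A A') :
    Edge g Y A A' := by
  obtain ⟨hwv, hwA, hwA', hAA, h1, h2⟩ := h
  obtain ⟨w₁, h1v, h1A, h1w⟩ := h1.exists_ne w
  obtain ⟨w₂, h2v, h2A', h2w⟩ := h2.exists_ne w
  have fA := hY A hA
  have fA' := hY A' hA'
  have h1A' : w₁ ∉ A' := fun hh =>
    three_facets_false hV hX hv fA fA' h1.1 h2.1 hAA h1w h1v hwv h1A hwA hh hwA'
  have h2A : w₂ ∉ A := fun hh =>
    three_facets_false hV hX hv fA fA' h1.1 h2.1 hAA h2w h2v hwv hh hwA h2A' hwA'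
  have sv := hg v hv
  have sA := hg A fA
  have sA' := hg A' fA'
  obtain ⟨e₁, he₁⟩ : ∃ e, e = pt w₁ - pt w := ⟨_, rfl⟩
  obtain ⟨e₂, he₂⟩ : ∃ e, e = pt w₂ - pt w := ⟨_, rfl⟩
  obtain ⟨t, ht⟩ : ∃ e, e = pt w - o := ⟨_, rfl⟩
  have v1 : g v e₁ = 0 := by rw [he₁, map_sub, sv.2.1 _ h1v, sv.2.1 _ hwv, sub_self]
  have v2 : g v e₂ = 0 := by rw [he₂, map_sub, sv.2.1 _ h2v, sv.2.1 _ hwv, sub_self]
  have vt : g v t = 1 := by rw [ht, map_sub, sv.2.1 _ hwv]; ring
  have a1 : g A e₁ = 0 := by rw [he₁, map_sub, sA.2.1 _ h1A, sA.2.1 _ hwA, sub_self]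
  have a2 : g A e₂ < 0 := by
    rw [he₂, map_sub, sA.2.1 _ hwA]
    exact sub_neg.2 (sA.2.2 _ (sv.1 h2v) h2A)
  have at' : g A t = 1 := by rw [ht, map_sub, sA.2.1 _ hwA]; ring
  have b1 : g A' e₁ < 0 := by
    rw [he₁, map_sub, sA'.2.1 _ hwA']
    exact sub_neg.2 (sA'.2.2 _ (sv.1 h1v) h1A')
  have b2 : g A' e₂ = 0 := by rw [he₂, map_sub, sA'.2.1 _ h2A', sA'.2.1 _ hwA', sub_self]
  have bt : g A' t = 1 := by rw [ht, map_sub, sA'.2.1 _ hwA']; ring
  obtain ⟨u, hu⟩ : ∃ u, u = (-(g A' e₁)⁻¹) • e₁ + (-(g A e₂)⁻¹) • e₂ + t := ⟨_, rfl⟩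
  have au : g A u = 0 := by
    rw [hu]
    simp only [map_add, map_smul, smul_eq_mul, a1, at']
    have := a2.ne
    field_simp
    ring
  have bu : g A' u = 0 := by
    rw [hu]
    simp only [map_add, map_smul, smul_eq_mul, b2, bt]
    have := b1.ne
    field_simp
    ring
  have key : ∀ B ∈ Y, w ∈ B → B ≠ A → B ≠ A' → g B u < 0 := by
    intro B hB hwB hBA hBA'
    have fB := hY B hB
    have sB := hg B fB
    have hBv : B ≠ v := fun hh => hvY (hh ▸ hB)
    have c1 : g B e₁ ≤ 0 := by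
      rw [he₁, map_sub, sB.2.1 _ hwB]
      exact sub_nonpos.2 (sB.le (sv.1 h1v))
    have c2 : g B e₂ ≤ 0 := by
      rw [he₂, map_sub, sB.2.1 _ hwB]
      exact sub_nonpos.2 (sB.le (sv.1 h2v))
    have ct : g B t = 1 := by rw [ht, map_sub, sB.2.1 _ hwB]; ring
    by_contra hh
    push Not at hh
    rw [hu] at hh
    simp only [map_add, map_smul, smul_eq_mul, ct] at hh
    obtain ⟨l₁, hl₁⟩ : ∃ l, l = (g A e₂)⁻¹ * g B e₂ := ⟨_, rfl⟩
    obtain ⟨l₂, hl₂⟩ : ∃ l, l = (g A' e₁)⁻¹ * g B e₁ := ⟨_, rfl⟩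
    have p1 : 0 ≤ l₁ := hl₁ ▸ mul_nonneg_of_nonpos_of_nonpos (inv_neg''.2 a2).le c2
    have p2 : 0 ≤ l₂ := hl₂ ▸ mul_nonneg_of_nonpos_of_nonpos (inv_neg''.2 b1).le c1
    have p0 : 0 ≤ 1 - l₁ - l₂ := by
      rw [hl₁, hl₂]
      linarith
    have hz : g B - (1 - l₁ - l₂) • g v - l₁ • g A - l₂ • g A' = 0 := by
      by_contra hne
      obtain ⟨c₁, c₂, c₃, hc, hc'⟩ := dep3 hV hne (u₁ := e₁) (u₂ := e₂) (u₃ := t)
        (by
          simp only [LinearMap.sub_apply, LinearMap.smul_apply, smul_eq_mul, v1, a1, hl₂]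
          have := b1.ne
          field_simp
          ring)
        (by
          simp only [LinearMap.sub_apply, LinearMap.smul_apply, smul_eq_mul, v2, b2, hl₁]
          have := a2.ne
          field_simp
          ring)
        (by
          simp only [LinearMap.sub_apply, LinearMap.smul_apply, smul_eq_mul, vt, at', bt, ct]
          ring)
      have q0 := congrArg (g v) hc'
      have q1 := congrArg (g A) hc'
      have q2 := congrArg (g A') hc'
      simp only [map_add, map_smul, smul_eq_mul, map_zero, v1, v2, vt, a1, at', b2, bt, mul_zero,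
        zero_add, add_zero, mul_one] at q0 q1 q2
      rw [q0, add_zero] at q1 q2
      rcases hc with hc | hc | hc
      · exact hc ((mul_eq_zero.1 q2).resolve_right b1.ne)
      · exact hc ((mul_eq_zero.1 q1).resolve_right a2.ne)
      · exact hc q0
    have q := LinearMap.congr_fun hz (∑ z ∈ B, (pt z - pt w))
    have r0 := supp_sum_eq sB hwB
    have r1 := supp_sum_lt sv hwv sB.1 (facet_not_subset hV hX fB hv hBv)
    have r2 := supp_sum_lt sA hwA sB.1 (facet_not_subset hV hX fB fA hBA)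
    have r3 := supp_sum_lt sA' hwA' sB.1 (facet_not_subset hV hX fB fA' hBA')
    generalize ∑ z ∈ B, (pt z - pt w) = σ at q r0 r1 r2 r3
    simp only [LinearMap.sub_apply, LinearMap.smul_apply, smul_eq_mul, LinearMap.zero_apply,
      r0] at q
    have s1 := mul_nonneg p0 (neg_pos.2 r1).le
    have s2 := mul_nonneg p1 (neg_pos.2 r2).le
    have s3 := mul_nonneg p2 (neg_pos.2 r3).le
    have t1 : 1 - l₁ - l₂ = 0 :=
      (mul_eq_zero.1 (show (1 - l₁ - l₂) * g v σ = 0 by linarith)).resolve_right r1.ne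
    have t2 : l₁ = 0 := (mul_eq_zero.1 (show l₁ * g A σ = 0 by linarith)).resolve_right r2.ne
    have t3 : l₂ = 0 := (mul_eq_zero.1 (show l₂ * g A' σ = 0 by linarith)).resolve_right r3.ne
    linarith
  obtain ⟨ε, hε, hε'⟩ := small_eps (Y.filter fun B => w ∉ B) (fun B => g B t - 1)
    (fun B => g B u) (fun B hB => by
      obtain ⟨hB, hwB⟩ := mem_filter.1 hB
      have := (hg B (hY B hB)).2.2 w (sv.1 hwv) hwB
      rw [ht, map_sub]
      linarith)
  refine ⟨hA, hA', hAA, Module.Dual.eval ℝ V (t + ε • u), ?_, fun B hB hBA hBA' => ?_⟩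
  · rw [Module.Dual.eval_apply, Module.Dual.eval_apply]
    simp only [map_add, map_smul, au, bu, at', bt]
  · rw [Module.Dual.eval_apply, Module.Dual.eval_apply]
    simp only [map_add, map_smul, au, at', smul_eq_mul, mul_zero, add_zero]
    by_cases hwB : w ∈ B
    · have ct : g B t = 1 := by rw [ht, map_sub, (hg B (hY B hB)).2.1 _ hwB]; ring
      have := key B hB hwB hBA hBA'
      rw [ct]
      nlinarith
    · have := hε' B (mem_filter.2 ⟨hB, hwB⟩)
      linarith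

lemma edge_of_two_facets (hV : finrank ℝ V = 3) (hX : Conv pt X) {A B : Finset ι}
    (hA : Facet pt X A) (hB : Facet pt X B) (hAB : A ≠ B) {x y : ι} (hxy : x ≠ y)
    (hxA : x ∈ A) (hyA : y ∈ A) (hxB : x ∈ B) (hyB : y ∈ B) : Edge pt X x y := by
  obtain ⟨-, φ, -, c, hs⟩ := id hA
  obtain ⟨-, χ, -, e, ht⟩ := id hB
  refine ⟨hs.1 hxA, hs.1 hyA, hxy, φ + χ, ?_, fun k hk hkx hky => ?_⟩
  · simp only [LinearMap.add_apply, hs.2.1 x hxA, hs.2.1 y hyA, ht.2.1 x hxB, ht.2.1 y hyB]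
  · simp only [LinearMap.add_apply, hs.2.1 x hxA, ht.2.1 x hxB]
    have h1 := hs.le hk
    have h2 := ht.le hk
    by_cases hkA : k ∈ A
    · have hkB : k ∉ B := fun hkB => hAB
        (facet_eq_of_three hV hX hA hB hxA hyA hkA hxB hyB hkB hxy hkx.symm hky.symm)
      have := ht.2.2 k hk hkB
      linarith
    · have := hs.2.2 k hk hkA
      linarith

open Classical in
lemma corners_le_two (hV : finrank ℝ V = 3) (hX : Conv pt X) {A A' : Finset ι}
    (hA : Facet pt X A) (hA' : Facet pt X A') (S : Finset (Finset ι × ι))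
    (hS : ∀ c ∈ S, Facet pt X c.1 ∧ Corner c.1 c.2 A A') : S.card ≤ 2 := by
  rcases S.eq_empty_or_nonempty with rfl | ⟨c₀, hc₀⟩
  · simp
  have hAA : A ≠ A' := (hS c₀ hc₀).2.2.2.2.1
  let T := (A ×ˢ A).filter fun e => e.1 ∈ A' ∧ e.2 ∉ A' ∧ Edge pt X e.1 e.2
  have hT : ∀ e, e ∈ T ↔ (e.1 ∈ A ∧ e.2 ∈ A) ∧ e.1 ∈ A' ∧ e.2 ∉ A' ∧ Edge pt X e.1 e.2 := by
    intro e
    simp only [T, mem_filter, mem_product]
  have h1 : S.card ≤ T.card := by
    refine card_le_card_of_forall_subsingleton (fun c e => e.1 = c.2 ∧ e.2 ∈ c.1)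
      (fun c hc => ?_) (fun e he => ?_)
    · obtain ⟨hv, hwv, hwA, hwA', -, h1, h2⟩ := hS c hc
      obtain ⟨p, hpv, hpA, hpw⟩ := h1.exists_ne c.2
      refine ⟨(c.2, p), (hT _).2 ⟨⟨hwA, hpA⟩, hwA', fun hh => ?_, ?_⟩, rfl, hpv⟩
      · exact three_facets_false hV hX hv hA hA' h1.1 h2.1 hAA hpw hpv hwv hpA hwA hh hwA'
      · exact edge_of_two_facets hV hX hv hA h1.1 hpw.symm hwv hpv hwA hpA
    · rintro c ⟨hc, e1, e2⟩ c' ⟨hc', e1', e2'⟩
      obtain ⟨⟨k1, k2⟩, -, -, k3⟩ := (hT e).1 he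
      obtain ⟨hv, hwv, -, -, -, h1, -⟩ := hS c hc
      obtain ⟨hv', hwv', -, -, -, h1', -⟩ := hS c' hc'
      refine Prod.ext ?_ (e1.symm.trans e1')
      by_contra hne
      exact three_facets_false hV hX hv hv' hA hne h1.1 h1'.1 k3.2.2.1 (e1 ▸ hwv) e2
        (e1' ▸ hwv') e2' k1 k2
  have h2 := card_le_two_mul_fst hV hA (T ∪ (A ∩ A').offDiag) (fun e he => by
    rcases mem_union.1 he with he | he
    · exact ⟨((hT e).1 he).2.2.2, ((hT e).1 he).1.2⟩
    · obtain ⟨k1, k2, k3⟩ := mem_offDiag.1 he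
      rw [mem_inter] at k1 k2
      exact ⟨edge_of_two_facets hV hX hA hA' hAA k3 k1.1 k2.1 k1.2 k2.2, k2.1⟩)
    (A ∩ A') inter_subset_left (fun e he => by
    rcases mem_union.1 he with he | he
    · exact mem_inter.2 ⟨((hT e).1 he).1.1, ((hT e).1 he).2.1⟩
    · exact (mem_offDiag.1 he).1)
  have h3 : Disjoint T (A ∩ A').offDiag := by
    rw [disjoint_left]
    intro e he he'
    exact ((hT e).1 he).2.2.1 (mem_inter.1 (mem_offDiag.1 he').2.1).2
  rw [card_union_of_disjoint h3, offDiag_card] at h2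
  have h4 := facet_inter_le hV hX hA hA' hAA
  generalize (A ∩ A').card = m at h2 h4
  interval_cases m <;> omega

end Pool.Agent.P.MP_e40812_co
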