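import Pool.Agent.P.MP_e40812_co.Defs
import Pool.Agent.P.MP_e40812_co.Comb

/-!
Faces of a convex polyhedron as subsets of its vertex set.
-/

namespace Pool.Agent.P.MP_e40812_co

open Module Finset

section General

variable {V : Type*} [AddCommGroup V] [Module ℝ V] {X : Finset V}

lemma hull_le {φ : V →ₗ[ℝ] ℝ} {c : ℝ} {A : Finset V} (h : ∀ i ∈ A, φ i ≤ c) {x : V}
    (hx : x ∈ convexHull ℝ (A : Set V)) : φ x ≤ c :=
  convexHull_min (t := {y | φ y ≤ c}) (fun i hi => h i hi) (convex_halfSpace_le φ.isLinear c) hx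

lemma hull_lt {φ : V →ₗ[ℝ] ℝ} {c : ℝ} {A : Finset V} (h : ∀ i ∈ A, φ i < c) {x : V}
    (hx : x ∈ convexHull ℝ (A : Set V)) : φ x < c :=
  convexHull_min (t := {y | φ y < c}) (fun i hi => h i hi) (convex_halfSpace_lt φ.isLinear c) hx

lemma hull_eq {φ : V →ₗ[ℝ] ℝ} {c : ℝ} {A : Finset V} (h : ∀ i ∈ A, φ i = c) {x : V}
    (hx : x ∈ convexHull ℝ (A : Set V)) : φ x = c :=
  convexHull_min (t := {y | φ y = c}) (fun i hi => h i hi) (convex_hyperplane φ.isLinear c) hx

lemma face_eq {φ : V →ₗ[ℝ] ℝ} {c : ℝ} {A : Finset V} (hs : Supp id X φ c A) (hA : A.Nonempty) :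
    {x ∈ convexHull ℝ (X : Set V) | ∀ y ∈ convexHull ℝ (X : Set V), φ y ≤ φ x} =
      convexHull ℝ (A : Set V) := by
  classical
  have hle : ∀ y ∈ convexHull ℝ (X : Set V), φ y ≤ c := fun y hy =>
    hull_le (fun i hi => hs.le hi) hy
  ext x
  constructor
  · rintro ⟨hx, hx'⟩
    obtain ⟨a, ha⟩ := hA
    have h1 : c ≤ φ x := by
      have := hx' a (subset_convexHull _ _ (hs.1 ha))
      rwa [show φ a = c from hs.2.1 a ha] at this
    obtain ⟨w, hw0, hw1, rfl⟩ := Finset.mem_convexHull'.1 hx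
    have h2 : ∑ y ∈ X, w y * (c - φ y) ≤ 0 := by
      simp only [mul_sub, sum_sub_distrib, ← sum_mul, hw1]
      simp only [map_sum, map_smul, smul_eq_mul] at h1
      linarith
    have h3 : ∀ y ∈ X, 0 ≤ w y * (c - φ y) := fun y hy =>
      mul_nonneg (hw0 y hy) (sub_nonneg.2 (hs.le hy))
    have h4 := (sum_eq_zero_iff_of_nonneg h3).1 (le_antisymm h2 (sum_nonneg h3))
    have h5 : ∀ y ∈ X, y ∉ A → w y = 0 := fun y hy hyA =>
      (mul_eq_zero.1 (h4 y hy)).resolve_right (sub_pos.2 (hs.2.2 y hy hyA)).ne'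
    refine Finset.mem_convexHull'.2 ⟨w, fun y hy => hw0 y (hs.1 hy), ?_, ?_⟩
    · rw [← hw1]
      exact sum_subset hs.1 h5
    · exact sum_subset hs.1 fun y hy hyA => by rw [h5 y hy hyA, zero_smul]
  · intro hx
    refine ⟨convexHull_mono (coe_subset.2 hs.1) hx, fun y hy => ?_⟩
    rw [hull_eq hs.2.1 hx]
    exact hle y hy

lemma exists_supp (hX : X.Nonempty) (φ : V →ₗ[ℝ] ℝ) :
    ∃ c A, Supp id X φ c A ∧ A.Nonempty := by
  classical
  obtain ⟨a, ha, ha'⟩ := exists_max_image X φ hX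
  refine ⟨φ a, X.filter fun x => φ x = φ a, ⟨filter_subset _ _, fun i hi => (mem_filter.1 hi).2,
    fun i hi hi' => lt_of_le_of_ne (ha' i hi) fun h => hi' (mem_filter.2 ⟨hi, h⟩)⟩,
    a, mem_filter.2 ⟨ha, rfl⟩⟩

lemma mem_of_mem_hull (hX : Conv id X) {A : Finset V} (hA : A ⊆ X) {x : V} (hx : x ∈ X)
    (h : x ∈ convexHull ℝ (A : Set V)) : x ∈ A := by
  by_contra hxA
  obtain ⟨ψ, hψ⟩ := hX x hx
  exact lt_irrefl _ (hull_lt (φ := ψ) (c := ψ x)
    (fun i hi => hψ i (hA hi) fun h => hxA (h ▸ hi)) h)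

lemma hull_subset_iff (hX : Conv id X) {A B : Finset V} (hA : A ⊆ X) (hB : B ⊆ X) :
    convexHull ℝ (A : Set V) ⊆ convexHull ℝ (B : Set V) ↔ A ⊆ B :=
  ⟨fun h _ hx => mem_of_mem_hull hX hB (hA hx) (h (subset_convexHull _ _ hx)),
    fun h => convexHull_mono (coe_subset.2 h)⟩

lemma hull_inj (hX : Conv id X) {A B : Finset V} (hA : A ⊆ X) (hB : B ⊆ X)
    (h : convexHull ℝ (A : Set V) = convexHull ℝ (B : Set V)) : A = B :=
  Subset.antisymm ((hull_subset_iff hX hA hB).1 h.subset) ((hull_subset_iff hX hB hA).1 h.superset)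

lemma vectorSpan_hull (s : Set V) : vectorSpan ℝ (convexHull ℝ s) = vectorSpan ℝ s := by
  rw [← direction_affineSpan, affineSpan_convexHull, direction_affineSpan]

lemma dim_lt_card {A : Finset V} (hA : A.Nonempty) :
    finrank ℝ (vectorSpan ℝ (A : Set V)) + 1 ≤ A.card := by
  classical
  have h1 : A.card = (A.card - 1) + 1 := by
    have := card_pos.2 hA
    omega
  have := finrank_vectorSpan_image_finset_le ℝ (id : V → V) A h1
  rw [image_id] at this
  omega

lemma two_le_dim [FiniteDimensional ℝ V] (hX : Conv id X) {A : Finset V} (hA : A ⊆ X)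
    (h3 : 3 ≤ A.card) : 2 ≤ finrank ℝ (vectorSpan ℝ (A : Set V)) := by
  obtain ⟨x, p, q, hx, hp, hq, hxp, hxq, hpq⟩ := two_lt_card_iff.1 h3
  let w : Fin 2 → vectorSpan ℝ (A : Set V) :=
    ![⟨p - x, vsub_mem_vectorSpan ℝ hp hx⟩, ⟨q - x, vsub_mem_vectorSpan ℝ hq hx⟩]
  have hw : LinearIndependent ℝ w := by
    rw [LinearIndependent.pair_iff]
    intro s t h
    exact indep3 hX (hA hx) (hA hp) (hA hq) hxp hxq hpq s t (congrArg Subtype.val h)
  simpa using hw.fintype_card_le_finrank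

lemma one_le_dim [FiniteDimensional ℝ V] {A : Finset V} {x y : V} (hx : x ∈ A) (hy : y ∈ A)
    (hxy : x ≠ y) : 1 ≤ finrank ℝ (vectorSpan ℝ (A : Set V)) := by
  rw [Submodule.one_le_finrank_iff]
  intro h
  have : x - y ∈ vectorSpan ℝ (A : Set V) := vsub_mem_vectorSpan ℝ hx hy
  rw [h, Submodule.mem_bot, sub_eq_zero] at this
  exact hxy this

lemma span_le_ker {φ : V →ₗ[ℝ] ℝ} {c : ℝ} {A : Finset V} (h : ∀ i ∈ A, φ i = c) :
    vectorSpan ℝ (A : Set V) ≤ LinearMap.ker φ := by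
  rw [vectorSpan_def, Submodule.span_le]
  rintro _ ⟨x, hx, y, hy, rfl⟩
  simp [h x hx, h y hy]

lemma dim_le_two (hV : finrank ℝ V = 3) {φ : V →ₗ[ℝ] ℝ} (hφ : φ ≠ 0) {c : ℝ} {A : Finset V}
    (h : ∀ i ∈ A, φ i = c) : finrank ℝ (vectorSpan ℝ (A : Set V)) ≤ 2 := by
  have : FiniteDimensional ℝ V := Module.finite_of_finrank_pos (by omega)
  have h1 := Submodule.finrank_mono (span_le_ker h)
  have h2 := Module.Dual.finrank_ker_add_one_of_ne_zero hφ
  omega

end General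

lemma finrank_three : finrank ℝ (EuclideanSpace ℝ (Fin 3)) = 3 := by simp

lemma exists_vertices {P : Set (EuclideanSpace ℝ (Fin 3))} (hP : IsPolyhedron P) :
    ∃ X : Finset (EuclideanSpace ℝ (Fin 3)), P = convexHull ℝ (X : Set _) ∧ Conv id X ∧
      finrank ℝ (vectorSpan ℝ (X : Set (EuclideanSpace ℝ (Fin 3)))) = 3 := by
  classical
  obtain ⟨⟨S, hS⟩, hd⟩ := hP
  obtain ⟨X, hX, hmin⟩ := exists_min_image
    (S.powerset.filter fun T : Finset (EuclideanSpace ℝ (Fin 3)) =>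
      P = convexHull ℝ (T : Set (EuclideanSpace ℝ (Fin 3)))) card
    ⟨S, mem_filter.2 ⟨mem_powerset_self _, hS⟩⟩
  obtain ⟨hXS, hXP⟩ := mem_filter.1 hX
  refine ⟨X, hXP, fun x hx => ?_, by rw [← vectorSpan_hull, ← hXP, hd]⟩
  have hnot : x ∉ convexHull ℝ ((X.erase x : Finset _) : Set (EuclideanSpace ℝ (Fin 3))) := by
    intro h
    have h1 : P = convexHull ℝ ((X.erase x : Finset _) : Set (EuclideanSpace ℝ (Fin 3))) := by
      rw [hXP]
      refine Set.Subset.antisymm (convexHull_min (fun y hy => ?_) (convex_convexHull _ _))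
        (convexHull_mono (coe_subset.2 (erase_subset _ _)))
      by_cases hyx : y = x
      · exact hyx ▸ h
      · exact subset_convexHull _ _ (mem_coe.2 (mem_erase.2 ⟨hyx, hy⟩))
    have h2 := hmin (X.erase x) (mem_filter.2
      ⟨mem_powerset.2 ((erase_subset _ _).trans (mem_powerset.1 hXS)), h1⟩)
    have h3 := card_erase_lt_of_mem hx
    omega
  obtain ⟨f, u, hf, hu⟩ := geometric_hahn_banach_closed_point (convex_convexHull ℝ _)
    ((finite_toSet _).isClosed_convexHull ℝ) hnot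
  refine ⟨f.toLinearMap, fun j hj hjx => ?_⟩
  exact (hf j (subset_convexHull _ _ (mem_coe.2 (mem_erase.2 ⟨hjx, hj⟩)))).trans hu

variable {X : Finset (EuclideanSpace ℝ (Fin 3))}

lemma full_of_dim (hd : finrank ℝ (vectorSpan ℝ (X : Set (EuclideanSpace ℝ (Fin 3)))) = 3) :
    Full id X := by
  intro φ hφ c
  by_contra h
  push Not at h
  have := dim_le_two finrank_three hφ h
  omega

lemma isFace_iff (hd : finrank ℝ (vectorSpan ℝ (X : Set (EuclideanSpace ℝ (Fin 3)))) = 3)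
    {j : ℕ} {F : Set (EuclideanSpace ℝ (Fin 3))} :
    IsFace (convexHull ℝ (X : Set _)) j F ↔ ∃ φ c A, Supp id X φ c A ∧ A.Nonempty ∧
      F = convexHull ℝ (A : Set _) ∧
        finrank ℝ (vectorSpan ℝ (A : Set (EuclideanSpace ℝ (Fin 3)))) = j := by
  have hX : X.Nonempty := by
    rw [nonempty_iff_ne_empty]
    rintro rfl
    rw [coe_empty, vectorSpan_empty, finrank_bot] at hd
    omega
  constructor
  · rintro ⟨h1, h2, h3⟩
    obtain ⟨l, hl⟩ := h2 h1
    obtain ⟨c, A, hs, hA⟩ := exists_supp hX l.toLinearMap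
    have e : F = convexHull ℝ (A : Set _) := hl.trans (face_eq hs hA)
    exact ⟨_, c, A, hs, hA, e, by rw [← vectorSpan_hull, ← e, h3]⟩
  · rintro ⟨φ, c, A, hs, hA, rfl, h⟩
    refine ⟨convexHull_nonempty_iff.2 (by exact_mod_cast hA),
      fun _ => ⟨LinearMap.toContinuousLinearMap φ, (face_eq hs hA).symm⟩, ?_⟩
    rw [vectorSpan_hull, h]

lemma isFace_two_iff (hX : Conv id X)
    (hd : finrank ℝ (vectorSpan ℝ (X : Set (EuclideanSpace ℝ (Fin 3)))) = 3)
    {F : Set (EuclideanSpace ℝ (Fin 3))} :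
    IsFace (convexHull ℝ (X : Set _)) 2 F ↔ ∃ A, Facet id X A ∧ convexHull ℝ (A : Set _) = F := by
  rw [isFace_iff hd]
  constructor
  · rintro ⟨φ, c, A, hs, hA, rfl, h⟩
    refine ⟨A, ⟨?_, φ, ?_, c, hs⟩, rfl⟩
    · have := dim_lt_card hA
      omega
    · rintro rfl
      obtain ⟨a, ha⟩ := hA
      have e : A = X := Subset.antisymm hs.1 fun x hx => hs.mem hx (hs.2.1 a ha)
      rw [e] at h
      omega
  · rintro ⟨A, ⟨h3, φ, hφ, c, hs⟩, rfl⟩
    exact ⟨φ, c, A, hs, card_pos.1 (by omega), rfl,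
      le_antisymm (dim_le_two finrank_three hφ hs.2.1) (two_le_dim hX hs.1 h3)⟩

open Classical in
lemma isFace_one_iff (hX : Conv id X)
    (hd : finrank ℝ (vectorSpan ℝ (X : Set (EuclideanSpace ℝ (Fin 3)))) = 3)
    {F : Set (EuclideanSpace ℝ (Fin 3))} :
    IsFace (convexHull ℝ (X : Set _)) 1 F ↔
      ∃ A ∈ edgeSets id X, convexHull ℝ (A : Set _) = F := by
  rw [isFace_iff hd]
  constructor
  · rintro ⟨φ, c, A, hs, hA, rfl, h⟩
    have h1 := dim_lt_card hA
    have h2 : A.card = 2 := by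
      by_contra hh
      have := two_le_dim hX hs.1 (by omega)
      omega
    obtain ⟨x, y, hxy, rfl⟩ := card_eq_two.1 h2
    have hx : φ x = c := hs.2.1 x (by simp)
    have hy : φ y = c := hs.2.1 y (by simp)
    refine ⟨_, mem_edgeSets.2 ⟨x, y, ⟨hs.1 (by simp), hs.1 (by simp), hxy, φ, hy.trans hx.symm,
      fun k hk hkx hky => ?_⟩, rfl⟩, rfl⟩
    have := hs.2.2 k hk (by simp [hkx, hky])
    exact this.trans_eq hx.symm
  · rintro ⟨A, hA, rfl⟩
    obtain ⟨x, y, ⟨hx, hy, hxy, φ, h1, h2⟩, rfl⟩ := mem_edgeSets.1 hA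
    refine ⟨φ, φ x, {x, y}, ⟨insert_subset hx (singleton_subset_iff.2 hy), fun i hi => ?_,
      fun i hi hi' => ?_⟩, by simp, rfl, le_antisymm ?_ (one_le_dim (x := x) (y := y) (by simp)
        (by simp) hxy)⟩
    · simp only [mem_insert, mem_singleton] at hi
      rcases hi with rfl | rfl
      · rfl
      · exact h1
    · simp only [mem_insert, mem_singleton, not_or] at hi'
      exact h2 i hi hi'.1 hi'.2
    · have h3 := dim_lt_card (A := ({x, y} : Finset (EuclideanSpace ℝ (Fin 3)))) (by simp)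
      have h4 : ({x, y} : Finset (EuclideanSpace ℝ (Fin 3))).card ≤ 2 := card_le_two
      omega

open Classical in
lemma sides_eq (hX : Conv id X)
    (hd : finrank ℝ (vectorSpan ℝ (X : Set (EuclideanSpace ℝ (Fin 3)))) = 3)
    {A : Finset (EuclideanSpace ℝ (Fin 3))} (hA : A ⊆ X) :
    sides (convexHull ℝ (X : Set _)) (convexHull ℝ (A : Set _)) = nsides id X A := by
  have hsub : ∀ E ∈ edgeSets id X, E ⊆ X := fun E hE => by
    obtain ⟨x, y, h, rfl⟩ := mem_edgeSets.1 hE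
    exact insert_subset h.1 (singleton_subset_iff.2 h.2.1)
  have e : {E | IsFace (convexHull ℝ (X : Set _)) 1 E ∧ E ⊆ convexHull ℝ (A : Set _)} =
      (fun B : Finset (EuclideanSpace ℝ (Fin 3)) => convexHull ℝ (B : Set _)) ''
        ((edgeSets id X).filter fun E => E ⊆ A : Finset _) := by
    ext F
    simp only [Set.mem_ofPred_eq, isFace_one_iff hX hd, Set.mem_image, mem_coe, mem_filter]
    constructor
    · rintro ⟨⟨B, hB, rfl⟩, h⟩
      exact ⟨B, ⟨hB, (hull_subset_iff hX (hsub B hB) hA).1 h⟩, rfl⟩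
    · rintro ⟨B, ⟨hB, h⟩, rfl⟩
      exact ⟨⟨B, hB, rfl⟩, (hull_subset_iff hX (hsub B hB) hA).2 h⟩
  rw [sides, e, Set.InjOn.ncard_image, Set.ncard_coe_finset, nsides]
  intro B hB C hC h
  exact hull_inj hX (hsub B (mem_filter.1 hB).1) (hsub C (mem_filter.1 hC).1) h

open Classical in
lemma faceCount_eq (hX : Conv id X)
    (hd : finrank ℝ (vectorSpan ℝ (X : Set (EuclideanSpace ℝ (Fin 3)))) = 3) (n : ℕ) :
    faceCount (convexHull ℝ (X : Set _)) n =
      ((facets id X).filter fun A => nsides id X A = n).card := by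
  have e : {F | IsFace (convexHull ℝ (X : Set _)) 2 F ∧ sides (convexHull ℝ (X : Set _)) F = n} =
      (fun B : Finset (EuclideanSpace ℝ (Fin 3)) => convexHull ℝ (B : Set _)) ''
        ((facets id X).filter fun A => nsides id X A = n : Finset _) := by
    ext F
    simp only [Set.mem_ofPred_eq, isFace_two_iff hX hd, Set.mem_image, mem_coe, mem_filter,
      mem_facets]
    constructor
    · rintro ⟨⟨B, hB, rfl⟩, h⟩
      exact ⟨B, ⟨hB, by rwa [sides_eq hX hd hB.subset] at h⟩, rfl⟩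
    · rintro ⟨B, ⟨hB, h⟩, rfl⟩
      exact ⟨⟨B, hB, rfl⟩, by rwa [sides_eq hX hd hB.subset]⟩
  rw [faceCount, e, Set.InjOn.ncard_image, Set.ncard_coe_finset]
  intro B hB C hC h
  exact hull_inj hX (mem_facets.1 (mem_filter.1 hB).1).subset
    (mem_facets.1 (mem_filter.1 hC).1).subset h

lemma sum_eq_finsum {α : Type*} (T : Finset α) (s : α → ℕ) (f : ℕ → ℕ) :
    ∑ A ∈ T, f (s A) = ∑ᶠ n, f n * (T.filter fun A => s A = n).card := by
  rw [sum_comp, finsum_eq_sum_of_support_subset (s := T.image s)]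
  · exact sum_congr rfl fun n _ => by rw [smul_eq_mul, mul_comm]
  · intro n hn
    rw [Function.mem_support, mul_ne_zero_iff, card_ne_zero] at hn
    obtain ⟨A, hA⟩ := hn.2
    obtain ⟨h1, h2⟩ := mem_filter.1 hA
    exact mem_coe.2 (mem_image.2 ⟨A, h1, h2⟩)

lemma exists_choice {α : Type*} [DecidableEq α] (T : Finset α) (s : α → ℕ) (k : ℕ → ℕ)
    (hk : ∀ n, k n ≤ (T.filter fun A => s A = n).card) :
    ∃ K ⊆ T, ∀ f : ℕ → ℕ, ∑ A ∈ K, f (s A) = ∑ᶠ n, f n * k n ∧
      ∑ A ∈ T \ K, f (s A) = ∑ᶠ n, f n * ((T.filter fun A => s A = n).card - k n) := by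
  choose L hL hL' using fun n => exists_subset_card_eq (hk n)
  have e : ∀ n, ((T.filter fun A => A ∈ L (s A)).filter fun A => s A = n) = L n := by
    intro n
    ext A
    simp only [mem_filter]
    constructor
    · rintro ⟨⟨-, h⟩, rfl⟩
      exact h
    · intro h
      obtain ⟨h1, rfl⟩ := mem_filter.1 (hL n h)
      exact ⟨⟨h1, h⟩, rfl⟩
  refine ⟨T.filter fun A => A ∈ L (s A), filter_subset _ _, fun f => ⟨?_, ?_⟩⟩
  · rw [sum_eq_finsum]
    exact finsum_congr fun n => by rw [e, hL']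
  · rw [sum_eq_finsum]
    refine finsum_congr fun n => ?_
    rw [← hL', ← card_sdiff_of_subset (hL n), ← e n]
    congr 2
    ext A
    simp only [mem_filter, mem_sdiff]
    tauto

open Classical in
/-- Transfer of an inequality for subsets of facets to the face counts of a polyhedron. -/
lemma transfer {P : Set (EuclideanSpace ℝ (Fin 3))} (hP : IsPolyhedron P) (k : ℕ → ℕ)
    (hk : ∀ n, k n ≤ faceCount P n) :
    ∃ X : Finset (EuclideanSpace ℝ (Fin 3)), Conv id X ∧ Full id X ∧ ∃ K ⊆ facets id X,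
      K.card = ∑ᶠ n, k n ∧ ∀ f : ℕ → ℕ, ∑ A ∈ K, f (nsides id X A) = ∑ᶠ n, f n * k n ∧
        ∑ A ∈ facets id X \ K, f (nsides id X A) = ∑ᶠ n, f n * (faceCount P n - k n) := by
  obtain ⟨X, rfl, hX, hd⟩ := exists_vertices hP
  simp only [faceCount_eq hX hd] at hk ⊢
  obtain ⟨K, hK, h⟩ := exists_choice (facets id X) (nsides id X) k hk
  refine ⟨X, hX, full_of_dim hd, K, hK, ?_, h⟩
  simpa using (h fun _ => 1).1

end Pool.Agent.P.MP_e40812_co
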