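import Pool.Agent.P.MP_e40812_co.Digits
import Pool.Agent.Lib.PolyTime.Cook3

/-!
Satisfiability of formulas with three literals per clause, as the choice of a subset with
prescribed intersection sizes with the blocks of three partitions.
-/

namespace Pool.Agent.P.MP_e40812_co

open Finset Pool.Agent.Lib.PolyTime

section Counts

variable {κ : Type*} (s : Finset κ) (l : κ → ℕ) (σ d : κ → Bool)

lemma pairs_eq_iff : (s.val.map fun k => (l k, σ k)) = (s.val.map fun k => (l k, d k)) ↔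
    ∀ L, ∑ k ∈ s, (if l k = L ∧ σ k = true then 1 else 0) =
      ∑ k ∈ s, (if l k = L ∧ d k = true then 1 else 0 : ℕ) := by
  have key : ∀ (τ : κ → Bool) (L : ℕ) (t : Bool), (s.val.map fun k => (l k, τ k)).count (L, t) =
      ∑ k ∈ s, if l k = L ∧ τ k = t then 1 else 0 := by
    intro τ L t
    rw [Multiset.count_map, ← card_filter, ← card_val, filter_val]
    simp only [Prod.mk.injEq, eq_comm]
  have tot : ∀ (τ : κ → Bool) (L : ℕ), ∑ k ∈ s, (if l k = L ∧ τ k = true then 1 else 0) +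
      ∑ k ∈ s, (if l k = L ∧ τ k = false then 1 else 0) = ∑ k ∈ s, (if l k = L then 1 else 0 : ℕ) := by
    intro τ L
    rw [← sum_add_distrib]
    exact sum_congr rfl fun k _ => by cases τ k <;> simp
  refine ⟨fun h L => by rw [← key, ← key, h], fun h => ?_⟩
  ext ⟨L, t⟩
  rw [key, key]
  cases t
  · have h1 := tot σ L
    have h2 := tot d L
    have h3 := h L
    omega
  · exact h L

lemma counts_of_ne_zero (h0 : ∑ k ∈ s, (if σ k = true then 1 else 0) =
      ∑ k ∈ s, (if d k = true then 1 else 0 : ℕ))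
    (h : ∀ c, ∑ k ∈ s, (if l k = c + 1 ∧ σ k = true then 1 else 0) =
      ∑ k ∈ s, (if l k = c + 1 ∧ d k = true then 1 else 0 : ℕ)) (L : ℕ) :
    ∑ k ∈ s, (if l k = L ∧ σ k = true then 1 else 0) =
      ∑ k ∈ s, (if l k = L ∧ d k = true then 1 else 0 : ℕ) := by
  rcases L with _ | c
  · have key : ∀ τ : κ → Bool, ∑ k ∈ s, (if τ k = true then 1 else 0 : ℕ) =
        ∑ k ∈ s, (if l k = 0 ∧ τ k = true then 1 else 0) +
        ∑ c ∈ range (s.sup l), ∑ k ∈ s, (if l k = c + 1 ∧ τ k = true then 1 else 0) := by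
      intro τ
      rw [add_comm, ← sum_range_succ' (fun L => ∑ k ∈ s, if l k = L ∧ τ k = true then 1 else 0),
        sum_comm]
      refine sum_congr rfl fun k hk => ?_
      rw [sum_eq_single_of_mem (l k) (mem_range.2 (Nat.lt_succ_of_le (le_sup hk)))
        fun L _ hL => if_neg fun e => hL e.1.symm]
      simp
    have h1 := key σ
    have h2 := key d
    rw [sum_congr rfl fun c _ => h c] at h1
    omega
  · exact h c

end Counts

lemma sum_rot (K : ℕ) (g : ℕ → ℕ) : ∑ i ∈ range K, g ((i + 1) % K) = ∑ i ∈ range K, g i := by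
  rcases K with _ | K
  · simp
  · rw [sum_range_succ, sum_range_succ' g, Nat.mod_self]
    congr 1
    exact sum_congr rfl fun i hi => by rw [Nat.mod_eq_of_lt (by simpa using hi)]

lemma sum_five (C c : ℕ) (τ : ℕ → Bool) :
    ∑ i ∈ range (5 * C), (if i / 5 = c ∧ τ i = true then 1 else 0 : ℕ) =
      if c < C then (τ (5 * c)).toNat + (τ (5 * c + 1)).toNat + (τ (5 * c + 2)).toNat +
        (τ (5 * c + 3)).toNat + (τ (5 * c + 4)).toNat else 0 := by
  induction C with
  | zero => simp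
  | succ C ih =>
    rw [show 5 * (C + 1) = 5 * C + 1 + 1 + 1 + 1 + 1 by ring]
    simp only [sum_range_succ, ih]
    have e : ∀ b : Bool, (if b = true then 1 else 0) = b.toNat := fun b => by cases b <;> rfl
    rw [show 5 * C / 5 = C by omega, show (5 * C + 1) / 5 = C by omega,
      show (5 * C + 1 + 1) / 5 = C by omega, show (5 * C + 1 + 1 + 1) / 5 = C by omega,
      show (5 * C + 1 + 1 + 1 + 1) / 5 = C by omega]
    by_cases h : C = c
    · subst h
      simp [e]
    · simp only [h, false_and, if_false, add_zero]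
      congr 1
      exact propext (by omega)

/-- The literal at slot `j`; every clause has five slots, the last two are auxiliary. -/
def lit (φ : CNF) (j : ℕ) : ℕ × Bool := (φ.getD (j / 5) []).getD (j % 5) (0, true)

/-- The variable at slot `j`. -/
def key (φ : CNF) (j : ℕ) : ℕ := if j % 5 < 3 then 2 * (lit φ j).1 else 2 * j + 1

/-- The rank of a variable. -/
def rank (φ : CNF) (k : ℕ) : ℕ := (List.range (5 * φ.length)).countP fun i => decide (key φ i < k)

/-- First partition. -/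
def l1 (K : ℕ) (k : ℕ × ℕ × Bool) : ℕ := k.2.1 + K * k.1

/-- Second partition. -/
def l2 (K : ℕ) (k : ℕ × ℕ × Bool) : ℕ := (if k.2.2 = true then (k.2.1 + 1) % K else k.2.1) + K * k.1

/-- Third partition. -/
def l3 (φ : CNF) (k : ℕ × ℕ × Bool) : ℕ :=
  if k.1 = rank φ (key φ k.2.1) ∧ k.2.2 = !(lit φ k.2.1).2 then k.2.1 / 5 + 1 else 0

/-- A subset with the prescribed sizes for the third partition. -/
def d3 (φ : CNF) (k : ℕ × ℕ × Bool) : Bool :=
  if k.1 = rank φ (key φ k.2.1) then decide (k.2.2 = !(lit φ k.2.1).2 ↔ k.2.1 % 5 < 3) else !k.2.2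

/-- The ground set. -/
def bins (K : ℕ) : Finset (ℕ × ℕ × Bool) := range K ×ˢ range K ×ˢ univ

lemma mem_bins {K : ℕ} {k : ℕ × ℕ × Bool} : k ∈ bins K ↔ k.1 < K ∧ k.2.1 < K := by simp [bins]

lemma sum_bins (K : ℕ) (f : ℕ × ℕ × Bool → ℕ) : ∑ k ∈ bins K, f k =
    ∑ v ∈ range K, ∑ i ∈ range K, (f (v, i, true) + f (v, i, false)) := by
  simp only [bins, sum_product, Fintype.sum_bool]

lemma rank_eq (φ : CNF) (k : ℕ) :
    rank φ k = ((range (5 * φ.length)).filter fun i => key φ i < k).card := by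
  rw [rank, List.countP_eq_length_filter]
  rfl

lemma rank_lt_rank {φ : CNF} {i k : ℕ} (hi : i < 5 * φ.length) (h : key φ i < k) :
    rank φ (key φ i) < rank φ k := by
  rw [rank_eq, rank_eq]
  refine card_lt_card ⟨fun x hx => ?_, fun hh => ?_⟩
  · rw [mem_filter] at hx ⊢
    exact ⟨hx.1, hx.2.trans h⟩
  · simpa using hh (mem_filter.2 ⟨mem_range.2 hi, h⟩)

lemma rank_lt {φ : CNF} {i : ℕ} (hi : i < 5 * φ.length) : rank φ (key φ i) < 5 * φ.length := by
  refine (rank_lt_rank hi (Nat.lt_succ_self _)).trans_le ?_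
  rw [rank_eq]
  exact (card_filter_le _ _).trans (card_range _).le

lemma rank_inj {φ : CNF} {i j : ℕ} (hi : i < 5 * φ.length) (hj : j < 5 * φ.length)
    (h : rank φ (key φ i) = rank φ (key φ j)) : key φ i = key φ j := by
  rcases lt_trichotomy (key φ i) (key φ j) with k | k | k
  · exact absurd h (rank_lt_rank hi k).ne
  · exact k
  · exact absurd h (rank_lt_rank hj k).ne'

lemma cnt3 (φ : CNF) (τ : ℕ × ℕ × Bool → Bool) (c : ℕ) :
    ∑ k ∈ bins (5 * φ.length), (if l3 φ k = c + 1 ∧ τ k = true then 1 else 0 : ℕ) =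
      ∑ i ∈ range (5 * φ.length),
        if i / 5 = c ∧ τ (rank φ (key φ i), i, !(lit φ i).2) = true then 1 else 0 := by
  rw [sum_bins, sum_comm]
  refine sum_congr rfl fun i hi => ?_
  rw [sum_eq_single_of_mem (rank φ (key φ i)) (mem_range.2 (rank_lt (mem_range.1 hi)))
    fun v _ hv => by simp [l3, hv]]
  cases h : (lit φ i).2 <;> simp [l3, h]

lemma cnt_d3 (φ : CNF) (c : ℕ) :
    ∑ k ∈ bins (5 * φ.length), (if l3 φ k = c + 1 ∧ d3 φ k = true then 1 else 0 : ℕ) =
      if c < φ.length then 3 else 0 := by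
  rw [cnt3, sum_five]
  simp [d3, Nat.add_mod]

lemma sat_iff_key {φ : CNF} (h3 : ∀ c ∈ φ, c.length = 3) : φ.Sat ↔ ∃ γ : ℕ → Bool, ∀ c < φ.length,
    (γ (key φ (5 * c)) == (lit φ (5 * c)).2).toNat +
    (γ (key φ (5 * c + 1)) == (lit φ (5 * c + 1)).2).toNat +
    (γ (key φ (5 * c + 2)) == (lit φ (5 * c + 2)).2).toNat +
    (γ (key φ (5 * c + 3)) == (lit φ (5 * c + 3)).2).toNat +
    (γ (key φ (5 * c + 4)) == (lit φ (5 * c + 4)).2).toNat = 3 := by
  have hl : ∀ c (hc : c < φ.length), φ[c] = [lit φ (5 * c), lit φ (5 * c + 1), lit φ (5 * c + 2)] ∧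
      (lit φ (5 * c + 3)).2 = true ∧ (lit φ (5 * c + 4)).2 = true := by
    intro c hc
    obtain ⟨x, y, z, e⟩ := List.length_eq_three.1 (h3 _ (List.getElem_mem hc))
    simp only [lit, show 5 * c / 5 = c by omega, show (5 * c + 1) / 5 = c by omega,
      show (5 * c + 2) / 5 = c by omega, show (5 * c + 3) / 5 = c by omega,
      show (5 * c + 4) / 5 = c by omega, show 5 * c % 5 = 0 by omega,
      show (5 * c + 1) % 5 = 1 by omega, show (5 * c + 2) % 5 = 2 by omega,
      show (5 * c + 3) % 5 = 3 by omega, show (5 * c + 4) % 5 = 4 by omega,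
      List.getD_eq_getElem _ _ hc, e]
    simp
  have hk : ∀ c, key φ (5 * c) = 2 * (lit φ (5 * c)).1 ∧
      key φ (5 * c + 1) = 2 * (lit φ (5 * c + 1)).1 ∧
      key φ (5 * c + 2) = 2 * (lit φ (5 * c + 2)).1 ∧
      key φ (5 * c + 3) = 2 * (5 * c + 3) + 1 ∧ key φ (5 * c + 4) = 2 * (5 * c + 4) + 1 :=
    fun c => ⟨if_pos (by omega), if_pos (by omega), if_pos (by omega), if_neg (by omega),
      if_neg (by omega)⟩
  constructor
  · rintro ⟨v, hv⟩
    obtain ⟨t, ht⟩ : ∃ t : ℕ → ℕ, t = fun c => (v (lit φ (5 * c)).1 == (lit φ (5 * c)).2).toNat +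
      (v (lit φ (5 * c + 1)).1 == (lit φ (5 * c + 1)).2).toNat +
      (v (lit φ (5 * c + 2)).1 == (lit φ (5 * c + 2)).2).toNat := ⟨_, rfl⟩
    refine ⟨fun k => if k % 2 = 0 then v (k / 2) else decide (t (k / 10) + k / 2 % 5 ≤ 5),
      fun c hc => ?_⟩
    obtain ⟨k0, k1, k2, k3, k4⟩ := hk c
    obtain ⟨e, e3, e4⟩ := hl c hc
    have h1 := hv _ (List.getElem_mem hc)
    simp only [k0, k1, k2, k3, k4, e3, e4, Nat.mul_mod_right, if_true, Nat.mul_add_mod,
      Nat.mul_div_cancel_left _ (show 0 < 2 by omega), Nat.one_mod, one_ne_zero, if_false,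
      show (2 * (5 * c + 3) + 1) / 10 = c by omega, show (2 * (5 * c + 4) + 1) / 10 = c by omega,
      show (2 * (5 * c + 3) + 1) / 2 % 5 = 3 by omega,
      show (2 * (5 * c + 4) + 1) / 2 % 5 = 4 by omega, ht]
    simp only [e, List.mem_cons, List.not_mem_nil, or_false, exists_eq_or_imp,
      exists_eq_left] at h1
    rw [← beq_iff_eq, ← beq_iff_eq (a := v (lit φ (5 * c + 1)).1),
      ← beq_iff_eq (a := v (lit φ (5 * c + 2)).1)] at h1
    generalize (v (lit φ (5 * c)).1 == (lit φ (5 * c)).2) = x0 at h1 ⊢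
    generalize (v (lit φ (5 * c + 1)).1 == (lit φ (5 * c + 1)).2) = x1 at h1 ⊢
    generalize (v (lit φ (5 * c + 2)).1 == (lit φ (5 * c + 2)).2) = x2 at h1 ⊢
    revert x0 x1 x2
    decide
  · rintro ⟨γ, hγ⟩
    refine ⟨fun x => γ (2 * x), fun cl hcl => ?_⟩
    obtain ⟨c, hc, rfl⟩ := List.getElem_of_mem hcl
    obtain ⟨k0, k1, k2, -⟩ := hk c
    have h1 := hγ c hc
    rw [k0, k1, k2] at h1
    by_contra hn
    simp only [(hl c hc).1, List.mem_cons, List.not_mem_nil, or_false, exists_eq_or_imp,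
      exists_eq_left, not_or] at hn
    rw [beq_eq_false_iff_ne.2 hn.1, beq_eq_false_iff_ne.2 hn.2.1,
      beq_eq_false_iff_ne.2 hn.2.2] at h1
    have h2 := Bool.toNat_le (γ (key φ (5 * c + 3)) == (lit φ (5 * c + 3)).2)
    have h4 := Bool.toNat_le (γ (key φ (5 * c + 4)) == (lit φ (5 * c + 4)).2)
    simp only [Bool.toNat_false] at h1
    omega

lemma two_of_pairs {κ : Type*} {s : Finset κ} {l : κ → ℕ} {σ d : κ → Bool}
    (h : (s.val.map fun k => (l k, σ k)) = s.val.map fun k => (l k, d k)) {a b : κ} (ha : a ∈ s)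
    (hb : b ∈ s) (hab : l b = l a) (da : d a = true) (db : d b = false)
    (hf : ∀ k ∈ s, l k = l a → k = a ∨ k = b) : σ b = !σ a := by
  have h1 : (l a, d a) ∈ s.val.map fun k => (l k, σ k) := h ▸ Multiset.mem_map_of_mem _ ha
  have h2 : (l b, d b) ∈ s.val.map fun k => (l k, σ k) := h ▸ Multiset.mem_map_of_mem _ hb
  obtain ⟨x, hx, e1⟩ := Multiset.mem_map.1 h1
  obtain ⟨y, hy, e2⟩ := Multiset.mem_map.1 h2
  rw [Prod.mk.injEq, da] at e1
  rw [Prod.mk.injEq, db, hab] at e2
  rcases hf x hx e1.1 with rfl | rfl <;> rcases hf y hy e2.1 with rfl | rfl <;> simp_all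

theorem sat_iff_parts {φ : CNF} (h3 : ∀ c ∈ φ, c.length = 3) {K : ℕ} (hK : K = 5 * φ.length) :
    φ.Sat ↔ ∃ σ : ℕ × ℕ × Bool → Bool,
      ((bins K).val.map fun k => (l1 K k, σ k)) = ((bins K).val.map fun k => (l1 K k, !k.2.2)) ∧
      ((bins K).val.map fun k => (l2 K k, σ k)) = ((bins K).val.map fun k => (l2 K k, !k.2.2)) ∧
      ((bins K).val.map fun k => (l3 φ k, σ k)) = (bins K).val.map fun k => (l3 φ k, d3 φ k) := by
  rw [sat_iff_key h3]
  constructor
  · rintro ⟨γ, hγ⟩
    classical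
    obtain ⟨α, hα⟩ : ∃ α : ℕ → Bool, ∀ i < K, α (rank φ (key φ i)) = γ (key φ i) := by
      refine ⟨fun v => decide (∃ j < K, rank φ (key φ j) = v ∧ γ (key φ j) = true), fun i hi => ?_⟩
      rw [Bool.eq_iff_iff, decide_eq_true_iff]
      exact ⟨fun ⟨j, hj, e, h⟩ => rank_inj (hK ▸ hj) (hK ▸ hi) e ▸ h, fun h => ⟨i, hi, rfl, h⟩⟩
    refine ⟨fun k => α k.1 != k.2.2, (pairs_eq_iff _ _ _ _).2 fun L => ?_,
      (pairs_eq_iff _ _ _ _).2 fun L => ?_,
      (pairs_eq_iff _ _ _ _).2 (counts_of_ne_zero _ _ _ _ ?_ fun c => ?_)⟩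
    · rw [sum_bins, sum_bins]
      refine sum_congr rfl fun v _ => sum_congr rfl fun i _ => ?_
      cases α v <;> simp [l1]
    · rw [sum_bins, sum_bins]
      refine sum_congr rfl fun v _ => ?_
      have := sum_rot K fun i => if i + K * v = L then 1 else 0
      cases h : α v
      · simpa [l2, h] using this
      · simp [l2, h]
    · rw [sum_bins, sum_bins]
      refine sum_congr rfl fun v _ => sum_congr rfl fun i _ => ?_
      by_cases h1 : v = rank φ (key φ i) <;> by_cases h2 : i % 5 < 3 <;> cases α v <;>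
        cases h : (lit φ i).2 <;> simp [d3, h1, h2, h]
    · rw [hK, cnt_d3, cnt3, sum_five]
      split_ifs with hc
      · rw [hα _ (by omega), hα _ (by omega), hα _ (by omega), hα _ (by omega), hα _ (by omega)]
        have : ∀ x y : Bool, (x != !y) = (x == y) := by decide
        simp only [this]
        exact hγ c hc
      · rfl
  · rintro ⟨σ, e1, e2, e3⟩
    have a1 : ∀ v < K, ∀ i < K, σ (v, i, true) = !σ (v, i, false) := fun v hv i hi =>
      two_of_pairs e1 (mem_bins.2 ⟨hv, hi⟩) (mem_bins.2 ⟨hv, hi⟩) rfl rfl rfl (by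
        rintro ⟨u, j, e⟩ hk h
        obtain ⟨rfl, rfl⟩ := digit (mem_bins.1 hk).2 hi h
        cases e <;> simp)
    have a2 : ∀ v < K, ∀ i, i + 1 < K → σ (v, i, true) = !σ (v, i + 1, false) := fun v hv i hi =>
      two_of_pairs e2 (mem_bins.2 ⟨hv, hi⟩) (mem_bins.2 ⟨hv, Nat.lt_of_succ_lt hi⟩)
        (by simp [l2, Nat.mod_eq_of_lt hi]) rfl rfl (by
        rintro ⟨u, j, e⟩ hk h
        have hj : j < K := (mem_bins.1 hk).2
        cases e
        · obtain ⟨rfl, rfl⟩ := digit (x := j) hj hi h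
          simp
        · obtain ⟨h1, rfl⟩ := digit (x := (j + 1) % K) (Nat.mod_lt _ (by omega)) hi h
          have : j = i := by
            rcases Nat.lt_or_ge (j + 1) K with k | k
            · rw [Nat.mod_eq_of_lt k] at h1
              omega
            · rw [show j + 1 = K by omega, Nat.mod_self] at h1
              omega
          simp [this])
    have a3 : ∀ v < K, ∀ i < K, σ (v, i, false) = σ (v, 0, false) := by
      intro v hv i
      induction i with
      | zero => exact fun _ => rfl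
      | succ i ih =>
        intro hi
        rw [← ih (by omega)]
        exact Bool.not_inj ((a2 v hv i hi).symm.trans (a1 v hv i (by omega)))
    have a4 : ∀ i < K, σ (rank φ (key φ i), i, !(lit φ i).2) =
        (σ (rank φ (key φ i), 0, false) == (lit φ i).2) := by
      intro i hi
      have hv : rank φ (key φ i) < K := hK ▸ rank_lt (hK ▸ hi)
      cases (lit φ i).2
      · rw [Bool.not_false, a1 _ hv i hi, a3 _ hv i hi]
        simp
      · rw [Bool.not_true, a3 _ hv i hi]
        simp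
    refine ⟨fun k => σ (rank φ k, 0, false), fun c hc => ?_⟩
    have h := (pairs_eq_iff _ _ _ _).1 e3 (c + 1)
    rw [hK, cnt_d3, cnt3, sum_five, if_pos hc, if_pos hc, a4 _ (by omega), a4 _ (by omega),
      a4 _ (by omega), a4 _ (by omega), a4 _ (by omega)] at h
    exact h

end Pool.Agent.P.MP_e40812_co
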