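import Pool.Agent.P.MP_e40812_co.Bridge
import Pool.Agent.P.MP_e40812_co.Sat

/-!
The reduction from satisfiability to the recognition of face vectors.
-/

namespace Pool.Agent.P.MP_e40812_co

open Pool.Agent.Lib.PolyTime N68a2faeb

/-- List form of the degrees of the unweighted base vertices. -/
def zzL (m : ℕ) : List ℕ :=
  [4 * (m + 4), 4 * (m + 4), 16, 12, 12] ++ List.replicate m 16 ++ List.replicate (m + 6) 6 ++
    List.replicate (3 * m + 18) 3

/-- List form of the degrees created by repeated subdivision of `f` triangles. -/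
def levL (f j : ℕ) : List ℕ :=
  (List.range j).flatMap fun n => List.replicate (f * 3 ^ min n j) (3 * 2 ^ (j - 1 - n))

/-- The list of face sizes attached to items `a`, targets `B` and depth `j`. -/
def degL (a B : List ℕ) (j : ℕ) : List ℕ :=
  (zzL B.length).map (fun x => 2 ^ j * x) ++ B.map (fun x => 2 ^ j * 6 + x) ++
    a.map (fun x => 2 ^ j * 3 + x) ++ levL (18 * B.length + 54) j ++ List.replicate a.sum 4

lemma coe_zzL (m : ℕ) : (zzL m : Multiset ℕ) = zz m := rfl

lemma coe_levL (j : ℕ) : ∀ f, (levL f j : Multiset ℕ) = f • lev j := by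
  induction j with
  | zero => simp [levL, lev]
  | succ j ih =>
    intro f
    rw [lev, nsmul_add, Multiset.nsmul_singleton, smul_smul, ← ih, levL, List.range_succ_eq_map,
      List.flatMap_cons, List.flatMap_map, ← Multiset.coe_add, levL]
    congr 2
    · simp
    · refine List.flatMap_congr fun n _ => ?_
      rw [Nat.succ_eq_add_one, Nat.add_min_add_right, pow_succ', mul_assoc,
        show j + 1 - 1 - (n + 1) = j - 1 - n by omega]

lemma coe_degL (a B : List ℕ) (j : ℕ) : (degL a B j : Multiset ℕ) =
    top (2 ^ j) (zz B.length) a B + (18 * B.length + 54) • lev j + Multiset.replicate a.sum 4 := by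
  rw [← coe_levL, ← coe_zzL]
  rfl

lemma lev_sum (j : ℕ) : (lev j).sum + 3 * 2 ^ j = 6 * (lev j).card + 3 := by
  induction j with
  | zero => rfl
  | succ j ih =>
    simp only [lev, Multiset.sum_add, Multiset.sum_singleton, Multiset.sum_nsmul, smul_eq_mul,
      Multiset.card_add, Multiset.card_singleton, Multiset.card_nsmul]
    omega

lemma zz_spec (m : ℕ) : (∀ x ∈ zz m, 3 ≤ x) ∧ (zz m).card = 5 * m + 29 ∧
    (zz m).sum = 39 * m + 162 := by
  refine ⟨fun x hx => ?_, ?_, ?_⟩
  · simp only [zz, Multiset.mem_add, Multiset.mem_replicate, Multiset.insert_eq_cons,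
      Multiset.mem_cons, Multiset.mem_singleton] at hx
    omega
  · simp only [zz, Multiset.card_add, Multiset.card_replicate, Multiset.insert_eq_cons,
      Multiset.card_cons, Multiset.card_singleton]
    omega
  · simp only [zz, Multiset.sum_add, Multiset.sum_replicate, Multiset.insert_eq_cons,
      Multiset.sum_cons, Multiset.sum_singleton, smul_eq_mul]
    omega

theorem degL_spec {a B : List ℕ} {j : ℕ} (hj : j ≠ 0) (ha : ∀ x ∈ a, 0 < x ∧ x < 2 ^ j)
    (hB : ∀ x ∈ B, 0 < x ∧ x < 2 ^ j) (hc : a.length = 3 * B.length) (hs : a.sum = B.sum) :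
    (∀ n ∈ degL a B j, 3 ≤ n) ∧ (degL a B j).sum + 12 = 6 * (degL a B j).length ∧
      (TS a B ↔ ∃ P, IsPolyhedron P ∧ ∀ n, 3 ≤ n → faceCount P n = (degL a B j).count n) := by
  obtain ⟨z1, z2, z3⟩ := zz_spec B.length
  have h2 := Nat.two_pow_pos j
  have h3 : ∀ n ∈ (degL a B j : Multiset ℕ), 3 ≤ n := by
    intro n hn
    simp only [coe_degL, top, Multiset.mem_add, Multiset.mem_map] at hn
    rcases hn with (((⟨x, hx, rfl⟩ | ⟨x, -, rfl⟩) | ⟨x, -, rfl⟩) | hn) | hn
    · exact (z1 x hx).trans (Nat.le_mul_of_pos_left _ h2)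
    · omega
    · omega
    · exact (lev_dvd j n (Multiset.mem_of_mem_nsmul hn)).1
    · rw [Multiset.eq_of_mem_replicate hn]
      omega
  have h4 : (degL a B j : Multiset ℕ).sum + 12 = 6 * (degL a B j : Multiset ℕ).card := by
    have := lev_sum j
    have e1 : ∀ (c : ℕ) (s : Multiset ℕ), (s.map fun x => c + x).sum = s.card * c + s.sum := by
      intro c s
      rw [Multiset.sum_map_add, Multiset.map_id', Multiset.map_const', Multiset.sum_replicate,
        smul_eq_mul]
    have e2 : ((zz B.length).map fun x => 2 ^ j * x).sum = 2 ^ j * (zz B.length).sum := by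
      rw [Multiset.sum_map_mul_left, Multiset.map_id']
    simp only [coe_degL, top, Multiset.sum_add, Multiset.card_add, Multiset.card_map, e1, e2,
      Multiset.sum_replicate, Multiset.sum_nsmul, Multiset.card_nsmul, Multiset.card_replicate,
      smul_eq_mul, z2, z3, Multiset.coe_card, Multiset.sum_coe, hc, hs]
    generalize (lev j).sum = S at *
    generalize B.sum = R at *
    zify at this ⊢
    linear_combination (18 * B.length + 54) * this
  refine ⟨h3, by simpa using h4, fun h => ?_, ?_⟩
  · obtain ⟨V, F, k1, k2, k3⟩ := build hj h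
    obtain ⟨P, hP, hP'⟩ := poly_of_geo k1 k2
    refine ⟨P, hP, fun n _ => ?_⟩
    rw [hP', k3, ← Multiset.coe_count, coe_degL]
    rfl
  · rintro ⟨P, hP, hP'⟩
    obtain ⟨V, F, k1, k2⟩ := tri_of_poly hP h3 (fun n hn => by rw [hP' n hn, Multiset.coe_count]) h4
    exact rigid k1 hj z1 ha hB hc (by omega) (by
      rw [Multiset.coe_card]
      omega) (by
      rw [Multiset.coe_card, Multiset.coe_card]
      omega) (k2.trans (coe_degL a B j))

/-- List form of the ground set. -/
def binsL (K : ℕ) : List (ℕ × ℕ × Bool) :=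
  (List.range K).flatMap fun v => ((List.range K).flatMap fun i => [(i, true), (i, false)]).map
    fun p => (v, p)

lemma coe_binsL (K : ℕ) : (binsL K : Multiset (ℕ × ℕ × Bool)) = (bins K).val := by
  rw [bins, Finset.product_val, Finset.product_val,
    show (Finset.range K).val = (List.range K : Multiset ℕ) from rfl,
    show (Finset.univ : Finset Bool).val = ([true, false] : Multiset Bool) from rfl,
    Multiset.coe_product, Multiset.coe_product]
  rfl

lemma mem_binsL {K : ℕ} {k : ℕ × ℕ × Bool} (h : k ∈ binsL K) : k ∈ bins K := by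
  rwa [← Multiset.mem_coe, coe_binsL] at h

/-- The base of the digit expansion. -/
def base (φ : CNF) : ℕ := 5 * φ.length * (5 * φ.length) + 1

/-- The items. -/
def items (φ : CNF) : List ℕ :=
  (binsL (5 * φ.length)).map (fun k => v1 (l1 (5 * φ.length) k, !k.2.2)) ++
    (binsL (5 * φ.length)).map (fun k => v2 (base φ) (l2 (5 * φ.length) k, !k.2.2)) ++
    (binsL (5 * φ.length)).map fun k => v3 (base φ) (l3 φ k, d3 φ k)

/-- The targets. -/
def targets (φ : CNF) : List ℕ :=
  (binsL (5 * φ.length)).map fun k =>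
    tgt (base φ) (l1 (5 * φ.length) k) (l2 (5 * φ.length) k) (l3 φ k)

/-- A bound for all items and targets. -/
def bound (φ : CNF) : ℕ := 512 * (base φ * (base φ * base φ))

/-- The reduction. -/
def red (φ : CNF) : List ℕ := degL (items φ) (targets φ) (bound φ).size

lemma labels_lt {φ : CNF} {k : ℕ × ℕ × Bool} (hk : k ∈ bins (5 * φ.length)) :
    l1 (5 * φ.length) k < base φ ∧ l2 (5 * φ.length) k < base φ ∧ l3 φ k < base φ := by
  obtain ⟨h1, h2⟩ := mem_bins.1 hk
  unfold base l1 l2 l3
  generalize 5 * φ.length = K at *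
  have h3 := Nat.mul_le_mul_left K (Nat.succ_le_of_lt h1)
  have h4 := Nat.mod_lt (k.2.1 + 1) (show 0 < K by omega)
  have h5 := Nat.le_mul_self K
  rw [Nat.mul_succ] at h3
  refine ⟨by omega, ?_, ?_⟩ <;> split_ifs <;> omega

lemma digits_lt {b x y z : ℕ} (hx : x < b) (hy : y < b) (hz : z < b) :
    x + b * (y + b * z) < b * (b * b) := by
  have h1 := Nat.mul_le_mul_left b (Nat.succ_le_of_lt hz)
  have h2 := Nat.mul_le_mul_left b (show y + b * z + 1 ≤ b * b by rw [Nat.mul_succ] at h1; omega)
  rw [Nat.mul_succ] at h2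
  omega

lemma items_lt (φ : CNF) : ∀ x ∈ items φ, 0 < x ∧ x < bound φ := by
  intro x hx
  have hb : 0 < base φ := Nat.succ_pos _
  simp only [items, List.mem_append, List.mem_map] at hx
  rcases hx with (⟨k, hk, rfl⟩ | ⟨k, hk, rfl⟩) | ⟨k, hk, rfl⟩
  · have h1 := digits_lt (labels_lt (mem_binsL hk)).1 hb hb
    have h2 := Bool.toNat_le (!k.2.2)
    simp only [v1, bound, mul_zero, add_zero] at *
    omega
  · have h1 := digits_lt hb (labels_lt (mem_binsL hk)).2.1 hb
    have h2 := Bool.toNat_le (!k.2.2)
    simp only [v2, bound, mul_zero, add_zero] at *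
    omega
  · have h1 := digits_lt hb hb (labels_lt (mem_binsL hk)).2.2
    have h2 := Bool.toNat_le (!d3 φ k)
    simp only [v3, bound, zero_add] at *
    omega

lemma targets_lt (φ : CNF) : ∀ x ∈ targets φ, 0 < x ∧ x < bound φ := by
  intro x hx
  obtain ⟨k, hk, rfl⟩ := List.mem_map.1 hx
  obtain ⟨h1, h2, h3⟩ := labels_lt (mem_binsL hk)
  have h1 := digits_lt h1 h2 h3
  simp only [tgt, bound]
  omega

lemma sum_items (φ : CNF) : (items φ).sum = (targets φ).sum := by
  have e : ∀ f : ℕ × ℕ × Bool → ℕ, ((binsL (5 * φ.length)).map f).sum =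
      ∑ k ∈ bins (5 * φ.length), f k := fun f => by
    rw [Finset.sum_eq_multiset_sum, ← coe_binsL]
    rfl
  simp only [items, targets, List.sum_append, e, ← Finset.sum_add_distrib, sum_bins]
  refine Finset.sum_congr rfl fun v _ => Finset.sum_congr rfl fun i _ => ?_
  have : (!d3 φ (v, i, true)).toNat + (!d3 φ (v, i, false)).toNat = 1 := by
    by_cases h1 : v = rank φ (key φ i) <;> by_cases h2 : i % 5 < 3 <;>
      cases h : (lit φ i).2 <;> simp [d3, h1, h2, h]
  simp only [v1, v2, v3, tgt, mul_add, Bool.not_true, Bool.not_false, Bool.toNat_true,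
    Bool.toNat_false]
  omega

theorem red_spec {φ : CNF} (h3 : ∀ c ∈ φ, c.length = 3) : (∀ n ∈ red φ, 3 ≤ n) ∧
    (red φ).sum + 12 = 6 * (red φ).length ∧
    (φ.Sat ↔ ∃ P, IsPolyhedron P ∧ ∀ n, 3 ≤ n → faceCount P n = (red φ).count n) := by
  have hb : 0 < base φ := Nat.succ_pos _
  have h1 := Nat.lt_size_self (bound φ)
  have h := degL_spec (a := items φ) (B := targets φ) (j := (bound φ).size)
    (by
      rw [Ne, Nat.size_eq_zero]
      unfold bound
      positivity)
    (fun x hx => ⟨(items_lt φ x hx).1, (items_lt φ x hx).2.trans h1⟩)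
    (fun x hx => ⟨(targets_lt φ x hx).1, (targets_lt φ x hx).2.trans h1⟩)
    (by
      simp only [items, targets, List.length_append, List.length_map]
      omega) (sum_items φ)
  refine ⟨h.1, h.2.1, Iff.trans ?_ h.2.2⟩
  rw [sat_iff_parts h3 rfl, ← ts_iff _ hb _ _ _ _ _ _ (fun k hk => (labels_lt hk).1)
    fun k hk => (labels_lt hk).2.1, ← coe_binsL]
  rfl

section
variable {α : Type} [N487b59b3 α]

@[fun_prop] theorem pt_lit {f : α → CNF} {j : α → ℕ} (hf : PT f) (hj : PT j) :
    PT fun a => lit (f a) (j a) := by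
  unfold lit; fun_prop

@[fun_prop] theorem pt_key {f : α → CNF} {j : α → ℕ} (hf : PT f) (hj : PT j) :
    PT fun a => key (f a) (j a) := by
  unfold key; fun_prop

attribute [local irreducible] lit key

@[fun_prop] theorem pt_rank {f : α → CNF} {j : α → ℕ} (hf : PT f) (hj : PT j) :
    PT fun a => rank (f a) (j a) := by
  unfold rank; fun_prop

attribute [local irreducible] rank

@[fun_prop] theorem pt_l1 {K : α → ℕ} {k : α → ℕ × ℕ × Bool} (hK : PT K) (hk : PT k) :
    PT fun a => l1 (K a) (k a) := by
  unfold l1; fun_prop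

@[fun_prop] theorem pt_l2 {K : α → ℕ} {k : α → ℕ × ℕ × Bool} (hK : PT K) (hk : PT k) :
    PT fun a => l2 (K a) (k a) := by
  unfold l2; fun_prop

@[fun_prop] theorem pt_l3 {f : α → CNF} {k : α → ℕ × ℕ × Bool} (hf : PT f) (hk : PT k) :
    PT fun a => l3 (f a) (k a) := by
  unfold l3; fun_prop

@[fun_prop] theorem pt_d3 {f : α → CNF} {k : α → ℕ × ℕ × Bool} (hf : PT f) (hk : PT k) :
    PT fun a => d3 (f a) (k a) := by
  unfold d3; fun_prop

@[fun_prop] theorem pt_binsL {K : α → ℕ} (hK : PT K) (hs : Small K) :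
    PT fun a => binsL (K a) := by
  unfold binsL; fun_prop

@[fun_prop] theorem pt_base {f : α → CNF} (hf : PT f) : PT fun a => base (f a) := by
  unfold base; fun_prop

attribute [local irreducible] l1 l2 l3 d3 binsL

theorem pt_items : PT items := by
  unfold items v1 v2 v3; fun_prop

theorem pt_targets : PT targets := by
  unfold targets tgt; fun_prop

theorem pt_bound : PT bound := by
  unfold bound; fun_prop

theorem small_bound : Small bound := by
  unfold bound base; fun_prop

theorem pt_levL {f j : α → ℕ} (hf : PT f) (hf' : Small f) (hj : PT j)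
    (hj' : Small fun a => 2 ^ j a) : PT fun a => levL (f a) (j a) := by
  have h1 : Small j := hj'.mono fun _ => Nat.lt_two_pow_self.le
  have h2 : Small fun p : α × ℕ => 3 ^ min p.2 (j p.1) := by
    have h3 : Small fun p : α × ℕ => 2 ^ j p.1 * 2 ^ j p.1 := by
      have : Small fun p : α × ℕ => 2 ^ j p.1 := hj'.comp (g := Prod.fst) (by fun_prop)
      exact this.mul this
    refine h3.mono fun p => ?_
    rw [← mul_pow]
    exact (Nat.pow_le_pow_right (by omega) (min_le_right _ _)).trans
      (Nat.pow_le_pow_left (by omega) _)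
  unfold levL
  refine PT.flatMap (by fun_prop) (PT.replicate (by fun_prop) ?_ (by fun_prop))
  exact (hf'.comp (g := Prod.fst) (by fun_prop)).mul h2

theorem pt_zzL {m : α → ℕ} (hm : PT m) (hs : Small m) : PT fun a => zzL (m a) := by
  unfold zzL; fun_prop

attribute [local irreducible] items targets bound zzL levL

theorem pt_red : PT red := by
  have h1 := pt_items
  have h2 := pt_targets
  have h3 := pt_bound
  have h4 : Small fun φ => 2 ^ (bound φ).size := by
    refine (((Small.const 2).mul small_bound).add (Small.const 1)).mono fun φ => ?_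
    rcases h : (bound φ).size with _ | n
    · omega
    · have := Nat.lt_size.1 (show n < (bound φ).size by omega)
      omega
  have h5 : Small fun φ => (items φ).sum := by
    refine ((Small.length h1).mul small_bound).mono fun φ => ?_
    exact List.sum_le_card_nsmul _ _ fun x hx => (items_lt φ x hx).2.le
  have h6 : PT fun φ => levL (18 * (targets φ).length + 54) (bound φ).size :=
    pt_levL (by fun_prop) (by fun_prop) (by fun_prop) h4
  have h7 : PT fun φ => List.replicate (items φ).sum 4 := PT.replicate (by fun_prop) h5 (by fun_prop)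
  have h8 : PT fun φ => zzL (targets φ).length := pt_zzL (by fun_prop) (by fun_prop)
  have h9 : PT fun φ => 2 ^ (bound φ).size := by fun_prop
  unfold red degL
  refine PT.append (PT.append (PT.append (PT.append (PT.map h8 ?_) (PT.map h2 ?_))
    (PT.map h1 ?_)) h6) h7
  · exact (h9.comp (g := Prod.fst) (by fun_prop)).mul (by fun_prop)
  · exact ((h9.comp (g := Prod.fst) (by fun_prop)).mul (by fun_prop)).add (by fun_prop)
  · exact ((h9.comp (g := Prod.fst) (by fun_prop)).mul (by fun_prop)).add (by fun_prop)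

end

/-- The numbers of entries equal to `3, 4, 5, ...`. -/
def pvec (l : List ℕ) : List ℕ :=
  (List.range (6 * l.length)).map fun i => l.countP fun y => decide (y = i + 3)

theorem pt_pvec : PT pvec := by
  unfold pvec; fun_prop

lemma pvec_getD {l : List ℕ} (h : l.sum + 12 = 6 * l.length) (i : ℕ) :
    (pvec l).getD i 0 = l.count (i + 3) := by
  by_cases hi : i < 6 * l.length
  · rw [List.getD_eq_getElem _ _ (by simpa [pvec] using hi)]
    simp only [pvec, List.getElem_map, List.getElem_range, List.count]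
    rfl
  · rw [List.getD_eq_default _ _ (by simpa [pvec] using hi), List.count_eq_zero.2 fun hm => ?_]
    have := List.single_le_sum (fun _ _ => Nat.zero_le _) _ hm
    omega

lemma sum_pvec {l : List ℕ} (h3 : ∀ n ∈ l, 3 ≤ n) (h : l.sum + 12 = 6 * l.length) (g : ℕ → ℤ) :
    ∑ i ∈ Finset.range (pvec l).length, g (i + 3) * ((pvec l).getD i 0 : ℕ) = (l.map g).sum := by
  have e : (pvec l).length = 6 * l.length := by simp [pvec]
  rw [Finset.sum_list_map_count, e]
  simp only [pvec_getD h]
  rw [← Finset.sum_image (s := Finset.range (6 * l.length)) (g := fun i => i + 3)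
    (f := fun n => g n * (l.count n : ℕ)) fun _ _ _ _ h => Nat.add_right_cancel h]
  refine (Finset.sum_subset (fun n hn => ?_) fun n _ hn => ?_).symm.trans
    (Finset.sum_congr rfl fun n _ => by rw [nsmul_eq_mul, mul_comm])
  · have h1 := List.mem_toFinset.1 hn
    have h2 := List.single_le_sum (fun _ _ => Nat.zero_le _) _ h1
    have h4 := h3 n h1
    exact Finset.mem_image.2 ⟨n - 3, Finset.mem_range.2 (by omega), by omega⟩
  · rw [List.count_eq_zero.2 fun hm => hn (List.mem_toFinset.2 hm)]
    simp

lemma sum_getD (l : List ℕ) : ∑ i ∈ Finset.range l.length, l.getD i 0 = l.sum := by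
  induction l with
  | nil => simp
  | cons a l ih => simp [Finset.sum_range_succ', ← ih, add_comm]

theorem hard : ∀ L ∈ NP, ∃ (f : List Bool → List ℕ) (q : Polynomial ℕ), IsPolyTime f ∧ ∀ x,
    (f x).sum ≤ q.eval x.length ∧
    ∑ i ∈ Finset.range (f x).length, (6 - (i + 3 : ℤ)) * ((f x).getD i 0 : ℕ) = 12 ∧
    (L x = true ↔ ∃ P, IsPolyhedron P ∧ ∀ i, faceCount P (i + 3) = (f x).getD i 0) := by
  intro L hL
  obtain ⟨f, hf, h3, h⟩ := cook3 hL
  have hr := pt_red.comp hf
  obtain ⟨q, hq⟩ := Small.length hr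
  refine ⟨fun x => pvec (red (f x)), q.comp (3 * Polynomial.X), (pt_pvec.comp hr).isPolyTime,
    fun x => ?_⟩
  obtain ⟨r1, r2, r3⟩ := red_spec (h3 x)
  refine ⟨?_, ?_, ?_⟩
  · have h1 := sum_pvec r1 r2 fun _ => 1
    have h2 := hq x
    rw [sz_str] at h2
    simp only [one_mul, List.map_const', List.sum_replicate, nsmul_one, ← Nat.cast_sum, sum_getD,
      Nat.cast_inj] at h1
    simpa [h1] using h2
  · have h1 := sum_pvec r1 r2 fun n => 6 - n
    have h2 : ∀ l : List ℕ, (l.map fun n : ℕ => (6 - n : ℤ)).sum = 6 * l.length - (l.sum : ℕ) := by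
      intro l
      induction l with
      | nil => simp
      | cons a l ih =>
        simp only [List.map_cons, List.sum_cons, ih, List.length_cons]
        push_cast
        ring
    rw [h2] at h1
    simp only [Nat.cast_add, Nat.cast_ofNat] at h1
    rw [h1]
    omega
  · rw [h, r3]
    simp only [pvec_getD r2]
    refine exists_congr fun P => and_congr_right fun _ => ⟨fun k i => k _ (by omega), fun k n hn => ?_⟩
    obtain ⟨i, rfl⟩ := Nat.exists_eq_add_of_le' hn
    exact k i

end Pool.Agent.P.MP_e40812_co
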