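import Pool.Agent.P.MP_e40812_co.Lin

/-!
Finite point families in convex position in a three-dimensional real vector space:
edges, facets and their incidence properties.
-/

namespace Pool.Agent.P.MP_e40812_co

open Module Finset

variable {V : Type*} [AddCommGroup V] [Module ℝ V] {ι : Type*}

/-- Every point of the family is an exposed point. -/
def Conv (pt : ι → V) (X : Finset ι) : Prop :=
  ∀ i ∈ X, ∃ ψ : V →ₗ[ℝ] ℝ, ∀ j ∈ X, j ≠ i → ψ (pt j) < ψ (pt i)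

/-- The pair `i, j` is the exact maximum set of a linear functional. -/
def Edge (pt : ι → V) (X : Finset ι) (i j : ι) : Prop :=
  i ∈ X ∧ j ∈ X ∧ i ≠ j ∧ ∃ φ : V →ₗ[ℝ] ℝ, φ (pt j) = φ (pt i) ∧
    ∀ k ∈ X, k ≠ i → k ≠ j → φ (pt k) < φ (pt i)

/-- `A` is the set where `φ` takes the value `c`, and `φ < c` elsewhere. -/
def Supp (pt : ι → V) (X : Finset ι) (φ : V →ₗ[ℝ] ℝ) (c : ℝ) (A : Finset ι) : Prop :=
  A ⊆ X ∧ (∀ i ∈ A, φ (pt i) = c) ∧ ∀ i ∈ X, i ∉ A → φ (pt i) < c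

/-- Maximum set with at least three points of a nonzero functional. -/
def Facet (pt : ι → V) (X : Finset ι) (A : Finset ι) : Prop :=
  3 ≤ A.card ∧ ∃ φ : V →ₗ[ℝ] ℝ, φ ≠ 0 ∧ ∃ c, Supp pt X φ c A

/-- The family does not lie in a plane. -/
def Full (pt : ι → V) (X : Finset ι) : Prop :=
  ∀ φ : V →ₗ[ℝ] ℝ, φ ≠ 0 → ∀ c : ℝ, ∃ i ∈ X, φ (pt i) ≠ c

variable {pt : ι → V} {X : Finset ι}

lemma Edge.symm {i j : ι} (h : Edge pt X i j) : Edge pt X j i := by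
  obtain ⟨hi, hj, hij, φ, h1, h2⟩ := h
  exact ⟨hj, hi, hij.symm, φ, h1.symm, fun k hk hkj hki => h1 ▸ h2 k hk hki hkj⟩

lemma Supp.le {φ : V →ₗ[ℝ] ℝ} {c : ℝ} {A : Finset ι} (h : Supp pt X φ c A) {i : ι} (hi : i ∈ X) :
    φ (pt i) ≤ c := by
  by_cases hA : i ∈ A
  · exact (h.2.1 i hA).le
  · exact (h.2.2 i hi hA).le

lemma Supp.mem {φ : V →ₗ[ℝ] ℝ} {c : ℝ} {A : Finset ι} (h : Supp pt X φ c A) {i : ι} (hi : i ∈ X)
    (hc : φ (pt i) = c) : i ∈ A := by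
  by_contra hA
  exact (h.2.2 i hi hA).ne hc

lemma Facet.subset {A : Finset ι} (h : Facet pt X A) : A ⊆ X := by
  obtain ⟨-, φ, -, c, hs⟩ := h
  exact hs.1

lemma Conv.ne (hX : Conv pt X) {x y : ι} (hx : x ∈ X) (hy : y ∈ X) (hxy : x ≠ y) :
    pt y - pt x ≠ 0 := by
  obtain ⟨ψ, hψ⟩ := hX x hx
  have := hψ y hy hxy.symm
  intro h
  rw [sub_eq_zero] at h
  rw [h] at this
  exact lt_irrefl _ this

lemma indep3 (hX : Conv pt X) {x p q : ι} (hx : x ∈ X) (hp : p ∈ X) (hq : q ∈ X)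
    (hxp : x ≠ p) (hxq : x ≠ q) (hpq : p ≠ q) (c₁ c₂ : ℝ)
    (h : c₁ • (pt p - pt x) + c₂ • (pt q - pt x) = 0) : c₁ = 0 ∧ c₂ = 0 := by
  obtain ⟨a, ha⟩ := hX x hx
  obtain ⟨b, hb⟩ := hX p hp
  obtain ⟨d, hd⟩ := hX q hq
  have e₁ := congrArg a h
  have e₂ := congrArg b h
  have e₃ := congrArg d h
  simp only [map_add, map_smul, map_sub, smul_eq_mul, map_zero] at e₁ e₂ e₃
  have := sgn3 (c₁ := -(c₁ + c₂)) (c₂ := c₁) (c₃ := c₂)
    (sub_neg.2 (ha p hp hxp.symm)) (sub_neg.2 (ha q hq hxq.symm))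
    (sub_neg.2 (hb x hx hxp)) (sub_neg.2 (hb q hq hpq.symm))
    (sub_neg.2 (hd x hx hxq)) (sub_neg.2 (hd p hp hpq))
    (by linarith) (by linarith) (by linarith)
  exact ⟨this.2.1, this.2.2⟩

lemma facet_subset_of_three (hV : finrank ℝ V = 3) (hX : Conv pt X) {A B : Finset ι}
    (hA : Facet pt X A) (hB : Facet pt X B) {x p q : ι} (hxA : x ∈ A) (hpA : p ∈ A)
    (hqA : q ∈ A) (hxB : x ∈ B) (hpB : p ∈ B) (hqB : q ∈ B)
    (hxp : x ≠ p) (hxq : x ≠ q) (hpq : p ≠ q) : A ⊆ B := by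
  obtain ⟨-, φ, hφ, c, hs⟩ := hA
  obtain ⟨-, χ, hχ, e, ht⟩ := hB
  intro z hz
  have := kill_of_two hV (χ := χ) hφ (u₃ := pt z - pt x)
    (indep3 hX (hs.1 hxA) (hs.1 hpA) (hs.1 hqA) hxp hxq hpq)
    (by rw [map_sub, hs.2.1 p hpA, hs.2.1 x hxA, sub_self])
    (by rw [map_sub, hs.2.1 q hqA, hs.2.1 x hxA, sub_self])
    (by rw [map_sub, hs.2.1 z hz, hs.2.1 x hxA, sub_self])
    (by rw [map_sub, ht.2.1 p hpB, ht.2.1 x hxB, sub_self])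
    (by rw [map_sub, ht.2.1 q hqB, ht.2.1 x hxB, sub_self])
  rw [map_sub, ht.2.1 x hxB, sub_eq_zero] at this
  exact ht.mem (hs.1 hz) this

lemma facet_eq_of_three (hV : finrank ℝ V = 3) (hX : Conv pt X) {A B : Finset ι}
    (hA : Facet pt X A) (hB : Facet pt X B) {x p q : ι} (hxA : x ∈ A) (hpA : p ∈ A)
    (hqA : q ∈ A) (hxB : x ∈ B) (hpB : p ∈ B) (hqB : q ∈ B)
    (hxp : x ≠ p) (hxq : x ≠ q) (hpq : p ≠ q) : A = B :=
  Subset.antisymm (facet_subset_of_three hV hX hA hB hxA hpA hqA hxB hpB hqB hxp hxq hpq)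
    (facet_subset_of_three hV hX hB hA hxB hpB hqB hxA hpA hqA hxp hxq hpq)

lemma facet_inter_le [DecidableEq ι] (hV : finrank ℝ V = 3) (hX : Conv pt X) {A B : Finset ι}
    (hA : Facet pt X A) (hB : Facet pt X B) (hAB : A ≠ B) : (A ∩ B).card ≤ 2 := by
  by_contra h
  push Not at h
  obtain ⟨x, p, q, hx, hp, hq, hxp, hxq, hpq⟩ := two_lt_card_iff.1 h
  rw [mem_inter] at hx hp hq
  exact hAB (facet_eq_of_three hV hX hA hB hx.1 hp.1 hq.1 hx.2 hp.2 hq.2 hxp hxq hpq)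

lemma facet_not_subset (hV : finrank ℝ V = 3) (hX : Conv pt X) {A B : Finset ι}
    (hA : Facet pt X A) (hB : Facet pt X B) (hAB : A ≠ B) : ∃ z ∈ A, z ∉ B := by
  classical
  by_contra h
  push Not at h
  have h1 := facet_inter_le hV hX hA hB hAB
  rw [inter_eq_left.2 h] at h1
  have := hA.1
  omega

/-- In a planar subfamily every point has at most two edge neighbours. -/
lemma three_edges_false (hV : finrank ℝ V = 3) {φ : V →ₗ[ℝ] ℝ} (hφ : φ ≠ 0) {w p q r : ι}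
    (hp : φ (pt p) = φ (pt w)) (hq : φ (pt q) = φ (pt w)) (hr : φ (pt r) = φ (pt w))
    (ep : Edge pt X w p) (eq : Edge pt X w q) (er : Edge pt X w r)
    (hpq : p ≠ q) (hpr : p ≠ r) (hqr : q ≠ r) : False := by
  obtain ⟨-, hpX, hwp, a, ha, ha'⟩ := ep
  obtain ⟨-, hqX, hwq, b, hb, hb'⟩ := eq
  obtain ⟨-, hrX, hwr, d, hd, hd'⟩ := er
  refine three_false hV hφ (u₁ := pt p - pt w) (u₂ := pt q - pt w) (u₃ := pt r - pt w)
    (χ₁ := a) (χ₂ := b) (χ₃ := d) ?_ ?_ ?_ ?_ ?_ ?_ ?_ ?_ ?_ ?_ ?_ ?_ <;> rw [map_sub]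
  · rw [hp, sub_self]
  · rw [hq, sub_self]
  · rw [hr, sub_self]
  · rw [ha, sub_self]
  · exact sub_neg.2 (ha' q hqX hwq.symm hpq.symm)
  · exact sub_neg.2 (ha' r hrX hwr.symm hpr.symm)
  · exact sub_neg.2 (hb' p hpX hwp.symm hpq)
  · rw [hb, sub_self]
  · exact sub_neg.2 (hb' r hrX hwr.symm hqr.symm)
  · exact sub_neg.2 (hd' p hpX hwp.symm hpr)
  · exact sub_neg.2 (hd' q hqX hwq.symm hqr)
  · rw [hd, sub_self]

open Classical in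
lemma edge_nbrs_le_two (hV : finrank ℝ V = 3) {A : Finset ι} (hA : Facet pt X A) {w : ι}
    (hw : w ∈ A) : (A.filter fun p => Edge pt X w p).card ≤ 2 := by
  obtain ⟨-, φ, hφ, c, hs⟩ := hA
  by_contra h
  push Not at h
  obtain ⟨p, q, r, hp, hq, hr, hpq, hpr, hqr⟩ := two_lt_card_iff.1 h
  rw [mem_filter] at hp hq hr
  exact three_edges_false hV hφ (by rw [hs.2.1 p hp.1, hs.2.1 w hw])
    (by rw [hs.2.1 q hq.1, hs.2.1 w hw]) (by rw [hs.2.1 r hr.1, hs.2.1 w hw])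
    hp.2 hq.2 hr.2 hpq hpr hqr

lemma supp_sum_eq {φ : V →ₗ[ℝ] ℝ} {c : ℝ} {A : Finset ι} (hs : Supp pt X φ c A) {x : ι}
    (hx : x ∈ A) : φ (∑ z ∈ A, (pt z - pt x)) = 0 := by
  rw [map_sum]
  refine sum_eq_zero fun z hz => ?_
  rw [map_sub, hs.2.1 z hz, hs.2.1 x hx, sub_self]

lemma supp_sum_lt {φ : V →ₗ[ℝ] ℝ} {c : ℝ} {A B : Finset ι} (hs : Supp pt X φ c A) {x : ι}
    (hx : x ∈ A) (hB : B ⊆ X) (hne : ∃ z ∈ B, z ∉ A) : φ (∑ z ∈ B, (pt z - pt x)) < 0 := by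
  rw [map_sum]
  obtain ⟨z, hz, hzA⟩ := hne
  have : ∑ z ∈ B, φ (pt z - pt x) < ∑ _z ∈ B, (0 : ℝ) := by
    refine sum_lt_sum (fun y hy => ?_) ⟨z, hz, ?_⟩
    · rw [map_sub, hs.2.1 x hx]
      exact sub_nonpos.2 (hs.le (hB hy))
    · rw [map_sub, hs.2.1 x hx]
      exact sub_neg.2 (hs.2.2 z (hB hz) hzA)
  simpa using this

/-- Two points lie in at most two facets. -/
lemma three_facets_false (hV : finrank ℝ V = 3) (hX : Conv pt X) {A B C : Finset ι}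
    (hA : Facet pt X A) (hB : Facet pt X B) (hC : Facet pt X C)
    (hAB : A ≠ B) (hAC : A ≠ C) (hBC : B ≠ C) {x y : ι} (hxy : x ≠ y)
    (hxA : x ∈ A) (hyA : y ∈ A) (hxB : x ∈ B) (hyB : y ∈ B) (hxC : x ∈ C) (hyC : y ∈ C) :
    False := by
  have h1 := facet_not_subset hV hX hA hB hAB
  have h2 := facet_not_subset hV hX hA hC hAC
  have h3 := facet_not_subset hV hX hB hA hAB.symm
  have h4 := facet_not_subset hV hX hB hC hBC
  have h5 := facet_not_subset hV hX hC hA hAC.symm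
  have h6 := facet_not_subset hV hX hC hB hBC.symm
  obtain ⟨-, a, -, ca, ha⟩ := hA
  obtain ⟨-, b, -, cb, hb⟩ := hB
  obtain ⟨-, d, -, cd, hd⟩ := hC
  have hD : finrank ℝ (Module.Dual ℝ V) = 3 := by rw [Subspace.dual_finrank_eq, hV]
  have hne : Module.Dual.eval ℝ V (pt y - pt x) ≠ 0 := by
    rw [Ne, Module.eval_apply_eq_zero_iff]
    exact hX.ne (ha.1 hxA) (ha.1 hyA) hxy
  refine three_false hD hne (u₁ := a) (u₂ := b) (u₃ := d)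
    (χ₁ := Module.Dual.eval ℝ V (∑ z ∈ A, (pt z - pt x)))
    (χ₂ := Module.Dual.eval ℝ V (∑ z ∈ B, (pt z - pt x)))
    (χ₃ := Module.Dual.eval ℝ V (∑ z ∈ C, (pt z - pt x))) ?_ ?_ ?_ ?_ ?_ ?_ ?_ ?_ ?_ ?_ ?_ ?_ <;>
    rw [Module.Dual.eval_apply]
  · rw [map_sub, ha.2.1 x hxA, ha.2.1 y hyA, sub_self]
  · rw [map_sub, hb.2.1 x hxB, hb.2.1 y hyB, sub_self]
  · rw [map_sub, hd.2.1 x hxC, hd.2.1 y hyC, sub_self]
  · exact supp_sum_eq ha hxA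
  · exact supp_sum_lt hb hxB ha.1 h1
  · exact supp_sum_lt hd hxC ha.1 h2
  · exact supp_sum_lt ha hxA hb.1 h3
  · exact supp_sum_eq hb hxB
  · exact supp_sum_lt hd hxC hb.1 h4
  · exact supp_sum_lt ha hxA hd.1 h5
  · exact supp_sum_lt hb hxB hd.1 h6
  · exact supp_sum_eq hd hxC

lemma facet_of_rot {x y : ι} (hxy : Edge pt X x y) (m : V →ₗ[ℝ] ℝ) (hm : m (pt y) = m (pt x))
    (hp : ∃ z ∈ X, m (pt x) < m (pt z)) (hn : ∃ z ∈ X, m (pt z) < m (pt x)) :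
    ∃ A, Facet pt X A ∧ x ∈ A ∧ y ∈ A ∧ (∃ z ∈ A, m (pt x) < m (pt z)) ∧
      ∀ z ∈ A, m (pt x) ≤ m (pt z) := by
  classical
  obtain ⟨hx, hy, hne, φ, h1, h2⟩ := hxy
  have hZ : ∀ z, z ∈ (X.erase x).erase y ↔ z ∈ X ∧ z ≠ x ∧ z ≠ y := by
    intro z
    simp only [mem_erase]
    tauto
  obtain ⟨τ, hτ, hle, z₀, hz₀, hb, he⟩ := rotate ((X.erase x).erase y)
    (fun z => φ (pt z) - φ (pt x)) (fun z => m (pt z) - m (pt x))
    (fun z hz => by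
      obtain ⟨a, b, c⟩ := (hZ z).1 hz
      exact sub_neg.2 (h2 z a b c))
    (by
      obtain ⟨z, hz, hz'⟩ := hp
      refine ⟨z, (hZ z).2 ⟨hz, ?_, ?_⟩, sub_pos.2 hz'⟩
      · rintro rfl
        exact lt_irrefl _ hz'
      · rintro rfl
        exact hz'.ne hm.symm)
  obtain ⟨hz₀X, hz₀x, hz₀y⟩ := (hZ z₀).1 hz₀
  have hφle : ∀ z ∈ X, φ (pt z) ≤ φ (pt x) := by
    intro z hz
    by_cases a : z = x
    · rw [a]
    by_cases b : z = y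
    · rw [b, h1]
    exact (h2 z hz a b).le
  let A := X.filter fun z => (φ + τ • m) (pt z) = (φ + τ • m) (pt x)
  have hA : ∀ z, z ∈ A ↔ z ∈ X ∧ φ (pt z) + τ * m (pt z) = φ (pt x) + τ * m (pt x) := by
    intro z
    simp [A]
  have hxA : x ∈ A := (hA x).2 ⟨hx, rfl⟩
  have hyA : y ∈ A := (hA y).2 ⟨hy, by rw [h1, hm]⟩
  have hzA : z₀ ∈ A := (hA z₀).2 ⟨hz₀X, by linarith⟩
  refine ⟨A, ⟨?_, φ + τ • m, ?_, (φ + τ • m) (pt x), filter_subset _ _,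
    fun i hi => (mem_filter.1 hi).2, fun i hi hiA => ?_⟩, hxA, hyA, ⟨z₀, hzA, by linarith⟩,
    fun z hz => ?_⟩
  · exact two_lt_card_iff.2 ⟨x, y, z₀, hxA, hyA, hzA, hne, hz₀x.symm, hz₀y.symm⟩
  · obtain ⟨z, hz, hz'⟩ := hn
    intro h0
    have e1 := LinearMap.congr_fun h0 (pt z - pt x)
    simp only [LinearMap.add_apply, LinearMap.smul_apply, map_sub, smul_eq_mul,
      LinearMap.zero_apply] at e1
    have := hφle z hz
    nlinarith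
  · have hix : i ≠ x := fun h => hiA (h ▸ hxA)
    have hiy : i ≠ y := fun h => hiA (h ▸ hyA)
    have e1 := hle i ((hZ i).2 ⟨hi, hix, hiy⟩)
    have e2 : ¬ (φ (pt i) + τ * m (pt i) = φ (pt x) + τ * m (pt x)) := fun h =>
      hiA ((hA i).2 ⟨hi, h⟩)
    simp only [LinearMap.add_apply, LinearMap.smul_apply, smul_eq_mul]
    exact lt_of_le_of_ne (by linarith) e2
  · obtain ⟨hzX, e⟩ := (hA z).1 hz
    have := hφle z hzX
    by_contra hh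
    push Not at hh
    nlinarith

/-- In a full-dimensional family every edge lies in two distinct facets. -/
lemma two_facets (hV : finrank ℝ V = 3) (hF : Full pt X) {x y : ι} (hxy : Edge pt X x y) :
    ∃ A B, Facet pt X A ∧ Facet pt X B ∧ A ≠ B ∧ x ∈ A ∧ y ∈ A ∧ x ∈ B ∧ y ∈ B := by
  obtain ⟨ψ₀, hψ₀, h0, -⟩ := exists_dual_two hV (pt y - pt x) 0
  obtain ⟨z₀, hz₀, hz₀'⟩ := hF ψ₀ hψ₀ (ψ₀ (pt x))
  rw [map_sub, sub_eq_zero] at h0
  have hz₀x : z₀ ≠ x := by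
    rintro rfl
    exact hz₀' rfl
  have hz₀y : z₀ ≠ y := by
    rintro rfl
    exact hz₀' h0
  obtain ⟨ψ, z₁, hz₁, h1, h2, h3⟩ : ∃ ψ : V →ₗ[ℝ] ℝ, ∃ z₁ ∈ X, ψ (pt y) = ψ (pt x) ∧
      ψ (pt z₀) = ψ (pt x) ∧ ψ (pt x) < ψ (pt z₁) := by
    obtain ⟨ψ, hψ, h1, h2⟩ := exists_dual_two hV (pt y - pt x) (pt z₀ - pt x)
    rw [map_sub, sub_eq_zero] at h1 h2
    obtain ⟨z₁, hz₁, hz₁'⟩ := hF ψ hψ (ψ (pt x))
    rcases lt_or_gt_of_ne hz₁' with h | h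
    · exact ⟨-ψ, z₁, hz₁, by simp [h1], by simp [h2], by simpa using h⟩
    · exact ⟨ψ, z₁, hz₁, h1, h2, h⟩
  obtain ⟨hx, hy, hne, φ, e1, e2⟩ := id hxy
  obtain ⟨ε, hε, hε'⟩ := small_eps {z₁} (fun _ => ψ (pt x) - ψ (pt z₁))
    (fun _ => φ (pt x) - φ (pt z₁)) (fun _ _ => sub_neg.2 h3)
  have hε'' := hε' z₁ (mem_singleton_self _)
  have e3 := e2 z₀ hz₀ hz₀x hz₀y
  have m1 : (ψ + ε • φ) (pt y) = (ψ + ε • φ) (pt x) := by simp [h1, e1]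
  have m2 : (ψ + ε • φ) (pt x) < (ψ + ε • φ) (pt z₁) := by
    simp only [LinearMap.add_apply, LinearMap.smul_apply, smul_eq_mul]
    linarith
  have m3 : (ψ + ε • φ) (pt z₀) < (ψ + ε • φ) (pt x) := by
    simp only [LinearMap.add_apply, LinearMap.smul_apply, smul_eq_mul]
    nlinarith
  generalize ψ + ε • φ = m at m1 m2 m3
  obtain ⟨A, hA, hxA, hyA, -, hA'⟩ := facet_of_rot hxy m m1 ⟨z₁, hz₁, m2⟩ ⟨z₀, hz₀, m3⟩
  obtain ⟨B, hB, hxB, hyB, ⟨z, hz, hz'⟩, -⟩ := facet_of_rot hxy (-m) (by simp [m1])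
    ⟨z₀, hz₀, by simpa using m3⟩ ⟨z₁, hz₁, by simpa using m2⟩
  refine ⟨A, B, hA, hB, ?_, hxA, hyA, hxB, hyB⟩
  rintro rfl
  have := hA' z hz
  simp only [LinearMap.neg_apply, neg_lt_neg_iff] at hz'
  linarith

lemma edge_of_rot (hV : finrank ℝ V = 3) (hX : Conv pt X) {A : Finset ι} (hA : Facet pt X A)
    {w : ι} (hw : w ∈ A) (m : V →ₗ[ℝ] ℝ)
    (hp : ∃ z ∈ A, m (pt w) < m (pt z)) (hn : ∃ z ∈ A, m (pt z) < m (pt w)) :
    ∃ p ∈ A, Edge pt X w p ∧ m (pt w) < m (pt p) := by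
  classical
  obtain ⟨-, φ, hφ, c, hs⟩ := hA
  obtain ⟨ψ, hψ⟩ := hX w (hs.1 hw)
  obtain ⟨τ, hτ, hle, p, hp, hb, he⟩ := rotate (A.erase w)
    (fun z => ψ (pt z) - ψ (pt w)) (fun z => m (pt z) - m (pt w))
    (fun z hz => sub_neg.2 (hψ z (hs.1 (mem_erase.1 hz).2) (mem_erase.1 hz).1))
    (by
      obtain ⟨z, hz, hz'⟩ := hp
      refine ⟨z, mem_erase.2 ⟨?_, hz⟩, sub_pos.2 hz'⟩
      rintro rfl
      exact lt_irrefl _ hz')
  obtain ⟨hpw, hpA⟩ := mem_erase.1 hp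
  have hstrict : ∀ z ∈ A, z ≠ w → z ≠ p →
      ψ (pt z) - ψ (pt w) + τ * (m (pt z) - m (pt w)) < 0 := by
    intro z hz hzw hzp
    refine lt_of_le_of_ne (hle z (mem_erase.2 ⟨hzw, hz⟩)) fun h0 => ?_
    obtain ⟨q, hq, hq'⟩ := hn
    have hqw : q ≠ w := by
      rintro rfl
      exact lt_irrefl _ hq'
    have := kill_of_two hV (χ := ψ + τ • m) hφ (u₃ := pt q - pt w)
      (indep3 hX (hs.1 hw) (hs.1 hpA) (hs.1 hz) hpw.symm hzw.symm hzp.symm)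
      (by rw [map_sub, hs.2.1 p hpA, hs.2.1 w hw, sub_self])
      (by rw [map_sub, hs.2.1 z hz, hs.2.1 w hw, sub_self])
      (by rw [map_sub, hs.2.1 q hq, hs.2.1 w hw, sub_self])
      (by
        simp only [LinearMap.add_apply, LinearMap.smul_apply, map_sub, smul_eq_mul]
        linarith)
      (by
        simp only [LinearMap.add_apply, LinearMap.smul_apply, map_sub, smul_eq_mul]
        linarith)
    simp only [LinearMap.add_apply, LinearMap.smul_apply, map_sub, smul_eq_mul] at this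
    have := hψ q (hs.1 hq) hqw
    nlinarith
  obtain ⟨ε, hε, hε'⟩ := small_eps (X \ A) (fun z => φ (pt z) - φ (pt w))
    (fun z => ψ (pt z) - ψ (pt w) + τ * (m (pt z) - m (pt w)))
    (fun z hz => by
      rw [hs.2.1 w hw]
      exact sub_neg.2 (hs.2.2 z (mem_sdiff.1 hz).1 (mem_sdiff.1 hz).2))
  refine ⟨p, hpA, ⟨hs.1 hw, hs.1 hpA, hpw.symm, φ + ε • (ψ + τ • m), ?_, ?_⟩, by linarith⟩
  · simp only [LinearMap.add_apply, LinearMap.smul_apply, smul_eq_mul]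
    rw [hs.2.1 p hpA, hs.2.1 w hw]
    have : ψ (pt p) + τ * m (pt p) = ψ (pt w) + τ * m (pt w) := by linarith
    rw [this]
  · intro k hk hkw hkp
    simp only [LinearMap.add_apply, LinearMap.smul_apply, smul_eq_mul]
    by_cases hkA : k ∈ A
    · have := hstrict k hkA hkw hkp
      rw [hs.2.1 k hkA, hs.2.1 w hw]
      nlinarith
    · have := hε' k (mem_sdiff.2 ⟨hk, hkA⟩)
      linarith

/-- Every point of a facet has two edge neighbours in it. -/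
lemma two_edges (hV : finrank ℝ V = 3) (hX : Conv pt X) {A : Finset ι} (hA : Facet pt X A)
    {w : ι} (hw : w ∈ A) :
    ∃ p ∈ A, ∃ q ∈ A, p ≠ q ∧ Edge pt X w p ∧ Edge pt X w q := by
  classical
  have hc : 1 < (A.erase w).card := by
    rw [card_erase_of_mem hw]
    have := hA.1
    omega
  obtain ⟨p₁, hp₁, p₂, hp₂, h12⟩ := one_lt_card.1 hc
  rw [mem_erase] at hp₁ hp₂
  have hAX := hA.subset
  obtain ⟨m₁, hm₁, hm₂⟩ := exists_dual_sep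
    (indep3 hX (hAX hw) (hAX hp₁.2) (hAX hp₂.2) hp₁.1.symm hp₂.1.symm h12)
  obtain ⟨ψ, hψ⟩ := hX w (hAX hw)
  rw [map_sub] at hm₁ hm₂
  obtain ⟨ε, hε, hε'⟩ := small_eps {p₁} (fun _ => m₁ (pt w) - m₁ (pt p₁))
    (fun _ => ψ (pt w) - ψ (pt p₁)) (fun _ _ => by linarith)
  have hε'' := hε' p₁ (mem_singleton_self _)
  have e3 := hψ p₂ (hAX hp₂.2) hp₂.1
  have m2 : (m₁ + ε • ψ) (pt w) < (m₁ + ε • ψ) (pt p₁) := by
    simp only [LinearMap.add_apply, LinearMap.smul_apply, smul_eq_mul]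
    linarith
  have m3 : (m₁ + ε • ψ) (pt p₂) < (m₁ + ε • ψ) (pt w) := by
    simp only [LinearMap.add_apply, LinearMap.smul_apply, smul_eq_mul]
    nlinarith
  generalize m₁ + ε • ψ = m at m2 m3
  obtain ⟨p, hp, ep, hp'⟩ := edge_of_rot hV hX hA hw m ⟨p₁, hp₁.2, m2⟩ ⟨p₂, hp₂.2, m3⟩
  obtain ⟨q, hq, eq, hq'⟩ := edge_of_rot hV hX hA hw (-m)
    ⟨p₂, hp₂.2, by simpa using m3⟩ ⟨p₁, hp₁.2, by simpa using m2⟩
  refine ⟨p, hp, q, hq, ?_, ep, eq⟩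
  rintro rfl
  simp only [LinearMap.neg_apply, neg_lt_neg_iff] at hq'
  linarith

end Pool.Agent.P.MP_e40812_co
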