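import Mathlib

/-!
Linear algebra in a real vector space of dimension three: small lemmas on dependence,
signs and perturbation used for counting faces of point sets in convex position.
-/

namespace Pool.Agent.P.MP_e40812_co

open Module

variable {V : Type*} [AddCommGroup V] [Module ℝ V]

lemma dep3 (hV : finrank ℝ V = 3) {φ : V →ₗ[ℝ] ℝ} (hφ : φ ≠ 0) {u₁ u₂ u₃ : V}
    (h₁ : φ u₁ = 0) (h₂ : φ u₂ = 0) (h₃ : φ u₃ = 0) :
    ∃ c₁ c₂ c₃ : ℝ, (c₁ ≠ 0 ∨ c₂ ≠ 0 ∨ c₃ ≠ 0) ∧ c₁ • u₁ + c₂ • u₂ + c₃ • u₃ = 0 := by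
  have : FiniteDimensional ℝ V := Module.finite_of_finrank_pos (by omega)
  have hk := Module.Dual.finrank_ker_add_one_of_ne_zero hφ
  let w : Fin 3 → LinearMap.ker φ := ![⟨u₁, h₁⟩, ⟨u₂, h₂⟩, ⟨u₃, h₃⟩]
  have hw : ¬ LinearIndependent ℝ w := by
    intro h
    have := h.fintype_card_le_finrank
    simp at this
    omega
  rw [Fintype.not_linearIndependent_iff] at hw
  obtain ⟨c, hc, i, hi⟩ := hw
  refine ⟨c 0, c 1, c 2, ?_, ?_⟩
  · fin_cases i
    · exact Or.inl hi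
    · exact Or.inr (Or.inl hi)
    · exact Or.inr (Or.inr hi)
  · have := congrArg Subtype.val hc
    simpa [Fin.sum_univ_three, w] using this

lemma sgn3 {c₁ c₂ c₃ a a' b b' d d' : ℝ} (ha : a < 0) (ha' : a' < 0) (hb : b < 0) (hb' : b' < 0)
    (hd : d < 0) (hd' : d' < 0) (h₁ : c₂ * a + c₃ * a' = 0) (h₂ : c₁ * b + c₃ * b' = 0)
    (h₃ : c₁ * d + c₂ * d' = 0) : c₁ = 0 ∧ c₂ = 0 ∧ c₃ = 0 := by
  have h1 : c₁ = 0 := by
    rcases lt_trichotomy c₁ 0 with h | h | h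
    · have h3 : 0 < c₃ := by
        by_contra hh
        push Not at hh
        nlinarith
      have h2 : 0 < c₂ := by
        by_contra hh
        push Not at hh
        nlinarith
      nlinarith
    · exact h
    · have h3 : c₃ < 0 := by
        by_contra hh
        push Not at hh
        nlinarith
      have h2 : c₂ < 0 := by
        by_contra hh
        push Not at hh
        nlinarith
      nlinarith
  subst h1
  have h2 : c₂ = 0 := by
    have : c₂ * d' = 0 := by linarith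
    exact (mul_eq_zero.1 this).resolve_right hd'.ne
  have h3 : c₃ = 0 := by
    have : c₃ * b' = 0 := by linarith
    exact (mul_eq_zero.1 this).resolve_right hb'.ne
  exact ⟨rfl, h2, h3⟩

/-- Three vectors of a plane cannot each be strictly separated from the other two. -/
lemma three_false (hV : finrank ℝ V = 3) {φ : V →ₗ[ℝ] ℝ} (hφ : φ ≠ 0) {u₁ u₂ u₃ : V}
    (h₁ : φ u₁ = 0) (h₂ : φ u₂ = 0) (h₃ : φ u₃ = 0) {χ₁ χ₂ χ₃ : V →ₗ[ℝ] ℝ}
    (h11 : χ₁ u₁ = 0) (h12 : χ₁ u₂ < 0) (h13 : χ₁ u₃ < 0)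
    (h21 : χ₂ u₁ < 0) (h22 : χ₂ u₂ = 0) (h23 : χ₂ u₃ < 0)
    (h31 : χ₃ u₁ < 0) (h32 : χ₃ u₂ < 0) (h33 : χ₃ u₃ = 0) : False := by
  obtain ⟨c₁, c₂, c₃, hne, hc⟩ := dep3 hV hφ h₁ h₂ h₃
  have e₁ := congrArg χ₁ hc
  have e₂ := congrArg χ₂ hc
  have e₃ := congrArg χ₃ hc
  simp only [map_add, map_smul, smul_eq_mul, map_zero, h11, h22, h33, mul_zero, zero_add,
    add_zero] at e₁ e₂ e₃
  obtain ⟨a, b, c⟩ := sgn3 h12 h13 h21 h23 h31 h32 e₁ e₂ e₃
  rcases hne with h | h | h <;> contradiction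

lemma kill_of_two (hV : finrank ℝ V = 3) {φ χ : V →ₗ[ℝ] ℝ} (hφ : φ ≠ 0) {u₁ u₂ u₃ : V}
    (hind : ∀ c₁ c₂ : ℝ, c₁ • u₁ + c₂ • u₂ = 0 → c₁ = 0 ∧ c₂ = 0)
    (h₁ : φ u₁ = 0) (h₂ : φ u₂ = 0) (h₃ : φ u₃ = 0) (k₁ : χ u₁ = 0) (k₂ : χ u₂ = 0) :
    χ u₃ = 0 := by
  obtain ⟨c₁, c₂, c₃, hne, hc⟩ := dep3 hV hφ h₁ h₂ h₃
  by_cases h3 : c₃ = 0
  · subst h3
    have := hind c₁ c₂ (by simpa using hc)
    rcases hne with h | h | h
    · exact absurd this.1 h
    · exact absurd this.2 h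
    · exact absurd rfl h
  · have e := congrArg χ hc
    simp only [map_add, map_smul, smul_eq_mul, map_zero, k₁, k₂, mul_zero, zero_add] at e
    exact (mul_eq_zero.1 e).resolve_left h3

lemma exists_dual_two (hV : finrank ℝ V = 3) (u v : V) :
    ∃ ψ : V →ₗ[ℝ] ℝ, ψ ≠ 0 ∧ ψ u = 0 ∧ ψ v = 0 := by
  classical
  have : FiniteDimensional ℝ V := Module.finite_of_finrank_pos (by omega)
  have hlt : Submodule.span ℝ (({u, v} : Finset V) : Set V) < ⊤ := by
    rw [lt_top_iff_ne_top]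
    intro h
    have h1 := finrank_span_finset_le_card (R := ℝ) ({u, v} : Finset V)
    have h2 : ({u, v} : Finset V).card ≤ 2 := Finset.card_le_two
    rw [Set.finrank, h, finrank_top] at h1
    omega
  obtain ⟨f, hf, hf'⟩ := Submodule.exists_dual_map_eq_bot_of_lt_top hlt inferInstance
  have key : ∀ x ∈ Submodule.span ℝ (({u, v} : Finset V) : Set V), f x = 0 := by
    intro x hx
    have : f x ∈ (Submodule.span ℝ (({u, v} : Finset V) : Set V)).map f :=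
      Submodule.mem_map_of_mem hx
    rw [hf'] at this
    simpa using this
  exact ⟨f, hf, key u (Submodule.subset_span (by simp)), key v (Submodule.subset_span (by simp))⟩

lemma exists_dual_sep {u v : V} (hind : ∀ c₁ c₂ : ℝ, c₁ • u + c₂ • v = 0 → c₁ = 0 ∧ c₂ = 0) :
    ∃ ψ : V →ₗ[ℝ] ℝ, 0 < ψ u ∧ ψ v = 0 := by
  have hu : u ∉ Submodule.span ℝ ({v} : Set V) := by
    rw [Submodule.mem_span_singleton]
    rintro ⟨a, ha⟩
    have := hind 1 (-a) (by rw [← ha]; simp)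
    simpa using this.1
  obtain ⟨f, hf, hf'⟩ := Submodule.exists_dual_map_eq_bot_of_notMem hu inferInstance
  have hv : f v = 0 := by
    have : f v ∈ (Submodule.span ℝ ({v} : Set V)).map f :=
      Submodule.mem_map_of_mem (Submodule.mem_span_singleton_self v)
    rw [hf'] at this
    simpa using this
  rcases lt_or_gt_of_ne hf with h | h
  · exact ⟨-f, by simpa using h, by simpa using hv⟩
  · exact ⟨f, h, hv⟩

lemma small_eps {ι : Type*} (Z : Finset ι) (a b : ι → ℝ) (h : ∀ z ∈ Z, a z < 0) :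
    ∃ ε : ℝ, 0 < ε ∧ ∀ z ∈ Z, a z + ε * b z < 0 := by
  have h1 : ∀ᶠ ε in nhdsWithin (0 : ℝ) (Set.Ioi 0), ∀ z ∈ Z, a z + ε * b z < 0 := by
    rw [Finset.eventually_all]
    intro z hz
    apply Filter.Eventually.filter_mono nhdsWithin_le_nhds
    have hc : Continuous fun ε : ℝ => a z + ε * b z := by fun_prop
    have : (fun ε : ℝ => a z + ε * b z) 0 < 0 := by simpa using h z hz
    exact hc.continuousAt.eventually_lt continuousAt_const this
  obtain ⟨ε, h2, h3⟩ := (h1.and self_mem_nhdsWithin).exists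
  exact ⟨ε, h3, h2⟩

lemma rotate {ι : Type*} (Z : Finset ι) (a b : ι → ℝ) (h : ∀ z ∈ Z, a z < 0)
    (hb : ∃ z ∈ Z, 0 < b z) :
    ∃ τ : ℝ, 0 < τ ∧ (∀ z ∈ Z, a z + τ * b z ≤ 0) ∧ ∃ z ∈ Z, 0 < b z ∧ a z + τ * b z = 0 := by
  classical
  have hne : (Z.filter fun z => 0 < b z).Nonempty := by
    obtain ⟨z, hz, hz'⟩ := hb
    exact ⟨z, Finset.mem_filter.2 ⟨hz, hz'⟩⟩
  obtain ⟨z₀, hz₀, hmin⟩ := Finset.exists_min_image _ (fun z => -a z / b z) hne
  obtain ⟨hz₀Z, hb₀⟩ := Finset.mem_filter.1 hz₀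
  have hpos : 0 < -a z₀ / b z₀ := div_pos (by linarith [h z₀ hz₀Z]) hb₀
  refine ⟨-a z₀ / b z₀, hpos, ?_, z₀, hz₀Z, hb₀, ?_⟩
  · intro z hz
    by_cases hbz : 0 < b z
    · have := hmin z (Finset.mem_filter.2 ⟨hz, hbz⟩)
      rw [le_div_iff₀ hbz] at this
      linarith
    · push Not at hbz
      have := h z hz
      nlinarith
  · field_simp
    ring

end Pool.Agent.P.MP_e40812_co
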