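import Pool.Agent.P.MP_e40812_co.LoState

/-!
Triangulated spheres with three adjacent pairs of vertices of degree four, for every value of
`x² + xy + y²` that is at least seven.
-/

namespace Pool.Agent.P.MP_e40812_co

open List (replicate)

section Aux

variable {L L' A B R : List (ℕ × ℕ)} {M M' : Multiset (ℕ × ℕ)} {E E' : Set ℕ}

lemma lb_cast (h : St L M E) (hL : L = L') (hM : M = M') : St L' M' E := hL ▸ hM ▸ h

lemma lb_rot (A B : List (ℕ × ℕ)) (h : St L M E) (hL : L = A ++ B) (hL' : B ++ A = L') :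
    St L' M E := hL' ▸ St.rot (hL ▸ h)

lemma lb_op (p : ℕ × ℕ) (mid : List (ℕ × ℕ)) (q : ℕ × ℕ) (R : List (ℕ × ℕ)) (t : ℕ)
    (h : St L M E) (hL : L = p :: (mid ++ q :: R)) :
    St (inc p :: (mid.length + 3, t) :: inc q :: R) (M + mid) E :=
  St.op t (hL ▸ h) fun _ hi => Or.inl hi

lemma lb_mark (p : ℕ × ℕ) (mid : List (ℕ × ℕ)) (q : ℕ × ℕ) (R : List (ℕ × ℕ))
    (h : St L M {1}) (hL : L = p :: (mid ++ q :: R)) (hm : ∃ l ∈ p :: mid, l.2 = 2) :
    St (inc p :: (mid.length + 3, 2) :: inc q :: R) (M + mid) {1, 2} :=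
  St.op 2 (hL ▸ h) fun _ hi => hi.imp id fun hi => ⟨hi, hm⟩

lemma lb_good (h : Good M E) (hM : M = M') (hE : E' ⊆ E) : Good M' E' := by
  obtain ⟨V, F, τ, h1, h2, h3, h4⟩ := h
  exact ⟨V, F, τ, h1, h2, hM ▸ h3, fun i hi => h4 i (hE hi)⟩

lemma lb_coe (a : ℕ × ℕ) (l : List (ℕ × ℕ)) :
    ((a :: l : List (ℕ × ℕ)) : Multiset (ℕ × ℕ)) = {a} + (l : Multiset (ℕ × ℕ)) := rfl

lemma lb_snoc (n : ℕ) (a : ℕ × ℕ) : replicate (n + 1) a = replicate n a ++ [a] :=
  List.replicate_succ'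

lemma lb_sweep (n : ℕ) : ∀ {x y : ℕ × ℕ} {R : List (ℕ × ℕ)} {M : Multiset (ℕ × ℕ)},
    St (x :: (6, 0) :: (replicate n (5, 0) ++ y :: R)) M E →
    St (inc x :: (replicate n (5, 0) ++ (4, 0) :: inc y :: R)) (M + (n + 1) • {(6, 0)}) E := by
  induction n with
  | zero =>
    intro x y R M h
    exact lb_cast (lb_op x [(6, 0)] y R 0 h rfl) rfl (by simp)
  | succ n ih =>
    intro x y R M h
    have h1 := lb_op x [(6, 0)] (5, 0) (replicate n (5, 0) ++ y :: R) 0 h rfl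
    have h2 := ih (lb_rot [inc x] _ h1 rfl
      (L' := (4, 0) :: (6, 0) :: (replicate n (5, 0) ++ y :: (R ++ [inc x]))) (by simp [inc]))
    refine lb_cast (lb_rot ((5, 0) :: (replicate n (5, 0) ++ (4, 0) :: inc y :: R)) [inc x] h2
      (by simp [inc]) rfl) rfl ?_
    simp only [lb_coe, Multiset.coe_nil]
    module

lemma lb_step {a b : ℕ}
    (h : St ((4, 0) :: (replicate a (5, 0) ++ (4, 0) :: replicate (b + 1) (5, 0))) M E) :
    St ((4, 0) :: (replicate b (5, 0) ++ (4, 0) :: replicate (a + 2) (5, 0)))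
      (M + (b + 1) • {(6, 0)}) E := by
  have h1 := lb_rot ((4, 0) :: replicate a (5, 0)) ((4, 0) :: replicate (b + 1) (5, 0)) h rfl rfl
  have h2 := lb_op (4, 0) [] (5, 0) (replicate b (5, 0) ++ (4, 0) :: replicate a (5, 0)) 0 h1 rfl
  have h3 := lb_sweep b (lb_rot [(5, 0)] _ h2 rfl (L' := (3, 0) :: (6, 0) ::
    (replicate b (5, 0) ++ (4, 0) :: replicate (a + 1) (5, 0))) (by simp [inc, lb_snoc]))
  exact lb_cast h3 rfl (by simp)

lemma lb_swap {a b : ℕ} {u w : ℕ × ℕ}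
    (h : St (u :: (replicate a (5, 0) ++ w :: replicate b (5, 0))) M E) :
    St (w :: (replicate b (5, 0) ++ u :: replicate a (5, 0))) M E :=
  lb_rot (u :: replicate a (5, 0)) (w :: replicate b (5, 0)) h rfl rfl

lemma lb_four : St [(3, 0), (4, 1), (3, 0), (4, 1)] 0 {1} :=
  lb_cast (lb_rot [(4, 1), (3, 0), (4, 1)] [(3, 0)]
    (lb_op (3, 1) [] (3, 1) [(3, 0)] 0 St.init rfl) rfl rfl) rfl (by simp)

lemma lb_grow (k : ℕ) : ∀ a b : ℕ, a + b = k + 2 → a % 3 = b % 3 →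
    ∃ n, 6 * (n + 2) = a ^ 2 + 4 * a * b + b ^ 2 + 3 * a + 3 * b ∧
      St ((4, 0) :: (replicate a (5, 0) ++ (4, 0) :: replicate b (5, 0)))
        (2 • {(4, 1)} + n • {(6, 0)}) {1} := by
  induction k with
  | zero =>
    intro a b h1 h2
    obtain ⟨rfl, rfl⟩ : a = 1 ∧ b = 1 := by omega
    have h3 := lb_rot [(4, 0), (4, 0)] [(4, 0), (4, 1)]
      (lb_op (3, 0) [(4, 1)] (3, 0) [(4, 1)] 0 lb_four rfl) rfl rfl
    have h4 := lb_rot [(5, 0)] [(4, 0), (5, 0), (4, 0)]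
      (lb_op (4, 0) [(4, 1)] (4, 0) [(4, 0)] 0 h3 rfl) rfl rfl
    refine ⟨0, by norm_num, lb_cast h4 rfl ?_⟩
    simp only [lb_coe, Multiset.coe_nil]
    module
  | succ k ih =>
    have key : ∀ a b : ℕ, a + (b + 2) = k + 1 + 2 → a % 3 = (b + 2) % 3 →
        ∃ n, 6 * (n + 2) = a ^ 2 + 4 * a * (b + 2) + (b + 2) ^ 2 + 3 * a + 3 * (b + 2) ∧
          St ((4, 0) :: (replicate a (5, 0) ++ (4, 0) :: replicate (b + 2) (5, 0)))
            (2 • {(4, 1)} + n • {(6, 0)}) {1} := fun a b h1 h2 => by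
      obtain ⟨n, hn, h⟩ := ih b (a + 1) (by omega) (by omega)
      exact ⟨n + (a + 1), by nlinarith, lb_cast (lb_step h) rfl (by module)⟩
    intro a b h1 h2
    by_cases hb : 2 ≤ b
    · obtain ⟨b, rfl⟩ : ∃ c, b = c + 2 := ⟨b - 2, by omega⟩
      exact key a b h1 h2
    · obtain ⟨a, rfl⟩ : ∃ c, a = c + 2 := ⟨a - 2, by omega⟩
      obtain ⟨n, hn, h⟩ := key b a (by omega) (by omega)
      exact ⟨n, by nlinarith, lb_swap h⟩

lemma lb_sweepC (n : ℕ) : ∀ {x z w y : ℕ × ℕ} {R : List (ℕ × ℕ)} {M : Multiset (ℕ × ℕ)},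
    St (x :: z :: (replicate n (5, 0) ++ w :: y :: R)) M E →
    St (inc x :: (replicate (n + 1) (5, 0) ++ inc y :: R)) (M + {z} + {w} + n • {(6, 0)}) E := by
  induction n with
  | zero =>
    intro x z w y R M h
    refine lb_cast (lb_op x [z, w] y R 0 h rfl) rfl ?_
    simp only [lb_coe, Multiset.coe_nil]
    module
  | succ n ih =>
    intro x z w y R M h
    have h1 := lb_op x [z] (5, 0) (replicate n (5, 0) ++ w :: y :: R) 0 h rfl
    have h2 := ih (lb_rot [inc x] _ h1 rfl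
      (L' := (4, 0) :: (6, 0) :: (replicate n (5, 0) ++ w :: y :: (R ++ [inc x]))) (by simp [inc]))
    refine lb_cast (lb_rot ((5, 0) :: (replicate (n + 1) (5, 0) ++ inc y :: R)) [inc x] h2
      (by simp [inc]) rfl) rfl ?_
    simp only [lb_coe, Multiset.coe_nil]
    module

lemma lb_close (k : ℕ) : ∀ (a b : ℕ) {u w : ℕ × ℕ} {M : Multiset (ℕ × ℕ)}, a + b = k + 2 →
    a % 3 = b % 3 → St (u :: (replicate a (5, 0) ++ w :: replicate b (5, 0))) M E →
    ∃ n, 6 * (n + 2) = a ^ 2 + 4 * a * b + b ^ 2 + 3 * a + 3 * b ∧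
      Good (M + {u} + {w} + 2 • {(4, 3)} + (a + b + n) • {(6, 0)}) (insert 3 E) := by
  induction k with
  | zero =>
    intro a b u w M h1 h2 h
    obtain ⟨rfl, rfl⟩ : a = 1 ∧ b = 1 := by omega
    have h3 := lb_rot [u, (5, 0), w] [(5, 0)] h rfl rfl
    have h4 := lb_rot [(6, 0)] [(4, 3), (6, 0), w] (lb_op (5, 0) [u] (5, 0) [w] 3 h3 rfl) rfl rfl
    refine ⟨0, by norm_num, lb_good (St.fin (p := (4, 3)) (L := [(6, 0), w, (6, 0)]) h4) ?_ le_rfl⟩
    simp only [lb_coe, Multiset.coe_nil, ← Multiset.singleton_add, List.length_cons,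
      List.length_nil]
    module
  | succ k ih =>
    have key : ∀ (a b : ℕ) {u w : ℕ × ℕ} {M : Multiset (ℕ × ℕ)}, a + (b + 2) = k + 1 + 2 →
        a % 3 = (b + 2) % 3 → St (u :: (replicate a (5, 0) ++ w :: replicate (b + 2) (5, 0))) M E →
        ∃ n, 6 * (n + 2) = a ^ 2 + 4 * a * (b + 2) + (b + 2) ^ 2 + 3 * a + 3 * (b + 2) ∧
          Good (M + {u} + {w} + 2 • {(4, 3)} + (a + (b + 2) + n) • {(6, 0)}) (insert 3 E) := by
      intro a b u w M h1 h2 h
      have h3 := lb_rot (u :: (replicate a (5, 0) ++ w :: replicate (b + 1) (5, 0))) [(5, 0)] h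
        (by simp [lb_snoc (b + 1)]) rfl
      obtain ⟨n, hn, h4⟩ := ih (a + 1) b (u := (6, 0)) (w := (6, 0)) (by omega) (by omega)
        (lb_sweepC a (y := (5, 0)) (R := replicate b (5, 0)) h3)
      exact ⟨n + (a + 1), by nlinarith, lb_good h4 (by module) le_rfl⟩
    intro a b u w M h1 h2 h
    by_cases hb : 2 ≤ b
    · obtain ⟨b, rfl⟩ : ∃ c, b = c + 2 := ⟨b - 2, by omega⟩
      exact key a b h1 h2 h
    · obtain ⟨a, rfl⟩ : ∃ c, a = c + 2 := ⟨a - 2, by omega⟩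
      obtain ⟨n, hn, h4⟩ := key b a (by omega) (by omega) (lb_swap h)
      exact ⟨n, by nlinarith, lb_good h4 (by module) le_rfl⟩

lemma lb_zip (hE : 0 ∉ E) (a : ℕ) : ∀ (b : ℕ) {x y z : ℕ × ℕ} {M : Multiset (ℕ × ℕ)},
    a % 3 = b % 3 → St (x :: y :: z :: (replicate a (5, 0) ++ (4, 0) :: replicate b (5, 0))) M E →
    ∃ n, 6 * n + 2 * a * b = 9 * (a + b) + a ^ 2 + b ^ 2 ∧
      Good (M + {x} + {y} + {z} + 2 • {(4, 3)} + n • {(6, 0)}) (insert 3 E) := by
  induction a with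
  | zero =>
    intro b x y z M h2 h
    rcases b with _ | b
    · have h3 := St.retag (p := (4, 0)) (L := [x, y, z]) 3 (lb_rot [x, y, z] [(4, 0)] h rfl rfl) hE
      refine ⟨0, by norm_num, lb_good (St.fin h3) ?_ le_rfl⟩
      simp only [lb_coe, Multiset.coe_nil, ← Multiset.singleton_add, List.length_cons,
        List.length_nil]
      module
    · have h3 := lb_rot (x :: y :: z :: (4, 0) :: replicate b (5, 0)) [(5, 0)] h
        (by simp [lb_snoc]) rfl
      obtain ⟨n, hn, h4⟩ := lb_close (b - 1) 0 (b + 1) (u := (6, 0)) (w := (6, 0)) (by omega) h2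
        (lb_op (5, 0) [x, y, z] (4, 0) (replicate b (5, 0)) 0 h3 rfl)
      refine ⟨n + 2 + (b + 1), by nlinarith, lb_good h4 ?_ le_rfl⟩
      simp only [lb_coe, Multiset.coe_nil]
      module
  | succ a ih =>
    intro b x y z M h2 h
    rcases b with _ | b
    · have h3 := lb_rot (x :: y :: z :: replicate (a + 1) (5, 0)) [(4, 0)] h (by simp) rfl
      have h4 := lb_rot [(5, 0)] ((6, 0) :: (6, 0) :: replicate a (5, 0))
        (lb_op (4, 0) [x, y, z] (5, 0) (replicate a (5, 0)) 0 h3 rfl) rfl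
        (L' := (6, 0) :: (replicate 0 (5, 0) ++ (6, 0) :: replicate (a + 1) (5, 0)))
        (by simp [lb_snoc])
      obtain ⟨n, hn, h5⟩ := lb_close (a - 1) 0 (a + 1) (by omega) h2.symm h4
      refine ⟨n + 2 + (a + 1), by nlinarith, lb_good h5 ?_ le_rfl⟩
      simp only [lb_coe, Multiset.coe_nil]
      module
    · have h3 := lb_rot (x :: y :: z :: (replicate (a + 1) (5, 0) ++ (4, 0) :: replicate b (5, 0)))
        [(5, 0)] h (by simp [lb_snoc b]) rfl
      obtain ⟨n, hn, h4⟩ := ih b (x := (6, 0)) (y := (6, 0)) (z := (6, 0)) (by omega)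
        (lb_op (5, 0) [x, y, z] (5, 0) (replicate a (5, 0) ++ (4, 0) :: replicate b (5, 0)) 0 h3 rfl)
      refine ⟨n + 3, by nlinarith, lb_good h4 ?_ le_rfl⟩
      simp only [lb_coe, Multiset.coe_nil]
      module

lemma lb_sub : ({1, 2, 3} : Set ℕ) ⊆ insert 3 {1, 2} := by
  intro i hi
  simp only [Set.mem_insert_iff, Set.mem_singleton_iff] at hi ⊢
  omega

lemma lb_main {m x y : ℕ} (hxy : y ≤ x) (h : m + 7 = x ^ 2 + x * y + y ^ 2) :
    Good (2 • {(4, 1)} + 2 • {(4, 2)} + 2 • {(4, 3)} + m • {(6, 0)}) {1, 2, 3} := by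
  have hE : 0 ∉ ({1, 2} : Set ℕ) := by simp
  have hE' : 0 ∉ ({1} : Set ℕ) := by simp
  rcases y with _ | y
  · obtain ⟨a, rfl⟩ : ∃ a, x = a + 3 := ⟨x - 3, by
      have : 3 ≤ x := by nlinarith
      omega⟩
    obtain ⟨n, hn, h1⟩ := lb_grow (2 * a) (a + 1) (a + 1) (by omega) rfl
    have h2 := lb_rot ((4, 2) :: (replicate (a + 1) (5, 0) ++ (4, 0) :: replicate a (5, 0))) [(5, 0)]
      (St.retag 2 h1 hE') (by simp [lb_snoc a]) rfl
    obtain ⟨n', hn', h3⟩ := lb_zip hE a a (x := (6, 0)) (y := (4, 2)) (z := (6, 0)) rfl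
      (lb_mark (5, 0) [(4, 2)] (5, 0) (replicate a (5, 0) ++ (4, 0) :: replicate a (5, 0)) h2 rfl
        ⟨(4, 2), by simp, rfl⟩)
    obtain rfl : m = n + 2 + n' := by nlinarith
    refine lb_good h3 ?_ lb_sub
    simp only [lb_coe, Multiset.coe_nil]
    module
  by_cases h21 : x + 2 * y < 3
  · obtain ⟨rfl, rfl⟩ : x = 2 ∧ y = 0 := by
      obtain rfl : y = 0 := by omega
      have : 2 ≤ x := by nlinarith
      omega
    obtain rfl : m = 0 := by omega
    have h1 := lb_rot [(4, 2), (4, 2)] [(4, 0), (4, 1)] (lb_mark (3, 2) [(4, 1)] (3, 0) [(4, 1)]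
      (St.retag 2 lb_four hE') rfl ⟨(3, 2), by simp, rfl⟩) rfl rfl
    refine lb_good (St.fin (St.retag (p := (4, 0)) (L := [(4, 1), (4, 2), (4, 2)]) 3 h1 hE)) ?_
      lb_sub
    simp only [lb_coe, Multiset.coe_nil, ← Multiset.singleton_add, List.length_cons,
      List.length_nil]
    module
  obtain ⟨b, rfl⟩ : ∃ b, x = y + 1 + b := ⟨x - (y + 1), by omega⟩
  obtain ⟨a, ha⟩ : ∃ a, a + 2 = 3 * y + b := ⟨3 * y + b - 2, by omega⟩
  obtain ⟨n, hn, h1⟩ := lb_grow (a + b - 1) a (b + 1) (by omega) (by omega)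
  have h2 := lb_rot [(5, 0)] _
    (lb_op (4, 0) [] (5, 0) (replicate b (5, 0) ++ (4, 0) :: replicate a (5, 0)) 2 (lb_swap h1) rfl)
    rfl (L' := (3, 2) :: (6, 0) :: (replicate b (5, 0) ++ (4, 0) :: replicate (a + 1) (5, 0)))
    (by simp [inc, lb_snoc])
  have ha' : (a : ℤ) = 3 * y + b - 2 := by omega
  rcases b with _ | b
  · obtain ⟨n', hn', h3⟩ := lb_close a 0 (a + 2) (u := (4, 2)) (w := (4, 2)) (by omega) (by omega)
      (lb_mark (3, 2) [(6, 0)] (4, 0) (replicate (a + 1) (5, 0)) h2 rfl ⟨(3, 2), by simp, rfl⟩)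
    obtain rfl : m = n + 1 + (0 + (a + 2) + n') := by
      zify at h hn hn' ⊢
      rw [ha'] at hn hn' ⊢
      push_cast at hn hn' ⊢
      nlinarith
    refine lb_good h3 ?_ lb_sub
    simp only [lb_coe, Multiset.coe_nil]
    module
  · obtain ⟨n', hn', h3⟩ := lb_zip hE b (a + 1) (x := (4, 2)) (y := (4, 2)) (z := (6, 0)) (by omega)
      (lb_mark (3, 2) [(6, 0)] (5, 0) (replicate b (5, 0) ++ (4, 0) :: replicate (a + 1) (5, 0)) h2
        rfl ⟨(3, 2), by simp, rfl⟩)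
    obtain rfl : m = n + 2 + n' := by
      zify at h hn hn' ⊢
      rw [ha'] at hn hn'
      push_cast at hn hn' ⊢
      nlinarith
    refine lb_good h3 ?_ lb_sub
    simp only [lb_coe, Multiset.coe_nil]
    module

end Aux

theorem good_of_norm {m x y : ℕ} (h : m + 7 = x ^ 2 + x * y + y ^ 2) :
    Good ({(4, 1), (4, 1), (4, 2), (4, 2), (4, 3), (4, 3)} + Multiset.replicate m (6, 0))
      {1, 2, 3} := by
  have key : Good (2 • {(4, 1)} + 2 • {(4, 2)} + 2 • {(4, 3)} + m • {(6, 0)}) {1, 2, 3} := by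
    rcases le_total y x with hxy | hxy
    · exact lb_main hxy h
    · exact lb_main hxy (by linarith)
  refine lb_good key ?_ le_rfl
  simp only [Multiset.insert_eq_cons, ← Multiset.singleton_add, ← Multiset.nsmul_singleton]
  module

end Pool.Agent.P.MP_e40812_co
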