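import Pool.Agent.P.MP_e40812_co.LoDefs

/-!
Explicit sets are eventually periodic along lines; the values of `x² + xy + y²` are not.
-/

namespace Pool.Agent.P.MP_e40812_co

open Filter

theorem le_of_const {P : ℕ → Prop} (h : (∀ᶠ m in atTop, P m) ∨ (∀ᶠ m in atTop, ¬ P m)) :
    ∃ q N : ℕ, 0 < q ∧ ∀ m, N ≤ m → (P (m + q) ↔ P m) := by
  rcases h with h | h
  · obtain ⟨N, hN⟩ := eventually_atTop.1 h
    exact ⟨1, N, one_pos, fun m hm => iff_of_true (hN _ (by omega)) (hN _ hm)⟩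
  · obtain ⟨N, hN⟩ := eventually_atTop.1 h
    exact ⟨1, N, one_pos, fun m hm => iff_of_false (hN _ (by omega)) (hN _ hm)⟩

theorem le_iter {P : ℕ → Prop} {q N : ℕ} (h : ∀ m, N ≤ m → (P (m + q) ↔ P m)) (k : ℕ) :
    ∀ m, N ≤ m → (P (m + k * q) ↔ P m) := by
  induction k with
  | zero => intro m _; simp
  | succ k ih =>
    intro m hm
    have e : m + (k + 1) * q = (m + k * q) + q := by ring
    rw [e, h _ (by omega), ih m hm]

theorem le_sign (g : Polynomial ℝ) :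
    (∀ᶠ m : ℕ in atTop, 0 < g.eval (m : ℝ)) ∨ (∀ᶠ m : ℕ in atTop, ¬ 0 < g.eval (m : ℝ)) := by
  by_cases hd : 0 < g.degree
  · rcases le_total 0 g.leadingCoeff with hl | hl
    · left
      exact ((g.tendsto_atTop_of_leadingCoeff_nonneg hd hl).comp
        tendsto_natCast_atTop_atTop).eventually_gt_atTop 0
    · right
      have := ((g.tendsto_atBot_of_leadingCoeff_nonpos hd hl).comp
        tendsto_natCast_atTop_atTop).eventually_lt_atBot 0
      exact this.mono fun m hm => not_lt.2 (le_of_lt hm)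
  · have hc := Polynomial.eq_C_of_degree_le_zero (not_lt.1 hd)
    rw [hc]
    simp only [Polynomial.eval_C]
    by_cases h0 : 0 < g.coeff 0
    · left; exact Eventually.of_forall fun _ => h0
    · right; exact Eventually.of_forall fun _ => h0

theorem le_poly (f : MvPolynomial (Fin 22) ℝ) (a b : Fin 22 → ℕ) :
    ∃ g : Polynomial ℝ, ∀ m : ℕ,
      MvPolynomial.eval (fun i => ((a + m • b) i : ℝ)) f = g.eval (m : ℝ) := by
  induction f using MvPolynomial.induction_on with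
  | C c => exact ⟨Polynomial.C c, fun m => by simp⟩
  | add p q hp hq =>
    obtain ⟨g, hg⟩ := hp
    obtain ⟨h, hh⟩ := hq
    exact ⟨g + h, fun m => by rw [map_add, hg, hh, Polynomial.eval_add]⟩
  | mul_X p i hp =>
    obtain ⟨g, hg⟩ := hp
    refine ⟨g * (Polynomial.C (a i : ℝ) + Polynomial.X * Polynomial.C (b i : ℝ)), fun m => ?_⟩
    rw [map_mul, hg, Polynomial.eval_mul, MvPolynomial.eval_X]
    simp

theorem le_cong (f : MvPolynomial (Fin 22) ℤ) (q : ℤ) (u v : Fin 22 → ℤ)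
    (h : ∀ i, u i ≡ v i [ZMOD q]) :
    MvPolynomial.eval u f ≡ MvPolynomial.eval v f [ZMOD q] := by
  induction f using MvPolynomial.induction_on with
  | C c => simp only [MvPolynomial.eval_C]; rfl
  | add p r hp hr => rw [map_add, map_add]; exact hp.add hr
  | mul_X p i hp =>
    rw [map_mul, map_mul, MvPolynomial.eval_X, MvPolynomial.eval_X]
    exact hp.mul (h i)

theorem le_convex {C : Set (Fin 22 → ℝ)} (hC : Convex ℝ C) (a b : Fin 22 → ℕ) :
    (∀ᶠ m : ℕ in atTop, (fun i => ((a + m • b) i : ℝ)) ∈ C) ∨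
      (∀ᶠ m : ℕ in atTop, ¬ (fun i => ((a + m • b) i : ℝ)) ∈ C) := by
  set L : ℝ →ᵃ[ℝ] (Fin 22 → ℝ) :=
    AffineMap.lineMap (fun i => (a i : ℝ)) (fun i => (a i : ℝ) + b i) with hL
  have hm : ∀ m : ℕ, (fun i => ((a + m • b) i : ℝ)) = L (m : ℝ) := by
    intro m
    funext i
    simp [hL, AffineMap.lineMap_apply, add_comm]
  have hT : (L ⁻¹' C).OrdConnected := (hC.affine_preimage L).ordConnected
  simp only [hm]
  by_cases h : ∀ᶠ m : ℕ in atTop, ¬ L (m : ℝ) ∈ C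
  · exact Or.inr h
  · left
    rw [not_eventually] at h
    simp only [not_not] at h
    obtain ⟨m0, h0⟩ := h.exists
    refine eventually_atTop.2 ⟨m0, fun m hm0 => ?_⟩
    obtain ⟨m1, h1, h2⟩ := frequently_atTop.1 h m
    exact hT.out h0 h2 ⟨by exact_mod_cast hm0, by exact_mod_cast h1⟩

theorem le_semi {S : Set (Fin 22 → ℕ)} (hS : IsSemilinearSet S) (a b : Fin 22 → ℕ) :
    IsSemilinearSet {m : ℕ | a + m • b ∈ S} := by
  let φ : (Fin 2 → ℕ) →+ (Fin 22 → ℕ) :=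
    { toFun := fun x => x 0 • a + x 1 • b
      map_zero' := by simp
      map_add' := fun x y => by
        simp only [Pi.add_apply, add_smul]
        abel }
  have h1 : IsSemilinearSet (φ ⁻¹' S) := hS.preimage φ
  have h2 : IsSemilinearSet {x : Fin 2 → ℕ | 0 + Pi.evalAddMonoidHom (fun _ => ℕ) 0 x =
      1 + (0 : (Fin 2 → ℕ) →+ ℕ) x} := isSemilinearSet_setOfPred_eq 0 1 _ _
  have h3 := (h1.inter h2).image (Pi.evalAddMonoidHom (fun _ : Fin 2 => ℕ) 1)
  have e : {m : ℕ | a + m • b ∈ S} = (Pi.evalAddMonoidHom (fun _ : Fin 2 => ℕ) 1) ''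
      (φ ⁻¹' S ∩ {x : Fin 2 → ℕ | 0 + Pi.evalAddMonoidHom (fun _ => ℕ) 0 x =
      1 + (0 : (Fin 2 → ℕ) →+ ℕ) x}) := by
    ext m
    constructor
    · intro hm
      refine ⟨![1, m], ⟨?_, ?_⟩, ?_⟩
      · show (1 : ℕ) • a + m • b ∈ S
        rw [one_smul]; exact hm
      · simp
      · simp
    · rintro ⟨x, ⟨hx1, hx2⟩, rfl⟩
      have h0 : x 0 = 1 := by simpa using hx2
      have h4 : x 0 • a + x 1 • b ∈ S := hx1
      rw [h0, one_smul] at h4
      exact h4
  rw [e]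
  exact h3

theorem Explicit.periodic {S : Set (Fin 22 → ℕ)} (h : Explicit S) (a b : Fin 22 → ℕ) :
    ∃ q N : ℕ, 0 < q ∧ ∀ m, N ≤ m → (a + (m + q) • b ∈ S ↔ a + m • b ∈ S) := by
  induction h with
  | poly f =>
    obtain ⟨g, hg⟩ := le_poly f a b
    refine le_of_const (P := fun m => a + m • b ∈
      {p : Fin 22 → ℕ | 0 < MvPolynomial.eval (fun i => (p i : ℝ)) f}) ?_
    simp only [Set.mem_ofPred_eq, hg]
    exact le_sign g
  | cong f q hq =>
    refine ⟨q, 0, hq, fun m _ => ?_⟩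
    have h := le_cong f q (fun i => ((a + (m + q) • b) i : ℤ)) (fun i => ((a + m • b) i : ℤ))
      (fun i => by
        refine (Int.modEq_iff_dvd.2 ⟨b i, ?_⟩).symm
        simp only [Pi.add_apply, Pi.smul_apply, smul_eq_mul]
        push_cast
        ring)
    simp only [Set.mem_ofPred_eq]
    exact ⟨fun h1 => Int.modEq_zero_iff_dvd.1 (h.symm.trans (Int.modEq_zero_iff_dvd.2 h1)),
      fun h1 => Int.modEq_zero_iff_dvd.1 (h.trans (Int.modEq_zero_iff_dvd.2 h1))⟩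
  | convex C hC =>
    exact le_of_const (P := fun m => a + m • b ∈
      {p : Fin 22 → ℕ | (fun i => (p i : ℝ)) ∈ C}) (le_convex hC a b)
  | semilinear S hS =>
    obtain ⟨k, p, hp, h⟩ := Nat.isSemilinearSet_iff_ultimately_periodic.1 (le_semi hS a b)
    exact ⟨p, k, hp, fun m hm => (h m hm).symm⟩
  | compl _ ih =>
    obtain ⟨q, N, hq, h⟩ := ih
    exact ⟨q, N, hq, fun m hm => not_congr (h m hm)⟩
  | @inter S S' _ _ ih ih' =>
    obtain ⟨q, N, hq, h⟩ := ih
    obtain ⟨q', N', hq', h'⟩ := ih'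
    refine ⟨q' * q, max N N', Nat.mul_pos hq' hq, fun m hm => and_congr ?_ ?_⟩
    · exact le_iter (P := fun m => a + m • b ∈ S) h q' m (le_trans (le_max_left _ _) hm)
    · rw [mul_comm q' q]
      exact le_iter (P := fun m => a + m • b ∈ S') h' q m (le_trans (le_max_right _ _) hm)

theorem le_not_norm (j : ℕ) : ∀ q : ℕ, 0 < q → ∀ x y : ℕ,
    q ^ 2 * (3 * j + 2) ≠ x ^ 2 + x * y + y ^ 2 := by
  intro q
  induction q using Nat.strong_induction_on with
  | _ q ih =>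
    intro hq x y h
    obtain ⟨c, t, ht, rfl⟩ : ∃ c t, t < 3 ∧ q = 3 * c + t :=
      ⟨q / 3, q % 3, Nat.mod_lt _ (by norm_num), by omega⟩
    obtain ⟨a, r, hr, rfl⟩ : ∃ a r, r < 3 ∧ x = 3 * a + r :=
      ⟨x / 3, x % 3, Nat.mod_lt _ (by norm_num), by omega⟩
    obtain ⟨b, s, hs, rfl⟩ : ∃ b s, s < 3 ∧ y = 3 * b + s :=
      ⟨y / 3, y % 3, Nat.mod_lt _ (by norm_num), by omega⟩
    have e1 : (3 * c + t) ^ 2 * (3 * j + 2) =
        9 * (c ^ 2 * (3 * j + 2)) + 3 * (2 * t * (c * (3 * j + 2))) + t * t * (3 * j + 2) := by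
      ring
    have e2 : (3 * a + r) ^ 2 + (3 * a + r) * (3 * b + s) + (3 * b + s) ^ 2 =
        9 * (a ^ 2 + a * b + b ^ 2) + (6 * r + 3 * s) * a + (3 * r + 6 * s) * b
          + (r * r + r * s + s * s) := by ring
    rw [e1, e2] at h
    have key : t = 0 → r = 0 → s = 0 → False := by
      rintro rfl rfl rfl
      refine ih c (by omega) (by omega) a b ?_
      omega
    generalize c ^ 2 * (3 * j + 2) = u at h
    generalize c * (3 * j + 2) = v at h
    generalize a ^ 2 + a * b + b ^ 2 = w at h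
    interval_cases t <;> interval_cases r <;> interval_cases s <;>
      first | exact key rfl rfl rfl | omega

theorem norm_not_periodic : ¬ ∃ q N : ℕ, 0 < q ∧ ∀ m, N ≤ m →
    ((∃ x y : ℕ, m + q + 7 = x ^ 2 + x * y + y ^ 2) ↔ ∃ x y : ℕ, m + 7 = x ^ 2 + x * y + y ^ 2) := by
  rintro ⟨q, N, hq, h⟩
  have hK : N + 7 ≤ ((N + 7) * q) ^ 2 := by
    have h1 : N + 7 ≤ (N + 7) * q := Nat.le_mul_of_pos_right _ hq
    nlinarith
  obtain ⟨m, hm⟩ : ∃ m, ((N + 7) * q) ^ 2 = m + 7 := ⟨((N + 7) * q) ^ 2 - 7, by omega⟩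
  have h2 := (le_iter (P := fun m => ∃ x y : ℕ, m + 7 = x ^ 2 + x * y + y ^ 2) h
    (q * (2 * (N + 7) ^ 2 + 2)) m (by omega)).2 ⟨(N + 7) * q, 0, by rw [← hm]; ring⟩
  obtain ⟨x, y, hxy⟩ := h2
  refine le_not_norm ((N + 7) ^ 2) q hq x y ?_
  rw [← hxy]
  have e : q ^ 2 * (3 * (N + 7) ^ 2 + 2) =
      ((N + 7) * q) ^ 2 + q * (2 * (N + 7) ^ 2 + 2) * q := by ring
  rw [e, hm]
  ring

end Pool.Agent.P.MP_e40812_co
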