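import Mathlib

/-!
Finite flag systems of type `{3,6}` with many flags fixed by a rotation of order three.
-/

namespace Pool.Agent.P.MP_e40812_co

/-- The translations of the triangle group. -/
theorem lg_group {G : Type*} [Group G] (α σ ρ : G) (hα : α * α = 1) (hσ : σ ^ 6 = 1)
    (h3 : (α * σ⁻¹) ^ 3 = 1) (hρ : ρ * ρ = 1) (hρα : ρ * α = α * ρ) (hρσ : ρ * σ = σ⁻¹ * ρ) :
    ∃ N : ℤ × ℤ → G, (∀ z w, N (z + w) = N z * N w) ∧ α = N (1, 0) * σ ^ 3 ∧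
      (∀ z, σ * N z = N (z.1 - z.2, z.1) * σ) ∧ ∀ z, ρ * N z = N (z.1 - z.2, -z.2) * ρ := by
  obtain ⟨A, hA⟩ : ∃ A, A = α * σ ^ 3 := ⟨_, rfl⟩
  obtain ⟨B, hB⟩ : ∃ B, B = σ ^ 2 * A * (σ ^ 2)⁻¹ := ⟨_, rfl⟩
  have e3 : σ * B * σ⁻¹ = A⁻¹ := by
    refine eq_inv_of_mul_eq_one_right ?_
    calc A * (σ * B * σ⁻¹) = α * σ ^ 6 * α := by rw [hB, hA]; group
      _ = 1 := by rw [hσ, mul_one, hα]
  have e4 : A * B * (σ * (σ * B * σ⁻¹) * σ⁻¹) = 1 := by
    calc A * B * (σ * (σ * B * σ⁻¹) * σ⁻¹)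
        = α * σ ^ 6 * σ⁻¹ * (α * σ ^ 6 * σ⁻¹) * (α * σ⁻¹) := by rw [hB, hA]; group
      _ = 1 := by rw [hσ, mul_one, ← h3, pow_succ, sq]
  have e1 : σ * A * σ⁻¹ = A * B := by
    rw [e3] at e4
    calc σ * A * σ⁻¹ = A * B * (σ * A⁻¹ * σ⁻¹) * (σ * A * σ⁻¹) := by rw [e4, one_mul]
      _ = A * B := by group
  have hc : Commute A B := by
    have : B = A * B * A⁻¹ := by
      calc B = σ * (σ * A * σ⁻¹) * σ⁻¹ := by rw [hB, sq]; group
        _ = σ * (A * B) * σ⁻¹ := by rw [e1]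
        _ = (σ * A * σ⁻¹) * (σ * B * σ⁻¹) := by group
        _ = A * B * A⁻¹ := by rw [e1, e3]
    calc A * B = A * B * A⁻¹ * A := by group
      _ = B * A := by rw [← this]
  have r1 : ρ * σ * ρ⁻¹ = σ⁻¹ := by rw [hρσ, mul_inv_cancel_right]
  have rA : ρ * A * ρ⁻¹ = A := by
    calc ρ * A * ρ⁻¹ = (ρ * α * ρ⁻¹) * (ρ * σ * ρ⁻¹) ^ 3 := by rw [hA, conj_pow]; group
      _ = α * σ ^ 3 * (σ ^ 6)⁻¹ := by rw [r1, hρα]; group
      _ = A := by rw [hσ, hA]; group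
  have rB : ρ * B * ρ⁻¹ = (A * B)⁻¹ := by
    calc ρ * B * ρ⁻¹ = (ρ * σ * ρ⁻¹) ^ 2 * (ρ * A * ρ⁻¹) * ((ρ * σ * ρ⁻¹) ^ 2)⁻¹ := by
          rw [hB, conj_pow]; group
      _ = (σ ^ 6)⁻¹ * (σ * (σ * B * σ⁻¹) * σ⁻¹) * σ ^ 6 := by rw [r1, rA, hB]; group
      _ = (A * B)⁻¹ := by rw [hσ, eq_inv_of_mul_eq_one_right e4]; group
  refine ⟨fun z => A ^ z.1 * B ^ z.2, fun z w => ?_, ?_, fun z => ?_, fun z => ?_⟩
  · simp only [Prod.fst_add, Prod.snd_add, zpow_add]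
    exact (hc.zpow_zpow w.1 z.2).mul_mul_mul_comm _ _
  · calc α = α * σ ^ 6 := by rw [hσ, mul_one]
      _ = _ := by rw [hA]; group
  · calc σ * (A ^ z.1 * B ^ z.2) = (σ * A * σ⁻¹) ^ z.1 * (σ * B * σ⁻¹) ^ z.2 * σ := by
          rw [conj_zpow, conj_zpow]; group
      _ = A ^ z.1 * (B ^ z.1 * A ^ (-z.2)) * σ := by rw [e1, e3, hc.mul_zpow]; group
      _ = _ := by rw [← (hc.zpow_zpow _ _).eq]; group
  · calc ρ * (A ^ z.1 * B ^ z.2) = (ρ * A * ρ⁻¹) ^ z.1 * (ρ * B * ρ⁻¹) ^ z.2 * ρ := by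
          rw [conj_zpow, conj_zpow]; group
      _ = _ := by rw [rA, rB, inv_zpow', hc.mul_zpow]; group

/-- Sublattices invariant under the rotation of order three are principal. -/
theorem lg_lat (L : AddSubgroup (ℤ × ℤ)) (hω : ∀ z ∈ L, (-z.2, z.1 - z.2) ∈ L)
    (h0 : L.index ≠ 0) : ∃ a b : ℤ, (L.index : ℤ) = a ^ 2 - a * b + b ^ 2 ∧
      ∀ z, z ∈ L ↔ ∃ i j : ℤ, z = (a * i - b * j, b * i + (a - b) * j) := by
  classical
  have hpos : ∀ z : ℤ × ℤ, z ≠ 0 → 0 < z.1 ^ 2 - z.1 * z.2 + z.2 ^ 2 := by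
    intro z hz
    by_contra h
    apply hz
    have h1 : z.2 = 0 := by nlinarith [sq_nonneg (2 * z.1 - z.2), sq_nonneg z.2]
    have h2 : z.1 = 0 := by nlinarith [sq_nonneg (2 * z.2 - z.1), sq_nonneg z.1]
    exact Prod.ext h2 h1
  have hex : ∃ n : ℕ, ∃ z ∈ L, z ≠ 0 ∧ z.1 ^ 2 - z.1 * z.2 + z.2 ^ 2 = n := by
    refine ⟨L.index ^ 2, L.index • (1, 0), L.nsmul_index_mem _, ?_, by simp⟩
    simpa using h0
  obtain ⟨⟨a, b⟩, hl, hl0, hQ⟩ := Nat.find_spec hex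
  have hp := hpos _ hl0
  simp only at hQ hp
  have hin : ∀ i j : ℤ, (a * i - b * j, b * i + (a - b) * j) ∈ L := fun i j => by
    have := L.add_mem (L.zsmul_mem hl i) (L.zsmul_mem (hω _ hl) j)
    simp only [Prod.smul_mk, smul_eq_mul, Prod.mk_add_mk] at this
    rwa [show a * i - b * j = i * a + j * -b by ring,
      show b * i + (a - b) * j = i * b + j * (a - b) by ring]
  have hmem : ∀ z, z ∈ L ↔ ∃ i j : ℤ, z = (a * i - b * j, b * i + (a - b) * j) := by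
    refine fun z => ⟨fun hz => ?_, fun ⟨i, j, e⟩ => e ▸ hin i j⟩
    obtain ⟨u, v⟩ := z
    obtain ⟨Q, hQ'⟩ : ∃ Q, Q = a ^ 2 - a * b + b ^ 2 := ⟨_, rfl⟩
    have hr : ∀ p : ℤ, ∃ i : ℤ, (2 * (p - i * Q)) ^ 2 ≤ Q ^ 2 := fun p => by
      refine ⟨(2 * p + Q) / (2 * Q), sq_le_sq' ?_ ?_⟩
      · linarith [Int.emod_nonneg (2 * p + Q) (show 2 * Q ≠ 0 by omega),
          Int.mul_ediv_add_emod (2 * p + Q) (2 * Q)]
      · linarith [Int.emod_lt_of_pos (2 * p + Q) (show 0 < 2 * Q by omega),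
          Int.mul_ediv_add_emod (2 * p + Q) (2 * Q)]
    obtain ⟨i, hi⟩ := hr (u * (a - b) + v * b)
    obtain ⟨j, hj⟩ := hr (v * a - u * b)
    refine ⟨i, j, sub_eq_zero.1 (by_contra fun hne => ?_)⟩
    have h1 := hpos _ hne
    have h2 := Nat.find_min' hex ⟨_, L.sub_mem hz (hin i j), hne, (Int.toNat_of_nonneg h1.le).symm⟩
    simp only [Prod.mk_sub_mk] at h1 h2
    obtain ⟨R, hR⟩ : ∃ R, R = (u - (a * i - b * j)) ^ 2 -
      (u - (a * i - b * j)) * (v - (b * i + (a - b) * j)) + (v - (b * i + (a - b) * j)) ^ 2 :=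
      ⟨_, rfl⟩
    rw [← hR] at h1 h2
    have h3 : Q ≤ R := by omega
    have h4 : R * Q = (u * (a - b) + v * b - i * Q) ^ 2 -
        (u * (a - b) + v * b - i * Q) * (v * a - u * b - j * Q) + (v * a - u * b - j * Q) ^ 2 := by
      rw [hR, hQ']
      ring
    rw [← hQ'] at hp
    nlinarith [sq_nonneg (u * (a - b) + v * b - i * Q + (v * a - u * b - j * Q)),
      mul_le_mul_of_nonneg_right h3 hp.le, mul_pos hp hp]
  refine ⟨a, b, ?_, hmem⟩
  let f : ℤ × ℤ →ₗ[ℤ] ℤ × ℤ := (a • LinearMap.fst ℤ ℤ ℤ - b • LinearMap.snd ℤ ℤ ℤ).prod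
    (b • LinearMap.fst ℤ ℤ ℤ + (a - b) • LinearMap.snd ℤ ℤ ℤ)
  have hf : ∀ z, f z = (a * z.1 - b * z.2, b * z.1 + (a - b) * z.2) := fun z => rfl
  have hinj : Function.Injective f := by
    rw [← LinearMap.ker_eq_bot, LinearMap.ker_eq_bot']
    intro z hz
    rw [hf, Prod.mk_eq_zero] at hz
    refine Prod.ext (mul_left_cancel₀ hp.ne' ?_) (mul_left_cancel₀ hp.ne' ?_)
    · simp only [Prod.fst_zero]
      linear_combination (a - b) * hz.1 + b * hz.2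
    · simp only [Prod.snd_zero]
      linear_combination a * hz.2 - b * hz.1
  have h1 := Submodule.natAbs_det_equiv _ (LinearEquiv.ofInjective _ hinj)
  have h2 : LinearMap.det f = a ^ 2 - a * b + b ^ 2 := by
    rw [← LinearMap.det_toMatrix (Module.Basis.finTwoProd ℤ), Matrix.det_fin_two]
    simp [LinearMap.toMatrix_apply, hf]
    ring
  have h3 : L = (LinearMap.range f).toAddSubgroup := by
    ext z
    rw [hmem]
    exact ⟨fun ⟨i, j, e⟩ => ⟨(i, j), e.symm⟩, fun ⟨w, e⟩ => ⟨w.1, w.2, e.symm⟩⟩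
  have h4 : (LinearMap.det f).natAbs = L.index := h3 ▸ h1
  rw [← h4, h2, Int.natAbs_of_nonneg hp.le]

/-- Three involutions with the relations of the Coxeter group of the triangular tiling act
transitively on a finite set; the vertex rotation `s₂ s₃` has no fixed point and its square has at
least seven.  Then the number of flags is four times a value of `x² - xy + y²`. -/
theorem flags_card {D : Type*} [Fintype D] [DecidableEq D] (s₁ s₂ s₃ : Equiv.Perm D)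
    (h1 : s₁ * s₁ = 1) (h2 : s₂ * s₂ = 1) (h3 : s₃ * s₃ = 1)
    (h12 : (s₁ * s₂) ^ 3 = 1) (h13 : s₁ * s₃ = s₃ * s₁) (h23 : (s₂ * s₃) ^ 6 = 1)
    (conn : ∀ S : D → Prop, (∃ d, S d) → (∀ d, S d → S (s₁ d) ∧ S (s₂ d) ∧ S (s₃ d)) → ∀ d, S d)
    (nofix : ∀ d, (s₂ * s₃) d ≠ d)
    (many : 7 ≤ (Finset.univ.filter fun d => ((s₂ * s₃) ^ 2) d = d).card) :
    ∃ x y : ℤ, (Fintype.card D : ℤ) = 4 * (x ^ 2 - x * y + y ^ 2) := by
  classical
  have i2 : s₂⁻¹ = s₂ := inv_eq_of_mul_eq_one_right h2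
  have i3 : s₃⁻¹ = s₃ := inv_eq_of_mul_eq_one_right h3
  have hρσ : s₃ * (s₂ * s₃) = (s₂ * s₃)⁻¹ * s₃ := by rw [mul_inv_rev, i2, i3, mul_assoc]
  have hρα : s₃ * (s₁ * s₃) = s₁ * s₃ * s₃ := by rw [← mul_assoc, ← h13]
  obtain ⟨N, hN, hα, hσN, hρN⟩ := lg_group (s₁ * s₃) (s₂ * s₃) s₃
    (by rw [mul_assoc, hρα, mul_assoc s₁, h3, mul_one, h1]) h23
    (by rw [mul_inv_rev, i2, ← mul_assoc, mul_inv_cancel_right, h12]) h3 hρα hρσ
  have e2 : s₂ = s₂ * s₃ * s₃ := by rw [mul_assoc, h3, mul_one]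
  have e1 : s₁ = s₁ * s₃ * s₃ := by rw [mul_assoc, h3, mul_one]
  generalize s₂ * s₃ = σ at *
  generalize s₁ * s₃ = α at *
  have N0 : N 0 = 1 := by simpa using hN 0 0
  have aN : ∀ z w d, N z (N w d) = N (z + w) d := fun z w d => by rw [hN]; rfl
  have sN : ∀ z d, σ (N z d) = N (z.1 - z.2, z.1) (σ d) := fun z d => congrArg (· d) (hσN z)
  have rN : ∀ z d, s₃ (N z d) = N (z.1 - z.2, -z.2) (s₃ d) := fun z d => congrArg (· d) (hρN z)
  have rr : ∀ d, s₃ (s₃ d) = d := fun d => congrArg (· d) h3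
  have s6 : ∀ d, σ (σ (σ (σ (σ (σ d))))) = d := fun d => by
    simpa [pow_succ] using congrArg (· d) h23
  have rs : ∀ d, s₃ (σ d) = σ (σ (σ (σ (σ (s₃ d))))) := fun d => by
    have : s₃ (σ d) = σ⁻¹ (s₃ d) := congrArg (· d) hρσ
    rw [this, Equiv.Perm.inv_eq_iff_eq, s6]
  have hαd : ∀ d, α d = N (1, 0) (σ (σ (σ d))) := fun d => by
    simpa [pow_succ] using congrArg (· d) hα
  simp only [sq, Equiv.Perm.mul_apply] at many
  obtain ⟨f₀, hf₀⟩ := Finset.card_pos.1 (lt_of_lt_of_le (by norm_num) many)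
  have hf : σ (σ f₀) = f₀ := (Finset.mem_filter.1 hf₀).2
  let act : AddAction (ℤ × ℤ) D :=
    { vadd := fun z d => N z d
      zero_vadd := fun d => by change N 0 d = d; rw [N0]; rfl
      add_vadd := fun z w d => (aN z w d).symm }
  have hidx : (AddAction.stabilizer (ℤ × ℤ) f₀).index = {d | ∃ z, N z f₀ = d}.ncard :=
    AddAction.index_stabilizer (ℤ × ℤ) f₀
  have ssN : ∀ z : ℤ × ℤ, σ (σ (N z f₀)) = N (-z.2, z.1 - z.2) f₀ := fun z => by
    rw [sN, sN, hf]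
    simp
  obtain ⟨a, b, hab, hL⟩ := lg_lat (AddAction.stabilizer (ℤ × ℤ) f₀)
    (fun z (hz : N z f₀ = f₀) => show N _ f₀ = f₀ by rw [← ssN, hz, hf])
    (by
      rw [hidx]
      exact Set.ncard_ne_zero_of_mem (a := N 0 f₀) ⟨0, rfl⟩)
  replace hL : ∀ z, N z f₀ = f₀ ↔ ∃ i j : ℤ, z = (a * i - b * j, b * i + (a - b) * j) := hL
  rw [hidx] at hab
  obtain ⟨O, hO⟩ : ∃ O : Set D, O = {d | ∃ z, N z f₀ = d} := ⟨_, rfl⟩
  have mO : ∀ d, d ∈ O ∪ σ '' O ↔ ∃ z, N z f₀ = d ∨ N z (σ f₀) = d := by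
    intro d
    rw [hO]
    constructor
    · rintro (⟨z, h⟩ | ⟨_, ⟨z, rfl⟩, h⟩)
      · exact ⟨z, Or.inl h⟩
      · exact ⟨_, Or.inr ((sN z f₀).symm.trans h)⟩
    · rintro ⟨z, h | h⟩
      · exact Or.inl ⟨z, h⟩
      · exact Or.inr ⟨_, ⟨(z.2, z.2 - z.1), rfl⟩, by rw [sN, ← h]; simp⟩
  obtain ⟨P, hP⟩ : ∃ P : Set D, P = O ∪ σ '' O := ⟨_, rfl⟩
  rw [← hP] at mO
  have Pσ : ∀ {d}, d ∈ P → σ d ∈ P := by
    intro d hd
    obtain ⟨z, rfl | rfl⟩ := (mO d).1 hd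
    · exact (mO _).2 ⟨_, Or.inr (sN z f₀).symm⟩
    · exact (mO _).2 ⟨_, Or.inl (by rw [sN, hf])⟩
  have PN : ∀ w {d}, d ∈ P → N w d ∈ P := by
    intro w d hd
    obtain ⟨z, rfl | rfl⟩ := (mO d).1 hd
    · exact (mO _).2 ⟨_, Or.inl (aN w z _).symm⟩
    · exact (mO _).2 ⟨_, Or.inr (aN w z _).symm⟩
  have Pα : ∀ {d}, d ∈ P → α d ∈ P := fun hd => by
    rw [hαd]
    exact PN _ (Pσ (Pσ (Pσ hd)))
  have hall : ∀ d, d ∈ P ∨ s₃ d ∈ P := by
    refine conn _ ⟨N 0 f₀, Or.inl ((mO _).2 ⟨0, Or.inl rfl⟩)⟩ fun d hd => ?_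
    have c1 : s₁ d = α (s₃ d) := congrArg (· d) e1
    have c2 : s₂ d = σ (s₃ d) := congrArg (· d) e2
    have c3 : s₃ (α (s₃ d)) = α (s₃ (s₃ d)) := congrArg (· (s₃ d)) hρα
    rw [c1, c2, c3, rs, rr]
    rcases hd with hd | hd
    · exact ⟨Or.inr (Pα hd), Or.inr (Pσ (Pσ (Pσ (Pσ (Pσ hd))))), Or.inr hd⟩
    · exact ⟨Or.inl (Pα hd), Or.inl (Pσ hd), Or.inl hd⟩
  by_cases hc : s₃ f₀ ∈ P
  · exfalso
    have hP3 : ∀ {d}, d ∈ P → s₃ d ∈ P := by
      intro d hd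
      obtain ⟨z, rfl | rfl⟩ := (mO d).1 hd
      · rw [rN]
        exact PN _ hc
      · rw [rN, rs]
        exact PN _ (Pσ (Pσ (Pσ (Pσ (Pσ hc)))))
    have hu : ∀ d, d ∈ P := fun d => (hall d).elim id fun h => rr d ▸ hP3 h
    have hk : ∀ d ∈ Finset.univ.filter fun d => d ∈ O ∧ σ (σ d) = d, ∃ z : ℤ × ℤ, ∃ i j : ℤ,
        N z f₀ = d ∧ (-z.2 - z.1, z.1 - 2 * z.2) = (a * i - b * j, b * i + (a - b) * j) := by
      intro d hd
      obtain ⟨hd1, hd2⟩ := (Finset.mem_filter.1 hd).2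
      rw [hO] at hd1
      obtain ⟨z, rfl⟩ := hd1
      rw [ssN] at hd2
      obtain ⟨i, j, e⟩ := (hL (-z + (-z.2, z.1 - z.2))).1 (by
        rw [← aN, hd2, aN, neg_add_cancel, N0]
        rfl)
      refine ⟨z, i, j, rfl, Eq.trans (Prod.ext ?_ ?_) e⟩
      · simp only [Prod.fst_add, Prod.fst_neg]
        ring
      · simp only [Prod.snd_add, Prod.snd_neg]
        ring
    choose! z i j hz hij using hk
    have c3 : (Finset.univ.filter fun d => d ∈ O ∧ σ (σ d) = d).card ≤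
        (Finset.Ico (0 : ℤ) 3).card := by
      refine Finset.card_le_card_of_injOn (fun d => (i d + j d) % 3)
        (fun d _ => Finset.mem_coe.2 (Finset.mem_Ico.2 (by dsimp only; omega))) fun d hd d' hd' e => ?_
      obtain ⟨t, ht⟩ : ∃ t, i d + j d - (i d' + j d') = -3 * t :=
        ⟨-((i d + j d - (i d' + j d')) / 3), by dsimp only at e; omega⟩
      obtain ⟨u1, u2⟩ := Prod.mk.inj (hij d hd)
      obtain ⟨v1, v2⟩ := Prod.mk.inj (hij d' hd')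
      have hm := (hL (z d - z d')).2 ⟨-t - (i d - i d'), t, Prod.ext ?_ ?_⟩
      · rw [← hz d hd, ← hz d' hd', ← add_sub_cancel (z d') (z d), ← aN, hm]
      · apply mul_left_cancel₀ (three_ne_zero (α := ℤ))
        simp only [Prod.fst_sub]
        linear_combination (u2 - v2) - 2 * (u1 - v1) + (a + b) * ht
      · apply mul_left_cancel₀ (three_ne_zero (α := ℤ))
        simp only [Prod.snd_sub]
        linear_combination -(u2 - v2) - (u1 - v1) + (2 * b - a) * ht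
    have c6 : (Finset.univ.filter fun d => σ (σ d) = d) ⊆
        (Finset.univ.filter fun d => d ∈ O ∧ σ (σ d) = d) ∪
          (Finset.univ.filter fun d => d ∈ O ∧ σ (σ d) = d).image σ := by
      intro d hd
      have hd2 := (Finset.mem_filter.1 hd).2
      have hd1 := hu d
      rw [hP] at hd1
      rcases hd1 with h | ⟨d', h, rfl⟩
      · exact Finset.mem_union_left _ (Finset.mem_filter.2 ⟨Finset.mem_univ _, h, hd2⟩)
      · exact Finset.mem_union_right _ (Finset.mem_image_of_mem _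
          (Finset.mem_filter.2 ⟨Finset.mem_univ _, h, σ.injective hd2⟩))
    have c7 := (Finset.card_le_card c6).trans ((Finset.card_union_le _ _).trans
      (add_le_add le_rfl Finset.card_image_le))
    simp only [Int.card_Ico] at c3
    omega
  · have d1 : Disjoint O (σ '' O) := by
      rw [Set.disjoint_left, hO]
      rintro _ ⟨v, rfl⟩ ⟨_, ⟨u, rfl⟩, e⟩
      obtain ⟨w, hw⟩ : ∃ w, σ f₀ = N w f₀ := ⟨-(u.1 - u.2, u.1) + v, by
        rw [← aN, ← e, sN, aN, neg_add_cancel, N0]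
        rfl⟩
      refine nofix (N (w.1 - w.2, w.1) f₀) ?_
      rw [sN, hw, aN]
      refine congrArg (fun z => N z f₀) (Prod.ext ?_ ?_)
      · simp only [Prod.fst_add]
        ring
      · simp only [Prod.snd_add]
        ring
    have d2 : Disjoint P (s₃ '' P) := by
      rw [Set.disjoint_right]
      rintro _ ⟨d, hd, rfl⟩ h
      apply hc
      obtain ⟨z, rfl | rfl⟩ := (mO d).1 hd
      · have := PN (-(z.1 - z.2, -z.2)) h
        rwa [rN, aN, neg_add_cancel, N0] at this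
      · have := PN (-(z.1 - z.2, -z.2)) h
        rw [rN, aN, neg_add_cancel, N0, rs] at this
        exact s6 (s₃ f₀) ▸ Pσ this
    have hu : (Set.univ : Set D) = P ∪ s₃ '' P :=
      (Set.eq_univ_of_forall fun d => (hall d).imp id fun h => ⟨_, h, rr d⟩).symm
    refine ⟨a, b, ?_⟩
    rw [← hab, ← hO, ← Nat.card_eq_fintype_card, ← Set.ncard_univ, hu, Set.ncard_union_eq d2,
      Set.ncard_image_of_injective _ s₃.injective, hP, Set.ncard_union_eq d1,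
      Set.ncard_image_of_injective _ σ.injective]
    push_cast
    ring

end Pool.Agent.P.MP_e40812_co
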