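import Pool.Agent.P.MP_e40812_co.Tri
import Pool.Agent.P.MP_e40812_co.LoGroup

/-!
Triangulated spheres with degrees four and six whose six vertices of degree four are matched by
edges.
-/

namespace Pool.Agent.P.MP_e40812_co

open Finset

variable {ι : Type*} [DecidableEq ι]

/-- All degrees are four (on `K`) or six, and `M` is a perfect matching of `K` along edges. -/
structure Matched (V : Finset ι) (F : Finset (Finset ι)) (K : Finset ι) (M : ι → ι → Prop) :
    Prop where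
  sub : K ⊆ V
  card : K.card = 6
  four : ∀ v ∈ K, deg F v = 4
  six : ∀ v ∈ V, v ∉ K → deg F v = 6
  symm : ∀ a b, M a b → M b a
  mem : ∀ a b, M a b → a ∈ K
  nb : ∀ a b, M a b → Nb F a b
  ex : ∀ a ∈ K, ∃ b, M a b
  uniq : ∀ a b c, M a b → M a c → b = c

lemma Tri.lf_closed {V : Finset ι} {F : Finset (Finset ι)} (h : Tri V F) {v : ι} (s : Finset ι)
    (hs : ∀ u ∈ s, Nb F v u) (hc : ∀ x ∈ s, ∀ y, T F v x y → y ∈ s) (hlt : s.card < deg F v) :
    s.card + 3 ≤ deg F v := by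
  obtain ⟨x, hx, y, t⟩ := h.exists_nb s hlt
  obtain ⟨z, hz, t'⟩ := h.next t
  have hy' : y ∉ s := fun k => hx (hc y k x t.s23)
  have hz' : z ∉ s := fun k => hx (hc z k x t'.s23)
  have := h.card_le_deg (insert x (insert y (insert z s))) (v := v) (by
    intro u hu
    simp only [mem_insert] at hu
    rcases hu with rfl | rfl | rfl | hu
    · exact t.nb
    · exact t.nb'
    · exact t'.nb'
    · exact hs u hu)
  rw [card_insert_of_notMem (by simp [hx, t.2.2.1, t'.2.2.1]),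
    card_insert_of_notMem (by simp [hy', hz.symm]), card_insert_of_notMem hz'] at this
  omega

/-- The link of a vertex of degree six closes up after six steps. -/
lemma Tri.link6 {V : Finset ι} {F : Finset (Finset ι)} (h : Tri V F) {v a b c d e f g k : ι}
    (hd : deg F v = 6) (t0 : T F v a b) (t1 : T F v b c) (t2 : T F v c d) (t3 : T F v d e)
    (t4 : T F v e f) (t5 : T F v f g) (t6 : T F v g k) (n1 : c ≠ a) (n2 : d ≠ b) (n3 : e ≠ c)
    (n4 : f ≠ d) (n5 : g ≠ e) (n6 : k ≠ f) : g = a ∧ k = b := by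
  have ab := t0.2.2.1
  have bc := t1.2.2.1
  have cd := t2.2.2.1
  have de := t3.2.2.1
  have ef := t4.2.2.1
  have fg := t5.2.2.1
  have Nb' : ∀ x, T F v b x → x = a ∨ x = c := fun x t => h.third t0.s23 t1 n1.symm t
  have Nc : ∀ x, T F v c x → x = b ∨ x = d := fun x t => h.third t1.s23 t2 n2.symm t
  have Nd : ∀ x, T F v d x → x = c ∨ x = e := fun x t => h.third t2.s23 t3 n3.symm t
  have Ne' : ∀ x, T F v e x → x = d ∨ x = f := fun x t => h.third t3.s23 t4 n4.symm t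
  by_cases da : d = a
  · subst da
    obtain rfl : e = b := (h.third t0 t2.s23 bc t3).resolve_right n3
    obtain rfl : f = c := (Nb' f t4).resolve_left n4
    obtain rfl : g = d := (Nc g t5).resolve_left n5
    exact ⟨rfl, (h.third t0 t2.s23 bc t6).resolve_right n6⟩
  have eb : e ≠ b := by
    rintro rfl
    rcases Nb' d t3.s23 with k | k
    · exact da k
    · exact cd k.symm
  have ea : e ≠ a := by
    rintro rfl
    have hc : ({e, b, c, d} : Finset ι).card = 4 := by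
      rw [card_insert_of_notMem (by simp [ab, n1.symm, Ne.symm da]),
        card_eq_three.2 ⟨b, c, d, bc, n2.symm, cd, rfl⟩]
    have := h.lf_closed (v := v) {e, b, c, d} (by simp [t0.nb, t1.nb, t2.nb, t3.nb]) (by
      intro x hx y t
      simp only [mem_insert, mem_singleton] at hx ⊢
      rcases hx with rfl | rfl | rfl | rfl
      · have := h.third t0 t3.s23 n2.symm t
        tauto
      · have := Nb' y t
        tauto
      · have := Nc y t
        tauto
      · have := Nd y t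
        tauto) (by omega)
    omega
  have fb : f ≠ b := by
    rintro rfl
    rcases Nb' e t4.s23 with k | k
    · exact ea k
    · exact n3 k
  have fc : f ≠ c := by
    rintro rfl
    rcases Nc e t4.s23 with k | k
    · exact eb k
    · exact de k.symm
  have h5 : ({a, b, c, d, e} : Finset ι).card = 5 := by
    rw [card_insert_of_notMem (by simp [ab, n1.symm, Ne.symm da, ea.symm]),
      card_insert_of_notMem (by simp [bc, n2.symm, eb.symm]),
      card_eq_three.2 ⟨c, d, e, cd, n3.symm, de, rfl⟩]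
  have fa : f ≠ a := by
    rintro rfl
    have := h.lf_closed (v := v) {f, b, c, d, e} (by simp [t0.nb, t1.nb, t2.nb, t3.nb, t4.nb]) (by
      intro x hx y t
      simp only [mem_insert, mem_singleton] at hx ⊢
      rcases hx with rfl | rfl | rfl | rfl | rfl
      · have := h.third t0 t4.s23 eb.symm t
        tauto
      · have := Nb' y t
        tauto
      · have := Nc y t
        tauto
      · have := Nd y t
        tauto
      · have := Ne' y t
        tauto) (by omega)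
    omega
  have hg := h.nb_of_card (v := v) (insert f {a, b, c, d, e})
    (by simp [t0.nb, t1.nb, t2.nb, t3.nb, t4.nb, t5.nb])
    (by rw [card_insert_of_notMem (by simp [fa, fb, fc, n4, ef.symm]), h5, hd]) t5.nb'
  simp only [mem_insert, mem_singleton] at hg
  have ga : g = a := by
    rcases hg with k | k | k | k | k | k
    · exact absurd k.symm fg
    · exact k
    · subst k
      rcases Nb' f t5.s23 with k | k
      · exact absurd k fa
      · exact absurd k fc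
    · subst k
      rcases Nc f t5.s23 with k | k
      · exact absurd k fb
      · exact absurd k n4
    · subst k
      rcases Nd f t5.s23 with k | k
      · exact absurd k fc
      · exact absurd k.symm ef
    · exact absurd k n5
  subst ga
  exact ⟨rfl, (h.third t0 t5.s23 fb.symm t6).resolve_right n6⟩

/-- `flags_card` for three maps that preserve a finite set. -/
lemma lf_flags {X : Type*} [DecidableEq X] (S : Finset X) (f₁ f₂ f₃ : X → X)
    (m1 : ∀ x ∈ S, f₁ x ∈ S) (m2 : ∀ x ∈ S, f₂ x ∈ S) (m3 : ∀ x ∈ S, f₃ x ∈ S)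
    (i1 : ∀ x ∈ S, f₁ (f₁ x) = x) (i2 : ∀ x ∈ S, f₂ (f₂ x) = x) (i3 : ∀ x ∈ S, f₃ (f₃ x) = x)
    (h12 : ∀ x ∈ S, f₁ (f₂ (f₁ (f₂ (f₁ (f₂ x))))) = x) (h13 : ∀ x ∈ S, f₁ (f₃ x) = f₃ (f₁ x))
    (h23 : ∀ x ∈ S, (fun y => f₂ (f₃ y))^[6] x = x)
    (conn : ∀ Q : X → Prop, (∃ d ∈ S, Q d) → (∀ d ∈ S, Q d → Q (f₁ d) ∧ Q (f₂ d) ∧ Q (f₃ d)) →
      ∀ d ∈ S, Q d)
    (nofix : ∀ d ∈ S, f₂ (f₃ d) ≠ d)
    (many : 7 ≤ (S.filter fun d => f₂ (f₃ (f₂ (f₃ d))) = d).card) :
    ∃ x y : ℤ, (S.card : ℤ) = 4 * (x ^ 2 - x * y + y ^ 2) := by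
  let mk : (f : X → X) → (∀ x ∈ S, f x ∈ S) → (∀ x ∈ S, f (f x) = x) → Equiv.Perm S :=
    fun f m i => Function.Involutive.toPerm (fun x => ⟨f x.1, m x.1 x.2⟩)
      fun x => Subtype.ext (i x.1 x.2)
  have := flags_card (mk f₁ m1 i1) (mk f₂ m2 i2) (mk f₃ m3 i3)
    (Equiv.ext fun x => Subtype.ext (i1 x.1 x.2)) (Equiv.ext fun x => Subtype.ext (i2 x.1 x.2))
    (Equiv.ext fun x => Subtype.ext (i3 x.1 x.2)) (Equiv.ext fun x => Subtype.ext (h12 x.1 x.2))
    (Equiv.ext fun x => Subtype.ext (h13 x.1 x.2)) (Equiv.ext fun x => Subtype.ext (h23 x.1 x.2))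
    (fun Q ⟨d, hd⟩ hQ d' => by
      obtain ⟨_, k⟩ := conn (fun x => ∃ hx : x ∈ S, Q ⟨x, hx⟩) ⟨d.1, d.2, d.2, hd⟩
        (fun x hx ⟨hx', q⟩ => ⟨⟨_, (hQ _ q).1⟩, ⟨_, (hQ _ q).2.1⟩, ⟨_, (hQ _ q).2.2⟩⟩) d'.1 d'.2
      exact k)
    (fun d e => nofix d.1 d.2 (congrArg Subtype.val e))
    (many.trans (by
      refine card_le_card_of_surjOn Subtype.val fun x hx => ?_
      obtain ⟨h1, h2⟩ := mem_filter.1 (mem_coe.1 hx)
      exact ⟨⟨x, h1⟩, mem_coe.2 (mem_filter.2 ⟨mem_univ _, Subtype.ext h2⟩), rfl⟩))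
  simpa using this

open Classical in
/-- The other triangle on the edge `p q`. -/
noncomputable def lfOth (F : Finset (Finset ι)) (p q r : ι) : ι :=
  if h : ∃ d, d ≠ r ∧ T F p q d then h.choose else r

/-- Change of the vertex of a flag. -/
def lf1 (x : ι × ι × ι × Fin 4) : ι × ι × ι × Fin 4 :=
  ![(x.1, x.2.1, x.2.2.1, 1), (x.1, x.2.1, x.2.2.1, 0), (x.2.1, x.1, x.2.2.1, 2),
    (x.2.1, x.1, x.2.2.1, 3)] x.2.2.2

/-- Change of the edge of a flag. -/
def lf2 (x : ι × ι × ι × Fin 4) : ι × ι × ι × Fin 4 :=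
  ![(x.2.1, x.1, x.2.2.1, 0), (x.1, x.2.1, x.2.2.1, 2), (x.1, x.2.1, x.2.2.1, 1),
    (x.1, x.2.2.1, x.2.1, 3)] x.2.2.2

open Classical in
/-- Change of the face of a flag. -/
noncomputable def lf3 (F : Finset (Finset ι)) (M : ι → ι → Prop) (x : ι × ι × ι × Fin 4) :
    ι × ι × ι × Fin 4 :=
  ![(x.1, x.2.1, lfOth F x.1 x.2.1 x.2.2.1, 0), (x.1, x.2.1, lfOth F x.1 x.2.1 x.2.2.1, 1),
    (x.1, x.2.1, x.2.2.1, 3), if M x.1 x.2.1 then (x.1, x.2.1, x.2.2.1, 2)
      else (x.1, x.2.1, lfOth F x.1 x.2.1 x.2.2.1, 3)] x.2.2.2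

open Classical in
/-- The flags after opening the matched edges. -/
noncomputable def lfS (V : Finset ι) (F : Finset (Finset ι)) (M : ι → ι → Prop) :
    Finset (ι × ι × ι × Fin 4) :=
  (V ×ˢ V ×ˢ V ×ˢ univ).filter fun x => T F x.1 x.2.1 x.2.2.1 ∧ (x.2.2.2 = 3 ∨ M x.1 x.2.1)

section

variable {V : Finset ι} {F : Finset (Finset ι)} {K : Finset ι} {M : ι → ι → Prop} {p q r d : ι}

omit [DecidableEq ι] in
lemma lf1_0 : lf1 (p, q, r, 0) = (p, q, r, 1) := rfl
omit [DecidableEq ι] in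
lemma lf1_1 : lf1 (p, q, r, 1) = (p, q, r, 0) := rfl
omit [DecidableEq ι] in
lemma lf1_2 : lf1 (p, q, r, 2) = (q, p, r, 2) := rfl
omit [DecidableEq ι] in
lemma lf1_3 : lf1 (p, q, r, 3) = (q, p, r, 3) := rfl
omit [DecidableEq ι] in
lemma lf2_0 : lf2 (p, q, r, 0) = (q, p, r, 0) := rfl
omit [DecidableEq ι] in
lemma lf2_1 : lf2 (p, q, r, 1) = (p, q, r, 2) := rfl
omit [DecidableEq ι] in
lemma lf2_2 : lf2 (p, q, r, 2) = (p, q, r, 1) := rfl
omit [DecidableEq ι] in
lemma lf2_3 : lf2 (p, q, r, 3) = (p, r, q, 3) := rfl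
lemma lf3_0 : lf3 F M (p, q, r, 0) = (p, q, lfOth F p q r, 0) := rfl
lemma lf3_1 : lf3 F M (p, q, r, 1) = (p, q, lfOth F p q r, 1) := rfl
lemma lf3_2 : lf3 F M (p, q, r, 2) = (p, q, r, 3) := rfl
lemma lf3_3 (h : M p q) : lf3 F M (p, q, r, 3) = (p, q, r, 2) := if_pos h
lemma lf3_3' (h : ¬ M p q) : lf3 F M (p, q, r, 3) = (p, q, lfOth F p q r, 3) := if_neg h

lemma lf_four (k : Fin 4) : k = 0 ∨ k = 1 ∨ k = 2 ∨ k = 3 := by revert k; decide

lemma Tri.lf_oth (h : Tri V F) (t : T F p q r) : lfOth F p q r ≠ r ∧ T F p q (lfOth F p q r) := by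
  have := h.next t
  unfold lfOth
  rw [dif_pos this]
  exact this.choose_spec

lemma Tri.lf_oth_eq (h : Tri V F) (t : T F p q r) (t' : T F p q d) (hd : d ≠ r) :
    lfOth F p q r = d :=
  (h.third t t' hd.symm (h.lf_oth t).2).resolve_left (h.lf_oth t).1

lemma Tri.lf_oth_oth (h : Tri V F) (t : T F p q r) : lfOth F p q (lfOth F p q r) = r :=
  h.lf_oth_eq (h.lf_oth t).2 t (h.lf_oth t).1.symm

lemma Tri.lf_oth_swap (h : Tri V F) (t : T F p q r) : lfOth F q p r = lfOth F p q r :=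
  h.lf_oth_eq t.s12 (h.lf_oth t).2.s12 (h.lf_oth t).1

lemma Tri.lf_mem (h : Tri V F) {k : Fin 4} :
    (p, q, r, k) ∈ lfS V F M ↔ T F p q r ∧ (k = 3 ∨ M p q) := by
  unfold lfS
  simp only [mem_filter, mem_product, mem_univ, and_true, and_iff_right_iff_imp]
  exact fun t => ⟨h.mem t.1, h.mem t.1.s12, h.mem t.1.s13⟩

/-- Case distinction on flags. -/
lemma Tri.lf_cases (h : Tri V F) {P : ι × ι × ι × Fin 4 → Prop}
    (h0 : ∀ p q r, T F p q r → M p q → P (p, q, r, 0))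
    (h1 : ∀ p q r, T F p q r → M p q → P (p, q, r, 1))
    (h2 : ∀ p q r, T F p q r → M p q → P (p, q, r, 2))
    (h3 : ∀ p q r, T F p q r → P (p, q, r, 3)) : ∀ x ∈ lfS V F M, P x := by
  rintro ⟨p, q, r, k⟩ hx
  obtain ⟨t, hk⟩ := h.lf_mem.1 hx
  rcases lf_four k with rfl | rfl | rfl | rfl
  · exact h0 p q r t (hk.resolve_left (by decide))
  · exact h1 p q r t (hk.resolve_left (by decide))
  · exact h2 p q r t (hk.resolve_left (by decide))
  · exact h3 p q r t

lemma Tri.lf_step (h : Tri V F) (t : T F p q r) (t' : T F p q d) (hd : d ≠ r) (hm : ¬ M p q) :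
    lf2 (lf3 F M (p, q, r, 3)) = (p, d, q, 3) := by
  rw [lf3_3' hm, lf2_3, h.lf_oth_eq t t' hd]

lemma Tri.lf_step3 (h : Tri V F) (t : T F p q r) (t' : T F p q d) (hd : d ≠ r) (hm : M p q) :
    lf2 (lf3 F M (lf2 (lf3 F M (lf2 (lf3 F M (p, q, r, 3)))))) = (p, d, q, 3) := by
  rw [lf3_3 hm, lf2_2, lf3_1, lf2_1, lf3_2, lf2_3, h.lf_oth_eq t t' hd]

lemma Matched.lf_six (h : Tri V F) (hM : Matched V F K M) (t : T F p q r) :
    (fun y => lf2 (lf3 F M y))^[6] (p, q, r, 3) = (p, q, r, 3) := by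
  simp only [Function.iterate_succ, Function.iterate_zero, Function.comp, id]
  by_cases hp : p ∈ K
  · obtain ⟨c, d, t1, t2, t3, ac, bd, nb⟩ := h.link4 (hM.four p hp) t.s23
    obtain ⟨m, hm⟩ := hM.ex p hp
    have ne : ∀ x, x ≠ m → ¬ M p x := fun x hx k => hx (hM.uniq _ _ _ k hm)
    have a1 := h.lf_step (M := M) t t1 ac.symm
    have a2 := h.lf_step (M := M) t1.s23 t2 bd.symm
    have a3 := h.lf_step (M := M) t2.s23 t3 ac
    have a4 := h.lf_step (M := M) t3.s23 t.s23 bd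
    have b1 := h.lf_step3 (M := M) t t1 ac.symm
    have b2 := h.lf_step3 (M := M) t1.s23 t2 bd.symm
    have b3 := h.lf_step3 (M := M) t2.s23 t3 ac
    have b4 := h.lf_step3 (M := M) t3.s23 t.s23 bd
    rcases nb m (hM.nb _ _ hm) with rfl | rfl | rfl | rfl
    · rw [a1 (ne _ t.2.2.1), a2 (ne _ ac.symm), a3 (ne _ t3.2.2.1), b4 hm]
    · rw [b1 hm, a2 (ne _ t1.2.2.1.symm), a3 (ne _ bd.symm), a4 (ne _ t.2.2.1.symm)]
    · rw [a1 (ne _ t1.2.2.1), b2 hm, a3 (ne _ t2.2.2.1.symm), a4 (ne _ ac)]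
    · rw [a1 (ne _ bd), a2 (ne _ t2.2.2.1), b3 hm, a4 (ne _ t3.2.2.1.symm)]
  · have ne : ∀ x, ¬ M p x := fun x k => hp (hM.mem _ _ k)
    obtain ⟨c, n1, t1⟩ := h.next t
    obtain ⟨d, n2, t2⟩ := h.next t1.s23
    obtain ⟨e, n3, t3⟩ := h.next t2.s23
    obtain ⟨f, n4, t4⟩ := h.next t3.s23
    obtain ⟨g, n5, t5⟩ := h.next t4.s23
    obtain ⟨k, n6, t6⟩ := h.next t5.s23
    obtain ⟨rfl, rfl⟩ := h.link6 (hM.six p (h.mem t) hp) t.s23 t1 t2 t3 t4 t5 t6 n1 n2 n3 n4 n5 n6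
    rw [h.lf_step t t1 n1 (ne _), h.lf_step t1.s23 t2 n2 (ne _), h.lf_step t2.s23 t3 n3 (ne _),
      h.lf_step t3.s23 t4 n4 (ne _), h.lf_step t4.s23 t5 n5 (ne _), h.lf_step t5.s23 t6 n6 (ne _)]

open Classical in
lemma Tri.lf_sum_third (h : Tri V F) (p q : ι) :
    ∑ r ∈ V, (if T F p q r then 1 else 0) = if Nb F p q then 2 else 0 := by
  rw [← card_filter]
  split_ifs with hn
  · obtain ⟨c, t⟩ := hn
    obtain ⟨d, hd, t'⟩ := h.next t
    refine card_eq_two.2 ⟨c, d, hd.symm, ?_⟩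
    ext x
    simp only [mem_filter, mem_insert, mem_singleton]
    refine ⟨fun k => h.third t t' hd.symm k.2, ?_⟩
    rintro (rfl | rfl)
    · exact ⟨h.mem t.s13, t⟩
    · exact ⟨h.mem t'.s13, t'⟩
  · exact card_eq_zero.2 (filter_eq_empty_iff.2 fun x _ t => hn t.nb)

open Classical in
lemma Tri.lf_sum_T (h : Tri V F) :
    ∑ p ∈ V, ∑ q ∈ V, ∑ r ∈ V, (if T F p q r then 1 else 0) + 24 = 12 * V.card := by
  have h1 : ∀ p, ∑ q ∈ V, (if Nb F p q then 2 else 0) = 2 * deg F p := by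
    intro p
    rw [h.deg_eq, card_filter, mul_sum]
    exact sum_congr rfl fun q _ => by split_ifs <;> rfl
  simp only [h.lf_sum_third, h1, ← mul_sum]
  have := h.toPre.sum_deg
  omega

open Classical in
lemma Matched.lf_sum_M (h : Tri V F) (hM : Matched V F K M) :
    ∑ p ∈ V, ∑ q ∈ V, ∑ r ∈ V, (if T F p q r ∧ M p q then 1 else 0) = 12 := by
  have h1 : ∀ p q, ∑ r ∈ V, (if T F p q r ∧ M p q then 1 else 0) = if M p q then 2 else 0 := by
    intro p q
    by_cases hm : M p q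
    · simp only [hm, and_true, if_true]
      rw [h.lf_sum_third, if_pos (hM.nb _ _ hm)]
    · simp [hm]
  have h2 : ∀ p, ∑ q ∈ V, (if M p q then 2 else 0) = if p ∈ K then 2 else 0 := by
    intro p
    split_ifs with hp
    · obtain ⟨m, hm⟩ := hM.ex p hp
      rw [sum_eq_single_of_mem m (hM.sub (hM.mem _ _ (hM.symm _ _ hm))), if_pos hm]
      exact fun q _ hq => if_neg fun k => hq (hM.uniq _ _ _ k hm)
    · exact sum_eq_zero fun q _ => if_neg fun k => hp (hM.mem _ _ k)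
  simp only [h1, h2]
  rw [← sum_filter, filter_mem_eq_inter, inter_eq_right.2 hM.sub, sum_const, hM.card]
  rfl

lemma Matched.lf_card (h : Tri V F) (hM : Matched V F K M) :
    (lfS V F M).card = 12 * (V.card + 1) := by
  classical
  have h1 : ∀ p q r, ∑ k : Fin 4, (if T F p q r ∧ (k = 3 ∨ M p q) then 1 else 0) =
      (if T F p q r then 1 else 0) + 3 * if T F p q r ∧ M p q then 1 else 0 := by
    intro p q r
    by_cases t : T F p q r <;> by_cases m : M p q <;> simp [t, m]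
  have h2 := h.lf_sum_T
  have h3 := hM.lf_sum_M h
  have h4 : (lfS V F M).card = ∑ p ∈ V, ∑ q ∈ V, ∑ r ∈ V, ∑ k : Fin 4,
      (if T F p q r ∧ (k = 3 ∨ M p q) then 1 else 0) := by
    unfold lfS
    rw [card_filter]
    simp only [sum_product]
  rw [h4]
  simp only [h1, sum_add_distrib, ← mul_sum]
  omega

lemma Matched.lf_many (h : Tri V F) (hM : Matched V F K M) :
    7 ≤ ((lfS V F M).filter fun d => lf2 (lf3 F M (lf2 (lf3 F M d))) = d).card := by
  classical
  have h3 := hM.lf_sum_M h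
  have h4 : ((V ×ˢ V ×ˢ V).filter fun x => T F x.1 x.2.1 x.2.2 ∧ M x.1 x.2.1).card = 12 := by
    rw [card_filter]
    simp only [sum_product]
    exact h3
  refine le_trans (by omega : 7 ≤ 12) (h4.ge.trans (card_le_card_of_injOn
    (fun x => (x.1, x.2.1, x.2.2, (0 : Fin 4))) ?_ ?_))
  · rintro ⟨p, q, r⟩ hx
    obtain ⟨-, t, m⟩ := mem_filter.1 (mem_coe.1 hx)
    refine mem_coe.2 (mem_filter.2 ⟨h.lf_mem.2 ⟨t, Or.inr m⟩, ?_⟩)
    rw [lf3_0, lf2_0, lf3_0, lf2_0, h.lf_oth_swap (h.lf_oth t).2, h.lf_oth_oth t]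
  · rintro ⟨p, q, r⟩ - ⟨p', q', r'⟩ - e
    simpa using e

lemma Matched.lf_conn (h : Tri V F) (Q : ι × ι × ι × Fin 4 → Prop)
    (h0 : ∃ d ∈ lfS V F M, Q d)
    (hQ : ∀ d ∈ lfS V F M, Q d → Q (lf1 d) ∧ Q (lf2 d) ∧ Q (lf3 F M d)) :
    ∀ d ∈ lfS V F M, Q d := by
  have o : ∀ {p q r}, T F p q r → (p, q, r, (3 : Fin 4)) ∈ lfS V F M :=
    fun t => h.lf_mem.2 ⟨t, Or.inl rfl⟩
  have n : ∀ {p q r} (k : Fin 4), T F p q r → M p q → (p, q, r, k) ∈ lfS V F M :=
    fun _ t m => h.lf_mem.2 ⟨t, Or.inr m⟩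
  have s12 : ∀ {p q r}, T F p q r → Q (p, q, r, 3) → Q (q, p, r, 3) :=
    fun t k => (hQ _ (o t) k).1
  have s23 : ∀ {p q r}, T F p q r → Q (p, q, r, 3) → Q (p, r, q, 3) :=
    fun t k => (hQ _ (o t) k).2.1
  have u23 : ∀ {p q r}, T F p q r → M p q → Q (p, q, r, 2) → Q (p, q, r, 3) :=
    fun t m k => (hQ _ (n 2 t m) k).2.2
  have u12 : ∀ {p q r}, T F p q r → M p q → Q (p, q, r, 1) → Q (p, q, r, 2) :=
    fun t m k => (hQ _ (n 1 t m) k).2.1
  have u01 : ∀ {p q r}, T F p q r → M p q → Q (p, q, r, 0) → Q (p, q, r, 1) :=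
    fun t m k => (hQ _ (n 0 t m) k).1
  have u32 : ∀ {p q r}, T F p q r → M p q → Q (p, q, r, 3) → Q (p, q, r, 2) :=
    fun t m k => lf3_3 (F := F) m ▸ (hQ _ (o t) k).2.2
  have u21 : ∀ {p q r}, T F p q r → M p q → Q (p, q, r, 2) → Q (p, q, r, 1) :=
    fun t m k => (hQ _ (n 2 t m) k).2.1
  have u10 : ∀ {p q r}, T F p q r → M p q → Q (p, q, r, 1) → Q (p, q, r, 0) :=
    fun t m k => (hQ _ (n 1 t m) k).1
  have perm : ∀ {a b c p q r}, T F a b c → T F p q r → ({a, b, c} : Finset ι) = {p, q, r} →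
      Q (p, q, r, 3) → Q (a, b, c, 3) := by
    intro a b c p q r t t' e k
    have ha : a ∈ ({p, q, r} : Finset ι) := e ▸ (by simp)
    have hb : b ∈ ({p, q, r} : Finset ι) := e ▸ (by simp)
    have hc : c ∈ ({p, q, r} : Finset ι) := e ▸ (by simp)
    simp only [mem_insert, mem_singleton] at ha hb hc
    have k1 := t.1
    have k2 := t.2.1
    have k3 := t.2.2.1
    rcases ha with rfl | rfl | rfl <;> rcases hb with rfl | rfl | rfl <;>
      rcases hc with rfl | rfl | rfl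
    all_goals first
      | exact absurd rfl k1
      | exact absurd rfl k2
      | exact absurd rfl k3
      | exact k
      | exact s12 t' k
      | exact s23 t' k
      | exact s12 t'.s23 (s23 t' k)
      | exact s23 t'.s12 (s12 t' k)
      | exact s12 t'.s12.s23 (s23 t'.s12 (s12 t' k))
  have all := h.conn (fun s => ∃ p q r, T F p q r ∧ s = {p, q, r} ∧ Q (p, q, r, 3))
    (by
      obtain ⟨d, hd, k⟩ := h0
      revert k
      refine h.lf_cases (P := fun d => Q d → ∃ t ∈ F, ∃ p q r, T F p q r ∧ t = {p, q, r} ∧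
        Q (p, q, r, 3)) ?_ ?_ ?_ ?_ d hd
      · exact fun p q r t m k => ⟨_, t.2.2.2, p, q, r, t, rfl, u23 t m (u12 t m (u01 t m k))⟩
      · exact fun p q r t m k => ⟨_, t.2.2.2, p, q, r, t, rfl, u23 t m (u12 t m k)⟩
      · exact fun p q r t m k => ⟨_, t.2.2.2, p, q, r, t, rfl, u23 t m k⟩
      · exact fun p q r t k => ⟨_, t.2.2.2, p, q, r, t, rfl, k⟩)
    (by
      rintro a b c d t t' ⟨p, q, r, t'', e, k⟩
      have k' := perm t t'' e k
      refine ⟨a, b, d, t', rfl, ?_⟩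
      by_cases hd : d = c
      · exact hd ▸ k'
      by_cases m : M a b
      · have := (hQ _ (n 1 t m) (u21 t m (u32 t m k'))).2.2
        rw [lf3_1, h.lf_oth_eq t t' hd] at this
        exact u23 t' m (u12 t' m this)
      · have := (hQ _ (o t) k').2.2
        rwa [lf3_3' m, h.lf_oth_eq t t' hd] at this)
  have three : ∀ p q r, T F p q r → Q (p, q, r, 3) := by
    intro p q r t
    obtain ⟨a, b, c, t', e, k⟩ := all _ t.2.2.2
    exact perm t t' e k
  exact h.lf_cases (fun p q r t m => u10 t m (u21 t m (u32 t m (three p q r t))))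
    (fun p q r t m => u21 t m (u32 t m (three p q r t))) (fun p q r t m => u32 t m (three p q r t))
    three

end

theorem Matched.norm {V : Finset ι} {F : Finset (Finset ι)} {K : Finset ι} {M : ι → ι → Prop}
    (h : Tri V F) (hM : Matched V F K M) :
    ∃ x y : ℤ, 3 * ((V.card : ℤ) + 1) = x ^ 2 - x * y + y ^ 2 := by
  obtain ⟨x, y, e⟩ := lf_flags (lfS V F M) lf1 lf2 (lf3 F M)
    (h.lf_cases (fun p q r t m => h.lf_mem.2 ⟨t, Or.inr m⟩)
      (fun p q r t m => h.lf_mem.2 ⟨t, Or.inr m⟩)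
      (fun p q r t m => h.lf_mem.2 ⟨t.s12, Or.inr (hM.symm _ _ m)⟩)
      (fun p q r t => h.lf_mem.2 ⟨t.s12, Or.inl rfl⟩))
    (h.lf_cases (fun p q r t m => h.lf_mem.2 ⟨t.s12, Or.inr (hM.symm _ _ m)⟩)
      (fun p q r t m => h.lf_mem.2 ⟨t, Or.inr m⟩)
      (fun p q r t m => h.lf_mem.2 ⟨t, Or.inr m⟩)
      (fun p q r t => h.lf_mem.2 ⟨t.s23, Or.inl rfl⟩))
    (h.lf_cases (fun p q r t m => h.lf_mem.2 ⟨(h.lf_oth t).2, Or.inr m⟩)
      (fun p q r t m => h.lf_mem.2 ⟨(h.lf_oth t).2, Or.inr m⟩)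
      (fun p q r t m => h.lf_mem.2 ⟨t, Or.inl rfl⟩)
      (fun p q r t => by
        by_cases m : M p q
        · rw [lf3_3 m]; exact h.lf_mem.2 ⟨t, Or.inr m⟩
        · rw [lf3_3' m]; exact h.lf_mem.2 ⟨(h.lf_oth t).2, Or.inl rfl⟩))
    (h.lf_cases (fun _ _ _ _ _ => rfl) (fun _ _ _ _ _ => rfl) (fun _ _ _ _ _ => rfl)
      (fun _ _ _ _ => rfl))
    (h.lf_cases (fun _ _ _ _ _ => rfl) (fun _ _ _ _ _ => rfl) (fun _ _ _ _ _ => rfl)
      (fun _ _ _ _ => rfl))
    (h.lf_cases (fun p q r t m => by rw [lf3_0, lf3_0, h.lf_oth_oth t])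
      (fun p q r t m => by rw [lf3_1, lf3_1, h.lf_oth_oth t])
      (fun p q r t m => by rw [lf3_2, lf3_3 m])
      (fun p q r t => by
        by_cases m : M p q
        · rw [lf3_3 m, lf3_2]
        · rw [lf3_3' m, lf3_3' m, h.lf_oth_oth t]))
    (h.lf_cases (fun _ _ _ _ _ => rfl) (fun _ _ _ _ _ => rfl) (fun _ _ _ _ _ => rfl)
      (fun _ _ _ _ => rfl))
    (h.lf_cases (fun _ _ _ _ _ => rfl) (fun _ _ _ _ _ => rfl)
      (fun p q r t m => by rw [lf3_2, lf1_3, lf1_2, lf3_2])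
      (fun p q r t => by
        by_cases m : M p q
        · rw [lf3_3 m, lf1_2, lf1_3, lf3_3 (hM.symm _ _ m)]
        · rw [lf3_3' m, lf1_3, lf1_3, lf3_3' fun k => m (hM.symm _ _ k), h.lf_oth_swap t]))
    (h.lf_cases
      (fun p q r t m => by
        have e : lf2 (lf3 F M (lf2 (lf3 F M (p, q, r, 0)))) = (p, q, r, 0) := by
          rw [lf3_0, lf2_0, lf3_0, lf2_0, h.lf_oth_swap (h.lf_oth t).2, h.lf_oth_oth t]
        simp only [Function.iterate_succ, Function.iterate_zero, Function.comp, id, e])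
      (fun p q r t m => by
        have e : (fun y => lf2 (lf3 F M y)) (p, q, r, 3) = (p, q, r, 1) := by
          simp only [lf3_3 m, lf2_2]
        rw [← e, ← Function.iterate_succ_apply, Function.iterate_succ_apply', hM.lf_six h t])
      (fun p q r t m => by
        have e : (fun y => lf2 (lf3 F M y))^[2] (p, q, lfOth F p q r, 3) = (p, q, r, 2) := by
          simp only [Function.iterate_succ, Function.iterate_zero, Function.comp, id]
          rw [lf3_3 m, lf2_2, lf3_1, lf2_1, h.lf_oth_oth t]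
        rw [← e, ← Function.iterate_add_apply, add_comm, Function.iterate_add_apply,
          hM.lf_six h (h.lf_oth t).2])
      (fun p q r t => hM.lf_six h t))
    (Matched.lf_conn h)
    (h.lf_cases
      (fun p q r t m e => t.1 (congrArg Prod.fst e).symm)
      (fun p q r t m e => absurd (congrArg (fun x => x.2.2.2) e) (by
        rw [lf3_1, lf2_1]; exact (by decide : ¬ (2 : Fin 4) = 1)))
      (fun p q r t m e => absurd (congrArg (fun x => x.2.2.2) e) (by
        rw [lf3_2, lf2_3]; exact (by decide : ¬ (3 : Fin 4) = 2)))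
      (fun p q r t e => by
        by_cases m : M p q
        · rw [lf3_3 m, lf2_2] at e
          exact absurd (congrArg (fun x => x.2.2.2) e) (by decide : ¬ (1 : Fin 4) = 3)
        · rw [lf3_3' m, lf2_3] at e
          exact t.2.2.1 (congrArg (fun x => x.2.2.1) e)))
    (hM.lf_many h)
  rw [hM.lf_card h] at e
  refine ⟨x, y, ?_⟩
  push_cast at e
  linarith

end Pool.Agent.P.MP_e40812_co
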