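import Pool.Agent.P.MP_e40812_co.Peel
import Pool.Agent.P.MP_e40812_co.LoFlag

/-!
Removing two levels of vertices of degree three.
-/

namespace Pool.Agent.P.MP_e40812_co

open Finset

/-- The face sizes on the line: `p_3 = 6m+21`, `p_5 = 3`, `p_6 = 2m+5`, `p_15 = 6`, `p_24 = m`. -/
def sl (m : ℕ) : Multiset ℕ :=
  Multiset.replicate (6 * m + 21) 3 + Multiset.replicate 3 5 + Multiset.replicate (2 * m + 5) 6 +
    Multiset.replicate 6 15 + Multiset.replicate m 24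

lemma lp_countP_replicate (p : ℕ → Prop) [DecidablePred p] (n a : ℕ) :
    Multiset.countP p (Multiset.replicate n a) = if p a then n else 0 := by
  induction n with
  | zero => simp
  | succ n ih =>
    rw [Multiset.replicate_succ, Multiset.countP_cons, ih]
    split_ifs <;> rfl

lemma lp_count {ι : Type*} {V : Finset ι} {f : ι → ℕ} {m : ℕ} (hs : V.val.map f = sl m)
    (p : ℕ → Prop) [DecidablePred p] :
    (V.filter fun v => p (f v)).card = (if p 3 then 6 * m + 21 else 0) + (if p 5 then 3 else 0) +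
      (if p 6 then 2 * m + 5 else 0) + (if p 15 then 6 else 0) + (if p 24 then m else 0) := by
  have h1 : (V.filter fun v => p (f v)).card = Multiset.countP p (V.val.map f) := by
    rw [Multiset.countP_map]
    rfl
  rw [h1, hs]
  simp only [sl, Multiset.countP_add, lp_countP_replicate]

lemma lp_mem {ι : Type*} {V : Finset ι} {f : ι → ℕ} {m : ℕ} (hs : V.val.map f = sl m)
    {v : ι} (hv : v ∈ V) : f v = 3 ∨ f v = 5 ∨ f v = 6 ∨ f v = 15 ∨ f v = 24 := by
  have h1 : f v ∈ sl m := hs ▸ Multiset.mem_map_of_mem f hv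
  simp only [sl, Multiset.mem_add, Multiset.mem_replicate] at h1
  tauto

lemma lp_deg_sdiff {ι : Type*} [DecidableEq ι] {G L : Finset (Finset ι)} (h : L ⊆ G) (v : ι) :
    deg G v = deg L v + deg (G \ L) v := by
  simp only [deg, card_filter]
  rw [← sum_sdiff h, add_comm]

theorem peel_two {ι : Type*} [DecidableEq ι] {V : Finset ι} {F : Finset (Finset ι)} {m : ℕ}
    (h : Tri V F) (hs : V.val.map (deg F) = sl m) :
    ∃ (W : Finset ι) (G : Finset (Finset ι)) (K : Finset ι) (M : ι → ι → Prop),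
      Tri W G ∧ W.card = m + 6 ∧ Matched W G K M := by
  have cV : V.card = 9 * m + 35 := by
    have := lp_count hs fun _ => True
    simp only [filter_true, if_true] at this
    omega
  obtain ⟨Y0, hY0⟩ : ∃ Y0, Y0 = V.filter fun v => deg F v = 3 := ⟨_, rfl⟩
  obtain ⟨Y1, hY1⟩ : ∃ Y1, Y1 = V.filter fun v => deg F v = 5 ∨ deg F v = 6 := ⟨_, rfl⟩
  obtain ⟨K, hK⟩ : ∃ K, K = V.filter fun v => deg F v = 15 := ⟨_, rfl⟩
  obtain ⟨P, hP⟩ : ∃ P, P = V.filter fun v => deg F v = 5 := ⟨_, rfl⟩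
  have m0 : ∀ v, v ∈ Y0 ↔ v ∈ V ∧ deg F v = 3 := fun v => by rw [hY0, mem_filter]
  have m1 : ∀ v, v ∈ Y1 ↔ v ∈ V ∧ (deg F v = 5 ∨ deg F v = 6) := fun v => by rw [hY1, mem_filter]
  have mK : ∀ v, v ∈ K ↔ v ∈ V ∧ deg F v = 15 := fun v => by rw [hK, mem_filter]
  have mP : ∀ v, v ∈ P ↔ v ∈ V ∧ deg F v = 5 := fun v => by rw [hP, mem_filter]
  have c0 : Y0.card = 6 * m + 21 := by
    rw [hY0, lp_count hs fun d => d = 3]
    simp
  have c1 : Y1.card = 2 * m + 8 := by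
    rw [hY1, lp_count hs fun d => d = 5 ∨ d = 6]
    simp
    omega
  have cK : K.card = 6 := by
    rw [hK, lp_count hs fun d => d = 15]
    simp
  have cP : P.card = 3 := by
    rw [hP, lp_count hs fun d => d = 5]
    simp
  have cO : (V.filter fun v => deg F v = 5 ∨ deg F v = 15).card = 9 := by
    rw [lp_count hs fun d => d = 5 ∨ d = 15]
    simp
  have s0 : Y0 ⊆ V := fun v hv => ((m0 v).1 hv).1
  have mV1 : ∀ v, v ∈ V \ Y0 ↔ v ∈ V ∧ deg F v ≠ 3 := fun v => by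
    rw [mem_sdiff, m0]
    tauto
  have cV1 : (V \ Y0).card = 3 * m + 14 := by
    have := card_sdiff_add_card_eq_card s0
    omega
  obtain ⟨G1, L1, t1, l1, cl1, -, d1, -, -⟩ :=
    unstack_all Y0 V F h s0 (by omega) fun y hy => ((m0 y).1 hy).2
  obtain ⟨U, hU⟩ : ∃ U, U = G1 \ L1 := ⟨_, rfl⟩
  have sU : U ⊆ G1 := hU ▸ sdiff_subset
  have cU : U.card = 3 := by
    have h1 := card_sdiff_add_card_eq_card l1
    have h2 := t1.card
    rw [← hU] at h1
    omega
  have e1 : ∀ v ∈ V \ Y0, deg F v + deg U v = 2 * deg G1 v := fun v hv => by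
    have h1 := d1 v hv
    have h2 := lp_deg_sdiff l1 v
    rw [← hU] at h2
    omega
  have sumU : ∑ v ∈ V \ Y0, deg U v = 9 := by
    rw [sum_deg, sum_congr rfl (g := fun _ => 3) fun t ht => by
      rw [inter_eq_left.2 (t1.sub t (sU ht)), t1.three t (sU ht)], sum_const, cU]
    rfl
  have dU : ∀ v ∈ V \ Y0, (if deg F v = 5 ∨ deg F v = 15 then 1 else 0) = deg U v := by
    rw [← sum_eq_sum_iff_of_le]
    · rw [sumU, ← card_filter, ← cO]
      congr 1
      ext v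
      simp only [mem_filter, mV1]
      constructor
      · tauto
      · rintro ⟨h1, h2⟩
        exact ⟨⟨h1, by omega⟩, h2⟩
    · intro v hv
      have := e1 v hv
      split_ifs <;> omega
  have s1 : Y1 ⊆ V \ Y0 := fun v hv => by
    rw [m1] at hv
    rw [mV1]
    exact ⟨hv.1, by omega⟩
  have cW : ((V \ Y0) \ Y1).card = m + 6 := by
    have := card_sdiff_add_card_eq_card s1
    omega
  have g3 : ∀ y ∈ Y1, deg G1 y = 3 := fun y hy => by
    have h1 := e1 y (s1 hy)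
    have h2 := dU y (s1 hy)
    have h3 := ((m1 y).1 hy).2
    split_ifs at h2 <;> omega
  obtain ⟨G2, L2, t2, l2, cl2, -, d2, n2, -⟩ :=
    unstack_all Y1 (V \ Y0) G1 t1 s1 (by omega) g3
  have eL : L2 = G2 := eq_of_subset_of_card_le l2 (by
    have := t2.card
    omega)
  subst eL
  have mW : ∀ v, v ∈ (V \ Y0) \ Y1 ↔ v ∈ V ∧ (deg F v = 15 ∨ deg F v = 24) := fun v => by
    rw [mem_sdiff, mV1, m1]
    constructor
    · rintro ⟨⟨h1, h2⟩, h3⟩
      have := lp_mem hs h1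
      simp only [h1, true_and] at h3
      exact ⟨h1, by omega⟩
    · rintro ⟨h1, h2⟩
      exact ⟨⟨h1, by omega⟩, fun h3 => by omega⟩
  have sK : K ⊆ (V \ Y0) \ Y1 := fun v hv => by
    rw [mK] at hv
    rw [mW]
    exact ⟨hv.1, Or.inl hv.2⟩
  have sK1 : K ⊆ V \ Y0 := sK.trans sdiff_subset
  have sP : P ⊆ Y1 := fun v hv => by
    rw [mP] at hv
    rw [m1]
    exact ⟨hv.1, Or.inl hv.2⟩
  have uP : ∀ u ∈ U, (u ∩ P).card ≤ 1 := fun u hu => card_le_one.2 fun a ha b hb => by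
    by_contra hab
    rw [mem_inter] at ha hb
    obtain ⟨c, k, -⟩ := t1.toPre.exists_T2 (sU hu) ha.1 hb.1 hab
    exact t1.not_nb33 (by omega) (g3 a (sP ha.2)) (g3 b (sP hb.2)) k.nb
  have uP' : ∀ u ∈ U, (u ∩ P).card = 1 := by
    rw [← sum_eq_sum_iff_of_le uP, ← sum_deg, sum_congr rfl (g := fun _ => 1) fun v hv => by
      rw [← dU v (s1 (sP hv)), if_pos (Or.inl ((mP v).1 hv).2)]]
    simp [cP, cU]
  have uO : ∀ u ∈ U, ∀ v ∈ u, v ∈ P ∨ v ∈ K := fun u hu v hv => by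
    have h1 := t1.sub u (sU hu) hv
    have h2 := dU v h1
    have h3 : 0 < deg U v := card_pos.2 ⟨u, mem_filter.2 ⟨hu, hv⟩⟩
    have h4 := (mem_sdiff.1 h1).1
    rw [mP, mK]
    split_ifs at h2 with h5
    · tauto
    · omega
  have dK : ∀ a ∈ K, deg U a = 1 := fun a ha => by
    rw [← dU a (sK1 ha), if_pos (Or.inr ((mK a).1 ha).2)]
  refine ⟨_, L2, K, fun a b => a ≠ b ∧ a ∈ K ∧ b ∈ K ∧ ∃ u ∈ U, a ∈ u ∧ b ∈ u, t2, cW, sK, cK,
    fun v hv => ?_, fun v hv hvK => ?_, ?_, fun a b k => k.2.1, ?_, fun a ha => ?_, ?_⟩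
  · have h1 := d2 v (sK hv)
    have h2 := e1 v (sK1 hv)
    have h3 := dK v hv
    have h4 := ((mK v).1 hv).2
    omega
  · have h1 := d2 v hv
    have h2 := e1 v (mem_sdiff.1 hv).1
    have h3 := dU v (mem_sdiff.1 hv).1
    have h4 := (mW v).1 hv
    rw [mK] at hvK
    simp only [h4.1, true_and] at hvK
    split_ifs at h3 <;> omega
  · rintro a b ⟨hab, ha, hb, u, hu, hau, hbu⟩
    exact ⟨hab.symm, hb, ha, u, hu, hbu, hau⟩
  · rintro a b ⟨hab, ha, hb, u, hu, hau, hbu⟩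
    obtain ⟨c, k, -⟩ := t1.toPre.exists_T2 (sU hu) hau hbu hab
    exact n2 a (sK ha) b (sK hb) k.nb
  · obtain ⟨u, hu⟩ := card_pos.1 (show 0 < deg U a by rw [dK a ha]; exact one_pos)
    obtain ⟨hu, hau⟩ := mem_filter.1 hu
    obtain ⟨b, c, k, rfl⟩ := t1.toPre.exists_T (sU hu) hau
    rcases uO _ hu b (by simp) with hb | hb
    · rcases uO _ hu c (by simp) with hc | hc
      · exact absurd (card_le_one.1 (uP _ hu) b (mem_inter.2 ⟨by simp, hb⟩) c
          (mem_inter.2 ⟨by simp, hc⟩)) k.rot.nb.ne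
      · exact ⟨c, k.nb'.ne, ha, hc, _, hu, hau, by simp⟩
    · exact ⟨b, k.nb.ne, ha, hb, _, hu, hau, by simp⟩
  · rintro a b c ⟨hab, ha, hb, u, hu, hau, hbu⟩ ⟨hac, -, hc, u', hu', hau', hcu⟩
    obtain rfl : u = u' := card_le_one.1 (dK a ha).le u (mem_filter.2 ⟨hu, hau⟩) u'
      (mem_filter.2 ⟨hu', hau'⟩)
    by_contra hbc
    obtain ⟨x, k, e⟩ := t1.toPre.exists_T2 (sU hu) hau hbu hab
    obtain ⟨p, hp⟩ := card_pos.1 (show 0 < (u ∩ P).card by rw [uP' u hu]; exact one_pos)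
    obtain ⟨hp, hpP⟩ := mem_inter.1 hp
    have hpK : p ∈ K := by
      rw [e] at hp hcu
      simp only [mem_insert, mem_singleton] at hp hcu
      rcases hcu with rfl | rfl | rfl
      · exact absurd rfl hac
      · exact absurd rfl hbc
      · rcases hp with rfl | rfl | rfl
        exacts [ha, hb, hc]
    have h1 := ((mP p).1 hpP).2
    have h2 := ((mK p).1 hpK).2
    omega

end Pool.Agent.P.MP_e40812_co
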