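import Pool.Agent.P.MP_e40812_co.Bridge
import Pool.Agent.P.MP_e40812_co.LoPeel
import Pool.Agent.P.MP_e40812_co.LoBuild

/-!
The line of face vectors on which realisability is a norm condition.
-/

namespace Pool.Agent.P.MP_e40812_co

open Finset

lemma lm_g1 : Gad 1 1 1 {3} :=
  (Gad.zero.comp Gad.zero Gad.zero).cast rfl rfl rfl (by simp)

lemma lm_g2 : Gad 2 2 3 {5, 3, 3} :=
  (Gad.zero.comp lm_g1 lm_g1).cast rfl rfl rfl (by decide)

lemma lm_g3 : Gad 3 3 3 {6, 3, 3, 3} :=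
  (lm_g1.comp lm_g1 lm_g1).cast rfl rfl rfl (by decide)

lemma lm_ne {τ : ℕ → ℕ} {u w c u' w' c' i j : ℕ} (h1 : τ u = i) (h2 : τ w = i) (h3 : τ u' = j)
    (h4 : τ w' = j) (hij : i ≠ j) (hne : u' ≠ w') : ({u', w', c'} : Finset ℕ) ≠ {u, w, c} := by
  intro e
  have k1 : u' ∈ ({u, w, c} : Finset ℕ) := e ▸ (by simp)
  have k2 : w' ∈ ({u, w, c} : Finset ℕ) := e ▸ (by simp)
  simp only [mem_insert, mem_singleton] at k1 k2
  rcases k1 with rfl | rfl | rfl
  · exact hij (h1.symm.trans h3)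
  · exact hij (h2.symm.trans h3)
  · rcases k2 with rfl | rfl | rfl
    · exact hij (h1.symm.trans h4)
    · exact hij (h2.symm.trans h4)
    · exact hne rfl

lemma lm_pair {V : Finset ℕ} {τ : ℕ → ℕ} {u w i : ℕ} (hc : (V.val.map τ).count i = 2)
    (hu : u ∈ V) (hw : w ∈ V) (h1 : τ u = i) (h2 : τ w = i) (hne : u ≠ w) {v : ℕ} (hv : v ∈ V) :
    τ v = i ↔ v = u ∨ v = w := by
  refine ⟨fun h => ?_, by rintro (rfl | rfl) <;> assumption⟩
  rw [Multiset.count_map] at hc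
  have hc' : (V.filter fun a => i = τ a).card = 2 := hc
  have hs : ({u, w} : Finset ℕ) ⊆ V.filter fun a => i = τ a := by
    simp only [insert_subset_iff, singleton_subset_iff, mem_filter]
    exact ⟨⟨hu, h1.symm⟩, hw, h2.symm⟩
  have e := eq_of_subset_of_card_le hs (by rw [hc', card_pair hne])
  have : v ∈ ({u, w} : Finset ℕ) := e ▸ mem_filter.2 ⟨hv, h.symm⟩
  simpa using this

lemma lm_e3 {F : Finset (Finset ℕ)} {u w c : ℕ} (t : T F u w c) (v : ℕ) :
    e3 u w c 2 2 3 v + (if v = u ∨ v = w then 1 else 0) =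
      3 * (if v ∈ ({u, w, c} : Finset ℕ) then 1 else 0) := by
  have k1 := t.1
  have k2 := t.2.1
  have k3 := t.2.2.1
  simp only [e3, mem_insert, mem_singleton]
  split_ifs <;> omega

lemma lm_out {V : Finset ℕ} {F : Finset (Finset ℕ)} {u w c α β γ v : ℕ} (h : Pre V F)
    (t : T F u w c) (hv : v ∉ V) : e3 u w c α β γ v = 0 := by
  have k1 : v ≠ u := fun e => hv (e ▸ h.mem t)
  have k2 : v ≠ w := fun e => hv (e ▸ h.mem t.rot)
  have k3 : v ≠ c := fun e => hv (e ▸ h.mem t.rot')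
  simp [e3, k1, k2, k3]

lemma lm_deg {F : Finset (Finset ℕ)} {s : Finset ℕ} (hs : s ∈ F) (v : ℕ) :
    deg F v = deg (F.erase s) v + if v ∈ s then 1 else 0 := by
  simp only [deg, card_filter]
  rw [← add_sum_erase F _ hs, add_comm]

theorem geo_of_good {m : ℕ}
    (h : Good ({(4, 1), (4, 1), (4, 2), (4, 2), (4, 3), (4, 3)} + Multiset.replicate m (6, 0))
      {1, 2, 3}) :
    ∃ (V : Finset ℕ) (F : Finset (Finset ℕ)), Pre V F ∧ Geo V F ∧ V.val.map (deg F) = sl m := by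
  obtain ⟨V, F, τ, hp, hg, hμ, hE⟩ := h
  obtain ⟨u1, w1, a1, b1, c1, t1⟩ := hE 1 (by simp)
  obtain ⟨u2, w2, a2, b2, c2, t2⟩ := hE 2 (by simp)
  obtain ⟨u3, w3, a3, b3, c3, t3⟩ := hE 3 (by simp)
  have n21 : ({u2, w2, c2} : Finset ℕ) ≠ {u1, w1, c1} := lm_ne a1 b1 a2 b2 (by omega) t2.1
  have n31 : ({u3, w3, c3} : Finset ℕ) ≠ {u1, w1, c1} := lm_ne a1 b1 a3 b3 (by omega) t3.1
  have n32 : ({u3, w3, c3} : Finset ℕ) ≠ {u2, w2, c2} := lm_ne a2 b2 a3 b3 (by omega) t3.1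
  have hτ : V.val.map τ = {1, 1, 2, 2, 3, 3} + Multiset.replicate m 0 := by
    have := congrArg (Multiset.map Prod.snd) hμ
    rw [Multiset.map_map, Multiset.map_add, Multiset.map_replicate] at this
    exact this
  have hcV : V.card = m + 6 := by
    have := congrArg Multiset.card hτ
    simp only [Multiset.card_map, card_val, Multiset.card_add, Multiset.card_replicate,
      Multiset.insert_eq_cons, Multiset.card_cons, Multiset.card_singleton] at this
    omega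
  have hcF : F.card = 2 * m + 8 := by
    have := hp.card
    omega
  have q1 : (V.val.map τ).count 1 = 2 := by
    rw [hτ, Multiset.count_add, Multiset.count_replicate, if_neg (by omega), add_zero]
    decide
  have q2 : (V.val.map τ).count 2 = 2 := by
    rw [hτ, Multiset.count_add, Multiset.count_replicate, if_neg (by omega), add_zero]
    decide
  have q3 : (V.val.map τ).count 3 = 2 := by
    rw [hτ, Multiset.count_add, Multiset.count_replicate, if_neg (by omega), add_zero]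
    decide
  obtain ⟨V₁, F₁, e₁⟩ := lm_g2 V F u1 w1 c1 hp hg t1
  obtain ⟨V₂, F₂, e₂⟩ := lm_g2 V₁ F₁ u2 w2 c2 e₁.pre e₁.geo
    ⟨t2.1, t2.2.1, t2.2.2.1, e₁.keep _ t2.2.2.2 n21⟩
  have e₁₂ := e₁.trans e₂ fun v hv => lm_out hp t2 hv
  obtain ⟨V₃, F₃, e₃⟩ := lm_g2 V₂ F₂ u3 w3 c3 e₂.pre e₂.geo
    ⟨t3.1, t3.2.1, t3.2.2.1, e₁₂.keep _ t3.2.2.2 (not_or.2 ⟨n31, n32⟩)⟩
  have e₁₃ := e₁₂.trans e₃ fun v hv => lm_out hp t3 hv
  have m1 := t1.2.2.2
  have m2 : ({u2, w2, c2} : Finset ℕ) ∈ F.erase {u1, w1, c1} := mem_erase.2 ⟨n21, t2.2.2.2⟩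
  have m3 : ({u3, w3, c3} : Finset ℕ) ∈ (F.erase {u1, w1, c1}).erase {u2, w2, c2} :=
    mem_erase.2 ⟨n32, mem_erase.2 ⟨n31, t3.2.2.2⟩⟩
  obtain ⟨R, hR⟩ : ∃ R, R = ((F.erase {u1, w1, c1}).erase {u2, w2, c2}).erase {u3, w3, c3} :=
    ⟨_, rfl⟩
  have hRF : ∀ s ∈ R, s ∈ F := fun s hs => by
    rw [hR] at hs
    exact mem_of_mem_erase (mem_of_mem_erase (mem_of_mem_erase hs))
  have hcR : R.card = 2 * m + 5 := by
    rw [hR, card_erase_of_mem m3, card_erase_of_mem m2, card_erase_of_mem m1, hcF]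
    omega
  obtain ⟨V₄, F₄, e₄⟩ := apply_all 3 (Multiset.replicate (2 * m + 5) {6, 3, 3, 3})
    (fun μ hμ => by rw [Multiset.eq_of_mem_replicate hμ]; exact lm_g3) V₃ F₃ R e₃.pre e₃.geo
    (fun s hs => e₁₃.keep s (hRF s hs) (by
      rw [hR] at hs
      simp only [mem_erase] at hs
      tauto))
    (by rw [hcR, Multiset.card_replicate])
  have e := e₁₃.trans e₄ fun v hv => by
    rw [deg, filter_eq_empty_iff.2 fun s hs k => hv (hp.sub s (hRF s hs) k)]
    simp
  refine ⟨V₄, F₄, e.pre, e.geo, ?_⟩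
  have key : V.val.map (fun v => deg F v + (e3 u1 w1 c1 2 2 3 v + e3 u2 w2 c2 2 2 3 v +
      e3 u3 w3 c3 2 2 3 v + 3 * deg R v)) = (V.val.map (fun v => (deg F v, τ v))).map
        fun p => 4 * p.1 - ((if p.2 = 1 then 1 else 0) + (if p.2 = 2 then 1 else 0) +
          if p.2 = 3 then 1 else 0) := by
    rw [Multiset.map_map]
    refine Multiset.map_congr rfl fun v hv => ?_
    have d1 := lm_deg m1 v
    have d2 := lm_deg m2 v
    have d3 := lm_deg m3 v
    rw [← hR] at d3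
    have f1 := lm_e3 t1 v
    have f2 := lm_e3 t2 v
    have f3 := lm_e3 t3 v
    have p1 := lm_pair q1 (hp.mem t1) (hp.mem t1.rot) a1 b1 t1.1 hv
    have p2 := lm_pair q2 (hp.mem t2) (hp.mem t2.rot) a2 b2 t2.1 hv
    have p3 := lm_pair q3 (hp.mem t3) (hp.mem t3.rot) a3 b3 t3.1 hv
    simp only [← p1] at f1
    simp only [← p2] at f2
    simp only [← p3] at f3
    simp only [Function.comp]
    omega
  rw [e.all, key, hμ, Multiset.map_add, Multiset.map_replicate, Multiset.sum_replicate]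
  have s1 : Multiset.map (fun p : ℕ × ℕ => 4 * p.1 - ((if p.2 = 1 then 1 else 0) +
      (if p.2 = 2 then 1 else 0) + if p.2 = 3 then 1 else 0))
      {(4, 1), (4, 1), (4, 2), (4, 2), (4, 3), (4, 3)} = Multiset.replicate 6 15 := by decide
  have s2 : ({6, 3, 3, 3} : Multiset ℕ) = Multiset.replicate 1 6 + Multiset.replicate 3 3 := by
    decide
  have s3 : ({5, 3, 3} : Multiset ℕ) + {5, 3, 3} + {5, 3, 3} =
      Multiset.replicate 3 5 + Multiset.replicate 6 3 := by decide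
  rw [s1, s2, s3, smul_add, Multiset.nsmul_replicate, Multiset.nsmul_replicate, sl,
    show 6 * m + 21 = 6 + (2 * m + 5) * 3 by ring, Multiset.replicate_add 6, mul_one]
  simp only [Nat.reduceMul, OfNat.zero_ne_ofNat, zero_ne_one, if_false, add_zero, tsub_zero]
  abel

lemma lm_nat {n : ℕ} {u v : ℤ} (h : (n : ℤ) = u ^ 2 + u * v + v ^ 2) (hu : 0 ≤ u) (hv : 0 ≤ v) :
    ∃ a b : ℕ, n = a ^ 2 + a * b + b ^ 2 := by
  lift u to ℕ using hu
  lift v to ℕ using hv
  exact ⟨u, v, by exact_mod_cast h⟩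

lemma norm_nat {n : ℕ} {x y : ℤ} (h : 3 * (n : ℤ) = x ^ 2 - x * y + y ^ 2) :
    ∃ a b : ℕ, n = a ^ 2 + a * b + b ^ 2 := by
  have h3 : (3 : ℤ) ∣ (x + y) ^ 2 := ⟨n + x * y, by linear_combination -h⟩
  obtain ⟨c, hc⟩ := Int.prime_three.dvd_of_dvd_pow h3
  obtain ⟨u, hu⟩ : ∃ u, u = x - 2 * c := ⟨_, rfl⟩
  have e : (n : ℤ) = u ^ 2 + u * c + c ^ 2 := by
    have hy : y = 3 * c - x := by linarith
    subst hy hu
    nlinarith
  rcases le_total 0 u with h1 | h1 <;> rcases le_total 0 c with h2 | h2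
  · exact lm_nat e h1 h2
  · rcases le_total 0 (u + c) with k | k
    · exact lm_nat (u := u + c) (v := -c) (by linear_combination e) k (by linarith)
    · exact lm_nat (u := -u - c) (v := u) (by linear_combination e) (by linarith) h1
  · rcases le_total 0 (u + c) with k | k
    · exact lm_nat (u := u + c) (v := -u) (by linear_combination e) k (by linarith)
    · exact lm_nat (u := -u - c) (v := c) (by linear_combination e) (by linarith) h2
  · exact lm_nat (u := -u) (v := -c) (by linear_combination e) (by linarith) (by linarith)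

theorem slice (m : ℕ) : (∃ P, IsPolyhedron P ∧ ∀ n, 3 ≤ n → faceCount P n = (sl m).count n) ↔
    ∃ x y : ℕ, m + 7 = x ^ 2 + x * y + y ^ 2 := by
  classical
  constructor
  · rintro ⟨P, hP, hc⟩
    obtain ⟨V, F, h, hs⟩ := tri_of_poly hP (s := sl m) (by
      intro n hn
      simp only [sl, Multiset.mem_add, Multiset.mem_replicate] at hn
      omega) hc (by
      simp only [sl, Multiset.sum_add, Multiset.sum_replicate, Multiset.card_add,
        Multiset.card_replicate, smul_eq_mul]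
      omega)
    obtain ⟨W, G, K, M, h1, h2, h3⟩ := peel_two h hs
    obtain ⟨x, y, e⟩ := h3.norm h1
    refine norm_nat (x := x) (y := y) ?_
    rw [← e, h2]
    push_cast
    ring
  · rintro ⟨x, y, e⟩
    obtain ⟨V, F, h, g, hs⟩ := geo_of_good (good_of_norm e)
    obtain ⟨P, hP, hc⟩ := poly_of_geo h g
    exact ⟨P, hP, fun n _ => by rw [hc, hs]⟩

end Pool.Agent.P.MP_e40812_co
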