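import Pool.Agent.P.MP_e40812_co.LoMain
import Pool.Agent.P.MP_e40812_co.LoExp

/-!
The face vectors of convex polyhedra with at most 24-sided faces do not form an explicit set.
-/

namespace Pool.Agent.P.MP_e40812_co

lemma mem_real24 (m : ℕ) : (fun i : Fin 22 => (sl 0).count (i + 3 : ℕ)) +
    m • (fun i : Fin 22 => (Multiset.replicate 6 3 + Multiset.replicate 2 6 + {24} :
      Multiset ℕ).count (i + 3 : ℕ)) ∈ Real24 ↔ ∃ x y : ℕ, m + 7 = x ^ 2 + x * y + y ^ 2 := by
  have e : ∀ n, (sl m).count n = (sl 0).count n +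
      m * (Multiset.replicate 6 3 + Multiset.replicate 2 6 + {24} : Multiset ℕ).count n := by
    intro n
    simp only [sl, Multiset.count_add, Multiset.count_replicate, Multiset.count_singleton]
    split_ifs <;> omega
  have z : ∀ n, 24 < n → (sl m).count n = 0 := by
    intro n hn
    simp only [sl, Multiset.count_add, Multiset.count_replicate]
    split_ifs <;> omega
  rw [← slice]
  refine exists_congr fun P => and_congr_right fun _ => ⟨fun h n hn => ?_, fun h => ⟨?_, ?_⟩⟩
  · by_cases k : 24 < n
    · rw [h.2 n k, z n k]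
    · have := h.1 ⟨n - 3, by omega⟩
      simp only [Pi.add_apply, Pi.smul_apply, smul_eq_mul, Nat.sub_add_cancel hn] at this
      rw [this, e]
  · intro i
    simp only [Pi.add_apply, Pi.smul_apply, smul_eq_mul]
    rw [h _ (by omega), e]
  · intro n hn
    rw [h n (by omega), z n hn]

theorem not_explicit : ¬ Explicit Real24 := by
  intro h
  obtain ⟨q, N, hq, h⟩ := h.periodic (fun i : Fin 22 => (sl 0).count (i + 3 : ℕ))
    (fun i : Fin 22 => (Multiset.replicate 6 3 + Multiset.replicate 2 6 + {24} :
      Multiset ℕ).count (i + 3 : ℕ))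
  refine norm_not_periodic ⟨q, N, hq, fun m hm => ?_⟩
  rw [← mem_real24, ← mem_real24]
  exact h m hm

end Pool.Agent.P.MP_e40812_co
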