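import Pool.Agent.P.MP_e40812_co.Build

/-!
Splitting a vertex of a realised triangle system.
-/

namespace Pool.Agent.P.MP_e40812_co

open Finset

variable {ι : Type*} [DecidableEq ι]

/-- The vertex `o` is split: the triangles of `A` go to the new vertex `y`. -/
def spl (F A : Finset (Finset ι)) (o y a b : ι) : Finset (Finset ι) :=
  insert {o, y, a} (insert {o, y, b} ((F \ A) ∪ A.image fun t => insert y (t.erase o)))

/-- `A` is one of the two arcs of triangles at `o` between the edges `oa` and `ob`. -/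
structure Cut (F A : Finset (Finset ι)) (o a b : ι) : Prop where
  sub : A ⊆ F
  mem : ∀ t ∈ A, o ∈ t
  ne : a ≠ b
  na : Nb F o a
  nb : Nb F o b
  closed : ∀ r s s', r ≠ a → r ≠ b → T F o r s → T F o r s' → {o, r, s} ∈ A → {o, r, s'} ∈ A
  cut : ∀ r s s', r = a ∨ r = b → T F o r s → T F o r s' → s ≠ s' →
    ({o, r, s} ∈ A ↔ {o, r, s'} ∉ A)
  conn : ∀ S : Finset ι → Prop,
    (∀ r s s', r ≠ a → r ≠ b → T F o r s → T F o r s' → S {o, r, s} → S {o, r, s'}) →
    ∀ t ∈ F, ∀ t' ∈ F, o ∈ t → o ∈ t' → (t ∈ A ↔ t' ∈ A) → S t → S t'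

variable {V : Finset ι} {F A : Finset (Finset ι)} {o y a b p q r : ι}

lemma mem_spl {s : Finset ι} : s ∈ spl F A o y a b ↔
    s = {o, y, a} ∨ s = {o, y, b} ∨ (s ∈ F ∧ s ∉ A) ∨ ∃ t ∈ A, insert y (t.erase o) = s := by
  simp only [spl, mem_insert, mem_union, mem_sdiff, mem_image]

lemma erase_tri (k : T F o q r) : ({o, q, r} : Finset ι).erase o = {q, r} :=
  erase_insert (by simp [k.1, k.2.1])

lemma Cut.symm (c : Cut F A o a b) : Cut F A o b a :=
  ⟨c.sub, c.mem, c.ne.symm, c.nb, c.na, fun r s s' h1 h2 => c.closed r s s' h2 h1,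
    fun r s s' h => c.cut r s s' h.symm,
    fun S hS => c.conn S fun r s s' h1 h2 => hS r s s' h2 h1⟩

lemma Cut.both (h : Pre V F) (c : Cut F A o a b) (hq : q = a ∨ q = b) :
    ∃ s s', T F o q s ∧ T F o q s' ∧ ({o, q, s} : Finset ι) ∈ A ∧ ({o, q, s'} : Finset ι) ∉ A := by
  obtain ⟨s, k⟩ : Nb F o q := by
    rcases hq with rfl | rfl
    · exact c.na
    · exact c.nb
  obtain ⟨d, hd, k'⟩ := h.next k
  have := c.cut q s d hq k k' hd.symm
  by_cases e : ({o, q, s} : Finset ι) ∈ A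
  · exact ⟨s, d, k, k', e, this.1 e⟩
  · exact ⟨d, s, k', k, by_contra fun e' => e (this.2 e'), e⟩

lemma spl_keep (k : T F p q r) (hA : ({p, q, r} : Finset ι) ∉ A) : T (spl F A o y a b) p q r :=
  ⟨k.1, k.2.1, k.2.2.1, mem_spl.2 (Or.inr (Or.inr (Or.inl ⟨k.2.2.2, hA⟩)))⟩

lemma spl_move (hy : ∀ s ∈ F, y ∉ s) (k : T F o q r) (hA : ({o, q, r} : Finset ι) ∈ A) :
    T (spl F A o y a b) y q r :=
  ⟨(fresh hy k).2.1, (fresh hy k).2.2, k.2.2.1,
    mem_spl.2 (Or.inr (Or.inr (Or.inr ⟨_, hA, by rw [erase_tri k]⟩)))⟩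

lemma spl_mid (hy : ∀ s ∈ F, y ∉ s) (c : Cut F A o a b) (hq : q = a ∨ q = b) :
    T (spl F A o y a b) o y q := by
  rcases hq with rfl | rfl
  · obtain ⟨s, k⟩ := c.na
    exact ⟨(fresh hy k).1.symm, k.1, (fresh hy k).2.1, mem_spl.2 (Or.inl rfl)⟩
  · obtain ⟨s, k⟩ := c.nb
    exact ⟨(fresh hy k).1.symm, k.1, (fresh hy k).2.1, mem_spl.2 (Or.inr (Or.inl rfl))⟩

lemma spl_inv0 (k : T (spl F A o y a b) p q r) (hp : p ≠ y) (hq : q ≠ y) (hr : r ≠ y) :
    T F p q r ∧ ({p, q, r} : Finset ι) ∉ A := by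
  have hn : y ∉ ({p, q, r} : Finset ι) := by simp [hp.symm, hq.symm, hr.symm]
  rcases mem_spl.1 k.2.2.2 with e | e | e | ⟨t, -, e⟩
  · exact absurd (by simp) (e ▸ hn)
  · exact absurd (by simp) (e ▸ hn)
  · exact ⟨⟨k.1, k.2.1, k.2.2.1, e.1⟩, e.2⟩
  · exact absurd (by simp) (e ▸ hn)

lemma spl_inv1 (hy : ∀ s ∈ F, y ∉ s) (c : Cut F A o a b) (k : T (spl F A o y a b) y q r)
    (hq : q ≠ o) (hr : r ≠ o) : T F o q r ∧ ({o, q, r} : Finset ι) ∈ A := by
  have hyo : y ≠ o := (spl_mid hy c (Or.inl rfl)).1.symm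
  have hn : o ∉ ({y, q, r} : Finset ι) := by simp [hyo.symm, hq.symm, hr.symm]
  rcases mem_spl.1 k.2.2.2 with e | e | e | ⟨t, ht, e⟩
  · exact absurd (by simp) (e ▸ hn)
  · exact absurd (by simp) (e ▸ hn)
  · exact absurd (by simp) (hy _ e.1)
  · have e1 : t.erase o = {q, r} := by
      have h1 : y ∉ t.erase o := fun hh => hy t (c.sub ht) (mem_of_mem_erase hh)
      rw [← erase_insert h1, e, erase_insert (by simp [k.1, k.2.1])]
    have e2 : t = {o, q, r} := by rw [← e1, insert_erase (c.mem t ht)]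
    exact ⟨⟨hq.symm, hr.symm, k.2.2.1, e2 ▸ c.sub ht⟩, e2 ▸ ht⟩

lemma spl_inv2 (hy : ∀ s ∈ F, y ∉ s) (k : T (spl F A o y a b) o y r) : r = a ∨ r = b := by
  rcases mem_spl.1 k.2.2.2 with e | e | e | ⟨t, ht, e⟩
  · exact Or.inl (tri_inj e k.2.1 k.2.2.1)
  · exact Or.inr (tri_inj e k.2.1 k.2.2.1)
  · exact absurd (by simp) (hy _ e.1)
  · have : o ∈ insert y (t.erase o) := e ▸ by simp
    simp [k.1] at this

lemma sum_spl (hy : ∀ s ∈ F, y ∉ s) (c : Cut F A o a b) (f : Finset ι → ℕ) :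
    ∑ s ∈ spl F A o y a b, f s = f {o, y, a} + f {o, y, b} + ∑ s ∈ F \ A, f s +
      ∑ t ∈ A, f (insert y (t.erase o)) := by
  have ka := spl_mid hy c (Or.inl rfl)
  have kb := spl_mid hy c (Or.inr rfl)
  have out : ∀ x, ({o, y, x} : Finset ι) ∉ (F \ A) ∪ A.image fun t => insert y (t.erase o) := by
    intro x hx
    rcases mem_union.1 hx with hx | hx
    · exact hy _ (mem_sdiff.1 hx).1 (by simp)
    · obtain ⟨t, -, e⟩ := mem_image.1 hx
      have : o ∈ insert y (t.erase o) := e ▸ by simp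
      simp [ka.1] at this
  have h1 : ({o, y, a} : Finset ι) ∉
      insert {o, y, b} ((F \ A) ∪ A.image fun t => insert y (t.erase o)) := by
    rw [mem_insert, not_or]
    exact ⟨fun e => c.ne (tri_inj e ka.2.1 ka.2.2.1), out a⟩
  have h2 : Disjoint (F \ A) (A.image fun t => insert y (t.erase o)) := by
    rw [disjoint_right]
    intro s hs hs'
    obtain ⟨t, -, rfl⟩ := mem_image.1 hs
    exact hy _ (mem_sdiff.1 hs').1 (by simp)
  have h3 : ∀ t ∈ A, ∀ t' ∈ A, insert y (t.erase o) = insert y (t'.erase o) → t = t' := by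
    intro t ht t' ht' e
    have k1 : y ∉ t.erase o := fun hh => hy t (c.sub ht) (mem_of_mem_erase hh)
    have k2 : y ∉ t'.erase o := fun hh => hy t' (c.sub ht') (mem_of_mem_erase hh)
    rw [← insert_erase (c.mem t ht), ← erase_insert k1, e, erase_insert k2,
      insert_erase (c.mem t' ht')]
  rw [spl, sum_insert h1, sum_insert (out b), sum_union h2, sum_image h3]
  ring

lemma Pre.spl (h : Pre V F) (c : Cut F A o a b) (hV : y ∉ V) :
    Pre (insert y V) (spl F A o y a b) := by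
  have hy : ∀ s ∈ F, y ∉ s := fun s hs hy => hV (h.sub s hs hy)
  have ka := spl_mid hy c (Or.inl rfl)
  have kb := spl_mid hy c (Or.inr rfl)
  have ho := h.nb_mem c.na
  have ha := h.nb_mem c.na.symm
  have hb := h.nb_mem c.nb.symm
  have N1 : ∀ {r}, T (Pool.Agent.P.MP_e40812_co.spl F A o y a b) o y r →
      ∃ d, d ≠ r ∧ T (Pool.Agent.P.MP_e40812_co.spl F A o y a b) o y d := by
    intro r _
    by_cases e : r = a
    · exact ⟨b, e ▸ c.ne.symm, kb⟩
    · exact ⟨a, Ne.symm e, ka⟩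
  have N2 : ∀ {q r}, q ≠ y → T (Pool.Agent.P.MP_e40812_co.spl F A o y a b) o q r →
      ∃ d, d ≠ r ∧ T (Pool.Agent.P.MP_e40812_co.spl F A o y a b) o q d := by
    intro q r hq k
    by_cases e : r = y
    · subst e
      obtain ⟨s, s', -, k2, -, k4⟩ := c.both h (spl_inv2 hy k.s23)
      exact ⟨s', (fresh hy k2).2.2.symm, spl_keep k2 k4⟩
    obtain ⟨k1, k2⟩ := spl_inv0 k ka.1 hq e
    by_cases e' : q = a ∨ q = b
    · exact ⟨y, Ne.symm e, (spl_mid hy c e').s23⟩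
    obtain ⟨d, hd, k3⟩ := h.next k1
    rw [not_or] at e'
    exact ⟨d, hd, spl_keep k3 fun hh => k2 (c.closed q d r e'.1 e'.2 k3 k1 hh)⟩
  have N3 : ∀ {q r}, q ≠ o → T (Pool.Agent.P.MP_e40812_co.spl F A o y a b) y q r →
      ∃ d, d ≠ r ∧ T (Pool.Agent.P.MP_e40812_co.spl F A o y a b) y q d := by
    intro q r hq k
    by_cases e : r = o
    · subst e
      obtain ⟨s, s', k1, -, k3, -⟩ := c.both h (spl_inv2 hy k.rot')
      exact ⟨s, k1.2.1.symm, spl_move hy k1 k3⟩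
    obtain ⟨k1, k2⟩ := spl_inv1 hy c k hq e
    by_cases e' : q = a ∨ q = b
    · exact ⟨o, Ne.symm e, (spl_mid hy c e').rot⟩
    obtain ⟨d, hd, k3⟩ := h.next k1
    rw [not_or] at e'
    exact ⟨d, hd, spl_move hy k3 (c.closed q r d e'.1 e'.2 k1 k3 k2)⟩
  have N4 : ∀ {p q r₀ r}, p ≠ o → q ≠ o → T F p q r₀ → (r = r₀ ∧ r ≠ y ∨ r₀ = o ∧ r = y) →
      ∃ d, d ≠ r ∧ T (Pool.Agent.P.MP_e40812_co.spl F A o y a b) p q d := by
    intro p q r₀ r hp hq k hr
    obtain ⟨d, hd, k1⟩ := h.next k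
    by_cases e : ({p, q, d} : Finset ι) ∈ A
    · have e1 : d = o := by
        have := c.mem _ e
        simp only [mem_insert, mem_singleton, hp.symm, hq.symm, false_or] at this
        exact this.symm
      subst e1
      refine ⟨y, ?_, (spl_move hy k1.rot' (by rwa [tri12, tri23])).rot⟩
      rcases hr with hr | hr
      · exact hr.2.symm
      · exact absurd hr.1.symm hd
    · refine ⟨d, ?_, spl_keep k1 e⟩
      rcases hr with hr | hr
      · exact hr.1 ▸ hd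
      · exact hr.2 ▸ (fresh hy k1).2.2.symm
  refine ⟨fun t ht => ?_, fun t ht => ?_, fun v hv => ?_, fun {p q r} k => ?_, ?_⟩
  · rcases mem_spl.1 ht with rfl | rfl | e | ⟨s, hs, rfl⟩
    · exact ka.card
    · exact kb.card
    · exact h.three t e.1
    · rw [card_insert_of_notMem fun hh => hy s (c.sub hs) (mem_of_mem_erase hh),
        card_erase_of_mem (c.mem s hs), h.three s (c.sub hs)]
  · rcases mem_spl.1 ht with rfl | rfl | e | ⟨s, hs, rfl⟩
    · simp [insert_subset_iff, ho, ha]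
    · simp [insert_subset_iff, ho, hb]
    · exact (h.sub t e.1).trans (subset_insert _ _)
    · exact insert_subset_insert _ ((erase_subset _ _).trans (h.sub s (c.sub hs)))
  · by_cases e : v = o ∨ v = y
    · exact ⟨_, ka.2.2.2, by rcases e with rfl | rfl <;> simp⟩
    rw [not_or] at e
    obtain ⟨t, ht, hvt⟩ := h.cover v ((mem_insert.1 hv).resolve_left e.2)
    by_cases e' : t ∈ A
    · exact ⟨_, mem_spl.2 (Or.inr (Or.inr (Or.inr ⟨t, e', rfl⟩))), by simp [e.1, hvt]⟩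
    · exact ⟨t, mem_spl.2 (Or.inr (Or.inr (Or.inl ⟨ht, e'⟩))), hvt⟩
  · by_cases p1 : p = o
    · subst p1
      by_cases q1 : q = y
      · subst q1
        exact N1 k
      · exact N2 q1 k
    by_cases q1 : q = o
    · subst q1
      by_cases p2 : p = y
      · subst p2
        exact (N1 k.s12).imp fun d hd => ⟨hd.1, hd.2.s12⟩
      · exact (N2 p2 k.s12).imp fun d hd => ⟨hd.1, hd.2.s12⟩
    by_cases p2 : p = y
    · subst p2
      exact N3 q1 k
    by_cases q2 : q = y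
    · subst q2
      exact (N3 p1 k.s12).imp fun d hd => ⟨hd.1, hd.2.s12⟩
    by_cases r2 : r = y
    · subst r2
      exact N4 p1 q1 (spl_inv1 hy c k.rot' p1 q1).1.rot (Or.inr ⟨rfl, rfl⟩)
    · exact N4 p1 q1 (spl_inv0 k p2 q2 r2).1 (Or.inl ⟨rfl, r2⟩)
  · have := sum_spl hy c fun _ => 1
    simp only [sum_const, smul_eq_mul, mul_one] at this
    have h1 := card_sdiff_add_card_eq_card c.sub
    have h2 := h.card
    rw [card_insert_of_notMem hV]
    omega

lemma deg_spl_new (h : Pre V F) (c : Cut F A o a b) (hV : y ∉ V) :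
    deg (spl F A o y a b) y = A.card + 2 := by
  have hy : ∀ s ∈ F, y ∉ s := fun s hs hy => hV (h.sub s hs hy)
  rw [deg, card_filter, sum_spl hy c, sum_congr rfl fun s hs => if_neg (hy s (mem_sdiff.1 hs).1)]
  simp
  omega

lemma deg_spl (h : Pre V F) (c : Cut F A o a b) (hV : y ∉ V) {v : ι} (h1 : v ≠ o) (h2 : v ≠ y) :
    deg (spl F A o y a b) v = deg F v + if v = a ∨ v = b then 1 else 0 := by
  have hy : ∀ s ∈ F, y ∉ s := fun s hs hy => hV (h.sub s hs hy)
  have hab := c.ne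
  rw [deg, card_filter, sum_spl hy c, deg, card_filter, ← sum_sdiff c.sub]
  simp only [mem_insert, mem_singleton, mem_erase, h1, h2, false_or, ne_eq, not_false_eq_true,
    true_and]
  by_cases e1 : v = a
  · subst e1
    simp only [hab, if_true, if_false, true_or]
    ring
  by_cases e2 : v = b
  · subst e2
    simp only [e1, if_true, if_false, or_true]
    ring
  simp only [e1, e2, if_false, or_self]
  ring

lemma nb_spl (h : Pre V F) (c : Cut F A o a b) (hV : y ∉ V) {p q : ι} (h1 : p ≠ o) (h2 : q ≠ o)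
    (k : Nb F p q) : Nb (spl F A o y a b) p q := by
  have hy : ∀ s ∈ F, y ∉ s := fun s hs hy => hV (h.sub s hs hy)
  obtain ⟨d, k⟩ := k
  by_cases e : ({p, q, d} : Finset ι) ∈ A
  · have e1 : d = o := by
      have := c.mem _ e
      simp only [mem_insert, mem_singleton, h1.symm, h2.symm, false_or] at this
      exact this.symm
    subst e1
    exact (spl_move hy k.rot' (by rwa [tri12, tri23])).rot.nb
  · exact (spl_keep k e).nb

lemma nb_spl_new (h : Pre V F) (c : Cut F A o a b) (hV : y ∉ V) {t : Finset ι} (ht : t ∈ A)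
    {p : ι} (hp : p ∈ t) (h1 : p ≠ o) : Nb (spl F A o y a b) y p := by
  have hy : ∀ s ∈ F, y ∉ s := fun s hs hy => hV (h.sub s hs hy)
  obtain ⟨d, k, rfl⟩ := h.exists_T2 (c.sub ht) (c.mem t ht) hp h1.symm
  exact (spl_move hy k ht).nb

lemma filter_spl (h : Pre V F) (c : Cut F A o a b) (hV : y ∉ V) :
    ((spl F A o y a b).filter fun t => o ∈ t) =
      insert {o, y, a} (insert {o, y, b} ((F.filter fun t => o ∈ t) \ A)) := by
  have hy : ∀ s ∈ F, y ∉ s := fun s hs hy => hV (h.sub s hs hy)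
  have ka := spl_mid hy c (Or.inl rfl)
  ext s
  simp only [mem_filter, mem_spl, mem_insert, mem_sdiff]
  constructor
  · rintro ⟨e | e | e | ⟨t, -, rfl⟩, hs⟩
    · exact Or.inl e
    · exact Or.inr (Or.inl e)
    · exact Or.inr (Or.inr ⟨⟨e.1, hs⟩, e.2⟩)
    · simp [ka.1] at hs
  · rintro (rfl | rfl | e)
    · exact ⟨Or.inl rfl, by simp⟩
    · exact ⟨Or.inr (Or.inl rfl), by simp⟩
    · exact ⟨Or.inr (Or.inr (Or.inl ⟨e.1.1, e.2⟩)), e.1.2⟩

lemma exists_form {u₁ u₂ : EuclideanSpace ℝ (Fin 3)} {f g : EuclideanSpace ℝ (Fin 3) →ₗ[ℝ] ℝ}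
    (h1 : f u₁ = 1) (h2 : f u₂ = 1) (h3 : g u₁ = 1) (h4 : g u₂ < 1) :
    ∃ l : EuclideanSpace ℝ (Fin 3) →ₗ[ℝ] ℝ, l u₁ = 0 ∧ l u₂ = 0 ∧
      ∀ z, l z = 0 → ∃ α β : ℝ, α • u₁ + β • u₂ = z := by
  have li : LinearIndependent ℝ ![u₁, u₂] := by
    rw [LinearIndependent.pair_iff]
    intro s t e
    have e1 := congrArg f e
    have e2 := congrArg g e
    simp only [map_add, map_smul, smul_eq_mul, map_zero, h1, h2, h3] at e1 e2
    have : t * (1 - g u₂) = 0 := by linarith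
    have ht : t = 0 := (mul_eq_zero.1 this).resolve_right (by linarith)
    exact ⟨by rw [ht] at e1; linarith, ht⟩
  have d2 : Module.finrank ℝ (Submodule.span ℝ ({u₁, u₂} : Set (EuclideanSpace ℝ (Fin 3)))) = 2 := by
    have := finrank_span_eq_card li
    rwa [Matrix.range_cons_cons_empty, Fintype.card_fin] at this
  obtain ⟨l, hl, hl'⟩ := Submodule.exists_dual_map_eq_bot_of_lt_top
    (p := Submodule.span ℝ ({u₁, u₂} : Set (EuclideanSpace ℝ (Fin 3))))
    (lt_top_iff_ne_top.2 fun e => by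
      rw [e, finrank_top] at d2
      simp at d2) inferInstance
  have le : Submodule.span ℝ ({u₁, u₂} : Set (EuclideanSpace ℝ (Fin 3))) ≤ LinearMap.ker l := by
    intro z hz
    have := Submodule.mem_map_of_mem (f := l) hz
    rwa [hl', Submodule.mem_bot] at this
  have d3 := Module.Dual.finrank_ker_add_one_of_ne_zero hl
  have e := Submodule.eq_of_le_of_finrank_le le (by
    rw [d2]
    simp only [finrank_euclideanSpace, Fintype.card_fin] at d3
    omega)
  refine ⟨l, le (Submodule.subset_span (by simp)), le (Submodule.subset_span (by simp)),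
    fun z hz => Submodule.mem_span_pair.1 (e ▸ hz)⟩

lemma ev_lt {f : ℝ → ℝ} {k : ℝ} (hf : ContinuousAt f 0) (h : f 0 < k) :
    ∀ᶠ ε in nhdsWithin (0 : ℝ) (Set.Ioi 0), f ε < k :=
  (hf.eventually_lt continuousAt_const h).filter_mono nhdsWithin_le_nhds

lemma Geo.spl (h : Pre V F) (g : Geo V F) (c : Cut F A o a b) (hV : y ∉ V) :
    Geo (insert y V) (spl F A o y a b) := by
  obtain ⟨φ, x, g⟩ := g
  have hy : ∀ s ∈ F, y ∉ s := fun s hs hy => hV (h.sub s hs hy)
  have ho := h.nb_mem c.na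
  have ha := h.nb_mem c.na.symm
  have hb := h.nb_mem c.nb.symm
  have le : ∀ s ∈ F, ∀ v ∈ V, φ v (x s) ≤ 1 := fun s hs v hv => by
    by_cases k : v ∈ s
    · exact ((g s hs v hv).1 k).le
    · exact ((g s hs v hv).2 k).le
  have mid : ∀ q, q = a ∨ q = b → ∃ t ∈ A, ∃ t' ∈ F, t' ∉ A ∧ o ∈ t' ∧
      φ o ((1 / 2 : ℝ) • (x t + x t')) = 1 ∧ φ q ((1 / 2 : ℝ) • (x t + x t')) = 1 ∧
      ∀ v ∈ V, v ≠ o → v ≠ q → φ v ((1 / 2 : ℝ) • (x t + x t')) < 1 := by
    intro q hq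
    obtain ⟨s, s', k1, k2, k3, k4⟩ := c.both h hq
    have hq' := h.mem k1.rot
    refine ⟨_, k3, _, k2.2.2.2, k4, by simp, ?_, ?_, fun v hv h1 h2 => ?_⟩ <;>
      rw [map_smul, map_add, smul_eq_mul]
    · rw [(g _ k1.2.2.2 o ho).1 (by simp), (g _ k2.2.2.2 o ho).1 (by simp)]
      norm_num
    · rw [(g _ k1.2.2.2 q hq').1 (by simp), (g _ k2.2.2.2 q hq').1 (by simp)]
      norm_num
    · have l1 := le _ k1.2.2.2 v hv
      have l2 := le _ k2.2.2.2 v hv
      by_cases e : v = s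
      · have : v ≠ s' := fun e' => k4 (e' ▸ e ▸ k3)
        linarith [(g _ k2.2.2.2 v hv).2 (by simp [h1, h2, this])]
      · linarith [(g _ k1.2.2.2 v hv).2 (by simp [h1, h2, e])]
  obtain ⟨ta, hta, ta', hta', nta', ota', a1, a2, a3⟩ := mid a (Or.inl rfl)
  obtain ⟨tb, -, tb', -, -, -, b1, b2, b3⟩ := mid b (Or.inr rfl)
  obtain ⟨u₁, hu₁⟩ : ∃ u, u = (1 / 2 : ℝ) • (x ta + x ta') := ⟨_, rfl⟩
  obtain ⟨u₂, hu₂⟩ : ∃ u, u = (1 / 2 : ℝ) • (x tb + x tb') := ⟨_, rfl⟩
  rw [← hu₁] at a1 a2 a3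
  rw [← hu₂] at b1 b2 b3
  have a4 := b3 a ha c.na.ne.symm c.ne
  have b4 := a3 b hb c.nb.ne.symm c.ne.symm
  have key : ∀ l : EuclideanSpace ℝ (Fin 3) →ₗ[ℝ] ℝ, (∀ z, l z = 0 → ∃ α β : ℝ, α • u₁ + β • u₂ = z) →
      ∀ z, φ o z = 1 → φ a z ≤ 1 → φ b z ≤ 1 → l z = 0 →
        (∀ v ∈ V, v ≠ o → v ≠ a → v ≠ b → φ v z < 1) ∧ (φ a z < 1 ∨ φ b z < 1) := by
    intro l hl z z1 z2 z3 z4
    obtain ⟨α, β, rfl⟩ := hl z z4
    simp only [map_add, map_smul, smul_eq_mul, a1, a2, b1, b2, mul_one] at z1 z2 z3 ⊢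
    have hβ : 0 ≤ β := by
      by_contra hh
      nlinarith [mul_pos (sub_pos.2 a4) (neg_pos.2 (not_le.1 hh))]
    have hα : 0 ≤ α := by
      by_contra hh
      nlinarith [mul_pos (sub_pos.2 b4) (neg_pos.2 (not_le.1 hh))]
    refine ⟨fun v hv h1 h2 h3 => ?_, ?_⟩
    · have e1 := a3 v hv h1 h2
      have e2 := b3 v hv h1 h3
      rcases hα.eq_or_lt with e | e
      · rw [← e] at z1 ⊢
        rw [show β = 1 by linarith]
        linarith
      · nlinarith [mul_pos (sub_pos.2 e1) e, mul_nonneg (sub_pos.2 e2).le hβ]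
    · rcases hβ.eq_or_lt with e | e
      · right
        rw [← e] at z1 ⊢
        rw [show α = 1 by linarith]
        linarith
      · left
        nlinarith [mul_pos (sub_pos.2 a4) e]
  have nz : ∀ l : EuclideanSpace ℝ (Fin 3) →ₗ[ℝ] ℝ, (∀ z, l z = 0 → ∃ α β : ℝ, α • u₁ + β • u₂ = z) →
      ∀ t ∈ F, o ∈ t → l (x t) ≠ 0 := by
    intro l hl t ht hot e
    obtain ⟨k1, k2⟩ := key l hl (x t) ((g t ht o ho).1 hot) (le t ht a ha) (le t ht b hb) e
    obtain ⟨r, s, k, rfl⟩ := h.exists_T ht hot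
    have hr := h.mem k.rot
    have hs := h.mem k.rot'
    have r1 := (g _ ht r hr).1 (by simp)
    have s1 := (g _ ht s hs).1 (by simp)
    have r2 : r = a ∨ r = b := by
      by_contra hh
      rw [not_or] at hh
      exact (k1 r hr k.1.symm hh.1 hh.2).ne r1
    have s2 : s = a ∨ s = b := by
      by_contra hh
      rw [not_or] at hh
      exact (k1 s hs k.2.1.symm hh.1 hh.2).ne s1
    have hrs := k.2.2.1
    rcases r2 with rfl | rfl <;> rcases s2 with rfl | rfl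
    · exact hrs rfl
    · rcases k2 with k2 | k2 <;> linarith
    · rcases k2 with k2 | k2 <;> linarith
    · exact hrs rfl
  have step : ∀ l : EuclideanSpace ℝ (Fin 3) →ₗ[ℝ] ℝ,
      (∀ z, l z = 0 → ∃ α β : ℝ, α • u₁ + β • u₂ = z) → ∀ r s s', r ≠ a → r ≠ b → T F o r s →
      T F o r s' → 0 < l (x {o, r, s}) → 0 < l (x {o, r, s'}) := by
    intro l hl r s s' h1 h2 k k' hp
    by_contra hn
    have hn' : l (x {o, r, s'}) < 0 := lt_of_le_of_ne (not_lt.1 hn) (nz l hl _ k'.2.2.2 (by simp))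
    have hr := h.mem k.rot
    obtain ⟨P, hP⟩ : ∃ P, P = l (x {o, r, s}) := ⟨_, rfl⟩
    obtain ⟨Q, hQ⟩ : ∃ Q, Q = l (x {o, r, s'}) := ⟨_, rfl⟩
    rw [← hP] at hp
    rw [← hQ] at hn'
    have hD : 0 < P - Q := by linarith
    have cv : ∀ v ∈ V, φ v ((P - Q)⁻¹ • ((-Q) • x {o, r, s} + P • x {o, r, s'})) ≤ 1 := by
      intro v hv
      simp only [map_add, map_smul, smul_eq_mul]
      rw [inv_mul_le_one₀ hD]
      nlinarith [mul_nonneg (sub_nonneg.2 (le _ k.2.2.2 v hv)) (neg_pos.2 hn').le,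
        mul_nonneg (sub_nonneg.2 (le _ k'.2.2.2 v hv)) hp.le]
    have ce : ∀ v ∈ V, v = o ∨ v = r →
        φ v ((P - Q)⁻¹ • ((-Q) • x {o, r, s} + P • x {o, r, s'})) = 1 := by
      intro v hv e
      simp only [map_add, map_smul, smul_eq_mul]
      rw [(g _ k.2.2.2 v hv).1 (by rcases e with rfl | rfl <;> simp),
        (g _ k'.2.2.2 v hv).1 (by rcases e with rfl | rfl <;> simp), inv_mul_eq_one₀ hD.ne']
      ring
    refine ((key l hl _ (ce o ho (Or.inl rfl)) (cv a ha) (cv b hb) ?_).1 r hr k.1.symm h1 h2).ne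
      (ce r hr (Or.inr rfl))
    simp only [map_add, map_smul, smul_eq_mul, ← hP, ← hQ]
    ring
  obtain ⟨l, l1, l2, l3, l4⟩ : ∃ l : EuclideanSpace ℝ (Fin 3) →ₗ[ℝ] ℝ, l u₁ = 0 ∧ l u₂ = 0 ∧
      (∀ z, l z = 0 → ∃ α β : ℝ, α • u₁ + β • u₂ = z) ∧ 0 < l (x ta) := by
    obtain ⟨l, l1, l2, l3⟩ := exists_form a1 b1 a2 a4
    rcases lt_or_gt_of_ne (nz l l3 ta (c.sub hta) (c.mem ta hta)) with e | e
    · exact ⟨-l, by simp [l1], by simp [l2], fun z hz => l3 z (by simpa using hz), by simpa using e⟩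
    · exact ⟨l, l1, l2, l3, e⟩
  have pos : ∀ t ∈ A, 0 < l (x t) := fun t ht =>
    c.conn (fun t => 0 < l (x t)) (step l l3) ta (c.sub hta) t (c.sub ht) (c.mem ta hta)
      (c.mem t ht) (iff_of_true hta ht) l4
  have neg : ∀ t ∈ F, t ∉ A → o ∈ t → l (x t) < 0 := fun t ht ht' hot => by
    have e : 0 < (-l) (x ta') := by
      rw [hu₁, map_smul, map_add, smul_eq_mul] at l1
      simp only [LinearMap.neg_apply]
      linarith
    simpa using c.conn (fun t => 0 < (-l) (x t)) (step (-l) fun z hz => l3 z (by simpa using hz))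
      ta' hta' t ht ota' hot (iff_of_false nta' ht') e
  have dir : ∀ t : Finset ι, ∃ u, t ∈ A → φ o u = 1 ∧ ∀ v ∈ t, v ≠ o → φ v u = 0 := by
    intro t
    by_cases ht : t ∈ A
    swap
    · exact ⟨0, fun hh => absurd hh ht⟩
    obtain ⟨p, q, k, rfl⟩ := h.exists_T (c.sub ht) (c.mem t ht)
    obtain ⟨d, hd, k'⟩ := h.next k.rot
    have h1 := (g _ k'.2.2.2 o ho).2 (by simp [k.1, k.2.1, hd.symm])
    refine ⟨(1 - φ o (x {p, q, d}))⁻¹ • (x {o, p, q} - x {p, q, d}), fun _ => ⟨?_, fun v hv hvo => ?_⟩⟩ <;>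
      rw [map_smul, map_sub]
    · rw [(g _ k.2.2.2 o ho).1 (by simp)]
      exact inv_mul_cancel₀ (by linarith)
    · have hv' := h.sub _ k.2.2.2 hv
      rw [(g _ k.2.2.2 v hv').1 hv, (g _ k'.2.2.2 v hv').1 (by
        simp only [mem_insert, mem_singleton, hvo, false_or] at hv ⊢
        tauto)]
      simp
  choose w hw using dir
  have E1 : ∀ᶠ ε in nhdsWithin (0 : ℝ) (Set.Ioi 0), ∀ t ∈ F.filter fun t => o ∉ t,
      φ o (x t) + ε * l (x t) < 1 := by
    rw [Finset.eventually_all]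
    intro t ht
    refine ev_lt (by fun_prop) ?_
    simpa using (g t (mem_filter.1 ht).1 o ho).2 (mem_filter.1 ht).2
  have E2 : ∀ᶠ ε in nhdsWithin (0 : ℝ) (Set.Ioi 0), ∀ t ∈ A, -(ε * l (w t)) < 1 := by
    rw [Finset.eventually_all]
    exact fun t _ => ev_lt (by fun_prop) (by simp)
  have E3 : ∀ᶠ ε in nhdsWithin (0 : ℝ) (Set.Ioi 0), ∀ t ∈ A, ∀ v ∈ V \ t,
      φ v (x t) - ε * l (x t) / (1 + ε * l (w t)) * φ v (w t) < 1 := by
    rw [Finset.eventually_all]
    intro t ht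
    rw [Finset.eventually_all]
    intro v hv
    refine ev_lt (by fun_prop (disch := simp)) ?_
    simpa using (g t (c.sub ht) v (mem_sdiff.1 hv).1).2 (mem_sdiff.1 hv).2
  obtain ⟨ε, ⟨⟨e1, e2⟩, e3⟩, e4⟩ := (((E1.and E2).and E3).and self_mem_nhdsWithin).exists
  have e5 : 0 < ε := e4
  obtain ⟨ψ, hψ⟩ : ∃ ψ, ψ = Function.update φ y (φ o + ε • l) := ⟨_, rfl⟩
  have ψy : ∀ z, ψ y z = φ o z + ε * l z := by simp [hψ]
  have ψv : ∀ v ∈ V, ψ v = φ v := fun v hv => by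
    rw [hψ, Function.update_of_ne fun e : v = y => hV (e ▸ hv)]
  have ka := spl_mid hy c (Or.inl rfl)
  have kb := spl_mid hy c (Or.inr rfl)
  have cen : ∀ q u, φ o u = 1 → φ q u = 1 → (∀ v ∈ V, v ≠ o → v ≠ q → φ v u < 1) → l u = 0 →
      ∀ v ∈ insert y V, (v ∈ ({o, y, q} : Finset ι) → ψ v u = 1) ∧
        (v ∉ ({o, y, q} : Finset ι) → ψ v u < 1) := by
    intro q u h1 h2 h3 h4 v hv
    rcases mem_insert.1 hv with rfl | hv
    · exact ⟨fun _ => by rw [ψy, h1, h4]; ring, fun hh => absurd (by simp) hh⟩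
    · have hvy : v ≠ y := fun e => hV (e ▸ hv)
      rw [ψv v hv]
      simp only [mem_insert, mem_singleton, hvy, false_or, not_or]
      refine ⟨?_, fun hh => h3 v hv hh.1 hh.2⟩
      rintro (rfl | rfl)
      · exact h1
      · exact h2
  refine ⟨ψ, fun s => if y ∈ s then if o ∈ s then if a ∈ s then u₁ else u₂ else
    x (insert o (s.erase y)) - (ε * l (x (insert o (s.erase y))) /
      (1 + ε * l (w (insert o (s.erase y))))) • w (insert o (s.erase y)) else x s, fun s hs => ?_⟩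
  replace hs := mem_spl.1 hs
  rcases hs with rfl | rfl | ⟨hs, hsA⟩ | ⟨t, ht, rfl⟩
  · beta_reduce
    rw [if_pos (by simp), if_pos (by simp), if_pos (by simp)]
    exact cen a u₁ a1 a2 a3 l1
  · beta_reduce
    rw [if_pos (by simp), if_pos (by simp), if_neg (by simp [ka.2.1.symm, ka.2.2.1.symm, c.ne])]
    exact cen b u₂ b1 b2 b3 l2
  · intro v hv
    beta_reduce
    rw [if_neg (hy s hs)]
    rcases mem_insert.1 hv with rfl | hv
    · refine ⟨fun hh => absurd hh (hy s hs), fun _ => ?_⟩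
      rw [ψy]
      by_cases k : o ∈ s
      · rw [(g s hs o ho).1 k]
        linarith [mul_pos e5 (neg_pos.2 (neg s hs hsA k))]
      · exact e1 s (mem_filter.2 ⟨hs, k⟩)
    · rw [ψv v hv]
      exact g s hs v hv
  · intro v hv
    have k1 : y ∉ t.erase o := fun hh => hy t (c.sub ht) (mem_of_mem_erase hh)
    have k2 : 0 < 1 + ε * l (w t) := by linarith [e2 t ht]
    beta_reduce
    rw [if_pos (by simp), if_neg (by simp [ka.1]), erase_insert k1, insert_erase (c.mem t ht),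
      map_sub, map_smul, smul_eq_mul]
    rcases mem_insert.1 hv with rfl | hv
    · refine ⟨fun _ => ?_, fun hh => absurd (by simp) hh⟩
      rw [ψy, ψy, (hw t ht).1, (g t (c.sub ht) o ho).1 (c.mem t ht), div_mul_cancel₀ _ k2.ne']
      ring
    · have hvy : v ≠ y := fun e => hV (e ▸ hv)
      rw [ψv v hv]
      simp only [mem_insert, mem_erase, hvy, false_or]
      refine ⟨fun hh => ?_, fun hh => ?_⟩
      · rw [(hw t ht).2 v hh.2 hh.1, (g t (c.sub ht) v hv).1 hh.2]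
        ring
      · by_cases e : v = o
        · subst e
          rw [(hw t ht).1, (g t (c.sub ht) v hv).1 (c.mem t ht)]
          linarith [div_pos (mul_pos e5 (pos t ht)) k2]
        · exact e3 t ht v (mem_sdiff.2 ⟨hv, fun k => hh ⟨e, k⟩⟩)

end Pool.Agent.P.MP_e40812_co
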