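import Pool.Agent.P.MP_e40812_co.LoSplit

/-!
Building realised triangle systems by repeatedly splitting one vertex.  Vertices carry labels
`(degree, tag)`.
-/

namespace Pool.Agent.P.MP_e40812_co

open Finset

/-- The triangles formed by `o` and two consecutive entries of a list. -/
def tris (o : ℕ) : List ℕ → Finset (Finset ℕ)
  | a :: b :: l => insert {o, a, b} (tris o (b :: l))
  | _ => ∅

theorem tris_realize : True := by
  have := @tris.eq_def
  trivial

/-- A realised triangle system with labels `μ`; for each tag in `E` two neighbours carry it. -/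
def Good (μ : Multiset (ℕ × ℕ)) (E : Set ℕ) : Prop :=
  ∃ (V : Finset ℕ) (F : Finset (Finset ℕ)) (τ : ℕ → ℕ), Pre V F ∧ Geo V F ∧
    V.val.map (fun v => (deg F v, τ v)) = μ ∧ ∀ i ∈ E, ∃ u w, τ u = i ∧ τ w = i ∧ Nb F u w

/-- A realised triangle system with a vertex `o` whose link is the cycle `a :: c` with labels `L`;
the vertices outside the star of `o` have labels `M`. -/
def St (L : List (ℕ × ℕ)) (M : Multiset (ℕ × ℕ)) (E : Set ℕ) : Prop :=
  ∃ (V W : Finset ℕ) (F : Finset (Finset ℕ)) (τ : ℕ → ℕ) (o a : ℕ) (c : List ℕ),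
    Pre V F ∧ Geo V F ∧ V.val = (o :: a :: c : List ℕ) + W.val ∧ 2 ≤ c.length ∧
    (F.filter fun t => o ∈ t) = tris o (a :: (c ++ [a])) ∧
    (a :: c).map (fun v => (deg F v, τ v)) = L ∧ W.val.map (fun v => (deg F v, τ v)) = M ∧
    ∀ i ∈ E, ∃ u w, u ≠ o ∧ w ≠ o ∧ τ u = i ∧ τ w = i ∧ Nb F u w

/-- One more neighbour. -/
def inc (p : ℕ × ℕ) : ℕ × ℕ := (p.1 + 1, p.2)

section
variable {o a b x z : ℕ} {l m r : List ℕ} {s s' : Finset ℕ}

lemma ls_cons (o a b : ℕ) (l : List ℕ) :
    tris o (a :: b :: l) = insert {o, a, b} (tris o (b :: l)) := by rw [tris]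

lemma ls_one (o a : ℕ) : tris o [a] = ∅ := by simp [tris]

lemma ls_nil (o : ℕ) : tris o [] = ∅ := by simp [tris]

lemma ls_split (o b : ℕ) (l₁ l₂ : List ℕ) :
    tris o (l₁ ++ b :: l₂) = tris o (l₁ ++ [b]) ∪ tris o (b :: l₂) := by
  induction l₁ with
  | nil => simp [ls_one]
  | cons x l ih =>
    cases l with
    | nil => simp [ls_cons, ls_one]
    | cons y l =>
      simp only [List.cons_append] at ih ⊢
      rw [ls_cons, ls_cons, ih, insert_union]

lemma ls_mem (h : s ∈ tris o l) : o ∈ s ∧ ∀ v ∈ s, v = o ∨ v ∈ l := by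
  induction l with
  | nil => simp [ls_nil] at h
  | cons x l ih =>
    cases l with
    | nil => simp [ls_one] at h
    | cons y l =>
      rw [ls_cons] at h
      rcases mem_insert.1 h with rfl | h
      · refine ⟨by simp, fun v hv => ?_⟩
        simp only [mem_insert, mem_singleton] at hv
        simp only [List.mem_cons]
        tauto
      · exact ⟨(ih h).1, fun v hv => ((ih h).2 v hv).imp_right (List.mem_cons_of_mem _)⟩

lemma ls_has (h : s ∈ tris o (l ++ [z])) : ∃ v ∈ l, v ∈ s := by
  induction l with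
  | nil => simp [ls_one] at h
  | cons x l ih =>
    cases l with
    | nil =>
      simp only [List.cons_append, List.nil_append, ls_cons, ls_one, insert_empty_eq,
        mem_singleton] at h
      exact ⟨x, by simp, by simp [h]⟩
    | cons y l =>
      simp only [List.cons_append] at ih h
      rw [ls_cons] at h
      rcases mem_insert.1 h with rfl | h
      · exact ⟨x, by simp, by simp⟩
      · obtain ⟨v, h1, h2⟩ := ih h
        exact ⟨v, List.mem_cons_of_mem _ h1, h2⟩

lemma ls_head (o x z : ℕ) (l : List ℕ) : ∃ w, ({o, x, w} : Finset ℕ) ∈ tris o (x :: (l ++ [z])) := by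
  cases l with
  | nil => exact ⟨z, by simp [ls_cons]⟩
  | cons y l => exact ⟨y, by simp [ls_cons]⟩

lemma ls_cover {v : ℕ} (hv : v ∈ x :: (l ++ [z])) : ∃ s ∈ tris o (x :: (l ++ [z])), v ∈ s := by
  induction l generalizing x with
  | nil =>
    refine ⟨{o, x, z}, by simp [ls_cons], ?_⟩
    simp only [List.nil_append, List.mem_cons, List.not_mem_nil, or_false] at hv
    simp only [mem_insert, mem_singleton]
    tauto
  | cons y l ih =>
    rw [List.cons_append, ls_cons]
    rcases List.mem_cons.1 hv with rfl | hv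
    · exact ⟨{o, v, y}, by simp, by simp⟩
    · obtain ⟨s, h1, h2⟩ := ih hv
      exact ⟨s, mem_insert_of_mem h1, h2⟩

lemma ls_first (h1 : x ≠ o) (h2 : x ∉ l) (hs : s ∈ tris o (x :: l)) (hs' : s' ∈ tris o (x :: l))
    (k : x ∈ s) (k' : x ∈ s') : s = s' := by
  cases l with
  | nil => simp [ls_one] at hs
  | cons y l =>
    rw [ls_cons] at hs hs'
    have key : ∀ u ∈ insert ({o, x, y} : Finset ℕ) (tris o (y :: l)), x ∈ u → u = {o, x, y} :=
      fun u hu hx => (mem_insert.1 hu).resolve_right fun h =>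
        ((ls_mem h).2 x hx).elim h1 h2
    rw [key s hs k, key s' hs' k']

lemma ls_last (h1 : z ≠ o) (h2 : z ∉ l) (hs : s ∈ tris o (l ++ [z]))
    (hs' : s' ∈ tris o (l ++ [z])) (k : z ∈ s) (k' : z ∈ s') : s = s' := by
  rcases List.eq_nil_or_concat l with rfl | ⟨l, y, rfl⟩
  · simp [ls_one] at hs
  · rw [List.concat_eq_append] at h2 hs hs'
    rw [List.append_assoc, List.singleton_append, ls_split, ls_cons, ls_one, insert_empty_eq]
      at hs hs'
    have key : ∀ u ∈ tris o (l ++ [y]) ∪ {{o, y, z}}, z ∈ u → u = {o, y, z} :=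
      fun u hu hx => mem_singleton.1 ((mem_union.1 hu).resolve_left fun h =>
        ((ls_mem h).2 z hx).elim h1 h2)
    rw [key s hs k, key s' hs' k']

lemma ls_card (h : (o :: x :: l).Nodup) : (tris o (x :: l)).card = l.length := by
  induction l generalizing x with
  | nil => simp [ls_one]
  | cons y l ih =>
    have h1 : (o :: y :: l).Nodup := h.sublist (by simp)
    rw [ls_cons, card_insert_of_notMem, ih h1, List.length_cons]
    intro k
    simp only [List.nodup_cons, List.mem_cons, not_or] at h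
    have := (ls_mem k).2 x (by simp)
    simp only [List.mem_cons] at this
    tauto

lemma ls_disj' (h : (o :: a :: (m ++ b :: r)).Nodup) (hm : m ≠ []) :
    Disjoint (tris o (a :: (m ++ [b]))) (tris o (b :: (r ++ [a]))) := by
  rw [disjoint_left]
  intro s h1 h2
  obtain ⟨v, hv, hs⟩ : ∃ v ∈ m, v ∈ s := by
    obtain ⟨y, m, rfl⟩ := List.exists_cons_of_ne_nil hm
    rw [List.cons_append, ls_cons] at h1
    rcases mem_insert.1 h1 with rfl | h1
    · exact ⟨y, by simp, by simp⟩
    · exact ls_has (l := y :: m) h1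
  have := (ls_mem h2).2 v hs
  simp only [List.nodup_cons, List.mem_cons, List.mem_append, not_or, List.nodup_append] at h
  simp only [List.mem_cons, List.mem_append, List.not_mem_nil, or_false] at this
  rcases this with rfl | rfl | k | rfl
  · exact h.1.2.1 hv
  · exact h.2.2.2.2 v hv v (Or.inl rfl) rfl
  · exact h.2.2.2.2 v hv v (Or.inr k) rfl
  · exact h.2.1.1 hv

lemma ls_swap (h : (o :: a :: (m ++ b :: r)).Nodup) : (o :: b :: (r ++ a :: m)).Nodup := by
  refine (List.Perm.nodup_iff (List.Perm.cons o ?_)).1 h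
  exact List.perm_append_comm (l₁ := a :: m) (l₂ := b :: r)

lemma ls_disj (h : (o :: a :: (m ++ b :: r)).Nodup) (hc : 2 ≤ (m ++ b :: r).length) :
    Disjoint (tris o (a :: (m ++ [b]))) (tris o (b :: (r ++ [a]))) := by
  by_cases hm : m = []
  · refine (ls_disj' (ls_swap h) ?_).symm
    rintro rfl
    simp [hm] at hc
  · exact ls_disj' h hm

lemma ls_T {V : Finset ℕ} {F : Finset (Finset ℕ)} (h : Pre V F)
    (k : ({a, b, x} : Finset ℕ) ∈ F) : T F a b x := by
  have := card_triple_eq_three_iff.1 (h.three _ k)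
  exact ⟨this.1, this.2.1, this.2.2, k⟩

lemma ls_conn {V : Finset ℕ} {F : Finset (Finset ℕ)} (h : Pre V F) (S : Finset ℕ → Prop)
    (hF : tris o (x :: (l ++ [z])) ⊆ F)
    (hS : ∀ r ∈ l, ∀ u u', T F o r u → T F o r u' → S {o, r, u} → S {o, r, u'}) :
    ∀ s ∈ tris o (x :: (l ++ [z])), ∀ s' ∈ tris o (x :: (l ++ [z])), S s → S s' := by
  induction l generalizing x with
  | nil =>
    intro s hs s' hs'
    simp only [List.nil_append, ls_cons, ls_one, insert_empty_eq, mem_singleton] at hs hs'
    rw [hs, hs']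
    exact id
  | cons y l ih =>
    rw [List.cons_append, ls_cons] at hF ⊢
    have ih' := ih ((subset_insert _ _).trans hF) fun r hr => hS r (List.mem_cons_of_mem _ hr)
    obtain ⟨w, hw⟩ := ls_head o y z l
    have t1 : T F o y x := (ls_T h (hF (mem_insert_self _ _))).s23
    have t2 : T F o y w := ls_T h (hF (mem_insert_of_mem hw))
    have e1 := hS y (by simp) _ _ t1 t2
    have e2 := hS y (by simp) _ _ t2 t1
    rw [tri23 o y x] at e1 e2
    intro s hs s' hs' k
    rcases mem_insert.1 hs with rfl | hs <;> rcases mem_insert.1 hs' with rfl | hs'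
    · exact k
    · exact ih' _ hw _ hs' (e1 k)
    · exact e2 (ih' _ hs _ hw k)
    · exact ih' _ hs _ hs' k

lemma ls_link (o a b : ℕ) (m r : List ℕ) : tris o (a :: ((m ++ b :: r) ++ [a])) =
    tris o (a :: (m ++ [b])) ∪ tris o (b :: (r ++ [a])) := by
  rw [List.append_assoc, List.cons_append, ← List.cons_append, ls_split, List.cons_append]

lemma ls_cut {V : Finset ℕ} {F : Finset (Finset ℕ)} (h : Pre V F)
    (hn : (o :: a :: (m ++ b :: r)).Nodup) (hc : 2 ≤ (m ++ b :: r).length)
    (hf : (F.filter fun t => o ∈ t) = tris o (a :: (m ++ [b])) ∪ tris o (b :: (r ++ [a]))) :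
    Cut F (tris o (a :: (m ++ [b]))) o a b := by
  have hd := disjoint_left.1 (ls_disj hn hc)
  have hA : tris o (a :: (m ++ [b])) ⊆ F :=
    (subset_union_left.trans hf.ge).trans (filter_subset _ _)
  have hB : tris o (b :: (r ++ [a])) ⊆ F :=
    (subset_union_right.trans hf.ge).trans (filter_subset _ _)
  have hAB : ∀ t ∈ F, o ∈ t → t ∈ tris o (a :: (m ++ [b])) ∨ t ∈ tris o (b :: (r ++ [a])) :=
    fun t h1 h2 => mem_union.1 (hf ▸ mem_filter.2 ⟨h1, h2⟩)
  simp only [List.nodup_cons, List.mem_cons, List.mem_append, not_or, List.nodup_append] at hn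
  obtain ⟨⟨oa, om, ob, or⟩, ⟨am, ab, ar⟩, -, ⟨br, -⟩, mr⟩ := hn
  have bm : b ∉ m := fun k => mr b k b (Or.inl rfl) rfl
  have nb : ∀ v ∈ a :: (m ++ [b]), v ≠ o → Nb F o v := fun v hv hne => by
    obtain ⟨s, h1, h2⟩ := ls_cover (o := o) hv
    obtain ⟨w, hw, -⟩ := h.exists_T2 (hA h1) (ls_mem h1).1 h2 hne.symm
    exact hw.nb
  refine ⟨hA, fun t ht => (ls_mem ht).1, ab, nb a (by simp) (Ne.symm oa),
    nb b (by simp) (Ne.symm ob), ?_, ?_, ?_⟩
  · intro v u u' h1 h2 t1 t2 k
    refine (hAB _ t2.2.2.2 (by simp)).resolve_right fun k' => ?_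
    have e1 := (ls_mem k).2 v (by simp)
    have e2 := (ls_mem k').2 v (by simp)
    simp only [List.mem_cons, List.mem_append, List.not_mem_nil, or_false, h1, h2, t1.1.symm,
      false_or] at e1 e2
    exact mr v e1 v (Or.inr e2) rfl
  · intro v u u' hv t1 t2 hne
    have hne' : ({o, v, u} : Finset ℕ) ≠ {o, v, u'} := fun e => by
      have : u ∈ ({o, v, u'} : Finset ℕ) := e ▸ (by simp)
      simp [t1.2.1.symm, t1.2.2.1.symm, hne] at this
    have uA : {o, v, u} ∈ tris o (a :: (m ++ [b])) → {o, v, u'} ∉ tris o (a :: (m ++ [b])) := by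
      intro k k'
      rcases hv with rfl | rfl
      · exact hne' (ls_first (Ne.symm oa) (by simp [am, ab]) k k' (by simp) (by simp))
      · exact hne' (ls_last (l := a :: m) (Ne.symm ob) (by simp [bm, Ne.symm ab]) k k' (by simp)
          (by simp))
    have uB : {o, v, u} ∈ tris o (b :: (r ++ [a])) → {o, v, u'} ∉ tris o (b :: (r ++ [a])) := by
      intro k k'
      rcases hv with rfl | rfl
      · exact hne' (ls_last (l := b :: r) (Ne.symm oa) (by simp [ar, ab]) k k' (by simp)
          (by simp))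
      · exact hne' (ls_first (Ne.symm ob) (by simp [br, Ne.symm ab]) k k' (by simp) (by simp))
    refine ⟨uA, fun k => (hAB _ t1.2.2.2 (by simp)).resolve_right fun k' => ?_⟩
    exact uB k' ((hAB _ t2.2.2.2 (by simp)).resolve_left k)
  · intro S hS t ht t' ht' k k' hiff
    by_cases hA' : t ∈ tris o (a :: (m ++ [b]))
    · exact ls_conn h S hA (fun v hv u u' => hS v u u' (fun e => am (e ▸ hv))
        fun e => bm (e ▸ hv)) t hA' t' (hiff.1 hA')
    · exact ls_conn h S hB (fun v hv u u' => hS v u u' (fun e => ar (e ▸ hv))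
        fun e => br (e ▸ hv)) t ((hAB t ht k).resolve_left hA') t'
        ((hAB t' ht' k').resolve_left fun e => hA' (hiff.2 e))

lemma ls_nodup {V W : Finset ℕ} (h : V.val = (l : Multiset ℕ) + W.val) :
    l.Nodup ∧ ∀ v ∈ l, v ∉ W := by
  have := V.nodup
  rw [h, Multiset.nodup_add] at this
  exact ⟨Multiset.coe_nodup.1 this.1, fun v hv k =>
    Multiset.disjoint_left.1 this.2.2 (Multiset.mem_coe.2 hv) k⟩

end

variable {L L' mid R : List (ℕ × ℕ)} {M : Multiset (ℕ × ℕ)} {E E' : Set ℕ} {p q : ℕ × ℕ}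

lemma St.init : St [(3, 1), (3, 1), (3, 0)] 0 {1} := by
  refine ⟨{0, 1, 2, 3}, ∅, {{0, 1, 2}, {0, 1, 3}, {0, 2, 3}, {1, 2, 3}},
    fun v => if v < 2 then 1 else 0, 3, 0, [1, 2], pre_tet, geo_tet, by decide, by decide, ?_,
    by decide, rfl, ?_⟩
  · simp only [List.cons_append, List.nil_append, ls_cons, ls_one]
    decide
  · rintro i rfl
    exact ⟨0, 1, by decide, by decide, by decide, by decide, 2, by unfold T; decide⟩

lemma ls_rot (h : St (p :: L) M E) : St (L ++ [p]) M E := by
  obtain ⟨V, W, F, τ, o, a, c, h1, h2, h3, h4, h5, h6, h7, h8⟩ := h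
  obtain ⟨b, r, rfl⟩ := List.exists_cons_of_length_pos (show 0 < c.length by omega)
  refine ⟨V, W, F, τ, o, b, r ++ [a], h1, h2, ?_, by simpa using h4, ?_, ?_, h7, h8⟩
  · rw [h3]
    congr 1
    exact Multiset.coe_eq_coe.2
      (List.Perm.cons o (List.perm_append_comm (l₁ := [a]) (l₂ := b :: r)))
  · rw [h5, ls_link o b a r [], union_comm]
    exact ls_link o a b [] r
  · rw [List.map_cons, List.cons.injEq] at h6
    rw [← List.cons_append, List.map_append, h6.2, List.map_singleton, h6.1]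

lemma St.rot (h : St (L ++ L') M E) : St (L' ++ L) M E := by
  induction L generalizing L' with
  | nil => simpa using h
  | cons p L ih =>
    have h1 := ls_rot (p := p) (L := L ++ L') h
    rw [List.append_assoc] at h1
    simpa using ih h1

lemma St.op (t : ℕ) (h : St (p :: (mid ++ q :: R)) M E)
    (hE : ∀ i ∈ E', i ∈ E ∨ (i = t ∧ ∃ l ∈ p :: mid, l.2 = t)) :
    St (inc p :: (mid.length + 3, t) :: inc q :: R) (M + mid) E' := by
  obtain ⟨V, W, F, τ, o, a, c, h1, h2, h3, h4, h5, h6, h7, h8⟩ := h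
  rw [List.map_cons, List.cons.injEq, List.map_eq_append_iff] at h6
  obtain ⟨hp, m, c', rfl, hm, h6⟩ := h6
  obtain ⟨b, r, rfl, hq, hr⟩ := List.map_eq_cons_iff.1 h6
  obtain ⟨hn, hW⟩ := ls_nodup h3
  rw [ls_link] at h5
  have cu := ls_cut h1 hn h4 h5
  have hd := ls_disj hn h4
  obtain ⟨y, hy⟩ := Infinite.exists_notMem_finset V
  have hV : ∀ v, v ∈ V ↔ v ∈ o :: a :: (m ++ b :: r) ∨ v ∈ W := fun v => by
    rw [← mem_val, h3, Multiset.mem_add, Multiset.mem_coe, mem_val]
  have hy' : ∀ v ∈ V, v ≠ y := fun v hv e => hy (e ▸ hv)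
  have hτ : ∀ v ∈ V, Function.update τ y t v = τ v := fun v hv =>
    Function.update_of_ne (hy' v hv) _ _
  have hcard : (tris o (a :: (m ++ [b]))).card = mid.length + 1 := by
    rw [ls_card (hn.sublist (by simp)), ← hm]
    simp
  have hle : W.val + (m : Multiset ℕ) ≤ V.val := by
    rw [h3, add_comm]
    exact Multiset.add_le_add_right (Multiset.coe_le.2 (List.Sublist.subperm (by
      exact ((List.sublist_append_left _ _).cons _).cons _)))
  have hn' := hn
  simp only [List.nodup_cons, List.mem_cons, List.mem_append, not_or, List.nodup_append] at hn'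
  obtain ⟨⟨oa, om, ob, or⟩, ⟨am, ab, ar⟩, -, ⟨br, -⟩, mr⟩ := hn'
  have bm : b ∉ m := fun k => mr b k b (Or.inl rfl) rfl
  have aV : a ∈ V := (hV a).2 (by simp)
  have bV : b ∈ V := (hV b).2 (by simp)
  have oV : o ∈ V := (hV o).2 (by simp)
  have same : ∀ v ∈ V, v ≠ o → v ≠ a → v ≠ b →
      (deg (spl F (tris o (a :: (m ++ [b]))) o y a b) v, Function.update τ y t v) =
        (deg F v, τ v) := fun v hv k1 k2 k3 => by
    rw [deg_spl h1 cu hy k1 (hy' v hv), hτ v hv, if_neg (by simp [k2, k3]), add_zero]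
  refine ⟨insert y V, ⟨W.val + (m : Multiset ℕ), Multiset.nodup_of_le hle V.nodup⟩,
    spl F (tris o (a :: (m ++ [b]))) o y a b, Function.update τ y t, o, a, y :: b :: r,
    h1.spl cu hy, h2.spl h1 cu hy, ?_, by simp, ?_, ?_, ?_, fun i hi => ?_⟩
  · change _ = _ + (W.val + (m : Multiset ℕ))
    rw [insert_val_of_notMem hy, h3]
    simp only [← Multiset.cons_coe, ← Multiset.coe_add, ← Multiset.singleton_add]
    abel
  · rw [filter_spl h1 cu hy, h5, union_sdiff_cancel_left hd, List.cons_append, List.cons_append,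
      ls_cons, ls_cons, tri23 o y a]
  · simp only [List.map_cons, List.cons.injEq]
    refine ⟨?_, ?_, ?_, ?_⟩
    · rw [deg_spl h1 cu hy (Ne.symm oa) (hy' a aV), hτ a aV, if_pos (Or.inl rfl), ← hp, inc]
    · rw [deg_spl_new h1 cu hy, hcard, Function.update_self]
    · rw [deg_spl h1 cu hy (Ne.symm ob) (hy' b bV), hτ b bV, if_pos (Or.inr rfl), ← hq, inc]
    · rw [← hr]
      exact List.map_congr_left fun v hv => same v ((hV v).2 (by simp [hv]))
        (fun e => or (e ▸ hv)) (fun e => ar (e ▸ hv)) fun e => br (e ▸ hv)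
  · rw [Multiset.map_add, ← h7, ← hm, Multiset.map_coe]
    congr 1
    · exact Multiset.map_congr rfl fun v hv => same v ((hV v).2 (Or.inr hv))
        (fun e => hW o (by simp) (e ▸ hv)) (fun e => hW a (by simp) (e ▸ hv))
        fun e => hW b (by simp) (e ▸ hv)
    · exact congrArg _ (List.map_congr_left fun v hv => same v ((hV v).2 (by simp [hv]))
        (fun e => om (e ▸ hv)) (fun e => am (e ▸ hv)) fun e => bm (e ▸ hv))
  · rcases hE i hi with k | ⟨rfl, l, hl, rfl⟩
    · obtain ⟨u, w, k1, k2, k3, k4, k5⟩ := h8 i k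
      exact ⟨u, w, k1, k2, (hτ u (h1.nb_mem k5)).trans k3, (hτ w (h1.nb_mem k5.symm)).trans k4,
        nb_spl h1 cu hy k1 k2 k5⟩
    · rw [← hp, ← hm] at hl
      obtain ⟨v, hv, rfl⟩ := (List.mem_map (f := fun v => (deg F v, τ v)) (l := a :: m)).1 hl
      have hv' : v ∈ a :: (m ++ [b]) := by
        rw [← List.cons_append]
        exact List.mem_append_left _ hv
      have vo : v ≠ o := by
        rintro rfl
        rcases List.mem_cons.1 hv with k | k
        · exact oa k
        · exact om k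
      obtain ⟨s, k1, k2⟩ := ls_cover (o := o) hv'
      exact ⟨y, v, (hy' o oV).symm, vo, Function.update_self .., hτ v (h1.sub s (cu.sub k1) k2),
        nb_spl_new h1 cu hy k1 k2 vo⟩

lemma St.retag (t : ℕ) (h : St (p :: L) M E) (hE : p.2 ∉ E) : St ((p.1, t) :: L) M E := by
  obtain ⟨V, W, F, τ, o, a, c, h1, h2, h3, h4, h5, h6, h7, h8⟩ := h
  obtain ⟨hn, hW⟩ := ls_nodup h3
  rw [List.map_cons, List.cons.injEq] at h6
  have ac : a ∉ c := (List.nodup_cons.1 (List.nodup_cons.1 hn).2).1
  refine ⟨V, W, F, Function.update τ a t, o, a, c, h1, h2, h3, h4, h5, ?_, ?_, fun i hi => ?_⟩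
  · rw [List.map_cons, Function.update_self, ← h6.1, ← h6.2]
    congr 1
    exact List.map_congr_left fun v hv => by
      rw [Function.update_of_ne fun e : v = a => ac (e ▸ hv)]
  · rw [← h7]
    exact Multiset.map_congr rfl fun v hv => by
      rw [Function.update_of_ne fun e : v = a => hW a (by simp) (e ▸ hv)]
  · obtain ⟨u, w, k1, k2, k3, k4, k5⟩ := h8 i hi
    have key : ∀ v, τ v = i → Function.update τ a t v = i := fun v hv => by
      rw [Function.update_of_ne, hv]
      rintro rfl
      rw [← h6.1] at hE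
      exact hE (hv ▸ hi)
    exact ⟨u, w, k1, k2, key u k3, key w k4, k5⟩

lemma St.fin (h : St (p :: L) M E) :
    Good ((L.length + 1, p.2) ::ₘ ((p :: L : List (ℕ × ℕ)) + M)) (insert p.2 E) := by
  obtain ⟨V, W, F, τ, o, a, c, h1, h2, h3, h4, h5, h6, h7, h8⟩ := h
  obtain ⟨hn, hW⟩ := ls_nodup h3
  obtain ⟨b, r, rfl⟩ := List.exists_cons_of_length_pos (show 0 < c.length by omega)
  have h5' : (F.filter fun t => o ∈ t) =
      tris o (a :: ([] ++ [b])) ∪ tris o (b :: (r ++ [a])) := h5.trans (ls_link o a b [] r)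
  have cu := ls_cut (m := []) h1 hn h4 h5'
  have oc : o ∉ a :: b :: r := (List.nodup_cons.1 hn).1
  have hp : τ a = p.2 := by
    rw [List.map_cons, List.cons.injEq] at h6
    rw [← h6.1]
  have hd : deg F o = L.length + 1 := by
    have := congrArg List.length h6
    rw [deg, h5', card_union_of_disjoint (ls_disj (m := []) hn h4),
      ls_card (hn.sublist (by simp)), ls_card (ls_swap (m := []) hn)]
    simp only [List.length_map, List.length_cons, List.length_append, List.length_nil] at this ⊢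
    omega
  refine ⟨V, F, Function.update τ o p.2, h1, h2, ?_, ?_⟩
  · rw [h3, ← Multiset.cons_coe, Multiset.cons_add, Multiset.map_cons, Function.update_self, hd,
      Multiset.map_add, Multiset.map_coe, ← h6, ← h7]
    congr 2
    · exact congrArg _ (List.map_congr_left fun v hv => by
        rw [Function.update_of_ne fun e : v = o => oc (e ▸ hv)])
    · exact Multiset.map_congr rfl fun v hv => by
        rw [Function.update_of_ne fun e : v = o => hW o (by simp) (e ▸ hv)]
  · rintro i (rfl | hi)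
    · exact ⟨o, a, Function.update_self .., by rw [Function.update_of_ne cu.na.ne.symm, hp], cu.na⟩
    · obtain ⟨u, w, k1, k2, k3, k4, k5⟩ := h8 i hi
      exact ⟨u, w, by rw [Function.update_of_ne k1, k3], by rw [Function.update_of_ne k2, k4], k5⟩

end Pool.Agent.P.MP_e40812_co
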