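import Pool.Agent.P.MP_e40812_co.Stack

/-!
Rigidity of triangulated spheres with the largest possible number of vertices of degree three
outside a set `K`, when all vertices outside `K` have degree three or four.
-/

namespace Pool.Agent.P.MP_e40812_co

open Finset

variable {ι : Type*} [DecidableEq ι] {V : Finset ι} {F : Finset (Finset ι)}

lemma stk_nb_up {a b c y p q : ι} (t : T F a b c) (hy : ∀ s ∈ F, y ∉ s) (k : Nb F p q) :
    Nb (stk F y a b c) p q := by
  obtain ⟨r, k⟩ := k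
  rcases stk_lift t hy k with k | k
  · exact k.nb
  · exact k.1.nb

lemma stk_nb_iff {a b c y v : ι} (t : T F a b c) (hy : ∀ s ∈ F, y ∉ s) :
    Nb (stk F y a b c) y v ↔ v ∈ ({a, b, c} : Finset ι) := by
  constructor
  · rintro ⟨r, k⟩
    exact (stk_y hy k.rot).1
  · intro hv
    simp only [mem_insert, mem_singleton] at hv
    rcases hv with rfl | rfl | rfl
    · exact (stk1 t hy).nb
    · exact (stk2 t hy).nb
    · exact (stk3 t hy).nb

lemma unstack_all (Y : Finset ι) : ∀ V F, Tri V F → Y ⊆ V → 4 ≤ (V \ Y).card →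
    (∀ y ∈ Y, deg F y = 3) → ∃ G L, Tri (V \ Y) G ∧ L ⊆ G ∧ L.card = Y.card ∧
      (∀ t ∈ F, Disjoint t Y → t ∈ G ∧ t ∉ L) ∧ (∀ v ∈ V \ Y, deg F v = deg G v + deg L v) ∧
      (∀ a ∈ V \ Y, ∀ b ∈ V \ Y, Nb F a b → Nb G a b) ∧ ∀ t ∈ L, ∃ y ∈ Y, ∀ v ∈ t, Nb F y v := by
  induction Y using Finset.induction_on with
  | empty =>
    intro V F h _ _ _
    exact ⟨F, ∅, by simpa using h, by simp, rfl, by simp, by simp [deg], fun _ _ _ _ h => h,
      by simp⟩
  | insert y Y hyY ih =>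
    intro V F h hY h4 hd
    have hyV : y ∈ V := hY (mem_insert_self _ _)
    have e : V.erase y \ Y = V \ insert y Y := by
      ext x
      simp only [mem_sdiff, mem_erase, mem_insert]
      tauto
    have h5 : 5 ≤ V.card := by
      have h1 := card_le_card (sdiff_subset (s := V.erase y) (t := Y))
      have h2 := card_erase_lt_of_mem hyV
      rw [e] at h1
      omega
    have hd0 := hd y (mem_insert_self _ _)
    obtain ⟨a, b, c, G₁, t, hy, rfl, h1⟩ := h.unstack h5 hd0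
    have hn : ∀ x ∈ Y, x ∉ ({a, b, c} : Finset ι) := fun x hx hh =>
      h.not_nb33 h5 hd0 (hd x (mem_insert_of_mem hx)) ((stk_nb_iff t hy).2 hh)
    have hne : ∀ x ∈ Y, x ≠ y := fun x hx e => hyY (e ▸ hx)
    obtain ⟨G, L, g1, g2, g3, g4, g5, g6, g7⟩ := ih (V.erase y) G₁ h1
      (fun x hx => mem_erase.2 ⟨hne x hx, hY (mem_insert_of_mem hx)⟩) (e ▸ h4) (fun x hx => by
        have := hd x (mem_insert_of_mem hx)
        rwa [deg_stk t hy (hne x hx), if_neg (hn x hx)] at this)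
    obtain ⟨g8, g9⟩ := g4 _ t.2.2.2 (disjoint_right.2 hn)
    rw [e] at g1 g5 g6
    have hne' : ∀ x ∈ V \ insert y Y, x ≠ y := fun x hx e =>
      (mem_sdiff.1 hx).2 (e ▸ mem_insert_self _ _)
    refine ⟨G, insert {a, b, c} L, g1, insert_subset g8 g2, ?_, fun s hs hs' => ?_,
      fun v hv => ?_, fun p hp q hq k => g6 p hp q hq (stk_nb t hy (hne' p hp) (hne' q hq) k),
      fun s hs => ?_⟩
    · rw [card_insert_of_notMem g9, card_insert_of_notMem hyY, g3]
    · rw [disjoint_insert_right] at hs'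
      rcases mem_stk.1 hs with rfl | rfl | rfl | k
      · exact absurd (by simp) hs'.1
      · exact absurd (by simp) hs'.1
      · exact absurd (by simp) hs'.1
      · exact ⟨(g4 s k.2 hs'.2).1, by simp [k.1, (g4 s k.2 hs'.2).2]⟩
    · rw [deg_stk t hy (hne' v hv), g5 v hv]
      simp only [deg, card_filter]
      rw [sum_insert g9]
      ring
    · rcases mem_insert.1 hs with rfl | hs
      · exact ⟨y, mem_insert_self _ _, fun v hv => (stk_nb_iff t hy).2 hv⟩
      · obtain ⟨x, hx, hx'⟩ := g7 s hs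
        exact ⟨x, mem_insert_of_mem hx, fun v hv => stk_nb_up t hy (hx' v hv)⟩

lemma Tri.local4 (h : Tri V F) {K : Finset ι} (hK : K ⊆ V) (h4 : 4 ≤ K.card)
    (hd : ∀ v ∈ V \ K, deg F v = 4) {a b c : ι} (t : T F a b c) (ha : a ∉ K) (hb : b ∉ K)
    (hc : c ∉ K) : (∃ p q, T F a p q ∧ p ∈ K ∧ q ∈ K) ∧
      ∀ x y, x ∉ K → y ∉ K → T F a x y → ({a, x, y} : Finset ι) = {a, b, c} := by
  have h7 : 7 ≤ V.card := by
    have h1 : Disjoint K {a, b, c} := by simp [ha, hb, hc]
    have h2 := card_le_card (union_subset hK (h.sub _ t.2.2.2))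
    rw [card_union_of_disjoint h1, t.card] at h2
    omega
  have da := hd a (mem_sdiff.2 ⟨h.mem t, ha⟩)
  have db := hd b (mem_sdiff.2 ⟨h.mem t.rot, hb⟩)
  have dc := hd c (mem_sdiff.2 ⟨h.mem t.rot', hc⟩)
  obtain ⟨p, q, t2, t3, t4, hbp, hcq, na⟩ := h.link4 da t
  have hp : p ∈ K := by
    by_contra hp
    exact h.oct h7 da db dc t t2 t3 t4 hbp hcq na (hd p (mem_sdiff.2 ⟨h.mem t3.rot, hp⟩))
  have hq : q ∈ K := by
    by_contra hq
    exact h.oct h7 da dc db t.s23 t4.s23 t3.s23 t2.s23 hcq hbp (fun u hu => by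
      have := na u hu
      tauto) (hd q (mem_sdiff.2 ⟨h.mem t4.rot, hq⟩))
  refine ⟨⟨p, q, t3, hp, hq⟩, fun x y hx hy k => ?_⟩
  have k1 := k.2.2.1
  rcases na x k.nb with rfl | rfl | rfl | rfl <;> rcases na y k.nb' with rfl | rfl | rfl | rfl
  all_goals first
    | exact absurd rfl k1
    | rfl
    | exact tri23 _ _ _
    | exact absurd hp hx
    | exact absurd hq hx
    | exact absurd hp hy
    | exact absurd hq hy

lemma Tri.no_four (h : Tri V F) {K : Finset ι} (hK : K ⊆ V) (h4 : 4 ≤ K.card)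
    (hd : ∀ v ∈ V \ K, deg F v = 4) {L : Finset (Finset ι)} (hL : L ⊆ F) (hL' : ∀ t ∈ L, t ⊆ K)
    (hc : L.card + 4 = 2 * K.card) : V = K := by
  obtain ⟨n, hn⟩ : ∃ n : Finset ι → ℕ, n = fun t => (t ∩ (V \ K)).card := ⟨_, rfl⟩
  have hn3 : ∀ t ∈ F, n t ≤ 3 := fun t ht => by
    rw [hn, ← h.three t ht]
    exact card_le_card inter_subset_left
  have hsub : ∀ t ∈ F, n t = 3 → ∀ x ∈ t, x ∉ K := fun t ht h3 x hx => by
    have : t ∩ (V \ K) = t := eq_of_subset_of_card_le inter_subset_left (by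
      rw [h.three t ht, ← h3, hn])
    exact (mem_sdiff.1 (mem_inter.1 (this.symm ▸ hx : x ∈ t ∩ (V \ K))).2).2
  have h1 : ∑ t ∈ F, (n t + 2 * (if n t = 0 then 1 else 0) + if n t = 1 then 1 else 0) =
      ∑ t ∈ F, (2 + if n t = 3 then 1 else 0) := sum_congr rfl fun t ht => by
    have := hn3 t ht
    split_ifs <;> omega
  have h2 : ∑ t ∈ F, n t = 4 * (V \ K).card := by
    rw [hn, ← sum_deg, sum_congr rfl hd, sum_const, smul_eq_mul, mul_comm]
  simp only [sum_add_distrib, ← mul_sum, ← card_filter, sum_const, smul_eq_mul] at h1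
  have h3 : L.card ≤ (F.filter fun t => n t = 0).card := card_le_card fun t ht =>
    mem_filter.2 ⟨hL ht, by
      rw [hn, card_eq_zero, ← disjoint_iff_inter_eq_empty]
      exact disjoint_sdiff.mono_left (hL' t ht)⟩
  have one : ∀ {a p q}, T F a p q → a ∉ K → p ∈ K → q ∈ K → n {a, p, q} = 1 := by
    intro a p q k ha hp hq
    rw [hn]
    refine card_eq_one.2 ⟨a, ?_⟩
    ext x
    simp only [mem_inter, mem_insert, mem_singleton, mem_sdiff]
    constructor
    · rintro ⟨rfl | rfl | rfl, -, h2⟩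
      · rfl
      · exact absurd hp h2
      · exact absurd hq h2
    · rintro rfl
      exact ⟨Or.inl rfl, h.mem k, ha⟩
  have h5 := card_mul_le_card_mul (s := F.filter fun t => n t = 3)
    (t := F.filter fun t => n t = 1) (fun t s => ∃ x ∈ t, x ∈ s) (m := 2) (n := 1)
    (fun t ht => by
      obtain ⟨ht, h3⟩ := mem_filter.1 ht
      obtain ⟨a, b, c, k, rfl⟩ := h.exists_T0 ht
      have ha := hsub _ ht h3 a (by simp)
      have hb := hsub _ ht h3 b (by simp)
      have hc := hsub _ ht h3 c (by simp)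
      obtain ⟨⟨p, q, k1, hp, hq⟩, -⟩ := h.local4 hK h4 hd k ha hb hc
      obtain ⟨⟨p', q', k2, hp', hq'⟩, -⟩ := h.local4 hK h4 hd k.rot hb hc ha
      refine one_lt_card.2 ⟨{a, p, q}, ?_, {b, p', q'}, ?_, fun e => ?_⟩
      · exact mem_filter.2 ⟨mem_filter.2 ⟨k1.2.2.2, one k1 ha hp hq⟩, a, by simp, by simp⟩
      · exact mem_filter.2 ⟨mem_filter.2 ⟨k2.2.2.2, one k2 hb hp' hq'⟩, b, by simp, by simp⟩
      · have : a ∈ ({b, p', q'} : Finset ι) := e ▸ (by simp)
        simp only [mem_insert, mem_singleton] at this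
        rcases this with rfl | rfl | rfl
        · exact k.1 rfl
        · exact ha hp'
        · exact ha hq')
    (fun s hs => by
      obtain ⟨hs, h1⟩ := mem_filter.1 hs
      refine card_le_one.2 fun t ht t' ht' => ?_
      obtain ⟨ht, x, hx, hxs⟩ := mem_filter.1 ht
      obtain ⟨ht', x', hx', hxs'⟩ := mem_filter.1 ht'
      obtain ⟨ht, h3⟩ := mem_filter.1 ht
      obtain ⟨ht', h3'⟩ := mem_filter.1 ht'
      rw [hn] at h1
      obtain rfl : x = x' := card_le_one.1 h1.le x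
        (mem_inter.2 ⟨hxs, mem_sdiff.2 ⟨h.sub t ht hx, hsub t ht h3 x hx⟩⟩) x'
        (mem_inter.2 ⟨hxs', mem_sdiff.2 ⟨h.sub t' ht' hx', hsub t' ht' h3' x' hx'⟩⟩)
      obtain ⟨b, c, k, rfl⟩ := h.exists_T ht hx
      obtain ⟨b', c', k', rfl⟩ := h.exists_T ht' hx'
      exact ((h.local4 hK h4 hd k (hsub _ ht h3 x hx) (hsub _ ht h3 b (by simp))
        (hsub _ ht h3 c (by simp))).2 b' c' (hsub _ ht' h3' b' (by simp))
        (hsub _ ht' h3' c' (by simp)) k').symm)
  have h6 := h.card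
  have h7 := card_sdiff_add_card_eq_card hK
  have h8 : (F.filter fun t => n t = 1).card = 0 := by omega
  rw [card_eq_zero, filter_eq_empty_iff] at h8
  by_contra hne
  obtain ⟨v, hv, hvK⟩ := exists_of_ssubset (ssubset_of_ne_of_subset (Ne.symm hne) hK)
  obtain ⟨t, ht⟩ := card_pos.1 (show 0 < L.card by omega)
  obtain ⟨x, hx, hxK⟩ := h.conn (fun s => ∃ x ∈ s, x ∉ K) (by
    obtain ⟨s, hs, hvs⟩ := h.cover v hv
    exact ⟨s, hs, v, hvs, hvK⟩) (by
    rintro p q r d k1 - ⟨x, hx, hxK⟩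
    by_cases hp : p ∈ K
    · by_cases hq : q ∈ K
      · have hr : r ∉ K := by
          simp only [mem_insert, mem_singleton] at hx
          rcases hx with rfl | rfl | rfl
          · exact absurd hp hxK
          · exact absurd hq hxK
          · exact hxK
        exact absurd (one k1.rot' hr hp hq) (h8 k1.rot'.2.2.2)
      · exact ⟨q, by simp, hq⟩
    · exact ⟨p, by simp, hp⟩) t (hL ht)
  exact hxK (hL' t ht hx)

lemma peel (K : Finset ι) (h4 : 4 ≤ K.card) (n : ℕ) : ∀ V F, V.card = n → Tri V F → K ⊆ V →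
    (∀ v ∈ V \ K, deg F v = 3 ∨ deg F v = 4) →
    ((V \ K).filter fun v => deg F v = 3).card + 4 = 2 * K.card →
    ∃ (G : Finset (Finset ι)) (w : ι → ι → ℕ), Tri K G ∧ (∀ a b, w a b = w b a) ∧
      (∀ a b, w a b ≠ 0 → Nb G a b) ∧ (∀ a ∈ K, ∀ b ∈ K, Nb F a b → Nb G a b) ∧
      ∀ v ∈ K, deg F v = 2 * deg G v + ∑ u ∈ K, w v u := by
  induction n using Nat.strong_induction_on with
  | _ n ih =>
  intro V F hn h hK hd hc
  by_cases hex : ∃ y ∈ V \ K, deg F y = 3 ∧ ∃ a, a ∉ K ∧ Nb F y a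
  · obtain ⟨y, hy0, hy3, a₀, ha₀, hya⟩ := hex
    obtain ⟨hyV, hyK⟩ := mem_sdiff.1 hy0
    have hKe : K ⊆ V.erase y := fun x hx => mem_erase.2 ⟨fun e => hyK (e ▸ hx), hK hx⟩
    have hc1 := card_erase_of_mem hyV
    have hc2 : 5 ≤ (V.erase y).card := by
      have := card_le_card (insert_subset
        (mem_erase.2 ⟨hya.ne.symm, h.nb_mem hya.symm⟩ : a₀ ∈ V.erase y) hKe)
      rw [card_insert_of_notMem ha₀] at this
      omega
    have h5 : 5 ≤ V.card := by omega
    obtain ⟨a, b, c, G₁, t, hy, rfl, h1⟩ := h.unstack h5 hy3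
    have hA := (stk_nb_iff t hy).1 hya
    have small : ∀ x ∈ ({a, b, c} : Finset ι), x ∉ K → deg G₁ x = 3 := by
      intro x hx hxK
      have hxy := ((stk_nb_iff t hy).2 hx)
      have e1 := hd x (mem_sdiff.2 ⟨h.nb_mem hxy.symm, hxK⟩)
      have e2 : deg (stk G₁ y a b c) x ≠ 3 := fun e => h.not_nb33 h5 hy3 e hxy
      rw [deg_stk t hy hxy.ne.symm, if_pos hx] at e1 e2
      omega
    obtain ⟨p, q, k, e⟩ := h1.exists_T t.2.2.2 hA
    have hp' : p ∈ ({a, b, c} : Finset ι) := e ▸ (by simp)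
    have hq' : q ∈ ({a, b, c} : Finset ι) := e ▸ (by simp)
    have hp : p ∈ K := by
      by_contra hp
      exact h1.not_nb33 hc2 (small _ hA ha₀) (small p hp' hp) k.nb
    have hq : q ∈ K := by
      by_contra hq
      exact h1.not_nb33 hc2 (small _ hA ha₀) (small q hq' hq) k.nb'
    have same : ∀ x, x ≠ y → x ≠ a₀ → x ∉ K → deg (stk G₁ y a b c) x = deg G₁ x := by
      intro x h1 h2 h3
      rw [deg_stk t hy h1, if_neg, add_zero]
      rw [e]
      simp only [mem_insert, mem_singleton, not_or]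
      exact ⟨h2, fun e => h3 (e ▸ hp), fun e => h3 (e ▸ hq)⟩
    obtain ⟨G, w, g1, g2, g3, g4, g5⟩ := ih (V.erase y).card (by omega) (V.erase y) G₁ rfl h1 hKe
      (fun x hx => by
        obtain ⟨hx, hxK⟩ := mem_sdiff.1 hx
        obtain ⟨hxy, hx⟩ := mem_erase.1 hx
        by_cases hxa : x = a₀
        · exact Or.inl (hxa ▸ small _ hA ha₀)
        · rw [← same x hxy hxa hxK]
          exact hd x (mem_sdiff.2 ⟨hx, hxK⟩))
      (by
        have e1 : ((V.erase y \ K).filter fun v => deg G₁ v = 3) =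
            insert a₀ (((V \ K).filter fun v => deg (stk G₁ y a b c) v = 3).erase y) := by
          ext x
          simp only [mem_filter, mem_sdiff, mem_erase, mem_insert]
          by_cases hxa : x = a₀
          · subst hxa
            simp [hya.ne.symm, h.nb_mem hya.symm, ha₀, small _ hA ha₀]
          · constructor
            · rintro ⟨⟨⟨h1, h2⟩, h3⟩, h4⟩
              exact Or.inr ⟨h1, ⟨h2, h3⟩, by rwa [same x h1 hxa h3]⟩
            · rintro (h1 | ⟨h1, ⟨h2, h3⟩, h4⟩)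
              · exact absurd h1 hxa
              · exact ⟨⟨⟨h1, h2⟩, h3⟩, by rwa [same x h1 hxa h3] at h4⟩
        have e2 : y ∈ (V \ K).filter fun v => deg (stk G₁ y a b c) v = 3 :=
          mem_filter.2 ⟨hy0, hy3⟩
        have e3 : a₀ ∉ ((V \ K).filter fun v => deg (stk G₁ y a b c) v = 3).erase y := fun hh =>
          h.not_nb33 h5 hy3 (mem_filter.1 (mem_erase.1 hh).2).2 hya
        rw [e1, card_insert_of_notMem e3, card_erase_of_mem e2]
        have := card_pos.2 ⟨y, e2⟩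
        omega)
    have hne : ∀ x ∈ K, x ≠ y := fun x hx e => hyK (e ▸ hx)
    have hpq := k.2.2.1
    refine ⟨G, fun u v => w u v + ((if u = p ∧ v = q then 1 else 0) + if u = q ∧ v = p then 1 else 0),
      g1, fun u v => ?_, fun u v huv => ?_,
      fun u hu v hv k' => g4 u hu v hv (stk_nb t hy (hne u hu) (hne v hv) k'), fun v hv => ?_⟩
    · beta_reduce
      rw [g2 u v, add_comm (if u = p ∧ v = q then 1 else 0)]
      simp only [and_comm]
    · by_cases h1 : u = p ∧ v = q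
      · obtain ⟨rfl, rfl⟩ := h1
        exact g4 _ hp _ hq k.rot.nb
      by_cases h2 : u = q ∧ v = p
      · obtain ⟨rfl, rfl⟩ := h2
        exact g4 _ hq _ hp k.rot.nb.symm
      exact g3 u v (by simpa [h1, h2] using huv)
    · rw [deg_stk t hy (hne v hv), g5 v hv, sum_add_distrib, sum_add_distrib, add_assoc, e]
      congr 2
      have hva : v ≠ a₀ := fun e => ha₀ (e ▸ hv)
      by_cases h1 : v = p
      · subst h1
        simp [hpq, hq]
      by_cases h2 : v = q
      · subst h2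
        simp [h1, hp]
      simp [hva, h1, h2]
  · push Not at hex
    obtain ⟨Y, hY⟩ : ∃ Y, Y = (V \ K).filter fun v => deg F v = 3 := ⟨_, rfl⟩
    have mY : ∀ x, x ∈ Y ↔ (x ∈ V ∧ x ∉ K) ∧ deg F x = 3 := by simp [hY]
    have hKY : K ⊆ V \ Y := fun x hx => mem_sdiff.2 ⟨hK hx, fun hh => ((mY x).1 hh).1.2 hx⟩
    obtain ⟨G, L, g1, g2, g3, -, g5, g6, g7⟩ := unstack_all Y V F h
      (fun x hx => ((mY x).1 hx).1.1) (h4.trans (card_le_card hKY)) fun x hx => ((mY x).1 hx).2
    have hL : ∀ t ∈ L, t ⊆ K := by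
      intro t ht v hv
      obtain ⟨y, hy, hy'⟩ := g7 t ht
      by_contra hvK
      exact hex y (mem_sdiff.2 ((mY y).1 hy).1) ((mY y).1 hy).2 v hvK (hy' v hv)
    rw [← hY, ← g3] at hc
    have e := g1.no_four hKY h4 (fun v hv => by
      obtain ⟨hv, hvK⟩ := mem_sdiff.1 hv
      have e1 : deg L v = 0 := by
        rw [deg, card_eq_zero, filter_eq_empty_iff]
        exact fun t ht hh => hvK (hL t ht hh)
      have e2 := g5 v hv
      have e3 := hd v (mem_sdiff.2 ⟨(mem_sdiff.1 hv).1, hvK⟩)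
      have e4 : deg F v ≠ 3 := fun e => (mem_sdiff.1 hv).2 ((mY v).2 ⟨⟨(mem_sdiff.1 hv).1, hvK⟩, e⟩)
      omega) g2 hL hc
    rw [e] at g1 g5 g6
    obtain rfl : L = G := eq_of_subset_of_card_le g2 (by
      have := g1.card
      omega)
    exact ⟨L, fun _ _ => 0, g1, fun _ _ => rfl, fun _ _ h => absurd rfl h, g6, fun v hv => by
      rw [g5 v hv]
      simp [two_mul]⟩

end Pool.Agent.P.MP_e40812_co
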