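import Pool.Agent.P.MP_e40812_co.Peel

/-!
Degree multisets that force a partition of given numbers into triples with given sums.
-/

namespace Pool.Agent.P.MP_e40812_co

open Finset

/-- The degrees of the vertices created by subdividing a triangle `j` times. -/
def lev : ℕ → Multiset ℕ
  | 0 => 0
  | j + 1 => {3 * 2 ^ j} + 3 • lev j

/-- The numbers `a` can be split into triples whose sums are the numbers `B`. -/
def TS (a B : Multiset ℕ) : Prop :=
  ∃ l : Multiset (Multiset ℕ), (∀ g ∈ l, g.card = 3) ∧ l.sum = a ∧ l.map Multiset.sum = B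

/-- The degrees of the vertices of the base triangulation. -/
def top (M : ℕ) (z a B : Multiset ℕ) : Multiset ℕ :=
  z.map (fun x => M * x) + B.map (fun x => M * 6 + x) + a.map fun x => M * 3 + x

lemma lev_dvd (j : ℕ) : ∀ x ∈ lev j, 3 ≤ x ∧ 3 ∣ x := by
  induction j with
  | zero => simp [lev]
  | succ j ih =>
    intro x hx
    rcases Multiset.mem_add.1 hx with h | h
    · rw [Multiset.mem_singleton.1 h]
      have := Nat.two_pow_pos j
      exact ⟨by omega, dvd_mul_right _ _⟩
    · exact ih x (Multiset.mem_of_mem_nsmul h)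

/-- A weighted triangulation with prescribed values on a set `K` of vertices. -/
def Inv (ι : Type*) [DecidableEq ι] (i : ℕ) (u : Multiset ℕ) : Prop :=
  ∃ (V K : Finset ι) (F : Finset (Finset ι)) (w : ι → ι → ℕ), Tri V F ∧ (∀ a b, w a b = w b a) ∧
    (∀ a b, w a b ≠ 0 → Nb F a b) ∧ K ⊆ V ∧ (∀ v ∈ V \ K, deg F v = 4 ∧ ∑ x ∈ V, w v x = 0) ∧
    (i ≠ 0 → V = K) ∧ K.val.map (fun v => 2 ^ i * deg F v + ∑ x ∈ V, w v x) = u

variable {ι : Type*} [DecidableEq ι]

lemma map_filter_val {α β : Type*} (K : Finset α) (f : α → β) (p : β → Prop) [DecidablePred p] :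
    (K.filter fun v => p (f v)).val.map f = (K.val.map f).filter p := by
  rw [Multiset.filter_map, filter_val]
  rfl

lemma map_val_eq_sum {α β : Type*} (s : Finset α) (f : α → β) :
    s.val.map f = ∑ a ∈ s, ({f a} : Multiset β) := by
  rw [sum_eq_multiset_sum, ← Multiset.sum_map_singleton (s.val.map f), Multiset.map_map]
  rfl

lemma Inv.step {i f : ℕ} {u : Multiset ℕ} (hu : ∀ x ∈ u, x ≠ 3 * 2 ^ i) (h4 : 4 ≤ u.card)
    (hf : f + 4 = 2 * u.card) (h : Inv ι i (u + Multiset.replicate f (3 * 2 ^ i))) :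
    Inv ι (i + 1) u := by
  obtain ⟨V, K, F, w, h, w1, w2, hK, hs, -, e⟩ := h
  obtain ⟨val, hval⟩ : ∃ val : ι → ℕ, val = fun v => 2 ^ i * deg F v + ∑ x ∈ V, w v x := ⟨_, rfl⟩
  rw [← hval] at e
  obtain ⟨K', hK'⟩ : ∃ K', K' = K.filter fun v => val v ≠ 3 * 2 ^ i := ⟨_, rfl⟩
  have e1 : K'.val.map val = u := by
    rw [hK', map_filter_val K val fun x => x ≠ 3 * 2 ^ i, e, Multiset.filter_add,
      Multiset.filter_eq_self.2 hu, Multiset.filter_eq_nil.2 (by
        intro x hx
        simp [Multiset.eq_of_mem_replicate hx]), add_zero]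
  have c1 : K'.card = u.card := by rw [← e1, Multiset.card_map, card_val]
  have c2 : (K.filter fun v => val v = 3 * 2 ^ i).card = f := by
    have c3 : K.card = u.card + f := by
      rw [← card_val, ← Multiset.card_map val, e, Multiset.card_add, Multiset.card_replicate]
    have := card_filter_add_card_filter_not (s := K) fun v => val v = 3 * 2 ^ i
    rw [hK'] at c1
    simp only [ne_eq] at c1
    omega
  have hKK : K' ⊆ K := hK' ▸ filter_subset _ _
  have hY : ∀ v ∈ K, val v = 3 * 2 ^ i → deg F v = 3 ∧ ∑ x ∈ V, w v x = 0 := by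
    intro v hv h1
    have h2 := Nat.mul_le_mul_left (2 ^ i) (h.three_le (hK hv))
    rw [hval] at h1
    beta_reduce at h1
    exact ⟨Nat.eq_of_mul_eq_mul_left (Nat.two_pow_pos i) (by omega), by omega⟩
  have hout : ∀ v ∈ V, v ∉ K' → (v ∈ K ∧ val v = 3 * 2 ^ i) ∨ v ∈ V \ K := by
    intro v hv hv'
    by_cases hvK : v ∈ K
    · exact Or.inl ⟨hvK, by simpa [hK', hvK] using hv'⟩
    · exact Or.inr (mem_sdiff.2 ⟨hv, hvK⟩)
  obtain ⟨G, w', g1, g2, g3, g4, g5⟩ := peel K' (by omega) _ V F rfl h (hKK.trans hK)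
    (fun v hv => by
      rcases hout v (mem_sdiff.1 hv).1 (mem_sdiff.1 hv).2 with k | k
      · exact Or.inl (hY v k.1 k.2).1
      · exact Or.inr (hs v k).1)
    (by
      have : ((V \ K').filter fun v => deg F v = 3) = K.filter fun v => val v = 3 * 2 ^ i := by
        ext v
        simp only [mem_filter, mem_sdiff]
        constructor
        · rintro ⟨⟨h1, h2⟩, h3⟩
          rcases hout v h1 h2 with k | k
          · exact k
          · have := (hs v k).1
            omega
        · rintro ⟨h1, h2⟩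
          exact ⟨⟨hK h1, by simp [hK', h2]⟩, (hY v h1 h2).1⟩
      rw [this]
      omega)
  have hz : ∀ v ∈ V, v ∉ K' → ∀ x ∈ V, w v x = 0 := by
    intro v hv hv'
    rw [← sum_eq_zero_iff]
    rcases hout v hv hv' with k | k
    · exact (hY v k.1 k.2).2
    · exact (hs v k).2
  refine ⟨K', K', G, fun a b => 2 ^ i * w' a b + w a b, g1, fun a b => by simp only [g2 a b, w1 a b],
    fun a b hab => ?_, Subset.refl _, by simp, fun _ => rfl, ?_⟩
  · by_cases h1 : w' a b = 0
    · have h2 : w a b ≠ 0 := by simpa [h1] using hab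
      have h3 := w2 a b h2
      refine g4 a ?_ b ?_ h3
      · by_contra ha
        exact h2 (hz a (h.nb_mem h3) ha b (h.nb_mem h3.symm))
      · by_contra hb
        exact h2 ((w1 a b).trans (hz b (h.nb_mem h3.symm) hb a (h.nb_mem h3)))
    · exact g3 a b h1
  · rw [← e1]
    refine Multiset.map_congr rfl fun v hv => ?_
    have hv' : v ∈ K' := hv
    have : ∑ x ∈ K', w v x = ∑ x ∈ V, w v x := sum_subset (hKK.trans hK) fun x hx hx' =>
      (w1 v x).trans (hz x hx hx' v (hK (hKK hv')))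
    rw [hval]
    beta_reduce
    rw [sum_add_distrib, ← mul_sum, this, g5 v hv']
    ring

lemma Inv.levels (n : ℕ) : ∀ (u : Multiset ℕ) (f : ℕ), f + 4 = 2 * u.card → 4 ≤ u.card →
    (∀ x ∈ u, 3 * 2 ^ n ≤ x) → Inv ι 0 (u + f • lev n) → Inv ι n u := by
  induction n with
  | zero =>
    intro u f _ _ _ h
    simpa [lev] using h
  | succ n ih =>
    intro u f hf h4 hu h
    have h2 := Nat.two_pow_pos n
    refine Inv.step (fun x hx => ?_) h4 hf (ih _ (3 * f) ?_ ?_ (fun x hx => ?_) ?_)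
    · have := hu x hx
      omega
    · rw [Multiset.card_add, Multiset.card_replicate]
      omega
    · rw [Multiset.card_add]
      omega
    · rcases Multiset.mem_add.1 hx with k | k
      · have := hu x k
        omega
      · exact (Multiset.eq_of_mem_replicate k).ge
    · rwa [lev, nsmul_add, Multiset.nsmul_singleton, smul_smul, mul_comm f 3, ← add_assoc] at h

lemma Inv.decode {j : ℕ} {u : Multiset ℕ} (hj : j ≠ 0) (h : Inv ι j u)
    (hs : (u.map fun x => x / 2 ^ j).sum + 12 = 6 * u.card) :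
    ∃ (V : Finset ι) (F : Finset (Finset ι)) (w : ι → ι → ℕ), Tri V F ∧ (∀ a b, w a b = w b a) ∧
      (∀ a b, w a b ≠ 0 → Nb F a b) ∧
      V.val.map (fun v => (deg F v, ∑ x ∈ V, w v x)) = u.map fun x => (x / 2 ^ j, x % 2 ^ j) := by
  obtain ⟨V, K, F, w, h, w1, w2, -, -, hV, rfl⟩ := h
  obtain rfl := hV hj
  refine ⟨V, F, w, h, w1, w2, ?_⟩
  have h2 := Nat.two_pow_pos j
  rw [Multiset.map_map, Multiset.card_map, card_val, ← h.sum_deg] at hs
  have h1 : ∑ v ∈ V, (deg F v + (∑ x ∈ V, w v x) / 2 ^ j) = ∑ v ∈ V, deg F v := by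
    rw [← Nat.add_right_cancel hs, sum_eq_multiset_sum]
    congr 1
    exact Multiset.map_congr rfl fun v _ => (Nat.mul_add_div h2 _ _).symm
  rw [sum_add_distrib, Nat.add_eq_left, sum_eq_zero_iff] at h1
  rw [Multiset.map_map]
  refine Multiset.map_congr rfl fun v hv => ?_
  have h3 := h1 v hv
  simp only [Function.comp]
  rw [Nat.mul_add_div h2, h3, add_zero, Nat.mul_add_mod,
    Nat.mod_eq_of_lt ((Nat.div_eq_zero_iff_lt h2).1 h3)]

lemma groups {V X Y : Finset ι} {F : Finset (Finset ι)} {w : ι → ι → ℕ} (h : Tri V F)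
    (h5 : 5 ≤ V.card) (w1 : ∀ a b, w a b = w b a) (w2 : ∀ a b, w a b ≠ 0 → Nb F a b)
    (hX : ∀ x ∈ X, deg F x = 6) (hY : ∀ y ∈ Y, deg F y = 3 ∧ ∑ x ∈ V, w y x ≠ 0) (hYV : Y ⊆ V)
    (hc : Y.card = 3 * X.card) (hw : ∀ v ∈ V, ∑ x ∈ V, w v x ≠ 0 → v ∈ X ∨ v ∈ Y) :
    TS (Y.val.map fun v => ∑ x ∈ V, w v x) (X.val.map fun v => ∑ x ∈ V, w v x) := by
  classical
  have hYY : ∀ y ∈ Y, ∀ y' ∈ Y, ¬ Nb F y y' := fun y hy y' hy' =>
    h.not_nb33 h5 (hY y hy).1 (hY y' hy').1
  have hw' : ∀ a b, w a b ≠ 0 → b ∈ X ∨ b ∈ Y := fun a b hab =>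
    hw b (h.nb_mem (w2 a b hab).symm) fun h0 =>
      hab ((w1 a b).trans (sum_eq_zero_iff.1 h0 a (h.nb_mem (w2 a b hab))))
  have one : ∀ t ∈ F, (t ∩ Y).card ≤ 1 := fun t ht => card_le_one.2 fun a ha b hb => by
    by_contra hab
    obtain ⟨c, k, -⟩ := h.exists_T2 ht (mem_inter.1 ha).1 (mem_inter.1 hb).1 hab
    exact hYY a (mem_inter.1 ha).2 b (mem_inter.1 hb).2 k.nb
  have dbl : ∀ x ∈ X, ∑ t ∈ F.filter fun t => x ∈ t, (t ∩ Y).card =
      2 * (Y.filter fun y => Nb F x y).card := by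
    intro x hx
    rw [← sum_deg, card_filter, mul_sum]
    refine sum_congr rfl fun y hy => ?_
    split_ifs with k
    · exact h.two k
    · rw [mul_zero, deg, card_eq_zero, filter_eq_empty_iff]
      intro t ht hyt
      obtain ⟨c, k', -⟩ := h.exists_T2 (mem_filter.1 ht).1 (mem_filter.1 ht).2 hyt (by
        rintro rfl
        have := hX x hx
        have := (hY x hy).1
        omega)
      exact k k'.nb
  have le3 : ∀ x ∈ X, (Y.filter fun y => Nb F x y).card ≤ 3 := by
    intro x hx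
    have h1 := dbl x hx
    have h2 := sum_le_card_nsmul (F.filter fun t => x ∈ t) (fun t => (t ∩ Y).card) 1
      fun t ht => one t (mem_filter.1 ht).1
    have h3 := hX x hx
    rw [deg] at h3
    rw [h3, smul_eq_mul] at h2
    omega
  have ge1 : ∀ y ∈ Y, ∀ b, w y b ≠ 0 → b ∈ X.filter fun x => Nb F x y := fun y hy b hb =>
    mem_filter.2 ⟨(hw' y b hb).resolve_right fun hb' => hYY y hy b hb' (w2 y b hb),
      (w2 y b hb).symm⟩
  have ge1' : ∀ y ∈ Y, 1 ≤ (X.filter fun x => Nb F x y).card := fun y hy => by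
    obtain ⟨b, -, hb⟩ := exists_ne_zero_of_sum_ne_zero (hY y hy).2
    exact card_pos.2 ⟨b, ge1 y hy b hb⟩
  have dc := sum_card_bipartiteAbove_eq_sum_card_bipartiteBelow (s := X) (t := Y)
    fun x y => Nb F x y
  simp only [bipartiteAbove, bipartiteBelow] at dc
  have s1 := sum_le_sum le3
  have s2 := sum_le_sum ge1'
  have eq3 := (sum_eq_sum_iff_of_le le3).1 (by
    simp only [sum_const, smul_eq_mul] at *
    omega)
  have eq1 := (sum_eq_sum_iff_of_le ge1').1 (by
    simp only [sum_const, smul_eq_mul] at *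
    omega)
  have uq : ∀ y ∈ Y, ∀ x ∈ X, ∀ x' ∈ X, Nb F x y → Nb F x' y → x = x' := fun y hy x hx x' hx' k k' =>
    card_le_one.1 (eq1 y hy).ge x (mem_filter.2 ⟨hx, k⟩) x' (mem_filter.2 ⟨hx', k'⟩)
  have hXX : ∀ x ∈ X, ∀ x' ∈ X, ¬ Nb F x x' := by
    rintro x hx x' hx' ⟨z, k⟩
    have h1 := (sum_eq_sum_iff_of_le (s := F.filter fun t => x ∈ t)
      fun t ht => one t (mem_filter.1 ht).1).1 (by
        rw [dbl x hx, eq3 x hx, sum_const, smul_eq_mul, mul_one]
        exact (hX x hx).symm) _ (mem_filter.2 ⟨k.2.2.2, by simp⟩)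
    obtain ⟨y, hy⟩ := card_pos.1 h1.ge
    obtain ⟨hy1, hy2⟩ := mem_inter.1 hy
    have h2 := (hY y hy2).1
    simp only [mem_insert, mem_singleton] at hy1
    rcases hy1 with rfl | rfl | rfl
    · have := hX y hx
      omega
    · have := hX y hx'
      omega
    · exact k.1 (uq y hy2 x hx x' hx' k.nb' k.rot.nb)
  refine ⟨X.val.map fun x => (Y.filter fun y => Nb F x y).val.map fun v => ∑ x ∈ V, w v x,
    fun g hg => ?_, ?_, ?_⟩
  · obtain ⟨x, hx, rfl⟩ := Multiset.mem_map.1 hg
    rw [Multiset.card_map, card_val, eq3 x hx]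
  · rw [← sum_eq_multiset_sum]
    simp only [map_val_eq_sum, sum_filter]
    rw [sum_comm]
    refine sum_congr rfl fun y hy => ?_
    rw [← sum_filter, sum_const, ← eq1 y hy, one_smul]
  · rw [Multiset.map_map]
    refine Multiset.map_congr rfl fun x hx => ?_
    have hx' : x ∈ X := hx
    simp only [Function.comp]
    rw [← sum_eq_multiset_sum, ← sum_subset (s₁ := Y.filter fun y => Nb F x y)
      ((filter_subset _ _).trans hYV) fun b _ hb => ?_]
    · refine sum_congr rfl fun y hy => ?_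
      obtain ⟨hy, k⟩ := mem_filter.1 hy
      rw [sum_eq_single_of_mem x (h.nb_mem k) fun b _ hb => ?_, w1]
      by_contra h0
      exact hb (uq y hy b (mem_filter.1 (ge1 y hy b h0)).1 x hx' (w2 y b h0).symm k)
    · by_contra h0
      rcases hw' x b h0 with k | k
      · exact hXX x hx' b k (w2 x b h0)
      · exact hb (mem_filter.2 ⟨k, w2 x b h0⟩)

theorem rigid {V : Finset ι} {F : Finset (Finset ι)} {j f W : ℕ} {z a B : Multiset ℕ}
    (h : Tri V F) (hj : j ≠ 0) (hz : ∀ x ∈ z, 3 ≤ x) (ha : ∀ x ∈ a, 0 < x ∧ x < 2 ^ j)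
    (hB : ∀ x ∈ B, 0 < x ∧ x < 2 ^ j) (hc : a.card = 3 * B.card) (h5 : 5 ≤ z.card)
    (hs : z.sum + 12 = 6 * z.card + 3 * a.card) (hf : f + 4 = 2 * (z.card + B.card + a.card))
    (e : V.val.map (deg F) = top (2 ^ j) z a B + f • lev j + Multiset.replicate W 4) :
    TS a B := by
  have h2 := Nat.two_pow_pos j
  have hcard : (top (2 ^ j) z a B).card = z.card + B.card + a.card := by simp [top]
  have hge : ∀ x ∈ top (2 ^ j) z a B, 3 * 2 ^ j ≤ x := by
    intro x hx
    simp only [top, Multiset.mem_add, Multiset.mem_map] at hx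
    rcases hx with (⟨y, hy, rfl⟩ | ⟨y, hy, rfl⟩) | ⟨y, hy, rfl⟩
    · rw [mul_comm 3]
      exact Nat.mul_le_mul_left _ (hz y hy)
    · omega
    · omega
  have i0 : Inv ι 0 (top (2 ^ j) z a B + f • lev j) := by
    refine ⟨V, V.filter fun v => deg F v ≠ 4, F, fun _ _ => 0, h, fun _ _ => rfl,
      fun _ _ h => absurd rfl h, filter_subset _ _, fun v hv => ?_, fun h => absurd rfl h, ?_⟩
    · simpa [(mem_sdiff.1 hv).1] using (mem_sdiff.1 hv).2
    · simp only [pow_zero, one_mul, sum_const_zero, add_zero]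
      rw [map_filter_val V (deg F) fun x => x ≠ 4, e, Multiset.filter_add,
        Multiset.filter_eq_self.2, Multiset.filter_eq_nil.2 (by
          intro x hx
          simp [Multiset.eq_of_mem_replicate hx]), add_zero]
      intro x hx
      rcases Multiset.mem_add.1 hx with k | k
      · have h3 := hge x k
        have h4 : 2 ^ 1 ≤ 2 ^ j := Nat.pow_le_pow_right (by omega) (by omega)
        omega
      · have := (lev_dvd j x (Multiset.mem_of_mem_nsmul k)).2
        omega
  have dm : (top (2 ^ j) z a B).map (fun x => (x / 2 ^ j, x % 2 ^ j)) =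
      z.map (fun x => (x, 0)) + B.map (fun x => (6, x)) + a.map fun x => (3, x) := by
    simp only [top, Multiset.map_add, Multiset.map_map]
    congr 1
    congr 1
    · exact Multiset.map_congr rfl fun x _ => by simp [Nat.mul_div_cancel_left x h2]
    · refine Multiset.map_congr rfl fun x hx => ?_
      simp only [Function.comp]
      rw [Nat.mul_add_div h2, Nat.mul_add_mod, Nat.div_eq_of_lt (hB x hx).2,
        Nat.mod_eq_of_lt (hB x hx).2]
    · refine Multiset.map_congr rfl fun x hx => ?_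
      simp only [Function.comp]
      rw [Nat.mul_add_div h2, Nat.mul_add_mod, Nat.div_eq_of_lt (ha x hx).2,
        Nat.mod_eq_of_lt (ha x hx).2]
  obtain ⟨U, G, w, g, w1, w2, e'⟩ := (Inv.levels j _ f (by omega) (by omega) hge i0).decode hj (by
    have := congrArg (fun s => (s.map Prod.fst).sum) dm
    simp only [Multiset.map_map, Multiset.map_add, Multiset.sum_add, Function.comp,
      Multiset.map_id', Multiset.map_const', Multiset.sum_replicate, smul_eq_mul] at this
    omega)
  rw [dm] at e'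
  obtain ⟨pr, hpr⟩ : ∃ pr : ι → ℕ × ℕ, pr = fun v => (deg G v, ∑ x ∈ U, w v x) := ⟨_, rfl⟩
  have key : ∀ d : ℕ, ((U.filter fun v => (pr v).1 = d ∧ (pr v).2 ≠ 0).val.map
      fun v => ∑ x ∈ U, w v x) = (if d = 6 then B else 0) + if d = 3 then a else 0 := by
    intro d
    have e1 := congrArg (Multiset.map Prod.snd)
      (map_filter_val U pr fun p => p.1 = d ∧ p.2 ≠ 0)
    rw [Multiset.map_map] at e1
    rw [hpr] at e1 ⊢
    refine e1.trans ?_
    rw [e']
    simp only [Multiset.filter_add, Multiset.filter_map, Multiset.map_add, Multiset.map_map,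
      Function.comp, Multiset.map_id', ne_eq, not_true, and_false, Multiset.filter_false,
      Multiset.map_zero, zero_add]
    congr 1
    · split_ifs with k
      · exact Multiset.filter_eq_self.2 fun x hx => ⟨k.symm, (hB x hx).1.ne'⟩
      · exact Multiset.filter_eq_nil.2 fun x _ hh => k hh.1.symm
    · split_ifs with k
      · exact Multiset.filter_eq_self.2 fun x hx => ⟨k.symm, (ha x hx).1.ne'⟩
      · exact Multiset.filter_eq_nil.2 fun x _ hh => k hh.1.symm
  have k6 := key 6
  have k3 := key 3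
  simp only [if_true, if_false, Nat.reduceEqDiff, add_zero, zero_add] at k6 k3
  have c6 := congrArg Multiset.card k6
  have c3 := congrArg Multiset.card k3
  have cU := congrArg Multiset.card e'
  simp only [Multiset.card_map, card_val, Multiset.card_add] at c6 c3 cU
  rw [← k6, ← k3]
  refine groups g (by omega) w1 w2 (fun x hx => ?_) (fun y hy => ?_) (filter_subset _ _)
    (by omega) fun v hv hv' => ?_
  · simpa [hpr] using (mem_filter.1 hx).2.1
  · simpa only [hpr] using (mem_filter.1 hy).2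
  · have : pr v ∈ U.val.map pr := Multiset.mem_map_of_mem _ hv
    have hv'' : (pr v).2 ≠ 0 := by rwa [hpr]
    rw [hpr, e', ← hpr] at this
    simp only [Multiset.mem_add, Multiset.mem_map] at this
    rcases this with (⟨y, -, k⟩ | ⟨y, -, k⟩) | ⟨y, -, k⟩
    · exact absurd (by rw [← k]) hv''
    · exact Or.inl (mem_filter.2 ⟨hv, by rw [← k], hv''⟩)
    · exact Or.inr (mem_filter.2 ⟨hv, by rw [← k], hv''⟩)

end Pool.Agent.P.MP_e40812_co
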