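import Pool.Agent.P.MP_e40812_co.StDefs

/-!
First properties of abstract polyhedral maps: duality, parity of cuts, three-connectivity.
-/

namespace Pool.Agent.P.MP_e40812_co.St

open Finset

variable {V F : Type*} {I : V → F → Prop} {u v w x y : V} {A B C : F}

lemma Sq.symm (h : Sq I u v A B) : Sq I v u A B :=
  ⟨h.1.symm, h.2.1, h.2.2.2.2.1, h.2.2.2.2.2, h.2.2.1, h.2.2.2.1⟩

lemma Sq.swap (h : Sq I u v A B) : Sq I u v B A :=
  ⟨h.1, h.2.1.symm, h.2.2.2.1, h.2.2.1, h.2.2.2.2.2, h.2.2.2.2.1⟩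

lemma Sq.tr (h : Sq I u v A B) : Sq (tr I) A B u v :=
  ⟨h.2.1, h.1, h.2.2.1, h.2.2.2.2.1, h.2.2.2.1, h.2.2.2.2.2⟩

lemma Sq.of_tr (h : Sq (St.tr I) A B u v) : Sq I u v A B := Sq.tr (I := St.tr I) h

lemma Sq.uA (h : Sq I u v A B) : I u A := h.2.2.1
lemma Sq.uB (h : Sq I u v A B) : I u B := h.2.2.2.1
lemma Sq.vA (h : Sq I u v A B) : I v A := h.2.2.2.2.1
lemma Sq.vB (h : Sq I u v A B) : I v B := h.2.2.2.2.2
lemma Sq.ei (h : Sq I u v A B) : Ei I A u v := ⟨B, h⟩
lemma Sq.ed (h : Sq I u v A B) : Ed I u v := ⟨A, B, h⟩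

lemma Ei.symm (h : Ei I A u v) : Ei I A v u := h.imp fun _ k => k.symm
lemma Ei.ed (h : Ei I A u v) : Ed I u v := ⟨A, h⟩
lemma Ei.ne (h : Ei I A u v) : u ≠ v := h.elim fun _ k => k.1
lemma Ei.fst (h : Ei I A u v) : I u A := h.elim fun _ k => k.uA
lemma Ei.snd (h : Ei I A u v) : I v A := h.elim fun _ k => k.vA
lemma Ed.symm (h : Ed I u v) : Ed I v u := h.imp fun _ k => Ei.symm k
lemma Ed.ne (h : Ed I u v) : u ≠ v := h.elim fun _ k => Ei.ne k

lemma Conn.symm {S : V → Prop} (h : Conn I S u v) : Conn I S v u := by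
  induction h with
  | refl => exact .refl
  | tail _ k ih => exact .head ⟨k.1.symm, k.2.2, k.2.1⟩ ih

lemma Conn.mono {S T : V → Prop} (h : Conn I S u v) (hST : ∀ z, S z → T z) : Conn I T u v := by
  induction h with
  | refl => exact .refl
  | tail _ k ih => exact .tail ih ⟨k.1, hST _ k.2.1, hST _ k.2.2⟩

lemma Conn.mem {S : V → Prop} (h : Conn I S u v) (hu : S u) : S v := by
  induction h with
  | refl => exact hu
  | tail _ k _ => exact k.2.2

lemma Loc.eq_or (h : Loc I) (s : Sq I u v A B) (h1 : I u C) (h2 : I v C) : C = A ∨ C = B := by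
  rcases h.three u v A B C s.1 s.uA s.vA s.uB s.vB h1 h2 with k | k | k
  · exact absurd k s.2.1
  · exact Or.inl k.symm
  · exact Or.inr k.symm

lemma Loc.other (h : Loc I) (s : Sq I u v A B) (t : Sq I u v A C) : B = C :=
  ((h.eq_or s t.uB t.vB).resolve_left t.2.1.symm).symm

lemma Loc.ei (h : Loc I) (e : Ed I u v) (h1 : I u C) (h2 : I v C) : Ei I C u v := by
  obtain ⟨A, B, s⟩ := e
  rcases h.eq_or s h1 h2 with rfl | rfl
  · exact s.ei
  · exact s.swap.ei

lemma Loc.ei_or (h : Loc I) (s : Ei I A v u) (t : Ei I A v w) (huw : u ≠ w) (r : Ei I A v x) :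
    x = u ∨ x = w := by
  obtain ⟨B, s⟩ := s
  obtain ⟨C, t⟩ := t
  obtain ⟨D, r⟩ := r
  rcases h.le2 v A u w x B C D s t r with k | k | k
  · exact absurd k huw
  · exact Or.inl k.symm
  · exact Or.inr k.symm

/-- The second edge of a face at a vertex. -/
lemma Loc.next (h : Loc I) (s : Ei I A v u) : ∃ w, w ≠ u ∧ Ei I A v w := by
  obtain ⟨a, b, B, C, hab, sa, sb⟩ := h.two v A s.fst
  by_cases k : a = u
  · exact ⟨b, fun e => hab (k.trans e.symm), sb.ei⟩
  · exact ⟨a, k, sa.ei⟩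

/-- Two faces share at most two vertices. -/
lemma Loc.mem_or (h : Loc (tr I)) (s : Sq I u v A B) (h1 : I w A) (h2 : I w B) :
    w = u ∨ w = v := h.eq_or s.tr h1 h2

lemma sum_anti [Fintype V] {K : Type*} [AddCommGroup K] (c : V → V → K)
    (h : ∀ u v, c u v = -c v u) (h0 : ∀ u, c u u = 0) : ∑ u, ∑ v, c u v = 0 := by
  rw [← sum_product']
  refine sum_involution (fun p _ => p.swap) (fun p _ => ?_) (fun p _ k e => k ?_)
    (fun p _ => by simp) (fun p _ => rfl)
  · simp [h p.1 p.2]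
  · have : p.2 = p.1 := congrArg Prod.fst e
    rw [this, h0]

lemma Loc.sum_ei [Fintype V] (h : Loc I) {K : Type*} [AddCommMonoid K] (s : Ei I A v u)
    (t : Ei I A v w) (huw : u ≠ w) (f : V → K) (hf : ∀ x, ¬ Ei I A v x → f x = 0) :
    ∑ x, f x = f u + f w :=
  Fintype.sum_eq_add u w huw fun x hx => hf x fun r => (h.ei_or s t huw r).elim hx.1 hx.2

lemma Loc.sum_fc [Fintype F] (h : Loc I) {K : Type*} [AddCommMonoid K] (s : Sq I u v A B)
    (f : F → K) (hf : ∀ C, ¬ Ei I C u v → f C = 0) : ∑ C, f C = f A + f B :=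
  Fintype.sum_eq_add A B s.2.1 fun C hC => hf C fun r => (h.eq_or s r.fst r.snd).elim hC.1 hC.2

/-- A cut meets the boundary of a face in no or in at least two edges. -/
lemma Loc.another [Fintype V] (h : Loc I) (S : V → Prop) (s : Ei I A x y) (hx : S x)
    (hy : ¬ S y) : ∃ a b, Ei I A a b ∧ S a ∧ ¬ S b ∧ ¬ (a = x ∧ b = y) := by
  classical
  by_contra hn
  push Not at hn
  have h1 := sum_anti (K := ZMod 2) (fun a b => if Ei I A a b ∧ S a ∧ S b then 1 else 0)
    (fun a b => by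
      rw [ZMod.neg_eq_self_mod_two]
      exact if_congr ⟨fun k => ⟨k.1.symm, k.2.2, k.2.1⟩, fun k => ⟨k.1.symm, k.2.2, k.2.1⟩⟩ rfl rfl)
    (fun a => if_neg fun k => k.1.ne rfl)
  have h2 : ∑ a, ∑ b, (if Ei I A a b ∧ S a then 1 else 0 : ZMod 2) = 0 := by
    refine sum_eq_zero fun a _ => ?_
    by_cases ha : I a A
    · obtain ⟨p, q, B, C, hpq, sp, sq⟩ := h.two a A ha
      rw [h.sum_ei sp.ei sq.ei hpq _ fun z hz => if_neg fun k => hz k.1]
      simp only [sp.ei, sq.ei, true_and]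
      split_ifs <;> rfl
    · exact sum_eq_zero fun b _ => if_neg fun k => ha k.1.fst
  have h3 : ∀ a b, (if Ei I A a b ∧ S a then 1 else 0 : ZMod 2) =
      (if Ei I A a b ∧ S a ∧ S b then 1 else 0) + if a = x then if b = y then 1 else 0 else 0 := by
    intro a b
    by_cases e : a = x ∧ b = y
    · obtain ⟨rfl, rfl⟩ := e
      simp [s, hx, hy]
    · have : (if a = x then if b = y then 1 else 0 else 0 : ZMod 2) = 0 := by
        split_ifs with k1 k2
        · exact absurd ⟨k1, k2⟩ e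
        all_goals rfl
      rw [this, add_zero]
      refine if_congr ⟨fun k => ⟨k.1, k.2, ?_⟩, fun k => ⟨k.1, k.2.1⟩⟩ rfl rfl
      by_contra k'
      exact e (hn a b k.1 k.2 k')
  simp only [h3, sum_add_distrib, h1] at h2
  simp at h2

variable [Fintype V] [Fintype F]

lemma fl_tr : fl (tr I) = fl I := by
  unfold fl
  rw [sum_comm]
  rfl

lemma Pol.link (h : Pol I) (v : V) (S : F → Prop) (hS : ∀ u A B, Sq I v u A B → S A → S B)
    (hA : I v A) (hB : I v B) (k : S A) : S B :=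
  h.d.face v S (fun A B u s => hS u A B s.of_tr) A B hA hB k

lemma Pol.dual (h : Pol I) : Pol (tr I) where
  p := h.d
  d := h.p
  conn := fun S hS A B k => by
    obtain ⟨u, hu⟩ := h.d.cover A
    obtain ⟨v, hv⟩ := h.d.cover B
    have l : ∀ v C D, I v C → I v D → S C → S D := fun v C D h1 h2 =>
      h.link v S (fun u A B s => hS A B s.tr.ed) h1 h2
    exact h.conn (fun z => ∀ C, I z C → S C)
      (fun a b ⟨C, D, s⟩ k E hE => l b C E s.vA hE (k C s.uA)) u v (fun C hC => l u A C hu hC k) B hv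
  ne := h.ne.elim fun v => (h.p.cover v).elim fun A _ => ⟨A⟩
  euler := by rw [fl_tr, add_comm (Fintype.card F)]; exact h.euler

/-- Two different vertices are separated by a face. -/
lemma Pol.sep (h : Pol I) (huv : u ≠ v) : ∃ A, I u A ∧ ¬ I v A := by
  obtain ⟨A, hA⟩ := h.p.cover u
  obtain ⟨B, C, a, b, hBC, s, t⟩ := h.d.two A u hA
  by_contra hn
  push Not at hn
  rcases h.p.three u v A B C huv hA (hn A hA) s.vA (hn B s.vA) t.vA (hn C t.vA) with k | k | k
  · exact s.1 k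
  · exact t.1 k
  · exact hBC k

/-- Three-connectivity. -/
lemma Pol.three_conn (h : Pol I) (S : V → Prop) (hx : ¬ S x) (hy : ¬ S y)
    (hS : ∀ a b, Ed I a b → S a → S b ∨ b = x ∨ b = y) (hu : S u) (v : V) :
    S v ∨ v = x ∨ v = y := by
  have key : ∀ x y, ¬ S x → ¬ S y → (∀ a b, Ed I a b → S a → S b ∨ b = x ∨ b = y) →
      (∃ a, S a ∧ Ed I a x) → ∀ w, Ed I x w → S w ∨ (w = y ∧ ∃ a, S a ∧ Ed I a y) := by
    intro x y hx hy hS ⟨a, ha, ea⟩ w ew
    have K : ∀ A p q, Ei I A x p → Ei I A x q → S p → ¬ S q →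
        I y A ∧ y ≠ x ∧ ∃ a, S a ∧ Ed I a y := by
      intro A p q ep eq hp hq
      obtain ⟨c, d, e, hc, hd, hne⟩ := h.p.another S ep.symm hp hx
      have hdx : d ≠ x := by
        rintro rfl
        rcases h.p.ei_or ep eq (fun k => hq (k ▸ hp)) e.symm with k | k
        · exact hne ⟨k, rfl⟩
        · exact hq (k ▸ hc)
      obtain rfl : d = y := ((hS c d e.ed hc).resolve_left hd).resolve_left hdx
      exact ⟨e.snd, hdx, c, hc, e.ed⟩
    have cl : ∀ q A B, Sq I x q A B → (∃ p, S p ∧ Ei I A x p) → ∃ p, S p ∧ Ei I B x p := by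
      intro q A B s ⟨p, hp, ep⟩
      by_contra hB
      have hq : ¬ S q := fun k => hB ⟨q, k, s.swap.ei⟩
      obtain ⟨A', B', ⟨q', s'⟩, ⟨p', hp', ep'⟩, hB', hne⟩ :=
        h.d.another (fun C => ∃ p, S p ∧ Ei I C x p) s.tr.ei ⟨p, hp, ep⟩ hB
      have s' := s'.of_tr
      have hq' : ¬ S q' := fun k => hB' ⟨q', k, s'.swap.ei⟩
      have hpq : p ≠ q := fun k => hq (k ▸ hp)
      obtain ⟨k1, k2, -⟩ := K A p q ep s.ei hp hq
      obtain ⟨k3, -, -⟩ := K A' p' q' ep' s'.ei hp' hq'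
      by_cases hA : A' = A
      · subst hA
        rcases h.p.ei_or ep s.ei hpq s'.ei with k | k
        · exact hq' (k ▸ hp)
        · subst k
          exact hne ⟨rfl, h.p.other s' s⟩
      · have t : Sq I x y A A' := ⟨k2.symm, Ne.symm hA, s.uA, s'.uA, k1, k3⟩
        rcases h.p.ei_or ep s.ei hpq t.ei with k | k
        · exact hy (k ▸ hp)
        · subst k
          exact hB (h.p.other t s ▸ ⟨p', hp', ep'⟩)
    by_cases hw : S w
    · exact Or.inl hw
    obtain ⟨A₀, B₀, s₀⟩ := ea.symm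
    obtain ⟨A, B, s⟩ := ew
    obtain ⟨p, hp, ep⟩ := h.link x _ cl s₀.uA s.uA ⟨a, ha, s₀.ei⟩
    obtain ⟨q, hq, eq⟩ := h.link x _ cl s₀.uA s.uB ⟨a, ha, s₀.ei⟩
    obtain ⟨k1, k2, k⟩ := K A p w ep s.ei hp hw
    obtain ⟨k3, -, -⟩ := K B q w eq s.swap.ei hq hw
    exact Or.inr ⟨((h.d.mem_or s k1 k3).resolve_left k2).symm, k⟩
  have := h.conn (fun z => S z ∨ ((z = x ∨ z = y) ∧ ∃ a, S a ∧ Ed I a z)) ?_ u v (Or.inl hu)
  · exact this.imp_right fun k => k.1
  rintro a b e (ha | ⟨rfl | rfl, k⟩)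
  · exact (hS a b e ha).imp_right fun k => ⟨k, a, ha, e⟩
  · refine (key a y hx hy hS k b e).imp_right ?_
    rintro ⟨rfl, k'⟩
    exact ⟨Or.inr rfl, k'⟩
  · refine (key a x hy hx (fun c d e' k' => (hS c d e' k').imp_right Or.symm) k b e).imp_right ?_
    rintro ⟨rfl, k'⟩
    exact ⟨Or.inl rfl, k'⟩

open Classical in
/-- There is a triangle or a vertex of degree three. -/
lemma Pol.small (h : Pol I) : (∃ A, (univ.filter fun v => I v A).card ≤ 3) ∨
    ∃ v, (univ.filter fun A => I v A).card ≤ 3 := by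
  by_contra hn
  push Not at hn
  have h1 : 4 * Fintype.card V ≤ fl I := by
    unfold fl
    rw [← card_univ, mul_comm, ← smul_eq_mul]
    refine card_nsmul_le_sum _ _ _ fun v _ => ?_
    rw [← card_filter]
    exact hn.2 v
  have h2 : 4 * Fintype.card F ≤ fl I := by
    unfold fl
    rw [sum_comm, ← card_univ, mul_comm, ← smul_eq_mul]
    refine card_nsmul_le_sum _ _ _ fun A _ => ?_
    rw [← card_filter]
    exact hn.1 A
  have := h.euler
  omega

omit [Fintype F] in
lemma Chk1.half [LinearOrder V] (h : Chk1 I) : Half I where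
  toLoc := h.toLoc
  face := fun A S hS u v hu hv k => by
    classical
    obtain ⟨m, hm, hm'⟩ := exists_min_image (univ.filter fun z => I z A) id
      ⟨u, mem_filter.2 ⟨mem_univ _, hu⟩⟩
    have key : ∀ z, I z A → (S z ↔ S m) := by
      intro z
      induction z using WellFoundedLT.induction with
      | ind z ih =>
        intro hz
        rcases (hm' z (mem_filter.2 ⟨mem_univ _, hz⟩)).eq_or_lt with e | e
        · rw [show m = z from e]
        · obtain ⟨w, B, hw, s⟩ := h.mono A m z (mem_filter.1 hm).2 hz e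
          rw [← ih w hw s.vA]
          exact ⟨hS _ _ B s, hS _ _ B s.symm⟩
    exact (key v hv).2 ((key u hu).1 k)

lemma Chk.pol [LinearOrder V] [LinearOrder F] (h : Chk I) : Pol I where
  p := h.p.half
  d := h.d.half
  conn := fun S hS u v k => by
    obtain ⟨m, -, hm⟩ := exists_min_image (univ : Finset V) id ⟨u, mem_univ _⟩
    have key : ∀ z, S z ↔ S m := by
      intro z
      induction z using WellFoundedLT.induction with
      | ind z ih =>
        rcases (hm z (mem_univ _)).eq_or_lt with e | e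
        · rw [show m = z from e]
        · obtain ⟨w, A, B, hw, s⟩ := h.glob m z e
          rw [← ih w hw]
          exact ⟨hS _ _ s.ed, hS _ _ s.symm.ed⟩
    exact (key v).2 ((key u).1 k)
  ne := h.ne
  euler := h.euler

end Pool.Agent.P.MP_e40812_co.St
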