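import Pool.Agent.P.MP_e40812_co.StPoly
import Pool.Agent.P.MP_e40812_co.Dual

/-!
The face structure of a convex polyhedron, suitably ordered, passes the check.
-/

namespace Pool.Agent.P.MP_e40812_co.St

open Finset Module

lemma exists_enum {ι : Type*} (X : Finset ι) (f : ι → ℝ)
    (hf : ∀ i ∈ X, ∀ j ∈ X, i ≠ j → f i ≠ f j) : ∃ e : Fin X.card → ι,
      (∀ i, e i ∈ X) ∧ (∀ x ∈ X, ∃ i, e i = x) ∧ StrictMono fun i => f (e i) := by
  letI : LinearOrder X := LinearOrder.lift' (fun x : X => f x) fun x y k => by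
    by_contra hn
    exact hf x x.2 y y.2 (fun e => hn (Subtype.ext e)) k
  let e := monoEquivOfFin X (k := X.card) (by simp)
  exact ⟨fun i => e i, fun i => (e i).2, fun x hx => ⟨e.symm ⟨x, hx⟩, by simp⟩,
    fun i j k => e.strictMono k⟩

lemma geo_half {V F W : Type*} [Fintype V] [LinearOrder V] [AddCommGroup W] [Module ℝ W]
    (hW : finrank ℝ W = 3) {I : V → F → Prop} {pt : V → W} (hX : Conv pt univ)
    {S : F → Finset V} (mS : ∀ v A, v ∈ S A ↔ I v A) (fS : ∀ A, Facet pt univ (S A))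
    (iS : Function.Injective S)
    (two : ∀ v A, I v A → ∃ u w B C, u ≠ w ∧ Sq I v u A B ∧ Sq I v w A C) (cover : ∀ v, ∃ A, I v A)
    {l : W →ₗ[ℝ] ℝ} (hl : StrictMono fun i => l (pt i)) : Chk1 I := by
  have ed : ∀ u v A B, Sq I u v A B → Edge pt univ u v := fun u v A B s =>
    edge_of_two_facets hW hX (fS A) (fS B) (iS.ne s.2.1) s.1 ((mS _ _).2 s.uA) ((mS _ _).2 s.vA)
      ((mS _ _).2 s.uB) ((mS _ _).2 s.vB)
  have le : ∀ v A u w x, I v A → I u A → I w A → I x A → Edge pt univ v u → Edge pt univ v w →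
      Edge pt univ v x → u = w ∨ u = x ∨ w = x := by
    intro v A u w x hv hu hw hx e1 e2 e3
    by_contra hn
    push Not at hn
    obtain ⟨-, φ, hφ, c, hs⟩ := fS A
    have k : ∀ z, I z A → φ (pt z) = φ (pt v) := fun z hz =>
      (hs.2.1 z ((mS _ _).2 hz)).trans (hs.2.1 v ((mS _ _).2 hv)).symm
    exact three_edges_false hW hφ (k u hu) (k w hw) (k x hx) e1 e2 e3 hn.1 hn.2.1 hn.2.2
  refine ⟨⟨fun u v A B C huv h1 h2 h3 h4 h5 h6 => ?_, two,
    fun v A u w x B C D s t r => le v A u w x s.uA s.vA t.vA r.vA (ed _ _ _ _ s) (ed _ _ _ _ t)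
      (ed _ _ _ _ r), cover⟩, fun A u v hu hv huv => ?_⟩
  · by_contra hn
    push Not at hn
    exact three_facets_false hW hX (fS A) (fS B) (fS C) (iS.ne hn.1) (iS.ne hn.2.1)
      (iS.ne hn.2.2) huv ((mS _ _).2 h1) ((mS _ _).2 h2) ((mS _ _).2 h3) ((mS _ _).2 h4)
      ((mS _ _).2 h5) ((mS _ _).2 h6)
  · obtain ⟨p, q, B, C, hpq, sp, sq⟩ := two v A hv
    rcases lt_or_gt_of_ne sp.1 with k | k
    swap
    · exact ⟨p, B, k, sp⟩
    obtain ⟨z, hz, e, k'⟩ := edge_of_rot hW hX (fS A) ((mS _ _).2 hv) (-l)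
      ⟨u, (mS _ _).2 hu, neg_lt_neg (hl huv)⟩ ⟨p, (mS _ _).2 sp.vA, neg_lt_neg (hl k)⟩
    have k' : z < v := hl.lt_iff_lt.1 (neg_lt_neg_iff.1 k')
    rcases le v A p q z hv sp.vA sq.vA ((mS _ _).1 hz) (ed _ _ _ _ sp) (ed _ _ _ _ sq) e with
      r | rfl | rfl
    · exact absurd r hpq
    · exact ⟨p, B, k', sp⟩
    · exact ⟨q, C, k', sq⟩

open Classical in
theorem chk_of_poly {P : Set (EuclideanSpace ℝ (Fin 3))} (hP : IsPolyhedron P) :
    ∃ (n m : ℕ) (I : Fin n → Fin m → Prop), Chk I ∧ ∀ k, faceCount P k =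
      (univ.filter fun A => (univ.filter fun v => I v A).card = k).card := by
  obtain ⟨X, rfl, hX₀, hd⟩ := exists_vertices hP
  obtain ⟨l, hl⟩ := exists_generic hX₀
  obtain ⟨pt, p1, p2, p3⟩ := exists_enum X (fun x => l x) hl
  have hW := finrank_three
  have hX : Conv pt univ := fun i _ => by
    obtain ⟨ψ, hψ⟩ := hX₀ _ (p1 i)
    exact ⟨ψ, fun j _ k => hψ _ (p1 j) fun e => k (p3.injective (by simp only [e]))⟩
  have hF : Full pt univ := fun φ hφ c => by
    obtain ⟨x, hx, k⟩ := full_of_dim hd φ hφ c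
    obtain ⟨i, rfl⟩ := p2 x hx
    exact ⟨i, mem_univ _, k⟩
  have eX : univ.image pt = X := by
    ext x
    simp only [mem_image, mem_univ, true_and]
    exact ⟨fun ⟨i, e⟩ => e ▸ p1 i, p2 x⟩
  have h3 : 3 ≤ (univ : Finset (Fin X.card)).card := by
    have := dim_lt_card (A := X) (by
      rw [nonempty_iff_ne_empty]
      rintro rfl
      obtain ⟨φ, hφ, -⟩ := exists_dual_two hW 0 0
      obtain ⟨x, hx, -⟩ := full_of_dim hd φ hφ 0
      simp at hx)
    rw [card_univ, Fintype.card_fin]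
    omega
  obtain ⟨o, g, hg⟩ := exists_polar hF
  have hY₀ := dual_conv hW hX hg (Y := facets pt univ) fun A => mem_facets.1
  obtain ⟨l', hl'⟩ := exists_generic hY₀
  obtain ⟨S, q1, q2, q3⟩ := exists_enum (facets pt univ) (fun A => l' (g A)) hl'
  have iS : Function.Injective S := fun A B e => q3.injective (by simp only [e])
  have fS : ∀ A, Facet pt univ (S A) := fun A => mem_facets.1 (q1 A)
  have sS : ∀ G, Facet pt univ G → ∃ A, S A = G := fun G k => q2 G (mem_facets.2 k)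
  have eS : univ.image S = facets pt univ := by
    ext x
    simp only [mem_image, mem_univ, true_and]
    exact ⟨fun ⟨i, e⟩ => e ▸ q1 i, q2 x⟩
  have two : ∀ v A, v ∈ S A → ∃ u w B C, u ≠ w ∧ B ≠ C ∧ Sq (fun v A => v ∈ S A) v u A B ∧
      Sq (fun v A => v ∈ S A) v w A C := by
    intro v A hv
    obtain ⟨p, hp, q, hq, hpq, ep, eq⟩ := two_edges hW hX (fS A) hv
    obtain ⟨B, hB, hBA, b1, b2⟩ := other_facet hW hF ep (S A)
    obtain ⟨C, hC, hCA, c1, c2⟩ := other_facet hW hF eq (S A)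
    obtain ⟨B, rfl⟩ := sS B hB
    obtain ⟨C, rfl⟩ := sS C hC
    refine ⟨p, q, B, C, hpq, ?_, ⟨ep.2.2.1, fun e => hBA (e ▸ rfl), hv, b1, hp, b2⟩,
      ⟨eq.2.2.1, fun e => hCA (e ▸ rfl), hv, c1, hq, c2⟩⟩
    rintro rfl
    exact hBA (facet_eq_of_three hW hX hB (fS A) b1 b2 c2 hv hp hq ep.2.2.1 eq.2.2.1 hpq)
  have cover : ∀ v, ∃ A, v ∈ S A := fun v => by
    obtain ⟨G, hG, k⟩ := exists_facet hW hX hF h3 (mem_univ v)
    obtain ⟨A, rfl⟩ := sS G hG
    exact ⟨A, k⟩
  have c1 : Chk1 fun v A => v ∈ S A := geo_half hW hX (fun _ _ => Iff.rfl) fS iS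
    (fun v A hv => by
      obtain ⟨u, w, B, C, k, -, s, t⟩ := two v A hv
      exact ⟨u, w, B, C, k, s, t⟩) cover p3
  have c2 : Chk1 (tr fun v A => v ∈ S A) := by
    refine geo_half (W := Module.Dual ℝ (EuclideanSpace ℝ (Fin 3))) (by simp)
      (pt := fun A => g (S A)) (fun A _ => ?_) (S := fun v => univ.filter fun A => v ∈ S A)
      (fun A v => by simp [tr]) (fun v => ?_) (fun u v e => ?_) (fun A v hv => ?_)
      (fun A => ?_) q3
    · obtain ⟨ψ, hψ⟩ := hY₀ _ (q1 A)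
      exact ⟨ψ, fun B _ k => hψ _ (q1 B) (iS.ne k)⟩
    · obtain ⟨A, hA⟩ := cover v
      obtain ⟨u, w, B, C, -, k, s, t⟩ := two v A hA
      have e : ∀ D, v ∈ S D → Module.Dual.eval ℝ _ (pt v - o) (g (S D)) = 1 := fun D hD => by
        rw [Module.Dual.eval_apply, map_sub, (hg _ (fS D)).2.1 v hD, add_sub_cancel_right]
      refine ⟨two_lt_card_iff.2 ⟨A, B, C, by simpa using hA, by simpa using s.uB,
        by simpa using t.uB, s.2.1, t.2.1, k⟩, Module.Dual.eval ℝ _ (pt v - o), fun h0 => ?_, 1,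
        subset_univ _, fun D hD => e D (mem_filter.1 hD).2, fun D _ hD => ?_⟩
      · simpa [h0] using e A hA
      · have := (hg _ (fS D)).2.2 v (mem_univ v) (by simpa using hD)
        rw [Module.Dual.eval_apply, map_sub]
        linarith
    · by_contra hn
      have k : ∀ D, u ∈ S D → v ∈ S D := fun D hD => by
        simpa [hD] using Finset.ext_iff.1 e D
      obtain ⟨A, hA⟩ := cover u
      obtain ⟨p, w, B, C, -, r, s, t⟩ := two u A hA
      rcases c1.three u v A B C hn hA (k A hA) s.uB (k B s.uB) t.uB (k C t.uB) with e | e | e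
      · exact s.2.1 e
      · exact t.2.1 e
      · exact r e
    · obtain ⟨u, w, B, C, -, k, s, t⟩ := two v A hv
      exact ⟨B, C, u, w, k, s.tr, t.tr⟩
    · exact card_pos.1 (lt_of_lt_of_le (by omega) (fS A).1)
  have cS : ∀ A, (univ.filter fun v => v ∈ S A).card = (S A).card := fun A => by simp
  refine ⟨_, _, fun v A => v ∈ S A, ⟨c1, c2, fun u v huv => ?_,
    (card_pos.1 (lt_of_lt_of_le (by omega) h3)).elim fun v _ => ⟨v⟩, ?_⟩, fun k => ?_⟩
  · obtain ⟨A, hA⟩ := cover v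
    obtain ⟨p, -, B, -, -, -, sp, -⟩ := two v A hA
    rcases lt_or_gt_of_ne sp.1 with k | k
    swap
    · exact ⟨p, A, B, k, sp⟩
    obtain ⟨z, -, k', e⟩ := rot_step hX (mem_univ v) (-l)
      ⟨u, mem_univ _, neg_lt_neg (p3 huv)⟩ ⟨p, mem_univ _, neg_lt_neg (p3 k)⟩
    have k' : z < v := p3.lt_iff_lt.1 (neg_lt_neg_iff.1 k')
    rcases e with e | ⟨G, hG, g1, g2⟩
    · obtain ⟨C, D, hC, hD, hCD, a1, a2, a3, a4⟩ := two_facets hW hF e
      obtain ⟨C, rfl⟩ := sS C hC
      obtain ⟨D, rfl⟩ := sS D hD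
      exact ⟨z, C, D, k', e.2.2.1, fun e => hCD (e ▸ rfl), a1, a3, a2, a4⟩
    · obtain ⟨C, rfl⟩ := sS G hG
      obtain ⟨w, D, k1, k2⟩ := c1.mono C z v g2 g1 k'
      exact ⟨w, C, D, k1, k2⟩
  · have s1 := sum_facets hW hX (by omega)
    rw [← eS, sum_image iS.injOn] at s1
    have s2 : fl (fun v A => v ∈ S A) = ∑ A, (((S A).card - 2) + 2) := by
      unfold fl
      rw [sum_comm]
      refine sum_congr rfl fun A _ => ?_
      have := (fS A).1
      rw [Nat.sub_add_cancel (by omega), ← cS, card_filter]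
      exact sum_congr rfl fun _ _ => by congr
    simp only [sum_add_distrib, sum_const, smul_eq_mul, card_univ] at s1 s2 h3
    omega
  · have := (faceCount_pt hX hF).2 k
    rw [eX, ← eS, filter_image, card_image_of_injective _ iS] at this
    rw [this]
    congr 1
    exact filter_congr fun A _ => by rw [← cS]; congr!

end Pool.Agent.P.MP_e40812_co.St
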