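import Pool.Agent.P.MP_e40812_co.StLift

/-!
The Maxwell-Cremona lift is globally convex; every polyhedral map has a slack matrix.
-/

namespace Pool.Agent.P.MP_e40812_co.St

open Finset

variable {V F : Type*} [Fintype V] [Fintype F] {I : V → F → Prop} {O : F} {a : Fin 3 → V}
  {α β : V → ℝ}

lemma Tut.convex (T : Tut I O a α β) (h : Pol I) {σ : V → V → F → ℝ} (hσ : Sig I σ)
    (side : ∀ A u v w, A ≠ O → Ei I A u v → I w A → w ≠ u → w ≠ v →
      0 < σ u v A * Dt α β u v w) {Q : F → V → ℝ} {z : V → ℝ}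
    (J : ∀ u v A B w, Sq I u v A B → A ≠ O → B ≠ O → Q A w - Q B w = σ u v A * Dt α β u v w)
    (hz : ∀ A v, A ≠ O → I v A → Q A v = z v) {A : F} {w : V} (hA : A ≠ O) (hw : ¬ I w A) :
    Q A w < z w := by
  obtain ⟨s, t, x₀, y₀, e₀, hx₀, hy₀⟩ : ∃ s t x y, Ei I A y x ∧
      0 < s * (α x - α w) + t * (β x - β w) ∧ s * (α y - α w) + t * (β y - β w) ≤ 0 := by
    obtain ⟨v, hv⟩ := h.d.cover A
    obtain ⟨p, q, B, C, hpq, sp, sq⟩ := h.p.two v A hv
    have k : Dt α β v p q ≠ 0 := fun e => by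
      simpa [e] using side A v p q hA sp.ei sq.vA sq.1.symm hpq.symm
    have l : ∀ s t x, Ei I A v x → s * (α v - α w) + t * (β v - β w) = 0 →
        s * (α x - α w) + t * (β x - β w) ≠ 0 → ∃ s t x y, Ei I A y x ∧
          0 < s * (α x - α w) + t * (β x - β w) ∧ s * (α y - α w) + t * (β y - β w) ≤ 0 := by
      intro s t x e k1 k2
      rcases lt_or_gt_of_ne k2 with k | k
      · exact ⟨-s, -t, x, v, e, by linarith, by linarith⟩
      · exact ⟨s, t, x, v, e, k, k1.le⟩
    by_cases k0 : α v = α w ∧ β v = β w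
    · refine l (-(β p - β v)) (α p - α v) q sq.ei (by simp [k0.1, k0.2]) fun e => k ?_
      rw [← k0.1, ← k0.2] at e
      unfold Dt
      linarith
    · by_cases k1 : -(β v - β w) * (α p - α w) + (α v - α w) * (β p - β w) = 0
      · refine l (-(β v - β w)) (α v - α w) q sq.ei (by ring) fun k2 => k0 ⟨?_, ?_⟩
        · refine sub_eq_zero.1 ((mul_eq_zero.1 ?_).resolve_right k)
          unfold Dt
          linear_combination (α p - α v) * k2 - (α q - α v) * k1
        · refine sub_eq_zero.1 ((mul_eq_zero.1 ?_).resolve_right k)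
          unfold Dt
          linear_combination (β p - β v) * k2 - (β q - β v) * k1
      · exact l _ _ p sp.ei (by ring) k1
  obtain ⟨φ, hφ⟩ : ∃ φ : V → ℝ, φ = fun v => s * (α v - α w) + t * (β v - β w) := ⟨_, rfl⟩
  have H : Harm I O φ := by
    convert T.hα.lin T.hβ (-(s * α w) - t * β w) s t using 2
    rw [hφ]
    ring
  replace hx₀ : 0 < φ x₀ := by rwa [hφ]
  replace hy₀ : φ y₀ ≤ 0 := by rwa [hφ]
  have hw₀ : φ w = 0 := by simp [hφ]
  have G : ∀ A x y x' y', A ≠ O → Ei I A y x → Ei I A y' x' → 0 < φ x → φ y ≤ 0 → 0 < φ x' →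
      φ y' ≤ 0 → ∀ E, E = σ y x A * (Dt α β y x w * (φ x' - φ y') - Dt α β y' x' w * (φ x - φ y)) →
      0 ≤ E ∧ (E = 0 → y' = y) := by
    intro A x y x' y' hA e e' k1 k2 k3 k4 E hE
    have id : E = φ x' * (σ y x A * Dt α β y x y') + -φ y' * (σ y x A * Dt α β y x x') := by
      simp only [hE, hφ, Dt]
      ring
    have ge : ∀ v, I v A → 0 ≤ σ y x A * Dt α β y x v := fun v hv => by
      by_cases v1 : v = y
      · simp [v1]
      by_cases v2 : v = x
      · simp [v2]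
      exact (side A y x v hA e hv v1 v2).le
    have h1 := mul_nonneg k3.le (ge y' e'.fst)
    have h2 := mul_nonneg (neg_nonneg.2 k4) (ge x' e'.snd)
    refine ⟨by linarith, fun k => ?_⟩
    by_contra hn
    have := mul_pos k3 (side A y x y' hA e e'.fst hn fun e => by
      rw [e] at k4
      linarith)
    linarith
  have uq : ∀ A x y x' y', A ≠ O → Ei I A y x → Ei I A y' x' → 0 < φ x → φ y ≤ 0 → 0 < φ x' →
      φ y' ≤ 0 → σ y x A = σ y' x' A → x' = x ∧ y' = y := by
    intro A x y x' y' hA e e' k1 k2 k3 k4 k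
    have g1 := G A x y x' y' hA e e' k1 k2 k3 k4 _ rfl
    have g2 := (G A x' y' x y hA e' e k3 k4 k1 k2 _ rfl).1
    obtain rfl := g1.2 (le_antisymm (by rw [← k] at g2; linarith) g1.1)
    refine ⟨?_, rfl⟩
    by_contra hn
    have h1 := hσ.turn _ _ _ _ e' e hn
    have h2 := hσ.sq _ _ _ e
    rw [← k] at h1
    nlinarith
  obtain ⟨u₀, eu, hu₀⟩ := H.pos_nbr h T.toOut hx₀ hw₀
  let St : ℝ → V × V → V × V → Prop := fun η p q => 0 < φ q.1 ∧ φ q.2 ≤ 0 ∧ ∃ A, A ≠ O ∧
    Ei I A p.2 p.1 ∧ Ei I A q.2 q.1 ∧ σ p.2 p.1 A = η ∧ σ q.2 q.1 A = -η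
  have inv : ∀ η p, Relation.ReflTransGen (St η) (u₀, w) p → 0 < φ p.1 ∧ φ p.2 ≤ 0 ∧
      η * Dt α β p.2 p.1 w ≤ 0 ∧ (Dt α β p.2 p.1 w = 0 → p.2 = w) ∧
        ∀ B, B ≠ O → Ei I B p.2 p.1 → I w B ∨ Q B w < z w := by
    intro η p k
    induction k with
    | refl => exact ⟨hu₀, hw₀.le, by simp, fun _ => rfl, fun B _ e => Or.inl e.fst⟩
    | @tail p q _ k ih =>
      obtain ⟨k1, k2, C, hC, e, e', s1, s2⟩ := k
      obtain ⟨i1, i2, i3, i4, i5⟩ := ih
      have g := G C _ _ _ _ hC e e' i1 i2 k1 k2 _ rfl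
      rw [s1] at g
      have η2 : η * η = 1 := s1 ▸ hσ.sq _ _ _ e
      have p1 : 0 < φ p.1 - φ p.2 := by linarith
      have p2 : 0 < φ q.1 - φ q.2 := by linarith
      have j3 : η * Dt α β q.2 q.1 w ≤ 0 := by
        by_contra hn
        nlinarith [mul_pos (not_le.1 hn) p1, mul_nonneg (neg_nonneg.2 i3) p2.le, g.1]
      have j4 : Dt α β q.2 q.1 w = 0 → q.2 = w := fun k => by
        rw [k] at g
        have h1 : η * Dt α β p.2 p.1 w = 0 := le_antisymm i3 (by
          by_contra hn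
          nlinarith [mul_pos (neg_pos.2 (not_le.1 hn)) p2, g.1])
        have h2 : Dt α β p.2 p.1 w = 0 := by linear_combination η * h1 - Dt α β p.2 p.1 w * η2
        exact (g.2 (by simp [h2])).trans (i4 h2)
      refine ⟨k1, k2, j3, j4, fun B hB eB => ?_⟩
      by_cases hBC : B = C
      · exact hBC ▸ i5 C hC e
      by_cases k : Dt α β q.2 q.1 w = 0
      · exact Or.inl (j4 k ▸ eB.fst)
      have h1 := J q.2 q.1 C B w ⟨e'.ne, Ne.symm hBC, e'.fst, eB.fst, e'.snd, eB.snd⟩ hC hB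
      have h2 : Q C w ≤ z w := (i5 C hC e).elim (fun k => (hz C w hC k).le) le_of_lt
      have h3 : η * Dt α β q.2 q.1 w ≠ 0 := mul_ne_zero (fun e => by simp [e] at η2) k
      rw [s2] at h1
      exact Or.inr (by
        have := lt_of_le_of_ne j3 h3
        linarith)
  obtain ⟨η, -, k⟩ := h.bond (fun v => 0 < φ v) (fun _ _ => H.conn_pos h T.toOut)
    (fun p q hp hq => (H.neg.conn h T.toOut (0 ≤ ·) (fun _ _ => le_trans)
      (neg_nonneg.2 (not_lt.1 hp)) (neg_nonneg.2 (not_lt.1 hq))).mono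
        fun _ k => not_lt.2 (neg_nonneg.1 k))
    (fun x y => ∃ η, η * η = 1 ∧ Relation.ReflTransGen (St η) (u₀, w) (x, y))
    (fun x y ⟨η, _, k⟩ => ⟨(inv η _ k).1, not_lt.2 (inv η _ k).2.1⟩) O
    (by
      rintro C hC x y x' y' ⟨η, η2, k⟩ e e' k3 k4
      have e := e.symm
      have e' := e'.symm
      have k4 := not_lt.1 k4
      obtain ⟨k1, k2, -⟩ := inv η _ k
      have sq : ∀ {r s : ℝ}, r * r = 1 → s * s = 1 → r = s ∨ r = -s := fun h1 h2 =>
        mul_self_eq_mul_self_iff.1 (h1.trans h2.symm)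
      rcases sq (hσ.sq _ _ _ e') (hσ.sq _ _ _ e) with s1 | s1
      · obtain ⟨rfl, rfl⟩ := uq C x y x' y' hC e e' k1 k2 k3 k4 s1.symm
        exact ⟨η, η2, k⟩
      rcases sq (hσ.sq _ _ _ e) η2 with s2 | s2
      · exact ⟨η, η2, k.tail ⟨k3, k4, C, hC, e, e', s2, s2 ▸ s1⟩⟩
      rcases k.cases_tail with k0 | ⟨p, k0, -, -, D, hD, f, f', s3, s4⟩
      · exact ⟨-η, by linarith, .single (k0 ▸ ⟨k3, k4, C, hC, e, e', s2, s2 ▸ s1⟩)⟩
      · obtain rfl : D = C := by
          by_contra hn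
          have := hσ.opp y x D C ⟨e.ne, hn, f'.fst, e.fst, f'.snd, e.snd⟩
          rw [s2, show σ y x D = -η from s4] at this
          nlinarith
        obtain ⟨rfl, rfl⟩ := uq D p.1 p.2 x' y' hD f e' (inv η _ k0).1 (inv η _ k0).2.1 k3 k4
          (by rw [s3, s1, s2, neg_neg])
        exact ⟨η, η2, k0⟩)
    ⟨1, one_mul 1, .refl⟩ eu.symm e₀.symm.ed hx₀ (not_lt.2 hy₀)
  exact ((inv η _ k).2.2.2.2 A hA e₀).resolve_left hw

theorem Out.real (T : Out I O a) (h : Pol I) : Real4 I := by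
  classical
  obtain ⟨α, β, T⟩ := exists_tut h T
  obtain ⟨σ, hσ, side⟩ := T.orient h
  obtain ⟨q₀, q₁, q₂, z, J, hz⟩ := T.lift h hσ
  have C := fun A w => T.convex h hσ side (Q := fun A w => q₀ A + q₁ A * α w + q₂ A * β w)
    J hz (A := A) (w := w)
  refine ⟨fun v => ![1, α v, β v, z v], fun A => if A = O then
    ![z (a 0), z (a 1) - z (a 0), z (a 2) - z (a 0), -1] else ![-q₀ A, -q₁ A, -q₂ A, 1],
    fun v A => ?_⟩
  by_cases hA : A = O
  · subst hA
    simp only [if_true, dotProduct, Fin.sum_univ_four, Matrix.cons_val]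
    refine ⟨fun k => ?_, fun k => ?_⟩
    · obtain ⟨i, rfl⟩ := (T.mem v).1 k
      fin_cases i <;> simp +decide [T.vα, T.vβ]
    · obtain ⟨B, hB⟩ := h.p.cover v
      have hBA : B ≠ A := fun e => k (e ▸ hB)
      have p1 : 0 < α v := T.hα.pos h T.toOut (w := a 1) (by simp [T.vα])
        (fun i => by rw [T.vα]; split_ifs <;> norm_num) k
      have p2 : 0 < β v := T.hβ.pos h T.toOut (w := a 2) (by simp [T.vβ])
        (fun i => by rw [T.vβ]; split_ifs <;> norm_num) k
      have p0 : 0 < 1 + -1 * α v + -1 * β v := Harm.pos (φ := fun v => 1 + -1 * α v + -1 * β v)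
        (w := a 0) h T.toOut (T.hα.lin T.hβ 1 (-1) (-1)) (by simp [T.vα, T.vβ])
        (fun i => by fin_cases i <;> simp +decide [T.vα, T.vβ]) k
      have le : ∀ i, 0 ≤ z (a i) - (q₀ B + q₁ B * α (a i) + q₂ B * β (a i)) := fun i => by
        by_cases k' : I (a i) B
        · rw [hz B _ hBA k', sub_self]
        · exact (sub_pos.2 (C B _ hBA k')).le
      obtain ⟨i, hi⟩ : ∃ i, ¬ I (a i) B := by
        by_contra hn
        push Not at hn
        have m := fun i => (T.mem _).2 ⟨i, rfl⟩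
        rcases h.d.three B A (a 0) (a 1) (a 2) hBA (hn 0) (m 0) (hn 1) (m 1) (hn 2) (m 2) with
          e | e | e <;> exact absurd (T.inj e) (by decide)
      have lt := sub_pos.2 (C B _ hBA hi)
      obtain ⟨d, hd⟩ : ∃ d : Fin 3 → ℝ,
        d = fun i => z (a i) - (q₀ B + q₁ B * α (a i) + q₂ B * β (a i)) := ⟨_, rfl⟩
      replace le : ∀ i, 0 ≤ d i := by rwa [hd]
      replace lt : 0 < d i := by rwa [hd]
      have e : 1 * z (a 0) + α v * (z (a 1) - z (a 0)) + β v * (z (a 2) - z (a 0)) + z v * -1 =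
          (1 + -1 * α v + -1 * β v) * d 0 + α v * d 1 + β v * d 2 := by
        simp +decide only [hd, T.vα, T.vβ, if_true, if_false, ← hz B v hBA hB]
        ring
      have l0 := mul_nonneg p0.le (le 0)
      have l1 := mul_nonneg p1.le (le 1)
      have l2 := mul_nonneg p2.le (le 2)
      rw [e]
      fin_cases i
      · linarith [show 0 < _ * d 0 from mul_pos p0 lt]
      · linarith [show 0 < _ * d 1 from mul_pos p1 lt]
      · linarith [show 0 < _ * d 2 from mul_pos p2 lt]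
  · simp only [if_neg hA, dotProduct, Fin.sum_univ_four, Matrix.cons_val]
    exact ⟨fun k => by linarith [hz A v hA k], fun k => by linarith [C A v hA k]⟩

omit [Fintype V] [Fintype F] in
lemma Real4.of_tr (h : Real4 (tr I)) : Real4 I := by
  obtain ⟨X, Y, h⟩ := h
  exact ⟨Y, X, fun v A => by rw [dotProduct_comm]; exact h A v⟩

open Classical in
omit [Fintype F] in
lemma Loc.out (h : Loc I) {A : F} {v : V} (hv : I v A)
    (k : (univ.filter fun v => I v A).card ≤ 3) : ∃ a, Out I A a := by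
  obtain ⟨p, q, B, C, hpq, sp, sq⟩ := h.two v A hv
  have e : ({v, p, q} : Finset V) = univ.filter fun v => I v A :=
    eq_of_subset_of_card_le (by simp [insert_subset_iff, sp.uA, sp.vA, sq.vA])
      (k.trans (card_eq_three.2 ⟨v, p, q, sp.1, sq.1, hpq, rfl⟩).ge)
  refine ⟨![v, p, q], fun i j e => ?_, fun z => ?_⟩
  · have := sp.1
    have := sq.1
    fin_cases i <;> fin_cases j <;> simp_all
  · have := Finset.ext_iff.1 e z
    simp only [mem_insert, mem_singleton, mem_filter, mem_univ, true_and] at this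
    simp [← this, Fin.exists_fin_succ]

/-- Steinitz: every polyhedral map has a slack matrix of rank at most four. -/
theorem Pol.real (h : Pol I) : Real4 I := by
  rcases h.small with ⟨A, k⟩ | ⟨v, k⟩
  · obtain ⟨v, hv⟩ := h.d.cover A
    obtain ⟨a, T⟩ := h.p.out hv k
    exact T.real h
  · obtain ⟨A, hA⟩ := h.p.cover v
    obtain ⟨a, T⟩ := h.d.out (A := v) hA k
    exact (T.real h.dual).of_tr

end Pool.Agent.P.MP_e40812_co.St
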