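import Mathlib

/-!
Abstract polyhedral maps, given by the incidence relation between vertices and faces.
-/

namespace Pool.Agent.P.MP_e40812_co.St

open Finset

variable {V F : Type*} (I : V → F → Prop)

/-- Two vertices and two faces with all four incidences: an edge with its two faces. -/
def Sq (u v : V) (A B : F) : Prop := u ≠ v ∧ A ≠ B ∧ I u A ∧ I u B ∧ I v A ∧ I v B

/-- `u v` is an edge of the face `A`. -/
def Ei (A : F) (u v : V) : Prop := ∃ B, Sq I u v A B

/-- `u v` is an edge. -/
def Ed (u v : V) : Prop := ∃ A B, Sq I u v A B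

/-- The transposed incidence relation. -/
def tr : F → V → Prop := fun A v => I v A

/-- Walks along edges inside a vertex set. -/
def Conn (S : V → Prop) : V → V → Prop :=
  Relation.ReflTransGen fun u v => Ed I u v ∧ S u ∧ S v

/-- The local axioms. -/
structure Loc : Prop where
  three : ∀ u v A B C, u ≠ v → I u A → I v A → I u B → I v B → I u C → I v C →
    A = B ∨ A = C ∨ B = C
  two : ∀ v A, I v A → ∃ u w B C, u ≠ w ∧ Sq I v u A B ∧ Sq I v w A C
  le2 : ∀ v A u w x B C D, Sq I v u A B → Sq I v w A C → Sq I v x A D → u = w ∨ u = x ∨ w = x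
  cover : ∀ v, ∃ A, I v A

/-- The local axioms, and the boundary of every face is connected. -/
structure Half : Prop extends Loc I where
  face : ∀ A (S : V → Prop), (∀ u v B, Sq I u v A B → S u → S v) →
    ∀ u v, I u A → I v A → S u → S v

open Classical in
/-- The number of incidences. -/
noncomputable def fl [Fintype V] [Fintype F] : ℕ := ∑ v, ∑ A, if I v A then 1 else 0

/-- Polyhedral maps on the sphere. -/
structure Pol [Fintype V] [Fintype F] : Prop where
  p : Half I
  d : Half (tr I)
  conn : ∀ S : V → Prop, (∀ u v, Ed I u v → S u → S v) → ∀ u v, S u → S v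
  ne : Nonempty V
  euler : fl I + 4 ≤ 2 * (Fintype.card V + Fintype.card F)

/-- The incidence relation is the zero pattern of a nonnegative matrix of rank at most four. -/
def Real4 : Prop :=
  ∃ (X : V → Fin 4 → ℝ) (Y : F → Fin 4 → ℝ), ∀ v A,
    (I v A → X v ⬝ᵥ Y A = 0) ∧ (¬ I v A → 0 < X v ⬝ᵥ Y A)

/-- Signs of the edges of the faces: an orientation with values in `K`. -/
structure Sig {K : Type*} [Field K] (σ : V → V → F → K) : Prop where
  anti : ∀ u v A, σ u v A = -σ v u A
  zero : ∀ u v A, ¬ Ei I A u v → σ u v A = 0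
  sq : ∀ u v A, Ei I A u v → σ u v A * σ u v A = 1
  opp : ∀ u v A B, Sq I u v A B → σ u v A + σ u v B = 0
  turn : ∀ v u w A, Ei I A v u → Ei I A v w → u ≠ w → σ v u A + σ v w A = 0

/-- The checkable form of the axioms for one side: in each face, every vertex but the first has
an earlier neighbour. -/
structure Chk1 [LinearOrder V] : Prop extends Loc I where
  mono : ∀ A u v, I u A → I v A → u < v → ∃ w B, w < v ∧ Sq I v w A B

/-- The checkable form of the axioms. -/
structure Chk [Fintype V] [Fintype F] [LinearOrder V] [LinearOrder F] : Prop where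
  p : Chk1 I
  d : Chk1 (tr I)
  glob : ∀ u v : V, u < v → ∃ w A B, w < v ∧ Sq I v w A B
  ne : Nonempty V
  euler : fl I + 4 ≤ 2 * (Fintype.card V + Fintype.card F)

end Pool.Agent.P.MP_e40812_co.St
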