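import Pool.Agent.P.MP_e40812_co.StTutte

/-!
Orientation of the Tutte embedding and the Maxwell-Cremona lift.
-/

namespace Pool.Agent.P.MP_e40812_co.St

open Finset

variable {V F : Type*} [Fintype V] (I : V → F → Prop)

/-- The two coordinates of the Tutte embedding. -/
structure Tut (O : F) (a : Fin 3 → V) (α β : V → ℝ) : Prop extends Out I O a where
  hα : Harm I O α
  hβ : Harm I O β
  vα : ∀ i, α (a i) = if i = 1 then 1 else 0
  vβ : ∀ i, β (a i) = if i = 2 then 1 else 0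

/-- Twice the oriented area of a triangle. -/
def Dt (α β : V → ℝ) (u v w : V) : ℝ :=
  (α v - α u) * (β w - β u) - (β v - β u) * (α w - α u)

variable {I} {O A B : F} {a : Fin 3 → V} {α β : V → ℝ} {u v w x y c d : V}

omit [Fintype V] in
@[simp] lemma dt_left : Dt α β u v u = 0 := by simp [Dt]

omit [Fintype V] in
@[simp] lemma dt_right : Dt α β u v v = 0 := by unfold Dt; ring

lemma Tut.harm (T : Tut I O a α β) (u v : V) : Harm I O (Dt α β u v) := by
  convert T.hα.lin T.hβ ((β v - β u) * α u - (α v - α u) * β u) (-(β v - β u)) (α v - α u) using 2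
  unfold Dt
  ring

lemma Tut.dt_ne (T : Tut I O a α β) (k : ¬ (α u = α v ∧ β u = β v)) :
    ∃ w, Dt α β u v w ≠ 0 := by
  by_contra hn
  push Not at hn
  have h0 := hn (a 0)
  have h1 := hn (a 1)
  have h2 := hn (a 2)
  simp [Dt, T.vα, T.vβ] at h0 h1 h2
  exact k ⟨by linarith, by linarith⟩

lemma pm {s t x y : ℝ} (hs : s * s = 1) (ht : t * t = 1) (h1 : 0 < s * x) (h2 : 0 < t * y)
    (h : x * y < 0) : s + t = 0 := by
  rcases mul_self_eq_one_iff.1 hs with rfl | rfl <;>
    rcases mul_self_eq_one_iff.1 ht with rfl | rfl <;> nlinarith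

variable [Fintype F]

lemma exists_tut (h : Pol I) (T : Out I O a) : ∃ α β, Tut I O a α β := by
  classical
  obtain ⟨α, h1, h2⟩ := exists_harm h T fun v => if v = a 1 then 1 else 0
  obtain ⟨β, h3, h4⟩ := exists_harm h T fun v => if v = a 2 then 1 else 0
  exact ⟨α, β, T, h1, h3, fun i => by simp [h2, T.inj.eq_iff], fun i => by simp [h4, T.inj.eq_iff]⟩

lemma Tut.side_in (T : Tut I O a α β) (h : Pol I) (s : Sq I x y A B) (hn : ¬ (I x O ∧ I y O))
    (hc : I c A) (hd : I d B) (c1 : c ≠ x) (c2 : c ≠ y) (d1 : d ≠ x) (d2 : d ≠ y) :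
    Dt α β x y c * Dt α β x y d < 0 := by
  by_cases k : α x = α y ∧ β x = β y
  swap
  · obtain ⟨w, hw⟩ := T.dt_ne k
    exact (T.harm x y).opp h T.toOut hw s hn dt_left dt_right hc hd c1 c2 d1 d2
  exfalso
  by_cases k' : α x = α c ∧ β x = β c
  · obtain ⟨w, hw⟩ : ∃ w, -α x + 1 * α w + 0 * β w ≠ 0 := by
      by_contra hn
      push Not at hn
      have h0 := hn (a 0)
      have h1 := hn (a 1)
      simp [T.vα] at h0 h1
      linarith
    have := (T.hα.lin T.hβ (-α x) 1 0).opp h T.toOut hw s hn (by simp) (by simp [k.1]) hc hd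
      c1 c2 d1 d2
    simp [k'.1] at this
  · obtain ⟨w, hw⟩ := T.dt_ne k'
    have := (T.harm x c).opp h T.toOut hw s hn dt_left (by simp [Dt, k.1, k.2]) hc hd c1 c2 d1 d2
    simp at this

lemma Tut.side_out (T : Tut I O a α β) (h : Pol I) (hx : I x O) (hy : I y O) (hxy : x ≠ y)
    (c1 : c ≠ x) (c2 : c ≠ y) (d1 : d ≠ x) (d2 : d ≠ y) :
    0 < Dt α β x y c * Dt α β x y d := by
  obtain ⟨i, rfl⟩ := (T.mem x).1 hx
  obtain ⟨j, rfl⟩ := (T.mem y).1 hy
  have hij : i ≠ j := fun e => hxy (e ▸ rfl)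
  obtain ⟨k, hk, e⟩ : ∃ k, (∀ l, l = i ∨ l = j ∨ l = k) ∧ Dt α β (a i) (a j) (a k) ≠ 0 := by
    refine ⟨-(i + j), (by decide : ∀ i j : Fin 3, i ≠ j → ∀ l, l = i ∨ l = j ∨ l = -(i + j))
      i j hij, ?_⟩
    fin_cases i <;> fin_cases j <;> simp at hij <;> simp +decide [Dt, T.vα, T.vβ]
  have e2 := mul_self_pos.2 e
  have H := (T.harm (a i) (a j)).lin T.hα 0 (Dt α β (a i) (a j) (a k)) 0
  simp only [zero_add, zero_mul, add_zero] at H
  have key : ∀ z, z ≠ a i → z ≠ a j → 0 < Dt α β (a i) (a j) (a k) * Dt α β (a i) (a j) z := by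
    intro z z1 z2
    by_cases hz : I z O
    · obtain ⟨l, rfl⟩ := (T.mem z).1 hz
      rcases hk l with rfl | rfl | rfl
      · exact absurd rfl z1
      · exact absurd rfl z2
      · exact e2
    · refine Harm.pos (φ := fun v => Dt α β (a i) (a j) (a k) * Dt α β (a i) (a j) v) (w := a k)
        h T.toOut H e2.ne' (fun l => ?_) hz
      rcases hk l with rfl | rfl | rfl
      · simp
      · simp
      · exact e2.le
  have := mul_pos (key c c1 c2) (key d d1 d2)
  by_contra hn
  nlinarith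

omit [Fintype V] [Fintype F] in
lemma Loc.third (h : Loc I) (s : Ei I A u v) : ∃ w, I w A ∧ w ≠ u ∧ w ≠ v := by
  obtain ⟨w, k, e⟩ := h.next s
  exact ⟨w, e.snd, e.ne.symm, k⟩

omit [Fintype V] [Fintype F] in
lemma Loc.inner (h : Loc I) (s : Sq I u v A B) (hA : A ≠ O) (hB : B ≠ O) : ¬ (I u O ∧ I v O) :=
  fun k => (h.eq_or s k.1 k.2).elim hA.symm hB.symm

lemma Tut.orient (T : Tut I O a α β) (h : Pol I) : ∃ σ : V → V → F → ℝ, Sig I σ ∧
    ∀ A u v w, A ≠ O → Ei I A u v → I w A → w ≠ u → w ≠ v → 0 < σ u v A * Dt α β u v w := by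
  classical
  obtain ⟨ε, hε⟩ : ∃ ε : F → ℝ, ε = fun A => if A = O then -1 else 1 := ⟨_, rfl⟩
  have ε2 : ∀ A, ε A * ε A = 1 := fun A => by
    simp only [hε]
    split_ifs <;> norm_num
  obtain ⟨σ, hσ⟩ : ∃ σ : V → V → F → ℝ, σ = fun u v A => if Ei I A u v then
    if ∃ w, I w A ∧ 0 < ε A * Dt α β u v w then 1 else -1 else 0 := ⟨_, rfl⟩
  have same : ∀ A u v c d, Ei I A u v → I c A → I d A → c ≠ u → c ≠ v → d ≠ u → d ≠ v →
      0 < Dt α β u v c * Dt α β u v d := by
    intro A u v c d ⟨B, s⟩ hc hd c1 c2 d1 d2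
    by_cases k : I u O ∧ I v O
    · exact T.side_out h k.1 k.2 s.1 c1 c2 d1 d2
    · obtain ⟨e, he, e1, e2⟩ := h.p.third s.swap.ei
      have h1 := T.side_in h s k hc he c1 c2 e1 e2
      have h2 := T.side_in h s k hd he d1 d2 e1 e2
      have := mul_pos_of_neg_of_neg h1 h2
      by_contra hn
      nlinarith [mul_self_nonneg (Dt α β u v e)]
  have sq : ∀ u v A, Ei I A u v → σ u v A * σ u v A = 1 := fun u v A k => by
    simp only [hσ, k, if_true]
    split_ifs <;> norm_num
  have key : ∀ A u v w, Ei I A u v → I w A → w ≠ u → w ≠ v →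
      0 < σ u v A * (ε A * Dt α β u v w) := by
    intro A u v w k hw w1 w2
    simp only [hσ, k, if_true]
    split_ifs with k'
    · obtain ⟨z, hz, k'⟩ := k'
      have := same A u v w z k hw hz w1 w2 (fun e => by simp [e] at k') fun e => by simp [e] at k'
      by_contra hn
      have e := ε2 A
      have : 0 < (ε A * Dt α β u v w) * (ε A * Dt α β u v z) := by nlinarith
      nlinarith
    · push Not at k'
      have h1 := k' w hw
      have h2 := same A u v w w k hw hw w1 w2 w1 w2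
      have e := ε2 A
      have : 0 < (ε A * Dt α β u v w) * (ε A * Dt α β u v w) := by nlinarith
      rcases h1.eq_or_lt with h1 | h1
      · simp [h1] at this
      · linarith
  have neg : ∀ {s x y : ℝ}, 0 < s * x → y = -x → x * y < 0 := by
    rintro s x y k rfl
    have : x ≠ 0 := fun e => by simp [e] at k
    nlinarith [mul_self_pos.2 this]
  refine ⟨σ, ⟨fun u v A => ?_, fun u v A k => by simp only [hσ, k, if_false], sq,
    fun u v A B s => ?_, fun v u w A k1 k2 k => ?_⟩, fun A u v w hA k hw w1 w2 => ?_⟩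
  · by_cases k : Ei I A u v
    · obtain ⟨w, hw, w1, w2⟩ := h.p.third k
      have h1 := key A u v w k hw w1 w2
      exact eq_neg_of_add_eq_zero_left (pm (sq _ _ _ k) (sq _ _ _ k.symm) h1
        (key A v u w k.symm hw w2 w1) (neg h1 (by unfold Dt; ring)))
    · have k' : ¬ Ei I A v u := fun e => k e.symm
      simp only [hσ, k, k', if_false, neg_zero]
  · obtain ⟨c, hc, c1, c2⟩ := h.p.third s.ei
    obtain ⟨d, hd, d1, d2⟩ := h.p.third s.swap.ei
    refine pm (sq _ _ _ s.ei) (sq _ _ _ s.swap.ei) (key A u v c s.ei hc c1 c2)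
      (key B u v d s.swap.ei hd d1 d2) ?_
    by_cases k : I u O ∧ I v O
    · have := T.side_out h k.1 k.2 s.1 c1 c2 d1 d2
      rcases h.p.eq_or s k.1 k.2 with rfl | rfl
      · simpa [hε, s.2.1.symm] using this
      · simpa [hε, s.2.1] using this
    · have hA : A ≠ O := fun e => k (e ▸ ⟨s.uA, s.vA⟩)
      have hB : B ≠ O := fun e => k (e ▸ ⟨s.uB, s.vB⟩)
      simpa [hε, hA, hB] using T.side_in h s k hc hd c1 c2 d1 d2
  · have h1 := key A v u w k1 k2.snd k2.ne.symm k.symm
    exact pm (sq _ _ _ k1) (sq _ _ _ k2) h1 (key A v w u k2 k1.snd k1.ne.symm k)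
      (neg h1 (by unfold Dt; ring))
  · simpa [hε, hA] using key A u v w k hw w1 w2

lemma Out.exact (T : Out I O a) (h : Pol I) {σ : V → V → F → ℝ} (hσ : Sig I σ) (f : V → V → ℝ)
    (f1 : ∀ u v, f u v = -f v u)
    (f3 : ∀ v, ¬ I v O → ∑ u, (open Classical in if Ed I v u then f v u else 0) = 0) :
    ∃ g : F → ℝ, ∀ u v A B, Sq I u v A B → ¬ (I u O ∧ I v O) → g A - g B = σ u v A * f u v := by
  classical
  let s : V → V → V → V → ℝ := fun p q u v =>
    (if u = p then if v = q then 1 else 0 else 0) - if u = q then if v = p then 1 else 0 else 0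
  have s1 : ∀ p q u v, s p q u v = -s p q v u := fun p q u v => by
    simp only [s, neg_sub]
    congr 1 <;> split_ifs <;> rfl
  have s2 : ∀ i j u v, i ≠ j → ¬ Ei I O u v → s (a i) (a j) u v = 0 := fun i j u v k k' => by
    have e := T.ei h.p.toLoc k
    have l : ∀ p q, Ei I O p q → (if u = p then if v = q then 1 else 0 else 0 : ℝ) = 0 := by
      intro p q e
      split_ifs with a1 a2
      · exact absurd (a1 ▸ a2 ▸ e) k'
      all_goals rfl
    simp only [s, l _ _ e, l _ _ e.symm, sub_self]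
  have s3 : ∀ p q v, ∑ u, s p q v u = (if v = p then 1 else 0) - if v = q then 1 else 0 := by
    intro p q v
    simp only [s, sum_sub_distrib]
    congr 1 <;> split_ifs <;> simp
  obtain ⟨r, hr⟩ : ∃ r : V → ℝ, r = fun v => ∑ u, if Ed I v u then f v u else 0 := ⟨_, rfl⟩
  let c : V → V → ℝ := fun u v => (if Ed I u v then f u v else 0) +
    (r (a 1) * s (a 0) (a 1) u v + r (a 2) * s (a 0) (a 2) u v)
  have c1 : ∀ u v, c u v = -c v u := fun u v => by
    simp only [c]
    rw [s1 _ _ u v, s1 _ (a 2) u v, f1 u v, if_congr ⟨Ed.symm, Ed.symm⟩ rfl rfl]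
    split_ifs <;> ring
  have c2 : ∀ u v, ¬ Ed I u v → c u v = 0 := fun u v k => by
    simp [c, k, s2 0 1 u v (by decide) fun e => k e.ed, s2 0 2 u v (by decide) fun e => k e.ed]
  have c3 : ∀ v, v ≠ a 0 → ∑ u, c v u = 0 := fun v k => by
    simp only [c, sum_add_distrib, ← mul_sum, s3]
    by_cases hv : I v O
    · obtain ⟨i, rfl⟩ := (T.mem v).1 hv
      have e := congrFun hr (a i)
      beta_reduce at e
      rw [← e]
      clear e hr
      fin_cases i
      · exact absurd rfl k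
      · simp [T.inj.eq_iff]
      · simp [T.inj.eq_iff]
    · have : ∀ i, v ≠ a i := fun i e => hv ((T.mem v).2 ⟨i, e⟩)
      simp [f3 v hv, this]
  obtain ⟨g, hg⟩ := (h.exact hσ).2 c c1 c2 fun v => by
    by_cases k : v = a 0
    · have := sum_anti c c1 fun u => c2 u u fun e => e.ne rfl
      rwa [Fintype.sum_eq_single (a 0) c3, ← k] at this
    · exact c3 v k
  refine ⟨g, fun u v A B t k => ?_⟩
  have k' : ¬ Ei I O u v := fun e => k ⟨e.fst, e.snd⟩
  simp [hg u v A B t, c, t.ed, s2 0 1 u v (by decide) k', s2 0 2 u v (by decide) k']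

lemma Tut.lift (T : Tut I O a α β) (h : Pol I) {σ : V → V → F → ℝ} (hσ : Sig I σ) :
    ∃ (q₀ q₁ q₂ : F → ℝ) (z : V → ℝ),
      (∀ u v A B w, Sq I u v A B → A ≠ O → B ≠ O → (q₀ A + q₁ A * α w + q₂ A * β w) -
        (q₀ B + q₁ B * α w + q₂ B * β w) = σ u v A * Dt α β u v w) ∧
      ∀ A v, A ≠ O → I v A → q₀ A + q₁ A * α v + q₂ A * β v = z v := by
  classical
  obtain ⟨q₀, h0⟩ := T.exact h hσ (fun u v => α u * β v - α v * β u) (fun u v => by ring)
    fun v hv => by
      convert (T.hα.lin T.hβ 0 (-β v) (α v)) v hv using 3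
      ring
  obtain ⟨q₁, h1⟩ := T.exact h hσ (fun u v => β u - β v) (fun u v => by ring) fun v hv => by
    convert T.hβ.neg v hv using 3
    ring
  obtain ⟨q₂, h2⟩ := T.exact h hσ (fun u v => α v - α u) (fun u v => by ring) T.hα
  obtain ⟨Q, hQ⟩ : ∃ Q : F → V → ℝ, Q = fun A w => q₀ A + q₁ A * α w + q₂ A * β w := ⟨_, rfl⟩
  have J : ∀ u v A B w, Sq I u v A B → A ≠ O → B ≠ O → Q A w - Q B w = σ u v A * Dt α β u v w := by
    intro u v A B w s hA hB
    have k := h.p.inner s hA hB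
    simp only [hQ, Dt]
    linear_combination h0 u v A B s k + α w * h1 u v A B s k + β w * h2 u v A B s k
  have step : ∀ v u A C D, Sq I v u C D → C ≠ O ∧ Q C v = Q A v → D ≠ O →
      D ≠ O ∧ Q D v = Q A v := fun v u A C D s k hD => ⟨hD, by
    have := J v u C D v s k.1 hD
    rw [dt_left, mul_zero] at this
    linarith [k.2]⟩
  have key : ∀ v, ∃ r, ∀ A, A ≠ O → I v A → Q A v = r := by
    intro v
    by_cases hv : I v O
    · obtain ⟨C, D, p, q, hCD, sp, sq⟩ := h.d.two O v hv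
      have e : D ≠ O ∧ Q D v = Q C v := by
        obtain ⟨C', D', ⟨u, t⟩, k1, k2, k3⟩ := h.d.another (fun E => E ≠ O ∧ Q E v = Q C v)
          sp.ei.symm ⟨sp.1.symm, rfl⟩ fun k => k.1 rfl
        obtain rfl : D' = O := by
          by_contra k
          exact k2 (step v u C C' D' t.of_tr k1 k)
        rcases h.d.ei_or sp.ei sq.ei hCD t.symm.ei with rfl | rfl
        · exact absurd ⟨rfl, rfl⟩ k3
        · exact k1
      refine ⟨Q C v, fun A hA k => ((h.link v (fun E => E = O ∨ (E ≠ O ∧ Q E v = Q C v)) ?_ hv k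
        (Or.inl rfl)).resolve_left hA).2⟩
      rintro u E E' s (rfl | k)
      · rcases h.d.ei_or sp.ei sq.ei hCD s.tr.ei with rfl | rfl
        · exact Or.inr ⟨sp.1.symm, rfl⟩
        · exact Or.inr e
      · by_cases k' : E' = O
        · exact Or.inl k'
        · exact Or.inr (step v u C E E' s k k')
    · obtain ⟨C, hC⟩ := h.p.cover v
      exact ⟨Q C v, fun A hA k => (h.link v (fun E => E ≠ O ∧ Q E v = Q C v)
        (fun u E E' s k => step v u C E E' s k fun e => hv (e ▸ s.uB)) hC k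
        ⟨fun e => hv (e ▸ hC), rfl⟩).2⟩
  choose z hz using key
  subst hQ
  exact ⟨q₀, q₁, q₂, z, J, fun A v => hz v A⟩

end Pool.Agent.P.MP_e40812_co.St
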