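import Pool.Agent.P.MP_e40812_co.StConv
import Pool.Agent.P.MP_e40812_co.Bridge

/-!
From polyhedral maps to convex polyhedra.
-/

namespace Pool.Agent.P.MP_e40812_co.St

open Finset Module

variable {V F : Type*} [Fintype V]

open Classical in
lemma faceCount_pt {pt : V → EuclideanSpace ℝ (Fin 3)} (hX : Conv pt univ) (hF : Full pt univ) :
    IsPolyhedron (convexHull ℝ ((univ.image pt : Finset _) : Set (EuclideanSpace ℝ (Fin 3)))) ∧
    ∀ k, faceCount (convexHull ℝ ((univ.image pt : Finset _) : Set (EuclideanSpace ℝ (Fin 3)))) k =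
      ((facets pt univ).filter fun A => A.card = k).card := by
  have inj : Function.Injective pt := fun a b e => by
    by_contra hn
    exact hX.ne (mem_univ a) (mem_univ b) hn (by rw [e, sub_self])
  have hX' : Conv id (univ.image pt) := by
    intro p hp
    obtain ⟨i, -, rfl⟩ := mem_image.1 hp
    obtain ⟨ψ, hψ⟩ := hX i (mem_univ i)
    refine ⟨ψ, fun q hq hne => ?_⟩
    obtain ⟨j, -, rfl⟩ := mem_image.1 hq
    exact hψ j (mem_univ j) fun e => hne (e ▸ rfl)
  have hd : finrank ℝ (vectorSpan ℝ ((univ.image pt : Finset _) :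
      Set (EuclideanSpace ℝ (Fin 3)))) = 3 := by
    by_contra hne
    obtain ⟨f, hf, hf'⟩ := Submodule.exists_dual_map_eq_bot_of_lt_top
      (p := vectorSpan ℝ ((univ.image pt : Finset _) : Set (EuclideanSpace ℝ (Fin 3))))
      (lt_top_iff_ne_top.2 fun e => hne (by rw [e, finrank_top, finrank_three])) inferInstance
    obtain ⟨i, -, -⟩ := hF f hf 0
    obtain ⟨j, -, hj⟩ := hF f hf (f (pt i))
    have : f (pt j - pt i) ∈ (vectorSpan ℝ ((univ.image pt : Finset _) :
        Set (EuclideanSpace ℝ (Fin 3)))).map f :=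
      Submodule.mem_map_of_mem (vsub_mem_vectorSpan ℝ (by simp) (by simp))
    rw [hf', Submodule.mem_bot, map_sub, sub_eq_zero] at this
    exact hj this
  have fac : facets id (univ.image pt) = (facets pt univ).image (image pt) := by
    ext B
    simp only [mem_facets, mem_image]
    constructor
    · rintro ⟨h3, φ, hφ, c, h1, h2, h4⟩
      have e : (univ.filter fun i => pt i ∈ B).image pt = B := by
        ext p
        simp only [mem_image, mem_filter, mem_univ, true_and]
        refine ⟨fun ⟨i, k, e⟩ => e ▸ k, fun k => ?_⟩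
        obtain ⟨i, -, rfl⟩ := mem_image.1 (h1 k)
        exact ⟨i, k, rfl⟩
      refine ⟨univ.filter fun i => pt i ∈ B, ⟨?_, φ, hφ, c, subset_univ _,
        fun i hi => h2 _ (mem_filter.1 hi).2, fun i _ hi => h4 _ (by simp) (by simpa using hi)⟩, e⟩
      rwa [← e, card_image_of_injective _ inj] at h3
    · rintro ⟨A, ⟨h3, φ, hφ, c, -, h2, h4⟩, rfl⟩
      refine ⟨by rwa [card_image_of_injective _ inj], φ, hφ, c, image_subset_image (subset_univ _),
        fun p hp => ?_, fun p hp hp' => ?_⟩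
      · obtain ⟨i, hi, rfl⟩ := mem_image.1 hp
        exact h2 i hi
      · obtain ⟨i, hi, rfl⟩ := mem_image.1 hp
        exact h4 i hi fun k => hp' (mem_image_of_mem _ k)
  refine ⟨⟨⟨_, rfl⟩, by rw [vectorSpan_hull, hd]⟩, fun k => ?_⟩
  rw [faceCount_eq hX' hd, filter_congr (q := fun A => A.card = k)
    fun A hA => by rw [nsides_eq finrank_three hX' (mem_facets.1 hA)], fac, filter_image,
    card_image_of_injective _ (image_injective inj)]
  simp only [card_image_of_injective _ inj]

variable [Fintype F] {I : V → F → Prop}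

lemma Pol.affine (h : Pol I) : ∃ (x : V → EuclideanSpace ℝ (Fin 3))
    (φ : F → EuclideanSpace ℝ (Fin 3) →ₗ[ℝ] ℝ) (c : F → ℝ), ∀ v A,
      (I v A → φ A (x v) = c A) ∧ (¬ I v A → φ A (x v) < c A) := by
  obtain ⟨X, Y, hXY⟩ := h.real
  have pos : ∀ v, 0 < X v ⬝ᵥ ∑ A, Y A := by
    intro v
    obtain ⟨A, hA⟩ := h.p.cover v
    obtain ⟨u, -, B, -, -, s, -⟩ := h.p.two v A hA
    obtain ⟨C, -, hC⟩ := h.sep s.1.symm
    rw [dotProduct_sum]
    refine sum_pos' (fun D _ => ?_) ⟨C, mem_univ _, (hXY v C).2 hC⟩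
    by_cases k : I v D
    · exact ((hXY v D).1 k).ge
    · exact ((hXY v D).2 k).le
  generalize ∑ A, Y A = y at pos
  obtain ⟨k, hk⟩ : ∃ k, y k ≠ 0 := by
    by_contra hn
    push Not at hn
    obtain ⟨v⟩ := h.ne
    simpa [dotProduct, hn] using pos v
  refine ⟨fun v => WithLp.toLp 2 fun j => X v (k.succAbove j) / (X v ⬝ᵥ y),
    fun A => ∑ j, (Y A k * y (k.succAbove j) / y k - Y A (k.succAbove j)) •
      EuclideanSpace.projₗ (𝕜 := ℝ) j, fun A => Y A k / y k, fun v A => ?_⟩
  have e : (∑ j, (Y A k * y (k.succAbove j) / y k - Y A (k.succAbove j)) •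
      EuclideanSpace.projₗ (𝕜 := ℝ) j) (WithLp.toLp 2 fun j => X v (k.succAbove j) / (X v ⬝ᵥ y)) =
      Y A k / y k - (X v ⬝ᵥ Y A) / (X v ⬝ᵥ y) := by
    have h1 : X v ⬝ᵥ y = X v k * y k + ∑ j, X v (k.succAbove j) * y (k.succAbove j) :=
      Fin.sum_univ_succAbove _ k
    have h2 : X v ⬝ᵥ Y A = X v k * Y A k + ∑ j, X v (k.succAbove j) * Y A (k.succAbove j) :=
      Fin.sum_univ_succAbove _ k
    have h3 := (pos v).ne'
    simp only [Fin.sum_univ_three] at h1 h2
    simp only [Fin.sum_univ_three, LinearMap.add_apply, LinearMap.smul_apply, smul_eq_mul,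
      EuclideanSpace.projₗ, PiLp.projₗ_apply]
    rw [h2]
    generalize X v ⬝ᵥ y = n at h1 h3
    field_simp
    rw [h1]
    ring
  rw [e]
  exact ⟨fun k => by simp [(hXY v A).1 k], fun k => by
    linarith [div_pos ((hXY v A).2 k) (pos v)]⟩

open Classical in
/-- Steinitz: a polyhedral map is the face structure of a convex polyhedron. -/
theorem Pol.poly (h : Pol I) : ∃ P, IsPolyhedron P ∧ ∀ k, faceCount P k =
    (univ.filter fun A => (univ.filter fun v => I v A).card = k).card := by
  obtain ⟨x, φ, c, g⟩ := h.affine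
  have le : ∀ v A, φ A (x v) ≤ c A := fun v A => by
    by_cases k : I v A
    · exact ((g v A).1 k).le
    · exact ((g v A).2 k).le
  have hX : Conv x univ := by
    intro v _
    refine ⟨∑ A ∈ univ.filter (I v), φ A, fun u _ huv => ?_⟩
    simp only [LinearMap.sum_apply]
    obtain ⟨A, h1, h2⟩ := h.sep huv.symm
    refine sum_lt_sum (fun B hB => ?_) ⟨A, by simpa using h1, ?_⟩
    · rw [(g v B).1 (mem_filter.1 hB).2]
      exact le u B
    · rw [(g v A).1 h1]
      exact (g u A).2 h2
  obtain ⟨S, hS⟩ : ∃ S : F → Finset V, S = fun A => univ.filter fun v => I v A := ⟨_, rfl⟩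
  have mS : ∀ v A, v ∈ S A ↔ I v A := by simp [hS]
  have iS : Function.Injective S := fun A B e => by
    by_contra hn
    obtain ⟨v, h1, h2⟩ := h.dual.sep hn
    exact h2 ((mS v B).1 (e ▸ (mS v A).2 h1))
  have out : ∀ A, ∃ v, ¬ I v A := fun A => by
    obtain ⟨v, hv⟩ := h.d.cover A
    obtain ⟨u, -, B, -, -, s, -⟩ := h.p.two v A hv
    exact (h.dual.sep s.2.1.symm).imp fun _ => And.right
  have fS : ∀ A, Facet x univ (S A) := by
    intro A
    obtain ⟨v, hv⟩ := h.d.cover A
    obtain ⟨p, q, B, C, hpq, sp, sq⟩ := h.p.two v A hv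
    refine ⟨two_lt_card_iff.2 ⟨v, p, q, (mS _ _).2 hv, (mS _ _).2 sp.vA, (mS _ _).2 sq.vA,
      sp.1, sq.1, hpq⟩, φ A, fun h0 => ?_, c A, subset_univ _,
      fun i hi => (g i A).1 ((mS _ _).1 hi), fun i _ hi => (g i A).2 fun k => hi ((mS _ _).2 k)⟩
    obtain ⟨u, hu⟩ := out A
    have h1 := (g v A).1 hv
    have h2 := (g u A).2 hu
    simp [h0, ← h1] at h2
  obtain ⟨v₀⟩ := h.ne
  obtain ⟨A₀, -⟩ := h.p.cover v₀
  have h3 : 3 ≤ (univ : Finset V).card := (fS A₀).1.trans (card_le_card (subset_univ _))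
  have hF : Full x univ := by
    intro f hf r
    by_contra hn
    push Not at hn
    obtain ⟨u, hu⟩ := out A₀
    obtain ⟨z, -, z2⟩ := facet_not_subset finrank_three hX (fS A₀)
      ⟨h3, f, hf, r, Subset.refl _, hn, fun q hq hq' => absurd hq hq'⟩
      fun e => hu ((mS u A₀).1 (e ▸ mem_univ u))
    exact z2 (mem_univ z)
  have hfac : facets x univ = univ.image S := by
    have hsub : univ.image S ⊆ facets x univ := fun B hB => by
      obtain ⟨w, -, rfl⟩ := mem_image.1 hB
      exact mem_facets.2 (fS w)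
    have s1 := sum_facets finrank_three hX (by omega)
    rw [← sum_sdiff hsub, sum_image iS.injOn] at s1
    have s2 : fl I = ∑ A, (((S A).card - 2) + 2) := by
      unfold fl
      rw [sum_comm]
      refine sum_congr rfl fun A _ => ?_
      have := (fS A).1
      rw [← card_filter, Nat.sub_add_cancel (by omega), hS]
    have s3 := h.euler_ge
    simp only [sum_add_distrib, sum_const, smul_eq_mul, card_univ] at s1 s2 h3
    have s4 : ∑ B ∈ facets x univ \ univ.image S, (B.card - 2) = 0 := by omega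
    refine Subset.antisymm (fun B hB => ?_) hsub
    by_contra hn
    have k1 := sum_eq_zero_iff.1 s4 B (mem_sdiff.2 ⟨hB, hn⟩)
    have k2 := (mem_facets.1 hB).1
    omega
  obtain ⟨k1, k2⟩ := faceCount_pt hX hF
  refine ⟨_, k1, fun k => ?_⟩
  rw [k2, hfac, filter_image, card_image_of_injective _ iS, hS]

end Pool.Agent.P.MP_e40812_co.St
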