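import Pool.Agent.P.MP_e40812_co.StBasic

/-!
Every cycle of an oriented polyhedral map is a boundary (a rank count with the Euler formula).
-/

namespace Pool.Agent.P.MP_e40812_co.St

open Finset Module

variable {V F : Type*} [Fintype V] [Fintype F] {I : V → F → Prop} {K : Type*} [Field K]

lemma rank_ge {m n : Type*} [Fintype m] [Fintype n] (M : Matrix m n K)
    (h : ∀ x, M.mulVec x = 0 → ∀ i j, x i = x j) : Fintype.card n ≤ M.rank + 1 := by
  have h1 := LinearMap.finrank_range_add_finrank_ker M.mulVecLin
  have h2 : finrank K (LinearMap.ker M.mulVecLin) ≤ 1 := by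
    refine le_trans (Submodule.finrank_mono (t := K ∙ fun _ => (1 : K)) fun x hx => ?_)
      ((finrank_span_le_card _).trans (by simp))
    rcases isEmpty_or_nonempty n with _ | ⟨⟨i⟩⟩
    · rw [Subsingleton.elim x 0]
      exact zero_mem _
    · exact Submodule.mem_span_singleton.2 ⟨x i, funext fun j => by simp [h x hx i j]⟩
  rw [finrank_fintype_fun_eq_card] at h1
  unfold Matrix.rank
  omega

open Classical in
lemma Pol.darts (h : Pol I) : ∑ u, ∑ v, (if Ed I u v then 1 else 0) = fl I := by
  have h1 : ∀ v A, ∑ u, (if Ei I A v u then 1 else 0) = 2 * if I v A then 1 else 0 := by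
    intro v A
    split_ifs with k
    · obtain ⟨p, q, B, C, hpq, sp, sq⟩ := h.p.two v A k
      rw [h.p.sum_ei sp.ei sq.ei hpq _ fun z hz => if_neg hz, if_pos sp.ei, if_pos sq.ei]
    · exact sum_eq_zero fun u _ => if_neg fun e => k e.fst
  have h2 : ∀ v u, ∑ A, (if Ei I A v u then 1 else 0) = 2 * if Ed I v u then 1 else 0 := by
    intro v u
    split_ifs with k
    · obtain ⟨A, B, s⟩ := k
      rw [h.p.sum_fc s _ fun z hz => if_neg hz, if_pos s.ei, if_pos s.swap.ei]
    · exact sum_eq_zero fun A _ => if_neg fun e => k e.ed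
  have h3 : ∑ v, ∑ A, ∑ u, (if Ei I A v u then 1 else 0) =
      ∑ v, ∑ u, ∑ A, (if Ei I A v u then 1 else 0) := sum_congr rfl fun v _ => sum_comm
  simp only [h1, h2, ← mul_sum] at h3
  unfold fl
  omega

open Classical in
omit [Fintype F] in
lemma sumE [LinearOrder V] {R : Type*} [AddCommMonoid R] (f : V → V → R) :
    ∑ e : {p : V × V // p.1 < p.2 ∧ Ed I p.1 p.2}, f e.1.1 e.1.2 =
      ∑ a, ∑ b, if a < b ∧ Ed I a b then f a b else 0 := by
  rw [← sum_product', ← sum_filter, univ_product_univ]
  exact (sum_subtype _ (by simp) fun p : V × V => f p.1 p.2).symm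

theorem Pol.exact (h : Pol I) {σ : V → V → F → K} (hσ : Sig I σ) :
    2 * (Fintype.card V + Fintype.card F) ≤ fl I + 4 ∧
    ∀ c : V → V → K, (∀ u v, c u v = -c v u) → (∀ u v, ¬ Ed I u v → c u v = 0) →
      (∀ v, ∑ u, c v u = 0) → ∃ g : F → K, ∀ u v A B, Sq I u v A B →
        g A - g B = σ u v A * c u v := by
  classical
  letI : LinearOrder V := LinearOrder.lift' (Fintype.equivFin V) (Fintype.equivFin V).injective
  let E := {p : V × V // p.1 < p.2 ∧ Ed I p.1 p.2}
  have cE : 2 * Fintype.card E = fl I := by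
    have h1 := sumE (I := I) (R := ℕ) fun _ _ => 1
    rw [sum_const, card_univ, smul_eq_mul, mul_one] at h1
    rw [← h.darts, two_mul]
    nth_rw 1 [h1]
    rw [h1]
    nth_rw 2 [sum_comm]
    rw [← sum_add_distrib]
    refine sum_congr rfl fun a _ => ?_
    rw [← sum_add_distrib]
    refine sum_congr rfl fun b _ => ?_
    by_cases e : Ed I a b
    · rcases lt_or_gt_of_ne e.ne with k | k <;> simp [e, e.symm, k, k.not_gt]
    · have e' : ¬ Ed I b a := fun k => e k.symm
      simp [e, e']
  let M : Matrix V E K := fun v e => (if v = e.1.1 then 1 else 0) - if v = e.1.2 then 1 else 0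
  let N : Matrix E F K := fun e A => σ e.1.1 e.1.2 A
  have hM : ∀ c : V → V → K, (∀ u v, c u v = -c v u) → (∀ u v, ¬ Ed I u v → c u v = 0) →
      ∀ v, M.mulVec (fun e => c e.1.1 e.1.2) v = ∑ u, c v u := by
    intro c c1 c2 v
    have := sumE (I := I) fun a b => ((if v = a then 1 else 0) - if v = b then 1 else 0) * c a b
    simp only [Matrix.mulVec, dotProduct, M]
    rw [this]
    have e : ∀ a b, (if a < b ∧ Ed I a b then
        ((if v = a then 1 else 0) - if v = b then 1 else 0) * c a b else 0) =
        (if v = a then if a < b then c a b else 0 else 0) +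
          if v = b then if a < b then c b a else 0 else 0 := by
      intro a b
      by_cases k : Ed I a b
      · rw [c1 b a]
        by_cases k' : a < b <;> simp only [k, k', and_true, if_true, if_false] <;>
          split_ifs <;> ring
      · simp [k, c2 a b k, c2 b a fun k' => k k'.symm]
    simp only [e, sum_add_distrib]
    nth_rw 1 [sum_comm]
    simp only [sum_ite_eq, mem_univ, if_true, ← sum_add_distrib]
    refine sum_congr rfl fun u _ => ?_
    rcases lt_trichotomy v u with k | rfl | k
    · simp [k, k.not_gt]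
    · simp [c2 v v fun k => k.ne rfl]
    · simp [k, k.not_gt]
  have hN : ∀ (g : F → K) (e : E) A B, Sq I e.1.1 e.1.2 A B →
      N.mulVec g e = σ e.1.1 e.1.2 A * (g A - g B) := by
    intro g e A B s
    simp only [Matrix.mulVec, dotProduct, N]
    rw [h.p.sum_fc s _ fun C hC => by rw [hσ.zero _ _ _ hC, zero_mul]]
    linear_combination g B * hσ.opp _ _ _ _ s
  have MN : LinearMap.range N.mulVecLin ≤ LinearMap.ker M.mulVecLin := by
    rintro _ ⟨g, rfl⟩
    funext v
    have := hM (fun a b => ∑ A, σ a b A * g A)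
      (fun a b => by
        rw [← sum_neg_distrib]
        exact sum_congr rfl fun A _ => by rw [hσ.anti a b A, neg_mul])
      (fun a b k => sum_eq_zero fun A _ => by rw [hσ.zero a b A fun k' => k k'.ed, zero_mul]) v
    refine this.trans ?_
    rw [sum_comm]
    refine sum_eq_zero fun A _ => ?_
    rw [← sum_mul]
    by_cases k : I v A
    · obtain ⟨p, q, B, C, hpq, sp, sq⟩ := h.p.two v A k
      rw [h.p.sum_ei sp.ei sq.ei hpq _ fun z hz => hσ.zero _ _ _ hz,
        hσ.turn _ _ _ _ sp.ei sq.ei hpq, zero_mul]
    · rw [sum_eq_zero fun u _ => hσ.zero _ _ _ fun e => k e.fst, zero_mul]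
  have rM : Fintype.card V ≤ M.rank + 1 := by
    rw [← Matrix.rank_transpose]
    refine rank_ge _ fun x hx i j => ?_
    have key : ∀ a b, a < b → Ed I a b → x a = x b := by
      intro a b k e
      have := congrFun hx ⟨(a, b), k, e⟩
      simp only [Matrix.mulVec, dotProduct, M, Matrix.transpose_apply, sub_mul, sum_sub_distrib,
        ite_mul, one_mul, zero_mul, sum_ite_eq', mem_univ, if_true, Pi.zero_apply] at this
      exact sub_eq_zero.1 this
    refine (h.conn (fun z => x z = x i) (fun a b e k => ?_) i j rfl).symm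
    rcases lt_or_gt_of_ne e.ne with l | l
    · exact (key a b l e).symm.trans k
    · exact (key b a l e.symm).trans k
  have rN : Fintype.card F ≤ N.rank + 1 := by
    refine rank_ge _ fun g hg i j => ?_
    have key : ∀ a b A B, a < b → Sq I a b A B → g A = g B := by
      intro a b A B k s
      have := (hN g ⟨(a, b), k, s.ed⟩ A B s).symm.trans (congrFun hg _)
      have e := hσ.sq _ _ _ s.ei
      simp only [Pi.zero_apply] at this
      linear_combination σ a b A * this - (g A - g B) * e
    refine (h.dual.conn (fun z => g z = g i) (fun A B ⟨a, b, s⟩ k => ?_) i j rfl).symm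
    have s := s.of_tr
    rcases lt_or_gt_of_ne s.1 with l | l
    · exact (key a b A B l s).symm.trans k
    · exact (key b a A B l s.symm).symm.trans k
  have r1 := LinearMap.finrank_range_add_finrank_ker M.mulVecLin
  rw [finrank_fintype_fun_eq_card] at r1
  have r2 := Submodule.finrank_mono MN
  have := h.euler
  unfold Matrix.rank at rM rN
  refine ⟨by omega, fun c c1 c2 c3 => ?_⟩
  have e := Submodule.eq_of_le_of_finrank_le MN (by omega)
  obtain ⟨g, hg⟩ : (fun e : E => c e.1.1 e.1.2) ∈ LinearMap.range N.mulVecLin := by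
    rw [e]
    funext v
    exact (hM c c1 c2 v).trans (c3 v)
  have key : ∀ a b A B, a < b → Sq I a b A B → g A - g B = σ a b A * c a b := by
    intro a b A B k s
    have := (hN g ⟨(a, b), k, s.ed⟩ A B s).symm.trans (congrFun hg _)
    have e := hσ.sq _ _ _ s.ei
    linear_combination σ a b A * this - (g A - g B) * e
  refine ⟨g, fun a b A B s => ?_⟩
  rcases lt_or_gt_of_ne s.1 with l | l
  · exact key a b A B l s
  · rw [key b a A B l s.symm, hσ.anti a b A, c1 a b]
    ring

open Classical in
omit [Fintype V] [Fintype F] in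
lemma sig_two : Sig I fun u v A => (if Ei I A u v then 1 else 0 : ZMod 2) where
  anti := fun u v A => by
    rw [ZMod.neg_eq_self_mod_two]
    exact if_congr ⟨Ei.symm, Ei.symm⟩ rfl rfl
  zero := fun u v A k => if_neg k
  sq := fun u v A k => by simp [k]
  opp := fun u v A B s => by
    simp only [s.ei, s.swap.ei, if_true]
    rfl
  turn := fun v u w A k1 k2 _ => by
    simp only [k1, k2, if_true]
    rfl

lemma Pol.euler_ge (h : Pol I) : 2 * (Fintype.card V + Fintype.card F) ≤ fl I + 4 :=
  (h.exact sig_two).1

/-- The version modulo two; the cycle condition may be left out at one vertex. -/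
lemma Pol.exact_two (h : Pol I) (c : V → V → ZMod 2) (c1 : ∀ u v, c u v = c v u)
    (c2 : ∀ u v, ¬ Ed I u v → c u v = 0) (o : V) (c3 : ∀ v, v ≠ o → ∑ u, c v u = 0) :
    ∃ g : F → ZMod 2, ∀ u v A B, Sq I u v A B → g A + g B = c u v := by
  classical
  have c1' : ∀ u v, c u v = -c v u := fun u v => by rw [ZMod.neg_eq_self_mod_two, c1]
  obtain ⟨g, hg⟩ := (h.exact sig_two).2 c c1' c2 fun v => by
    by_cases k : v = o
    · have := sum_anti c c1' fun u => c2 u u fun e => e.ne rfl
      rwa [Fintype.sum_eq_single o c3, ← k] at this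
    · exact c3 v k
  refine ⟨g, fun u v A B s => ?_⟩
  have := hg u v A B s
  rwa [if_pos s.ei, one_mul, sub_eq_add_neg, ZMod.neg_eq_self_mod_two] at this

end Pool.Agent.P.MP_e40812_co.St
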