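import Pool.Agent.P.MP_e40812_co.StRank

/-!
Planarity arguments for polyhedral maps: cycles separate, and minimal cuts are dual cycles.
-/

namespace Pool.Agent.P.MP_e40812_co.St

open Finset

variable {V F : Type*} [Fintype V] {I : V → F → Prop} {x y : V} {A B : F}

open Classical in
/-- A chain modulo two with boundary `a + b` and support in `R`. -/
def Chain (R : V → V → Prop) (a b : V) (c : V → V → ZMod 2) : Prop :=
  (∀ u v, c u v = c v u) ∧ (∀ u v, ¬ R u v → ¬ R v u → c u v = 0) ∧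
    ∀ v, ∑ u, c v u = (if v = a then 1 else 0) + if v = b then 1 else 0

open Classical in
/-- The chain of a single edge. -/
noncomputable def one (a b u v : V) : ZMod 2 :=
  (if u = a then if v = b then 1 else 0 else 0) + if u = b then if v = a then 1 else 0 else 0

lemma chain_one {R : V → V → Prop} {a b : V} (h : R a b) : Chain R a b (one a b) := by
  classical
  refine ⟨fun u v => ?_, fun u v h1 h2 => ?_, fun v => ?_⟩
  · unfold one
    rw [add_comm]
    congr 1 <;> split_ifs <;> rfl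
  · unfold one
    split_ifs <;> simp_all
  · simp only [one, sum_add_distrib]
    congr 1 <;> split_ifs <;> simp

lemma Chain.add {R : V → V → Prop} {a b d : V} {c c' : V → V → ZMod 2} (h : Chain R a b c)
    (h' : Chain R b d c') : Chain R a d (c + c') := by
  refine ⟨fun u v => ?_, fun u v h1 h2 => ?_, fun v => ?_⟩
  · simp only [Pi.add_apply, h.1 u v, h'.1 u v]
  · simp only [Pi.add_apply, h.2.1 u v h1 h2, h'.2.1 u v h1 h2, add_zero]
  · simp only [Pi.add_apply, sum_add_distrib, h.2.2, h'.2.2]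
    split_ifs <;> rfl

lemma Chain.mono {R R' : V → V → Prop} {a b : V} {c : V → V → ZMod 2} (h : Chain R a b c)
    (k : ∀ u v, R u v → R' u v) : Chain R' a b c :=
  ⟨h.1, fun u v h1 h2 => h.2.1 u v (fun e => h1 (k _ _ e)) fun e => h2 (k _ _ e), h.2.2⟩

lemma Chain.symm {R : V → V → Prop} {a b : V} {c : V → V → ZMod 2} (h : Chain R a b c) :
    Chain R b a c := ⟨h.1, h.2.1, fun v => by rw [h.2.2, add_comm]⟩

lemma exists_chain {R : V → V → Prop} {a b : V} (h : Relation.ReflTransGen R a b) :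
    ∃ c, Chain R a b c := by
  induction h with
  | refl =>
    refine ⟨0, fun _ _ => rfl, fun _ _ _ _ => rfl, fun v => ?_⟩
    simp only [Pi.zero_apply, sum_const_zero]
    split_ifs <;> rfl
  | tail _ k ih =>
    obtain ⟨c, hc⟩ := ih
    exact ⟨_, hc.add (chain_one k)⟩

/-- A chain from `x` through the set `S` to `y`, with exactly one edge at `x`. -/
lemma exists_chain_via {S : V → Prop} {a b : V} (hx : ¬ S x) (hy : ¬ S y) (hxy : x ≠ y)
    (ha : S a) (e1 : Ed I x a) (k : Conn I S a b) (e2 : Ed I y b) :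
    ∃ c, Chain (fun u v => Ed I u v ∧ (S u ∨ u = x ∨ u = y) ∧ (S v ∨ v = x ∨ v = y)) x y c ∧
      c x a = 1 ∧ ∀ u, u ≠ a → c x u = 0 := by
  classical
  obtain ⟨c, hc⟩ := exists_chain k
  have hb := k.mem ha
  have h0 : ∀ u, c x u = 0 := fun u => hc.2.1 x u (fun e => hx e.2.1) fun e => hx e.2.2
  have xa : x ≠ a := e1.ne
  have xb : x ≠ b := fun e => hx (e ▸ hb)
  refine ⟨_, ((chain_one ⟨e1, by simp, Or.inl ha⟩).add
    (hc.mono fun u v e => ⟨e.1, Or.inl e.2.1, Or.inl e.2.2⟩)).add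
    (chain_one ⟨e2.symm, Or.inl hb, by simp⟩), ?_, fun u hu => ?_⟩
  · simp [one, h0, xa, xb, hxy]
  · simp [one, h0, xa, xb, hxy, hu]

variable [Fintype F]

lemma two_eq {s t : ZMod 2} (h : s + t = 0) : s = t := by
  revert s t
  decide

/-- A cycle is a boundary. -/
lemma Pol.bound (h : Pol I) {R : V → V → Prop} (hR : ∀ u v, R u v → Ed I u v) {a : V}
    {c : V → V → ZMod 2} (hc : Chain R a a c) :
    ∃ g : F → ZMod 2, ∀ u v A B, Sq I u v A B → g A + g B = c u v :=
  h.exact_two c hc.1 (fun u v k => hc.2.1 u v (fun e => k (hR _ _ e)) fun e => k (hR _ _ e).symm)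
    a fun v k => by rw [hc.2.2, if_neg k, add_zero]

/-- The bounding function is constant along walks off the cycle. -/
lemma Pol.const (h : Pol I) {c : V → V → ZMod 2} {g : F → ZMod 2}
    (hg : ∀ u v A B, Sq I u v A B → g A + g B = c u v) {S : V → Prop}
    (hS : ∀ z u, S z → c z u = 0) {p q : V} (hp : S p) (k : Conn I S p q) (hA : I p A)
    (hB : I q B) : g A = g B := by
  have l : ∀ z, S z → ∀ A B, I z A → I z B → g A = g B := fun z hz A B h1 h2 =>
    (h.link z (fun C => g C = g A)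
      (fun u C D s k => (two_eq ((hg z u C D s).trans (hS z u hz))).symm.trans k) h1 h2 rfl).symm
  induction k generalizing B with
  | refl => exact l p hp A B hA hB
  | tail _ k ih =>
    obtain ⟨⟨C, D, s⟩, -, k⟩ := k
    exact (ih s.uA).trans (l _ k C B s.vA hB)

/-- A walk between the two faces of an edge meets every detour of the edge. -/
lemma Pol.cross (h : Pol I) (s : Sq I x y A B) {S N : V → Prop} {p q a b : V} (hx : ¬ N x)
    (hy : ¬ N y) (ha : N a) (e1 : Ed I x a) (k : Conn I N a b) (e2 : Ed I y b)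
    (hS : ∀ z, S z → ¬ (N z ∨ z = x ∨ z = y)) (hp : S p) (k' : Conn I S p q) (hA : I p A)
    (hB : I q B) : False := by
  classical
  obtain ⟨c, hc, -, c2⟩ := exists_chain_via hx hy s.1 ha e1 k e2
  have hc' := hc.add (chain_one ⟨s.symm.ed, by simp, by simp⟩)
  obtain ⟨g, g1⟩ := h.bound (fun _ _ e => e.1) hc'
  have := g1 x y A B s
  rw [h.const g1 (fun z u hz => hc'.2.1 z u (fun e => hS z hz e.2.1) fun e => hS z hz e.2.2)
    hp k' hA hB, Pi.add_apply, Pi.add_apply, c2 y fun e => hy (e ▸ ha)] at this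
  simp only [one, s.1, if_true, if_false, zero_add] at this
  revert this
  generalize g B = t
  decide +revert

/-- Three vertices cannot all be joined to three disjoint connected sets. -/
lemma Pol.k33 (h : Pol I) (S : Fin 3 → V → Prop) (w : Fin 3 → V) (hw : Function.Injective w)
    (hd : ∀ i j z, S i z → S j z → i = j) (hn : ∀ i j, ¬ S i (w j))
    (hc : ∀ i a b, S i a → S i b → Conn I (S i) a b) (he : ∀ i j, ∃ a, S i a ∧ Ed I (w j) a) :
    False := by
  classical
  choose a ha ea using he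
  choose c c1 c2 c3 using fun i => exists_chain_via (hn i 0) (hn i 1) (hw.ne (by decide))
    (ha i 0) (ea i 0) (hc i _ _ (ha i 0) (ha i 1)) (ea i 1)
  have an : ∀ i j, i ≠ j → a i 0 ≠ a j 0 := fun i j k e => k (hd i j _ (ha i 0) (e ▸ ha j 0))
  have ex : ∀ i j, ∃ g : F → ZMod 2, ∀ u v A B, Sq I u v A B → g A + g B = (c i + c j) u v :=
    fun i j => h.bound (R := Ed I) (fun _ _ e => e)
      (((c1 i).mono fun u v e => e.1).add ((c1 j).symm.mono fun u v e => e.1))
  have z0 : ∀ i k, k ≠ i → ∀ z u, S k z ∨ z = w 2 → c i z u = 0 := by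
    intro i k ki z u hz
    have : ¬ (S i z ∨ z = w 0 ∨ z = w 1) := by
      rcases hz with hz | rfl <;> rintro (e | e | e)
      · exact ki (hd _ _ z hz e)
      · exact hn k 0 (e ▸ hz)
      · exact hn k 1 (e ▸ hz)
      · exact hn i 2 e
      · exact absurd (hw e) (by decide)
      · exact absurd (hw e) (by decide)
    exact (c1 i).2.1 z u (fun e => this e.2.1) fun e => this e.2.2
  obtain ⟨O, hO⟩ := h.p.cover (w 2)
  have key : ∀ i j k, k ≠ i → k ≠ j → ∀ g : F → ZMod 2,
      (∀ u v A B, Sq I u v A B → g A + g B = (c i + c j) u v) →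
      ∀ B, I (a k 0) B → g O = g B := fun i j k ki kj g hg B hB =>
    h.const hg (S := fun z => S k z ∨ z = w 2)
      (fun z u hz => by rw [Pi.add_apply, Pi.add_apply, z0 i k ki z u hz, z0 j k kj z u hz, add_zero])
      (Or.inr rfl) (.head ⟨ea k 2, Or.inr rfl, Or.inl (ha k 2)⟩
        ((hc k _ _ (ha k 2) (ha k 0)).mono fun z => Or.inl)) hO hB
  obtain ⟨g₁, p1⟩ := ex 0 1
  obtain ⟨g₂, p2⟩ := ex 1 2
  have q1 := key 0 1 2 (by decide) (by decide) g₁ p1
  have q2 := key 1 2 0 (by decide) (by decide) g₂ p2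
  have q3 := key 0 2 1 (by decide) (by decide) (g₁ + g₂) fun u v A B s => by
    have e1 := p1 u v A B s
    have e2 := p2 u v A B s
    have e3 : c 1 u v + c 1 u v = 0 := CharTwo.add_self_eq_zero _
    simp only [Pi.add_apply] at e1 e2 ⊢
    linear_combination e1 + e2 + e3
  have fin : ∀ A B, Sq I (w 0) (a 0 0) A B → g₁ A ≠ g₁ O → g₁ B = g₁ O → False := by
    intro A B s hA hB
    obtain ⟨A', B', ⟨u, t⟩, k1, k2, k3⟩ := h.d.another
      (fun C => g₁ C ≠ g₁ O ∧ g₂ C = g₂ O) s.tr.ei ⟨hA, (q2 A s.vA).symm⟩ fun k => k.1 hB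
    have t := t.of_tr
    by_cases u0 : u = a 0 0
    · subst u0
      obtain rfl : A' = A := (h.p.eq_or s t.uA t.vA).resolve_right fun e => k1.1 (e ▸ hB)
      exact k3 ⟨rfl, h.p.other t s⟩
    by_cases u1 : u = a 1 0
    · have := q3 A' (u1 ▸ t.vA)
      simp only [Pi.add_apply, k1.2, add_left_inj] at this
      exact k1.1 this.symm
    by_cases u2 : u = a 2 0
    · exact k1.1 (q1 A' (u2 ▸ t.vA)).symm
    have e1 := p1 _ _ _ _ t
    have e2 := p2 _ _ _ _ t
    simp only [Pi.add_apply, c3 0 u u0, c3 1 u u1, c3 2 u u2, add_zero] at e1 e2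
    exact k2 (two_eq e1 ▸ two_eq e2 ▸ k1)
  obtain ⟨A, B, s⟩ := ea 0 0
  have e := p1 _ _ _ _ s
  simp only [Pi.add_apply, c2 0, c3 1 _ (an 0 1 (by decide)), add_zero] at e
  have : (g₁ A ≠ g₁ O ∧ g₁ B = g₁ O) ∨ (g₁ B ≠ g₁ O ∧ g₁ A = g₁ O) := by
    revert e
    generalize g₁ A = r, g₁ B = s, g₁ O = t
    decide +revert
  rcases this with k | k
  · exact fin A B s k.1 k.2
  · exact fin B A s.swap k.1 k.2

/-- A cut with both sides connected is a single dual cycle. -/
lemma Pol.bond (h : Pol I) (S : V → Prop) (h1 : ∀ a b, S a → S b → Conn I S a b)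
    (h2 : ∀ a b, ¬ S a → ¬ S b → Conn I (fun z => ¬ S z) a b) (Kr : V → V → Prop)
    (hK : ∀ a b, Kr a b → S a ∧ ¬ S b) (O : F)
    (all : ∀ A, A ≠ O → ∀ a b c d, Kr a b → Ei I A a b → Ei I A c d → S c → ¬ S d → Kr c d)
    {a b : V} (k0 : Kr a b) (e0 : Ed I a b) (e : Ed I x y) (hx : S x) (hy : ¬ S y) : Kr x y := by
  classical
  have uq : ∀ {a b c d A B}, Sq I a b A B → Sq I c d A B → S a → ¬ S b → S c → ¬ S d →
      a = c ∧ b = d := by
    intro a b c d A B s t k1 k2 k3 k4
    exact ⟨((h.d.mem_or s t.uA t.uB).resolve_right fun e => k2 (e ▸ k3)).symm,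
      ((h.d.mem_or s t.vA t.vB).resolve_left fun e => k4 (e ▸ k1)).symm⟩
  obtain ⟨g, hg⟩ := h.dual.exact_two
    (fun A B => if ∃ a b, Kr a b ∧ Sq I a b A B then 1 else 0)
    (fun A B => if_congr ⟨fun ⟨a, b, k, s⟩ => ⟨a, b, k, s.swap⟩,
      fun ⟨a, b, k, s⟩ => ⟨a, b, k, s.swap⟩⟩ rfl rfl)
    (fun A B k => if_neg fun ⟨a, b, _, s⟩ => k s.tr.ed) O fun A hA => by
      by_cases hn : ∃ a b, Kr a b ∧ Ei I A a b
      swap
      · exact sum_eq_zero fun B _ => if_neg fun ⟨a, b, k, s⟩ => hn ⟨a, b, k, s.ei⟩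
      obtain ⟨a, b, k, s⟩ := hn
      have e1 : ∀ B, (if ∃ a b, Kr a b ∧ Sq I a b A B then 1 else 0 : ZMod 2) =
          ∑ v, if Ei (tr I) v A B ∧ S v then 1 else 0 := by
        intro B
        by_cases k' : Ed (tr I) A B
        · obtain ⟨p, q, t⟩ := k'
          rw [h.d.sum_fc t _ fun z hz => if_neg fun k => hz k.1]
          simp only [t.ei, t.swap.ei, true_and]
          have t := t.of_tr
          have : (∃ a b, Kr a b ∧ Sq I a b A B) ↔ (S p ∧ ¬ S q) ∨ (S q ∧ ¬ S p) := by
            constructor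
            · rintro ⟨c, d, k, r⟩
              obtain ⟨k1, k2⟩ := hK c d k
              rcases h.d.mem_or t r.uA r.uB with rfl | rfl <;>
                rcases h.d.mem_or t r.vA r.vB with rfl | rfl <;> tauto
            · rintro (k' | k')
              · exact ⟨p, q, all A hA a b p q k s t.ei k'.1 k'.2, t⟩
              · exact ⟨q, p, all A hA a b q p k s t.symm.ei k'.1 k'.2, t.symm⟩
          rw [if_congr this rfl rfl]
          by_cases hp : S p <;> by_cases hq : S q <;> simp [hp, hq]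
          rfl
        · rw [if_neg fun ⟨a, b, _, s⟩ => k' s.tr.ed]
          exact (sum_eq_zero fun v _ => if_neg fun k => k' k.1.ed).symm
      simp only [e1]
      rw [sum_comm]
      refine sum_eq_zero fun v _ => ?_
      by_cases hv : I v A
      · obtain ⟨B, C, p, q, hBC, sp, sq⟩ := h.d.two A v hv
        rw [h.d.sum_ei sp.ei sq.ei hBC _ fun z hz => if_neg fun k => hz k.1]
        simp only [sp.ei, sq.ei, true_and]
        split_ifs <;> rfl
      · exact sum_eq_zero fun B _ => if_neg fun k => hv k.1.fst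
  have cst : ∀ T : V → Prop, (∀ a b, Kr a b → ¬ (T a ∧ T b)) → ∀ a b, Conn I T a b → g a = g b := by
    intro T hT a b k
    induction k with
    | refl => rfl
    | tail _ k ih =>
      obtain ⟨⟨A, B, s⟩, k1, k2⟩ := k
      refine ih.trans (two_eq ((hg A B _ _ s.tr).trans (if_neg ?_)))
      rintro ⟨c, d, k, r⟩
      refine hT c d k ⟨?_, ?_⟩
      · rcases h.d.mem_or s r.uA r.uB with rfl | rfl <;> assumption
      · rcases h.d.mem_or s r.vA r.vB with rfl | rfl <;> assumption
  obtain ⟨A, B, s⟩ := e0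
  obtain ⟨C, D, t⟩ := e
  have e1 := hg A B _ _ s.tr
  have e2 := hg C D _ _ t.tr
  rw [if_pos ⟨a, b, k0, s⟩, cst S (fun a b k e => (hK a b k).2 e.2) a x (h1 _ _ (hK a b k0).1 hx),
    cst (fun z => ¬ S z) (fun a b k e => e.1 (hK a b k).1) b y (h2 _ _ (hK a b k0).2 hy), e2] at e1
  split_ifs at e1 with k
  · obtain ⟨c, d, k, r⟩ := k
    obtain ⟨rfl, rfl⟩ := uq r t (hK c d k).1 (hK c d k).2 hx hy
    exact k
  · exact absurd e1 (by decide)

end Pool.Agent.P.MP_e40812_co.St
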