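import Pool.Agent.P.MP_e40812_co.StSep

/-!
Harmonic functions on a polyhedral map with a triangular outer face (Tutte embedding).
-/

namespace Pool.Agent.P.MP_e40812_co.St

open Finset

variable {V F : Type*} [Fintype V] (I : V → F → Prop)

/-- The face `O` is the triangle with vertices `a 0, a 1, a 2`. -/
structure Out (O : F) (a : Fin 3 → V) : Prop where
  inj : Function.Injective a
  mem : ∀ v, I v O ↔ ∃ i, v = a i

open Classical in
/-- Harmonic at all vertices off the face `O`. -/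
def Harm (O : F) (φ : V → ℝ) : Prop :=
  ∀ v, ¬ I v O → ∑ u, (if Ed I v u then φ u - φ v else 0) = 0

variable {I} {O A B : F} {a : Fin 3 → V} {φ ψ : V → ℝ} {u v w x y : V}

lemma Harm.lin (h1 : Harm I O φ) (h2 : Harm I O ψ) (r s t : ℝ) :
    Harm I O fun v => r + s * φ v + t * ψ v := by
  classical
  intro v hv
  have e : ∀ u, (if Ed I v u then r + s * φ u + t * ψ u - (r + s * φ v + t * ψ v) else 0) =
      s * (if Ed I v u then φ u - φ v else 0) + t * (if Ed I v u then ψ u - ψ v else 0) := by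
    intro u
    split_ifs <;> ring
  simp only [e, sum_add_distrib, ← mul_sum, h1 v hv, h2 v hv, mul_zero, add_zero]

lemma Harm.neg (h : Harm I O φ) : Harm I O fun v => -φ v := by
  convert h.lin h 0 (-1) 0 using 2
  ring

lemma Harm.eq_of_le (h : Harm I O φ) (hv : ¬ I v O) (k : ∀ u, Ed I v u → φ u ≤ φ v)
    (e : Ed I v u) : φ u = φ v := by
  classical
  have := (sum_eq_zero_iff_of_nonpos fun z _ => by
    split_ifs with k'
    · exact sub_nonpos.2 (k z k')
    · exact le_rfl).1 (h v hv) u (mem_univ _)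
  rwa [if_pos e, sub_eq_zero] at this

lemma Harm.up_of_ne (h : Harm I O φ) (hv : ¬ I v O) (e : Ed I v u) (k : φ u ≠ φ v) :
    ∃ z, Ed I v z ∧ φ v < φ z := by
  by_contra hn
  push Not at hn
  exact k (h.eq_of_le hv hn e)

omit [Fintype V] in
lemma Out.ei (T : Out I O a) (h : Loc I) {i j : Fin 3} (k : i ≠ j) : Ei I O (a i) (a j) := by
  obtain ⟨p, q, B, C, hpq, sp, sq⟩ := h.two (a i) O ((T.mem _).2 ⟨i, rfl⟩)
  obtain ⟨l, rfl⟩ := (T.mem _).1 sp.vA
  obtain ⟨m, rfl⟩ := (T.mem _).1 sq.vA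
  have h1 : i ≠ l := fun e => sp.1 (e ▸ rfl)
  have h2 : i ≠ m := fun e => sq.1 (e ▸ rfl)
  have h3 : l ≠ m := fun e => hpq (e ▸ rfl)
  obtain rfl | rfl : j = l ∨ j = m := by omega
  · exact sp.ei
  · exact sq.ei

variable [Fintype F]

/-- From every vertex one can walk to the outer face without going down. -/
lemma Harm.up (h : Pol I) (T : Out I O a) (H : Harm I O φ) (v : V) :
    ∃ i, Conn I (fun z => φ v ≤ φ z) v (a i) := by
  classical
  by_contra hn
  push Not at hn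
  obtain ⟨m, hm, hm'⟩ := exists_max_image (univ.filter (Conn I (fun z => φ v ≤ φ z) v)) φ
    ⟨v, mem_filter.2 ⟨mem_univ _, .refl⟩⟩
  simp only [mem_filter, mem_univ, true_and] at hm hm'
  refine hn 0 (h.conn (fun z => Conn I (fun z => φ v ≤ φ z) v z ∧ φ z = φ m) ?_ m _ ⟨hm, rfl⟩).1
  intro p q e ⟨k1, k2⟩
  have hp : φ v ≤ φ p := k1.mem le_rfl
  have := H.eq_of_le (fun k => by
    obtain ⟨i, rfl⟩ := (T.mem p).1 k
    exact hn i k1) (fun z e' => by
    by_cases k : φ v ≤ φ z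
    · exact k2 ▸ hm' z (k1.tail ⟨e', hp, k⟩)
    · linarith) e
  exact ⟨k1.tail ⟨e, hp, hp.trans this.ge⟩, this.trans k2⟩

lemma Harm.le (h : Pol I) (T : Out I O a) (H : Harm I O φ) {c : ℝ} (k : ∀ i, φ (a i) ≤ c)
    (v : V) : φ v ≤ c := by
  obtain ⟨i, hi⟩ := H.up h T v
  exact (hi.mem le_rfl).trans (k i)

lemma Harm.zero (h : Pol I) (T : Out I O a) (H : Harm I O φ) (k : ∀ i, φ (a i) = 0)
    (v : V) : φ v = 0 :=
  le_antisymm (H.le h T (fun i => (k i).le) v)
    (neg_nonpos.1 (H.neg.le h T (fun i => by simp [k i]) v))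

lemma exists_harm (h : Pol I) (T : Out I O a) (b : V → ℝ) :
    ∃ φ, Harm I O φ ∧ ∀ i, φ (a i) = b (a i) := by
  classical
  let L : (V → ℝ) →ₗ[ℝ] (V → ℝ) :=
    { toFun := fun f v => if I v O then f v else ∑ u, if Ed I v u then f u - f v else 0
      map_add' := fun f g => funext fun v => by
        simp only [Pi.add_apply]
        split_ifs
        · rfl
        · rw [← sum_add_distrib]
          refine sum_congr rfl fun u _ => ?_
          split_ifs <;> ring
      map_smul' := fun c f => funext fun v => by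
        simp only [Pi.smul_apply, smul_eq_mul, RingHom.id_apply]
        split_ifs
        · rfl
        · rw [mul_sum]
          refine sum_congr rfl fun u _ => ?_
          split_ifs <;> ring }
  have hL : Function.Injective L := by
    rw [injective_iff_map_eq_zero]
    intro f hf
    funext v
    refine Harm.zero h T (fun z hz => ?_) (fun i => ?_) v
    · simpa only [L, LinearMap.coe_mk, AddHom.coe_mk, Pi.zero_apply, if_neg hz]
        using congrFun hf z
    · simpa only [L, LinearMap.coe_mk, AddHom.coe_mk, Pi.zero_apply,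
        if_pos ((T.mem _).2 ⟨i, rfl⟩)]
        using congrFun hf (a i)
  obtain ⟨f, hf⟩ := LinearMap.injective_iff_surjective.1 hL fun v => if I v O then b v else 0
  refine ⟨f, fun z hz => ?_, fun i => ?_⟩
  · simpa only [L, LinearMap.coe_mk, AddHom.coe_mk, Pi.zero_apply, if_neg hz]
        using congrFun hf z
  · simpa only [L, LinearMap.coe_mk, AddHom.coe_mk, Pi.zero_apply,
        if_pos ((T.mem _).2 ⟨i, rfl⟩)]
      using congrFun hf (a i)

/-- Upper level sets are connected. -/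
lemma Harm.conn (h : Pol I) (T : Out I O a) (H : Harm I O φ) (U : ℝ → Prop)
    (hU : ∀ r s, U r → r ≤ s → U s) (hu : U (φ u)) (hv : U (φ v)) :
    Conn I (fun z => U (φ z)) u v := by
  obtain ⟨i, hi⟩ := H.up h T u
  obtain ⟨j, hj⟩ := H.up h T v
  have hi := hi.mono fun z k => hU _ _ hu k
  have hj := hj.mono fun z k => hU _ _ hv k
  refine hi.trans (.trans ?_ hj.symm)
  by_cases k : i = j
  · exact k ▸ .refl
  · exact .single ⟨(T.ei h.p.toLoc k).ed, hi.mem hu, hj.mem hv⟩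

lemma Harm.conn_pos (h : Pol I) (T : Out I O a) (H : Harm I O φ) (hu : 0 < φ u) (hv : 0 < φ v) :
    Conn I (fun z => 0 < φ z) u v := H.conn h T (0 < ·) (fun _ _ => lt_of_lt_of_le) hu hv

lemma Harm.conn_neg (h : Pol I) (T : Out I O a) (H : Harm I O φ) (hu : φ u < 0) (hv : φ v < 0) :
    Conn I (fun z => φ z < 0) u v :=
  (H.neg.conn_pos h T (neg_pos.2 hu) (neg_pos.2 hv)).mono fun _ => neg_pos.1

lemma Harm.corner (h : Pol I) (T : Out I O a) (H : Harm I O φ) (hv : I v O) (k : φ v = 0)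
    (hw : 0 < φ w) : ∃ u, Ed I v u ∧ 0 < φ u := by
  obtain ⟨i, rfl⟩ := (T.mem v).1 hv
  obtain ⟨j, hj⟩ := H.up h T w
  have := hw.trans_le (hj.mem le_rfl)
  exact ⟨a j, (T.ei h.p.toLoc fun e => by simp [← e, k] at this).ed, this⟩

/-- No vertex is degenerate. -/
lemma Harm.nondeg (h : Pol I) (T : Out I O a) (H : Harm I O φ) (hw : φ w ≠ 0) (k : φ v = 0) :
    ∃ u, Ed I v u ∧ φ u ≠ 0 := by
  classical
  by_contra hn
  push Not at hn
  let D : V → Prop := fun z => φ z = 0 ∧ ∀ u, Ed I z u → φ u = 0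
  let S : V → Prop := Conn I D v
  have SD : ∀ z, S z → D z := fun z e => e.mem ⟨k, hn⟩
  let W : Finset V := univ.filter fun z => ¬ S z ∧ ∃ b, S b ∧ Ed I z b
  have mW : ∀ z, z ∈ W ↔ ¬ S z ∧ ∃ b, S b ∧ Ed I z b := by simp [W]
  have W0 : ∀ z ∈ W, φ z = 0 := fun z hz => by
    obtain ⟨-, b, k1, k2⟩ := (mW z).1 hz
    exact (SD b k1).2 z k2.symm
  have W1 : ∀ z ∈ W, ∃ u, Ed I z u ∧ φ u ≠ φ z := fun z hz => by
    obtain ⟨k0, b, k1, k2⟩ := (mW z).1 hz
    by_contra hn
    push Not at hn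
    exact k0 (k1.tail ⟨k2.symm, SD b k1, W0 z hz, fun u e => (hn u e).trans (W0 z hz)⟩)
  have step : ∀ p q, Ed I p q → S p → S q ∨ q ∈ W := fun p q e k => by
    by_cases k' : S q
    · exact Or.inl k'
    · exact Or.inr ((mW q).2 ⟨k', p, k, e.symm⟩)
  have h3 : 2 < W.card := by
    by_contra hc
    have hne : W.Nonempty := by
      by_contra h0
      exact hw (SD w (h.conn S (fun p q e k => (step p q e k).resolve_right
        fun k' => h0 ⟨q, k'⟩) v w .refl)).1
    obtain ⟨x, y, hx, hy, e⟩ : ∃ x y, x ∈ W ∧ y ∈ W ∧ ∀ z ∈ W, z = x ∨ z = y := by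
      obtain ⟨x, hx⟩ := hne
      by_cases k : ∃ y ∈ W, y ≠ x
      · obtain ⟨y, hy, k⟩ := k
        refine ⟨x, y, hx, hy, fun z hz => ?_⟩
        by_contra k'
        push Not at k'
        exact hc (two_lt_card_iff.2 ⟨x, y, z, hx, hy, hz, k.symm, k'.1.symm, k'.2.symm⟩)
      · push Not at k
        exact ⟨x, x, hx, hx, fun z hz => Or.inl (k z hz)⟩
    rcases h.three_conn S ((mW x).1 hx).1 ((mW y).1 hy).1
      (fun p q e' k => (step p q e' k).imp_right (e q)) (u := v) .refl w with k | rfl | rfl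
    · exact hw (SD w k).1
    · exact hw (W0 _ hx)
    · exact hw (W0 _ hy)
  obtain ⟨p, q, r, hp, hq, hr, hpq, hpr, hqr⟩ := two_lt_card_iff.1 h3
  have hz : ∀ j, ![p, q, r] j ∈ W := fun j => by fin_cases j <;> assumption
  have hi : Function.Injective ![p, q, r] := by
    intro i j e
    fin_cases i <;> fin_cases j <;> simp_all
  have both : (∃ z, 0 < φ z) ∧ ∃ z, φ z < 0 := by
    by_cases k : ∃ z ∈ W, ¬ I z O
    · obtain ⟨z, k1, k2⟩ := k
      obtain ⟨u, e, k3⟩ := W1 z k1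
      obtain ⟨b, -, hb⟩ := H.up_of_ne k2 e k3
      obtain ⟨c, -, hc⟩ := H.neg.up_of_ne k2 e (neg_injective.ne k3)
      exact ⟨⟨b, W0 z k1 ▸ hb⟩, c, W0 z k1 ▸ neg_lt_neg_iff.1 hc⟩
    · push Not at k
      choose f hf using fun j => (T.mem _).1 (k _ (hz j))
      have : Function.Injective f := fun i j e => hi (by rw [hf, hf, e])
      refine absurd (H.zero h T (fun i => ?_) w) hw
      obtain ⟨j, rfl⟩ := Finite.injective_iff_surjective.1 this i
      exact hf j ▸ W0 _ (hz j)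
  have nb : ∀ ψ, Harm I O ψ → (∃ z, 0 < ψ z) → ∀ z, ψ z = 0 → (∃ u, Ed I z u ∧ ψ u ≠ ψ z) →
      ∃ u, 0 < ψ u ∧ Ed I z u := by
    intro ψ G ⟨b, hb⟩ z k ⟨u, e, k'⟩
    by_cases hz : I z O
    · exact (G.corner h T hz k hb).imp fun _ => And.symm
    · exact (G.up_of_ne hz e k').imp fun _ t => ⟨k ▸ t.2, t.1⟩
  refine h.k33 ![fun z => 0 < φ z, fun z => φ z < 0, S] _ hi ?_ ?_ ?_ ?_
  · intro i j z h1 h2
    fin_cases i <;> fin_cases j <;> simp at h1 h2 ⊢ <;>
      first | linarith | linarith [(SD z h1).1] | linarith [(SD z h2).1]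
  · intro i j
    fin_cases i
    · exact (W0 _ (hz j)).not_gt
    · exact (W0 _ (hz j)).not_lt
    · exact ((mW _).1 (hz j)).1
  · intro i b c h1 h2
    fin_cases i
    · exact H.conn_pos h T h1 h2
    · exact H.conn_neg h T h1 h2
    · have : ∀ z, S z → Conn I S v z := fun z e => by
        induction e with
        | refl => exact .refl
        | tail k1 k2 ih => exact ih.tail ⟨k2.1, k1, .tail k1 k2⟩
      exact (this b h1).symm.trans (this c h2)
  · intro i j
    fin_cases i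
    · exact nb φ H both.1 _ (W0 _ (hz j)) (W1 _ (hz j))
    · obtain ⟨u, k1, k2⟩ := nb _ H.neg (both.2.imp fun _ => neg_pos.2) _
        (neg_eq_zero.2 (W0 _ (hz j))) ((W1 _ (hz j)).imp fun _ t => ⟨t.1, neg_injective.ne t.2⟩)
      exact ⟨u, neg_pos.1 k1, k2⟩
    · exact ((mW _).1 (hz j)).2

lemma Harm.inner (h : Pol I) (T : Out I O a) (H : Harm I O φ) (hw : φ w ≠ 0) (k : φ v = 0)
    (hv : ¬ I v O) : ∃ u, Ed I v u ∧ 0 < φ u := by
  obtain ⟨u, e, k'⟩ := H.nondeg h T hw k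
  exact k ▸ H.up_of_ne hv e (k ▸ k')

lemma Harm.pos_nbr (h : Pol I) (T : Out I O a) (H : Harm I O φ) (hw : 0 < φ w) (k : φ v = 0) :
    ∃ u, Ed I v u ∧ 0 < φ u := by
  by_cases hv : I v O
  · exact H.corner h T hv k hw
  · exact H.inner h T hw.ne' k hv

lemma Harm.pos (h : Pol I) (T : Out I O a) (H : Harm I O φ) (hw : φ w ≠ 0)
    (k : ∀ i, 0 ≤ φ (a i)) (hv : ¬ I v O) : 0 < φ v := by
  have h0 := H.neg.le h T (c := 0) fun i => neg_nonpos.2 (k i)
  refine lt_of_le_of_ne (neg_nonpos.1 (h0 v)) fun e => ?_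
  obtain ⟨u, -, k'⟩ := H.neg.inner h T (neg_ne_zero.2 hw) (neg_eq_zero.2 e.symm) hv
  exact (h0 u).not_gt k'

/-- The two faces of an inner edge lie on different sides. -/
lemma Harm.opp (h : Pol I) (T : Out I O a) (H : Harm I O φ) (hw : φ w ≠ 0) (s : Sq I x y A B)
    (hn : ¬ (I x O ∧ I y O)) (hx : φ x = 0) (hy : φ y = 0) {c d : V} (hc : I c A) (hd : I d B)
    (c1 : c ≠ x) (c2 : c ≠ y) (d1 : d ≠ x) (d2 : d ≠ y) : φ c * φ d < 0 := by
  have key : ∀ φ, Harm I O φ → φ w ≠ 0 → φ x = 0 → φ y = 0 → 0 ≤ φ c → 0 ≤ φ d → False := by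
    intro φ H hw hx hy k1 k2
    obtain ⟨⟨p, hp⟩, q, hq⟩ : (∃ z, 0 < φ z) ∧ ∃ z, 0 < -φ z := by
      obtain ⟨z, k, k'⟩ : ∃ z, φ z = 0 ∧ ¬ I z O := by
        by_cases k : I x O
        · exact ⟨y, hy, fun k' => hn ⟨k, k'⟩⟩
        · exact ⟨x, hx, k⟩
      exact ⟨(H.inner h T hw k k').imp fun _ => And.right,
        (H.neg.inner h T (neg_ne_zero.2 hw) (neg_eq_zero.2 k) k').imp fun _ => And.right⟩
    obtain ⟨x', e1, h1⟩ := H.neg.pos_nbr h T hq (neg_eq_zero.2 hx)
    obtain ⟨y', e2, h2⟩ := H.neg.pos_nbr h T hq (neg_eq_zero.2 hy)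
    have l : ∀ z, z = c ∨ z = d → 0 ≤ φ z → Conn I (fun z => 0 < φ z ∨ z = c ∨ z = d) z p := by
      intro z hz k
      rcases k.eq_or_lt with k | k
      · obtain ⟨u, e, k'⟩ := H.pos_nbr h T hp k.symm
        exact .head ⟨e, Or.inr hz, Or.inl k'⟩ ((H.conn_pos h T k' hp).mono fun _ => Or.inl)
      · exact (H.conn_pos h T k hp).mono fun _ => Or.inl
    refine h.cross s (N := fun z => 0 < -φ z) (by simp [hx]) (by simp [hy]) h1 e1
      (H.neg.conn_pos h T h1 h2) e2 ?_ (Or.inr (Or.inl rfl))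
      ((l c (Or.inl rfl) k1).trans (l d (Or.inr rfl) k2).symm) hc hd
    rintro z (k | rfl | rfl) (k' | rfl | rfl) <;> first | contradiction | linarith
  by_contra hh
  rcases mul_nonneg_iff.1 (not_lt.1 hh) with k | k
  · exact key φ H hw hx hy k.1 k.2
  · exact key _ H.neg (neg_ne_zero.2 hw) (neg_eq_zero.2 hx) (neg_eq_zero.2 hy)
      (neg_nonneg.2 k.1) (neg_nonneg.2 k.2)

end Pool.Agent.P.MP_e40812_co.St
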