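import Pool.Agent.P.MP_e40812_co.StChk
import Pool.Agent.P.MP_e40812_co.XN
import Pool.Agent.Lib.PolyTime.Parse

/-!
The check runs in polynomial time, so realizable face vectors have certificates of polynomial
size in the number of faces.
-/

namespace Pool.Agent.P.MP_e40812_co.St

open Finset Pool.Agent.Lib.PolyTime N68a2faeb

section
variable {α : Type} [N487b59b3 α] {n m : α → ℕ}

theorem ptp_all (hn : PT n) (hs : Small n) {p : α → ℕ → Prop}
    (hp : PTP fun q : α × ℕ => p q.1 q.2) : PTP fun a => ∀ i, i < n a → p a i :=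
  (PTP.forall_mem (hn.range hs) hp).congr fun a => by simp

theorem ptp_ex (hn : PT n) (hs : Small n) {p : α → ℕ → Prop}
    (hp : PTP fun q : α × ℕ => p q.1 q.2) : PTP fun a => ∃ i, i < n a ∧ p a i :=
  (PTP.exists_mem (hn.range hs) hp).congr fun a => by simp

theorem ptp_chk1 (hn : PT n) (sn : Small n) (hm : PT m) (sm : Small m) {J : α → ℕ → ℕ → Bool}
    (hJ : PT fun q : α × ℕ × ℕ => J q.1 q.2.1 q.2.2) :
    PTP fun a => Chk1 fun (v : Fin (n a)) (A : Fin (m a)) => J a v A = true := by
  have e : ∀ {V F : Type} [LinearOrder V] (I : V → F → Prop), Chk1 I ↔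
      (∀ u v A B C, u ≠ v → I u A → I v A → I u B → I v B → I u C → I v C →
        A = B ∨ A = C ∨ B = C) ∧
      (∀ v A, I v A → ∃ u w B C, u ≠ w ∧ Sq I v u A B ∧ Sq I v w A C) ∧
      (∀ v A u w x B C D, Sq I v u A B → Sq I v w A C → Sq I v x A D → u = w ∨ u = x ∨ w = x) ∧
      (∀ v, ∃ A, I v A) ∧ ∀ A u v, I u A → I v A → u < v → ∃ w B, w < v ∧ Sq I v w A B :=
    fun I => ⟨fun h => ⟨h.three, h.two, h.le2, h.cover, h.mono⟩,
      fun h => ⟨⟨h.1, h.2.1, h.2.2.1, h.2.2.2.1⟩, h.2.2.2.2⟩⟩
  simp only [e, Sq, Fin.forall_iff, Fin.exists_iff, ne_eq, Fin.mk.injEq, Fin.mk_lt_mk, exists_prop]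
  refine .and ?_ (.and ?_ (.and ?_ (.and ?_ ?_)))
  all_goals
    repeat' first
      | refine ptp_all (by fun_prop) (by fun_prop) ?_
      | refine ptp_ex (by fun_prop) (by fun_prop) ?_
      | fun_prop
      | refine PTP.imp (by fun_prop) ?_

open Classical in
theorem pt_card (hn : PT n) (sn : Small n) {p : α → ℕ → Prop}
    (hp : PTP fun q : α × ℕ => p q.1 q.2) :
    PT fun a => (univ.filter fun v : Fin (n a) => p a v).card := by
  refine (PT.countP (f := fun a i => decide (p a i)) (hn.range sn) (PT.decide hp)).congr fun a => ?_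
  rw [card_filter, Fin.sum_univ_eq_sum_range (fun i => if p a i then 1 else 0)]
  induction n a with
  | zero => rfl
  | succ k ih =>
    rw [sum_range_succ, ih, List.range_succ, List.countP_append]
    simp [List.countP_cons]

theorem pt_sum (hn : PT n) (sn : Small n) {f : α → ℕ → ℕ}
    (hf : PT fun q : α × ℕ => f q.1 q.2) : PT fun a => ∑ v : Fin (n a), f a v := by
  refine (PT.sum (PT.map (hn.range sn) hf)).congr fun a => ?_
  rw [Fin.sum_univ_eq_sum_range (f a)]
  induction n a with
  | zero => rfl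
  | succ k ih => simp [sum_range_succ, ih, List.range_succ]

theorem ptp_chk (hn : PT n) (sn : Small n) (hm : PT m) (sm : Small m) {J : α → ℕ → ℕ → Bool}
    (hJ : PT fun q : α × ℕ × ℕ => J q.1 q.2.1 q.2.2) :
    PTP fun a => Chk fun (v : Fin (n a)) (A : Fin (m a)) => J a v A = true := by
  classical
  have h1 := ptp_chk1 hn sn hm sm hJ
  have h2 := ptp_chk1 hm sm hn sn (J := fun a A v => J a v A) (by fun_prop)
  have h3 : PTP fun a => ∀ u v : Fin (n a), u < v → ∃ w A B, w < v ∧
      Sq (fun (v : Fin (n a)) (A : Fin (m a)) => J a v A = true) v w A B := by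
    simp only [Sq, Fin.forall_iff, Fin.exists_iff, ne_eq, Fin.mk.injEq, Fin.mk_lt_mk, exists_prop]
    repeat' first
      | refine ptp_all (by fun_prop) (by fun_prop) ?_
      | refine ptp_ex (by fun_prop) (by fun_prop) ?_
      | fun_prop
      | refine PTP.imp (by fun_prop) ?_
  have h4 : PT fun a => fl fun (v : Fin (n a)) (A : Fin (m a)) => J a v A = true := by
    refine (pt_sum hn sn (f := fun a v => ∑ A : Fin (m a), if J a v A = true then 1 else 0)
      (pt_sum (f := fun (q : α × ℕ) A => if J q.1 q.2 A = true then 1 else 0)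
        (by fun_prop) (by fun_prop) (by fun_prop))).congr fun a => ?_
    unfold fl
    congr!
  have h5 : PTP fun a => 0 < n a ∧ (fl fun (v : Fin (n a)) (A : Fin (m a)) => J a v A = true) + 4
      ≤ 2 * (n a + m a) := by fun_prop
  exact (h1.and (h2.and (h3.and h5))).congr fun a =>
    ⟨fun h => ⟨h.p, h.d, h.glob, Fin.pos_iff_nonempty.2 h.ne, by simpa using h.euler⟩,
      fun h => ⟨h.1, h.2.1, h.2.2.1, Fin.pos_iff_nonempty.1 h.2.2.2.1, by simpa using h.2.2.2.2⟩⟩

end

open Classical in
/-- The number of vertices of the face `A` in the incidence matrix `w`. -/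
noncomputable def fsz (n m : ℕ) (w : List Bool) (A : ℕ) : ℕ :=
  (univ.filter fun v : Fin n => w.getD (v * m + A) false = true).card

open Classical in
/-- The string `w` is the incidence matrix of a polyhedral map with face vector `p`. -/
def Ver (p : List ℕ) (n m : ℕ) (w : List Bool) : Prop :=
  (Chk fun (v : Fin n) (A : Fin m) => w.getD (v * m + A) false = true) ∧
  (∀ i, i < p.length → (univ.filter fun A : Fin m => fsz n m w A = i + 3).card = p.getD i 0) ∧
  ∀ A, A < m → fsz n m w A < p.length + 3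

theorem ptp_ver {α : Type} [N487b59b3 α] {p : α → List ℕ} {n m : α → ℕ} {w : α → List Bool}
    (hp : PT p) (hn : PT n) (sn : Small n) (hm : PT m) (sm : Small m) (hw : PT w) :
    PTP fun a => Ver (p a) (n a) (m a) (w a) := by
  have h1 : PT fun q : α × ℕ => fsz (n q.1) (m q.1) (w q.1) q.2 :=
    (pt_card (n := fun q : α × ℕ => n q.1)
      (p := fun (q : α × ℕ) v => (w q.1).getD (v * m q.1 + q.2) false = true)
      (by fun_prop) (by fun_prop) (by fun_prop)).congr fun a => by
        unfold fsz
        congr!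
  refine .and (ptp_chk hn sn hm sm (J := fun a v A => (w a).getD (v * m a + A) false)
    (by fun_prop)) (.and (ptp_all (by fun_prop) (by fun_prop) (PTP.eq ?_ (by fun_prop)))
      (ptp_all hm sm (PTP.lt h1 (by fun_prop))))
  refine (pt_card (n := fun q : α × ℕ => m q.1)
    (p := fun (q : α × ℕ) A => fsz (n q.1) (m q.1) (w q.1) A = q.2 + 3) (by fun_prop) (by fun_prop)
    (PTP.eq (h1.comp (g := fun r : (α × ℕ) × ℕ => (r.1.1, r.2)) (by fun_prop))
      (by fun_prop))).congr fun a => ?_
  congr!

theorem Ver.sound {p : List ℕ} {n m : ℕ} {w : List Bool} (h : Ver p n m w) :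
    ∃ P, IsPolyhedron P ∧ ∀ i, faceCount P (i + 3) = p.getD i 0 := by
  obtain ⟨P, hP, k⟩ := h.1.pol.poly
  refine ⟨P, hP, fun i => ?_⟩
  rw [k]
  by_cases hi : i < p.length
  · rw [← h.2.1 i hi]
    unfold fsz
    congr!
  · rw [List.getD_eq_default _ _ (not_lt.1 hi), card_eq_zero, filter_eq_empty_iff]
    intro A _ e
    have h1 := h.2.2 A A.2
    have h2 : fsz n m w A = i + 3 := by
      unfold fsz
      convert e
    omega

theorem ver_complete {p : List ℕ}
    (h : ∃ P, IsPolyhedron P ∧ ∀ i, faceCount P (i + 3) = p.getD i 0) :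
    ∃ n m, n ≤ 2 * m ∧ m ≤ ∑ i ∈ range p.length, p.getD i 0 ∧
      ∀ L, n * m ≤ L → ∃ w : List Bool, w.length = L ∧ Ver p n m w := by
  classical
  obtain ⟨P, hP, hp⟩ := h
  obtain ⟨n, m, I, hI, k⟩ := chk_of_poly hP
  simp only [k] at hp
  have three : ∀ {V F : Type} [Fintype V] {I : V → F → Prop}, Loc I → ∀ v A, I v A →
      3 ≤ (univ.filter fun v => I v A).card := by
    intro V F _ I h v A hv
    obtain ⟨p, q, B, C, hpq, sp, sq⟩ := h.two v A hv
    exact two_lt_card_iff.2 ⟨v, p, q, by simpa using hv, by simpa using sp.vA,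
      by simpa using sq.vA, sp.1, sq.1, hpq⟩
  have lo : ∀ A, 3 ≤ (univ.filter fun v => I v A).card := fun A =>
    (hI.d.cover A).elim fun v hv => by convert three hI.p.toLoc v A hv
  have hi : ∀ A, (univ.filter fun v => I v A).card < p.length + 3 := fun A => by
    by_contra hn
    have := hp ((univ.filter fun v => I v A).card - 3)
    rw [List.getD_eq_default _ _ (by omega), card_eq_zero, filter_eq_empty_iff] at this
    refine this (mem_univ A) ?_
    have := lo A
    convert (Nat.sub_add_cancel this).symm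
  refine ⟨n, m, ?_, ?_, fun L hL => ?_⟩
  · have h1 : n * 3 ≤ fl I := by
      unfold fl
      have := card_nsmul_le_sum (univ : Finset (Fin n))
        (fun v => ∑ A, if I v A then 1 else 0) 3 fun v _ => by
          rw [← card_filter]
          exact (hI.p.cover v).elim fun A hA => three hI.d.toLoc A v hA
      rw [card_univ, Fintype.card_fin, smul_eq_mul] at this
      convert this
    have := hI.euler
    simp only [Fintype.card_fin] at this
    omega
  · simp only [← hp]
    refine le_trans ?_ card_biUnion_le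
    conv_lhs => rw [← Fintype.card_fin m, ← card_univ]
    refine card_le_card fun A _ => mem_biUnion.2 ⟨(univ.filter fun v => I v A).card - 3,
      mem_range.2 (by have := hi A; have := lo A; omega), mem_filter.2 ⟨mem_univ _, ?_⟩⟩
    convert (Nat.sub_add_cancel (lo A)).symm
  · obtain ⟨w, hw⟩ : ∃ w, w = (List.range L).map fun k =>
      decide (∃ (v : Fin n) (A : Fin m), k = v * m + A ∧ I v A) := ⟨_, rfl⟩
    have e : (fun (v : Fin n) (A : Fin m) => w.getD (v * m + A) false = true) = I := by
      funext v A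
      have hlt : v * m + A < L := by
        have := Nat.mul_le_mul_right m (Nat.succ_le_of_lt v.2)
        have := A.2
        rw [Nat.succ_mul] at *
        omega
      rw [hw, List.getD_eq_getElem _ _ (by simpa using hlt)]
      simp only [List.getElem_map, List.getElem_range, decide_eq_true_eq, eq_iff_iff]
      refine ⟨fun ⟨u, B, e, k⟩ => ?_, fun k => ⟨v, A, rfl, k⟩⟩
      have h1 := congrArg (· % m) e
      simp only [Nat.mul_add_mod_self_right, Nat.mod_eq_of_lt A.2, Nat.mod_eq_of_lt B.2] at h1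
      obtain rfl : A = B := Fin.ext h1
      obtain rfl : v = u := Fin.ext (Nat.eq_of_mul_eq_mul_right A.pos (by omega))
      exact k
    have e' : ∀ A : Fin m, fsz n m w A = (univ.filter fun v => I v A).card := fun A => by
      unfold fsz
      congr! 3 with v
      exact (congrFun (congrFun e v) A).to_iff
    refine ⟨w, by simp [hw], e ▸ hI, fun i _ => ?_, fun A hA => ?_⟩
    · simp only [e', ← hp]
    · exact (e' ⟨A, hA⟩).trans_lt (hi _)

/-- The realizable sequences in a polynomial-time set form a language in `NEXP`. -/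
theorem mem_nexp {S : List ℕ → Bool} (hS : PT S) : ∃ L ∈ NEXP, ∀ x, L x = true ↔
    ∃ p : List ℕ, x = N487b59b3.bitEncode p ∧ S p = true ∧
      ∃ P, IsPolyhedron P ∧ ∀ i, faceCount P (i + 3) = p.getD i 0 := by
  classical
  obtain ⟨R, hR, h⟩ : PTP fun q : List Bool × List Bool =>
      N487b59b3.bitEncode ((blocks q.1).map ofBits) = q.1 ∧ S ((blocks q.1).map ofBits) = true ∧
      ∃ n, n < q.2.length + 1 ∧ ∃ m, m < q.2.length + 1 ∧
        Ver ((blocks q.1).map ofBits) (min n q.2.length) (min m q.2.length) q.2 :=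
    .and (by fun_prop) (.and (by fun_prop) (ptp_ex (by fun_prop) (by fun_prop)
      (ptp_ex (by fun_prop) (by fun_prop) (ptp_ver (by fun_prop) (by fun_prop) (by fun_prop)
        (by fun_prop) (by fun_prop) (by fun_prop)))))
  refine ⟨fun x => decide _, ⟨Polynomial.C 4 * Polynomial.X + 1, R, hR.isPolyTime, fun x => ?_⟩,
    fun x => decide_eq_true_iff⟩
  simp only [decide_eq_true_eq, h]
  refine ⟨?_, fun ⟨w, _, k1, k2, n, _, m, _, k⟩ => ⟨_, k1.symm, k2, k.sound⟩⟩
  rintro ⟨p, rfl, k1, k2⟩
  have e : (blocks (N487b59b3.bitEncode p)).map ofBits = p := by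
    rw [blocks_enc, List.map_map]
    conv_rhs => rw [← List.map_id p]
    exact List.map_congr_left fun n _ => by simp [enc_nat, ofBits_bits]
  obtain ⟨n, m, h1, h2, h3⟩ := ver_complete k2
  have h4 : m ≤ 2 ^ sz p * 2 ^ sz p := by
    refine h2.trans ((sum_le_card_nsmul _ _ (2 ^ sz p) fun i hi => ?_).trans ?_)
    · rw [List.getD_eq_getElem _ _ (mem_range.1 hi)]
      exact (sz_le_iff.1 (sz_le_of_mem (List.getElem_mem _))).le
    · rw [card_range, smul_eq_mul]
      exact Nat.mul_le_mul_right _ ((length_le_sz p).trans Nat.lt_two_pow_self.le)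
  have h5 : 2 ^ (Polynomial.C 4 * Polynomial.X + 1 : Polynomial ℕ).eval
      (N487b59b3.bitEncode p).length = 2 * (2 ^ sz p * 2 ^ sz p) * (2 ^ sz p * 2 ^ sz p) := by
    simp only [Polynomial.eval_add, Polynomial.eval_mul, Polynomial.eval_C, Polynomial.eval_X,
      Polynomial.eval_one, sz]
    ring
  rw [h5, e]
  have h6 : 1 ≤ 2 ^ sz p * 2 ^ sz p := Nat.one_le_iff_ne_zero.2 (by positivity)
  generalize 2 ^ sz p * 2 ^ sz p = N at h4 h6
  obtain ⟨w, hw, k⟩ := h3 (2 * N * N) (Nat.mul_le_mul (by omega) h4)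
  have h7 : 2 * N ≤ w.length := by rw [hw]; nlinarith
  refine ⟨w, hw, rfl, k1, n, by omega, m, by omega, ?_⟩
  rwa [min_eq_left (by omega), min_eq_left (by omega)]

end Pool.Agent.P.MP_e40812_co.St
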