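import Pool.Agent.P.MP_e40812_co.Tri

/-!
Subdividing a triangle by a new vertex of degree three, and the inverse operation.
-/

namespace Pool.Agent.P.MP_e40812_co

open Finset

variable {ι : Type*} [DecidableEq ι]

/-- The triangle `a b c` is replaced by the three triangles joining its sides to `y`. -/
def stk (F : Finset (Finset ι)) (y a b c : ι) : Finset (Finset ι) :=
  insert {y, a, b} (insert {y, b, c} (insert {y, c, a} (F.erase {a, b, c})))

variable {V : Finset ι} {F : Finset (Finset ι)} {a b c y p q r : ι}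

lemma mem_stk {s : Finset ι} : s ∈ stk F y a b c ↔
    s = {y, a, b} ∨ s = {y, b, c} ∨ s = {y, c, a} ∨ (s ≠ {a, b, c} ∧ s ∈ F) := by
  simp only [stk, mem_insert, mem_erase]

lemma tri_inj {d : ι} (h : ({p, q, r} : Finset ι) = {p, q, d}) (h1 : p ≠ r) (h2 : q ≠ r) :
    r = d := by
  have : r ∈ ({p, q, d} : Finset ι) := h ▸ (by simp)
  simpa [h1.symm, h2.symm] using this

lemma fresh (hy : ∀ s ∈ F, y ∉ s) (t : T F p q r) : y ≠ p ∧ y ≠ q ∧ y ≠ r := by
  simpa [not_or] using hy _ t.2.2.2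

lemma stk1 (t : T F a b c) (hy : ∀ s ∈ F, y ∉ s) : T (stk F y a b c) y a b :=
  ⟨(fresh hy t).1, (fresh hy t).2.1, t.1, mem_stk.2 (Or.inl rfl)⟩

lemma stk2 (t : T F a b c) (hy : ∀ s ∈ F, y ∉ s) : T (stk F y a b c) y b c :=
  ⟨(fresh hy t).2.1, (fresh hy t).2.2, t.2.2.1, mem_stk.2 (Or.inr (Or.inl rfl))⟩

lemma stk3 (t : T F a b c) (hy : ∀ s ∈ F, y ∉ s) : T (stk F y a b c) y c a :=
  ⟨(fresh hy t).2.2, (fresh hy t).1, t.2.1.symm, mem_stk.2 (Or.inr (Or.inr (Or.inl rfl)))⟩

lemma stk_edge (t : T F a b c) (hy : ∀ s ∈ F, y ∉ s) (hp : p ∈ ({a, b, c} : Finset ι))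
    (hq : q ∈ ({a, b, c} : Finset ι)) (hpq : p ≠ q) : T (stk F y a b c) p q y := by
  simp only [mem_insert, mem_singleton] at hp hq
  rcases hp with rfl | rfl | rfl <;> rcases hq with rfl | rfl | rfl
  all_goals first
    | exact absurd rfl hpq
    | exact (stk1 t hy).rot
    | exact (stk1 t hy).s13
    | exact (stk2 t hy).rot
    | exact (stk2 t hy).s13
    | exact (stk3 t hy).rot
    | exact (stk3 t hy).s13

lemma stk_up (k : T F p q r) (hne : ({p, q, r} : Finset ι) ≠ {a, b, c}) :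
    T (stk F y a b c) p q r :=
  ⟨k.1, k.2.1, k.2.2.1, mem_stk.2 (Or.inr (Or.inr (Or.inr ⟨hne, k.2.2.2⟩)))⟩

lemma stk_down (k : T (stk F y a b c) p q r) (hp : p ≠ y) (hq : q ≠ y) (hr : r ≠ y) :
    T F p q r := by
  have hn : y ∉ ({p, q, r} : Finset ι) := by simp [hp.symm, hq.symm, hr.symm]
  rcases mem_stk.1 k.2.2.2 with e | e | e | e
  · exact absurd (e ▸ by simp) hn
  · exact absurd (e ▸ by simp) hn
  · exact absurd (e ▸ by simp) hn
  · exact ⟨k.1, k.2.1, k.2.2.1, e.2⟩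

lemma stk_y (hy : ∀ s ∈ F, y ∉ s) (k : T (stk F y a b c) p q y) :
    p ∈ ({a, b, c} : Finset ι) ∧ q ∈ ({a, b, c} : Finset ι) := by
  have h1 : p ∈ ({p, q, y} : Finset ι) := by simp
  have h2 : q ∈ ({p, q, y} : Finset ι) := by simp
  have h3 := k.2.1
  have h4 := k.2.2.1
  rcases mem_stk.1 k.2.2.2 with e | e | e | e
  · rw [e] at h1 h2
    simp only [mem_insert, mem_singleton] at *
    tauto
  · rw [e] at h1 h2
    simp only [mem_insert, mem_singleton] at *
    tauto
  · rw [e] at h1 h2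
    simp only [mem_insert, mem_singleton] at *
    tauto
  · exact absurd (by simp) (hy _ e.2)

lemma third_of_mem (t : T F a b c) (hp : p ∈ ({a, b, c} : Finset ι))
    (hq : q ∈ ({a, b, c} : Finset ι)) (hpq : p ≠ q) :
    ∃ r, T F p q r ∧ ({p, q, r} : Finset ι) = {a, b, c} := by
  obtain ⟨r, h1, h2, h3⟩ := three_of_mem t.card hp hq hpq
  exact ⟨r, ⟨hpq, h1, h2, h3 ▸ t.2.2.2⟩, h3.symm⟩

lemma stk_down_y (t : T F a b c) (hy : ∀ s ∈ F, y ∉ s) (k : T (stk F y a b c) p q y) :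
    ∃ r, T F p q r ∧ ({p, q, r} : Finset ι) = {a, b, c} :=
  third_of_mem t (stk_y hy k).1 (stk_y hy k).2 k.1

lemma stk_lift (t : T F a b c) (hy : ∀ s ∈ F, y ∉ s) (k : T F p q r) :
    T (stk F y a b c) p q r ∨ (T (stk F y a b c) p q y ∧ ({p, q, r} : Finset ι) = {a, b, c}) := by
  by_cases e : ({p, q, r} : Finset ι) = {a, b, c}
  · exact Or.inr ⟨stk_edge t hy (e ▸ by simp) (e ▸ by simp) k.1, e⟩
  · exact Or.inl (stk_up k e)

lemma stk_nb (t : T F a b c) (hy : ∀ s ∈ F, y ∉ s) (hp : p ≠ y) (hq : q ≠ y)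
    (k : Nb (stk F y a b c) p q) : Nb F p q := by
  obtain ⟨r, k⟩ := k
  by_cases e : r = y
  · subst e
    obtain ⟨r', k', -⟩ := stk_down_y t hy k
    exact k'.nb
  · exact (stk_down k hp hq e).nb

lemma sum_stk (t : T F a b c) (hy : ∀ s ∈ F, y ∉ s) (f : Finset ι → ℕ) :
    ∑ s ∈ stk F y a b c, f s + f {a, b, c} =
      ∑ s ∈ F, f s + f {y, a, b} + f {y, b, c} + f {y, c, a} := by
  obtain ⟨h1, h2, h3⟩ := fresh hy t
  have n0 : ∀ u w : ι, ({y, u, w} : Finset ι) ∉ F.erase {a, b, c} := fun u w h =>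
    hy _ (mem_of_mem_erase h) (by simp)
  have n1 : ({y, b, c} : Finset ι) ≠ {y, c, a} := fun e => by
    have : b ∈ ({y, c, a} : Finset ι) := e ▸ (by simp)
    simp [h2.symm, t.2.2.1, t.1.symm] at this
  have n2 : ({y, a, b} : Finset ι) ≠ {y, c, a} := fun e => by
    have : b ∈ ({y, c, a} : Finset ι) := e ▸ (by simp)
    simp [h2.symm, t.2.2.1, t.1.symm] at this
  have n3 : ({y, a, b} : Finset ι) ≠ {y, b, c} := fun e => by
    have : a ∈ ({y, b, c} : Finset ι) := e ▸ (by simp)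
    simp [h1.symm, t.2.1, t.1] at this
  rw [stk, sum_insert (by simp only [mem_insert, not_or]; exact ⟨n3, n2, n0 _ _⟩),
    sum_insert (by simp only [mem_insert, not_or]; exact ⟨n1, n0 _ _⟩), sum_insert (n0 _ _),
    ← add_sum_erase F f t.2.2.2]
  ring

lemma card_stk (t : T F a b c) (hy : ∀ s ∈ F, y ∉ s) : (stk F y a b c).card = F.card + 2 := by
  have := sum_stk t hy fun _ => 1
  simp only [sum_const, smul_eq_mul, mul_one] at this
  omega

lemma deg_stk_self (t : T F a b c) (hy : ∀ s ∈ F, y ∉ s) : deg (stk F y a b c) y = 3 := by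
  have := sum_stk t hy fun s => if y ∈ s then 1 else 0
  rw [sum_congr rfl fun s hs => if_neg (hy s hs), if_neg (hy _ t.2.2.2)] at this
  simp only [mem_insert, true_or, if_true, sum_const_zero] at this
  rw [deg, card_filter]
  omega

lemma deg_stk (t : T F a b c) (hy : ∀ s ∈ F, y ∉ s) {v : ι} (hv : v ≠ y) :
    deg (stk F y a b c) v = deg F v + if v ∈ ({a, b, c} : Finset ι) then 1 else 0 := by
  have := sum_stk t hy fun s => if v ∈ s then 1 else 0
  simp only [deg, card_filter]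
  have h1 := t.1
  have h2 := t.2.1
  have h3 := t.2.2.1
  simp only [mem_insert, mem_singleton, hv, false_or] at this ⊢
  by_cases ha : v = a
  · subst ha
    simp only [h1, h2, or_true, or_false, if_true, if_false] at this ⊢
    omega
  by_cases hb : v = b
  · subst hb
    simp only [ha, h3, or_true, or_false, if_true, if_false] at this ⊢
    omega
  by_cases hc : v = c
  · subst hc
    simp only [ha, hb, or_true, or_false, if_true, if_false] at this ⊢
    omega
  simp only [ha, hb, hc, or_false, if_false] at this ⊢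
  omega

lemma Pre.stk (h : Pre V F) (t : T F a b c) (hV : y ∉ V) : Pre (insert y V) (stk F y a b c) := by
  have hy : ∀ s ∈ F, y ∉ s := fun s hs hy => hV (h.sub s hs hy)
  have ha := h.mem t
  have hb := h.mem t.rot
  have hc := h.mem t.rot'
  have key : ∀ {q r}, T (Pool.Agent.P.MP_e40812_co.stk F y a b c) y q r →
      ∃ d, d ≠ r ∧ T (Pool.Agent.P.MP_e40812_co.stk F y a b c) y q d := by
    intro q r k
    obtain ⟨d, k1, e⟩ := stk_down_y t hy k.rot
    exact ⟨d, k1.2.2.1.symm, (stk_edge t hy (e ▸ by simp) (e ▸ by simp) k1.2.1).rot'⟩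
  refine ⟨fun s hs => ?_, fun s hs => ?_, fun v hv => ?_, fun {p q r} k => ?_, ?_⟩
  · rcases mem_stk.1 hs with rfl | rfl | rfl | e
    · exact (stk1 t hy).card
    · exact (stk2 t hy).card
    · exact (stk3 t hy).card
    · exact h.three s e.2
  · rcases mem_stk.1 hs with rfl | rfl | rfl | e
    · simp [insert_subset_iff, ha, hb]
    · simp [insert_subset_iff, hb, hc]
    · simp [insert_subset_iff, ha, hc]
    · exact (h.sub s e.2).trans (subset_insert _ _)
  · rcases mem_insert.1 hv with rfl | hv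
    · exact ⟨_, (stk1 t hy).2.2.2, by simp⟩
    · obtain ⟨p, q, k⟩ := h.exists_TV hv
      rcases stk_lift t hy k with k | k
      · exact ⟨_, k.2.2.2, by simp⟩
      · exact ⟨_, k.1.2.2.2, by simp⟩
  · by_cases hp : p = y
    · subst hp
      exact key k
    by_cases hq : q = y
    · subst hq
      obtain ⟨d, h1, h2⟩ := key k.s12
      exact ⟨d, h1, h2.s12⟩
    by_cases hr : r = y
    · subst hr
      obtain ⟨r', k1, e⟩ := stk_down_y t hy k
      obtain ⟨d, h1, h2⟩ := h.next k1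
      exact ⟨d, (fresh hy h2).2.2.symm, stk_up h2 fun e' =>
        h1 (tri_inj (e'.trans e.symm) h2.2.1 h2.2.2.1)⟩
    · obtain ⟨d, h1, h2⟩ := h.next (stk_down k hp hq hr)
      rcases stk_lift t hy h2 with k' | k'
      · exact ⟨d, h1, k'⟩
      · exact ⟨y, Ne.symm hr, k'.1⟩
  · rw [card_stk t hy, card_insert_of_notMem hV]
    have := h.card
    omega

lemma Tri.unstack (h : Tri V F) (h5 : 5 ≤ V.card) (hd : deg F y = 3) :
    ∃ a b c G, T G a b c ∧ (∀ s ∈ G, y ∉ s) ∧ F = stk G y a b c ∧ Tri (V.erase y) G := by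
  obtain ⟨s₀, hs₀⟩ := card_pos.1 (show 0 < (F.filter fun t => y ∈ t).card from by
    unfold deg at hd
    omega)
  obtain ⟨a, b, t1, -⟩ := h.exists_T (mem_filter.1 hs₀).1 (mem_filter.1 hs₀).2
  obtain ⟨c, t2, t3, hn⟩ := h.link3 hd t1
  have hno : ({a, b, c} : Finset ι) ∉ F := fun hh =>
    h.not_tet h5 t1 t2 t3 ⟨t1.2.2.1, t3.2.2.1.symm, t2.2.2.1, hh⟩
  obtain ⟨G, hG⟩ : ∃ G, G = insert {a, b, c} (F.filter fun s => y ∉ s) := ⟨_, rfl⟩
  have mG : ∀ s, s ∈ G ↔ s = {a, b, c} ∨ (s ∈ F ∧ y ∉ s) := by simp [hG]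
  have t : T G a b c := ⟨t1.2.2.1, t3.2.2.1.symm, t2.2.2.1, (mG _).2 (Or.inl rfl)⟩
  have hy : ∀ s ∈ G, y ∉ s := by
    intro s hs
    rcases (mG s).1 hs with rfl | e
    · simp [t1.1, t1.2.1, t2.2.1]
    · exact e.2
  have hF : F = stk G y a b c := by
    ext s
    rw [mem_stk, mG]
    constructor
    · intro hs
      by_cases hys : y ∈ s
      · obtain ⟨p, q, k, rfl⟩ := h.exists_T hs hys
        have k1 := k.2.2.1
        rcases hn p k.nb with rfl | rfl | rfl <;> rcases hn q k.nb' with rfl | rfl | rfl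
        all_goals first
          | exact absurd rfl k1
          | exact Or.inl rfl
          | exact Or.inl (tri23 _ _ _)
          | exact Or.inr (Or.inl rfl)
          | exact Or.inr (Or.inl (tri23 _ _ _))
          | exact Or.inr (Or.inr (Or.inl rfl))
          | exact Or.inr (Or.inr (Or.inl (tri23 _ _ _)))
      · exact Or.inr (Or.inr (Or.inr ⟨fun e => hno (e ▸ hs), Or.inr ⟨hs, hys⟩⟩))
    · rintro (rfl | rfl | rfl | ⟨h1, h2 | h2⟩)
      · exact t1.2.2.2
      · exact t2.2.2.2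
      · exact t3.2.2.2
      · exact absurd h2 h1
      · exact h2.1
  have hyV := h.mem t1
  refine ⟨a, b, c, G, t, hy, hF, ?_⟩
  subst hF
  refine ⟨⟨fun s hs => ?_, fun s hs v hv => ?_, fun v hv => ?_, fun {p q r} k => ?_, ?_⟩,
    fun {p q r d e} k1 k2 k3 => ?_, fun S hS hc s hs => ?_⟩
  · rcases (mG s).1 hs with rfl | e
    · exact t.card
    · exact h.three s e.1
  · refine mem_erase.2 ⟨fun e => hy s hs (e ▸ hv), ?_⟩
    rcases (mG s).1 hs with rfl | e
    · simp only [mem_insert, mem_singleton] at hv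
      rcases hv with rfl | rfl | rfl
      · exact h.mem t1.s12
      · exact h.mem t2.s12
      · exact h.mem t3.s12
    · exact h.sub s e.1 hv
  · obtain ⟨hvy, hv⟩ := mem_erase.1 hv
    obtain ⟨p, q, k⟩ := h.exists_TV hv
    by_cases hp : p = y
    · subst hp
      obtain ⟨r, k'⟩ := stk_nb t hy hvy k.2.2.1.symm k.nb'
      exact ⟨_, k'.2.2.2, by simp⟩
    · obtain ⟨r, k'⟩ := stk_nb t hy hvy hp k.nb
      exact ⟨_, k'.2.2.2, by simp⟩
  · obtain ⟨f1, f2, f3⟩ := fresh hy k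
    rcases stk_lift t hy k with k' | ⟨k', e⟩
    · obtain ⟨d, h1, h2⟩ := h.next k'
      by_cases hd : d = y
      · subst hd
        obtain ⟨r', h3, e⟩ := stk_down_y t hy h2
        refine ⟨r', ?_, h3⟩
        rintro rfl
        exact hno (e ▸ k'.2.2.2)
      · exact ⟨d, h1, stk_down h2 f1.symm f2.symm hd⟩
    · obtain ⟨d, h1, h2⟩ := h.next k'
      refine ⟨d, ?_, stk_down h2 f1.symm f2.symm h1⟩
      rintro rfl
      exact hno (e ▸ h2.2.2.2)
  · have h1 := card_stk t hy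
    have h2 := h.card
    rw [card_erase_of_mem hyV]
    omega
  · have f1 := (fresh hy k1).2.2
    have f2 := (fresh hy k2).2.2
    have f3 := (fresh hy k3).2.2
    rcases stk_lift t hy k1 with l1 | ⟨l1, e1⟩ <;> rcases stk_lift t hy k2 with l2 | ⟨l2, e2⟩ <;>
      rcases stk_lift t hy k3 with l3 | ⟨l3, e3⟩
    · exact h.uniq l1 l2 l3
    · have := h.uniq l1 l2 l3
      tauto
    · have := h.uniq l1 l2 l3
      tauto
    · exact Or.inr (Or.inr (tri_inj (e2.trans e3.symm) k2.2.1 k2.2.2.1))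
    · have := h.uniq l1 l2 l3
      tauto
    · exact Or.inr (Or.inl (tri_inj (e1.trans e3.symm) k1.2.1 k1.2.2.1))
    · exact Or.inl (tri_inj (e1.trans e2.symm) k1.2.1 k1.2.2.1)
    · exact Or.inl (tri_inj (e1.trans e2.symm) k1.2.1 k1.2.2.1)
  · have := h.conn (fun s => (y ∈ s → S {a, b, c}) ∧ (y ∉ s → S s)) (by
      obtain ⟨s, hs, hs'⟩ := hS
      rcases (mG s).1 hs with rfl | e
      · exact ⟨_, t1.2.2.2, fun _ => hs', fun hh => absurd (by simp) hh⟩
      · exact ⟨s, e.1, fun hh => absurd hh e.2, fun _ => hs'⟩) (by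
      intro p q r d k1 k2 hS
      by_cases hp : p = y
      · exact ⟨fun _ => hS.1 (by simp [hp]), fun hh => absurd (by simp [hp]) hh⟩
      by_cases hq : q = y
      · exact ⟨fun _ => hS.1 (by simp [hq]), fun hh => absurd (by simp [hq]) hh⟩
      obtain ⟨r', k3, h3⟩ : ∃ r', T G p q r' ∧ S {p, q, r'} := by
        by_cases hr : r = y
        · subst hr
          obtain ⟨r', h1, e⟩ := stk_down_y t hy k1
          exact ⟨r', h1, e ▸ hS.1 (by simp)⟩
        · exact ⟨r, stk_down k1 hp hq hr, hS.2 (by simp [Ne.symm hp, Ne.symm hq, Ne.symm hr])⟩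
      by_cases hd : d = y
      · subst hd
        obtain ⟨d', h1, e⟩ := stk_down_y t hy k2
        exact ⟨fun _ => e ▸ hc p q r' d' k3 h1 h3, fun hh => absurd (by simp) hh⟩
      · exact ⟨fun hh => absurd hh (by simp [Ne.symm hp, Ne.symm hq, Ne.symm hd]),
          fun _ => hc p q r' d k3 (stk_down k2 hp hq hd) h3⟩)
    rcases (mG s).1 hs with rfl | e
    · exact (this _ t1.2.2.2).1 (by simp)
    · exact (this s e.1).2 e.2

end Pool.Agent.P.MP_e40812_co
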