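import Mathlib

/-!
Abstract triangulated spheres, given by their vertex sets and triangles.
-/

namespace Pool.Agent.P.MP_e40812_co

open Finset

variable {ι : Type*} [DecidableEq ι]

/-- The three points are distinct and form a triangle of `F`. -/
def T (F : Finset (Finset ι)) (a b c : ι) : Prop :=
  a ≠ b ∧ a ≠ c ∧ b ≠ c ∧ ({a, b, c} : Finset ι) ∈ F

/-- Neighbouring vertices. -/
def Nb (F : Finset (Finset ι)) (a b : ι) : Prop := ∃ c, T F a b c

/-- The number of triangles at `v`. -/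
def deg (F : Finset (Finset ι)) (v : ι) : ℕ := (F.filter fun t => v ∈ t).card

/-- Triangle systems without boundary with the face count of a sphere. -/
structure Pre (V : Finset ι) (F : Finset (Finset ι)) : Prop where
  three : ∀ t ∈ F, t.card = 3
  sub : ∀ t ∈ F, t ⊆ V
  cover : ∀ v ∈ V, ∃ t ∈ F, v ∈ t
  next : ∀ {a b c}, T F a b c → ∃ d, d ≠ c ∧ T F a b d
  card : F.card + 4 = 2 * V.card

/-- Strongly connected pseudomanifolds with the face count of a sphere. -/
structure Tri (V : Finset ι) (F : Finset (Finset ι)) : Prop extends Pre V F where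
  uniq : ∀ {a b c d e}, T F a b c → T F a b d → T F a b e → c = d ∨ c = e ∨ d = e
  conn : ∀ S : Finset ι → Prop, (∃ t ∈ F, S t) →
    (∀ a b c d, T F a b c → T F a b d → S {a, b, c} → S {a, b, d}) → ∀ t ∈ F, S t

variable {V : Finset ι} {F : Finset (Finset ι)} {a b c d v y : ι}

lemma tri12 (a b c : ι) : ({a, b, c} : Finset ι) = {b, a, c} := insert_comm _ _ _

lemma tri23 (a b c : ι) : ({a, b, c} : Finset ι) = {a, c, b} := by rw [pair_comm b c]

lemma T.s12 (h : T F a b c) : T F b a c :=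
  ⟨h.1.symm, h.2.2.1, h.2.1, tri12 a b c ▸ h.2.2.2⟩

lemma T.s23 (h : T F a b c) : T F a c b :=
  ⟨h.2.1, h.1, h.2.2.1.symm, tri23 a b c ▸ h.2.2.2⟩

lemma T.rot (h : T F a b c) : T F b c a := h.s12.s23

lemma T.rot' (h : T F a b c) : T F c a b := h.s23.s12

lemma T.s13 (h : T F a b c) : T F c b a := h.rot.s12

lemma T.nb (h : T F a b c) : Nb F a b := ⟨c, h⟩

lemma T.nb' (h : T F a b c) : Nb F a c := ⟨b, h.s23⟩

lemma Nb.symm (h : Nb F a b) : Nb F b a := h.imp fun _ h => h.s12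

lemma Nb.ne (h : Nb F a b) : a ≠ b := h.elim fun _ h => h.1

lemma T.card (h : T F a b c) : ({a, b, c} : Finset ι).card = 3 :=
  card_eq_three.2 ⟨a, b, c, h.1, h.2.1, h.2.2.1, rfl⟩

lemma Pre.mem (h : Pre V F) (t : T F a b c) : a ∈ V := h.sub _ t.2.2.2 (by simp)

lemma Pre.nb_mem (h : Pre V F) (t : Nb F a b) : a ∈ V := t.elim fun _ t => h.mem t

lemma three_of_mem {t : Finset ι} (h : t.card = 3) (hu : a ∈ t) (hv : b ∈ t) (huv : a ≠ b) :
    ∃ c, a ≠ c ∧ b ≠ c ∧ t = {a, b, c} := by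
  have h1 : ((t.erase a).erase b).card = 1 := by
    rw [card_erase_of_mem (mem_erase.2 ⟨huv.symm, hv⟩), card_erase_of_mem hu, h]
  obtain ⟨c, hc⟩ := card_eq_one.1 h1
  have h2 : c ∈ (t.erase a).erase b := by simp [hc]
  simp only [mem_erase] at h2
  refine ⟨c, h2.2.1.symm, h2.1.symm, ?_⟩
  rw [← hc, insert_erase (mem_erase.2 ⟨huv.symm, hv⟩), insert_erase hu]

lemma Pre.exists_T2 (h : Pre V F) {t : Finset ι} (ht : t ∈ F) (hu : a ∈ t) (hv : b ∈ t)
    (huv : a ≠ b) : ∃ c, T F a b c ∧ t = {a, b, c} := by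
  obtain ⟨c, h1, h2, rfl⟩ := three_of_mem (h.three t ht) hu hv huv
  exact ⟨c, ⟨huv, h1, h2, ht⟩, rfl⟩

lemma Pre.exists_T (h : Pre V F) {t : Finset ι} (ht : t ∈ F) (hv : v ∈ t) :
    ∃ a b, T F v a b ∧ t = {v, a, b} := by
  obtain ⟨a, ha, hav⟩ := exists_mem_ne (show 1 < t.card by rw [h.three t ht]; omega) v
  obtain ⟨b, hb⟩ := h.exists_T2 ht hv ha hav.symm
  exact ⟨a, b, hb⟩

lemma Pre.exists_T0 (h : Pre V F) {t : Finset ι} (ht : t ∈ F) :
    ∃ a b c, T F a b c ∧ t = {a, b, c} := by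
  obtain ⟨v, hv⟩ := card_pos.1 (show 0 < t.card by rw [h.three t ht]; omega)
  exact ⟨v, h.exists_T ht hv⟩

lemma Pre.exists_TV (h : Pre V F) (hv : v ∈ V) : ∃ a b, T F v a b := by
  obtain ⟨t, ht, hv⟩ := h.cover v hv
  obtain ⟨a, b, h1, -⟩ := h.exists_T ht hv
  exact ⟨a, b, h1⟩

lemma Pre.three_le (h : Pre V F) (hv : v ∈ V) : 3 ≤ deg F v := by
  obtain ⟨a, b, t⟩ := h.exists_TV hv
  obtain ⟨c, hc, t1⟩ := h.next t.s23
  obtain ⟨d, hd, t2⟩ := h.next t
  refine two_lt_card_iff.2 ⟨{v, a, b}, {v, b, c}, {v, a, d}, ?_, ?_, ?_, ?_, ?_, ?_⟩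
  · exact mem_filter.2 ⟨t.2.2.2, by simp⟩
  · exact mem_filter.2 ⟨t1.2.2.2, by simp⟩
  · exact mem_filter.2 ⟨t2.2.2.2, by simp⟩
  · intro e
    have : a ∈ ({v, b, c} : Finset ι) := e ▸ (by simp)
    simp [t.1.symm, t.2.2.1, hc.symm] at this
  · intro e
    have : b ∈ ({v, a, d} : Finset ι) := e ▸ (by simp)
    simp [t.2.1.symm, t.2.2.1.symm, hd.symm] at this
  · intro e
    have : b ∈ ({v, a, d} : Finset ι) := e ▸ (by simp)
    simp [t.2.1.symm, t.2.2.1.symm, hd.symm] at this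

lemma sum_deg (S : Finset ι) (F : Finset (Finset ι)) :
    ∑ v ∈ S, deg F v = ∑ t ∈ F, (t ∩ S).card := by
  have := sum_card_bipartiteAbove_eq_sum_card_bipartiteBelow (s := S) (t := F) fun v t => v ∈ t
  simp only [bipartiteAbove, bipartiteBelow] at this
  refine this.trans (sum_congr rfl fun t _ => ?_)
  rw [filter_mem_eq_inter, inter_comm]

lemma Pre.sum_deg (h : Pre V F) : ∑ v ∈ V, deg F v + 12 = 6 * V.card := by
  rw [Pool.Agent.P.MP_e40812_co.sum_deg, sum_congr rfl fun t ht =>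
    show (t ∩ V).card = 3 by rw [inter_eq_left.2 (h.sub t ht), h.three t ht]]
  have := h.card
  simp only [sum_const, smul_eq_mul]
  omega

lemma Tri.two (h : Tri V F) (hab : Nb F a b) :
    ((F.filter fun t => a ∈ t).filter fun t => b ∈ t).card = 2 := by
  obtain ⟨c, t⟩ := hab
  obtain ⟨d, hd, t1⟩ := h.next t
  refine card_eq_two.2 ⟨{a, b, c}, {a, b, d}, fun e => ?_, ?_⟩
  · have : d ∈ ({a, b, c} : Finset ι) := e ▸ (by simp)
    simp [t1.2.1.symm, t1.2.2.1.symm, hd] at this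
  · ext s
    simp only [mem_filter, mem_insert, mem_singleton]
    constructor
    · rintro ⟨⟨hs, ha⟩, hb⟩
      obtain ⟨e, t2, rfl⟩ := h.exists_T2 hs ha hb t.1
      rcases h.uniq t t1 t2 with k | k | k
      · exact absurd k.symm hd
      · exact Or.inl (by rw [k])
      · exact Or.inr (by rw [k])
    · rintro (rfl | rfl)
      · exact ⟨⟨t.2.2.2, by simp⟩, by simp⟩
      · exact ⟨⟨t1.2.2.2, by simp⟩, by simp⟩

open Classical in
lemma Tri.deg_eq (h : Tri V F) (v : ι) : deg F v = (V.filter fun u => Nb F v u).card := by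
  have := card_mul_eq_card_mul (s := F.filter fun t => v ∈ t) (t := V.filter fun u => Nb F v u)
    (fun t u => u ∈ t) (m := 2) (n := 2) (fun t ht => by
      obtain ⟨ht, hv⟩ := mem_filter.1 ht
      obtain ⟨a, b, k, rfl⟩ := h.exists_T ht hv
      refine card_eq_two.2 ⟨a, b, k.2.2.1, ?_⟩
      ext u
      simp only [mem_bipartiteAbove, mem_filter, mem_insert, mem_singleton]
      constructor
      · rintro ⟨⟨-, h1⟩, rfl | h2⟩
        · exact absurd rfl h1.ne
        · exact h2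
      · rintro (rfl | rfl)
        · exact ⟨⟨h.mem k.s12, k.nb⟩, by simp⟩
        · exact ⟨⟨h.mem k.s13, k.nb'⟩, by simp⟩) (fun u hu => by
      convert h.two (mem_filter.1 hu).2 using 2
      ext t
      simp only [mem_bipartiteBelow, mem_filter])
  unfold deg
  omega

lemma Tri.card_le_deg (h : Tri V F) (s : Finset ι) (hs : ∀ u ∈ s, Nb F v u) :
    s.card ≤ deg F v := by
  classical
  rw [h.deg_eq]
  exact card_le_card fun u hu => mem_filter.2 ⟨h.nb_mem (hs u hu).symm, hs u hu⟩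

lemma Tri.exists_nb (h : Tri V F) (s : Finset ι) (hs : s.card < deg F v) :
    ∃ u, u ∉ s ∧ Nb F v u := by
  classical
  rw [h.deg_eq] at hs
  obtain ⟨u, h1, h2⟩ := exists_mem_notMem_of_card_lt_card hs
  exact ⟨u, h2, (mem_filter.1 h1).2⟩

lemma Tri.nb_of_card (h : Tri V F) (s : Finset ι) (hs : ∀ u ∈ s, Nb F v u)
    (hc : deg F v ≤ s.card) {u : ι} (hu : Nb F v u) : u ∈ s := by
  by_contra hn
  have := h.card_le_deg (insert u s) (v := v) (by
    intro x hx
    rcases mem_insert.1 hx with rfl | hx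
    · exact hu
    · exact hs x hx)
  rw [card_insert_of_notMem hn] at this
  omega

lemma Tri.nb3 (h : Tri V F) (hd : deg F v = 3) (ha : Nb F v a) (hb : Nb F v b) (hc : Nb F v c)
    (hab : a ≠ b) (hac : a ≠ c) (hbc : b ≠ c) {u : ι} (hu : Nb F v u) : u = a ∨ u = b ∨ u = c := by
  have := h.nb_of_card {a, b, c} (by simp [ha, hb, hc])
    (by rw [hd, card_eq_three.2 ⟨a, b, c, hab, hac, hbc, rfl⟩]) hu
  simpa using this

lemma Tri.link3 (h : Tri V F) (hd : deg F v = 3) (t : T F v a b) :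
    ∃ c, T F v b c ∧ T F v c a ∧ ∀ u, Nb F v u → u = a ∨ u = b ∨ u = c := by
  obtain ⟨c, hc, t1⟩ := h.next t.s23
  obtain ⟨d, hd', t2⟩ := h.next t
  have key := fun u => h.nb3 (u := u) hd t.nb t.nb' t1.nb' t.2.2.1 hc.symm t1.2.2.1
  rcases key d t2.nb' with k | k | k
  · exact absurd k.symm t2.2.2.1
  · exact absurd k hd'
  · exact ⟨c, t1, (k ▸ t2).s23, key⟩

lemma Tri.link4 (h : Tri V F) (hd : deg F v = 4) (t : T F v a b) :
    ∃ c d, T F v b c ∧ T F v c d ∧ T F v d a ∧ a ≠ c ∧ b ≠ d ∧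
      ∀ u, Nb F v u → u = a ∨ u = b ∨ u = c ∨ u = d := by
  obtain ⟨c, hc, t1⟩ := h.next t.s23
  obtain ⟨d, hd', t2⟩ := h.next t
  have key : ∀ e, Nb F v e → e ≠ a → e ≠ b → e ≠ c → ∀ u, Nb F v u →
      u = a ∨ u = b ∨ u = c ∨ u = e := by
    intro e he h1 h2 h3 u hu
    have := h.nb_of_card {a, b, c, e} (by simp [t.nb, t.nb', t1.nb', he])
      (by
        rw [hd, card_insert_of_notMem (by simp [t.2.2.1, hc.symm, h1.symm]),
          card_eq_three.2 ⟨b, c, e, t1.2.2.1, h2.symm, h3.symm, rfl⟩]) hu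
    simpa using this
  have hcd : c ≠ d := by
    rintro rfl
    obtain ⟨x, hx, ⟨z, t3⟩⟩ := h.exists_nb (v := v) {a, b, c} (by
      have : ({a, b, c} : Finset ι).card ≤ 3 := card_le_three
      omega)
    simp only [mem_insert, mem_singleton, not_or] at hx
    rcases key x t3.nb hx.1 hx.2.1 hx.2.2 z t3.nb' with rfl | rfl | rfl | rfl
    · rcases h.uniq t t2 t3.s23 with k | k | k
      · exact hd' k.symm
      · exact hx.2.1 k.symm
      · exact hx.2.2 k.symm
    · rcases h.uniq t.s23 t1 t3.s23 with k | k | k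
      · exact hc k.symm
      · exact hx.1 k.symm
      · exact hx.2.2 k.symm
    · rcases h.uniq t2.s23 t1.s23 t3.s23 with k | k | k
      · exact t.2.2.1 k
      · exact hx.1 k.symm
      · exact hx.2.1 k.symm
    · exact t3.2.2.1 rfl
  have key' := key d t2.nb' t2.2.2.1.symm hd' hcd.symm
  obtain ⟨e, he, t3⟩ := h.next t1.s23
  refine ⟨c, d, t1, ?_, t2.s23, hc.symm, hd'.symm, key'⟩
  rcases key' e t3.nb' with rfl | rfl | rfl | rfl
  · rcases h.uniq t t2 t3.s23 with k | k | k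
    · exact absurd k.symm hd'
    · exact absurd k t1.2.2.1
    · exact absurd k.symm hcd
  · exact absurd rfl he
  · exact absurd rfl t3.2.2.1
  · exact t3

lemma Tri.sub_of_closed (h : Tri V F) (W : Finset ι) (t : T F a b c) (ha : a ∈ W) (hb : b ∈ W)
    (hc : c ∈ W) (hW : ∀ p ∈ W, ∀ q ∈ W, ∀ r, T F p q r → r ∈ W) : V ⊆ W := by
  have := h.conn (fun s => s ⊆ W) ⟨_, t.2.2.2, by simp [insert_subset_iff, ha, hb, hc]⟩
    (fun p q r s _ t2 hs => by
      simp only [insert_subset_iff, singleton_subset_iff] at hs ⊢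
      exact ⟨hs.1, hs.2.1, hW p hs.1 q hs.2.1 s t2⟩)
  intro v hv
  obtain ⟨s, hs, hv⟩ := h.cover v hv
  exact this s hs hv

lemma Tri.third (h : Tri V F) {e : ι} (t1 : T F a b c) (t2 : T F a b d) (hcd : c ≠ d)
    (t3 : T F a b e) : e = c ∨ e = d := by
  rcases h.uniq t1 t2 t3 with k | k | k
  · exact absurd k hcd
  · exact Or.inl k.symm
  · exact Or.inr k.symm

lemma Tri.not_tet (h : Tri V F) (h5 : 5 ≤ V.card) (t1 : T F y a b) (t2 : T F y b c)
    (t3 : T F y c a) : ¬ T F a b c := by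
  intro t
  have := h.sub_of_closed {y, a, b, c} t (by simp) (by simp) (by simp) (by
    intro p hp q hq r k
    simp only [mem_insert, mem_singleton] at hp hq ⊢
    have k1 := k.1
    rcases hp with rfl | rfl | rfl | rfl <;> rcases hq with rfl | rfl | rfl | rfl
    all_goals first
      | exact absurd rfl k1
      | (have := h.third t1 t3.s23 t.2.2.1 k; tauto)
      | (have := h.third t1.s23 t2 t.2.1 k; tauto)
      | (have := h.third t2.s23 t3 t.1.symm k; tauto)
      | (have := h.third t1 t3.s23 t.2.2.1 k.s12; tauto)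
      | (have := h.third t1.s23 t2 t.2.1 k.s12; tauto)
      | (have := h.third t2.s23 t3 t.1.symm k.s12; tauto)
      | (have := h.third t1.rot t t2.2.1 k; tauto)
      | (have := h.third t1.rot t t2.2.1 k.s12; tauto)
      | (have := h.third t2.rot t.rot t1.1 k; tauto)
      | (have := h.third t2.rot t.rot t1.1 k.s12; tauto)
      | (have := h.third t3.rot t.rot' t1.2.1 k; tauto)
      | (have := h.third t3.rot t.rot' t1.2.1 k.s12; tauto))
  have h1 := card_le_card this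
  have h2 : ({y, a, b, c} : Finset ι).card ≤ 4 := card_le_four
  omega

lemma Tri.not_nb33 (h : Tri V F) (h5 : 5 ≤ V.card) (hy : deg F y = 3) (ha : deg F a = 3) :
    ¬ Nb F y a := by
  rintro ⟨b, t1⟩
  obtain ⟨c, t2, t3, -⟩ := h.link3 hy t1
  obtain ⟨d, hd, t4⟩ := h.next t1.rot
  rcases h.nb3 ha t1.s12.nb t1.rot.nb t3.s13.nb t1.2.1 t2.2.1 t2.2.2.1 t4.nb' with k | k | k
  · exact hd k
  · exact t4.2.2.1 k.symm
  · exact h.not_tet h5 t1 t2 t3 (k ▸ t4)

lemma Tri.oct (h : Tri V F) (h7 : 7 ≤ V.card) {p q : ι} (ha : deg F a = 4) (hb : deg F b = 4)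
    (hc : deg F c = 4) (t1 : T F a b c) (t2 : T F a c p) (t3 : T F a p q) (t4 : T F a q b)
    (hbp : b ≠ p) (hcq : c ≠ q) (na : ∀ u, Nb F a u → u = b ∨ u = c ∨ u = p ∨ u = q) :
    deg F p ≠ 4 := by
  intro hp
  obtain ⟨p', r, u1, u2, u3, u4, har, nc⟩ := h.link4 hc t1.s13
  obtain rfl : p' = p := (h.third t1.rot' t2.s12 hbp u1).resolve_left u4.symm
  obtain ⟨q', r', v1, v2, v3, v4, v5, nb⟩ := h.link4 hb t1.rot
  obtain rfl : q' = q := (h.third t1.s12 t4.rot' hcq v1).resolve_left v4.symm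
  obtain rfl : r' = r := (h.third t1.rot u3.rot' har v3.s23).resolve_left v5.symm
  obtain ⟨q'', r'', w1, w2, w3, w4, w5, np⟩ := h.link4 hp t2.s13
  obtain rfl : q'' = q' := (h.third t2.rot' t3.s12 hcq w1).resolve_left w4.symm
  obtain rfl : r'' = r' := (h.third t2.s13 u2.s12 har w3.s23).resolve_left w5.symm
  have key : ∀ x, x = a ∨ x = b ∨ x = c ∨ x = p' → ∀ z, Nb F x z →
      z ∈ ({a, b, c, p', q'', r''} : Finset ι) := by
    intro x hx z hz
    simp only [mem_insert, mem_singleton]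
    rcases hx with rfl | rfl | rfl | rfl
    · have := na z hz
      tauto
    · have := nb z hz
      tauto
    · have := nc z hz
      tauto
    · have := np z hz
      tauto
  have := h.sub_of_closed {a, b, c, p', q'', r''} t1 (by simp) (by simp) (by simp) (by
    intro x hx y hy z k
    by_cases k1 : x = a ∨ x = b ∨ x = c ∨ x = p'
    · exact key x k1 z k.nb'
    by_cases k2 : y = a ∨ y = b ∨ y = c ∨ y = p'
    · exact key y k2 z k.s12.nb'
    simp only [mem_insert, mem_singleton] at hx hy ⊢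
    have hx' : x = q'' ∨ x = r'' := by tauto
    have hy' : y = q'' ∨ y = r'' := by tauto
    rcases hx' with rfl | rfl <;> rcases hy' with rfl | rfl
    · exact absurd rfl k.1
    · have := h.third v2.rot w2.rot hbp k
      tauto
    · have := h.third v2.rot w2.rot hbp k.s12
      tauto
    · exact absurd rfl k.1)
  have h1 := card_le_card this
  have h2 : ({a, b, c, p', q'', r''} : Finset ι).card ≤ 6 := card_le_six
  omega

end Pool.Agent.P.MP_e40812_co
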