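import Pool.Agent.P.MP_e40812_co.XDefs

/-! The framed square on the spiral. -/

namespace Pool.Agent.P.MP_e40812_co

open Finset Pool.Agent.Lib.PolyTime
open scoped Classical

/-- The colour west of the point `(x, y)` of the framed square. -/
def xactH {D : Type} (m a : ℕ) (h : ℕ → ℕ → D) (x y : ℕ) : PC D :=
  if x = 0 ∨ x = a + 2 then none else if y = 0 then (if x ≤ m + 1 then spc 0 else spc 1)
  else if y = a + 1 then spc 4 else dat (h (x - 1) (y - 1)) (decide (y - 1 < x - 1))

/-- The colour south of the point `(x, y)` of the framed square. -/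
def xactV {D : Type} (a : ℕ) (v : ℕ → ℕ → D) (x y : ℕ) : PC D :=
  if y = 0 ∨ y = a + 2 then none else if x = 0 then spc 2
  else if x = a + 1 then spc 3 else dat (v (x - 1) (y - 1)) (decide (x - 1 < y - 1))

/-- The tile at the point `(x, y)` of the framed square. -/
def xactG {D : Type} (m a : ℕ) (h v : ℕ → ℕ → D) (x y : ℕ) : Q (PC D) :=
  (xactH m a h (x + 1) y, xactV a v x (y + 1), xactH m a h x y, xactV a v x y)

/-- A function on the square read along the spiral. -/
def xactS {C : Type} (c : ℕ) (f : ℕ → ℕ → Option C) (n : ℤ) : Option C :=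
  if 0 ≤ n ∧ n < (c * c : ℕ) then f (n.toNat % c) (n.toNat / c) else none

theorem xact_S_in {C : Type} {c : ℕ} (f : ℕ → ℕ → Option C) {x y : ℕ} (hx : x < c) (hy : y < c) :
    xactS c f ((x + c * y : ℕ) : ℤ) = f x y := by
  have h1 : x + c * y < c * c := by nlinarith
  have hc : 0 < c := by omega
  unfold xactS
  rw [if_pos ⟨by positivity, by exact_mod_cast h1⟩, Int.toNat_natCast, Nat.add_mul_mod_self_left,
    Nat.mod_eq_of_lt hx, Nat.add_mul_div_left _ _ hc, Nat.div_eq_of_lt hx, zero_add]

theorem xact_S_out {C : Type} {c : ℕ} (f : ℕ → ℕ → Option C) {n : ℤ}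
    (hn : n < 0 ∨ ((c * c : ℕ) : ℤ) ≤ n) : xactS c f n = none := by
  unfold xactS
  rw [if_neg (by omega)]

theorem xact_single {X : Type} (f : ℕ → X) (k : ℕ) :
    (Multiset.range k).map f = ∑ i ∈ range k, ({f i} : Multiset X) := by
  induction k with
  | zero => simp
  | succ k ih =>
    rw [Multiset.range_succ, Multiset.map_cons, Finset.sum_range_succ, ih, add_comm,
      Multiset.singleton_add]

theorem xact_double {X : Type} (f : ℕ → X) (c k : ℕ) :
    ∑ n ∈ range (c * k), ({f n} : Multiset X) =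
      ∑ y ∈ range k, ∑ x ∈ range c, ({f (x + c * y)} : Multiset X) := by
  induction k with
  | zero => simp
  | succ k ih =>
    rw [Nat.mul_succ, Finset.sum_range_add, ih, Finset.sum_range_succ]
    congr 1
    exact Finset.sum_congr rfl fun x _ => by rw [add_comm]

theorem xact_three {X : Type} [AddCommMonoid X] (f : ℕ → X) (a : ℕ) :
    ∑ i ∈ range (a + 2), f i = f 0 + ∑ i ∈ range a, f (i + 1) + f (a + 1) := by
  rw [Finset.sum_range_succ, Finset.sum_range_succ', add_comm (f 0)]

theorem xact_filter {C : Type} (bl : C) (μ : Multiset (ZMod 7 × Q C))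
    (h : ∀ p ∈ μ, p.2 ≠ q4 bl) : μ.filter (fun p => p.2 ≠ q4 bl) = μ :=
  Multiset.filter_eq_self.2 h

theorem xact_ne {D : Type} (m a : ℕ) (h : ℕ → ℕ → D) {x : ℕ} (y : ℕ) (h0 : x ≠ 0)
    (h1 : x ≠ a + 2) : xactH m a h x y ≠ none := by
  unfold xactH
  rw [if_neg (by omega)]
  split_ifs <;> simp [spc, dat]

theorem xact_sum {D : Type} (W : WS D) {m a : ℕ} (hm : m < a) {h v : ℕ → ℕ → D}
    (ht : W.Til m a h v) :
    ∑ y ∈ range (a + 2), ∑ x ∈ range (a + 2),
      ({(cl x y, xactG m a h v x y)} : Multiset (ZMod 7 × Q (PC D))) = W.frame m a + act a h v := by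
  obtain ⟨-, hL, hB⟩ := ht
  have e00 : xactG m a h v 0 0 = tSW := by simp [xactG, xactH, xactV, tSW]
  have e10 : xactG m a h v (a + 1) 0 = tSE := by
    have : ¬ a ≤ m := by omega
    simp [xactG, xactH, xactV, tSE, this]
  have e01 : xactG m a h v 0 (a + 1) = tNW := by simp [xactG, xactH, xactV, tNW]
  have e11 : xactG m a h v (a + 1) (a + 1) = tNE := by simp [xactG, xactH, xactV, tNE]
  have eL : ∀ j ∈ range a, xactG m a h v 0 (j + 1) = W.tL := fun j hj => by
    have hj' := Finset.mem_range.1 hj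
    have h1 : j ≠ a := by omega
    have h2 : j ≠ a + 1 := by omega
    simp [xactG, xactH, xactV, WS.tL, h1, h2, (hL j hj').1]
  have eR : ∀ j ∈ range a, xactG m a h v (a + 1) (j + 1) = W.tR := fun j hj => by
    have hj' := Finset.mem_range.1 hj
    have h1 : j ≠ a := by omega
    have h2 : j ≠ a + 1 := by omega
    simp [xactG, xactH, xactV, WS.tR, h1, h2, hj', (hL j hj').2]
  have eT : ∀ i ∈ range a, xactG m a h v (i + 1) (a + 1) = W.tT := fun i hi => by
    have hi' := Finset.mem_range.1 hi
    have h1 : i ≠ a := by omega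
    have h2 : i ≠ a + 1 := by omega
    simp [xactG, xactH, xactV, WS.tT, h1, h2, hi', (hB i hi').2]
  have eC : ∀ j ∈ range a, ∀ i ∈ range a, xactG m a h v (i + 1) (j + 1) = cellT h v i j :=
    fun j hj i hi => by
      have hj' := Finset.mem_range.1 hj
      have hi' := Finset.mem_range.1 hi
      have h1 : i ≠ a := by omega
      have h2 : i ≠ a + 1 := by omega
      have h3 : j ≠ a := by omega
      have h4 : j ≠ a + 1 := by omega
      simp [xactG, xactH, xactV, cellT, h1, h2, h3, h4]
  have eB1 : ∀ i ∈ range m, xactG m a h v (i + 1) 0 = W.tB1 := fun i hi => by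
    have hi' := Finset.mem_range.1 hi
    have h1 : i ≠ a := by omega
    have h2 : i ≠ a + 1 := by omega
    have h3 : i ≤ m := by omega
    have h4 : i + 1 ≤ m := by omega
    simp [xactG, xactH, xactV, WS.tB1, h1, h2, h3, h4, (hB i (by omega)).1, WS.bot, hi']
  have eX : xactG m a h v (m + 1) 0 = W.tX := by
    have h1 : m ≠ a := by omega
    have h2 : m ≠ a + 1 := by omega
    simp [xactG, xactH, xactV, WS.tX, h1, h2, (hB m hm).1, WS.bot]
  have eB0 : ∀ i ∈ range (a - m - 1), xactG m a h v (m + 2 + i) 0 = W.tB0 := fun i hi => by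
    have hi' := Finset.mem_range.1 hi
    obtain ⟨k, hk⟩ : ∃ k, m + 2 + i = k + 1 := ⟨m + 1 + i, by omega⟩
    rw [hk]
    have h1 : k ≠ a := by omega
    have h2 : k ≠ a + 1 := by omega
    have h3 : ¬ k ≤ m := by omega
    have h4 : ¬ k + 1 ≤ m := by omega
    have h5 : ¬ k < m := by omega
    have h6 : k ≠ m := by omega
    simp [xactG, xactH, xactV, WS.tB0, h1, h2, h3, h4, h5, h6, (hB k (by omega)).1, WS.bot]
  have hbot : ∑ i ∈ range a,
      ({(cl (i + 1) 0, xactG m a h v (i + 1) 0)} : Multiset (ZMod 7 × Q (PC D))) =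
      ∑ i ∈ range m, {(cl (i + 1) 0, W.tB1)} + {(cl (m + 1) 0, W.tX)} +
        ∑ i ∈ range (a - m - 1), {(cl (m + 2 + i) 0, W.tB0)} := by
    have ea : range a = range (m + 1 + (a - m - 1)) := by congr 1; omega
    rw [ea, Finset.sum_range_add, Finset.sum_range_succ, eX]
    congr 1
    · congr 1
      exact Finset.sum_congr rfl fun i hi => by rw [eB1 i hi]
    · refine Finset.sum_congr rfl fun i hi => ?_
      have e : m + 1 + i + 1 = m + 2 + i := by omega
      rw [e, eB0 i hi]
  have hmid : ∑ j ∈ range a, ∑ x ∈ range (a + 2),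
      ({(cl x (j + 1), xactG m a h v x (j + 1))} : Multiset (ZMod 7 × Q (PC D))) =
      ∑ j ∈ range a, {(cl 0 (j + 1), W.tL)} + act a h v +
        ∑ j ∈ range a, {(cl (a + 1) (j + 1), W.tR)} := by
    rw [act, ← Finset.sum_add_distrib, ← Finset.sum_add_distrib]
    refine Finset.sum_congr rfl fun j hj => ?_
    rw [xact_three, eL j hj, eR j hj]
    congr 2
    exact Finset.sum_congr rfl fun i hi => by rw [eC j hj i hi]
  have htop : ∑ i ∈ range a,
      ({(cl (i + 1) (a + 1), xactG m a h v (i + 1) (a + 1))} : Multiset (ZMod 7 × Q (PC D))) =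
      ∑ i ∈ range a, {(cl (i + 1) (a + 1), W.tT)} :=
    Finset.sum_congr rfl fun i hi => by rw [eT i hi]
  rw [xact_three, hmid, xact_three, xact_three, hbot, htop, e00, e10, e01, e11, WS.frame]
  simp only [xact_single]
  abel

theorem sp_act {D : Type} (W : WS D) {m a : ℕ} (hm : m < a) (h7 : ((a + 2 : ℕ) : ZMod 7) = 3)
    {h v : ℕ → ℕ → D} (ht : W.Til m a h v) :
    Sp none (a + 2) ((a + 2) * (a + 2)) (W.frame m a + act a h v) := by
  have hH0 : ∀ y, xactH m a h 0 y = none := fun y => by simp [xactH]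
  have hH1 : ∀ y, xactH m a h (a + 2) y = none := fun y => by simp [xactH]
  have hV0 : ∀ x, xactV a v x 0 = none := fun x => by simp [xactV]
  have hV1 : ∀ x, xactV a v x (a + 2) = none := fun x => by simp [xactV]
  obtain ⟨c, hc⟩ : ∃ c, c = a + 2 := ⟨_, rfl⟩
  have hc0 : 0 < c := by omega
  let H := xactS c (xactH m a h)
  let V := xactS c (xactV a v)
  let g : ℤ → Q (PC D) := fun n => (H (n + 1), V (n + c), H n, V n)
  have hg : ∀ y < c, ∀ x < c, g ((x + c * y : ℕ) : ℤ) = xactG m a h v x y := by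
    intro y hy x hx
    have e1 : H (((x + c * y : ℕ) : ℤ) + 1) = xactH m a h (x + 1) y := by
      rcases Nat.lt_or_ge (x + 1) c with h1 | h1
      · have e : ((x + c * y : ℕ) : ℤ) + 1 = ((x + 1 + c * y : ℕ) : ℤ) := by push_cast; ring
        rw [e]
        exact xact_S_in _ h1 hy
      · have hx1 : x + 1 = c := by omega
        have e : ((x + c * y : ℕ) : ℤ) + 1 = ((0 + c * (y + 1) : ℕ) : ℤ) := by
          have : x + c * y + 1 = 0 + c * (y + 1) := by rw [Nat.mul_succ]; omega
          exact_mod_cast this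
        rw [e, hx1, hc, hH1, ← hc]
        rcases Nat.lt_or_ge (y + 1) c with h2 | h2
        · exact (xact_S_in _ hc0 h2).trans (hH0 _)
        · refine xact_S_out _ (Or.inr ?_)
          have : c * c ≤ 0 + c * (y + 1) := by nlinarith
          exact_mod_cast this
    have e2 : V (((x + c * y : ℕ) : ℤ) + c) = xactV a v x (y + 1) := by
      have e : ((x + c * y : ℕ) : ℤ) + c = ((x + c * (y + 1) : ℕ) : ℤ) := by push_cast; ring
      rw [e]
      rcases Nat.lt_or_ge (y + 1) c with h2 | h2
      · exact xact_S_in _ hx h2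
      · have hy1 : y + 1 = a + 2 := by omega
        rw [show xactV a v x (y + 1) = none by rw [hy1, hV1]]
        refine xact_S_out _ (Or.inr ?_)
        have : c * c ≤ x + c * (y + 1) := by nlinarith
        exact_mod_cast this
    exact Prod.ext e1 (Prod.ext e2 (Prod.ext (xact_S_in _ hx hy) (xact_S_in _ hx hy)))
  rw [← hc] at h7 ⊢
  refine ⟨g, ⟨fun n => rfl, fun n => rfl, fun n hn => ?_⟩, ?_⟩
  · have e1 : H (n + 1) = none := by
      rcases eq_or_ne n (-1) with rfl | h1
      · exact (xact_S_in (x := 0) (y := 0) _ hc0 hc0).trans (hH0 _)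
      · exact xact_S_out _ (by omega)
    have e2 : V (n + c) = none := by
      by_cases h1 : n < 0 ∧ 0 ≤ n + c
      · obtain ⟨x, hx⟩ := Int.eq_ofNat_of_zero_le h1.2
        have e : n + c = ((x + c * 0 : ℕ) : ℤ) := by rw [hx]; simp
        rw [e]
        exact (xact_S_in _ (by omega) hc0).trans (hV0 _)
      · exact xact_S_out _ (by omega)
    exact Prod.ext e1 (Prod.ext e2 (Prod.ext (xact_S_out _ hn) (xact_S_out _ hn)))
  · have e : tl (c * c) g = ∑ y ∈ range c, ∑ x ∈ range c,
        ({(cl x y, xactG m a h v x y)} : Multiset (ZMod 7 × Q (PC D))) := by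
      rw [tl, xact_single, xact_double]
      refine Finset.sum_congr rfl fun y hy => Finset.sum_congr rfl fun x hx => ?_
      rw [hg y (Finset.mem_range.1 hy) x (Finset.mem_range.1 hx), cl]
      push_cast
      rw [h7]
    rw [← xact_sum W hm ht, ← hc, e]
    refine xact_filter _ _ fun p hp => ?_
    simp only [Multiset.mem_sum, Multiset.mem_singleton, Finset.mem_range] at hp
    obtain ⟨y, -, x, hx, rfl⟩ := hp
    intro hq
    rcases eq_or_ne x (a + 1) with rfl | h1
    · exact xact_ne m a h y (by omega) (by omega) (congrArg (fun q => q.2.2.1) hq)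
    · exact xact_ne m a h y (x := x + 1) (by omega) (by omega) (congrArg (fun q => q.1) hq)

end Pool.Agent.P.MP_e40812_co
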