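import Pool.Agent.P.MP_e40812_co.XDefs

/-! The bottom side of the frame has the prescribed length. -/

namespace Pool.Agent.P.MP_e40812_co

open Finset Pool.Agent.Lib.PolyTime
open scoped Classical

theorem xchain_inj {ι : Type} {S : Finset ι} {f g : ι → ι} {p : ι → Prop}
    (hf : ∀ u ∈ S, p u → g (f u) = u) {v : ι} (hv : ∀ u ∈ S, p u → f u ≠ v) :
    ∀ i j, (∀ l < j, f^[l] v ∈ S ∧ p (f^[l] v)) → i < j → f^[i] v ≠ f^[j] v := by
  intro i
  induction i with
  | zero =>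
    intro j hj hij h
    obtain ⟨j, rfl⟩ : ∃ j', j = j' + 1 := ⟨j - 1, by omega⟩
    rw [Function.iterate_succ_apply'] at h
    exact hv _ (hj j (by omega)).1 (hj j (by omega)).2 h.symm
  | succ i ih =>
    intro j hj hij h
    obtain ⟨j, rfl⟩ : ∃ j', j = j' + 1 := ⟨j - 1, by omega⟩
    rw [Function.iterate_succ_apply', Function.iterate_succ_apply'] at h
    have h2 := congrArg g h
    rw [hf _ (hj i (by omega)).1 (hj i (by omega)).2, hf _ (hj j (by omega)).1 (hj j (by omega)).2]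
      at h2
    exact ih j (fun l hl => hj l (by omega)) (by omega) h2

theorem xchain_orbit {ι : Type} {S : Finset ι} {f g : ι → ι} {p : ι → Prop}
    (hf : ∀ u ∈ S, p u → f u ∈ S ∧ g (f u) = u) {v : ι} (h0 : v ∈ S)
    (hv : ∀ u ∈ S, p u → f u ≠ v) :
    ∃ k, ¬p (f^[k] v) ∧ (∀ l < k, p (f^[l] v)) ∧ ∀ l ≤ k, f^[l] v ∈ S := by
  have mem : ∀ k, (∀ l < k, p (f^[l] v)) → ∀ l ≤ k, f^[l] v ∈ S := by
    intro k hk l
    induction l with
    | zero => exact fun _ => h0
    | succ l ih =>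
      intro hl
      rw [Function.iterate_succ_apply']
      exact (hf _ (ih (by omega)) (hk l (by omega))).1
  have ex : ∃ k, ¬p (f^[k] v) := by
    by_contra hn
    push Not at hn
    have hS : ∀ l, f^[l] v ∈ S := fun l => mem l (fun l _ => hn l) l le_rfl
    have hi := xchain_inj (fun u hu hp => (hf u hu hp).2) hv
    have inj : Function.Injective fun l => f^[l] v := by
      intro i j h
      by_contra hne
      rcases lt_or_gt_of_ne hne with h1 | h1
      · exact hi i j (fun l _ => ⟨hS l, hn l⟩) h1 h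
      · exact hi j i (fun l _ => ⟨hS l, hn l⟩) h1 h.symm
    exact Set.infinite_of_injective_forall_mem inj hS S.finite_toSet
  have h1 : ∀ l < Nat.find ex, p (f^[l] v) := fun l hl => not_not.1 (Nat.find_min ex hl)
  exact ⟨Nat.find ex, Nat.find_spec ex, h1, mem _ h1⟩

theorem xchain_count {ι β : Type} [DecidableEq β] (S : Finset ι) (f : ι → β) (b : β) :
    (S.val.map f).count b = (S.filter fun a => f a = b).card := by
  rw [Multiset.count_map, Finset.card_def, Finset.filter_val]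
  exact congrArg Multiset.card (Multiset.filter_congr fun _ _ => eq_comm)

section

variable {D : Type} {W : WS D} {q : Q (PC D)}

theorem xchain_tk (h : q ∈ W.TK) : ∃ t x y f, q = tok t x y f := by
  obtain ⟨p, -, rfl⟩ := Finset.mem_image.1 h
  exact ⟨_, _, _, _, rfl⟩

theorem xchain_W0 (h : W.Al q) (h1 : q.2.2.1 = spc 0) : q = W.tB1 ∨ q = W.tX := by
  rcases h with h | ⟨d, b, h | h | h | h⟩ | h | h | h | h | h | h | h | h | h | h | h
  · obtain ⟨t, x, y, f, rfl⟩ := xchain_tk h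
    simp [tok, dat, spc] at h1
  all_goals first
    | exact Or.inl h
    | exact Or.inr h
    | (subst h
       simp [aE, aW, aN, aS, cap, tSW, WS.tB0, tSE, WS.tL, WS.tR, tNW, WS.tT, tNE, dat, spc] at h1)

theorem xchain_W1 (h : W.Al q) (h1 : q.2.2.1 = spc 1) : q = W.tB0 ∨ q = tSE := by
  rcases h with h | ⟨d, b, h | h | h | h⟩ | h | h | h | h | h | h | h | h | h | h | h
  · obtain ⟨t, x, y, f, rfl⟩ := xchain_tk h
    simp [tok, dat, spc] at h1
  all_goals first
    | exact Or.inl h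
    | exact Or.inr h
    | (subst h
       simp [aE, aW, aN, aS, cap, tSW, WS.tB1, WS.tX, WS.tL, WS.tR, tNW, WS.tT, tNE, dat, spc] at h1)

theorem xchain_W5 (h : W.Al q) (h1 : q.2.2.1 = spc 5) : q = cap := by
  rcases h with h | ⟨d, b, h | h | h | h⟩ | h | h | h | h | h | h | h | h | h | h | h
  · obtain ⟨t, x, y, f, rfl⟩ := xchain_tk h
    simp [tok, dat, spc] at h1
  all_goals first
    | exact h
    | (subst h
       simp [aE, aW, aN, aS, tSW, WS.tB1, WS.tX, WS.tB0, tSE, WS.tL, WS.tR, tNW, WS.tT, tNE, dat,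
         spc] at h1)

theorem xchain_S (h : W.Al q) {d : D} (h1 : q.2.2.2 = dat d false) :
    (∃ t x y f, q = tok t x y f) ∨ q.1 = spc 5 := by
  rcases h with h | ⟨d', b, h | h | h | h⟩ | h | h | h | h | h | h | h | h | h | h | h
  · exact Or.inl (xchain_tk h)
  all_goals first
    | (subst h; exact Or.inr rfl)
    | (subst h
       simp [aE, aW, aS, cap, tSW, WS.tB1, WS.tX, WS.tB0, tSE, WS.tL, WS.tR, tNW, WS.tT, tNE, dat,
         spc] at h1)

end

noncomputable def xchain_bit {D : Type} (c : PC D) : ℕ := if ∃ d, c = dat d true then 1 else 0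

theorem xchain_bit_dat {D : Type} (d : D) (b : Bool) : xchain_bit (dat d b) = b.toNat := by
  cases b <;> simp [xchain_bit, dat]

def xchain_Good {ι D : Type} (P : PG ι (PC D) none) (R : Finset ι) : Prop :=
  ∀ z ∈ R, z ∈ P.S ∧ P.e z ∈ R ∧ (P.col z).1 ≠ none ∧ ∃ d, (P.col z).2.1 = dat d false

theorem xchain_step {ι D : Type} {W : WS D} {P : PG ι (PC D) none}
    (hal : ∀ v ∈ P.S, W.Al (P.col v)) {R : Finset ι} (h : xchain_Good P R) :
    xchain_Good P (R.image P.n) := by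
  have a1 : ∀ z ∈ R, P.n z ∈ P.S ∧ ∃ d, (P.col (P.n z)).2.2.2 = dat d false := by
    intro z hz
    obtain ⟨h1, -, -, d, h4⟩ := h z hz
    obtain ⟨b1, b2, -⟩ := P.hn z h1 (by rw [h4]; simp [dat])
    exact ⟨b1, d, b2.trans h4⟩
  have a2 : ∀ z ∈ R, P.e (P.n z) = P.n (P.e z) := fun z hz =>
    (P.comm z (h z hz).1 (h _ (h z hz).2.1).1 (a1 z hz).1).symm
  have a3 : ∀ y ∈ R.image P.n, y ∈ P.S ∧ P.e y ∈ R.image P.n ∧
      ∃ t x y' f, P.col y = tok t x y' f ∧ (y' && !f) = false := by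
    intro y hy
    obtain ⟨z, hz, rfl⟩ := Finset.mem_image.1 hy
    obtain ⟨b1, d, b2⟩ := a1 z hz
    refine ⟨b1, by rw [a2 z hz]; exact Finset.mem_image_of_mem _ (h z hz).2.1, ?_⟩
    rcases xchain_S (hal _ b1) b2 with ⟨t, x, y', f, h5⟩ | h5
    · refine ⟨t, x, y', f, h5, ?_⟩
      rw [h5] at b2
      simp only [tok, dat, Option.some.injEq, Sum.inl.injEq, Prod.mk.injEq] at b2
      exact b2.2
    · exfalso
      obtain ⟨c1, c2, -⟩ := P.he _ b1 (by rw [h5]; simp [spc])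
      have c3 := xchain_W5 (hal _ c1) (c2.trans h5)
      obtain ⟨-, d', c4⟩ := a1 _ (h z hz).2.1
      rw [← a2 z hz, c3] at c4
      simp [cap, dat] at c4
  have a4 : ∀ y ∈ R.image P.n, (P.col y).1 ≠ none := by
    intro y hy
    obtain ⟨-, -, t, x, y', f, h5, -⟩ := a3 y hy
    rw [h5]; simp [tok, dat]
  have inj : Set.InjOn P.e (R.image P.n : Finset ι) := by
    intro y hy y' hy' hyy
    rw [← (P.he y (a3 y hy).1 (a4 y hy)).2.2, hyy, (P.he y' (a3 y' hy').1 (a4 y' hy')).2.2]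
  have im : (R.image P.n).image P.e = R.image P.n :=
    Finset.eq_of_subset_of_card_le (fun y hy => by
      obtain ⟨z, hz, rfl⟩ := Finset.mem_image.1 hy
      exact (a3 z hz).2.1) (Finset.card_image_of_injOn inj).ge
  have s1 : ∑ y ∈ R.image P.n, xchain_bit (P.col y).2.2.1 =
      ∑ y ∈ R.image P.n, xchain_bit (P.col y).1 := by
    conv_lhs => rw [← im]
    rw [Finset.sum_image inj]
    exact Finset.sum_congr rfl fun y hy => by rw [(P.he y (a3 y hy).1 (a4 y hy)).2.1]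
  have s2 := (Finset.sum_eq_sum_iff_of_le (fun y hy => by
    obtain ⟨-, -, t, x, y', f, h5, -⟩ := a3 y hy
    rw [h5]
    simp only [tok, xchain_bit_dat]
    cases x <;> cases f <;> simp)).1 s1
  intro y hy
  obtain ⟨b1, b2, t, x, y', f, h5, h6⟩ := a3 y hy
  refine ⟨b1, b2, a4 y hy, t.2.1, ?_⟩
  have h7 := s2 y hy
  rw [h5] at h7 ⊢
  simp only [tok, xchain_bit_dat] at h7 ⊢
  cases x <;> cases f <;> cases y' <;> simp_all

theorem xchain_empty {ι D : Type} {W : WS D} {P : PG ι (PC D) none}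
    (hal : ∀ v ∈ P.S, W.Al (P.col v)) {R : Finset ι} (h : xchain_Good P R) {z : ι} (hz : z ∈ R) :
    (P.col z).2.2.2 ≠ none := by
  intro h0
  have a : ∀ j, ∃ R', xchain_Good P R' ∧ P.n^[j] z ∈ R' := by
    intro j
    induction j with
    | zero => exact ⟨R, h, hz⟩
    | succ j ih =>
      obtain ⟨R', h1, h2⟩ := ih
      exact ⟨_, xchain_step hal h1, by
        rw [Function.iterate_succ_apply']; exact Finset.mem_image_of_mem _ h2⟩
  obtain ⟨k, h1, -⟩ := xchain_orbit (S := P.S) (f := P.n) (g := P.s)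
    (p := fun u => (P.col u).2.1 ≠ none)
    (fun u hu hp => ⟨(P.hn u hu hp).1, (P.hn u hu hp).2.2⟩) (h z hz).1
    (fun u hu hp he => hp (by rw [← (P.hn u hu hp).2.1, he, h0]))
  obtain ⟨R', h2, h3⟩ := a k
  obtain ⟨-, -, -, d, h4⟩ := h2 _ h3
  exact h1 (by rw [h4]; simp [dat])

theorem chain_exact {ι D : Type} (W : WS D) (P : PG ι (PC D) none) (m r : ℕ)
    (hal : ∀ v ∈ P.S, W.Al (P.col v)) (h0 : tSW ∈ P.S.val.map P.col)
    (h1 : (P.S.val.map P.col).count W.tB1 = m) (h2 : (P.S.val.map P.col).count W.tX = 1)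
    (h3 : (P.S.val.map P.col).count W.tB0 = r) (h4 : (P.S.val.map P.col).count tSE = 1) :
    ∃ v, W.Chain P m (m + 1 + r) v := by
  rw [xchain_count] at h1 h2 h3 h4
  obtain ⟨v, hv, hc⟩ := Multiset.mem_map.1 h0
  have hv : v ∈ P.S := hv
  have start : ∀ u ∈ P.S, (P.col u).1 ≠ none → P.e u ≠ v := fun u hu hp he =>
    hp (by rw [← (P.he u hu hp).2.1, he, hc]; rfl)
  obtain ⟨k, k1, k2, k3⟩ := xchain_orbit (S := P.S) (f := P.e) (g := P.w)
    (p := fun u => (P.col u).1 ≠ none)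
    (fun u hu hp => ⟨(P.he u hu hp).1, (P.he u hu hp).2.2⟩) hv start
  have k1 : (P.col (P.e^[k] v)).1 = none := not_not.1 k1
  have hinj := xchain_inj (S := P.S) (f := P.e) (g := P.w) (p := fun u => (P.col u).1 ≠ none)
    (fun u hu hp => (P.he u hu hp).2.2) start
  have inj : ∀ i ≤ k, ∀ j ≤ k, P.e^[i] v = P.e^[j] v → i = j := by
    intro i hi j hj h
    by_contra hne
    rcases lt_or_gt_of_ne hne with a | a
    · exact hinj i j (fun l hl => ⟨k3 l (by omega), k2 l (by omega)⟩) a h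
    · exact hinj j i (fun l hl => ⟨k3 l (by omega), k2 l (by omega)⟩) a h.symm
  have link : ∀ i < k, (P.col (P.e^[i + 1] v)).2.2.1 = (P.col (P.e^[i] v)).1 := fun i hi => by
    rw [Function.iterate_succ_apply']; exact (P.he _ (k3 i hi.le) (k2 i hi)).2.1
  have ex : ∃ i, (P.col (P.e^[i] v)).1 ≠ spc 0 := ⟨k, by rw [k1]; simp [spc]⟩
  obtain ⟨j, j1, j2⟩ : ∃ j, (P.col (P.e^[j] v)).1 ≠ spc 0 ∧
      ∀ i < j, (P.col (P.e^[i] v)).1 = spc 0 :=
    ⟨Nat.find ex, Nat.find_spec ex, fun i hi => not_not.1 (Nat.find_min ex hi)⟩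
  have jk : j ≤ k := by
    by_contra h
    have := j2 k (by omega)
    rw [k1] at this; simp [spc] at this
  have j0 : j ≠ 0 := by
    rintro rfl
    exact j1 (by rw [Function.iterate_zero_apply, hc]; rfl)
  have cW : ∀ i, 1 ≤ i → i ≤ j → P.col (P.e^[i] v) = W.tB1 ∨ P.col (P.e^[i] v) = W.tX := by
    intro i a b
    obtain ⟨i, rfl⟩ : ∃ i', i = i' + 1 := ⟨i - 1, by omega⟩
    exact xchain_W0 (hal _ (k3 _ (by omega))) ((link i (by omega)).trans (j2 i (by omega)))
  have c1 : ∀ i, 1 ≤ i → i < j → P.col (P.e^[i] v) = W.tB1 := by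
    intro i a b
    rcases cW i a b.le with h | h
    · exact h
    · have := j2 i b
      rw [h] at this; simp [WS.tX, spc] at this
  have cX : P.col (P.e^[j] v) = W.tX := by
    rcases cW j (by omega) le_rfl with h | h
    · exact absurd (by rw [h]; rfl) j1
    · exact h
  have jk' : j < k := by
    rcases lt_or_eq_of_le jk with h | h
    · exact h
    · subst h; rw [cX] at k1; simp [WS.tX, spc] at k1
  have cE : ∀ i, j ≤ i → i < k → (P.col (P.e^[i] v)).1 = spc 1 := by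
    intro i a
    induction i, a using Nat.le_induction with
    | base => intro _; rw [cX]; rfl
    | succ i a ih =>
      intro b
      rcases xchain_W1 (hal _ (k3 _ b.le)) ((link i (by omega)).trans (ih (by omega))) with h | h
      · rw [h]; rfl
      · exact absurd (by rw [h]; rfl) (k2 _ b)
  have cW1 : ∀ i, j < i → i ≤ k → P.col (P.e^[i] v) = W.tB0 ∨ P.col (P.e^[i] v) = tSE := by
    intro i a b
    obtain ⟨i, rfl⟩ : ∃ i', i = i' + 1 := ⟨i - 1, by omega⟩
    exact xchain_W1 (hal _ (k3 _ b)) ((link i (by omega)).trans (cE i (by omega) (by omega)))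
  have c0 : ∀ i, j < i → i < k → P.col (P.e^[i] v) = W.tB0 := by
    intro i a b
    rcases cW1 i a b.le with h | h
    · exact h
    · exact absurd (by rw [h]; rfl) (k2 _ b)
  have cS : P.col (P.e^[k] v) = tSE := by
    rcases cW1 k jk' le_rfl with h | h
    · rw [h] at k1; simp [WS.tB0, spc] at k1
    · exact h
  have uniq : ∀ q : Q (PC D), (P.S.filter fun a => P.col a = q).card = 1 → ∀ a ∈ P.S, ∀ b ∈ P.S,
      P.col a = q → P.col b = q → a = b := fun q hq a ha b hb ea eb =>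
    Finset.card_le_one.1 hq.le a (Finset.mem_filter.2 ⟨ha, ea⟩) b (Finset.mem_filter.2 ⟨hb, eb⟩)
  have good : xchain_Good P (P.S.filter fun z => (P.col z = W.tB1 ∨ P.col z = W.tB0) ∧
      ∀ i ≤ k, z ≠ P.e^[i] v) := by
    intro z hz
    obtain ⟨z1, z2, z3⟩ := Finset.mem_filter.1 hz
    have zE : (P.col z).1 ≠ none := by
      rcases z2 with h | h <;> rw [h] <;> simp [WS.tB1, WS.tB0, spc]
    obtain ⟨e1, e2, e3⟩ := P.he z z1 zE
    have off : ∀ i ≤ k, P.e z ≠ P.e^[i] v := by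
      intro i hi h
      rcases i with _ | i
      · exact start z z1 zE h
      · rw [Function.iterate_succ_apply'] at h
        apply z3 i (by omega)
        rw [← e3, h, (P.he _ (k3 i (by omega)) (k2 i (by omega))).2.2]
    refine ⟨z1, Finset.mem_filter.2 ⟨e1, ?_, off⟩, zE, ?_⟩
    · rcases z2 with h | h
      · rcases xchain_W0 (hal _ e1) (by rw [e2, h]; rfl) with h' | h'
        · exact Or.inl h'
        · exact absurd (uniq _ h2 _ e1 _ (k3 j jk) h' cX) (off j jk)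
      · rcases xchain_W1 (hal _ e1) (by rw [e2, h]; rfl) with h' | h'
        · exact Or.inr h'
        · exact absurd (uniq _ h4 _ e1 _ (k3 k le_rfl) h' cS) (off k le_rfl)
    · rcases z2 with h | h <;> rw [h]
      · exact ⟨_, rfl⟩
      · exact ⟨_, rfl⟩
  have onc : ∀ z ∈ P.S, P.col z = W.tB1 ∨ P.col z = W.tB0 → ∃ i ≤ k, z = P.e^[i] v := by
    intro z z1 z2
    by_contra hn
    push Not at hn
    refine xchain_empty hal good (Finset.mem_filter.2 ⟨z1, z2, hn⟩) ?_
    rcases z2 with h | h <;> rw [h] <;> rfl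
  have cases5 : ∀ i ≤ k, (i = 0 ∧ P.col (P.e^[i] v) = tSW) ∨
      (1 ≤ i ∧ i < j ∧ P.col (P.e^[i] v) = W.tB1) ∨ (i = j ∧ P.col (P.e^[i] v) = W.tX) ∨
      (j < i ∧ i < k ∧ P.col (P.e^[i] v) = W.tB0) ∨ (i = k ∧ P.col (P.e^[i] v) = tSE) := by
    intro i hi
    rcases Nat.eq_zero_or_pos i with a | a
    · subst a; exact Or.inl ⟨rfl, hc⟩
    rcases lt_trichotomy i j with b | b | b
    · exact Or.inr (Or.inl ⟨a, b, c1 i a b⟩)
    · subst b; exact Or.inr (Or.inr (Or.inl ⟨rfl, cX⟩))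
    rcases lt_or_eq_of_le hi with c | c
    · exact Or.inr (Or.inr (Or.inr (Or.inl ⟨b, c, c0 i b c⟩)))
    · subst c; exact Or.inr (Or.inr (Or.inr (Or.inr ⟨rfl, cS⟩)))
  have hm : m = j - 1 := by
    rw [← h1, ← Nat.card_Ico 1 j, ← Finset.card_image_of_injOn (f := fun i => P.e^[i] v)
      fun a ha b hb h => inj a (by have := Finset.mem_Ico.1 ha; omega) b
        (by have := Finset.mem_Ico.1 hb; omega) h]
    congr 1
    ext z
    simp only [Finset.mem_filter, Finset.mem_image, Finset.mem_Ico]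
    constructor
    · rintro ⟨z1, z2⟩
      obtain ⟨i, hi, rfl⟩ := onc z z1 (Or.inl z2)
      rcases cases5 i hi with ⟨-, h⟩ | ⟨a, b, -⟩ | ⟨-, h⟩ | ⟨-, -, h⟩ | ⟨-, h⟩
      · rw [z2] at h; simp [WS.tB1, tSW, spc, dat] at h
      · exact ⟨i, ⟨a, b⟩, rfl⟩
      · rw [z2] at h; simp [WS.tB1, WS.tX, spc] at h
      · rw [z2] at h; simp [WS.tB1, WS.tB0, spc] at h
      · rw [z2] at h; simp [WS.tB1, tSE, spc] at h
    · rintro ⟨i, ⟨a, b⟩, rfl⟩
      exact ⟨k3 i (by omega), c1 i a b⟩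
  have hr : r = k - j - 1 := by
    rw [← h3, ← Nat.card_Ioo j k, ← Finset.card_image_of_injOn (f := fun i => P.e^[i] v)
      fun a ha b hb h => inj a (by have := Finset.mem_Ioo.1 ha; omega) b
        (by have := Finset.mem_Ioo.1 hb; omega) h]
    congr 1
    ext z
    simp only [Finset.mem_filter, Finset.mem_image, Finset.mem_Ioo]
    constructor
    · rintro ⟨z1, z2⟩
      obtain ⟨i, hi, rfl⟩ := onc z z1 (Or.inr z2)
      rcases cases5 i hi with ⟨-, h⟩ | ⟨-, -, h⟩ | ⟨-, h⟩ | ⟨a, b, -⟩ | ⟨-, h⟩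
      · rw [z2] at h; simp [WS.tB0, tSW, spc] at h
      · rw [z2] at h; simp [WS.tB1, WS.tB0, spc] at h
      · rw [z2] at h; simp [WS.tB0, WS.tX, spc] at h
      · exact ⟨i, ⟨a, b⟩, rfl⟩
      · rw [z2] at h; simp [WS.tB0, tSE, spc] at h
    · rintro ⟨i, ⟨a, b⟩, rfl⟩
      exact ⟨k3 i (by omega), c0 i a b⟩
  refine ⟨v, fun i hi => ⟨k3 i (by omega), ?_⟩⟩
  rcases cases5 i (by omega) with ⟨a, h⟩ | ⟨a, b, h⟩ | ⟨a, h⟩ | ⟨a, b, h⟩ | ⟨a, h⟩
  · rw [if_pos a, h]
  · rw [if_neg (by omega), if_pos (by omega), h]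
  · rw [if_neg (by omega), if_neg (by omega), if_pos (by omega), h]
  · rw [if_neg (by omega), if_neg (by omega), if_neg (by omega), if_pos (by omega), h]
  · rw [if_neg (by omega), if_neg (by omega), if_neg (by omega), if_neg (by omega), h]

end Pool.Agent.P.MP_e40812_co
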