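import Pool.Agent.P.MP_e40812_co.Bridge
import Pool.Agent.P.MP_e40812_co.LoState
import Pool.Agent.Lib.PolyTime.Cook
import Pool.Agent.Lib.PolyTime.Rat

/-! Definitions for the simulation of tilings by degree sequences of triangulated spheres. -/

namespace Pool.Agent.P.MP_e40812_co

open Finset Pool.Agent.Lib.PolyTime
open scoped Classical

/-- The vertices of `K` with property `P` are perfectly matched along edges. -/
def Mt {ι : Type} [DecidableEq ι] (K : Finset ι) (G : Finset (Finset ι)) (P : ι → Prop) : Prop :=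
  ∃ μ : ι → ι, ∀ v ∈ K, P v → μ v ∈ K ∧ P (μ v) ∧ μ (μ v) = v ∧ Nb G v (μ v)

/-- The degrees after `n` levels of stacking; `u` are the final degrees of the old vertices. -/
noncomputable def dmul : ℕ → Multiset ℕ → Multiset ℕ
  | 0, u => u
  | n + 1, u => dmul n (u + Multiset.replicate (2 * u.card - 4) (3 * 2 ^ n) +
      Multiset.replicate (u.countP (fun x => x.testBit n = true) / 2) (4 * 2 ^ n))

/-- The multiset of face sizes of a convex polyhedron. -/
def Rz (s : Multiset ℕ) : Prop :=
  ∃ P, IsPolyhedron P ∧ ∀ i, faceCount P (i + 3) = s.count (i + 3)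

/-- The list `p_3, p_4, ...` is realisable. -/
def RzL (p : List ℕ) : Prop := ∃ P, IsPolyhedron P ∧ ∀ i, faceCount P (i + 3) = p.getD i 0

/-- The equation of simple polyhedra. -/
def Eu (p : List ℕ) : Prop :=
  ∑ i ∈ Finset.range p.length, (6 - (i + 3 : ℤ)) * (p.getD i 0 : ℕ) = 12

section typed

variable {X Y : Type} [Fintype Y] (d : X → ℕ) (b : X → Finset Y)

/-- The final degree of a vertex of type `x`: degree `d x` on top, layers `b x` as binary digits. -/
noncomputable def vl (x : X) : ℕ :=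
  2 ^ Fintype.card Y * d x + ∑ l ∈ b x, 2 ^ (Fintype.equivFin Y l : ℕ)

/-- The multiset of all degrees. -/
noncomputable def dm (u : Multiset X) : Multiset ℕ := dmul (Fintype.card Y) (u.map (vl d b))

/-- The numerical conditions on the types. -/
def OK (u : Multiset X) : Prop :=
  (∀ x ∈ u, 3 ≤ d x) ∧ 4 ≤ u.card ∧ (u.map d).sum + 12 = 6 * u.card ∧
    ∀ l, Even (u.countP fun x => l ∈ b x)

/-- The vertices carry the types `u`, with the right degrees and a matching in every layer. -/
def Top {ι : Type} [DecidableEq ι] (K : Finset ι) (G : Finset (Finset ι)) (u : Multiset X) : Prop :=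
  ∃ ty : ι → X, K.val.map ty = u ∧ (∀ v ∈ K, deg G v = d (ty v)) ∧
    ∀ l, Mt K G fun v => l ∈ b (ty v)

end typed

/-- Colours of the east, north, west and south sides of a tile. -/
abbrev Q (C : Type) : Type := C × C × C × C

/-- The tile with four sides of colour `c`. -/
def q4 {C : Type} (c : C) : Q C := (c, c, c, c)

/-- Layers: a class and a sector, or a class, a direction and a colour. -/
abbrev Ly (C : Type) : Type := (ZMod 7 × Fin 6) ⊕ (ZMod 7 × Bool × C)

/-- Types of base vertices: degree, class, sectors with lattice faces, tile. -/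
abbrev BT (C : Type) : Type := Fin 7 × ZMod 7 × Finset (Fin 6) × Q C

/-- Types of faces: junk, `{x, x + 1, x + 3}` (`false`) or `{x, x + 2, x + 3}` (`true`). -/
abbrev FT : Type := Option (ZMod 7 × Bool)

/-- The layers of a base vertex. -/
def hasA {C : Type} (bl : C) (a : BT C) : Ly C → Prop
  | .inl (γ, k) => γ = a.2.1 ∧ k ∈ a.2.2.1
  | .inr (γ, false, c) => c ≠ bl ∧
      ((γ = a.2.1 ∧ a.2.2.2.1 = c) ∨ (γ + 1 = a.2.1 ∧ a.2.2.2.2.2.1 = c))
  | .inr (γ, true, c) => c ≠ bl ∧
      ((γ = a.2.1 ∧ a.2.2.2.2.1 = c) ∨ (γ + 3 = a.2.1 ∧ a.2.2.2.2.2.2 = c))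

/-- The layers of a face. -/
def hasB {C : Type} : FT → Ly C → Prop
  | some (x, false), .inl (γ, k) => (γ = x ∧ k = 0) ∨ (γ = x + 1 ∧ k = 2) ∨ (γ = x + 3 ∧ k = 4)
  | some (x, true), .inl (γ, k) => (γ = x ∧ k = 1) ∨ (γ = x + 2 ∧ k = 5) ∨ (γ = x + 3 ∧ k = 3)
  | _, _ => False

/-- Degrees after stacking every face once. -/
def dX {C : Type} : BT C ⊕ FT → ℕ
  | .inl a => 2 * (a.1 : ℕ)
  | .inr _ => 3

/-- Layers of base vertices and faces. -/
noncomputable def bX {C : Type} [Fintype C] (bl : C) : BT C ⊕ FT → Finset (Ly C)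
  | .inl a => univ.filter (hasA bl a)
  | .inr f => univ.filter (hasB f)

/-- Base vertices and faces together. -/
def uX {C : Type} (A : Multiset (BT C)) (B : Multiset FT) : Multiset (BT C ⊕ FT) :=
  A.map Sum.inl + B.map Sum.inr

/-- The numerical conditions on base vertices and faces. -/
def OK2 {C : Type} (bl : C) (A : Multiset (BT C)) (B : Multiset FT) : Prop :=
  (∀ a ∈ A, 3 ≤ (a.1 : ℕ) ∧ (a.2.2.2 ≠ q4 bl → a.1 = 6 ∧ a.2.2.1 = univ)) ∧ 4 ≤ A.card ∧
    B.card + 4 = 2 * A.card ∧ ∀ l : ZMod 7 × Fin 6,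
      A.countP (fun a => hasA bl a (.inl l)) = B.countP fun f => hasB (C := C) f (.inl l)

/-- A finite piece of a grid of tiles with matching colours. -/
structure PG (ι C : Type) (bl : C) where
  /-- the tiles that are not blank -/
  S : Finset ι
  /-- colours -/
  col : ι → Q C
  /-- east -/
  e : ι → ι
  /-- north -/
  n : ι → ι
  /-- west -/
  w : ι → ι
  /-- south -/
  s : ι → ι
  he : ∀ v ∈ S, (col v).1 ≠ bl → e v ∈ S ∧ (col (e v)).2.2.1 = (col v).1 ∧ w (e v) = v
  hn : ∀ v ∈ S, (col v).2.1 ≠ bl → n v ∈ S ∧ (col (n v)).2.2.2 = (col v).2.1 ∧ s (n v) = v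
  comm : ∀ v ∈ S, e v ∈ S → n v ∈ S → n (e v) = e (n v)

/-- A tiling of the spiral of circumference `c`, blank outside `[0, len)`. -/
def Val {C : Type} (bl : C) (c len : ℕ) (g : ℤ → Q C) : Prop :=
  (∀ n, (g n).1 = (g (n + 1)).2.2.1) ∧ (∀ n, (g n).2.1 = (g (n + c)).2.2.2) ∧
    ∀ n, (n < 0 ∨ (len : ℤ) ≤ n) → g n = q4 bl

/-- The tiles of a tiling of the spiral with their classes. -/
def tl {C : Type} (len : ℕ) (g : ℤ → Q C) : Multiset (ZMod 7 × Q C) :=
  (Multiset.range len).map fun n : ℕ => ((n : ZMod 7), g n)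

/-- A tiling of the spiral whose tiles that are not blank form `μ`. -/
def Sp {C : Type} (bl : C) (c len : ℕ) (μ : Multiset (ZMod 7 × Q C)) : Prop :=
  ∃ g, Val bl c len g ∧ (tl len g).filter (fun p => p.2 ≠ q4 bl) = μ

/-- Blank tiles are added until every class has `k` tiles. -/
noncomputable def fill {C : Type} (bl : C) (k : ℕ) (μ : Multiset (ZMod 7 × Q C)) :
    Multiset (ZMod 7 × Q C) :=
  μ + ∑ β : ZMod 7, Multiset.replicate (k - μ.countP fun p => p.1 = β) (β, q4 bl)

/-- Degrees on the tube with `M` vertices and circumference `2 s + 1`. -/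
def dg (s M v : ℕ) : ℕ :=
  if v = 0 then 3 else if v = s then 4 else if v = s + 1 then 5 else
    if v + 1 = M then 4 else if v + 2 = M then 5 else 6

/-- Types of the first ring. -/
def botT {C : Type} (bl : C) (s v : ℕ) : BT C :=
  (if v = 0 then 3 else if v = s then 4 else if v = s + 1 then 5 else 6, (v : ZMod 7) + 4,
    if v = 0 then {0, 1} else if v = 2 * s then {0, 1, 2, 5} else {0, 1, 2}, q4 bl)

/-- Types of the last ring. -/
def topT {C : Type} (bl : C) (s len i : ℕ) : BT C :=
  (if i = 2 * s then 4 else if i + 1 = 2 * s then 5 else 6, ((len + i : ℕ) : ZMod 7),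
    if i = 0 then {2, 3, 4, 5} else if i = 2 * s then {3, 4} else {3, 4, 5}, q4 bl)

/-- The base vertices of the tube. -/
def exA {C : Type} (bl : C) (s len : ℕ) (T : Multiset (ZMod 7 × Q C)) : Multiset (BT C) :=
  (Multiset.range (2 * s + 1)).map (botT bl s) + T.map (fun p => (6, p.1, univ, p.2)) +
    (Multiset.range (2 * s + 1)).map (topT bl s len) +
    Multiset.replicate (s - 1) (6, 0, ∅, q4 bl) + {(3, 0, ∅, q4 bl)}

/-- The faces of the tube. -/
def exB (s len : ℕ) : Multiset FT :=
  (Multiset.range (2 * s + 1 + len)).map (fun n : ℕ => some ((n : ZMod 7) + 4, false)) +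
    (Multiset.range (2 * s + 1 + len)).map (fun n : ℕ => some ((n : ZMod 7) + 4, true)) +
    Multiset.replicate (6 * s - 2) none

/-- The face in sector `k` of the vertex `v` of the tube has smallest vertex `v - off s k`. -/
def off (s : ℕ) : Fin 6 → ℕ := ![0, 0, 1, 2 * s + 1, 2 * s + 1, 2 * s]

/-- The six directions. -/
def dl : Fin 6 → ZMod 7 := ![1, 3, 2, 6, 4, 5]

/-- A set of tiles with boundary colours. -/
structure WS (D : Type) where
  /-- the tiles -/
  τ : Finset (Q D)
  /-- left -/
  L : D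
  /-- right -/
  R : D
  /-- bottom, first part -/
  B1 : D
  /-- bottom, marker -/
  B2 : D
  /-- bottom, last part -/
  B0 : D
  /-- top -/
  Tp : D

/-- The colours along the bottom side. -/
def WS.bot {D : Type} (W : WS D) (m i : ℕ) : D :=
  if i < m then W.B1 else if i = m then W.B2 else W.B0

/-- `h i j` is the colour left of the cell `(i, j)`, `v i j` the colour below it. -/
def WS.Til {D : Type} (W : WS D) (m a : ℕ) (h v : ℕ → ℕ → D) : Prop :=
  (∀ i < a, ∀ j < a, (h (i + 1) j, v i (j + 1), h i j, v i j) ∈ W.τ) ∧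
    (∀ j < a, h 0 j = W.L ∧ h a j = W.R) ∧ ∀ i < a, v i 0 = W.bot m i ∧ v i a = W.Tp

/-- Colours of the padded system: blank, data with one bit, six special colours. -/
abbrev PC (D : Type) : Type := Option ((D × Bool) ⊕ Fin 6)

/-- Data colours. -/
def dat {D : Type} (d : D) (b : Bool) : PC D := some (.inl (d, b))

/-- Special colours: `0`, `1` bottom frame, `2` left, `3` right, `4` top frame, `5` cap. -/
def spc {D : Type} (i : Fin 6) : PC D := some (.inr i)

section tiles

variable {D : Type}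

/-- A tile with the bits `x` (west), `y` (south), both raised if `f`. -/
def tok (t : Q D) (x y f : Bool) : Q (PC D) :=
  (dat t.1 (x || f), dat t.2.1 (y || f), dat t.2.2.1 (x && !f), dat t.2.2.2 (y && !f))

/-- The tokens. -/
noncomputable def WS.TK (W : WS D) : Finset (Q (PC D)) :=
  (W.τ ×ˢ (univ : Finset (Bool × Bool × Bool))).image fun p => tok p.1 p.2.1 p.2.2.1 p.2.2.2

/-- Absorber east of a token. -/
def aE (c : PC D) : Q (PC D) := (none, none, c, none)
/-- Absorber west of a token. -/
def aW (c : PC D) : Q (PC D) := (c, none, none, none)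
/-- Absorber north of a token. -/
def aN (c : PC D) : Q (PC D) := (spc 5, none, none, c)
/-- Absorber south of a token. -/
def aS (c : PC D) : Q (PC D) := (none, c, none, none)
/-- The tile east of a northern absorber. -/
def cap : Q (PC D) := (none, none, spc 5, none)
/-- South-west corner of the frame. -/
def tSW : Q (PC D) := (spc 0, spc 2, none, none)
/-- Bottom side, first part. -/
def WS.tB1 (W : WS D) : Q (PC D) := (spc 0, dat W.B1 false, spc 0, none)
/-- Bottom side, marker. -/
def WS.tX (W : WS D) : Q (PC D) := (spc 1, dat W.B2 false, spc 0, none)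
/-- Bottom side, last part. -/
def WS.tB0 (W : WS D) : Q (PC D) := (spc 1, dat W.B0 false, spc 1, none)
/-- South-east corner. -/
def tSE : Q (PC D) := (none, spc 3, spc 1, none)
/-- Left side. -/
def WS.tL (W : WS D) : Q (PC D) := (dat W.L false, spc 2, none, spc 2)
/-- Right side. -/
def WS.tR (W : WS D) : Q (PC D) := (none, spc 3, dat W.R true, spc 3)
/-- North-west corner. -/
def tNW : Q (PC D) := (spc 4, none, none, spc 2)
/-- Top side. -/
def WS.tT (W : WS D) : Q (PC D) := (spc 4, none, spc 4, dat W.Tp true)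
/-- North-east corner. -/
def tNE : Q (PC D) := (none, none, spc 4, spc 3)

/-- The tiles of the padded system. -/
def WS.Al (W : WS D) (q : Q (PC D)) : Prop :=
  q ∈ W.TK ∨ (∃ d b, q = aE (dat d b) ∨ q = aW (dat d b) ∨ q = aN (dat d b) ∨ q = aS (dat d b)) ∨
    q = cap ∨ q = tSW ∨ q = W.tB1 ∨ q = W.tX ∨ q = W.tB0 ∨ q = tSE ∨ q = W.tL ∨ q = W.tR ∨
    q = tNW ∨ q = W.tT ∨ q = tNE

/-- The bottom side of the frame starts at `v`. -/
def WS.Chain {ι : Type} (W : WS D) (P : PG ι (PC D) none) (m a : ℕ) (v : ι) : Prop :=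
  ∀ i ≤ a + 1, P.e^[i] v ∈ P.S ∧ P.col (P.e^[i] v) =
    if i = 0 then tSW else if i ≤ m then W.tB1 else if i = m + 1 then W.tX else
      if i ≤ a then W.tB0 else tSE

/-- The class of the point `(x, y)`. -/
def cl (x y : ℕ) : ZMod 7 := ((x + 3 * y : ℕ) : ZMod 7)

/-- The frame of the square. -/
def WS.frame (W : WS D) (m a : ℕ) : Multiset (ZMod 7 × Q (PC D)) :=
  {(cl 0 0, tSW)} + (Multiset.range m).map (fun i => (cl (i + 1) 0, W.tB1)) +
    {(cl (m + 1) 0, W.tX)} + (Multiset.range (a - m - 1)).map (fun i => (cl (m + 2 + i) 0, W.tB0)) +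
    {(cl (a + 1) 0, tSE)} + (Multiset.range a).map (fun j => (cl 0 (j + 1), W.tL)) +
    (Multiset.range a).map (fun j => (cl (a + 1) (j + 1), W.tR)) + {(cl 0 (a + 1), tNW)} +
    (Multiset.range a).map (fun i => (cl (i + 1) (a + 1), W.tT)) + {(cl (a + 1) (a + 1), tNE)}

/-- The token in the cell `(i, j)`; the bits are raised on the diagonal. -/
def cellT (h v : ℕ → ℕ → D) (i j : ℕ) : Q (PC D) :=
  (dat (h (i + 1) j) (decide (j < i + 1)), dat (v i (j + 1)) (decide (i < j + 1)),
    dat (h i j) (decide (j < i)), dat (v i j) (decide (i < j)))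

/-- The tokens inside the frame. -/
def act (a : ℕ) (h v : ℕ → ℕ → D) : Multiset (ZMod 7 × Q (PC D)) :=
  ∑ j ∈ range a, ∑ i ∈ range a, {(cl (i + 1) (j + 1), cellT h v i j)}

/-- The five tiles around an isolated token. -/
def ext (p : ZMod 7 × Q (PC D)) : Multiset (ZMod 7 × Q (PC D)) :=
  {(p.1 + 1, aE p.2.1), (p.1 - 1, aW p.2.2.2.1), (p.1 + 3, aN p.2.2.1), (p.1 - 3, aS p.2.2.2.2),
    (p.1 + 4, cap)}

/-- Two absorbers facing each other horizontally. -/
def hd (β : ZMod 7) (c : PC D) : Multiset (ZMod 7 × Q (PC D)) := {(β - 1, aW c), (β, aE c)}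

/-- Two absorbers facing each other vertically. -/
def vd (β : ZMod 7) (c : PC D) : Multiset (ZMod 7 × Q (PC D)) :=
  {(β - 3, aS c), (β, aN c), (β + 1, cap)}

/-- All tokens in all classes. -/
noncomputable def WS.all (W : WS D) : Multiset (ZMod 7 × Q (PC D)) := (univ ×ˢ W.TK).val

/-- The absorbers that belong to the boundary of the square. -/
def WS.bdry (W : WS D) (m a : ℕ) : Multiset (ZMod 7 × Q (PC D)) :=
  (Multiset.range a).map (fun j => (cl 1 (j + 1), aE (dat W.L false))) +
    (Multiset.range a).map (fun j => (cl a (j + 1), aW (dat W.R true))) +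
    (Multiset.range m).map (fun i => (cl (i + 1) 1, aN (dat W.B1 false))) +
    {(cl (m + 1) 1, aN (dat W.B2 false))} +
    (Multiset.range (a - m - 1)).map (fun i => (cl (m + 2 + i) 1, aN (dat W.B0 false))) +
    (Multiset.range a).map (fun i => (cl (i + 2) 1, cap)) +
    (Multiset.range a).map (fun i => (cl (i + 1) a, aS (dat W.Tp true)))

/-- The prescribed tiles; they do not depend on the tiling of the square. -/
noncomputable def WS.mu (W : WS D) (m a : ℕ) : Multiset (ZMod 7 × Q (PC D)) :=
  W.frame m a + (a * a) • W.all + (a * a) • W.all.bind ext + W.bdry m a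

/-- The number of blocks of seven turns of the spiral. -/
noncomputable def WS.nb (W : WS D) (a : ℕ) : ℕ :=
  (a + 2) + (a * a * W.all.card - a * a) + 2 * (a * (a + 1))

end tiles

/-- All multiplicities are computable in polynomial time. -/
def PM {α X : Type} [N487b59b3 α] (F : α → Multiset X) : Prop :=
  ∀ x, PT fun a => (F a).count x

/-- A realised disc `I` with boundary cycle `L`, closed by the cone with apex `o`. -/
structure DS (V : Finset ℕ) (I : Finset (Finset ℕ)) (o a : ℕ) (c : List ℕ) : Prop where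
  pre : Pre V (I ∪ tris o (a :: (c ++ [a])))
  geo : Geo V (I ∪ tris o (a :: (c ++ [a])))
  nodup : (o :: a :: c).Nodup
  len : 2 ≤ c.length
  out : ∀ t ∈ I, o ∉ t

end Pool.Agent.P.MP_e40812_co
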