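import Pool.Agent.P.MP_e40812_co.XPoly

/-! Delayed diagonalisation. -/

namespace Pool.Agent.P.MP_e40812_co

open Finset Pool.Agent.Lib.PolyTime N68a2faeb

/-- The parameters stored in a header. -/
def xdiag_par (H : List Bool) (i : ℕ) : ℕ := ((decCode H).headD []).getD i 0

/-- The two lengths that belong to a header. -/
def xdiag_len (H : List Bool) (j : Bool) (m : ℕ) : ℕ := pad (j :: H) (min (xdiag_par H j.toNat) m)

/-- The clocked verifier that belongs to a header. -/
def xdiag_acc (H : List Bool) (j : Bool) (m : ℕ) (w : List Bool) : Bool :=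
  decide (w.length ≤ xdiag_par H 2) &&
    (urun (decCode H).tail (N487b59b3.bitEncode (xdiag_len H j m, w)) m == [true])

/-- The diagonal problem, after reading the header. -/
def xdiag_V (G : List Bool) (y : List Bool) : Bool :=
  bif G.headD false then (allStr y.length).all fun w => !xdiag_acc G.tail false y.length w
  else xdiag_acc G.tail (decide (xdiag_par G.tail 3 = 1)) y.length ((blocks y).headD [])

/-- The diagonal problem. -/
def xdiag_U (y : List Bool) : Bool := xdiag_V ((blocks y.length.bits).headD []) y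

section

variable {α : Type} [N487b59b3 α]

@[fun_prop] theorem xdiag_pt_par {H : α → List Bool} {i : α → ℕ} (hH : PT H) (hi : PT i) :
    PT fun a => xdiag_par (H a) (i a) := by
  unfold xdiag_par
  fun_prop

@[fun_prop] theorem xdiag_pt_len {H : α → List Bool} {j : α → Bool} {m : α → ℕ} (hH : PT H)
    (hj : PT j) (hm : PT m) (hs : Small m) : PT fun a => xdiag_len (H a) (j a) (m a) := by
  unfold xdiag_len
  fun_prop

@[fun_prop] theorem xdiag_pt_acc {H w : α → List Bool} {j : α → Bool} {m : α → ℕ} (hH : PT H)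
    (hj : PT j) (hm : PT m) (hs : Small m) (hw : PT w) :
    PT fun a => xdiag_acc (H a) (j a) (m a) (w a) := by
  unfold xdiag_acc
  fun_prop

end

theorem xdiag_pt : PT xdiag_U := by
  unfold xdiag_U xdiag_V
  fun_prop

theorem xdiag_key {W : ℕ × List Bool → Bool} (hW : PT W) (P : Polynomial ℕ)
    (hP : ∀ m w, W (m, w) = true → w.length ≤ P.eval (sz m)) (j : Bool) :
    ∃ m0 m1 : ℕ, ((∃ y : List Bool, y.length = m0 ∧ xdiag_U y = true) ↔
      ∃ w, W (bif j then m1 else m0, w) = true) ∧
      ((∃ y : List Bool, y.length = m1 ∧ xdiag_U y = true) ↔ ¬ ∃ w, W (m0, w) = true) := by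
  obtain ⟨e, q, he⟩ := exists_code hW.isPolyTime
  obtain ⟨S0, hS0⟩ : ∃ S0 : Polynomial ℕ, ∀ t, S0.eval t = 25 * t + 30 + 2 * sz e :=
    ⟨Polynomial.C 25 * Polynomial.X + Polynomial.C (30 + 2 * sz e), fun t => by
      simp only [Polynomial.eval_add, Polynomial.eval_mul, Polynomial.eval_C, Polynomial.eval_X]
      omega⟩
  obtain ⟨L1, hL1⟩ : ∃ L1 : Polynomial ℕ, ∀ t, L1.eval t = P.eval (S0.eval t) + 1 + t :=
    ⟨P.comp S0 + 1 + Polynomial.X, fun t => by simp⟩
  obtain ⟨L2, hL2⟩ : ∃ L2 : Polynomial ℕ, ∀ t, L2.eval t = P.eval (S0.eval t + L1.eval t) :=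
    ⟨P.comp (S0 + L1), fun t => by simp⟩
  obtain ⟨Q, hQ⟩ : ∃ Q : Polynomial ℕ, ∀ t, Q.eval t = L1.eval t + 2 * L2.eval t + 2 +
      q.eval (2 * (S0.eval t + L1.eval t) + 1 + 3 * L2.eval t) :=
    ⟨L1 + Polynomial.C 2 * L2 + Polynomial.C 2 +
      q.comp (Polynomial.C 2 * (S0 + L1) + 1 + Polynomial.C 3 * L2), fun t => by
      simp only [Polynomial.eval_add, Polynomial.eval_mul, Polynomial.eval_C, Polynomial.eval_comp,
        Polynomial.eval_one]⟩
  obtain ⟨t, ht⟩ := poly_le_two_pow Q
  have h0 := ht t le_rfl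
  rw [hQ] at h0
  have e0 := hS0 t
  have e1 := hL1 t
  have e2 := hL2 t
  generalize S0.eval t = s0 at h0 e0 e1 e2
  generalize L1.eval t = l1 at h0 e1 e2
  generalize L2.eval t = l2 at h0 e2
  obtain ⟨H, hH⟩ : ∃ H, H = N487b59b3.bitEncode ([t, l1, l2, j.toNat] :: e) := ⟨_, rfl⟩
  have hd : decCode H = [t, l1, l2, j.toNat] :: e := by rw [hH, decCode_enc]
  have t0 : t < 2 ^ t := Nat.lt_two_pow_self
  have hlen : H.length ≤ 12 * t + 13 + sz e := by
    have a0 : sz t ≤ t := sz_le_self t
    have a1 : sz l1 ≤ t := sz_le_iff.2 (by omega)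
    have a2 : sz l2 ≤ t := sz_le_iff.2 (by omega)
    have a3 : sz j.toNat ≤ 1 := (sz_le_self _).trans (Bool.toNat_le j)
    have : H.length = sz ([t, l1, l2, j.toNat] :: e) := by rw [hH]; rfl
    simp only [sz_cons, sz_nil] at this
    omega
  obtain ⟨M, hM⟩ : ∃ M : Bool → ℕ, ∀ i, M i = pad (i :: H) (bif i then l1 else t) := ⟨_, fun _ => rfl⟩
  have hge : ∀ i, 2 ^ t ≤ M i := fun i => by
    rw [hM]
    refine le_trans (Nat.pow_le_pow_right (by omega) ?_) (le_pad _ _)
    cases i <;> simp only [cond_true, cond_false] <;> omega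
  have hsz0 : sz (M false) ≤ s0 := by
    rw [hM, sz_pad, List.length_cons, cond_false]
    omega
  have hsz : ∀ i, sz (M i) ≤ s0 + l1 := fun i => by
    cases i
    · omega
    · rw [hM, sz_pad, List.length_cons, cond_true]
      omega
  have hl : ∀ i m, 2 ^ t ≤ m → xdiag_len H i m = M i := fun i m hm => by
    rw [hM, xdiag_len, xdiag_par, hd]
    cases i
    · exact congrArg _ (min_eq_left (show t ≤ m by omega))
    · exact congrArg _ (min_eq_left (show l1 ≤ m by omega))
  have hw2 : ∀ i w, W (M i, w) = true → w.length ≤ l2 := fun i w h =>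
    (hP _ _ h).trans (e2 ▸ eval_mono P (hsz i))
  have hacc : ∀ i m w, 2 ^ t ≤ m → (xdiag_acc H i m w = true ↔ W (M i, w) = true) := by
    intro i m w hm
    have p2 : xdiag_par H 2 = l2 := by rw [xdiag_par, hd]; rfl
    have run : w.length ≤ l2 →
        urun e (N487b59b3.bitEncode (M i, w)) m = [W (M i, w)] := fun h => by
      refine he (M i, w) m (le_trans (eval_mono q ?_) (le_trans (Nat.le_add_left _ _) (h0.trans hm)))
      have := hsz i
      rw [sz_pair, sz_str]
      omega
    rw [xdiag_acc, p2, hl i m hm, hd, List.tail_cons, Bool.and_eq_true, decide_eq_true_eq, beq_iff_eq]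
    constructor
    · rintro ⟨h1, h2⟩
      rw [run h1] at h2
      simpa using h2
    · intro h
      exact ⟨hw2 i w h, by rw [run (hw2 i w h), h]⟩
  have hU : ∀ i (y : List Bool), y.length = M i → xdiag_U y = xdiag_V (i :: H) y := fun i y h => by
    rw [xdiag_U, h, hM, head_pad]
  have p3 : decide (xdiag_par H 3 = 1) = j := by
    rw [xdiag_par, hd]
    cases j <;> rfl
  have hj : (bif j then M true else M false) = M j := by cases j <;> rfl
  refine ⟨M false, M true, ?_, ?_⟩
  · have k : ∀ y : List Bool, y.length = M false →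
        (xdiag_U y = true ↔ W (M j, (blocks y).headD []) = true) := fun y h => by
      rw [hU false y h, xdiag_V, List.headD_cons, cond_false, List.tail_cons, p3,
        hacc _ _ _ (h ▸ hge false)]
    rw [hj]
    constructor
    · rintro ⟨y, h1, h2⟩
      exact ⟨_, (k y h1).1 h2⟩
    · rintro ⟨w, hw⟩
      have h1 := hw2 j w hw
      have h2 := hge false
      have h3 : (N487b59b3.delimit w ++ List.replicate (M false - (2 * w.length + 1)) false).length =
          M false := by
        simp
        omega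
      refine ⟨_, h3, (k _ h3).2 ?_⟩
      rwa [headD_blocks]
  · have k : ∀ y : List Bool, y.length = M true →
        (xdiag_U y = true ↔ ¬ ∃ w, W (M false, w) = true) := fun y h => by
      rw [hU true y h, xdiag_V, List.headD_cons, cond_true, List.tail_cons, List.all_eq_true, h]
      constructor
      · rintro h1 ⟨w, hw⟩
        have h2 := (hP _ _ hw).trans (eval_mono P hsz0)
        have h3 : 2 ^ (w.length + 1) ≤ M true := by
          rw [hM]
          exact le_trans (Nat.pow_le_pow_right (by omega) (show _ ≤ l1 by omega)) (le_pad _ _)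
        have h4 := h1 w (mem_allStr h3)
        rw [(hacc _ _ _ (hge true)).2 hw] at h4
        exact absurd h4 (by simp)
      · intro h1 w _
        rw [Bool.not_eq_true', Bool.eq_false_iff]
        exact fun h2 => h1 ⟨w, (hacc _ _ _ (hge true)).1 h2⟩
    constructor
    · rintro ⟨y, h1, h2⟩
      exact (k y h1).1 h2
    · intro h
      exact ⟨List.replicate (M true) false, by simp, (k _ (by simp)).2 h⟩

theorem xdiag_np {g : ℕ → List ℕ} (hg : PT g) {L : DecisionProblem} (hL : L ∈ NP) :
    ∃ (W : ℕ × List Bool → Bool) (P : Polynomial ℕ), PT W ∧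
      (∀ m w, W (m, w) = true → w.length ≤ P.eval (sz m)) ∧
      ∀ m, L (N487b59b3.bitEncode (g m)) = true ↔ ∃ w, W (m, w) = true := by
  obtain ⟨p, R, hR, h⟩ := mem_NP_iff.1 hL
  obtain ⟨r, hr⟩ := hg.size
  refine ⟨fun a => decide (a.2.length ≤ p.eval (sz (g a.1))) &&
    R (N487b59b3.bitEncode (g a.1), a.2), p.comp r, by fun_prop, fun m w hw => ?_, fun m => ?_⟩
  · simp only [Bool.and_eq_true, decide_eq_true_eq] at hw
    rw [Polynomial.eval_comp]
    exact hw.1.trans (eval_mono p (hr m))
  · simp only [Bool.and_eq_true, decide_eq_true_eq]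
    exact h _

/-- A unary problem that escapes `NP` and `coNP` along every polynomial-time map. -/
theorem exists_diagonal : ∃ U : List Bool → Bool, PT U ∧ ∀ g : ℕ → List ℕ, PT g →
    ∀ L : DecisionProblem, L ∈ NP ∨ L ∈ coNP →
      ¬ ∀ m, L (N487b59b3.bitEncode (g m)) = true ↔
        ∃ y : List Bool, y.length = m ∧ U y = true := by
  refine ⟨xdiag_U, xdiag_pt, fun g hg L hL h => ?_⟩
  rcases hL with hL | hL
  · obtain ⟨W, P, h1, h2, h3⟩ := xdiag_np hg hL
    obtain ⟨m0, m1, k1, k2⟩ := xdiag_key h1 P h2 true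
    rw [cond_true, ← h, ← h3] at k1
    rw [← h, ← h3] at k2
    tauto
  · obtain ⟨W, P, h1, h2, h3⟩ := xdiag_np hg (show Lᶜ ∈ NP from hL)
    obtain ⟨m0, m1, k1, -⟩ := xdiag_key h1 P h2 false
    rw [cond_false, ← h, ← h3] at k1
    simp at k1

end Pool.Agent.P.MP_e40812_co
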