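import Pool.Agent.P.MP_e40812_co.XPM

/-! The explicit multisets are computable in polynomial time. -/

namespace Pool.Agent.P.MP_e40812_co

open Finset Pool.Agent.Lib.PolyTime
open scoped Classical

variable {α C D : Type} [N487b59b3 α]

theorem xexpl_congr {X : Type} {F G : α → Multiset X} (h : PM F) (e : ∀ a, G a = F a) : PM G := by
  rwa [funext e]

theorem xexpl_zero {X : Type} (f : α → ℕ → X) : PM fun a => (Multiset.range 0).map (f a) :=
  xexpl_congr (PM.const 0) fun _ => by simp

theorem xexpl_step {X : Type} {c w d : α → ℕ} {f : α → ℕ → X}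
    (h : PM fun a => (Multiset.range (c a)).map (f a)) (hc : PT c) (hw : PT w) (hd : PT d)
    (hle : ∀ a, c a ≤ w a) (g : ZMod 7 → X)
    (e : ∀ a i, c a ≤ i → i < w a → f a i = g ((d a + i : ℕ) : ZMod 7)) :
    PM fun a => (Multiset.range (w a)).map (f a) := by
  refine xexpl_congr (h.add (PM.range7 (hw.sub hc) (hd.add hc) 1 g)) fun a => ?_
  obtain ⟨z, hz⟩ := Nat.exists_eq_add_of_le (hle a)
  rw [hz, Multiset.range_add, Multiset.map_add, Multiset.map_map, Nat.add_sub_cancel_left]
  refine congrArg _ (Multiset.map_congr rfl fun i hi => ?_)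
  have := Multiset.mem_range.1 hi
  rw [Function.comp_apply, e a _ (by omega) (by omega), one_mul, add_assoc]

theorem xexpl_countP {X : Type} [Fintype X] {F : α → Multiset X} (h : PM F) (p : X → Prop)
    {inst : DecidablePred p} : PT fun a => @Multiset.countP X p inst (F a) := by
  obtain rfl : inst = fun x => Classical.propDecidable (p x) := Subsingleton.elim _ _
  exact h.countP p

theorem xexpl_sum {X ι : Type} (s : Finset ι) {F : ι → α → Multiset X} (h : ∀ i, PM (F i)) :
    PM fun a => ∑ i ∈ s, F i a := by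
  induction s using Finset.induction_on with
  | empty => exact xexpl_congr (PM.const 0) fun _ => by simp
  | insert i s hi ih => exact xexpl_congr ((h i).add ih) fun a => sum_insert hi

theorem xexpl_forall {ι : Type} (s : Finset ι) {p : ι → α → Prop} (h : ∀ i, PTP (p i)) :
    PTP fun a => ∀ i ∈ s, p i a := by
  induction s using Finset.induction_on with
  | empty => exact ⟨fun _ => true, PT.const _, fun _ => by simp⟩
  | insert i s _ ih => exact ((h i).and ih).congr fun a => by simp

theorem xexpl_bot (bl : C) {s : α → ℕ} (hs : PT s) (h2 : ∀ a, 2 ≤ s a) :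
    PM fun a => (Multiset.range (2 * s a + 1)).map (botT bl (s a)) := by
  have st : ∀ (x : Fin 7) (S : Finset (Fin 6)) (c w : α → ℕ),
      (PM fun a => (Multiset.range (c a)).map (botT bl (s a))) → PT c → PT w → (∀ a, c a ≤ w a) →
      (∀ a i, 2 ≤ s a → c a ≤ i → i < w a →
      (if i = 0 then 3 else if i = s a then 4 else if i = s a + 1 then 5 else 6 : Fin 7) = x ∧
      (if i = 0 then {0, 1} else if i = 2 * s a then {0, 1, 2, 5} else {0, 1, 2} :
        Finset (Fin 6)) = S) → PM fun a => (Multiset.range (w a)).map (botT bl (s a)) := by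
    intro x S c w h hc hw hle e
    refine xexpl_step h hc hw (PT.const 0) hle (fun z => (x, z + 4, S, q4 bl)) fun a i k k' => ?_
    rw [botT, (e a i (h2 a) k k').1, (e a i (h2 a) k k').2, zero_add]
  have p1 := st 3 {0, 1} _ (fun _ => 1) (xexpl_zero _) (PT.const _) (PT.const _)
    (fun a => by omega) fun a i k h h' => ⟨if_pos (by omega), if_pos (by omega)⟩
  have p2 := st 6 {0, 1, 2} _ s p1 (PT.const _) hs (fun a => by have := h2 a; omega)
    fun a i k h h' => ⟨by rw [if_neg (by omega), if_neg (by omega), if_neg (by omega)],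
      by rw [if_neg (by omega), if_neg (by omega)]⟩
  have p3 := st 4 {0, 1, 2} _ (fun a => s a + 1) p2 hs (by fun_prop) (fun a => by omega)
    fun a i k h h' => ⟨by rw [if_neg (by omega), if_pos (by omega)],
      by rw [if_neg (by omega), if_neg (by omega)]⟩
  have p4 := st 5 {0, 1, 2} _ (fun a => s a + 2) p3 (by fun_prop) (by fun_prop) (fun a => by omega)
    fun a i k h h' => ⟨by rw [if_neg (by omega), if_neg (by omega), if_pos (by omega)],
      by rw [if_neg (by omega), if_neg (by omega)]⟩
  have p5 := st 6 {0, 1, 2} _ (fun a => 2 * s a) p4 (by fun_prop) (by fun_prop)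
    (fun a => by have := h2 a; omega)
    fun a i k h h' => ⟨by rw [if_neg (by omega), if_neg (by omega), if_neg (by omega)],
      by rw [if_neg (by omega), if_neg (by omega)]⟩
  exact st 6 {0, 1, 2, 5} _ (fun a => 2 * s a + 1) p5 (by fun_prop) (by fun_prop)
    (fun a => by omega)
    fun a i k h h' => ⟨by rw [if_neg (by omega), if_neg (by omega), if_neg (by omega)],
      by rw [if_neg (by omega), if_pos (by omega)]⟩

theorem xexpl_top (bl : C) {s len : α → ℕ} (hs : PT s) (h2 : ∀ a, 2 ≤ s a) (hl : PT len) :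
    PM fun a => (Multiset.range (2 * s a + 1)).map (topT bl (s a) (len a)) := by
  have st : ∀ (x : Fin 7) (S : Finset (Fin 6)) (c w : α → ℕ),
      (PM fun a => (Multiset.range (c a)).map (topT bl (s a) (len a))) → PT c → PT w →
      (∀ a, c a ≤ w a) → (∀ a i, 2 ≤ s a → c a ≤ i → i < w a →
      (if i = 2 * s a then 4 else if i + 1 = 2 * s a then 5 else 6 : Fin 7) = x ∧
      (if i = 0 then {2, 3, 4, 5} else if i = 2 * s a then {3, 4} else {3, 4, 5} :
        Finset (Fin 6)) = S) → PM fun a => (Multiset.range (w a)).map (topT bl (s a) (len a)) := by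
    intro x S c w h hc hw hle e
    refine xexpl_step h hc hw hl hle (fun z => (x, z, S, q4 bl)) fun a i k k' => ?_
    rw [topT, (e a i (h2 a) k k').1, (e a i (h2 a) k k').2]
  have p1 := st 6 {2, 3, 4, 5} _ (fun _ => 1) (xexpl_zero _) (PT.const _) (PT.const _)
    (fun a => by omega) fun a i k h h' => ⟨by rw [if_neg (by omega), if_neg (by omega)],
      if_pos (by omega)⟩
  have p2 := st 6 {3, 4, 5} _ (fun a => 2 * s a - 1) p1 (PT.const _) (by fun_prop)
    (fun a => by have := h2 a; omega)
    fun a i k h h' => ⟨by rw [if_neg (by omega), if_neg (by omega)],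
      by rw [if_neg (by omega), if_neg (by omega)]⟩
  have p3 := st 5 {3, 4, 5} _ (fun a => 2 * s a) p2 (by fun_prop) (by fun_prop) (fun a => by omega)
    fun a i k h h' => ⟨by rw [if_neg (by omega), if_pos (by omega)],
      by rw [if_neg (by omega), if_neg (by omega)]⟩
  exact st 4 {3, 4} _ (fun a => 2 * s a + 1) p3 (by fun_prop) (by fun_prop) (fun a => by omega)
    fun a i k h h' => ⟨if_pos (by omega), by rw [if_neg (by omega), if_pos (by omega)]⟩

theorem pm_exA [Fintype C] (bl : C) {s len : α → ℕ} {T : α → Multiset (ZMod 7 × Q C)} (hs : PT s)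
    (h2 : ∀ a, 2 ≤ s a) (hl : PT len) (hT : PM T) : PM fun a => exA bl (s a) (len a) (T a) :=
  ((((xexpl_bot bl hs h2).add (hT.map _)).add (xexpl_top bl hs h2 hl)).add
    (PM.replicate (by fun_prop) _)).add (PM.const _)

theorem pm_exB {s len : α → ℕ} (hs : PT s) (hl : PT len) : PM fun a => exB (s a) (len a) := by
  have k : ∀ b : Bool, PM fun a => (Multiset.range (2 * s a + 1 + len a)).map
      fun n : ℕ => (some ((n : ZMod 7) + 4, b) : FT) := fun b =>
    xexpl_step (xexpl_zero _) (PT.const _) (by fun_prop) (PT.const 0) (fun a => Nat.zero_le _)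
      (fun z => some (z + 4, b)) fun a i _ _ => by rw [zero_add]
  exact ((k false).add (k true)).add (PM.replicate (by fun_prop) _)

theorem pm_uX [Fintype C] {A : α → Multiset (BT C)} {B : α → Multiset FT} (hA : PM A)
    (hB : PM B) : PM fun a => uX (A a) (B a) :=
  (hA.map _).add (hB.map _)

theorem ptp_ok2 [Fintype C] (bl : C) {A : α → Multiset (BT C)} {B : α → Multiset FT} (hA : PM A)
    (hB : PM B) : PTP fun a => OK2 bl (A a) (B a) := by
  have cA := hA.card
  have cB := hB.card
  refine (hA.forall_mem _).and ((PTP.le (PT.const _) cA).and ((PTP.eq (cB.add (PT.const _))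
    ((PT.const _).mul cA)).and ?_))
  exact (xexpl_forall univ fun l : ZMod 7 × Fin 6 => PTP.eq
    (xexpl_countP hA fun a => hasA bl a (.inl l))
    (xexpl_countP hB fun f => hasB (C := C) f (.inl l))).congr fun a =>
      ⟨fun h l _ => h l, fun h l => h l (mem_univ l)⟩

theorem pm_fill [Fintype C] (bl : C) {k : α → ℕ} {μ : α → Multiset (ZMod 7 × Q C)} (hk : PT k)
    (h : PM μ) : PM fun a => fill bl (k a) (μ a) :=
  h.add (xexpl_sum univ fun β => PM.replicate (hk.sub (xexpl_countP h fun p => p.1 = β)) _)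

theorem xexpl_rng {Y : Type} {y : α → ℕ} (hy : PT y) (c : α → ℕ) (k : ℕ) (hc : PT c) {t : Y}
    {u v : α → ℕ → ℕ} (e : ∀ a i, u a i + 3 * v a i = c a + k * i) :
    PM fun a => (Multiset.range (y a)).map fun i => (cl (u a i) (v a i), t) :=
  xexpl_congr (PM.range7 hy hc k fun z => (z, t)) fun a =>
    Multiset.map_congr rfl fun i _ => by rw [cl, e]

theorem xexpl_one {Y : Type} {u v : α → ℕ} (hu : PT u) (hv : PT v) {t : Y} :
    PM fun a => ({(cl (u a) (v a), t)} : Multiset (ZMod 7 × Y)) :=
  PM.single7 (c := fun a => u a + 3 * v a) (by fun_prop) fun z => (z, t)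

theorem xexpl_frame (W : WS D) {m n : α → ℕ} (hm : PT m) (hn : PT n) :
    PM fun a => W.frame (m a) (n a) :=
  (((((((((PM.const _).add
    (xexpl_rng hm (fun _ => 1) 1 (PT.const _) fun a i => by omega)).add
    (xexpl_one (by fun_prop) (PT.const _))).add
    (xexpl_rng (by fun_prop) (fun a => m a + 2) 1 (by fun_prop) fun a i => by omega)).add
    (xexpl_one (by fun_prop) (PT.const _))).add
    (xexpl_rng hn (fun _ => 3) 3 (PT.const _) fun a i => by omega)).add
    (xexpl_rng hn (fun a => n a + 4) 3 (by fun_prop) fun a i => by omega)).add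
    (xexpl_one (PT.const _) (by fun_prop))).add
    (xexpl_rng hn (fun a => 3 * n a + 4) 1 (by fun_prop) fun a i => by omega)).add
    (xexpl_one (by fun_prop) (by fun_prop))

theorem xexpl_bdry (W : WS D) {m n : α → ℕ} (hm : PT m) (hn : PT n) :
    PM fun a => W.bdry (m a) (n a) :=
  ((((((xexpl_rng hn (fun _ => 4) 3 (PT.const _) fun a i => by omega).add
    (xexpl_rng hn (fun a => n a + 3) 3 (by fun_prop) fun a i => by omega)).add
    (xexpl_rng hm (fun _ => 4) 1 (PT.const _) fun a i => by omega)).add
    (xexpl_one (by fun_prop) (PT.const _))).add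
    (xexpl_rng (by fun_prop) (fun a => m a + 5) 1 (by fun_prop) fun a i => by omega)).add
    (xexpl_rng hn (fun _ => 5) 1 (PT.const _) fun a i => by omega)).add
    (xexpl_rng hn (fun a => 3 * n a + 1) 1 (by fun_prop) fun a i => by omega)

theorem pm_mu (W : WS D) {m n : α → ℕ} (hm : PT m) (hn : PT n) :
    PM fun a => W.mu (m a) (n a) :=
  (((xexpl_frame W hm hn).add (PM.nsmul (hn.mul hn) (PM.const _))).add
    (PM.nsmul (hn.mul hn) (PM.const _))).add (xexpl_bdry W hm hn)

end Pool.Agent.P.MP_e40812_co
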