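import Pool.Agent.P.MP_e40812_co.XDefs

/-! The types of the vertices of the tube. -/

namespace Pool.Agent.P.MP_e40812_co

open Finset Pool.Agent.Lib.PolyTime
open scoped Classical

variable {C : Type} {bl : C} {s len : ℕ} {g : ℤ → Q C}

/-- The type of the vertex `v` of the tube. -/
def xgrida_ty (bl : C) (s len : ℕ) (g : ℤ → Q C) (v : ℕ) : BT C :=
  if v < 2 * s + 1 then botT bl s v
  else if v < 2 * s + 1 + len then
    (6, ((v - (2 * s + 1) : ℕ) : ZMod 7), univ, g ((v - (2 * s + 1) : ℕ) : ℤ))
  else if v < 2 * (2 * s + 1) + len then topT bl s len (v - (2 * s + 1 + len))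
  else if v = 2 * (2 * s + 1) + len then (3, 0, ∅, q4 bl) else (6, 0, ∅, q4 bl)

theorem xgrida_map (hs : 2 ≤ s) :
    (range (2 * (2 * s + 1) + len + s)).val.map (xgrida_ty bl s len g) =
      exA bl s len (tl len g) := by
  have e : 2 * (2 * s + 1) + len + s = 2 * s + 1 + len + (2 * s + 1) + 1 + (s - 1) := by omega
  have h1 : (Multiset.range (2 * s + 1)).map (xgrida_ty bl s len g) =
      (Multiset.range (2 * s + 1)).map (botT bl s) := by
    refine Multiset.map_congr rfl fun v hv => ?_
    rw [Multiset.mem_range] at hv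
    rw [xgrida_ty, if_pos hv]
  have h2 : ((Multiset.range len).map (2 * s + 1 + ·)).map (xgrida_ty bl s len g) =
      (tl len g).map (fun p => ((6, p.1, univ, p.2) : BT C)) := by
    rw [tl, Multiset.map_map, Multiset.map_map]
    refine Multiset.map_congr rfl fun v hv => ?_
    rw [Multiset.mem_range] at hv
    simp only [Function.comp]
    rw [xgrida_ty, if_neg (by omega), if_pos (by omega), Nat.add_sub_cancel_left]
  have h3 : ((Multiset.range (2 * s + 1)).map (2 * s + 1 + len + ·)).map (xgrida_ty bl s len g) =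
      (Multiset.range (2 * s + 1)).map (topT bl s len) := by
    rw [Multiset.map_map]
    refine Multiset.map_congr rfl fun v hv => ?_
    rw [Multiset.mem_range] at hv
    simp only [Function.comp]
    rw [xgrida_ty, if_neg (by omega), if_neg (by omega), if_pos (by omega),
      Nat.add_sub_cancel_left]
  have h4 : ((Multiset.range 1).map (2 * s + 1 + len + (2 * s + 1) + ·)).map
      (xgrida_ty bl s len g) = {(3, 0, ∅, q4 bl)} := by
    rw [Multiset.map_map]
    simp only [Multiset.range_succ, Multiset.range_zero, Multiset.cons_zero,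
      Multiset.map_singleton, Function.comp]
    rw [xgrida_ty, if_neg (by omega), if_neg (by omega), if_neg (by omega), if_pos (by omega)]
  have h5 : ((Multiset.range (s - 1)).map (2 * s + 1 + len + (2 * s + 1) + 1 + ·)).map
      (xgrida_ty bl s len g) = Multiset.replicate (s - 1) (6, 0, ∅, q4 bl) := by
    rw [Multiset.map_map, Multiset.eq_replicate]
    refine ⟨by simp, fun b hb => ?_⟩
    obtain ⟨v, -, rfl⟩ := Multiset.mem_map.1 hb
    simp only [Function.comp]
    rw [xgrida_ty, if_neg (by omega), if_neg (by omega), if_neg (by omega), if_neg (by omega)]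
  rw [Finset.range_val, e, Multiset.range_add, Multiset.range_add, Multiset.range_add,
    Multiset.range_add _ len]
  simp only [Multiset.map_add]
  rw [h1, h2, h3, h4, h5, exA, add_right_comm]

theorem xgrida_cast (h7 : ((2 * s + 1 : ℕ) : ZMod 7) = 3) {v : ℕ} (hv : 2 * s + 1 ≤ v) :
    ((v - (2 * s + 1) : ℕ) : ZMod 7) = (v : ZMod 7) + 4 := by
  rw [Nat.cast_sub hv, h7, sub_eq_add_neg]
  congr 1

theorem exA_enum (hs : 2 ≤ s) (h7 : ((2 * s + 1 : ℕ) : ZMod 7) = 3)
    (hg : Val bl (2 * s + 1) len g) {M : ℕ} (hM : M = 2 * (2 * s + 1) + len) :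
    ∃ ty : ℕ → BT C, (range (M + s)).val.map ty = exA bl s len (tl len g) ∧
      (∀ v < M, ((ty v).1 : ℕ) = dg s M v ∧ (ty v).2.1 = (v : ZMod 7) + 4) ∧
      (∀ v, M < v → v < M + s → ((ty v).1 : ℕ) = 6) ∧ ((ty M).1 : ℕ) = 3 ∧
      ∀ v < M + s, (∀ k, k ∈ (ty v).2.2.1 ↔ off s k ≤ v ∧ v < off s k + (2 * s + 1 + len)) ∧
        (ty v).2.2.2 = g ((v : ℤ) - (2 * s + 1 : ℕ)) := by
  subst hM
  refine ⟨xgrida_ty bl s len g, xgrida_map hs, fun v hv => ?_, fun v h1 h2 => ?_, ?_,
    fun v hv => ⟨fun k => ?_, ?_⟩⟩
  · unfold xgrida_ty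
    by_cases h1 : v < 2 * s + 1
    · rw [if_pos h1]
      refine ⟨?_, rfl⟩
      simp only [botT, dg]
      split_ifs <;> first | rfl | omega
    · rw [if_neg h1]
      by_cases h2 : v < 2 * s + 1 + len
      · rw [if_pos h2]
        refine ⟨?_, xgrida_cast h7 (by omega)⟩
        simp only [dg]
        split_ifs <;> first | rfl | omega
      · rw [if_neg h2, if_pos hv]
        constructor
        · simp only [topT, dg]
          split_ifs <;> first | rfl | omega
        · simp only [topT]
          rw [← xgrida_cast h7 (show 2 * s + 1 ≤ v by omega)]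
          congr 1
          omega
  · rw [xgrida_ty, if_neg (by omega), if_neg (by omega), if_neg (by omega), if_neg (by omega)]
    rfl
  · rw [xgrida_ty, if_neg (by omega), if_neg (by omega), if_neg (by omega), if_pos rfl]
    rfl
  · unfold xgrida_ty
    split_ifs with h1 h2 h3 h4
    · simp only [botT]
      split_ifs <;> fin_cases k <;> simp [off] <;> omega
    · fin_cases k <;> simp [off] <;> omega
    · simp only [topT]
      split_ifs <;> fin_cases k <;> simp [off] <;> omega
    · fin_cases k <;> simp [off] <;> omega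
    · fin_cases k <;> simp [off] <;> omega
  · unfold xgrida_ty
    split_ifs with h1 h2 h3 h4
    · exact (hg.2.2 _ (Or.inl (by omega))).symm
    · show g _ = g _
      congr 1
      omega
    · exact (hg.2.2 _ (Or.inr (by omega))).symm
    · exact (hg.2.2 _ (Or.inr (by omega))).symm
    · exact (hg.2.2 _ (Or.inr (by omega))).symm

theorem xgrida_hasB (h7 : ((2 * s + 1 : ℕ) : ZMod 7) = 3) (x γ : ZMod 7) (b : Bool) (k : Fin 6) :
    hasB (C := C) (some (x, b)) (.inl (γ, k)) ↔
      b = decide ((k : ℕ) % 2 = 1) ∧ γ = x + (off s k : ℕ) := by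
  have h2 : ((2 * s : ℕ) : ZMod 7) = 2 := by
    rw [Nat.cast_succ] at h7
    linear_combination h7
  have o0 : ((off s 0 : ℕ) : ZMod 7) = 0 := by simp [off]
  have o1 : ((off s 1 : ℕ) : ZMod 7) = 0 := by simp [off]
  have o2 : ((off s 2 : ℕ) : ZMod 7) = 1 := by simp [off]
  have o3 : ((off s 3 : ℕ) : ZMod 7) = 3 := h7
  have o4 : ((off s 4 : ℕ) : ZMod 7) = 3 := h7
  have o5 : ((off s 5 : ℕ) : ZMod 7) = 2 := h2
  cases b <;> fin_cases k <;> simp [hasB, o0, o1, o2, o3, o4, o5]

theorem xgrida_off (k : Fin 6) : off s k ≤ 2 * s + 1 := by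
  fin_cases k <;> simp [off]

theorem ok2_ex (hs : 2 ≤ s) (h7 : ((2 * s + 1 : ℕ) : ZMod 7) = 3)
    (hg : Val bl (2 * s + 1) len g) : OK2 bl (exA bl s len (tl len g)) (exB s len) := by
  obtain ⟨ty, hA, h1, h2, h3, h4⟩ := exA_enum hs h7 hg rfl
  set M := 2 * (2 * s + 1) + len with hM
  rw [← hA]
  refine ⟨fun a ha => ?_, ?_, ?_, ?_⟩
  · obtain ⟨v, hv, rfl⟩ := Multiset.mem_map.1 ha
    have hv' : v < M + s := by simpa using hv
    constructor
    · rcases lt_trichotomy v M with h | h | h
      · rw [(h1 v h).1, dg]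
        split_ifs <;> omega
      · rw [h, h3]
      · rw [h2 v h hv']
        omega
    · intro hq
      rw [(h4 v hv').2] at hq
      have hr : 2 * s + 1 ≤ v ∧ v < 2 * s + 1 + len := by
        by_contra hc
        exact hq (hg.2.2 _ (by omega))
      constructor
      · apply Fin.ext
        rw [(h1 v (by omega)).1, dg]
        split_ifs <;> first | rfl | omega
      · refine eq_univ_iff_forall.2 fun k => ((h4 v hv').1 k).2 ?_
        have := xgrida_off (s := s) k
        omega
  · simp only [Multiset.card_map, Finset.card_val, card_range]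
    omega
  · simp only [Multiset.card_map, Finset.card_val, card_range, exB, Multiset.card_add,
      Multiset.card_range, Multiset.card_replicate]
    omega
  · rintro ⟨γ, k⟩
    have hk := xgrida_off (s := s) k
    have eA : ((range (M + s)).val.map ty).countP (fun a => hasA bl a (.inl (γ, k))) =
        ((range (2 * s + 1 + len)).filter fun n : ℕ =>
          γ = (n : ZMod 7) + 4 + (off s k : ℕ)).card := by
      rw [Multiset.countP_map, ← Finset.filter_val, Finset.card_val]
      symm
      refine Finset.card_bij (fun n _ => n + off s k) (fun n hn => ?_) (fun a _ b _ h => ?_)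
        (fun v hv => ?_)
      · rw [mem_filter, mem_range] at hn ⊢
        have hv : n + off s k < M + s := by omega
        refine ⟨hv, ?_, ((h4 _ hv).1 k).2 (by omega)⟩
        rw [(h1 _ (by omega)).2, hn.2]
        push_cast
        ring
      · simpa using h
      · rw [mem_filter, mem_range] at hv
        obtain ⟨hv, hγ, hkk⟩ := hv
        have hr := ((h4 _ hv).1 k).1 hkk
        refine ⟨v - off s k, ?_, by omega⟩
        rw [mem_filter, mem_range]
        refine ⟨by omega, ?_⟩
        rw [hγ, (h1 _ (by omega)).2, Nat.cast_sub hr.1]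
        ring
    have eB : ∀ b : Bool, ((Multiset.range (2 * s + 1 + len)).map
        (fun n : ℕ => (some ((n : ZMod 7) + 4, b) : FT))).countP
          (fun f => hasB (C := C) f (.inl (γ, k))) =
        if b = decide ((k : ℕ) % 2 = 1) then ((range (2 * s + 1 + len)).filter fun n : ℕ =>
          γ = (n : ZMod 7) + 4 + (off s k : ℕ)).card else 0 := by
      intro b
      rw [Multiset.countP_map, ← Finset.range_val, ← Finset.filter_val, Finset.card_val]
      split_ifs with hb
      · congr 1
        refine filter_congr fun n _ => ?_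
        rw [xgrida_hasB h7]
        exact and_iff_right hb
      · rw [card_eq_zero, filter_eq_empty_iff]
        intro n _
        rw [xgrida_hasB h7]
        exact fun h => hb h.1
    have e0 : (Multiset.replicate (6 * s - 2) (none : FT)).countP
        (fun f => hasB (C := C) f (.inl (γ, k))) = 0 := by
      rw [Multiset.countP_eq_zero]
      intro f hf
      rw [Multiset.eq_of_mem_replicate hf]
      simp [hasB]
    rw [eA, exB, Multiset.countP_add, Multiset.countP_add, eB, eB, e0]
    cases decide ((k : ℕ) % 2 = 1) <;> simp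

end Pool.Agent.P.MP_e40812_co
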