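import Pool.Agent.P.MP_e40812_co.XStep

/-! A long triangulated tube with two caps. -/

namespace Pool.Agent.P.MP_e40812_co

open Finset Pool.Agent.Lib.PolyTime
open scoped Classical

theorem xtube_rot {V : Finset ℕ} {I : Finset (Finset ℕ)} {o b : ℕ} (l : List ℕ) :
    ∀ {a : ℕ} {r : List ℕ}, DS V I o a (l ++ b :: r) → DS V I o b (r ++ a :: l) := by
  induction l with
  | nil => exact fun h => h.rot
  | cons x l ih =>
    intro a r h
    have h1 := DS.rot (b := x) (c := l ++ b :: r) h
    rw [List.append_assoc, List.cons_append] at h1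
    simpa using ih h1

/-- Degrees in the zigzag. -/
def xtubeZ (s k v : ℕ) : ℕ :=
  if v = 0 ∨ v = k + 1 then 1 else if v ≤ k then 3 else if v + k < 2 * s ∨ 2 * s < v then 0 else
    if v = 2 * s ∧ k = 0 then 1 else if v = 2 * s ∨ v + k = 2 * s then 2 else 3

theorem xtube_one (s M : ℕ) (hM : 2 * s < M) (k : ℕ) : ∀ j, k + j + 1 = s →
    ∃ V I, DS V I M (k + 1) (List.range' (k + 2 * j + 2) (k + 1) ++ List.range' 0 (k + 1)) ∧
      (∀ v, v ∈ V ↔ v = M ∨ v ≤ k + 1 ∨ (2 * s ≤ v + k ∧ v ≤ 2 * s)) ∧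
      ∀ v, deg I v = xtubeZ s k v := by
  induction k with
  | zero =>
    intro j hj
    refine ⟨_, _, DS.init (a := 1) (b := 0 + 2 * j + 2) (c := 0) (o := M) ?_, fun v => ?_, fun v => ?_⟩
    · simp
      omega
    · simp only [mem_insert, mem_singleton]
      omega
    · rw [deg, filter_singleton, xtubeZ]
      simp only [mem_insert, mem_singleton]
      rw [apply_ite Finset.card, card_singleton, card_empty]
      grind
  | succ k ih =>
    intro j hj
    obtain ⟨V, I, h, hV, hd⟩ := ih (j + 1) (by omega)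
    rw [List.range'_succ, List.cons_append] at h
    obtain ⟨h1, d1⟩ := DS.step (m := []) (y := k + 2 * j + 3) h (by rw [hV]; omega)
    obtain ⟨h2, d2⟩ := DS.step (m := []) (y := k + 2) h1 (by rw [mem_insert, hV]; omega)
    refine ⟨insert (k + 2) (insert (k + 2 * j + 3) V), _, ?_, fun v => ?_, fun v => (d2 v).trans ?_⟩
    · convert h2.rot using 1
      rw [List.range'_succ, List.range'_succ, List.range'_concat (s := 0)]
      simp [show k + 1 + 2 * j + 2 = k + 2 * j + 3 by ring,
        show k + 2 * (j + 1) + 2 = k + 2 * j + 3 + 1 by ring]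
    · simp only [mem_insert, hV]
      omega
    · rw [d1, hd, xtubeZ, xtubeZ]
      simp only [List.not_mem_nil, List.length_nil, if_false]
      clear d1 d2 h1 h2 h hV hd ih
      grind (splits := 40)

theorem xtube_two (s M : ℕ) (hs : 2 ≤ s) (n : ℕ) : n + (2 * s + 1) ≤ M →
    ∃ V I, DS V I M (n + 2 * s) (List.range' n (2 * s)) ∧
      (∀ v, v ∈ V ↔ v = M ∨ v < n + (2 * s + 1)) ∧
      (∀ i < n, ({i, i + 1, i + (2 * s + 1)} : Finset ℕ) ∈ I ∧
        ({i, i + 2 * s, i + (2 * s + 1)} : Finset ℕ) ∈ I) ∧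
      ∀ v, deg I v = xtubeZ s (s - 1) v + (if v < n then 2 else 0) + (if 1 ≤ v ∧ v ≤ n then 1 else 0) +
        (if 2 * s + 1 ≤ v ∧ v < n + (2 * s + 1) then 2 else 0) +
        if 2 * s ≤ v ∧ v < n + 2 * s then 1 else 0 := by
  obtain ⟨t, rfl⟩ : ∃ t, s = t + 1 := ⟨s - 1, by omega⟩
  induction n with
  | zero =>
    intro hM
    obtain ⟨V, I, h, hV, hd⟩ := xtube_one (t + 1) M (by omega) t 0 rfl
    rw [List.range'_concat, List.append_assoc, List.singleton_append] at h
    refine ⟨V, I, ?_, fun v => ?_, by simp, fun v => ?_⟩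
    · convert xtube_rot _ h using 1
      · ring
      · rw [show 2 * (t + 1) = (t + 1) + (t + 1) by ring, ← List.range'_append_1]
        simp [List.range'_succ]
    · rw [hV]
      omega
    · rw [hd, Nat.add_sub_cancel]
      split_ifs <;> omega
  | succ n ih =>
    intro hM
    obtain ⟨V, I, h, hV, hI, hd⟩ := ih (by omega)
    rw [show 2 * (t + 1) = 2 * t + 1 + 1 by ring, List.range'_succ, List.range'_succ] at h
    obtain ⟨h1, d1⟩ := DS.step (m := [n]) (y := n + (2 * (t + 1) + 1)) h (by rw [hV]; omega)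
    refine ⟨insert (n + (2 * (t + 1) + 1)) V, _, ?_, fun v => ?_, fun i hi => ?_,
      fun v => (d1 v).trans ?_⟩
    · convert h1.rot using 1
      · ring
      · rw [show 2 * (t + 1) = 2 * t + 1 + 1 by ring, List.range'_concat, List.range'_succ]
        simp
        ring
    · simp only [mem_insert, hV]
      omega
    · rcases (Nat.lt_succ_iff.1 hi).eq_or_lt with rfl | hi
      · simp only [List.cons_append, List.nil_append, ls_cons, ls_one, mem_union, mem_insert]
        refine ⟨Or.inr (Or.inr (Or.inl ?_)), Or.inr (Or.inl ?_)⟩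
        · ext x
          simp only [mem_insert, mem_singleton]
          omega
        · ext x
          simp only [mem_insert, mem_singleton]
          omega
      · exact ⟨mem_union_left _ (hI i hi).1, mem_union_left _ (hI i hi).2⟩
    · rw [hd]
      generalize xtubeZ (t + 1) (t + 1 - 1) v = z
      simp only [List.mem_singleton, List.length_singleton]
      clear d1 h1 h hV hd ih hI
      grind (splits := 40)

/-- Degrees in the upper cap. -/
def xtubeE (s N k v : ℕ) : ℕ :=
  if v < N then 0 else if v ≤ N + k then (if v = N + k then 0 else 2) + (if v = N then 0 else 1) else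
    if v + k + 1 < N + 2 * s then 0 else if v < N + 2 * s then
      (if v + k + 1 = N + 2 * s then 0 else 2) + (if v + 1 = N + 2 * s then 0 else 1) else
    if v = N + 2 * s then (if k = 0 then 0 else 2) else if v = N + 2 * s + 1 then 0 else
    if v < N + 2 * s + 1 + k then 6 else if v = N + 2 * s + 1 + k then 4 else 0

theorem xtube_e (s N k j v : ℕ) (h : k + j + 2 = s) : (xtubeE s N k v +
    if v = N + (2 * s + 1) + (k + 1) then 0 + 1 + 1 + 1 + 1 else
      if v = N + k + 1 * (2 * j + 2) ∨ v = N + k + 1 then 1 else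
        if v = N + k + (2 * j + 1 + 1 + 1) ∨
          v = (if k = 0 then N + 2 * s else N + (2 * s + 1) + k) ∨ v = N + k then 2 else 0) =
    xtubeE s N (k + 1) v := by
  unfold xtubeE
  grind (splits := 40)

theorem xtube_d (t N v : ℕ) (h1 : 1 ≤ t) (h2 : 2 * t + 3 ≤ N) :
    (xtubeZ (t + 1) t v + (if v < N then 2 else 0) + (if 1 ≤ v ∧ v ≤ N then 1 else 0) +
      (if 2 * (t + 1) + 1 ≤ v ∧ v < N + (2 * (t + 1) + 1) then 2 else 0) +
      (if 2 * (t + 1) ≤ v ∧ v < N + 2 * (t + 1) then 1 else 0) + xtubeE (t + 1) N t v +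
      if v = N + (2 * (t + 1) + 1) then 0 + 1 + 1 + 1 else
        if v = N + t + 1 ∨ v = N + (2 * (t + 1) + 1) + t ∨ v = N + t then 2 else 0) =
    if v < N + (2 * (t + 1) + 1) then dg (t + 1) (N + (2 * (t + 1) + 1)) v else
      if v = N + (2 * (t + 1) + 1) then 3 else if v ≤ N + (2 * (t + 1) + 1) + t then 6 else 0 := by
  unfold xtubeE xtubeZ dg
  grind (splits := 60)

theorem xtube_three {s N : ℕ} {V₀ : Finset ℕ} {I₀ : Finset (Finset ℕ)}
    (h0 : DS V₀ I₀ (N + (2 * s + 1)) (N + 2 * s) (List.range' N (2 * s)))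
    (hV0 : ∀ v, v ∈ V₀ ↔ v ≤ N + (2 * s + 1)) (k : ℕ) : ∀ j, k + j + 1 = s →
    ∃ V I, DS V I (N + (2 * s + 1)) (N + k + (2 * j + 1))
        ((if k = 0 then N + 2 * s else N + (2 * s + 1) + k) :: List.range' (N + k) (2 * j + 1)) ∧
      (∀ v, v ∈ V ↔ v ≤ N + (2 * s + 1) + k) ∧ I₀ ⊆ I ∧
      ∀ v, deg I v = deg I₀ v + xtubeE s N k v := by
  induction k with
  | zero =>
    intro j hj
    refine ⟨V₀, I₀, ?_, hV0, Subset.refl _, fun v => ?_⟩
    · rw [show List.range' N (2 * s) = List.range' N (2 * j + 1) ++ [N + 0 + (2 * j + 1)] by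
        rw [show 2 * s = 2 * j + 1 + 1 by omega, List.range'_concat]; simp] at h0
      exact h0.rot'
    · rw [xtubeE]
      split_ifs <;> omega
  | succ k ih =>
    intro j hj
    obtain ⟨V, I, h, hV, hI, hd⟩ := ih (j + 1) (by omega)
    rw [show 2 * (j + 1) + 1 = 2 * j + 1 + 1 + 1 by ring, List.range'_concat, ← List.cons_append] at h
    have h1 := h.rot'
    rw [List.range'_succ, List.range'_succ] at h1
    obtain ⟨h2, d2⟩ := DS.step (m := [_, _, N + k]) (y := N + (2 * s + 1) + (k + 1)) h1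
      (by rw [hV]; omega)
    refine ⟨insert (N + (2 * s + 1) + (k + 1)) V, _, ?_, fun v => ?_, hI.trans subset_union_left,
      fun v => (d2 v).trans ?_⟩
    · convert h2 using 1
      · ring
      · rw [if_neg (by omega), List.range'_succ]
        rfl
    · simp only [mem_insert, hV]
      omega
    · rw [hd, add_assoc]
      simp only [List.mem_cons, List.not_mem_nil, or_false, List.length_cons, List.length_nil]
      congr 1
      exact xtube_e s N k j v (by omega)

theorem exists_tube (s M : ℕ) (hs : 2 ≤ s) (hM : 2 * (2 * s + 1) ≤ M) :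
    ∃ (V : Finset ℕ) (F : Finset (Finset ℕ)), Pre V F ∧ Geo V F ∧ V = range (M + s) ∧
      (∀ n, n + (2 * s + 1) < M →
        ({n, n + 1, n + (2 * s + 1)} : Finset ℕ) ∈ F ∧
          ({n, n + 2 * s, n + (2 * s + 1)} : Finset ℕ) ∈ F) ∧
      (∀ v < M, deg F v = dg s M v) ∧ (∀ v, M < v → v < M + s → deg F v = 6) ∧ deg F M = 3 := by
  obtain ⟨N, rfl⟩ : ∃ N, M = N + (2 * s + 1) := ⟨M - (2 * s + 1), by omega⟩
  obtain ⟨V₀, I₀, h0, hV0, hI0, hd0⟩ := xtube_two s _ hs N le_rfl
  obtain ⟨t, rfl⟩ : ∃ t, s = t + 1 := ⟨s - 1, by omega⟩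
  obtain ⟨V, I, h, hV, hI, hd⟩ := xtube_three h0 (fun v => by rw [hV0]; omega) t 0 rfl
  rw [if_neg (by omega)] at h
  have hf := fun v => (h.fin v).trans (by rw [hd, hd0])
  simp only [List.range'_one, List.mem_cons, List.not_mem_nil, mul_zero, zero_add,
    or_false, List.length_cons, List.length_nil, Nat.add_sub_cancel] at hf
  replace hf := fun v => (hf v).trans (xtube_d t N v (by omega) (by omega))
  refine ⟨_, _, h.pre, h.geo, ?_, fun n hn => ?_, fun v hv => ?_, fun v h1 h2 => ?_, ?_⟩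
  · ext v
    rw [hV, mem_range]
    omega
  · exact ⟨mem_union_left _ (hI (hI0 n (by omega)).1), mem_union_left _ (hI (hI0 n (by omega)).2)⟩
  · exact (hf v).trans (if_pos hv)
  · refine (hf v).trans ?_
    rw [if_neg (by omega), if_neg (by omega), if_pos (by omega)]
  · refine (hf _).trans ?_
    rw [if_neg (by omega), if_pos rfl]

end Pool.Agent.P.MP_e40812_co
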