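import Pool.Agent.P.MP_e40812_co.XStack
import Pool.Agent.P.MP_e40812_co.XTube
import Pool.Agent.P.MP_e40812_co.XGridA

/-! A tiling of the spiral gives a structure with all layers. -/

namespace Pool.Agent.P.MP_e40812_co

open Finset Pool.Agent.Lib.PolyTime
open scoped Classical

lemma xgridb_mt {K : Finset ℕ} {G : Finset (Finset ℕ)} {P : ℕ → Prop} (I : ℕ → Prop)
    (f g : ℕ → ℕ) (hf : ∀ i j, I i → I j → f i = f j → i = j)
    (hg : ∀ i j, I i → I j → g i = g j → i = j) (hfg : ∀ i j, I i → I j → f i ≠ g j)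
    (h1 : ∀ v ∈ K, P v → ∃ i, I i ∧ (v = f i ∨ v = g i))
    (h2 : ∀ i, I i → f i ∈ K ∧ P (f i) ∧ g i ∈ K ∧ P (g i) ∧ Nb G (f i) (g i)) : Mt K G P := by
  let μ : ℕ → ℕ := fun v => if h : ∃ i, I i ∧ v = f i then g h.choose else
    if h : ∃ i, I i ∧ v = g i then f h.choose else v
  have m1 : ∀ i, I i → μ (f i) = g i := fun i hi => by
    have h : ∃ j, I j ∧ f i = f j := ⟨i, hi, rfl⟩
    simp only [μ, dif_pos h]
    rw [← hf i _ hi h.choose_spec.1 h.choose_spec.2]
  have m2 : ∀ i, I i → μ (g i) = f i := fun i hi => by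
    have h' : ¬ ∃ j, I j ∧ g i = f j := fun ⟨j, hj, e⟩ => hfg j i hj hi e.symm
    have h : ∃ j, I j ∧ g i = g j := ⟨i, hi, rfl⟩
    simp only [μ, dif_neg h', dif_pos h]
    rw [← hg i _ hi h.choose_spec.1 h.choose_spec.2]
  refine ⟨μ, fun v hv hP => ?_⟩
  obtain ⟨i, hi, rfl | rfl⟩ := h1 v hv hP
  · obtain ⟨-, -, a, b, c⟩ := h2 i hi
    rw [m1 i hi, m2 i hi]
    exact ⟨a, b, rfl, c⟩
  · obtain ⟨a, b, -, -, c⟩ := h2 i hi
    rw [m2 i hi, m1 i hi]
    exact ⟨a, b, rfl, c.symm⟩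

/-- The lattice faces of the tube. -/
def xgridb_ph (s : ℕ) (b : Bool) (n : ℕ) : Finset ℕ :=
  if b then {n, n + 2 * s, n + (2 * s + 1)} else {n, n + 1, n + (2 * s + 1)}

lemma xgridb_inj {s : ℕ} (hs : 2 ≤ s) {b b' : Bool} {n n' : ℕ}
    (h : xgridb_ph s b n = xgridb_ph s b' n') : b = b' ∧ n = n' := by
  have h1 : n ∈ xgridb_ph s b' n' := h ▸ (by cases b <;> simp [xgridb_ph])
  have h2 : n' ∈ xgridb_ph s b n := h ▸ (by cases b' <;> simp [xgridb_ph])
  have h3 : n + 1 ∈ xgridb_ph s b n ↔ n + 1 ∈ xgridb_ph s b' n' := by rw [h]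
  have e : n = n' := by
    cases b <;> cases b' <;> simp [xgridb_ph] at h1 h2 <;> omega
  subst e
  refine ⟨?_, rfl⟩
  cases b <;> cases b' <;> simp [xgridb_ph] at h3 ⊢ <;> omega

/-- The type of a face. -/
noncomputable def xgridb_ft (s N : ℕ) (t : Finset ℕ) : FT :=
  if h : ∃ p : Bool × ℕ, p.2 < N ∧ t = xgridb_ph s p.1 p.2 then
    some ((h.choose.2 : ZMod 7) + 4, h.choose.1) else none

lemma xgridb_ft_ph {s N : ℕ} (hs : 2 ≤ s) (b : Bool) {n : ℕ} (hn : n < N) :
    xgridb_ft s N (xgridb_ph s b n) = some ((n : ZMod 7) + 4, b) := by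
  have h : ∃ p : Bool × ℕ, p.2 < N ∧ xgridb_ph s b n = xgridb_ph s p.1 p.2 := ⟨(b, n), hn, rfl⟩
  obtain ⟨h1, h2⟩ := xgridb_inj hs h.choose_spec.2
  rw [xgridb_ft, dif_pos h, ← h1, ← h2]

lemma xgridb_ft_cases (s N : ℕ) (t : Finset ℕ) :
    (∃ b n, n < N ∧ t = xgridb_ph s b n) ∨ xgridb_ft s N t = none := by
  by_cases h : ∃ p : Bool × ℕ, p.2 < N ∧ t = xgridb_ph s p.1 p.2
  · obtain ⟨p, h⟩ := h
    exact Or.inl ⟨p.1, p.2, h⟩
  · exact Or.inr (dif_neg h)

lemma xgridb_map {s len : ℕ} (hs : 2 ≤ s) {F : Finset (Finset ℕ)}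
    (hF : ∀ b n, n < 2 * s + 1 + len → xgridb_ph s b n ∈ F)
    (hc : F.card + 4 = 2 * (2 * (2 * s + 1) + len + s)) :
    F.val.map (xgridb_ft s (2 * s + 1 + len)) = exB s len := by
  set N := 2 * s + 1 + len with hN
  have hi : ∀ b, Set.InjOn (xgridb_ph s b) (range N) := fun b _ _ _ _ h => (xgridb_inj hs h).2
  have hd : Disjoint ((range N).image (xgridb_ph s false)) ((range N).image (xgridb_ph s true)) := by
    refine disjoint_left.2 fun t h1 h2 => ?_
    obtain ⟨n, -, rfl⟩ := mem_image.1 h1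
    obtain ⟨n', -, e⟩ := mem_image.1 h2
    exact absurd (xgridb_inj hs e).1 (by simp)
  have hsub : (range N).image (xgridb_ph s false) ∪ (range N).image (xgridb_ph s true) ⊆ F := by
    intro t ht
    rcases mem_union.1 ht with h | h <;> obtain ⟨n, hn, rfl⟩ := mem_image.1 h <;>
      exact hF _ n (mem_range.1 hn)
  have hm : ∀ b, ((range N).image (xgridb_ph s b)).val.map (xgridb_ft s N)
      = (Multiset.range N).map (fun n : ℕ => some ((n : ZMod 7) + 4, b)) := fun b => by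
    rw [image_val_of_injOn (hi b), Multiset.map_map, range_val]
    exact Multiset.map_congr rfl fun n hn => xgridb_ft_ph hs b (Multiset.mem_range.1 hn)
  set R := F \ ((range N).image (xgridb_ph s false) ∪ (range N).image (xgridb_ph s true)) with hR
  have hv : F.val = ((range N).image (xgridb_ph s false)).val
      + ((range N).image (xgridb_ph s true)).val + R.val := by
    rw [← disjUnion_val _ _ hd, disjUnion_eq_union, hR, sdiff_val,
      add_tsub_cancel_of_le (val_le_iff.2 hsub)]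
  have hRc : R.card = 6 * s - 2 := by
    have h1 := congrArg Multiset.card hv
    simp only [Multiset.card_add, card_val, card_image_of_injOn (hi _), card_range] at h1
    omega
  rw [hv, Multiset.map_add, Multiset.map_add, hm, hm, exB, ← hN]
  congr 1
  rw [← hRc]
  refine Multiset.eq_replicate.2 ⟨by simp, fun x hx => ?_⟩
  obtain ⟨t, ht, rfl⟩ := Multiset.mem_map.1 hx
  rcases xgridb_ft_cases s N t with ⟨b, n, hn, rfl⟩ | h
  · refine absurd ?_ (mem_sdiff.1 ht).2
    cases b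
    · exact mem_union_left _ (mem_image_of_mem _ (mem_range.2 hn))
    · exact mem_union_right _ (mem_image_of_mem _ (mem_range.2 hn))
  · exact h

/-- The orientation of the face in a sector. -/
def xgridb_b : Fin 6 → Bool := ![false, true, false, true, false, true]

lemma xgridb_off (s : ℕ) (k : Fin 6) : off s k ≤ 2 * s + 1 := by
  fin_cases k <;> simp [off]

lemma xgridb_mem (s : ℕ) (k : Fin 6) (n : ℕ) : n + off s k ∈ xgridb_ph s (xgridb_b k) n := by
  fin_cases k <;> simp [off, xgridb_ph, xgridb_b]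

lemma xgridb_hasB {C : Type} {s : ℕ} (h7 : ((2 * s + 1 : ℕ) : ZMod 7) = 3) (n : ℕ) (b : Bool)
    (γ : ZMod 7) (k : Fin 6) :
    hasB (C := C) (some ((n : ZMod 7) + 4, b)) (.inl (γ, k)) ↔
      b = xgridb_b k ∧ γ = ((n + off s k : ℕ) : ZMod 7) + 4 := by
  have h2 : ((2 * s : ℕ) : ZMod 7) = 2 := by
    rw [Nat.cast_add, Nat.cast_one] at h7
    linear_combination h7
  have e : ((n + off s k : ℕ) : ZMod 7) + 4 = (n : ZMod 7) + 4 + ![0, 0, 1, 3, 3, 2] k := by
    rw [Nat.cast_add, add_right_comm]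
    congr 1
    fin_cases k
    · simp [off]
    · simp [off]
    · simp [off]
    · exact h7
    · exact h7
    · exact h2
  rw [e]
  generalize (n : ZMod 7) + 4 = x
  cases b <;> fin_cases k <;> simp [hasB, xgridb_b]

lemma xgridb_notB {C : Type} (f : FT) (l : ZMod 7 × Bool × C) : ¬ hasB f (.inr l) := by
  rcases f with _ | ⟨x, _ | _⟩ <;> exact fun h => h

theorem grid_build {C : Type} [Fintype C] {bl : C} {s len : ℕ} (hs : 2 ≤ s)
    (h7 : ((2 * s + 1 : ℕ) : ZMod 7) = 3) {g : ℤ → Q C} (hg : Val bl (2 * s + 1) len g) :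
    ∃ (K : Finset ℕ) (G : Finset (Finset ℕ)), Pre K G ∧ Geo K G ∧
      Top dX (bX bl) K G (uX (exA bl s len (tl len g)) (exB s len)) := by
  obtain ⟨M, hM⟩ : ∃ M, M = 2 * (2 * s + 1) + len := ⟨_, rfl⟩
  obtain ⟨V, F, hp, hgeo, hV, hF, d1, d2, d3⟩ := exists_tube s M hs (by omega)
  obtain ⟨F', y, hp', hgeo', yi, yV, e1, e2, e3⟩ := stack_all hp hgeo
  obtain ⟨ty, t1, t2, t3, t4, t5⟩ := exA_enum hs h7 hg hM
  have hF' : ∀ b n, n < 2 * s + 1 + len → xgridb_ph s b n ∈ F := fun b n hn => by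
    cases b
    · exact (hF n (by omega)).1
    · exact (hF n (by omega)).2
  have hVm : ∀ v, v ∈ V ↔ v < M + s := fun v => by rw [hV, mem_range]
  let ty0 : ℕ → BT C ⊕ FT := fun v => if v ∈ V then .inl (ty v) else
    .inr (xgridb_ft s (2 * s + 1 + len) (Function.invFunOn y F v))
  have y1 : ∀ v ∈ V, ty0 v = .inl (ty v) := fun v hv => if_pos hv
  have y2 : ∀ t ∈ F, ty0 (y t) = .inr (xgridb_ft s (2 * s + 1 + len) t) := fun t ht => by
    simp only [ty0, if_neg (yV t ht)]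
    rw [yi.leftInvOn_invFunOn ht]
  clear_value ty0
  have p1 : ∀ v ∈ V, ∀ l, l ∈ bX bl (ty0 v) ↔ hasA bl (ty v) l := fun v hv l => by
    rw [y1 v hv, bX, mem_filter]
    exact and_iff_right (mem_univ _)
  have p2 : ∀ t ∈ F, ∀ l : Ly C, l ∈ bX bl (ty0 (y t)) ↔
      hasB (xgridb_ft s (2 * s + 1 + len) t) l := fun t ht l => by
    rw [y2 t ht, bX, mem_filter]
    exact and_iff_right (mem_univ _)
  have hd : Disjoint V (F.image y) := by
    refine disjoint_right.2 fun v hv => ?_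
    obtain ⟨t, ht, rfl⟩ := mem_image.1 hv
    exact yV t ht
  have dir : ∀ (γ : ZMod 7) (b : Bool) (c : C) (d : ℕ) (e : ZMod 7) (q1 q2 : Q C → C),
      (d : ZMod 7) = e → e ≠ 0 → 1 ≤ d → d ≤ 2 * s + 1 → (∀ n, n + d ∈ xgridb_ph s false n) →
      (∀ n, q1 (g n) = q2 (g (n + d))) → q1 (q4 bl) = bl → q2 (q4 bl) = bl →
      (∀ a : BT C, hasA bl a (.inr (γ, b, c)) ↔ c ≠ bl ∧
        ((γ = a.2.1 ∧ q1 a.2.2.2 = c) ∨ (γ + e = a.2.1 ∧ q2 a.2.2.2 = c))) →
      Mt (V ∪ F.image y) F' fun v => Sum.inr (γ, b, c) ∈ bX bl (ty0 v) := by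
    intro γ b c d e q1 q2 hde he hd1 hd2 hph hq hq1 hq2 hA
    have nb1 : ∀ n, c ≠ bl → q1 (g n) = c → 0 ≤ n ∧ n < len := fun n hc h => by
      by_contra hn
      rw [hg.2.2 n (by omega), hq1] at h
      exact hc h.symm
    have nb2 : ∀ n, c ≠ bl → q2 (g n) = c → 0 ≤ n ∧ n < len := fun n hc h => by
      by_contra hn
      rw [hg.2.2 n (by omega), hq2] at h
      exact hc h.symm
    refine xgridb_mt (fun v => c ≠ bl ∧ v < 2 * s + 1 + len ∧ γ = (v : ZMod 7) + 4 ∧
      q1 (g ((v : ℤ) - (2 * s + 1 : ℕ))) = c) (fun v => v) (fun v => v + d)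
      (fun _ _ _ _ h => h) (fun _ _ _ _ h => by omega) (fun i j hi hj h => he ?_)
      (fun v hv hP => ?_) (fun i hi => ?_)
    · have h1 := hi.2.2.1
      have h2 := hj.2.2.1
      rw [show i = j + d from h, Nat.cast_add, hde] at h1
      linear_combination h2 - h1
    · rcases mem_union.1 hv with hv | hv
      · have hv' := (hVm v).1 hv
        rw [p1 v hv, hA, (t5 v hv').2] at hP
        obtain ⟨hc, ⟨h1, h2⟩ | ⟨h1, h2⟩⟩ := hP
        · have h3 := nb1 _ hc h2
          exact ⟨v, ⟨hc, by omega, h1.trans (t2 v (by omega)).2, h2⟩, Or.inl rfl⟩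
        · have h3 := nb2 _ hc h2
          obtain ⟨u, rfl⟩ : ∃ u, v = u + d := ⟨v - d, by omega⟩
          refine ⟨u, ⟨hc, by omega, ?_, ?_⟩, Or.inr rfl⟩
          · rw [(t2 _ (by omega)).2, Nat.cast_add, hde] at h1
            linear_combination h1
          · rw [hq, ← h2]
            congr 2
            push_cast
            ring
      · obtain ⟨t, ht, rfl⟩ := mem_image.1 hv
        exact absurd ((p2 t ht _).1 hP) (xgridb_notB _ _)
    · obtain ⟨hc, h1, h2, h3⟩ := hi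
      have i1 : i ∈ V := (hVm _).2 (by omega)
      have i2 : i + d ∈ V := (hVm _).2 (by omega)
      refine ⟨mem_union_left _ i1, ?_, mem_union_left _ i2, ?_, ?_⟩
      · rw [p1 _ i1, hA, (t5 _ (by omega)).2, (t2 _ (by omega)).2]
        exact ⟨hc, Or.inl ⟨h2, h3⟩⟩
      · rw [p1 _ i2, hA, (t5 _ (by omega)).2, (t2 _ (by omega)).2]
        refine ⟨hc, Or.inr ⟨?_, ?_⟩⟩
        · rw [Nat.cast_add, hde, h2]
          ring
        · rw [← h3, hq]
          congr 2
          push_cast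
          ring
      · exact (e3 _ (hF' false i h1) i (by simp [xgridb_ph]) (i + d) (hph i) (by omega)).nb
  refine ⟨V ∪ F.image y, F', hp', hgeo', ty0, ?_, fun v hv => ?_, fun l => ?_⟩
  · rw [← disjUnion_eq_union _ _ hd, disjUnion_val, Multiset.map_add, uX, ← t1, ← hV,
      ← xgridb_map hs hF' (by rw [hp.card, hV, card_range, hM]), image_val_of_injOn yi,
      Multiset.map_map, Multiset.map_map, Multiset.map_map]
    congr 1
    · exact Multiset.map_congr rfl y1
    · exact Multiset.map_congr rfl y2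
  · rcases mem_union.1 hv with hv | hv
    · rw [y1 v hv, e1 v hv, dX]
      congr 1
      rcases lt_trichotomy v M with h | rfl | h
      · rw [d1 v h, (t2 v h).1]
      · rw [d3, t4]
      · rw [d2 v h ((hVm v).1 hv), t3 v h ((hVm v).1 hv)]
    · obtain ⟨t, ht, rfl⟩ := mem_image.1 hv
      rw [y2 t ht, e2 t ht, dX]
  · rcases l with ⟨γ, k⟩ | ⟨γ, _ | _, c⟩
    · have ho := xgridb_off s k
      refine xgridb_mt (fun n => n < 2 * s + 1 + len ∧ γ = ((n + off s k : ℕ) : ZMod 7) + 4)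
        (fun n => n + off s k) (fun n => y (xgridb_ph s (xgridb_b k) n))
        (fun _ _ _ _ h => by omega)
        (fun i j hi hj h => (xgridb_inj hs (yi (hF' _ i hi.1) (hF' _ j hj.1) h)).2)
        (fun i j hi hj h => yV _ (hF' (xgridb_b k) j hj.1) ((hVm _).2 (by have := hi.1; omega)))
        (fun v hv hP => ?_) (fun i hi => ?_)
      · rcases mem_union.1 hv with hv | hv
        · obtain ⟨h1, h2⟩ := (p1 v hv _).1 hP
          rw [(t5 v ((hVm v).1 hv)).1] at h2
          obtain ⟨n, rfl⟩ : ∃ n, v = n + off s k := ⟨v - off s k, by omega⟩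
          exact ⟨n, ⟨by omega, h1.trans (t2 _ (by omega)).2⟩, Or.inl rfl⟩
        · obtain ⟨t, ht, rfl⟩ := mem_image.1 hv
          have h1 := (p2 t ht _).1 hP
          rcases xgridb_ft_cases s (2 * s + 1 + len) t with ⟨b, n, hn, rfl⟩ | h
          · rw [xgridb_ft_ph hs b hn, xgridb_hasB h7] at h1
            obtain ⟨rfl, h2⟩ := h1
            exact ⟨n, ⟨hn, h2⟩, Or.inr rfl⟩
          · rw [h] at h1
            exact h1.elim
      · obtain ⟨h1, h2⟩ := hi
        have i1 : i + off s k ∈ V := (hVm _).2 (by omega)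
        have i2 := hF' (xgridb_b k) i h1
        refine ⟨mem_union_left _ i1, (p1 _ i1 _).2 ⟨h2.trans (t2 _ (by omega)).2.symm,
          ((t5 _ (by omega)).1 k).2 (by omega)⟩, mem_union_right _ (mem_image_of_mem _ i2), ?_, ?_⟩
        · rw [p2 _ i2, xgridb_ft_ph hs _ h1, xgridb_hasB h7]
          exact ⟨rfl, h2⟩
        · obtain ⟨a, ha, hne⟩ := exists_mem_ne
            (show 1 < (xgridb_ph s (xgridb_b k) i).card by rw [hp.three _ i2]; omega) (i + off s k)
          exact (e3 _ i2 _ (xgridb_mem s k i) a ha hne.symm).nb'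
    · exact dir γ false c 1 1 (fun q => q.1) (fun q => q.2.2.1) Nat.cast_one (by decide) le_rfl
        (by omega) (fun n => by simp [xgridb_ph]) (fun n => by exact_mod_cast hg.1 n) rfl rfl
        (fun _ => Iff.rfl)
    · exact dir γ true c (2 * s + 1) 3 (fun q => q.2.1) (fun q => q.2.2.2) h7 (by decide)
        (by omega) le_rfl (fun n => by simp [xgridb_ph]) hg.2.1 rfl rfl (fun _ => Iff.rfl)

end Pool.Agent.P.MP_e40812_co
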