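import Pool.Agent.P.MP_e40812_co.XDefs

/-! Removing the vertices that stand for faces. -/

namespace Pool.Agent.P.MP_e40812_co

open Finset Pool.Agent.Lib.PolyTime
open scoped Classical

theorem xgridr_inr {C : Type} (f : FT) (l : ZMod 7 × Bool × C) : ¬ hasB f (.inr l) := by
  rcases f with _ | ⟨x, _ | _⟩ <;> exact id

theorem xgridr_dl : ∀ (β : ZMod 7) (k : Fin 6),
    β ≠ β + dl k ∧ β ≠ β + dl (k + 1) ∧ β + dl k ≠ β + dl (k + 1) := by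
  decide

theorem xgridr_cls : ∀ x : ZMod 7,
    (x + dl 0 = x + 1 ∧ x + dl (0 + 1) = x + 3) ∧ (x + 1 + dl 2 = x + 3 ∧ x + 1 + dl (2 + 1) = x) ∧
    (x + 3 + dl 4 = x ∧ x + 3 + dl (4 + 1) = x + 1) ∧ (x + dl 1 = x + 3 ∧ x + dl (1 + 1) = x + 2) ∧
    (x + 2 + dl 5 = x ∧ x + 2 + dl (5 + 1) = x + 3) ∧
    (x + 3 + dl 3 = x + 2 ∧ x + 3 + dl (3 + 1) = x) := by
  decide

theorem xgridr_sec {C : Type} {f : FT} {β : ZMod 7} {k : Fin 6}
    (h : hasB (C := C) f (.inl (β, k))) : ∃ k1 k2, hasB (C := C) f (.inl (β + dl k, k1)) ∧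
      hasB (C := C) f (.inl (β + dl (k + 1), k2)) := by
  rcases f with _ | ⟨x, _ | _⟩
  · exact h.elim
  · obtain ⟨c1, c2, c3, -⟩ := xgridr_cls x
    rcases h with ⟨e, rfl⟩ | ⟨rfl, rfl⟩ | ⟨rfl, rfl⟩
    · rw [e]
      exact ⟨2, 4, Or.inr (Or.inl ⟨c1.1, rfl⟩), Or.inr (Or.inr ⟨c1.2, rfl⟩)⟩
    · exact ⟨4, 0, Or.inr (Or.inr ⟨c2.1, rfl⟩), Or.inl ⟨c2.2, rfl⟩⟩
    · exact ⟨0, 2, Or.inl ⟨c3.1, rfl⟩, Or.inr (Or.inl ⟨c3.2, rfl⟩)⟩
  · obtain ⟨-, -, -, c1, c2, c3⟩ := xgridr_cls x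
    rcases h with ⟨e, rfl⟩ | ⟨rfl, rfl⟩ | ⟨rfl, rfl⟩
    · rw [e]
      exact ⟨3, 5, Or.inr (Or.inr ⟨c1.1, rfl⟩), Or.inr (Or.inl ⟨c1.2, rfl⟩)⟩
    · exact ⟨1, 3, Or.inl ⟨c2.1, rfl⟩, Or.inr (Or.inr ⟨c2.2, rfl⟩)⟩
    · exact ⟨5, 1, Or.inr (Or.inl ⟨c3.1, rfl⟩), Or.inl ⟨c3.2, rfl⟩⟩

theorem xgridr_split {ι α β : Type} [DecidableEq ι] {K : Finset ι} {ty0 : ι → α ⊕ β}
    {A : Multiset α} {B : Multiset β} (a₀ : α) (b₀ : β)
    (hm : K.val.map ty0 = A.map Sum.inl + B.map Sum.inr) :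
    ∃ (Y : Finset ι) (ty : ι → α) (ft : ι → β), Y ⊆ K ∧ (K \ Y).val.map ty = A ∧
      Y.val.map ft = B ∧ (∀ v ∈ K \ Y, ty0 v = .inl (ty v)) ∧ ∀ y ∈ Y, ty0 y = .inr (ft y) := by
  have key : ∀ (p : α ⊕ β → Prop) [DecidablePred p], (K.filter fun v => p (ty0 v)).val.map ty0 =
      (A.map Sum.inl).filter p + (B.map Sum.inr).filter p := by
    intro p _
    rw [← Multiset.filter_add, ← hm, Multiset.filter_map, filter_val]
    rfl
  have e : K \ K.filter (fun v => (ty0 v).isRight = true) =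
      K.filter fun v => ¬ (ty0 v).isRight = true := (filter_not _ _).symm
  refine ⟨K.filter fun v => (ty0 v).isRight = true, fun v => (ty0 v).elim id fun _ => a₀,
    fun v => (ty0 v).elim (fun _ => b₀) id, filter_subset _ _, ?_, ?_, fun v hv => ?_,
    fun v hv => ?_⟩
  · have h1 := key fun x => ¬ x.isRight = true
    rw [Multiset.filter_eq_self.2 (by simp), Multiset.filter_eq_nil.2 (by simp), add_zero] at h1
    have h2 := congrArg (Multiset.map (Sum.elim id fun _ => a₀)) h1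
    rw [Multiset.map_map, Multiset.map_map, Sum.elim_comp_inl, Multiset.map_id] at h2
    rw [e]
    exact h2
  · have h1 := key fun x => x.isRight = true
    rw [Multiset.filter_eq_nil.2 (by simp), Multiset.filter_eq_self.2 (by simp), zero_add] at h1
    have h2 := congrArg (Multiset.map (Sum.elim (fun _ => b₀) id)) h1
    rw [Multiset.map_map, Multiset.map_map, Sum.elim_comp_inr, Multiset.map_id] at h2
    exact h2
  · rw [e] at hv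
    have h1 := (mem_filter.1 hv).2
    rcases h2 : ty0 v with a | b
    · simp [h2]
    · simp [h2] at h1
  · have h1 := (mem_filter.1 hv).2
    rcases h2 : ty0 v with a | b
    · simp [h2] at h1
    · simp [h2]

theorem xgridr_face {ι : Type} [DecidableEq ι] {K Y : Finset ι} {G G₀ : Finset (Finset ι)}
    (hT : Tri K G) (h3 : ∀ t ∈ G₀, t.card = 3) (hc : G₀.card = Y.card)
    (hd : ∀ y ∈ Y, deg G y = 3) (h : ∀ t ∈ G₀, ∃ y ∈ Y, ∀ v ∈ t, Nb G y v) {y a b c : ι}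
    (hy : y ∈ Y) (ha : Nb G y a) (hb : Nb G y b) (hc' : Nb G y c) (hab : a ≠ b) (hac : a ≠ c)
    (hbc : b ≠ c) : T G₀ a b c := by
  choose f hf hf' using h
  have hN : ∀ t ht, t = K.filter fun u => Nb G (f t ht) u := fun t ht =>
    eq_of_subset_of_card_le
      (fun v hv => mem_filter.2 ⟨hT.nb_mem (hf' t ht v hv).symm, hf' t ht v hv⟩)
      (by rw [← hT.deg_eq, hd _ (hf t ht), h3 t ht])
  obtain ⟨t, ht, rfl⟩ := surj_on_of_inj_on_of_card_le f hf (fun t t' ht ht' e => by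
    rw [hN t ht, e, ← hN t' ht']) hc.ge y hy
  have e : t = {a, b, c} := eq_of_subset_of_card_le (fun v hv => by
    simpa using hT.nb3 (hd _ hy) ha hb hc' hab hac hbc (hf' t ht v hv))
    (by rw [h3 t ht]; exact card_le_three)
  exact ⟨hab, hac, hbc, e ▸ ht⟩

theorem grid_base {ι C : Type} [DecidableEq ι] [Fintype C] {bl : C} {A : Multiset (BT C)}
    {B : Multiset FT} (h : OK2 bl A B) {K : Finset ι} {G : Finset (Finset ι)} (hT : Tri K G)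
    (ht : Top dX (bX bl) K G (uX A B)) :
    ∃ (K₀ : Finset ι) (G₀ : Finset (Finset ι)) (ty : ι → BT C), Tri K₀ G₀ ∧ K₀.val.map ty = A ∧
      (∀ v ∈ K₀, deg G₀ v = ((ty v).1 : ℕ)) ∧
      (∀ v ∈ K₀, ∀ k ∈ (ty v).2.2.1, ∃ p q, T G₀ v p q ∧ (ty p).2.1 = (ty v).2.1 + dl k ∧
        (ty q).2.1 = (ty v).2.1 + dl (k + 1)) ∧
      ∀ l, Mt K₀ G₀ fun v => hasA bl (ty v) (.inr l) := by
  obtain ⟨ty0, hm, hdeg, hmt⟩ := ht
  obtain ⟨-, h4, hB, hcnt⟩ := h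
  obtain ⟨Y, ty, ft, hY, hA', hB', hl, hr⟩ := xgridr_split (0, 0, ∅, q4 bl) none hm
  have cA : (K \ Y).card = A.card := by rw [← hA', Multiset.card_map, card_val]
  have cB : Y.card = B.card := by rw [← hB', Multiset.card_map, card_val]
  have h5 : 5 ≤ K.card := by
    have := card_sdiff_add_card_eq_card hY
    omega
  have hd3 : ∀ y ∈ Y, deg G y = 3 := fun y hy => by
    rw [hdeg y (hY hy), hr y hy]
    rfl
  obtain ⟨G₀, L, g1, g2, g3, -, g5, g6, g7⟩ := unstack_all Y K G hT hY (by omega) hd3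
  obtain rfl : L = G₀ := eq_of_subset_of_card_le g2 (by
    have := g1.card
    omega)
  have pA : ∀ l, ∀ v ∈ K \ Y, l ∈ bX bl (ty0 v) ↔ hasA bl (ty v) l := fun l v hv => by
    rw [hl v hv]
    simp [bX]
  have pB : ∀ l, ∀ y ∈ Y, l ∈ bX bl (ty0 y) ↔ hasB (ft y) l := fun l v hv => by
    rw [hr v hv]
    simp [bX]
  have F : ∀ l : ZMod 7 × Fin 6,
      (∀ y ∈ Y, hasB (C := C) (ft y) (.inl l) → ∃ p, Nb G y p ∧ (ty p).2.1 = l.1) ∧
      ∀ v ∈ K \ Y, hasA bl (ty v) (.inl l) → ∃ y ∈ Y, hasB (C := C) (ft y) (.inl l) ∧ Nb G y v := by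
    intro l
    obtain ⟨μ, hμ⟩ := hmt (.inl l)
    have k1 : ∀ y ∈ Y.filter fun y => hasB (C := C) (ft y) (.inl l),
        μ y ∈ (K \ Y).filter (fun v => hasA bl (ty v) (.inl l)) ∧ μ (μ y) = y ∧ Nb G y (μ y) := by
      intro y hy
      obtain ⟨hy, hy'⟩ := mem_filter.1 hy
      obtain ⟨m1, m2, m3, m4⟩ := hμ y (hY hy) ((pB _ y hy).2 hy')
      have m5 : μ y ∈ K \ Y :=
        mem_sdiff.2 ⟨m1, fun hh => hT.not_nb33 h5 (hd3 y hy) (hd3 _ hh) m4⟩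
      exact ⟨mem_filter.2 ⟨m5, (pA _ _ m5).1 m2⟩, m3, m4⟩
    refine ⟨fun y hy hy' => ?_, fun v hv hv' => ?_⟩
    · obtain ⟨m1, -, m2⟩ := k1 y (mem_filter.2 ⟨hy, hy'⟩)
      exact ⟨μ y, m2, (mem_filter.1 m1).2.1.symm⟩
    · have c1 := hcnt l
      rw [← hA', ← hB', Multiset.countP_map, Multiset.countP_map, ← filter_val, ← filter_val,
        card_val, card_val] at c1
      obtain ⟨y, hy, rfl⟩ := surj_on_of_inj_on_of_card_le (fun y _ => μ y)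
        (fun y hy => (k1 y hy).1) (fun y y' hy hy' e => by
          rw [← (k1 y hy).2.1, e, (k1 y' hy').2.1]) c1.le v (mem_filter.2 ⟨hv, hv'⟩)
      exact ⟨y, (mem_filter.1 hy).1, (mem_filter.1 hy).2, (k1 y hy).2.2⟩
  refine ⟨K \ Y, L, ty, g1, hA', fun v hv => ?_, fun v hv k hk => ?_, fun l => ?_⟩
  · have h1 := hdeg v (mem_sdiff.1 hv).1
    rw [g5 v hv, hl v hv] at h1
    have h2 : deg L v + deg L v = 2 * ((ty v).1 : ℕ) := h1
    omega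
  · obtain ⟨y, hy, hy1, hy2⟩ := (F ((ty v).2.1, k)).2 v hv ⟨rfl, hk⟩
    obtain ⟨k1, k2, s1, s2⟩ := xgridr_sec hy1
    obtain ⟨p, p1, p2⟩ := (F _).1 y hy s1
    obtain ⟨q, q1, q2⟩ := (F _).1 y hy s2
    obtain ⟨d1, d2, d3⟩ := xgridr_dl (ty v).2.1 k
    refine ⟨p, q, xgridr_face hT g1.three g3 hd3 g7 hy hy2 p1 q1 ?_ ?_ ?_, p2, q2⟩
    · rintro rfl
      exact d1 p2
    · rintro rfl
      exact d2 q2
    · rintro rfl
      exact d3 (p2.symm.trans q2)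
  · obtain ⟨μ, hμ⟩ := hmt (.inr l)
    refine ⟨μ, fun v hv hv' => ?_⟩
    obtain ⟨m1, m2, m3, m4⟩ := hμ v (mem_sdiff.1 hv).1 ((pA _ v hv).2 hv')
    have m5 : μ v ∈ K \ Y := mem_sdiff.2 ⟨m1, fun hh => xgridr_inr _ _ ((pB _ _ hh).1 m2)⟩
    exact ⟨m5, (pA _ _ m5).1 m2, m3, g6 v hv _ m5 m4⟩

end Pool.Agent.P.MP_e40812_co
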