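import Pool.Agent.P.MP_e40812_co.XGridR

/-! Seven colours force the triangular lattice. -/

namespace Pool.Agent.P.MP_e40812_co

open Finset Pool.Agent.Lib.PolyTime
open scoped Classical

theorem xgrids_dl_inj : Function.Injective dl := by
  intro a b
  revert a b
  decide

theorem xgrids_dl_ne (k : Fin 6) : dl k ≠ 0 := by
  revert k
  decide

theorem xgrids_key {ι : Type} [DecidableEq ι] {K : Finset ι} {G : Finset (Finset ι)}
    (hT : Tri K G) (cls : ι → ZMod 7) {v : ι} (hd : deg G v = 6)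
    (hp : ∀ k, ∃ p, Nb G v p ∧ cls p = cls v + dl k) :
    (∀ u, Nb G v u → cls u ≠ cls v) ∧
      ∀ u u', Nb G v u → Nb G v u' → cls u = cls u' → u = u' := by
  choose p hp1 hp2 using hp
  have hinj : Function.Injective p := by
    intro a b hab
    apply xgrids_dl_inj
    have h1 := hp2 a
    rw [hab, hp2 b] at h1
    exact (add_left_cancel h1).symm
  have hall : ∀ u, Nb G v u → ∃ k, p k = u := by
    intro u hu
    have hc : (univ.image p).card = 6 := by
      rw [card_image_of_injective _ hinj]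
      simp
    have := hT.nb_of_card (univ.image p) (by
      intro x hx
      obtain ⟨k, -, rfl⟩ := mem_image.1 hx
      exact hp1 k) (by rw [hc, hd]) hu
    obtain ⟨k, -, hk⟩ := mem_image.1 this
    exact ⟨k, hk⟩
  refine ⟨fun u hu => ?_, fun u u' hu hu' e => ?_⟩
  · obtain ⟨k, rfl⟩ := hall u hu
    rw [hp2]
    intro e
    exact xgrids_dl_ne k (by simpa using e)
  · obtain ⟨k, rfl⟩ := hall u hu
    obtain ⟨k', rfl⟩ := hall u' hu'
    rw [hp2, hp2] at e
    rw [xgrids_dl_inj (add_left_cancel e)]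

/-- The neighbour in direction `δ`. -/
noncomputable def xgridsNb {ι : Type} [DecidableEq ι] (G : Finset (Finset ι)) (cls : ι → ZMod 7)
    (δ : ZMod 7) (v : ι) : ι :=
  if h : ∃ u, Nb G v u ∧ cls u = cls v + δ then h.choose else v

theorem xgrids_nb_eq {ι : Type} [DecidableEq ι] {G : Finset (Finset ι)} {cls : ι → ZMod 7}
    {δ : ZMod 7} {v u : ι}
    (hu : ∀ u u', Nb G v u → Nb G v u' → cls u = cls u' → u = u') (h1 : Nb G v u)
    (h2 : cls u = cls v + δ) : xgridsNb G cls δ v = u := by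
  have h : ∃ u, Nb G v u ∧ cls u = cls v + δ := ⟨u, h1, h2⟩
  unfold xgridsNb
  rw [dif_pos h]
  exact hu _ _ h.choose_spec.1 h1 (h.choose_spec.2.trans h2.symm)

theorem grid_sound {ι C : Type} [DecidableEq ι] [Fintype C] {bl : C} {A : Multiset (BT C)}
    {B : Multiset FT} (h : OK2 bl A B) {K : Finset ι} {G : Finset (Finset ι)} (hT : Tri K G)
    (ht : Top dX (bX bl) K G (uX A B)) :
    ∃ P : PG ι C bl, P.S.val.map P.col = (A.map fun a => a.2.2.2).filter (· ≠ q4 bl) := by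
  obtain ⟨K₀, G₀, ty, h0, hA, hd, hs, hm⟩ := grid_base h hT ht
  set cls : ι → ZMod 7 := fun v => (ty v).2.1 with hcls
  set S : Finset ι := K₀.filter fun v => (ty v).2.2.2 ≠ q4 bl with hS
  have hmem : ∀ v, v ∈ S ↔ v ∈ K₀ ∧ (ty v).2.2.2 ≠ q4 bl := fun v => mem_filter
  have hsec : ∀ v ∈ S, deg G₀ v = 6 ∧ ∀ k, ∃ p q, T G₀ v p q ∧ cls p = cls v + dl k ∧
      cls q = cls v + dl (k + 1) := by
    intro v hv
    obtain ⟨hv1, hv2⟩ := (hmem v).1 hv
    have hvA : ty v ∈ A := by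
      rw [← hA]
      exact Multiset.mem_map_of_mem _ hv1
    obtain ⟨e1, e2⟩ := (h.1 _ hvA).2 hv2
    refine ⟨by rw [hd v hv1, e1]; rfl, fun k => hs v hv1 k (by rw [e2]; exact mem_univ k)⟩
  have hkey : ∀ v ∈ S, (∀ u, Nb G₀ v u → cls u ≠ cls v) ∧
      ∀ u u', Nb G₀ v u → Nb G₀ v u' → cls u = cls u' → u = u' := by
    intro v hv
    obtain ⟨h1, h2⟩ := hsec v hv
    refine xgrids_key h0 cls h1 fun k => ?_
    obtain ⟨p, q, t, e, -⟩ := h2 k
    exact ⟨p, t.nb, e⟩
  refine ⟨⟨S, fun v => (ty v).2.2.2, xgridsNb G₀ cls 1, xgridsNb G₀ cls 3, xgridsNb G₀ cls 6,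
    xgridsNb G₀ cls 4, ?_, ?_, ?_⟩, ?_⟩
  · intro v hv hc
    obtain ⟨μ, hμ⟩ := hm (cls v, false, (ty v).2.2.2.1)
    obtain ⟨h1, h2, -, h4⟩ := hμ v ((hmem v).1 hv).1 ⟨hc, Or.inl ⟨rfl, rfl⟩⟩
    obtain ⟨-, h5⟩ := h2
    rcases h5 with h5 | h5
    · exact absurd h5.1.symm ((hkey v hv).1 _ h4)
    · have hu : μ v ∈ S := by
        refine (hmem _).2 ⟨h1, fun e => hc ?_⟩
        rw [← h5.2, e]
        rfl
      have e1 : cls (μ v) = cls v + 1 := h5.1.symm
      rw [xgrids_nb_eq (hkey v hv).2 h4 e1]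
      refine ⟨hu, h5.2, xgrids_nb_eq (hkey _ hu).2 h4.symm ?_⟩
      rw [e1, add_assoc]
      have : (1 : ZMod 7) + 6 = 0 := by decide
      rw [this, add_zero]
  · intro v hv hc
    obtain ⟨μ, hμ⟩ := hm (cls v, true, (ty v).2.2.2.2.1)
    obtain ⟨h1, h2, -, h4⟩ := hμ v ((hmem v).1 hv).1 ⟨hc, Or.inl ⟨rfl, rfl⟩⟩
    obtain ⟨-, h5⟩ := h2
    rcases h5 with h5 | h5
    · exact absurd h5.1.symm ((hkey v hv).1 _ h4)
    · have hu : μ v ∈ S := by
        refine (hmem _).2 ⟨h1, fun e => hc ?_⟩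
        rw [← h5.2, e]
        rfl
      have e1 : cls (μ v) = cls v + 3 := h5.1.symm
      rw [xgrids_nb_eq (hkey v hv).2 h4 e1]
      refine ⟨hu, h5.2, xgrids_nb_eq (hkey _ hu).2 h4.symm ?_⟩
      rw [e1, add_assoc]
      have : (3 : ZMod 7) + 4 = 0 := by decide
      rw [this, add_zero]
  · intro v hv he hn
    obtain ⟨p, q, t, ep, eq⟩ := (hsec v hv).2 0
    have d0 : dl 0 = 1 := by decide
    have d1 : dl (0 + 1) = 3 := by decide
    have d1' : dl 1 = 3 := by decide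
    have d2 : dl (1 + 1) = 2 := by decide
    rw [d0] at ep
    rw [d1] at eq
    have e1 := xgrids_nb_eq (hkey v hv).2 t.nb ep
    have e2 := xgrids_nb_eq (hkey v hv).2 t.nb' eq
    rw [e1] at he
    rw [e2] at hn
    rw [e1, e2]
    obtain ⟨x, y, t', ex, ey⟩ := (hsec p he).2 1
    rw [d1'] at ex
    rw [d2] at ey
    have hy : y = q := by
      refine (hkey p he).2 _ _ t'.nb' t.rot.nb ?_
      rw [ey, ep, eq, add_assoc]
      have : (1 : ZMod 7) + 2 = 3 := by decide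
      rw [this]
    subst hy
    rw [xgrids_nb_eq (hkey p he).2 t'.nb ex]
    refine (xgrids_nb_eq (hkey _ hn).2 t'.s13.nb ?_).symm
    rw [ex, ey, add_assoc]
    have : (2 : ZMod 7) + 1 = 3 := by decide
    rw [this]
  · show S.val.map (fun v => (ty v).2.2.2) = _
    rw [← hA, Multiset.map_map, Multiset.filter_map, hS, filter_val]
    rfl

end Pool.Agent.P.MP_e40812_co
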