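import Pool.Agent.P.MP_e40812_co.XDefs

/-! Blocks on the spiral. -/

namespace Pool.Agent.P.MP_e40812_co

open Finset Pool.Agent.Lib.PolyTime
open scoped Classical

theorem xisl_tl_add {C : Type} (a b : ℕ) (g : ℤ → Q C) :
    tl (a + b) g = tl a g +
      (Multiset.range b).map fun n : ℕ => (((a + n : ℕ) : ZMod 7), g ((a + n : ℕ) : ℤ)) := by
  unfold tl
  rw [Multiset.range_add, Multiset.map_add, Multiset.map_map]
  rfl

theorem Sp.mono {C : Type} {bl : C} {c len len' : ℕ} {μ : Multiset (ZMod 7 × Q C)}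
    (h : Sp bl c len μ) (hl : len ≤ len') : Sp bl c len' μ := by
  obtain ⟨g, ⟨h1, h2, h3⟩, rfl⟩ := h
  obtain ⟨d, rfl⟩ := Nat.exists_eq_add_of_le hl
  refine ⟨g, ⟨h1, h2, fun n hn => h3 n (by omega)⟩, ?_⟩
  rw [xisl_tl_add, Multiset.filter_add, add_eq_left, Multiset.filter_eq_nil]
  intro p hp
  obtain ⟨n, -, rfl⟩ := Multiset.mem_map.1 hp
  exact not_not.2 (h3 _ (by omega))

theorem Sp.zero {C : Type} (bl : C) (c : ℕ) : Sp bl c 0 0 :=
  ⟨fun _ => q4 bl, ⟨fun _ => rfl, fun _ => rfl, fun _ _ => rfl⟩, by simp [tl]⟩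

theorem Sp.add {C : Type} {bl : C} {c k len : ℕ} {μ ν : Multiset (ZMod 7 × Q C)}
    (h : Sp bl c (7 * k) μ) (h' : Sp bl c len ν) : Sp bl c (7 * k + len) (μ + ν) := by
  obtain ⟨g, ⟨h1, h2, h3⟩, rfl⟩ := h
  obtain ⟨f, ⟨f1, f2, f3⟩, rfl⟩ := h'
  refine ⟨fun n => if n < (7 * k : ℕ) then g n else f (n - (7 * k : ℕ)), ⟨fun n => ?_, fun n => ?_,
    fun n hn => ?_⟩, ?_⟩
  · dsimp only
    split_ifs with a b b
    · exact h1 n
    · rw [h1 n, h3 _ (by omega), show n + 1 - (7 * k : ℕ) = n - (7 * k : ℕ) + 1 by ring, ← f1,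
        f3 _ (by omega)]
      rfl
    · omega
    · rw [f1, show n + 1 - (7 * k : ℕ) = n - (7 * k : ℕ) + 1 by ring]
  · dsimp only
    split_ifs with a b b
    · exact h2 n
    · rw [h2 n, h3 _ (by omega), show n + c - (7 * k : ℕ) = n - (7 * k : ℕ) + c by ring, ← f2,
        f3 _ (by omega)]
      rfl
    · omega
    · rw [f2, show n + c - (7 * k : ℕ) = n - (7 * k : ℕ) + c by ring]
  · dsimp only
    split_ifs with a
    · exact h3 _ (by omega)
    · exact f3 _ (by omega)
  · rw [xisl_tl_add, Multiset.filter_add]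
    congr 2
    · refine Multiset.map_congr rfl fun n hn => ?_
      rw [Multiset.mem_range] at hn
      dsimp only
      rw [if_pos (by omega)]
    · refine Multiset.map_congr rfl fun n _ => ?_
      rw [if_neg (by omega)]
      congr 1
      · push_cast
        rw [show (7 : ZMod 7) = 0 from rfl]
        ring
      · congr 1
        omega

theorem xisl_class (β : ZMod 7) (k : ℕ) :
    (Multiset.range (7 * k)).countP (fun n : ℕ => (n : ZMod 7) = β) = k := by
  induction k with
  | zero => simp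
  | succ k ih =>
    rw [Nat.mul_succ, Multiset.range_add, Multiset.countP_add, ih, Multiset.countP_map]
    congr 1
    have e : ∀ n : ℕ, ((7 * k + n : ℕ) : ZMod 7) = n := fun n => by
      push_cast
      rw [show (7 : ZMod 7) = 0 from rfl]
      ring
    simp only [e]
    clear ih
    revert β
    decide

theorem xisl_blank {X : Type} (x : X) (ν : Multiset (ZMod 7 × X)) (h : ∀ p ∈ ν, p.2 = x) :
    ν = ∑ β : ZMod 7, Multiset.replicate (ν.countP fun p => p.1 = β) (β, x) := by
  induction ν using Multiset.induction_on with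
  | empty => simp
  | cons p ν ih =>
    have e : ∀ β : ZMod 7, Multiset.replicate ((p ::ₘ ν).countP fun p => p.1 = β) (β, x) =
        Multiset.replicate (ν.countP fun p => p.1 = β) (β, x) +
          if p.1 = β then {(β, x)} else 0 := fun β => by
      rw [Multiset.countP_cons, Multiset.replicate_add]
      split_ifs <;> simp
    simp only [e]
    rw [Finset.sum_add_distrib, ← ih fun q hq => h q (Multiset.mem_cons_of_mem hq),
      Finset.sum_ite_eq, if_pos (Finset.mem_univ _), ← h p (Multiset.mem_cons_self _ _), add_comm,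
      Multiset.singleton_add]

theorem Sp.fill {C : Type} {bl : C} {c k : ℕ} {μ : Multiset (ZMod 7 × Q C)}
    (h : Sp bl c (7 * k) μ) : ∃ g, Val bl c (7 * k) g ∧ tl (7 * k) g = fill bl k μ := by
  obtain ⟨g, hg, rfl⟩ := h
  refine ⟨g, hg, ?_⟩
  have hc : ∀ β : ZMod 7, (tl (7 * k) g).countP (fun p => p.1 = β) = k := fun β => by
    unfold tl
    rw [Multiset.countP_map, ← Multiset.countP_eq_card_filter]
    exact xisl_class β k
  generalize tl (7 * k) g = T at hc
  have e := Multiset.filter_add_not (fun p : ZMod 7 × Q C => p.2 ≠ q4 bl) T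
  unfold P.MP_e40812_co.fill
  generalize T.filter (fun p : ZMod 7 × Q C => p.2 ≠ q4 bl) = μ at e
  have hb := xisl_blank (q4 bl) (T.filter fun p : ZMod 7 × Q C => ¬p.2 ≠ q4 bl) fun p hp =>
    not_not.1 (Multiset.mem_filter.1 hp).2
  generalize T.filter (fun p : ZMod 7 × Q C => ¬p.2 ≠ q4 bl) = ν at e hb
  subst e
  congr 1
  rw [hb]
  refine Finset.sum_congr rfl fun β _ => ?_
  rw [← hc β, Multiset.countP_add, Nat.add_sub_cancel_left]

theorem xisl_pts {C : Type} {bl : C} {c len : ℕ} (g : ℤ → Q C) (L : Multiset (ℕ × Q C))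
    (hL : (L.map Prod.fst).Nodup) (h1 : ∀ n, (g n).1 = (g (n + 1)).2.2.1)
    (h2 : ∀ n, (g n).2.1 = (g (n + c)).2.2.2)
    (h3 : ∀ x ∈ L, x.1 < len ∧ g x.1 = x.2 ∧ x.2 ≠ q4 bl)
    (h4 : ∀ n : ℤ, (∀ x ∈ L, n ≠ x.1) → g n = q4 bl) :
    Sp bl c len (L.map fun x => ((x.1 : ZMod 7), x.2)) := by
  refine ⟨g, ⟨h1, h2, fun n hn => h4 n fun x hx => ?_⟩, ?_⟩
  · have := (h3 x hx).1
    omega
  unfold tl
  rw [Multiset.filter_map]
  have e : (Multiset.range len).filter ((fun p : ZMod 7 × Q C => p.2 ≠ q4 bl) ∘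
      fun n : ℕ => ((n : ZMod 7), g n)) = L.map Prod.fst := by
    refine (Multiset.Nodup.ext ((Multiset.nodup_range len).filter _) hL).2 fun n => ?_
    simp only [Multiset.mem_filter, Multiset.mem_range, Function.comp, Multiset.mem_map]
    constructor
    · rintro ⟨-, hn⟩
      by_contra hc
      exact hn (h4 n fun x hx e => hc ⟨x, hx, by omega⟩)
    · rintro ⟨x, hx, rfl⟩
      obtain ⟨a1, a2, a3⟩ := h3 x hx
      exact ⟨a1, a2 ▸ a3⟩
  rw [e, Multiset.map_map]
  exact Multiset.map_congr rfl fun x hx => by simp [(h3 x hx).2.1]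

variable {D : Type} {c : ℕ}

/-- The tiles of an island with centre `p`. -/
def xisl_g (q : Q (PC D)) (p c n : ℤ) : Q (PC D) :=
  if n = p then q else if n = p + 1 then aE q.1 else if n + 1 = p then aW q.2.2.1 else
    if n = p + c then aN q.2.1 else if n + c = p then aS q.2.2.2 else
      if n = p + c + 1 then cap else q4 none

theorem xisl_g1 (q : Q (PC D)) (p c n : ℤ) (hc : 3 ≤ c) :
    (xisl_g q p c n).1 = (xisl_g q p c (n + 1)).2.2.1 := by
  unfold xisl_g
  split_ifs <;> first | rfl | omega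

theorem xisl_g2 (q : Q (PC D)) (p c n : ℤ) (hc : 3 ≤ c) :
    (xisl_g q p c n).2.1 = (xisl_g q p c (n + c)).2.2.2 := by
  unfold xisl_g
  split_ifs <;> first | rfl | omega

theorem xisl_g3 (q : Q (PC D)) (p c n : ℤ) (hc : 3 ≤ c) :
    (n = p → xisl_g q p c n = q) ∧ (n = p + 1 → xisl_g q p c n = aE q.1) ∧
      (n + 1 = p → xisl_g q p c n = aW q.2.2.1) ∧ (n = p + c → xisl_g q p c n = aN q.2.1) ∧
      (n + c = p → xisl_g q p c n = aS q.2.2.2) ∧ (n = p + c + 1 → xisl_g q p c n = cap) := by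
  unfold xisl_g
  refine ⟨?_, ?_, ?_, ?_, ?_, ?_⟩ <;> intro h <;> split_ifs <;> first | rfl | omega

theorem sp_island (hc : 3 ≤ c) (h7 : (c : ZMod 7) = 3) (β : ZMod 7) (q : Q (PC D))
    (h1 : q.1 ≠ none) (h2 : q.2.1 ≠ none) (h3 : q.2.2.1 ≠ none) (h4 : q.2.2.2 ≠ none) :
    Sp none c (7 * c) ((β, q) ::ₘ ext (β, q)) := by
  obtain ⟨r, hr, hβ⟩ : ∃ r : ℕ, r < 7 ∧ (r : ZMod 7) = β - 3 :=
    ⟨(β - 3).val, ZMod.val_lt _, ZMod.natCast_zmod_val _⟩
  obtain ⟨b, rfl⟩ : ∃ b, c = b + 1 := ⟨c - 1, by omega⟩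
  have hb : (b : ZMod 7) = 2 := by
    push_cast at h7
    linear_combination h7
  have hc' : (3 : ℤ) ≤ (b + 1 : ℕ) := by omega
  have g3 := fun n => xisl_g3 q (r + b + 1) (b + 1 : ℕ) n hc'
  have := xisl_pts (bl := (none : PC D)) (c := b + 1) (len := 7 * (b + 1))
    (xisl_g q (r + b + 1) (b + 1 : ℕ))
    {(r + b + 1, q), (r + b + 2, aE q.1), (r + b, aW q.2.2.1), (r + 2 * b + 2, aN q.2.1),
      (r, aS q.2.2.2), (r + 2 * b + 3, cap)}
    (by simp; omega) (fun n => xisl_g1 q _ _ n hc') (fun n => xisl_g2 q _ _ n hc')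
    (fun x hx => by
      simp only [Multiset.insert_eq_cons, Multiset.mem_cons, Multiset.mem_singleton] at hx
      rcases hx with rfl | rfl | rfl | rfl | rfl | rfl
      · exact ⟨by omega, (g3 _).1 (by omega), fun e => h1 (congrArg (·.1) e)⟩
      · exact ⟨by omega, (g3 _).2.1 (by omega), fun e => h1 (congrArg (·.2.2.1) e)⟩
      · exact ⟨by omega, (g3 _).2.2.1 (by omega), fun e => h3 (congrArg (·.1) e)⟩
      · exact ⟨by omega, (g3 _).2.2.2.1 (by omega), fun e => h2 (congrArg (·.2.2.2) e)⟩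
      · exact ⟨by omega, (g3 _).2.2.2.2.1 (by omega), fun e => h4 (congrArg (·.2.1) e)⟩
      · exact ⟨by omega, (g3 _).2.2.2.2.2 (by omega), by simp [cap, q4, spc]⟩)
    (fun n hn => by
      simp only [Multiset.insert_eq_cons, Multiset.mem_cons, Multiset.mem_singleton,
        forall_eq_or_imp, forall_eq] at hn
      unfold xisl_g
      split_ifs <;> first | rfl | omega)
  convert this using 1
  simp only [ext, Multiset.insert_eq_cons, Multiset.map_cons, Multiset.map_singleton]
  push_cast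
  rw [hβ, hb, show β - 3 + 2 + 1 = β by ring, show β - 3 + 2 + 2 = β + 1 by ring,
    show β - 3 + 2 = β - 1 by ring, show β - 3 + 2 * 2 + 2 = β + 3 by ring,
    show β - 3 + 2 * 2 + 3 = β + 4 by ring]

theorem sp_hd (hc : 3 ≤ c) (β : ZMod 7) {x : PC D} (hx : x ≠ none) :
    Sp none c (7 * c) (hd β x) := by
  obtain ⟨r, hr, hβ⟩ : ∃ r : ℕ, r < 7 ∧ (r : ZMod 7) = β - 1 :=
    ⟨(β - 1).val, ZMod.val_lt _, ZMod.natCast_zmod_val _⟩
  have := xisl_pts (bl := (none : PC D)) (c := c) (len := 7 * c)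
    (fun n => if n = r then aW x else if n = r + 1 then aE x else q4 none)
    {(r, aW x), (r + 1, aE x)}
    (by simp)
    (fun n => by split_ifs <;> first | rfl | omega)
    (fun n => by split_ifs <;> rfl)
    (fun y hy => by
      simp only [Multiset.insert_eq_cons, Multiset.mem_cons, Multiset.mem_singleton] at hy
      rcases hy with rfl | rfl <;>
        refine ⟨by omega, by dsimp only; split_ifs <;> first | rfl | omega, ?_⟩ <;>
        simp [q4, aE, aW, Prod.ext_iff, *])
    (fun n hn => by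
      simp only [Multiset.insert_eq_cons, Multiset.mem_cons, Multiset.mem_singleton,
        forall_eq_or_imp, forall_eq] at hn
      split_ifs <;> first | rfl | omega)
  convert this using 1
  simp only [hd, Multiset.insert_eq_cons, Multiset.map_cons, Multiset.map_singleton]
  push_cast
  rw [hβ, sub_add_cancel]

theorem sp_vd (hc : 3 ≤ c) (h7 : (c : ZMod 7) = 3) (β : ZMod 7) {x : PC D} (hx : x ≠ none) :
    Sp none c (7 * c) (vd β x) := by
  obtain ⟨r, hr, hβ⟩ : ∃ r : ℕ, r < 7 ∧ (r : ZMod 7) = β - 3 :=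
    ⟨(β - 3).val, ZMod.val_lt _, ZMod.natCast_zmod_val _⟩
  have := xisl_pts (bl := (none : PC D)) (c := c) (len := 7 * c)
    (fun n => if n = r then aS x else if n = r + c then aN x else
      if n = r + c + 1 then cap else q4 none)
    {(r, aS x), (r + c, aN x), (r + c + 1, cap)}
    (by simp; omega)
    (fun n => by split_ifs <;> first | rfl | omega)
    (fun n => by split_ifs <;> first | rfl | omega)
    (fun y hy => by
      simp only [Multiset.insert_eq_cons, Multiset.mem_cons, Multiset.mem_singleton] at hy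
      rcases hy with rfl | rfl | rfl <;>
        refine ⟨by omega, by dsimp only; split_ifs <;> first | rfl | omega, ?_⟩ <;>
        simp [q4, aN, aS, cap, spc, Prod.ext_iff, *])
    (fun n hn => by
      simp only [Multiset.insert_eq_cons, Multiset.mem_cons, Multiset.mem_singleton,
        forall_eq_or_imp, forall_eq] at hn
      split_ifs <;> first | rfl | omega)
  convert this using 1
  simp only [vd, Multiset.insert_eq_cons, Multiset.map_cons, Multiset.map_singleton]
  push_cast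
  rw [hβ, h7, sub_add_cancel]

end Pool.Agent.P.MP_e40812_co
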