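import Pool.Agent.P.MP_e40812_co.XStack

/-! Construction of the layers. -/

namespace Pool.Agent.P.MP_e40812_co

open Finset Pool.Agent.Lib.PolyTime
open scoped Classical

theorem xlayb_many {V : Finset ℕ} {F : Finset (Finset ℕ)} (h : Pre V F) (g : Geo V F)
    (S : Finset (Finset ℕ)) : S ⊆ F → ∃ (V' : Finset ℕ) (F' : Finset (Finset ℕ)),
      Ext V F V' F' (fun s => s ∈ S) (deg S) (Multiset.replicate S.card 3) ∧
        ∀ p q, Nb F p q → Nb F' p q := by
  induction S using Finset.induction_on with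
  | empty =>
    intro _
    exact ⟨V, F, ⟨h, g, subset_rfl, fun s hs _ => hs, fun v _ => by simp [deg], by simp⟩,
      fun _ _ k => k⟩
  | insert t S ht ih =>
    intro hS
    obtain ⟨V', F', e, hn⟩ := ih ((subset_insert _ _).trans hS)
    have htF : t ∈ F := hS (mem_insert_self _ _)
    have htF' : t ∈ F' := e.keep t htF ht
    obtain ⟨a, b, c, k, rfl⟩ := e.pre.exists_T0 htF'
    obtain ⟨z, hz⟩ := Infinite.exists_notMem_finset V'
    have hy : ∀ s ∈ F', z ∉ s := fun s hs hy => hz (e.pre.sub s hs hy)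
    have e2 : Ext V' F' (insert z V') (stk F' z a b c) (fun s => s = {a, b, c})
        (fun v => if v ∈ ({a, b, c} : Finset ℕ) then 1 else 0) {3} := by
      refine ⟨e.pre.stk k hz, Geo.stk e.pre e.geo k hz, subset_insert _ _, fun s hs hne => ?_,
        fun v hv => ?_, ?_⟩
      · exact mem_stk.2 (Or.inr (Or.inr (Or.inr ⟨hne, hs⟩)))
      · exact deg_stk k hy fun e' => hz (e' ▸ hv)
      · rw [insert_sdiff_of_notMem _ hz, Finset.sdiff_self]
        simp [deg_stk_self k hy]
    have e3 := e.trans e2 fun v hv => if_neg fun hh => hv (h.sub _ htF hh)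
    refine ⟨insert z V', stk F' z a b c, ⟨e3.pre, e3.geo, e3.sub, fun s hs hne => ?_,
      fun v hv => ?_, ?_⟩, fun p q hpq => stk_nb_up k hy (hn p q hpq)⟩
    · refine e3.keep s hs fun hh => hne ?_
      rcases hh with hh | hh
      · exact mem_insert_of_mem hh
      · exact hh ▸ mem_insert_self _ _
    · rw [e3.dg v hv]
      congr 1
      unfold deg
      rw [filter_insert]
      split_ifs with hh
      · rw [card_insert_of_notMem fun hm => ht (mem_filter.1 hm).1]
      · rfl
    · rw [e3.new, card_insert_of_notMem ht, Multiset.replicate_add]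
      rfl

theorem xlayb_one {K : Finset ℕ} {P : ℕ → Prop} [DecidablePred P] {μ : ℕ → ℕ}
    (hμ : ∀ v ∈ K, P v → μ v ∈ K ∧ P (μ v) ∧ μ (μ v) = v ∧ v ≠ μ v) {v : ℕ} (hv : v ∈ K) :
    ((K.filter fun a => P a ∧ a < μ a).filter fun a => v = a ∨ v = μ a).card =
      if P v then 1 else 0 := by
  split_ifs with hP
  · obtain ⟨h1, h2, h3, h4⟩ := hμ v hv hP
    rcases lt_or_gt_of_ne h4 with h5 | h5
    · refine card_eq_one.2 ⟨v, ?_⟩
      ext a
      simp only [mem_filter, mem_singleton]
      constructor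
      · rintro ⟨⟨k1, k2, k3⟩, k4 | k4⟩
        · exact k4.symm
        · have := (hμ a k1 k2).2.2.1
          rw [← k4] at this k3
          omega
      · rintro rfl
        exact ⟨⟨hv, hP, h5⟩, Or.inl rfl⟩
    · refine card_eq_one.2 ⟨μ v, ?_⟩
      ext a
      simp only [mem_filter, mem_singleton]
      constructor
      · rintro ⟨⟨k1, k2, k3⟩, k4 | k4⟩
        · rw [← k4] at k3
          omega
        · have := (hμ a k1 k2).2.2.1
          rw [← k4] at this
          exact this.symm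
      · rintro rfl
        exact ⟨⟨h1, h2, by rw [h3]; exact h5⟩, Or.inr h3.symm⟩
  · refine card_eq_zero.2 (filter_eq_empty_iff.2 fun a ha => ?_)
    obtain ⟨k1, k2, -⟩ := mem_filter.1 ha
    rintro (k4 | k4)
    · exact hP (k4 ▸ k2)
    · exact hP (k4 ▸ (hμ a k1 k2).2.1)

theorem xlayb_two {K : Finset ℕ} {P : ℕ → Prop} [DecidablePred P] {μ : ℕ → ℕ}
    (hμ : ∀ v ∈ K, P v → μ v ∈ K ∧ P (μ v) ∧ μ (μ v) = v ∧ v ≠ μ v) :
    (K.filter P).card = 2 * (K.filter fun a => P a ∧ a < μ a).card := by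
  rw [card_filter, ← sum_congr rfl fun v hv => xlayb_one hμ hv]
  simp only [card_filter (fun a => _ = a ∨ _ = μ a)]
  rw [sum_comm, mul_comm, ← smul_eq_mul, ← sum_const]
  refine sum_congr rfl fun a ha => ?_
  obtain ⟨k1, k2, -⟩ := mem_filter.1 ha
  rw [← card_filter]
  refine card_eq_two.2 ⟨a, μ a, (hμ a k1 k2).2.2.2, ?_⟩
  ext v
  simp only [mem_filter, mem_insert, mem_singleton]
  constructor
  · exact fun k => k.2
  · rintro (rfl | rfl)
    · exact ⟨k1, Or.inl rfl⟩
    · exact ⟨(hμ a k1 k2).1, Or.inr rfl⟩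

theorem xlayb_ite {α : Type} [DecidableEq α] (G A : Finset α) (hA : A ⊆ G) (x y : ℕ) (f : α → ℕ)
    (hf : ∀ t ∈ G, f t = if t ∈ A then x else y) :
    G.val.map f = Multiset.replicate A.card x + Multiset.replicate (G.card - A.card) y := by
  have h1 : G.val = A.val + (G \ A).val := by
    rw [← disjUnion_val _ _ disjoint_sdiff, disjUnion_eq_union, union_sdiff_of_subset hA]
  have h2 : ∀ t ∈ A.val, f t = x := fun t ht => by
    have ht' : t ∈ A := ht
    rw [hf t (hA ht'), if_pos ht']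
  have h3 : ∀ t ∈ (G \ A).val, f t = y := fun t ht => by
    rw [hf t (mem_sdiff.1 ht).1, if_neg (mem_sdiff.1 ht).2]
  rw [h1, Multiset.map_add, ← card_sdiff_of_subset hA, Multiset.map_congr rfl h2,
    Multiset.map_congr rfl h3, Multiset.map_const', Multiset.map_const']
  rfl

theorem xlayb_step {K : Finset ℕ} {G : Finset (Finset ℕ)} (h : Pre K G) (g : Geo K G)
    {P : ℕ → Prop} [DecidablePred P] (hP : Mt K G P) :
    ∃ (V : Finset ℕ) (F : Finset (Finset ℕ)), Pre V F ∧
      Geo V F ∧ K ⊆ V ∧ (∀ v ∈ K, deg F v = 2 * deg G v + if P v then 1 else 0) ∧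
      (∀ p q, Nb G p q → Nb F p q) ∧ (V \ K).val.map (deg F) =
        Multiset.replicate (2 * K.card - 4) 3 + Multiset.replicate ((K.filter P).card / 2) 4 := by
  obtain ⟨μ, hμ0⟩ := hP
  have hμ : ∀ v ∈ K, P v → μ v ∈ K ∧ P (μ v) ∧ μ (μ v) = v ∧ v ≠ μ v := fun v hv hp =>
    ⟨(hμ0 v hv hp).1, (hμ0 v hv hp).2.1, (hμ0 v hv hp).2.2.1, (hμ0 v hv hp).2.2.2.ne⟩
  obtain ⟨F1, y, p1, g1, yinj, yK, d1, d2, hT⟩ := stack_all h g
  obtain ⟨R, hR⟩ : ∃ R, R = K.filter fun a => P a ∧ a < μ a := ⟨_, rfl⟩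
  have one := fun v (hv : v ∈ K) => xlayb_one hμ hv
  have two := xlayb_two hμ
  rw [← hR] at one two
  have RK : ∀ a ∈ R, a ∈ K ∧ P a := fun a ha => by
    rw [hR] at ha
    exact ⟨(mem_filter.1 ha).1, (mem_filter.1 ha).2.1⟩
  have hc : ∀ a, ∃ c, a ∈ R → T G a (μ a) c := by
    intro a
    by_cases ha : a ∈ R
    · obtain ⟨c, k⟩ := (hμ0 a (RK a ha).1 (RK a ha).2).2.2.2
      exact ⟨c, fun _ => k⟩
    · exact ⟨0, fun k => absurd k ha⟩
  choose c hc using hc
  obtain ⟨τ, hτ⟩ : ∃ τ : ℕ → Finset ℕ, ∀ a, τ a = {a, μ a, c a} := ⟨_, fun _ => rfl⟩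
  obtain ⟨σ, hσ⟩ : ∃ σ : ℕ → Finset ℕ, ∀ a, σ a = {a, μ a, y (τ a)} := ⟨_, fun _ => rfl⟩
  have τG : ∀ a ∈ R, τ a ∈ G := fun a ha => hτ a ▸ (hc a ha).2.2.2
  have uq : ∀ a ∈ R, ∀ b ∈ R, ∀ v ∈ K, (v = a ∨ v = μ a) → (v = b ∨ v = μ b) → a = b := by
    intro a ha b hb v hv k1 k2
    have h1 : (R.filter fun a => v = a ∨ v = μ a).card ≤ 1 := by
      rw [one v hv]
      split_ifs <;> omega
    exact card_le_one.1 h1 a (mem_filter.2 ⟨ha, k1⟩) b (mem_filter.2 ⟨hb, k2⟩)
  have τinj : ∀ a ∈ R, ∀ b ∈ R, τ a = τ b → a = b := by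
    intro a ha b hb e
    by_contra hne
    have k1 : a ∈ τ b := e ▸ (by simp [hτ])
    have k2 : μ a ∈ τ b := e ▸ (by simp [hτ])
    rw [hτ] at k1 k2
    simp only [mem_insert, mem_singleton, ← or_assoc] at k1 k2
    have m := hμ a (RK a ha).1 (RK a ha).2
    rcases k1 with k1 | k1
    · exact hne (uq a ha b hb a (RK a ha).1 (Or.inl rfl) k1)
    rcases k2 with k2 | k2
    · exact hne (uq a ha b hb (μ a) m.1 (Or.inr rfl) k2)
    exact m.2.2.2 (k1.trans k2.symm)
  have yσ : ∀ t ∈ G, ∀ a ∈ R, y t ∈ σ a ↔ τ a = t := by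
    intro t ht a ha
    have m := hμ a (RK a ha).1 (RK a ha).2
    rw [hσ]
    simp only [mem_insert, mem_singleton]
    constructor
    · rintro (k | k | k)
      · exact absurd (k ▸ (RK a ha).1) (yK t ht)
      · exact absurd (k ▸ m.1) (yK t ht)
      · exact (yinj ht (τG a ha) k).symm
    · rintro rfl
      exact Or.inr (Or.inr rfl)
  have σinj : Set.InjOn σ R := by
    intro a ha b hb e
    have k1 : y (τ a) ∈ σ b := e ▸ (yσ _ (τG a ha) a ha).2 rfl
    exact (τinj b hb a ha ((yσ _ (τG a ha) b hb).1 k1)).symm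
  have degS : ∀ v, deg (R.image σ) v = (R.filter fun a => v ∈ σ a).card := by
    intro v
    unfold deg
    rw [filter_image, card_image_of_injOn (σinj.mono fun a ha => (mem_filter.1 ha).1)]
  have SF : R.image σ ⊆ F1 := by
    intro s hs
    obtain ⟨a, ha, rfl⟩ := mem_image.1 hs
    rw [hσ]
    exact (hT _ (τG a ha) a (by simp [hτ]) (μ a) (by simp [hτ]) (hc a ha).1).2.2.2
  obtain ⟨V, F, e, hn⟩ := xlayb_many p1 g1 _ SF
  refine ⟨V, F, e.pre, e.geo, subset_union_left.trans e.sub, fun v hv => ?_, fun p q k => ?_, ?_⟩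
  · rw [e.dg v (mem_union_left _ hv), d1 v hv, degS, ← one v hv]
    congr 2
    refine filter_congr fun a ha => ?_
    rw [hσ]
    simp only [mem_insert, mem_singleton]
    constructor
    · rintro (k | k | k)
      · exact Or.inl k
      · exact Or.inr k
      · exact absurd (k ▸ hv) (yK _ (τG a ha))
    · rintro (k | k)
      · exact Or.inl k
      · exact Or.inr (Or.inl k)
  · obtain ⟨r, k⟩ := k
    exact hn p q (hT _ k.2.2.2 p (by simp) q (by simp) k.1).nb
  · have hdis : Disjoint (G.image y) K := disjoint_left.2 fun v hv => by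
      obtain ⟨t, ht, rfl⟩ := mem_image.1 hv
      exact yK t ht
    have τi : Set.InjOn τ R := fun a ha b hb e => τinj a ha b hb e
    have hA : R.image τ ⊆ G := fun t ht => by
      obtain ⟨a, ha, rfl⟩ := mem_image.1 ht
      exact τG a ha
    have hd : ∀ t ∈ G, (deg F ∘ y) t = if t ∈ R.image τ then 4 else 3 := by
      intro t ht'
      rw [Function.comp_apply, e.dg _ (mem_union_right _ (mem_image_of_mem y ht')), d2 t ht', degS,
        filter_congr (yσ t ht')]
      split_ifs with hh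
      · obtain ⟨a, ha, rfl⟩ := mem_image.1 hh
        have : (R.filter fun b => τ b = τ a) = {a} := by
          ext b
          simp only [mem_filter, mem_singleton]
          exact ⟨fun k => τinj b k.1 a ha k.2, fun k => by subst k; exact ⟨ha, rfl⟩⟩
        rw [this, card_singleton]
      · have : (R.filter fun b => τ b = t) = ∅ :=
          filter_eq_empty_iff.2 fun b hb k => hh (mem_image.2 ⟨b, hb, k⟩)
        rw [this, card_empty]
    have h1 := card_le_card hA
    have h2 := h.card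
    rw [card_image_of_injOn τi] at h1
    rw [sdiff_val_add subset_union_left e.sub, Multiset.map_add, e.new, union_sdiff_left,
      sdiff_eq_self_of_disjoint hdis, image_val_of_injOn yinj, Multiset.map_map,
      xlayb_ite G _ hA 4 3 _ hd, card_image_of_injOn τi,
      card_image_of_injOn σinj, two, add_assoc, ← Multiset.replicate_add, add_comm]
    congr 2 <;> omega

theorem dmul_build (n : ℕ) : ∀ (K : Finset ℕ) (G : Finset (Finset ℕ)) (val : ℕ → ℕ), Pre K G →
    Geo K G → (∀ v ∈ K, deg G v = val v / 2 ^ n) →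
    (∀ i < n, Mt K G fun v => (val v).testBit i = true) →
    ∃ (V : Finset ℕ) (F : Finset (Finset ℕ)), Pre V F ∧ Geo V F ∧
      V.val.map (deg F) = dmul n (K.val.map val) := by
  induction n with
  | zero =>
    intro K G val h g hd _
    refine ⟨K, G, h, g, ?_⟩
    rw [dmul]
    exact Multiset.map_congr rfl fun v hv => by simpa using hd v hv
  | succ n ih =>
    intro K G val h g hd hm
    obtain ⟨V, F, p, q, hK, d1, hn, d2⟩ := xlayb_step h g (hm n (Nat.lt_succ_self n))
    obtain ⟨w, hw⟩ : ∃ w : ℕ → ℕ, ∀ v, w v = if v ∈ K then val v else deg F v * 2 ^ n :=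
      ⟨_, fun _ => rfl⟩
    obtain ⟨V', F', p', q', e⟩ := ih V F w p q (fun v _ => by
      rw [hw]
      split_ifs with hv
      · rw [d1 v hv, hd v hv, pow_succ, ← Nat.div_div_eq_div_mul, Nat.testBit_eq_decide_div_mod_eq]
        simp only [decide_eq_true_eq]
        split_ifs <;> omega
      · rw [Nat.mul_div_cancel _ (by positivity)]) (fun i hi => by
      obtain ⟨μ, hμ⟩ := hm i (Nat.lt_succ_of_lt hi)
      refine ⟨μ, fun v _ hv => ?_⟩
      beta_reduce at hv ⊢
      by_cases hvK : v ∈ K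
      · rw [hw, if_pos hvK] at hv
        obtain ⟨k1, k2, k3, k4⟩ := hμ v hvK hv
        refine ⟨hK k1, ?_, k3, hn _ _ k4⟩
        rw [hw, if_pos k1]
        exact k2
      · rw [hw, if_neg hvK, Nat.testBit_mul_two_pow] at hv
        simp only [Bool.and_eq_true, decide_eq_true_eq] at hv
        omega)
    refine ⟨V', F', p', q', ?_⟩
    rw [e, dmul]
    congr 1
    have h1 := sdiff_val_add (empty_subset K) hK
    rw [sdiff_empty, sdiff_empty] at h1
    have h2 : (V \ K).val.map w = ((V \ K).val.map (deg F)).map fun x => x * 2 ^ n := by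
      rw [Multiset.map_map]
      exact Multiset.map_congr rfl fun v hv => by
        rw [hw, if_neg (mem_sdiff.1 hv).2, Function.comp_apply]
    have h3 : K.val.map w = K.val.map val :=
      Multiset.map_congr rfl fun v hv => by rw [hw, if_pos (show v ∈ K from hv)]
    rw [h1, Multiset.map_add, h2, h3, d2, Multiset.map_add, Multiset.map_replicate,
      Multiset.map_replicate, add_assoc, Multiset.card_map, Multiset.countP_map]
    rfl

end Pool.Agent.P.MP_e40812_co
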