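import Pool.Agent.P.MP_e40812_co.XLayS
import Pool.Agent.P.MP_e40812_co.XLayB

/-! Typed layers. -/

namespace Pool.Agent.P.MP_e40812_co

open Finset Pool.Agent.Lib.PolyTime
open scoped Classical

variable {X Y : Type} [Fintype Y] {d : X → ℕ} {b : X → Finset Y} {u : Multiset X}

theorem xlay_sum (s : Finset Y) : ∑ l ∈ s, 2 ^ (Fintype.equivFin Y l : ℕ) =
    ∑ i ∈ s.image fun l => (Fintype.equivFin Y l : ℕ), 2 ^ i :=
  (sum_image fun _ _ _ _ h => (Fintype.equivFin Y).injective (Fin.ext h)).symm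

theorem xlay_lt (s : Finset Y) :
    ∑ l ∈ s, 2 ^ (Fintype.equivFin Y l : ℕ) < 2 ^ Fintype.card Y := by
  rw [xlay_sum]
  refine Nat.geomSum_lt le_rfl fun k hk => ?_
  obtain ⟨l, -, rfl⟩ := mem_image.1 hk
  exact (Fintype.equivFin Y l).2

theorem xlay_div (x : X) : vl d b x / 2 ^ Fintype.card Y = d x := by
  rw [vl, Nat.mul_add_div (by positivity), Nat.div_eq_of_lt (xlay_lt _), add_zero]

theorem xlay_bit (x : X) (l : Y) :
    (vl d b x).testBit (Fintype.equivFin Y l) = true ↔ l ∈ b x := by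
  rw [vl, Nat.testBit_two_pow_mul_add _ (xlay_lt _), if_pos (Fintype.equivFin Y l).2, xlay_sum,
    ← Nat.mem_bitIndices, ← List.mem_toFinset, toFinset_bitIndices_sum_two_pow, mem_image]
  exact ⟨fun ⟨l', h1, h2⟩ => (Fintype.equivFin Y).injective (Fin.ext h2) ▸ h1,
    fun h => ⟨l, h, rfl⟩⟩

theorem xlay_surj {i : ℕ} (hi : i < Fintype.card Y) : ∃ l : Y, (Fintype.equivFin Y l : ℕ) = i :=
  ⟨(Fintype.equivFin Y).symm ⟨i, hi⟩, by simp⟩

theorem xlay_hyp (h : OK d b u) :
    (∀ x ∈ u.map (vl d b), 3 * 2 ^ Fintype.card Y ≤ x) ∧ 4 ≤ (u.map (vl d b)).card ∧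
      ((u.map (vl d b)).map fun x => x / 2 ^ Fintype.card Y).sum + 12 =
        6 * (u.map (vl d b)).card ∧
      ∀ i < Fintype.card Y, Even ((u.map (vl d b)).countP fun x => x.testBit i = true) := by
  obtain ⟨h1, h2, h3, h4⟩ := h
  refine ⟨fun x hx => ?_, by simpa using h2, ?_, fun i hi => ?_⟩
  · obtain ⟨y, hy, rfl⟩ := Multiset.mem_map.1 hx
    rw [vl, mul_comm 3]
    exact (Nat.mul_le_mul_left _ (h1 y hy)).trans (Nat.le_add_right _ _)
  · simpa only [Multiset.map_map, Function.comp_def, xlay_div, Multiset.card_map] using h3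
  · obtain ⟨l, rfl⟩ := xlay_surj hi
    have := h4 l
    rw [Multiset.countP_eq_card_filter] at this
    rw [Multiset.countP_map]
    rwa [Multiset.filter_congr (q := fun x => l ∈ b x) fun x _ => xlay_bit x l]

theorem dm_euler (h : OK d b u) :
    (dm d b u).sum + 12 = 6 * (dm d b u).card ∧ ∀ x ∈ dm d b u, 3 ≤ x := by
  obtain ⟨h1, h2, h3, h4⟩ := xlay_hyp h
  exact dmul_euler _ _ h1 h2 h3 h4

theorem xlay_dmul_lt (B n : ℕ) : ∀ s : Multiset ℕ, 4 * 2 ^ n ≤ B → (∀ x ∈ s, x < B) →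
    ∀ x ∈ dmul n s, x < B := by
  induction n with
  | zero => exact fun s _ h => h
  | succ n ih =>
    intro s hB h
    have h0 : 0 < 2 ^ n := by positivity
    rw [pow_succ] at hB
    refine ih _ (by omega) fun x hx => ?_
    simp only [Multiset.mem_add, Multiset.mem_replicate] at hx
    rcases hx with (hx | hx) | hx
    · exact h x hx
    · omega
    · omega

theorem dm_lt (h : ∀ x, d x ≤ 12) : ∀ x ∈ dm d b u, x < 13 * 2 ^ Fintype.card Y := by
  refine xlay_dmul_lt _ _ _ (by omega) fun x hx => ?_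
  obtain ⟨y, -, rfl⟩ := Multiset.mem_map.1 hx
  have h1 := xlay_lt (b y)
  have h2 := Nat.mul_le_mul_left (2 ^ Fintype.card Y) (h y)
  unfold vl
  omega

theorem xlay_lift {ι Z : Type} [DecidableEq ι] [Nonempty X] (f : X → Z) (val : ι → Z)
    (K : Finset ι) : ∀ u : Multiset X, K.val.map val = u.map f →
      ∃ ty : ι → X, K.val.map ty = u ∧ ∀ v ∈ K, f (ty v) = val v := by
  induction K using Finset.induction_on with
  | empty =>
    intro u h
    refine ⟨fun _ => Classical.arbitrary X, ?_, by simp⟩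
    simpa using (Multiset.map_eq_zero.1 h.symm).symm
  | insert a K ha ih =>
    intro u h
    rw [insert_val_of_notMem ha, Multiset.map_cons] at h
    obtain ⟨x, hx, h1, h2⟩ := (Multiset.map_eq_cons f u _ _).2 h.symm
    obtain ⟨ty, h3, h4⟩ := ih _ h2.symm
    have h5 : ∀ v ∈ K, Function.update ty a x v = ty v := fun v hv =>
      Function.update_of_ne (ne_of_mem_of_not_mem hv ha) _ _
    refine ⟨Function.update ty a x, ?_, fun v hv => ?_⟩
    · rw [insert_val_of_notMem ha, Multiset.map_cons, Function.update_self,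
        Multiset.map_congr rfl h5, h3, Multiset.cons_erase hx]
    · rcases mem_insert.1 hv with rfl | hv
      · rw [Function.update_self, h1]
      · rw [h5 v hv, h4 v hv]

theorem lay_sound (h : OK d b u) (hr : Rz (dm d b u)) :
    ∃ (K : Finset (Finset (EuclideanSpace ℝ (Fin 3)))) (G : Finset (Finset _)),
      Tri K G ∧ Top d b K G u := by
  obtain ⟨P, hP, hc⟩ := hr
  obtain ⟨h1, h2, h3, h4⟩ := xlay_hyp h
  obtain ⟨V, F, hT, hV⟩ := tri_of_poly hP (dm_euler h).2 (fun n hn => by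
    have := hc (n - 3)
    rwa [Nat.sub_add_cancel hn] at this) (dm_euler h).1
  obtain ⟨K, G, val, a1, a2, a3, a4⟩ := dmul_sound _ _ V F h1 h2 h3 h4 hT hV
  have : Nonempty X := by
    obtain ⟨x, -⟩ := Multiset.card_pos_iff_exists_mem.1 (lt_of_lt_of_le (by norm_num) h.2.1)
    exact ⟨x⟩
  obtain ⟨ty, b1, b2⟩ := xlay_lift _ _ K u a2
  refine ⟨K, G, a1, ty, b1, fun v hv => by rw [a3 v hv, ← b2 v hv, xlay_div], fun l => ?_⟩
  obtain ⟨μ, hμ⟩ := a4 _ (Fintype.equivFin Y l).2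
  refine ⟨μ, fun v hv hl => ?_⟩
  obtain ⟨c1, c2, c3⟩ := hμ v hv (by beta_reduce; rw [← b2 v hv, xlay_bit]; exact hl)
  rw [← b2 _ c1, xlay_bit] at c2
  exact ⟨c1, c2, c3⟩

theorem xlay_even {K : Finset ℕ} {G : Finset (Finset ℕ)} {P : ℕ → Prop} [DecidablePred P]
    (h : Mt K G P) :
    Even (K.filter P).card := by
  obtain ⟨μ, hμ⟩ := h
  have := sum_involution (s := K.filter P) (f := fun _ => (1 : ZMod 2)) (fun a _ => μ a)
    (fun _ _ => by decide)
    (fun a ha _ => by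
      obtain ⟨c, hc⟩ := (hμ a (mem_filter.1 ha).1 (mem_filter.1 ha).2).2.2.2
      exact hc.1.symm)
    (fun a ha => mem_filter.2 ⟨(hμ a (mem_filter.1 ha).1 (mem_filter.1 ha).2).1,
      (hμ a (mem_filter.1 ha).1 (mem_filter.1 ha).2).2.1⟩)
    fun a ha => (hμ a (mem_filter.1 ha).1 (mem_filter.1 ha).2).2.2.1
  rw [sum_const, nsmul_one] at this
  exact ZMod.natCast_eq_zero_iff_even.1 this

theorem lay_build {K : Finset ℕ} {G : Finset (Finset ℕ)} (h : Pre K G) (g : Geo K G)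
    (ht : Top d b K G u) : OK d b u ∧ Rz (dm d b u) := by
  obtain ⟨ty, rfl, h1, h2⟩ := ht
  have h3 := h.sum_deg
  have h4 : K.card • 3 ≤ ∑ v ∈ K, deg G v := card_nsmul_le_sum _ _ _ fun v hv => h.three_le hv
  refine ⟨⟨fun x hx => ?_, ?_, ?_, fun l => ?_⟩, ?_⟩
  · obtain ⟨v, hv, rfl⟩ := Multiset.mem_map.1 hx
    exact h1 v hv ▸ h.three_le hv
  · rw [smul_eq_mul] at h4
    rw [Multiset.card_map, card_val]
    omega
  · rw [Multiset.map_map, Multiset.card_map, card_val, ← h3, sum_congr rfl h1]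
    rfl
  · have := xlay_even (h2 l)
    rw [Multiset.countP_map]
    rwa [card_def, filter_val] at this
  · obtain ⟨V, F, a1, a2, a3⟩ := dmul_build (Fintype.card Y) K G (fun v => vl d b (ty v)) h g
      (fun v hv => by rw [xlay_div, h1 v hv]) fun i hi => by
        obtain ⟨l, rfl⟩ := xlay_surj hi
        simpa only [xlay_bit] using h2 l
    obtain ⟨P, hP, hc⟩ := poly_of_geo a1 a2
    refine ⟨P, hP, fun i => ?_⟩
    rw [hc, a3, dm, Multiset.map_map]
    rfl

end Pool.Agent.P.MP_e40812_co
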