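import Pool.Agent.P.MP_e40812_co.XDefs

/-! Degrees force the layers. -/

namespace Pool.Agent.P.MP_e40812_co

open Finset Pool.Agent.Lib.PolyTime
open scoped Classical

lemma xlays_bit (x n : ℕ) :
    x / 2 ^ n = 2 * (x / 2 ^ (n + 1)) + if x.testBit n = true then 1 else 0 := by
  rw [pow_succ, ← Nat.div_div_eq_div_mul, Nat.testBit_eq_decide_div_mod_eq]
  simp only [decide_eq_true_eq]
  split_ifs <;> omega

lemma xlays_sum (n : ℕ) (u : Multiset ℕ) : (u.map fun x => x / 2 ^ n).sum =
    2 * (u.map fun x => x / 2 ^ (n + 1)).sum + u.countP fun x => x.testBit n = true := by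
  induction u using Multiset.induction_on with
  | empty => simp
  | cons a u ih =>
    rw [Multiset.map_cons, Multiset.map_cons, Multiset.sum_cons, Multiset.sum_cons,
      Multiset.countP_cons, ih, xlays_bit a n]
    omega

lemma xlays_low (c : ℕ) {i n : ℕ} (h : i < n) : ¬ (c * 2 ^ n).testBit i = true := by
  rw [Nat.testBit_mul_two_pow]
  simp [not_le.2 h]

lemma xlays_rep (k c : ℕ) {i n : ℕ} (h : i < n) :
    (Multiset.replicate k (c * 2 ^ n)).countP (fun x => x.testBit i = true) = 0 :=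
  Multiset.countP_eq_zero.2 fun x hx => by
    rw [Multiset.eq_of_mem_replicate hx]
    exact xlays_low c h

lemma xlays_step (n : ℕ) (u u' : Multiset ℕ)
    (e : u' = u + Multiset.replicate (2 * u.card - 4) (3 * 2 ^ n) +
      Multiset.replicate (u.countP (fun x => x.testBit n = true) / 2) (4 * 2 ^ n))
    (h1 : ∀ x ∈ u, 3 * 2 ^ (n + 1) ≤ x) (h2 : 4 ≤ u.card)
    (h3 : (u.map fun x => x / 2 ^ (n + 1)).sum + 12 = 6 * u.card)
    (h4 : ∀ i < n + 1, Even (u.countP fun x => x.testBit i = true)) :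
    (∀ x ∈ u', 3 * 2 ^ n ≤ x) ∧ 4 ≤ u'.card ∧
      (u'.map fun x => x / 2 ^ n).sum + 12 = 6 * u'.card ∧
      ∀ i < n, Even (u'.countP fun x => x.testBit i = true) := by
  have hp : 0 < 2 ^ n := by positivity
  subst e
  refine ⟨fun x hx => ?_, ?_, ?_, fun i hi => ?_⟩
  · rcases Multiset.mem_add.1 hx with hx | hx
    · rcases Multiset.mem_add.1 hx with hx | hx
      · have := h1 x hx
        rw [pow_succ] at this
        omega
      · rw [Multiset.eq_of_mem_replicate hx]
    · rw [Multiset.eq_of_mem_replicate hx]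
      omega
  · simp only [Multiset.card_add]
    omega
  · obtain ⟨E, hE⟩ := h4 n (Nat.lt_succ_self n)
    simp only [Multiset.map_add, Multiset.sum_add, Multiset.card_add, Multiset.map_replicate,
      Multiset.sum_replicate, Multiset.card_replicate, Nat.mul_div_cancel _ hp, smul_eq_mul]
    rw [xlays_sum]
    omega
  · rw [Multiset.countP_add, Multiset.countP_add, xlays_rep _ _ hi, xlays_rep _ _ hi]
    exact h4 i (by omega)

theorem dmul_sound {ι : Type} [DecidableEq ι] (n : ℕ) : ∀ (u : Multiset ℕ) (V : Finset ι)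
    (F : Finset (Finset ι)), (∀ x ∈ u, 3 * 2 ^ n ≤ x) → 4 ≤ u.card →
      (u.map fun x => x / 2 ^ n).sum + 12 = 6 * u.card →
      (∀ i < n, Even (u.countP fun x => x.testBit i = true)) → Tri V F →
      V.val.map (deg F) = dmul n u →
      ∃ (K : Finset ι) (G : Finset (Finset ι)) (val : ι → ℕ), Tri K G ∧ K.val.map val = u ∧
        (∀ v ∈ K, deg G v = val v / 2 ^ n) ∧ ∀ i < n, Mt K G fun v => (val v).testBit i = true := by
  induction n with
  | zero =>
    intro u V F _ _ _ _ hT e
    exact ⟨V, F, deg F, hT, e, fun v _ => by simp, fun i hi => absurd hi (Nat.not_lt_zero i)⟩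
  | succ n ih =>
    intro u V F h1 h2 h3 h4 hT e
    obtain ⟨a1, a2, a3, a4⟩ := xlays_step n u _ rfl h1 h2 h3 h4
    obtain ⟨K', G', val, hT', e', hdeg, hM⟩ := ih _ V F a1 a2 a3 a4 hT e
    have hp : 0 < 2 ^ n := by positivity
    have hu : ∀ x ∈ u, x ≠ 3 * 2 ^ n ∧ x ≠ 4 * 2 ^ n := by
      intro x hx
      have := h1 x hx
      rw [pow_succ] at this
      omega
    obtain ⟨K, hK⟩ : ∃ K, K = K'.filter fun v => val v ≠ 3 * 2 ^ n ∧ val v ≠ 4 * 2 ^ n :=
      ⟨_, rfl⟩
    have hKm : ∀ v, v ∈ K ↔ v ∈ K' ∧ val v ≠ 3 * 2 ^ n ∧ val v ≠ 4 * 2 ^ n := fun v => by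
      rw [hK, mem_filter]
    have eK : K.val.map val = u := by
      rw [hK, map_filter_val K' val fun x => x ≠ 3 * 2 ^ n ∧ x ≠ 4 * 2 ^ n, e',
        Multiset.filter_add, Multiset.filter_add, Multiset.filter_eq_self.2 hu,
        Multiset.filter_eq_nil.2 (by
          intro x hx
          simp [Multiset.eq_of_mem_replicate hx]),
        Multiset.filter_eq_nil.2 (by
          intro x hx
          simp [Multiset.eq_of_mem_replicate hx]), add_zero, add_zero]
    have cK : K.card = u.card := by rw [← eK, Multiset.card_map, card_val]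
    have c3 : (K'.filter fun v => val v = 3 * 2 ^ n).card = 2 * u.card - 4 := by
      have := map_filter_val K' val fun x => x = 3 * 2 ^ n
      rw [e', Multiset.filter_add, Multiset.filter_add,
        Multiset.filter_eq_nil.2 (fun x hx => (hu x hx).1),
        Multiset.filter_eq_self.2 (fun x hx => Multiset.eq_of_mem_replicate hx),
        Multiset.filter_eq_nil.2 (by
          intro x hx
          rw [Multiset.eq_of_mem_replicate hx]
          omega), add_zero, zero_add] at this
      have := congrArg Multiset.card this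
      rwa [Multiset.card_map, card_val, Multiset.card_replicate] at this
    have hout : ∀ v ∈ K' \ K, val v = 3 * 2 ^ n ∨ val v = 4 * 2 ^ n := by
      intro v hv
      obtain ⟨b1, b2⟩ := mem_sdiff.1 hv
      by_contra hc
      exact b2 ((hKm v).2 ⟨b1, not_or.1 hc⟩)
    have c4 : ((K' \ K).filter fun v => deg G' v = 3) = K'.filter fun v => val v = 3 * 2 ^ n := by
      ext v
      simp only [mem_filter]
      constructor
      · rintro ⟨b1, b2⟩
        have b3 := (mem_sdiff.1 b1).1
        refine ⟨b3, (hout v b1).resolve_right fun b4 => ?_⟩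
        rw [hdeg v b3, b4, Nat.mul_div_cancel _ hp] at b2
        omega
      · rintro ⟨b1, b2⟩
        refine ⟨mem_sdiff.2 ⟨b1, fun b3 => ((hKm v).1 b3).2.1 b2⟩, ?_⟩
        rw [hdeg v b1, b2, Nat.mul_div_cancel _ hp]
    obtain ⟨G, w, hG, wsym, wnb, nbd, hd⟩ := peel K (by omega) _ K' G' rfl hT'
      (fun v hv => ((hKm v).1 hv).1)
      (fun v hv => by
        rw [hdeg v (mem_sdiff.1 hv).1]
        rcases hout v hv with b | b <;> rw [b, Nat.mul_div_cancel _ hp] <;> simp)
      (by rw [c4, c3]; omega)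
    have hrel : ∀ v ∈ K, 2 * deg G v + ∑ x ∈ K, w v x
        = 2 * (val v / 2 ^ (n + 1)) + if (val v).testBit n = true then 1 else 0 := by
      intro v hv
      rw [← hd v hv, hdeg v ((hKm v).1 hv).1, xlays_bit]
    have hle : ∀ v ∈ K, deg G v ≤ val v / 2 ^ (n + 1) := by
      intro v hv
      have := hrel v hv
      split_ifs at this <;> omega
    have hsum : ∑ v ∈ K, deg G v = ∑ v ∈ K, val v / 2 ^ (n + 1) := by
      have b1 := hG.toPre.sum_deg
      have b2 : ∑ v ∈ K, val v / 2 ^ (n + 1) = (u.map fun x => x / 2 ^ (n + 1)).sum := by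
        rw [← eK, Multiset.map_map]
        rfl
      omega
    have heq := (sum_eq_sum_iff_of_le hle).1 hsum
    have hW : ∀ v ∈ K, ∑ x ∈ K, w v x = if (val v).testBit n = true then 1 else 0 := by
      intro v hv
      have b1 := hrel v hv
      have b2 := heq v hv
      omega
    refine ⟨K, G, val, hG, eK, heq, fun i hi => ?_⟩
    rcases Nat.lt_succ_iff_lt_or_eq.1 hi with hi | rfl
    · obtain ⟨μ, hμ⟩ := hM i hi
      refine ⟨μ, fun v hv hb => ?_⟩
      obtain ⟨b1, b2, b3, b4⟩ := hμ v ((hKm v).1 hv).1 hb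
      have b5 : μ v ∈ K := (hKm _).2 ⟨b1, fun b => xlays_low 3 hi (b ▸ b2),
        fun b => xlays_low 4 hi (b ▸ b2)⟩
      exact ⟨b5, b2, b3, nbd v hv _ b5 b4⟩
    · have hex : ∀ v, ∃ x, v ∈ K → (val v).testBit i = true → x ∈ K ∧ w v x ≠ 0 := by
        intro v
        by_cases hv : v ∈ K ∧ (val v).testBit i = true
        · have b1 := hW v hv.1
          rw [if_pos hv.2] at b1
          obtain ⟨x, hx, hx'⟩ := exists_ne_zero_of_sum_ne_zero (b1.trans_ne one_ne_zero)
          exact ⟨x, fun _ _ => ⟨hx, hx'⟩⟩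
        · exact ⟨v, fun b1 b2 => absurd ⟨b1, b2⟩ hv⟩
      choose μ hμ using hex
      refine ⟨μ, fun v hv hb => ?_⟩
      obtain ⟨b1, b2⟩ := hμ v hv hb
      have b3 : w (μ v) v ≠ 0 := by rwa [wsym]
      have b4 := hW _ b1
      have b5 : (val (μ v)).testBit i = true := by
        by_contra hc
        rw [if_neg hc] at b4
        exact b3 (sum_eq_zero_iff.1 b4 v hv)
      refine ⟨b1, b5, ?_, wnb _ _ b2⟩
      obtain ⟨b6, b7⟩ := hμ _ b1 b5
      by_contra hc
      rw [if_pos b5] at b4
      have b8 := add_le_sum (f := fun x => w (μ v) x) (fun _ _ => Nat.zero_le _) b6 hv hc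
      omega

theorem dmul_euler (n : ℕ) : ∀ u : Multiset ℕ, (∀ x ∈ u, 3 * 2 ^ n ≤ x) → 4 ≤ u.card →
    (u.map fun x => x / 2 ^ n).sum + 12 = 6 * u.card →
    (∀ i < n, Even (u.countP fun x => x.testBit i = true)) →
    (dmul n u).sum + 12 = 6 * (dmul n u).card ∧ ∀ x ∈ dmul n u, 3 ≤ x := by
  induction n with
  | zero =>
    intro u h1 _ h3 _
    exact ⟨by simpa [dmul] using h3, fun x hx => by simpa using h1 x hx⟩
  | succ n ih =>
    intro u h1 h2 h3 h4
    obtain ⟨a1, a2, a3, a4⟩ := xlays_step n u _ rfl h1 h2 h3 h4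
    exact ih _ a1 a2 a3 a4

end Pool.Agent.P.MP_e40812_co
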