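import Pool.Agent.P.MP_e40812_co.XDefs

/-! From multisets to lists. -/

namespace Pool.Agent.P.MP_e40812_co

open Finset Pool.Agent.Lib.PolyTime
open scoped Classical

lemma xlist_getD (s : Multiset ℕ) (K : ℕ) (hK : ∀ x ∈ s, x < K) (i : ℕ) :
    ((List.range K).map fun i => s.count (i + 3)).getD i 0 = s.count (i + 3) := by
  by_cases hi : i < K
  · rw [List.getD_eq_getElem _ _ (by simpa using hi)]
    simp
  · rw [List.getD_eq_default _ _ (by simpa using hi)]
    symm
    rw [Multiset.count_eq_zero]
    intro h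
    have := hK _ h
    omega

lemma xlist_sum (s : Multiset ℕ) (K : ℕ) (h3 : ∀ x ∈ s, 3 ≤ x) (hK : ∀ x ∈ s, x < K) :
    ∑ i ∈ Finset.range K, (6 - (i + 3 : ℤ)) * (s.count (i + 3) : ℕ) =
      6 * (s.card : ℤ) - (s.sum : ℕ) := by
  induction s using Multiset.induction_on with
  | empty => simp
  | cons a s ih =>
    have ha3 := h3 a (Multiset.mem_cons_self _ _)
    have haK := hK a (Multiset.mem_cons_self _ _)
    have ih' := ih (fun x hx => h3 x (Multiset.mem_cons_of_mem hx))
      (fun x hx => hK x (Multiset.mem_cons_of_mem hx))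
    have e : ∀ i ∈ Finset.range K, (6 - (i + 3 : ℤ)) * ((a ::ₘ s).count (i + 3) : ℕ) =
        (6 - (i + 3 : ℤ)) * (s.count (i + 3) : ℕ) + if i = a - 3 then 6 - (a : ℤ) else 0 := by
      intro i _
      rw [Multiset.count_cons]
      by_cases hi : i = a - 3
      · have h1 : i + 3 = a := by omega
        have h2 : (i : ℤ) + 3 = a := by omega
        rw [if_pos h1, if_pos hi, h2]
        push_cast
        ring
      · have h1 : ¬ i + 3 = a := by omega
        rw [if_neg h1, if_neg hi]
        simp
    rw [sum_congr rfl e, sum_add_distrib, ih', sum_ite_eq', if_pos (mem_range.2 (by omega)),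
      Multiset.card_cons, Multiset.sum_cons]
    push_cast
    ring

theorem list_of_multiset (s : Multiset ℕ) (K : ℕ) (h3 : ∀ x ∈ s, 3 ≤ x) (hK : ∀ x ∈ s, x < K)
    (he : s.sum + 12 = 6 * s.card) :
    Eu ((List.range K).map fun i => s.count (i + 3)) ∧
      (RzL ((List.range K).map fun i => s.count (i + 3)) ↔ Rz s) := by
  refine ⟨?_, ?_⟩
  · unfold Eu
    simp only [xlist_getD s K hK, List.length_map, List.length_range]
    rw [xlist_sum s K h3 hK]
    omega
  · unfold RzL Rz
    simp only [xlist_getD s K hK]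

lemma xlist_bad (K i : ℕ) : ([4, 0, 0, 1] ++ List.replicate K 0).getD i 0 =
    ({3, 3, 3, 3, 6} : Multiset ℕ).count (i + 3) := by
  match i with
  | 0 => rfl
  | 1 => rfl
  | 2 => rfl
  | 3 => rfl
  | i + 4 =>
    have : ({3, 3, 3, 3, 6} : Multiset ℕ).count (i + 4 + 3) = 0 := by
      rw [Multiset.count_eq_zero]
      simp
    rw [this]
    show (List.replicate K 0).getD i 0 = 0
    rw [List.getD_eq_getElem?_getD, List.getElem?_replicate]
    split_ifs <;> rfl

/-- Four triangles and a hexagon do not form a polyhedron. -/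
theorem bad_list (K : ℕ) : Eu ([4, 0, 0, 1] ++ List.replicate K 0) ∧
    ¬ RzL ([4, 0, 0, 1] ++ List.replicate K 0) := by
  refine ⟨?_, ?_⟩
  · unfold Eu
    simp only [xlist_bad]
    have h : ∀ n : ℕ, ∑ i ∈ Finset.range (4 + n), (6 - (i + 3 : ℤ)) *
        (({3, 3, 3, 3, 6} : Multiset ℕ).count (i + 3) : ℕ) = 12 := by
      intro n
      induction n with
      | zero => decide
      | succ n ih =>
        rw [← add_assoc, sum_range_succ, ih]
        have : ({3, 3, 3, 3, 6} : Multiset ℕ).count (4 + n + 3) = 0 := by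
          rw [Multiset.count_eq_zero]
          simp
          omega
        rw [this]
        simp
    have hl : ([4, 0, 0, 1] ++ List.replicate K 0).length = 4 + K := by simp; omega
    rw [hl]
    exact h K
  · rintro ⟨P, hP, hc⟩
    simp only [xlist_bad] at hc
    obtain ⟨V, F, hT, hV⟩ := tri_of_poly hP (s := {3, 3, 3, 3, 6}) (by decide) (fun n hn => by
      have := hc (n - 3)
      rwa [show n - 3 + 3 = n by omega] at this) (by decide)
    have h5 : V.card = 5 := by
      have := congrArg Multiset.card hV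
      rwa [Multiset.card_map] at this
    have h6 : 6 ∈ V.val.map (deg F) := by rw [hV]; decide
    obtain ⟨v, -, hv⟩ := Multiset.mem_map.1 h6
    rw [hT.deg_eq] at hv
    have := (card_filter_le V fun u => Nb F v u).trans h5.le
    omega

end Pool.Agent.P.MP_e40812_co
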