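import Pool.Agent.P.MP_e40812_co.XDefs

/-! The tableau of the table machine as a tiling problem. -/

namespace Pool.Agent.P.MP_e40812_co

open Finset Pool.Agent.Lib.PolyTime
open scoped Classical

/-- Colours: six special ones, configurations of a column, and pairs of neighbouring columns. -/
abbrev xmachD (G : ℕ) : Type :=
  Fin 6 ⊕ (Fin G × (Fin G → Fin G)) ⊕ (Fin G × (Fin G → Fin G) × (Fin G → Fin G))

/-- A configuration colour. -/
abbrev xmachC {G : ℕ} (q : Fin G) (x : Fin G → Fin G) : xmachD G := .inr (.inl (q, x))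

/-- A colour between two columns. -/
abbrev xmachM {G : ℕ} (q : Fin G) (x y : Fin G → Fin G) : xmachD G := .inr (.inr (q, x, y))

/-- Tiles of the first row. -/
def xmachI (e : List (List ℕ)) {G : ℕ} (t : Q (xmachD G)) : Prop :=
  ∃ (q : Fin G) (x : Fin G → Fin G) (z : ℕ), t.2.1 = xmachC q x ∧ (q : ℕ) = Cook.ent e 0 5 ∧
    (∀ k : Fin G, (x k : ℕ) =
      if Cook.ent e 0 0 = k ∧ (k : ℕ) < (e.getD 1 []).length then z else 0) ∧
    ((t.2.2.2 = .inl 0 ∧ (z = Cook.ent e 0 2 ∨ z = Cook.ent e 0 3)) ∨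
      (t.2.2.2 = .inl 1 ∧ z = Cook.ent e 0 3) ∨ (t.2.2.2 = .inl 2 ∧ z = 0))

/-- Tiles of the middle rows. -/
def xmachS (e : List (List ℕ)) {G : ℕ} (t : Q (xmachD G)) : Prop :=
  ∃ (q q' : Fin G) (x x' xl xr : Fin G → Fin G), t.2.2.2 = xmachC q x ∧ t.2.1 = xmachC q' x' ∧
    (t.1 = xmachM q' x xr ∨ t.1 = .inl 5) ∧
    ((t.2.2.1 = .inl 4 ∧
        (∀ k : Fin G, Cook.ent (e.drop 2) q 1 = k → (q' : ℕ) = Cook.ent (e.drop 2) q (3 + x k)) ∧
        ∀ k : Fin G, (x' k : ℕ) =
          Cook.rule (e.drop 2) (e.getD 1 []).length q k 0 (x k) (x k) (xr k)) ∨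
      (t.2.2.1 = xmachM q' xl x ∧ ∀ k : Fin G, (x' k : ℕ) =
          Cook.rule (e.drop 2) (e.getD 1 []).length q k 1 (xl k) (x k) (xr k)))

/-- Tiles of the last row. -/
def xmachF (e : List (List ℕ)) {G : ℕ} (t : Q (xmachD G)) : Prop :=
  ∃ (q : Fin G) (x : Fin G → Fin G), t.2.2.2 = xmachC q x ∧ t.2.1 = .inl 3 ∧
    (t.2.2.1 = .inl 4 → ∀ k : Fin G, Cook.ent e 0 1 = k → (x k : ℕ) = Cook.ent e 0 4)

/-- The tiling system. -/
noncomputable def xmachW (e : List (List ℕ)) (G : ℕ) : WS (xmachD G) where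
  τ := univ.filter fun t => xmachI e t ∨ xmachS e t ∨ xmachF e t
  L := .inl 4
  R := .inl 5
  B1 := .inl 0
  B2 := .inl 1
  B0 := .inl 2
  Tp := .inl 3

/-- The column stored in a configuration colour. -/
def xmachX {G : ℕ} : xmachD G → Fin G → ℕ
  | .inr (.inl p), k => p.2 k
  | _, _ => 0

theorem xmach_rule (P : List (List ℕ)) (K q k j a b c : ℕ) (hj : j ≠ 0) :
    Cook.rule P K q k j a b c = Cook.rule P K q k 1 a b c := by
  simp [Cook.rule, hj]

theorem xmach_getD (f : Bool → ℕ) (y : List Bool) (i : ℕ) :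
    ((y ++ [true]).map f).getD i 0 =
      if i < y.length then f (y.getD i false) else if i = y.length then f true else 0 := by
  simp only [List.getD_eq_getElem?_getD, List.getElem?_map, List.getElem?_append]
  split_ifs with h1 h2
  · simp [h1]
  · simp [h2]
  · rw [List.getElem?_eq_none (by simp; omega)]; rfl

theorem xmach_sound {e : List (List ℕ)} {G : ℕ} (hG : e.flatten.sum < G) {m a : ℕ} (ha : 2 ≤ a)
    {h v : ℕ → ℕ → xmachD G} (H : (xmachW e G).Til m a h v) :
    ∃ y : List Bool, y.length = m ∧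
      Cook.cell (Cook.run e (y ++ [true]) (a - 2)) (Cook.ent e 0 1) 0 = Cook.ent e 0 4 := by
  obtain ⟨ht, hh, hv⟩ := H
  have hT : ∀ i < a, ∀ j < a, xmachI e (h (i + 1) j, v i (j + 1), h i j, v i j) ∨
      xmachS e (h (i + 1) j, v i (j + 1), h i j, v i j) ∨
      xmachF e (h (i + 1) j, v i (j + 1), h i j, v i j) :=
    fun i hi j hj => (Finset.mem_filter.1 (ht i hi j hj)).2
  have hb : ∀ q i, Cook.ent e q i < G := fun q i => (Cook.ent_le e q i).trans_lt hG
  have hP : ∀ q i, Cook.ent (e.drop 2) q i < G := fun q i => by rw [Cook.ent_drop]; exact hb _ _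
  set y : List Bool :=
    (List.range m).map fun i => xmachX (v i 1) ⟨_, hb 0 0⟩ == Cook.ent e 0 3 with hy
  have hm : y.length = m := by simp [hy]
  refine ⟨y, hm, ?_⟩
  have noTp : ∀ i < a, ∀ j < a, v i j ≠ .inl 3 := by
    intro i hi j hj h3
    rcases hT i hi j hj with ⟨q, x, z, -, -, -, h4⟩ | ⟨q, q', x, x', xl, xr, h4, -⟩ |
      ⟨q, x, h4, -⟩
    · simp [h3] at h4
    · simp [h3] at h4
    · simp [h3] at h4
  have key : ∀ t, t + 2 ≤ a → ∀ i < a, ∃ q x, v i (t + 1) = xmachC q x ∧
      (q : ℕ) = (Cook.run e (y ++ [true]) t).1 ∧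
      (i + t < a → ∀ k : Fin G, (x k : ℕ) = Cook.cell (Cook.run e (y ++ [true]) t) k i) := by
    intro t
    induction t with
    | zero =>
      intro _ i hi
      have h0 := (hv i hi).1
      rcases hT i hi 0 (by omega) with ⟨q, x, z, h1, h2, h3, h4⟩ | ⟨q, q', x, x', xl, xr, h4, -⟩ |
        ⟨q, x, h4, -⟩
      · refine ⟨q, x, h1, h2, fun _ k => ?_⟩
        change _ = Cook.cell (uinit e _) k i
        rw [Cook.uinit_cell, h3 k]
        split_ifs with hc
        · rw [xmach_getD, hm]
          simp only [h0, WS.bot, xmachW] at h4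
          split_ifs at h4 ⊢ with h5 h6
          · have h7 : xmachX (v i 1) ⟨_, hb 0 0⟩ = z := by
              dsimp only at h1
              rw [h1, xmachX, h3]
              exact if_pos ⟨rfl, by simpa [hc.1] using hc.2⟩
            have h8 : y.getD i false = (z == Cook.ent e 0 3) := by
              simp [hy, List.getD_eq_getElem?_getD, List.getElem?_range h5, h7]
            have h9 : z = Cook.ent e 0 2 ∨ z = Cook.ent e 0 3 := by simpa using h4
            rw [h8]
            by_cases h10 : z = Cook.ent e 0 3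
            · simp [h10]
            · rw [beq_false_of_ne h10, h9.resolve_right h10]; rfl
          · simpa using h4
          · simpa using h4
        · rfl
      · simp only [h0, WS.bot, xmachW] at h4
        split_ifs at h4
      · simp only [h0, WS.bot, xmachW] at h4
        split_ifs at h4
    | succ t ih =>
      intro hta
      have ih := ih (by omega)
      have hS : ∀ i < a, xmachS e (h (i + 1) (t + 1), v i (t + 1 + 1), h i (t + 1), v i (t + 1)) := by
        intro i hi
        obtain ⟨q, x, h1, -⟩ := ih i hi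
        rcases hT i hi (t + 1) (by omega) with ⟨q, x, z, -, -, -, h4⟩ | h4 | ⟨q, x, -, h4, -⟩
        · simp [h1] at h4
        · exact h4
        · exact absurd h4 (noTp i hi _ (by omega))
      have hq : ∀ i < a, ∀ q' x', v i (t + 1 + 1) = xmachC q' x' →
          (q' : ℕ) = (Cook.run e (y ++ [true]) (t + 1)).1 := by
        intro i
        induction i with
        | zero =>
          intro hi q0 x0 h0
          obtain ⟨q, q', x, x', xl, xr, h1, h2, -, h3⟩ := hS 0 hi
          obtain ⟨q1, x1, h4, h5, h6⟩ := ih 0 hi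
          have hL : h 0 (t + 1) = .inl 4 := (hh _ (by omega)).1
          simp only [h0, h4, hL, Sum.inr.injEq, Sum.inl.injEq, Prod.mk.injEq, reduceCtorEq,
            false_and, or_false, true_and] at h1 h2 h3
          rw [h2.1, h3.1 ⟨_, hP q 1⟩ rfl, Cook.run_succ, Cook.ustep_fst, ← h5, ← h1.2,
            h6 (by omega), h1.1]
        | succ i ihi =>
          intro hi q0 x0 h0
          obtain ⟨q, q', x, x', xl, xr, -, h2, -, h3⟩ := hS (i + 1) hi
          obtain ⟨p, p', w, w', wl, wr, -, g2, g3, -⟩ := hS i (by omega)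
          rw [← ihi (by omega) _ _ g2]
          dsimp only at h2 h3 g3
          rcases g3 with g3 | g3 <;> simp only [h0, g3, Sum.inr.injEq, Sum.inl.injEq,
            Prod.mk.injEq, reduceCtorEq, false_and, false_or, Fin.reduceEq, or_self] at h2 h3
          rw [h2.1, h3.1.1]
      intro i hi
      obtain ⟨q, q', x, x', xl, xr, h1, h2, h3, h4⟩ := hS i hi
      refine ⟨q', x', h2, hq i hi _ _ h2, fun hit k => ?_⟩
      obtain ⟨q1, x1, g1, g2, g3⟩ := ih i hi
      obtain ⟨q2, x2, f1, -, f3⟩ := ih (i + 1) (by omega)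
      obtain ⟨p, p', w, w', wl, wr, e1, -, -, e4⟩ := hS (i + 1) (by omega)
      dsimp only at h1 h3 h4 e1 e4
      have hx : q1 = q ∧ x1 = x := by simpa [g1] using h1
      have hw : x2 = w := by
        have : q2 = p ∧ x2 = w := by simpa [f1] using e1
        exact this.2
      have hr : xr = w := by
        rcases h3 with h3 | h3 <;> simp only [h3, Sum.inr.injEq, Sum.inl.injEq,
          Prod.mk.injEq, reduceCtorEq, false_and, false_or, Fin.reduceEq, or_self] at e4
        exact e4.1.2.2
      rw [Cook.run_succ, Cook.ustep_cell, Cook.run_length, ← g2, ← g3 (by omega),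
        ← f3 (by omega), hx.1, hx.2, hw, ← hr]
      rcases i with _ | i
      · have hL : h 0 (t + 1) = .inl 4 := (hh _ (by omega)).1
        simp only [hL, reduceCtorEq, false_and, or_false, true_and] at h4
        rw [h4.2 k, ← g3 (by omega), hx.2]
      · obtain ⟨q3, x3, d1, -, d3⟩ := ih i (by omega)
        obtain ⟨r, r', u, u', ul, ur, c1, -, c3, -⟩ := hS i (by omega)
        dsimp only at c1 c3
        have hu : q3 = r ∧ x3 = u := by simpa [d1] using c1
        rcases c3 with c3 | c3 <;> simp only [c3, Sum.inr.injEq, Sum.inl.injEq,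
          Prod.mk.injEq, reduceCtorEq, false_and, false_or, Fin.reduceEq, or_self] at h4
        rw [h4.2 k, xmach_rule _ _ _ _ (i + 1) _ _ _ (by omega), Nat.add_sub_cancel,
          ← d3 (by omega), hu.2, h4.1.2.1]
  obtain ⟨q, x, h1, -, h3⟩ := key (a - 2) (by omega) 0 (by omega)
  have hL : h 0 (a - 2 + 1) = .inl 4 := (hh _ (by omega)).1
  have hTp : v 0 (a - 2 + 1 + 1) = .inl 3 := by
    rw [show a - 2 + 1 + 1 = a by omega]; exact (hv 0 (by omega)).2
  rcases hT 0 (by omega) (a - 2 + 1) (by omega) with ⟨q, x, z, h4, -⟩ |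
    ⟨q, q', x, x', xl, xr, -, h4, -⟩ | ⟨q', x', h4, -, h5⟩
  · simp [hTp] at h4
  · simp [hTp] at h4
  · have hx : q = q' ∧ x = x' := by simpa [h1] using h4
    rw [← h5 hL ⟨_, hb 0 1⟩ rfl, ← hx.2, h3 (by omega)]

theorem xmach_complete {e : List (List ℕ)} {G : ℕ} (hG : e.flatten.sum < G) {a : ℕ} (ha : 2 ≤ a)
    {y : List Bool}
    (H : Cook.cell (Cook.run e (y ++ [true]) (a - 2)) (Cook.ent e 0 1) 0 = Cook.ent e 0 4) :
    ∃ h v, (xmachW e G).Til y.length a h v := by
  let cq : ℕ → Fin G := fun t => ⟨(Cook.run e (y ++ [true]) t).1, (Cook.run_le _ _ _).1.trans_lt hG⟩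
  let cx : ℕ → ℕ → Fin G → Fin G := fun t i k =>
    ⟨Cook.cell (Cook.run e (y ++ [true]) t) k i, ((Cook.run_le _ _ _).2 _ _).trans_lt hG⟩
  refine ⟨fun i j => if i = 0 then .inl 4 else if i = a ∨ j = 0 ∨ j + 1 = a then .inl 5 else
      xmachM (cq j) (cx (j - 1) (i - 1)) (cx (j - 1) i),
    fun i j => if j = 0 then (xmachW e G).bot y.length i else if j = a then .inl 3 else
      xmachC (cq (j - 1)) (cx (j - 1) i), fun i hi j hj => ?_, fun j hj => ?_, fun i hi => ?_⟩
  · refine Finset.mem_filter.2 ⟨Finset.mem_univ _, ?_⟩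
    rcases j with _ | j
    · refine Or.inl ⟨cq 0, cx 0 i, ((y ++ [true]).map fun b =>
        bif b then Cook.ent e 0 3 else Cook.ent e 0 2).getD i 0, ?_, rfl, fun k => ?_, ?_⟩
      · simp [show 1 ≠ a by omega]
      · exact Cook.uinit_cell e _ k i
      · rw [xmach_getD]
        simp only [if_true, WS.bot, xmachW]
        split_ifs
        · cases y.getD i false <;> simp
        · simp
        · simp
    · by_cases hja : j + 1 + 1 = a
      · refine Or.inr (Or.inr ⟨cq j, cx j i, by simp [hj.ne], by simp [hja, show a ≠ 0 by omega],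
          fun h0 k hk => ?_⟩)
        have hi0 : i = 0 := by
          by_contra hne
          simp [hne, hja] at h0
        rw [← H, hk, hi0, show a - 2 = j by omega]
      · refine Or.inr (Or.inl ⟨cq j, cq (j + 1), cx j i, cx (j + 1) i, cx j (i - 1), cx j (i + 1),
          by simp [hj.ne], by simp [hja], ?_, ?_⟩)
        · by_cases hia : i + 1 = a
          · exact Or.inr (by simp [hia, show a ≠ 0 by omega])
          · exact Or.inl (by simp [hia, hja])
        · rcases i with _ | i
          · refine Or.inl ⟨by simp, fun k hk => ?_, fun k => ?_⟩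
            · simp only [cq, cx] at hk ⊢
              rw [Cook.run_succ, Cook.ustep_fst, hk]
            · simp only [cq, cx]
              rw [Cook.run_succ, Cook.ustep_cell, Cook.run_length]
          · refine Or.inr ⟨by simp [hi.ne, hja], fun k => ?_⟩
            simp only [cq, cx]
            rw [Cook.run_succ, Cook.ustep_cell, Cook.run_length,
              xmach_rule _ _ _ _ (i + 1) _ _ _ (by omega)]
  · simp [xmachW, show a ≠ 0 by omega]
  · simp [xmachW, show a ≠ 0 by omega]

theorem exists_ws (e : List (List ℕ)) : ∃ (D : Type) (_ : Fintype D) (W : WS D),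
    ∀ m a : ℕ, m < a → 2 ≤ a → ((∃ h v, W.Til m a h v) ↔ ∃ y : List Bool, y.length = m ∧
      Cook.cell (Cook.run e (y ++ [true]) (a - 2)) (Cook.ent e 0 1) 0 = Cook.ent e 0 4) := by
  refine ⟨xmachD (e.flatten.sum + 1), inferInstance, xmachW e _, fun m a _ ha => ⟨?_, ?_⟩⟩
  · rintro ⟨h, v, H⟩
    exact xmach_sound (Nat.lt_succ_self _) ha H
  · rintro ⟨y, rfl, H⟩
    exact xmach_complete (Nat.lt_succ_self _) ha H

end Pool.Agent.P.MP_e40812_co
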