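import Pool.Agent.P.MP_e40812_co.XDefs

/-! The prescribed tiles seen from the soundness side. -/

namespace Pool.Agent.P.MP_e40812_co

open Finset Pool.Agent.Lib.PolyTime
open scoped Classical

theorem xmu_filter_nil {α β : Type} (s : Multiset α) (f : α → β) (p : β → Prop) [DecidablePred p]
    (h : ∀ x ∈ s, ¬p (f x)) : (s.map f).filter p = 0 := by
  rw [Multiset.filter_eq_nil]
  intro b hb
  obtain ⟨x, hx, rfl⟩ := Multiset.mem_map.mp hb
  exact h x hx

theorem exA_cols {C : Type} (bl : C) (s len k : ℕ) (μ : Multiset (ZMod 7 × Q C))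
    (h : ∀ p ∈ μ, p.2 ≠ q4 bl) :
    ((exA bl s len (fill bl k μ)).map fun a => a.2.2.2).filter (· ≠ q4 bl) = μ.map Prod.snd := by
  unfold exA fill
  simp only [Multiset.map_add, Multiset.filter_add]
  rw [xmu_filter_nil (Multiset.map (botT bl s) _), xmu_filter_nil (Multiset.map (topT bl s len) _),
    xmu_filter_nil (Multiset.replicate _ _), xmu_filter_nil {_},
    xmu_filter_nil (Multiset.map _ (∑ β : ZMod 7, _))]
  · simp only [zero_add, add_zero, Multiset.map_map, Function.comp_def]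
    rw [Multiset.filter_eq_self]
    intro b hb
    obtain ⟨x, hx, rfl⟩ := Multiset.mem_map.mp hb
    exact h x hx
  · intro x hx
    obtain ⟨y, hy, rfl⟩ := Multiset.mem_map.mp hx
    obtain ⟨β, -, hβ⟩ := Multiset.mem_sum.mp hy
    rw [Multiset.eq_of_mem_replicate hβ]
    simp
  · intro x hx
    rw [Multiset.mem_singleton.mp hx]
    simp
  · intro x hx
    rw [Multiset.eq_of_mem_replicate hx]
    simp
  · intro x hx
    obtain ⟨y, -, rfl⟩ := Multiset.mem_map.mp hx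
    simp [topT]
  · intro x hx
    obtain ⟨y, -, rfl⟩ := Multiset.mem_map.mp hx
    simp [botT]

/-- An allowed tile that is neither blank nor part of the bottom side. -/
def XmuOth {D : Type} (W : WS D) (q : Q (PC D)) : Prop :=
  W.Al q ∧ q ≠ q4 none ∧ q ≠ W.tB1 ∧ q ≠ W.tX ∧ q ≠ W.tB0 ∧ q ≠ tSE

theorem xmu_aE {D : Type} (W : WS D) (d : D) (b : Bool) : XmuOth W (aE (dat d b)) :=
  ⟨Or.inr (Or.inl ⟨d, b, Or.inl rfl⟩), by
    simp [aE, dat, spc, q4, WS.tB1, WS.tX, WS.tB0, tSE]⟩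

theorem xmu_aW {D : Type} (W : WS D) (d : D) (b : Bool) : XmuOth W (aW (dat d b)) :=
  ⟨Or.inr (Or.inl ⟨d, b, Or.inr (Or.inl rfl)⟩), by
    simp [aW, dat, spc, q4, WS.tB1, WS.tX, WS.tB0, tSE]⟩

theorem xmu_aN {D : Type} (W : WS D) (d : D) (b : Bool) : XmuOth W (aN (dat d b)) :=
  ⟨Or.inr (Or.inl ⟨d, b, Or.inr (Or.inr (Or.inl rfl))⟩), by
    simp [aN, dat, spc, q4, WS.tB1, WS.tX, WS.tB0, tSE]⟩

theorem xmu_aS {D : Type} (W : WS D) (d : D) (b : Bool) : XmuOth W (aS (dat d b)) :=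
  ⟨Or.inr (Or.inl ⟨d, b, Or.inr (Or.inr (Or.inr rfl))⟩), by
    simp [aS, dat, spc, q4, WS.tB1, WS.tX, WS.tB0, tSE]⟩

theorem xmu_cap {D : Type} (W : WS D) : XmuOth W cap :=
  ⟨Or.inr (Or.inr (Or.inl rfl)), by simp [cap, dat, spc, q4, WS.tB1, WS.tX, WS.tB0, tSE]⟩

theorem xmu_all {D : Type} (W : WS D) {p : ZMod 7 × Q (PC D)} (hp : p ∈ W.all) :
    p.2 ∈ W.TK ∧ ∃ t x y f, p.2 = tok t x y f := by
  have h1 : p.2 ∈ W.TK := (mem_product.mp (Finset.mem_val.mp hp)).2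
  refine ⟨h1, ?_⟩
  obtain ⟨r, -, hr⟩ := mem_image.mp h1
  exact ⟨_, _, _, _, hr.symm⟩

theorem xmu_rest {D : Type} (W : WS D) (m a : ℕ) :
    ∀ p ∈ (a * a) • W.all + (a * a) • W.all.bind ext + W.bdry m a, XmuOth W p.2 := by
  intro p hp
  rcases Multiset.mem_add.mp hp with hp | hp
  · rcases Multiset.mem_add.mp hp with hp | hp
    · obtain ⟨h1, t, x, y, f, h2⟩ := xmu_all W (Multiset.mem_of_mem_nsmul hp)
      refine ⟨Or.inl h1, ?_⟩
      rw [h2]
      simp [tok, dat, spc, q4, WS.tB1, WS.tX, WS.tB0, tSE]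
    · obtain ⟨r, hr, hpr⟩ := Multiset.mem_bind.mp (Multiset.mem_of_mem_nsmul hp)
      obtain ⟨-, t, x, y, f, h2⟩ := xmu_all W hr
      simp only [ext, h2, tok, Multiset.insert_eq_cons, Multiset.mem_cons,
        Multiset.mem_singleton] at hpr
      rcases hpr with rfl | rfl | rfl | rfl | rfl
      exacts [xmu_aE W _ _, xmu_aW W _ _, xmu_aN W _ _, xmu_aS W _ _, xmu_cap W]
  · simp only [WS.bdry, Multiset.mem_add, Multiset.mem_map, Multiset.mem_singleton] at hp
    rcases hp with (((((⟨_, -, rfl⟩ | ⟨_, -, rfl⟩) | ⟨_, -, rfl⟩) | rfl) | ⟨_, -, rfl⟩) |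
      ⟨_, -, rfl⟩) | ⟨_, -, rfl⟩
    exacts [xmu_aE W _ _, xmu_aW W _ _, xmu_aN W _ _, xmu_aN W _ _, xmu_aN W _ _, xmu_cap W,
      xmu_aS W _ _]

theorem xmu_frame {D : Type} (W : WS D) (m a : ℕ) :
    (W.frame m a).map Prod.snd = {tSW} + Multiset.replicate m W.tB1 + {W.tX} +
      Multiset.replicate (a - m - 1) W.tB0 + {tSE} + Multiset.replicate a W.tL +
      Multiset.replicate a W.tR + {tNW} + Multiset.replicate a W.tT + {tNE} := by
  simp only [WS.frame, Multiset.map_add, Multiset.map_singleton, Multiset.map_map,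
    Function.comp_def, Multiset.map_const', Multiset.card_range]

theorem mu_facts {D : Type} (W : WS D) (m a : ℕ) :
    (∀ p ∈ W.mu m a, W.Al p.2 ∧ p.2 ≠ q4 none) ∧ tSW ∈ (W.mu m a).map Prod.snd ∧
      ((W.mu m a).map Prod.snd).count W.tB1 = m ∧ ((W.mu m a).map Prod.snd).count W.tX = 1 ∧
      ((W.mu m a).map Prod.snd).count W.tB0 = a - m - 1 ∧
      ((W.mu m a).map Prod.snd).count tSE = 1 := by
  have hr := xmu_rest W m a
  have hmu : W.mu m a =
      W.frame m a + ((a * a) • W.all + (a * a) • W.all.bind ext + W.bdry m a) := by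
    simp only [WS.mu, add_assoc]
  generalize (a * a) • W.all + (a * a) • W.all.bind ext + W.bdry m a = ρ at hr hmu
  have hz : ∀ q, ¬XmuOth W q → (ρ.map Prod.snd).count q = 0 := by
    intro q hq
    rw [Multiset.count_eq_zero]
    intro hm
    obtain ⟨p, hp, rfl⟩ := Multiset.mem_map.mp hm
    exact hq (hr p hp)
  have z1 := hz W.tB1 fun h => h.2.2.1 rfl
  have z2 := hz W.tX fun h => h.2.2.2.1 rfl
  have z3 := hz W.tB0 fun h => h.2.2.2.2.1 rfl
  have z4 := hz tSE fun h => h.2.2.2.2.2 rfl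
  rw [hmu]
  refine ⟨?_, ?_, ?_⟩
  · intro p hp
    rcases Multiset.mem_add.mp hp with hp | hp
    · have h1 := Multiset.mem_map_of_mem Prod.snd hp
      rw [xmu_frame] at h1
      generalize p.2 = q at h1
      simp only [Multiset.mem_add, Multiset.mem_singleton, Multiset.mem_replicate] at h1
      rcases h1 with ((((((((rfl | ⟨-, rfl⟩) | rfl) | ⟨-, rfl⟩) | rfl) | ⟨-, rfl⟩) | ⟨-, rfl⟩) |
        rfl) | ⟨-, rfl⟩) | rfl
      all_goals refine ⟨by simp only [WS.Al, true_or, or_true], ?_⟩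
      all_goals simp [q4, spc, dat, tSW, WS.tB1, WS.tX, WS.tB0, tSE, WS.tL, WS.tR, tNW, WS.tT, tNE]
    · exact ⟨(hr p hp).1, (hr p hp).2.1⟩
  · rw [Multiset.map_add, xmu_frame]
    simp only [Multiset.mem_add, Multiset.mem_singleton, true_or]
  · simp only [Multiset.map_add, Multiset.count_add, z1, z2, z3, z4, xmu_frame,
      Multiset.count_singleton, Multiset.count_replicate]
    simp [spc, dat, tSW, WS.tB1, WS.tX, WS.tB0, tSE, WS.tL, WS.tR, tNW, WS.tT, tNE]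

end Pool.Agent.P.MP_e40812_co
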