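import Pool.Agent.P.MP_e40812_co.XDefs

/-! The inside of the frame is a tiling of the square. -/

namespace Pool.Agent.P.MP_e40812_co

open Finset Pool.Agent.Lib.PolyTime
open scoped Classical

section

variable {ι D : Type}

/-- The bit of a colour. -/
def xrectBit : PC D → ℤ
  | some (.inl (_, true)) => 1
  | _ => 0

/-- The data of a colour. -/
def xrectUn (z : D) : PC D → D
  | some (.inl (d, _)) => d
  | _ => z

lemma xrect_tok {W : WS D} {q : Q (PC D)} (h : q ∈ W.TK) :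
    ∃ t ∈ W.τ, ∃ x y f, q = tok t x y f := by
  obtain ⟨⟨t, x, y, f⟩, h1, rfl⟩ := mem_image.1 h
  exact ⟨t, (mem_product.1 h1).1, x, y, f, rfl⟩

lemma xrect_cases {W : WS D} {q : Q (PC D)} (h : W.Al q) :
    (q.2.2.2 = spc 2 → q = W.tL ∨ q = tNW) ∧
    (∀ d b d' b', q.2.2.1 = dat d b → q.2.2.2 = dat d' b' → q ∈ W.TK) ∧
    (∀ d b, q.2.2.1 = dat d b → q.2.2.2 = spc 3 → q = W.tR) ∧
    (∀ d b, q.2.2.1 = spc 4 → q.2.2.2 = dat d b → q = W.tT) := by
  rcases h with h | ⟨d, b, h | h | h | h⟩ | h | h | h | h | h | h | h | h | h | h | h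
  · refine ⟨?_, fun _ _ _ _ _ _ => h, ?_, ?_⟩ <;>
      obtain ⟨t, -, x, y, f, rfl⟩ := xrect_tok h <;> simp [tok, dat, spc]
  all_goals
    subst h
    simp [aE, aW, aN, aS, cap, tSW, WS.tB1, WS.tX, WS.tB0, tSE, WS.tL, WS.tR, tNW, WS.tT, tNE,
      dat, spc]

lemma xrect_bit (t : Q D) (x y f : Bool) :
    xrectBit (tok t x y f).1 - xrectBit (tok t x y f).2.2.1 =
      xrectBit (tok t x y f).2.1 - xrectBit (tok t x y f).2.2.2 := by
  cases x <;> cases y <;> cases f <;> simp [tok, dat, xrectBit]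

/-- The point with coordinates `(i, j)`. -/
def xrectU (P : PG ι (PC D) none) (v : ι) (i j : ℕ) : ι := P.n^[j] (P.e^[i] v)

/-- A row that can be continued to the north. -/
def xrectUp (P : PG ι (PC D) none) (v : ι) (a j : ℕ) : Prop :=
  (∀ i ≤ a + 1, xrectU P v i j ∈ P.S) ∧
    (∀ i ≤ a, P.e (xrectU P v i j) = xrectU P v (i + 1) j) ∧
    (P.col (xrectU P v 0 j)).2.1 = spc 2 ∧
    (∀ i < a, ∃ d b, (P.col (xrectU P v (i + 1) j)).2.1 = dat d b) ∧
    (P.col (xrectU P v (a + 1) j)).2.1 = spc 3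

variable {W : WS D} {P : PG ι (PC D) none} {v : ι} {a j : ℕ}

lemma xrect_succ (i j : ℕ) : xrectU P v i (j + 1) = P.n (xrectU P v i j) :=
  Function.iterate_succ_apply' _ _ _

lemma xrect_north (h : xrectUp P v a j) (i : ℕ) (hi : i ≤ a + 1) :
    xrectU P v i (j + 1) ∈ P.S ∧
      (P.col (xrectU P v i (j + 1))).2.2.2 = (P.col (xrectU P v i j)).2.1 ∧
      P.s (xrectU P v i (j + 1)) = xrectU P v i j := by
  rw [xrect_succ]
  refine P.hn _ (h.1 i hi) ?_
  rcases i with _ | i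
  · rw [h.2.2.1]; simp [spc]
  · rcases (by omega : i < a ∨ i = a) with h1 | rfl
    · obtain ⟨d, b, h2⟩ := h.2.2.2.1 i h1
      rw [h2]; simp [dat]
    · rw [h.2.2.2.2]; simp [spc]

lemma xrect_east (h : xrectUp P v a j) (i : ℕ) (hi : i ≤ a) :
    P.e (xrectU P v i (j + 1)) = xrectU P v (i + 1) (j + 1) := by
  have h1 := (xrect_north h i (by omega)).1
  rw [xrect_succ] at h1
  have h2 := P.comm _ (h.1 i (by omega)) (by rw [h.2.1 i hi]; exact h.1 _ (by omega)) h1
  rw [xrect_succ, xrect_succ, ← h2, h.2.1 i hi]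

lemma xrect_west (h : xrectUp P v a j) (i : ℕ) (hi : i ≤ a)
    (h1 : (P.col (xrectU P v i (j + 1))).1 ≠ none) :
    (P.col (xrectU P v (i + 1) (j + 1))).2.2.1 = (P.col (xrectU P v i (j + 1))).1 := by
  rw [← xrect_east h i hi]
  exact (P.he _ (xrect_north h i (by omega)).1 h1).2.1

lemma xrect_mid (hal : ∀ v ∈ P.S, W.Al (P.col v)) (h : xrectUp P v a j)
    (h0 : P.col (xrectU P v 0 (j + 1)) = W.tL) :
    (∀ i ≤ a, ∃ d b, (P.col (xrectU P v i (j + 1))).1 = dat d b) ∧
    (∀ i < a, P.col (xrectU P v (i + 1) (j + 1)) ∈ W.TK) ∧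
    P.col (xrectU P v (a + 1) (j + 1)) = W.tR ∧ xrectUp P v a (j + 1) := by
  have h2 : ∀ i < a, (∃ d b, (P.col (xrectU P v i (j + 1))).1 = dat d b) →
      P.col (xrectU P v (i + 1) (j + 1)) ∈ W.TK := by
    rintro i hi ⟨d, b, h3⟩
    obtain ⟨d', b', h4⟩ := h.2.2.2.1 i hi
    obtain ⟨h5, h6, -⟩ := xrect_north h (i + 1) (by omega)
    exact (xrect_cases (hal _ h5)).2.1 d b d' b'
      ((xrect_west h i hi.le (by rw [h3]; simp [dat])).trans h3) (h6.trans h4)
  have h1 : ∀ i ≤ a, ∃ d b, (P.col (xrectU P v i (j + 1))).1 = dat d b := by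
    intro i hi
    induction i with
    | zero => exact ⟨_, _, by rw [h0]; rfl⟩
    | succ i ih =>
      obtain ⟨t, -, x, y, f, h3⟩ := xrect_tok (h2 i hi (ih (by omega)))
      exact ⟨_, _, by rw [h3]; rfl⟩
  have h7 : P.col (xrectU P v (a + 1) (j + 1)) = W.tR := by
    obtain ⟨d, b, h3⟩ := h1 a le_rfl
    obtain ⟨h5, h6, -⟩ := xrect_north h (a + 1) le_rfl
    exact (xrect_cases (hal _ h5)).2.2.1 d b
      ((xrect_west h a le_rfl (by rw [h3]; simp [dat])).trans h3) (h6.trans h.2.2.2.2)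
  refine ⟨h1, fun i hi => h2 i hi (h1 i hi.le), h7, fun i hi => (xrect_north h i hi).1,
    xrect_east h, by rw [h0]; rfl, fun i hi => ?_, by rw [h7]; rfl⟩
  obtain ⟨t, -, x, y, f, h3⟩ := xrect_tok (h2 i hi (h1 i hi.le))
  exact ⟨_, _, by rw [h3]; rfl⟩

lemma xrect_top (hal : ∀ v ∈ P.S, W.Al (P.col v)) (h : xrectUp P v a j)
    (h0 : P.col (xrectU P v 0 (j + 1)) = tNW) (i : ℕ) (hi : i < a) :
    P.col (xrectU P v (i + 1) (j + 1)) = W.tT := by
  have h2 : ∀ i < a, (P.col (xrectU P v i (j + 1))).1 = spc 4 →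
      P.col (xrectU P v (i + 1) (j + 1)) = W.tT := by
    intro i hi h3
    obtain ⟨d', b', h4⟩ := h.2.2.2.1 i hi
    obtain ⟨h5, h6, -⟩ := xrect_north h (i + 1) (by omega)
    exact (xrect_cases (hal _ h5)).2.2.2 d' b'
      ((xrect_west h i hi.le (by rw [h3]; simp [spc])).trans h3) (h6.trans h4)
  induction i with
  | zero => exact h2 0 hi (by rw [h0]; rfl)
  | succ i ih => exact h2 _ hi (by rw [ih (by omega)]; rfl)

lemma xrect_bot {m : ℕ} (hv : W.Chain P m a v) (i : ℕ) (hi : i < a) :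
    (P.col (xrectU P v (i + 1) 0)).2.1 = dat (W.bot m i) false := by
  have h1 := (hv (i + 1) (by omega)).2
  show (P.col (P.e^[i + 1] v)).2.1 = _
  rw [h1, WS.bot, if_neg (by omega)]
  split_ifs <;> first | rfl | omega

lemma xrect_zero {m : ℕ} (hm : m < a) (hv : W.Chain P m a v) : xrectUp P v a 0 := by
  refine ⟨fun i hi => (hv i hi).1, fun i _ => (Function.iterate_succ_apply' P.e i v).symm, ?_,
    fun i hi => ⟨_, _, xrect_bot hv i hi⟩, ?_⟩
  · have h1 := (hv 0 (by omega)).2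
    show (P.col (P.e^[0] v)).2.1 = _
    rw [h1]; rfl
  · have h1 := (hv (a + 1) le_rfl).2
    show (P.col (P.e^[a + 1] v)).2.1 = _
    rw [h1, if_neg (by omega), if_neg (by omega), if_neg (by omega), if_neg (by omega)]
    rfl

lemma xrect_end {m : ℕ} (hal : ∀ v ∈ P.S, W.Al (P.col v)) (hm : m < a) (hv : W.Chain P m a v) :
    ∃ j, P.col (xrectU P v 0 (j + 1)) ≠ W.tL := by
  by_contra hc
  push Not at hc
  have h1 : ∀ j, xrectUp P v a j := by
    intro j
    induction j with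
    | zero => exact xrect_zero hm hv
    | succ j ih => exact (xrect_mid hal ih (hc j)).2.2.2
  have h0 : ∀ k, xrectU P v 0 0 ≠ xrectU P v 0 (k + 1) := by
    intro k hk
    have h2 := hc k
    rw [← hk] at h2
    have h3 : P.col (xrectU P v 0 0) = tSW := (hv 0 (by omega)).2
    rw [h3] at h2
    simp [tSW, WS.tL, spc, dat] at h2
  have h2 : ∀ j k, xrectU P v 0 j = xrectU P v 0 k → j = k := by
    intro j
    induction j with
    | zero =>
      rintro (_ | k) hk
      · rfl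
      · exact absurd hk (h0 k)
    | succ j ih =>
      rintro (_ | k) hk
      · exact absurd hk.symm (h0 j)
      · have h3 := congrArg P.s hk
        rw [(xrect_north (h1 j) 0 (by omega)).2.2, (xrect_north (h1 k) 0 (by omega)).2.2] at h3
        rw [ih k h3]
  exact Set.infinite_of_injective_forall_mem (f := xrectU P v 0) (s := (P.S : Set ι)) h2
    (fun j => (h1 j).1 0 (by omega)) P.S.finite_toSet

end

theorem til_of_chain {ι D : Type} (W : WS D) (P : PG ι (PC D) none) (m a : ℕ) (hm : m < a)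
    (hal : ∀ v ∈ P.S, W.Al (P.col v)) {v : ι} (hv : W.Chain P m a v) : ∃ h v, W.Til m a h v := by
  have hex := xrect_end hal hm hv
  set b := Nat.find hex with hb
  have hL : ∀ j < b, P.col (xrectU P v 0 (j + 1)) = W.tL := fun j hj =>
    not_not.1 (Nat.find_min hex hj)
  have hup : ∀ j ≤ b, xrectUp P v a j := by
    intro j hj
    induction j with
    | zero => exact xrect_zero hm hv
    | succ j ih => exact (xrect_mid hal (ih (by omega)) (hL j hj)).2.2.2
  have hNW : P.col (xrectU P v 0 (b + 1)) = tNW := by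
    obtain ⟨h1, h2, -⟩ := xrect_north (hup b le_rfl) 0 (by omega)
    exact ((xrect_cases (hal _ h1)).1 (h2.trans (hup b le_rfl).2.2.1)).resolve_left
      (Nat.find_spec hex)
  set H : ℕ → ℕ → PC D := fun i j => (P.col (xrectU P v i (j + 1))).1 with hH
  set V : ℕ → ℕ → PC D := fun i j => (P.col (xrectU P v (i + 1) j)).2.1 with hV
  have hW : ∀ j < b, ∀ i ≤ a, (P.col (xrectU P v (i + 1) (j + 1))).2.2.1 = H i j := by
    intro j hj i hi
    obtain ⟨d, c, h1⟩ := (xrect_mid hal (hup j hj.le) (hL j hj)).1 i hi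
    exact xrect_west (hup j hj.le) i hi (by rw [h1]; simp [dat])
  have hcell : ∀ i < a, ∀ j < b, ∃ t ∈ W.τ, ∃ x y f,
      (H (i + 1) j, V i (j + 1), H i j, V i j) = tok t x y f := by
    intro i hi j hj
    obtain ⟨t, ht, x, y, f, h1⟩ := xrect_tok ((xrect_mid hal (hup j hj.le) (hL j hj)).2.1 i hi)
    refine ⟨t, ht, x, y, f, ?_⟩
    rw [← h1, ← hW j hj i hi.le]
    have h2 := (xrect_north (hup j hj.le) (i + 1) (by omega)).2.1
    exact Prod.ext rfl (Prod.ext rfl (Prod.ext rfl h2.symm))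
  have hH0 : ∀ j < b, H 0 j = dat W.L false := fun j hj => by
    simp only [hH]; rw [hL j hj]; rfl
  have hHa : ∀ j < b, H a j = dat W.R true := fun j hj => by
    rw [← hW j hj a le_rfl, (xrect_mid hal (hup j hj.le) (hL j hj)).2.2.1]; rfl
  have hV0 : ∀ i < a, V i 0 = dat (W.bot m i) false := fun i hi => xrect_bot hv i hi
  have hVb : ∀ i < a, V i b = dat W.Tp true := fun i hi => by
    have h2 := (xrect_north (hup b le_rfl) (i + 1) (by omega)).2.1
    rw [xrect_top hal (hup b le_rfl) hNW i hi] at h2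
    exact h2.symm
  have hab : b = a := by
    have h1 : ∑ j ∈ range b, ∑ i ∈ range a, (xrectBit (H (i + 1) j) - xrectBit (H i j)) =
        ∑ i ∈ range a, ∑ j ∈ range b, (xrectBit (V i (j + 1)) - xrectBit (V i j)) := by
      rw [sum_comm]
      refine sum_congr rfl fun i hi => sum_congr rfl fun j hj => ?_
      obtain ⟨t, -, x, y, f, h2⟩ := hcell i (mem_range.1 hi) j (mem_range.1 hj)
      have h3 := xrect_bit t x y f
      rw [← h2] at h3
      exact h3
    have h2 : ∑ j ∈ range b, ∑ i ∈ range a, (xrectBit (H (i + 1) j) - xrectBit (H i j)) =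
        ∑ _j ∈ range b, (1 : ℤ) := by
      refine sum_congr rfl fun j hj => ?_
      rw [sum_range_sub (fun i => xrectBit (H i j)), hH0 j (mem_range.1 hj),
        hHa j (mem_range.1 hj)]
      rfl
    have h3 : ∑ i ∈ range a, ∑ j ∈ range b, (xrectBit (V i (j + 1)) - xrectBit (V i j)) =
        ∑ _i ∈ range a, (1 : ℤ) := by
      refine sum_congr rfl fun i hi => ?_
      rw [sum_range_sub (fun j => xrectBit (V i j)), hV0 i (mem_range.1 hi),
        hVb i (mem_range.1 hi)]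
      rfl
    rw [h2, h3] at h1
    simpa using h1
  rw [hab] at hcell hH0 hHa hVb
  refine ⟨fun i j => xrectUn W.L (H i j), fun i j => xrectUn W.L (V i j), fun i hi j hj => ?_,
    fun j hj => ?_, fun i hi => ?_⟩
  · obtain ⟨t, ht, x, y, f, h2⟩ := hcell i hi j hj
    simp only [tok, Prod.mk.injEq] at h2
    obtain ⟨e1, e2, e3, e4⟩ := h2
    simp only [e1, e2, e3, e4]
    exact ht
  · simp only [hH0 j hj, hHa j hj]
    exact ⟨rfl, rfl⟩
  · simp only [hV0 i hi, hVb i hi]
    exact ⟨rfl, rfl⟩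

end Pool.Agent.P.MP_e40812_co
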