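import Pool.Agent.P.MP_e40812_co.XIsl
import Pool.Agent.P.MP_e40812_co.XAct

/-! Padding: the prescribed tiles are used exactly. -/

namespace Pool.Agent.P.MP_e40812_co

open Finset Pool.Agent.Lib.PolyTime
open scoped Classical

theorem xsum_add {C : Type} {bl : C} {c k k' : ℕ} {μ ν : Multiset (ZMod 7 × Q C)}
    (h : Sp bl c (7 * k) μ) (h' : Sp bl c (7 * k') ν) : Sp bl c (7 * (k + k')) (μ + ν) := by
  rw [mul_add]
  exact h.add h'

theorem xsum_bind {C I : Type} {bl : C} {c k : ℕ} (s : Multiset I)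
    (f : I → Multiset (ZMod 7 × Q C)) (h : ∀ i ∈ s, Sp bl c (7 * k) (f i)) :
    Sp bl c (7 * (k * s.card)) (s.bind f) := by
  induction s using Multiset.induction_on with
  | empty => exact Sp.zero bl c
  | cons i s ih =>
    rw [Multiset.cons_bind, Multiset.card_cons, mul_add_one, add_comm _ k]
    exact xsum_add (h i (Multiset.mem_cons_self i s))
      (ih fun j hj => h j (Multiset.mem_cons_of_mem hj))

theorem xsum_sum {C : Type} {bl : C} {c k : ℕ} (n : ℕ) (f : ℕ → Multiset (ZMod 7 × Q C))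
    (h : ∀ i, Sp bl c (7 * k) (f i)) : Sp bl c (7 * (k * n)) (∑ i ∈ range n, f i) := by
  induction n with
  | zero => exact Sp.zero bl c
  | succ n ih =>
    rw [sum_range_succ, mul_add_one]
    exact xsum_add ih (h n)

theorem xsum_map {X : Type} (n : ℕ) (f : ℕ → X) :
    (Multiset.range n).map f = ∑ i ∈ range n, {f i} := by
  induction n with
  | zero => simp
  | succ n ih => rw [Multiset.range_succ, Multiset.map_cons, sum_range_succ, ih, add_comm,
      Multiset.singleton_add]

theorem xsum_nsmul {X Y : Type} (k : ℕ) (s : Multiset X) (f : X → Multiset Y) :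
    k • s.bind f = (k • s).bind f := by
  induction k with
  | zero => simp
  | succ k ih => rw [succ_nsmul, succ_nsmul, Multiset.add_bind, ih]

theorem xsum_sbind {X Y : Type} (n : ℕ) (g : ℕ → Multiset X) (f : X → Multiset Y) :
    (∑ i ∈ range n, g i).bind f = ∑ i ∈ range n, (g i).bind f := by
  induction n with
  | zero => simp
  | succ n ih => rw [sum_range_succ, sum_range_succ, Multiset.add_bind, ih]

theorem xsum_clx (i j : ℕ) : cl (i + 1) j = cl i j + 1 := by
  simp only [cl]; push_cast; ring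

theorem xsum_cly (i j : ℕ) : cl i (j + 1) = cl i j + 3 := by
  simp only [cl]; push_cast; ring

variable {D : Type}

theorem xsum_hd (i j : ℕ) (x : PC D) :
    hd (cl (i + 1) j) x = {(cl i j, aW x)} + {(cl (i + 1) j, aE x)} := by
  rw [hd, xsum_clx, add_sub_cancel_right]
  rfl

theorem xsum_vd (i j : ℕ) (x : PC D) :
    vd (cl i (j + 1)) x =
      {(cl i j, aS x)} + ({(cl i (j + 1), aN x)} + {(cl (i + 1) (j + 1), cap)}) := by
  rw [vd, xsum_clx, xsum_cly, add_sub_cancel_right]
  rfl

theorem xsum_ext (i j : ℕ) (q : Q (PC D)) :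
    ext (cl (i + 1) (j + 1), q) = {(cl (i + 1 + 1) (j + 1), aE q.1)} +
      ({(cl i (j + 1), aW q.2.2.1)} + ({(cl (i + 1) (j + 1 + 1), aN q.2.1)} +
      ({(cl (i + 1) j, aS q.2.2.2)} + {(cl (i + 1 + 1) (j + 1 + 1), cap)}))) := by
  have h1 : cl i (j + 1) = cl (i + 1) (j + 1) - 1 := by rw [xsum_clx, add_sub_cancel_right]
  have h2 : cl (i + 1) j = cl (i + 1) (j + 1) - 3 := by rw [xsum_cly, add_sub_cancel_right]
  have h3 : cl (i + 1 + 1) (j + 1 + 1) = cl (i + 1) (j + 1) + 4 := by
    rw [xsum_clx (i + 1), xsum_cly (i + 1) (j + 1)]; ring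
  rw [h1, h2, h3, xsum_clx (i + 1), xsum_cly (i + 1) (j + 1)]
  rfl

theorem xsum_bot (W : WS D) {m a : ℕ} (hm : m < a) :
    ∑ i ∈ range a, ({(cl (i + 1) 1, aN (dat (W.bot m i) false))} : Multiset (ZMod 7 × Q (PC D))) =
      (Multiset.range m).map (fun i => (cl (i + 1) 1, aN (dat W.B1 false))) +
      {(cl (m + 1) 1, aN (dat W.B2 false))} +
      (Multiset.range (a - m - 1)).map (fun i => (cl (m + 2 + i) 1, aN (dat W.B0 false))) := by
  obtain ⟨r, rfl⟩ : ∃ r, a = m + 1 + r := ⟨a - m - 1, by omega⟩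
  rw [sum_range_add, sum_range_succ, xsum_map, xsum_map, show m + 1 + r - m - 1 = r by omega]
  congr 1
  · congr 1
    · exact sum_congr rfl fun i hi => by rw [WS.bot, if_pos (mem_range.1 hi)]
    · rw [WS.bot, if_neg (lt_irrefl m), if_pos rfl]
  · refine sum_congr rfl fun i _ => ?_
    rw [WS.bot, if_neg (by omega), if_neg (by omega), show m + 1 + i + 1 = m + 2 + i by omega]

theorem xsum_id (W : WS D) {m a : ℕ} (hm : m < a) {h v : ℕ → ℕ → D} (ht : W.Til m a h v) :
    (∑ j ∈ range a, ∑ i ∈ range (a + 1),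
        hd (cl (i + 1) (j + 1)) (dat (h i j) (decide (j < i)))) +
      (∑ i ∈ range a, ∑ j ∈ range (a + 1),
        vd (cl (i + 1) (j + 1)) (dat (v i j) (decide (i < j)))) =
      (act a h v).bind ext + W.bdry m a := by
  obtain ⟨-, t1, t2⟩ := ht
  have e1 : ∀ j ∈ range a, ∑ i ∈ range (a + 1),
      hd (cl (i + 1) (j + 1)) (dat (h i j) (decide (j < i))) =
      ∑ i ∈ range a, {(cl i (j + 1), aW (dat (h i j) (decide (j < i))))} +
        {(cl a (j + 1), aW (dat W.R true))} +
      (∑ i ∈ range a, {(cl (i + 1 + 1) (j + 1), aE (dat (h (i + 1) j) (decide (j < i + 1))))} +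
        {(cl 1 (j + 1), aE (dat W.L false))}) := by
    intro j hj
    have hj' := mem_range.1 hj
    simp only [xsum_hd]
    rw [sum_add_distrib, sum_range_succ, sum_range_succ', (t1 j hj').1, (t1 j hj').2,
      decide_eq_true hj', decide_eq_false (Nat.not_lt_zero j)]
  have e2 : ∀ i ∈ range a, ∑ j ∈ range (a + 1),
      vd (cl (i + 1) (j + 1)) (dat (v i j) (decide (i < j))) =
      ∑ j ∈ range a, {(cl (i + 1) j, aS (dat (v i j) (decide (i < j))))} +
        {(cl (i + 1) a, aS (dat W.Tp true))} +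
      (∑ j ∈ range a, {(cl (i + 1) (j + 1 + 1), aN (dat (v i (j + 1)) (decide (i < j + 1))))} +
        {(cl (i + 1) 1, aN (dat (W.bot m i) false))} +
      (∑ j ∈ range a, {(cl (i + 1 + 1) (j + 1 + 1), cap)} + {(cl (i + 2) 1, cap)})) := by
    intro i hi
    have hi' := mem_range.1 hi
    simp only [xsum_vd]
    rw [sum_add_distrib, sum_add_distrib, sum_range_succ, sum_range_succ', sum_range_succ',
      (t2 i hi').1, (t2 i hi').2, decide_eq_true hi', decide_eq_false (Nat.not_lt_zero i)]
  rw [sum_congr rfl e1, sum_congr rfl e2, act, WS.bdry, add_assoc _ _ {_}, add_assoc _ (_ + {_}),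
    ← xsum_bot W hm]
  simp only [xsum_sbind, Multiset.singleton_bind, xsum_ext, cellT, sum_add_distrib, xsum_map]
  rw [sum_comm (f := fun i j => ({(cl (i + 1) j, aS (dat (v i j) (decide (i < j))))} :
      Multiset (ZMod 7 × Q (PC D)))),
    sum_comm (f := fun i j => ({(cl (i + 1) (j + 1 + 1),
      aN (dat (v i (j + 1)) (decide (i < j + 1))))} : Multiset (ZMod 7 × Q (PC D)))),
    sum_comm (f := fun i j => ({(cl (i + 1 + 1) (j + 1 + 1), cap)} :
      Multiset (ZMod 7 × Q (PC D))))]
  abel

theorem xsum_card (a : ℕ) (h v : ℕ → ℕ → D) : (act a h v).card = a * a := by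
  simp [act]

theorem xsum_le (W : WS D) {m a : ℕ} {h v : ℕ → ℕ → D} (ht : W.Til m a h v) :
    act a h v ≤ (a * a) • W.all := by
  refine Multiset.le_iff_count.2 fun p => ?_
  by_cases hp : p ∈ act a h v
  · have h1 : p ∈ W.all := by
      simp only [act, Multiset.mem_sum, Multiset.mem_singleton, mem_range] at hp
      obtain ⟨j, hj, i, hi, rfl⟩ := hp
      refine mem_product.2 ⟨mem_univ _, mem_image.2 ⟨(_, decide (j < i), decide (i < j),
        decide (i = j)), mem_product.2 ⟨ht.1 i hi j hj, mem_univ _⟩, ?_⟩⟩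
      have a1 : (decide (j < i) || decide (i = j)) = decide (j < i + 1) := by
        rw [← Bool.decide_or, decide_eq_decide]; omega
      have a2 : (decide (i < j) || decide (i = j)) = decide (i < j + 1) := by
        rw [← Bool.decide_or, decide_eq_decide]; omega
      have a3 : (decide (j < i) && !decide (i = j)) = decide (j < i) := by
        rw [← decide_not, ← Bool.decide_and, decide_eq_decide]; omega
      have a4 : (decide (i < j) && !decide (i = j)) = decide (i < j) := by
        rw [← decide_not, ← Bool.decide_and, decide_eq_decide]; omega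
      simp only [tok, cellT, a1, a2, a3, a4]
    rw [Multiset.count_nsmul, ← xsum_card a h v]
    exact (Multiset.count_le_card _ _).trans
      (Nat.le_mul_of_pos_right _ (Multiset.count_pos.2 h1))
  · rw [Multiset.count_eq_zero.2 hp]
    exact Nat.zero_le _

theorem sp_mu {D : Type} (W : WS D) {m a : ℕ} (hm : m < a) (h7 : ((a + 2 : ℕ) : ZMod 7) = 3)
    {h v : ℕ → ℕ → D} (ht : W.Til m a h v) :
    Sp none (a + 2) (7 * ((a + 2) * W.nb a)) (W.mu m a) := by
  have hc : 3 ≤ a + 2 := by omega
  obtain ⟨Dm, hD⟩ := Multiset.le_iff_exists_add.1 (xsum_le W ht)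
  have hcard : Dm.card = a * a * W.all.card - a * a := by
    rw [← Multiset.card_nsmul, hD, Multiset.card_add, xsum_card, Nat.add_sub_cancel_left]
  have s1 : Sp none (a + 2) (7 * ((a + 2) * (a + 2))) (W.frame m a + act a h v) :=
    (sp_act W hm h7 ht).mono (by omega)
  have s2 := xsum_bind (bl := none) (c := a + 2) (k := a + 2) Dm (fun p => p ::ₘ ext p)
    fun p hp => by
      have h1 : p ∈ (a * a) • W.all := by
        rw [hD]
        exact Multiset.mem_add.2 (Or.inr hp)
      obtain ⟨β, q⟩ := p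
      obtain ⟨t, -, rfl⟩ := mem_image.1 (mem_product.1 (Multiset.mem_of_mem_nsmul h1)).2
      exact sp_island hc h7 β _ (Option.some_ne_none _) (Option.some_ne_none _)
        (Option.some_ne_none _) (Option.some_ne_none _)
  have s3 := xsum_sum (bl := none) (c := a + 2) a _ fun j => xsum_sum (a + 1) _ fun i =>
    sp_hd hc (cl (i + 1) (j + 1)) (x := dat (h i j) (decide (j < i))) (Option.some_ne_none _)
  have s4 := xsum_sum (bl := none) (c := a + 2) a _ fun i => xsum_sum (a + 1) _ fun j =>
    sp_vd hc h7 (cl (i + 1) (j + 1)) (x := dat (v i j) (decide (i < j))) (Option.some_ne_none _)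
  have s5 := xsum_add (xsum_add s1 s2) (xsum_add s3 s4)
  have e1 : (a + 2) * W.nb a = (a + 2) * (a + 2) + (a + 2) * Dm.card +
      ((a + 2) * (a + 1) * a + (a + 2) * (a + 1) * a) := by
    rw [WS.nb, hcard]
    ring
  have e2 : W.mu m a = W.frame m a + act a h v + (Dm.bind fun p => p ::ₘ ext p) +
      ((act a h v).bind ext + W.bdry m a) := by
    rw [WS.mu, xsum_nsmul, hD, Multiset.add_bind, Multiset.bind_cons, Multiset.map_id']
    abel
  rw [e1, e2, ← xsum_id W hm ht]
  exact s5

end Pool.Agent.P.MP_e40812_co
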