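import Pool.Agent.P.MP_e40812_co.XLay
import Pool.Agent.P.MP_e40812_co.XGridS
import Pool.Agent.P.MP_e40812_co.XGridB
import Pool.Agent.P.MP_e40812_co.XChain
import Pool.Agent.P.MP_e40812_co.XRect
import Pool.Agent.P.MP_e40812_co.XSum
import Pool.Agent.P.MP_e40812_co.XMu
import Pool.Agent.P.MP_e40812_co.XMach
import Pool.Agent.P.MP_e40812_co.XExpl
import Pool.Agent.P.MP_e40812_co.XList

/-! Succinct hardness. -/

namespace Pool.Agent.P.MP_e40812_co

open Finset Pool.Agent.Lib.PolyTime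
open scoped Classical

section

variable {D : Type} [Fintype D] (W : WS D) (m c : ℕ)

/-- The base vertices of the instance. -/
noncomputable def insA : Multiset (BT (PC D)) :=
  exA none (7 * c + 1) (7 * ((14 * c + 1 + 2) * W.nb (14 * c + 1)))
    (fill none ((14 * c + 1 + 2) * W.nb (14 * c + 1)) (W.mu m (14 * c + 1)))

/-- The faces of the instance. -/
noncomputable def insB : Multiset FT := exB (7 * c + 1) (7 * ((14 * c + 1 + 2) * W.nb (14 * c + 1)))

theorem seven (c : ℕ) : ((14 * c + 1 + 2 : ℕ) : ZMod 7) = 3 := by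
  have h : (14 : ZMod 7) = 0 := by decide
  push_cast
  rw [h]
  ring

theorem ins_sound (hm : m < 14 * c + 1) (h : OK dX (bX none) (uX (insA W m c) (insB W c)))
    (h2 : OK2 none (insA W m c) (insB W c)) (hr : Rz (dm dX (bX none) (uX (insA W m c) (insB W c)))) :
    ∃ h v, W.Til m (14 * c + 1) h v := by
  obtain ⟨K, G, hT, ht⟩ := lay_sound h hr
  obtain ⟨P, hP⟩ := grid_sound h2 hT ht
  obtain ⟨f1, f2, f3, f4, f5, f6⟩ := mu_facts W m (14 * c + 1)
  rw [insA, exA_cols _ _ _ _ _ fun p hp => (f1 p hp).2] at hP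
  have hal : ∀ v ∈ P.S, W.Al (P.col v) := fun v hv => by
    have : P.col v ∈ (W.mu m (14 * c + 1)).map Prod.snd := hP ▸ Multiset.mem_map_of_mem _ hv
    obtain ⟨p, hp, e⟩ := Multiset.mem_map.1 this
    exact e ▸ (f1 p hp).1
  rw [← hP] at f2 f3 f4 f5 f6
  obtain ⟨v, hv⟩ := chain_exact W P m _ hal f2 f3 f4 f5 f6
  rw [show m + 1 + (14 * c + 1 - m - 1) = 14 * c + 1 by omega] at hv
  exact til_of_chain W P m _ hm hal hv

theorem ins_build (hm : m < 14 * c + 1) (hc : 1 ≤ c) {h v : ℕ → ℕ → D}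
    (ht : W.Til m (14 * c + 1) h v) : OK dX (bX none) (uX (insA W m c) (insB W c)) ∧
      OK2 none (insA W m c) (insB W c) ∧ Rz (dm dX (bX none) (uX (insA W m c) (insB W c))) := by
  obtain ⟨g, hg, e⟩ := (sp_mu W hm (seven c) ht).fill
  have e2 : 14 * c + 1 + 2 = 2 * (7 * c + 1) + 1 := by ring
  have h7 : ((2 * (7 * c + 1) + 1 : ℕ) : ZMod 7) = 3 := e2 ▸ seven c
  have hg' : Val none (2 * (7 * c + 1) + 1) (7 * ((14 * c + 1 + 2) * W.nb (14 * c + 1))) g := by
    rw [← e2]; exact hg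
  obtain ⟨K, G, h1, h2, h3⟩ := grid_build (by omega) h7 hg'
  have h4 := ok2_ex (by omega) h7 hg'
  rw [e] at h3 h4
  exact ⟨(lay_build h1 h2 h3).1, h4, (lay_build h1 h2 h3).2⟩

end

theorem succinct {R : List Bool → Bool} (hR : PT R) : ∃ (K : ℕ) (g : ℕ → List ℕ), PT g ∧
    ∀ m, (g m).length = K ∧ Eu (g m) ∧
      (RzL (g m) ↔ ∃ y : List Bool, y.length = m ∧ R y = true) := by
  have hR' : PT fun n : ℕ => R n.bits.dropLast := by fun_prop
  obtain ⟨e, q, he⟩ := exists_code hR'.isPolyTime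
  obtain ⟨D, _, W, hW⟩ := exists_ws e
  set c : ℕ → ℕ := fun m => q.eval (m + 1) + m + 1 with hc
  have pc : PT c := by rw [hc]; fun_prop
  have pk : PT fun m => (14 * c m + 1 + 2) * W.nb (14 * c m + 1) := by unfold WS.nb; fun_prop
  have pA : PM fun m => insA W m (c m) :=
    pm_exA none (by fun_prop) (fun m => by simp only [hc]; omega) (by fun_prop)
      (pm_fill none pk (pm_mu W PT.id (by fun_prop)))
  have pB : PM fun m => insB W (c m) := pm_exB (by fun_prop) (by fun_prop)
  have pU := pm_uX pA pB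
  have key : ∀ m, (∃ h v, W.Til m (14 * c m + 1) h v) ↔
      ∃ y : List Bool, y.length = m ∧ R y = true := fun m => by
    rw [hW m _ (by simp only [hc]; omega) (by simp only [hc]; omega)]
    refine exists_congr fun y => and_congr_right fun hy => ?_
    have := he (ofBits (y ++ [true])) (14 * c m + 1 - 2) (by
      rw [sz, enc_nat, bits_ofBits_concat, List.length_append, hy]
      simp only [hc, List.length_singleton]
      omega)
    rw [enc_nat, bits_ofBits_concat, enc_bool, List.dropLast_concat] at this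
    exact (Cook.urun_singleton this).symm
  refine ⟨13 * 2 ^ Fintype.card (Ly (PC D)) + 4, fun m =>
    if OK dX (bX none) (uX (insA W m (c m)) (insB W (c m))) ∧
        OK2 none (insA W m (c m)) (insB W (c m)) then
      (List.range (13 * 2 ^ Fintype.card (Ly (PC D)) + 4)).map fun i =>
        (dm dX (bX none) (uX (insA W m (c m)) (insB W (c m)))).count (i + 3)
    else [4, 0, 0, 1] ++ List.replicate (13 * 2 ^ Fintype.card (Ly (PC D))) 0,
    PT.ite ((pU.ok _ _).and (ptp_ok2 none pA pB)) ((pU.dm _ _).list _) (PT.const _), fun m => ?_⟩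
  have hm : m < 14 * c m + 1 := by simp only [hc]; omega
  have hc1 : 1 ≤ c m := by simp only [hc]; omega
  dsimp only
  split_ifs with h
  · have hd : ∀ x : BT (PC D) ⊕ FT, dX x ≤ 12 := by
      rintro (a | f)
      · have := a.1.2
        simp only [dX]
        omega
      · simp [dX]
    obtain ⟨l1, l2⟩ := list_of_multiset _ (13 * 2 ^ Fintype.card (Ly (PC D)) + 4)
      (dm_euler h.1).2 (fun x hx => (dm_lt hd x hx).trans_le (Nat.le_add_right _ _)) (dm_euler h.1).1
    refine ⟨by simp, l1, ?_⟩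
    rw [l2, ← key]
    exact ⟨ins_sound W m _ hm h.1 h.2, fun ⟨_, _, ht⟩ => (ins_build W m _ hm hc1 ht).2.2⟩
  · refine ⟨by simp, (bad_list _).1, ⟨fun k => absurd k (bad_list _).2, fun k => ?_⟩⟩
    obtain ⟨_, _, ht⟩ := (key m).2 k
    exact absurd ⟨(ins_build W m _ hm hc1 ht).1, (ins_build W m _ hm hc1 ht).2.1⟩ h

end Pool.Agent.P.MP_e40812_co
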