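import Pool.Agent.Lib.PolyTime.Cook

/-! Polynomials against powers of two, padded codes, and the list of all short strings. -/

namespace Pool.Agent.P.MP_e40812_co

open Finset Pool.Agent.Lib.PolyTime N487b59b3

theorem poly_le_mul_pow (P : Polynomial ℕ) {j : ℕ} (hj : 1 ≤ j) :
    P.eval j ≤ P.eval 1 * j ^ P.natDegree := by
  rw [Polynomial.eval_eq_sum_range, Polynomial.eval_eq_sum_range, sum_mul]
  refine sum_le_sum fun i hi => ?_
  rw [one_pow, mul_one]
  exact Nat.mul_le_mul_left _ (Nat.pow_le_pow_right hj (by simpa [Nat.lt_succ_iff] using hi))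

theorem poly_le_two_pow (P : Polynomial ℕ) : ∃ j₀, ∀ j, j₀ ≤ j → P.eval j ≤ 2 ^ j := by
  have key : ∀ c d : ℕ, ∀ᶠ j : ℕ in Filter.atTop, c * j ^ d ≤ 2 ^ j := by
    intro c d
    have h := (tendsto_pow_const_div_const_pow_of_one_lt d (show (1 : ℝ) < 2 by norm_num)).const_mul
      (c : ℝ)
    rw [mul_zero] at h
    filter_upwards [h.eventually (gt_mem_nhds one_pos)] with j hj
    rw [← mul_div_assoc, div_lt_one (by positivity)] at hj
    exact_mod_cast hj.le
  obtain ⟨j₀, h⟩ := Filter.eventually_atTop.1 ((key (P.eval 1) P.natDegree).and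
    (Filter.eventually_ge_atTop 1))
  exact ⟨j₀, fun j hj => (poly_le_mul_pow P (h j hj).2).trans (h j hj).1⟩

theorem poly_two_pow (P : Polynomial ℕ) : ∃ d, ∀ j, P.eval (2 ^ j) ≤ 2 ^ (d * j + d) := by
  refine ⟨P.eval 1 + P.natDegree, fun j => (poly_le_mul_pow P Nat.one_le_two_pow).trans ?_⟩
  rw [← pow_mul, pow_add, mul_comm (2 ^ _)]
  refine Nat.mul_le_mul (Nat.lt_two_pow_self.le.trans (Nat.pow_le_pow_right (by omega) (by omega)))
    (Nat.pow_le_pow_right (by omega) ?_)
  rw [mul_comm]
  exact Nat.mul_le_mul_right _ (by omega)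

/-- A number at least `2 ^ l` from which `h` can be read. -/
def pad (h : List Bool) (l : ℕ) : ℕ := ofBits ((delimit h ++ List.replicate l false) ++ [true])

theorem head_pad (h : List Bool) (l : ℕ) : (blocks (pad h l).bits).headD [] = h := by
  rw [pad, bits_ofBits_concat, List.append_assoc, headD_blocks]

theorem le_pad (h : List Bool) (l : ℕ) : 2 ^ l ≤ pad h l := by
  rw [pad, ofBits_concat]
  refine le_add_left ?_
  simp only [Bool.toNat_true, one_mul]
  exact Nat.pow_le_pow_right (by omega) (by simp)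

theorem sz_pad (h : List Bool) (l : ℕ) : sz (pad h l) = 2 * h.length + l + 2 := by
  rw [sz, enc_nat, pad, bits_ofBits_concat]
  simp
  omega

variable {α : Type} [N487b59b3 α]

@[fun_prop] theorem pt_pad {h : α → List Bool} {l : α → ℕ} (hh : PT h) (hl : PT l)
    (hs : Small l) : PT fun a => pad (h a) (l a) := by
  have : PT fun a => delimit (h a) :=
    (show PT fun a => (h a).flatMap (fun b => [true, b]) ++ [false] by fun_prop).congr fun a => by
      induction h a with
      | nil => rfl
      | cons b l ih => simp [delimit, ih]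
  unfold pad
  fun_prop

/-- All strings `w` with `2 ^ (w.length + 1) ≤ m`, and possibly others. -/
def allStr (m : ℕ) : List (List Bool) := (List.range m).map fun n => n.bits.dropLast

theorem mem_allStr {w : List Bool} {m : ℕ} (h : 2 ^ (w.length + 1) ≤ m) : w ∈ allStr m := by
  refine List.mem_map.2 ⟨ofBits (w ++ [true]), List.mem_range.2 ?_, ?_⟩
  · simpa using (ofBits_lt (w ++ [true])).trans_le (by simpa using h)
  · rw [bits_ofBits_concat, List.dropLast_concat]

@[fun_prop] theorem pt_allStr {m : α → ℕ} (hm : PT m) (hs : Small m) :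
    PT fun a => allStr (m a) := by
  unfold allStr
  fun_prop

end Pool.Agent.P.MP_e40812_co
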