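import Pool.Agent.P.MP_e40812_co.XN
import Pool.Agent.P.MP_e40812_co.XPoly

/-! Sets that are hard for unary nondeterministic problems are hard for NEXP. -/

namespace Pool.Agent.P.MP_e40812_co

open Finset Pool.Agent.Lib.PolyTime N68a2faeb

theorem xnexp_delimit {α : Type} [N487b59b3 α] {h : α → List Bool} (hh : PT h) :
    PT fun a => N487b59b3.delimit (h a) :=
  (show PT fun a => (h a).flatMap (fun b => [true, b]) ++ [false] by fun_prop).congr fun a => by
    induction h a with
    | nil => rfl
    | cons b l ih => simp [N487b59b3.delimit, ih]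

/-- A universal unary problem. -/
theorem exists_universal : ∃ U : List Bool → Bool, PT U ∧ ∀ L ∈ NEXP, ∃ c : List Bool → ℕ,
    PT c ∧ ∀ x, L x = true ↔ ∃ y : List Bool, y.length = c x ∧ U y = true := by
  refine ⟨fun y => urun (decCode ((blocks ((blocks y.length.bits).headD [])).getD 0 []))
    (N487b59b3.bitEncode (((blocks ((blocks y.length.bits).headD [])).getD 1 [] : List Bool),
      y.take (ofBits ((blocks ((blocks y.length.bits).headD [])).getD 2 [])))) y.length == [true],
    by fun_prop, ?_⟩
  rintro L ⟨p, R, hR, hL⟩
  obtain ⟨e, q, hq⟩ := exists_code hR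
  obtain ⟨d, hd⟩ := poly_two_pow q
  refine ⟨fun x => pad (([N487b59b3.bitEncode e, x, (2 ^ p.eval x.length).bits].map
    N487b59b3.delimit).flatten)
    (d * (x.length + p.eval x.length + 4) + d + (x.length + p.eval x.length + 4)), ?_, fun x => ?_⟩
  · refine pt_pad ?_ (by fun_prop) (by fun_prop)
    have h1 : PT fun x : List Bool => N487b59b3.delimit x := xnexp_delimit (by fun_prop)
    have h2 : PT fun x : List Bool => N487b59b3.delimit (2 ^ p.eval x.length).bits :=
      xnexp_delimit (by fun_prop)
    simp only [List.map_cons, List.map_nil, List.flatten_cons, List.flatten_nil]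
    fun_prop
  set n := 2 ^ p.eval x.length with hn
  set j := x.length + p.eval x.length + 4 with hj
  set c := pad (([N487b59b3.bitEncode e, x, n.bits].map N487b59b3.delimit).flatten) (d * j + d + j)
    with hc
  have hc1 : 2 ^ (d * j + d + j) ≤ c := le_pad _ _
  have hnc : n ≤ c := le_trans (Nat.pow_le_pow_right (by omega) (by omega)) hc1
  have key : ∀ y : List Bool, y.length = c →
      (urun (decCode ((blocks ((blocks y.length.bits).headD [])).getD 0 []))
        (N487b59b3.bitEncode (((blocks ((blocks y.length.bits).headD [])).getD 1 [] : List Bool),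
          y.take (ofBits ((blocks ((blocks y.length.bits).headD [])).getD 2 [])))) y.length
          == [true]) = R (x, y.take n) := by
    intro y hy
    rw [hy, hc, head_pad, blocks_flatten, ← hc]
    simp only [List.getD_cons_zero, List.getD_cons_succ, decCode_enc, ofBits_bits]
    rw [hq (x, y.take n) c, enc_bool]
    · cases R (x, y.take n) <;> rfl
    · refine le_trans (eval_mono q (b := 2 ^ j) ?_) ((hd j).trans
        (le_trans (Nat.pow_le_pow_right (by omega) (by omega)) hc1))
      rw [sz_pair, sz_str, sz_str, List.length_take, hj, pow_add, pow_add, ← hn]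
      have h1 : x.length < 2 ^ x.length := Nat.lt_two_pow_self
      have h2 : 1 ≤ n := Nat.one_le_two_pow
      have h3 : min n y.length ≤ n := min_le_left _ _
      nlinarith
  rw [hL]
  constructor
  · rintro ⟨w, hw, hw'⟩
    have hw : w.length = n := hw
    have hl : (w ++ List.replicate (c - n) false).length = c := by
      rw [List.length_append, List.length_replicate, hw]; omega
    refine ⟨w ++ List.replicate (c - n) false, hl, ?_⟩
    beta_reduce
    rw [key _ hl, List.take_left' hw, hw']
  · rintro ⟨y, hy, hy'⟩
    beta_reduce at hy'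
    have hy : y.length = c := hy
    rw [key y hy] at hy'
    exact ⟨y.take n, by rw [List.length_take, hy]; exact min_eq_left hnc, hy'⟩

end Pool.Agent.P.MP_e40812_co
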