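import Pool.Agent.P.MP_e40812_co.XDefs

/-! Multisets with multiplicities computable in polynomial time. -/

namespace Pool.Agent.P.MP_e40812_co

open Finset Pool.Agent.Lib.PolyTime
open scoped Classical

variable {α X Z : Type} [N487b59b3 α] {F G : α → Multiset X}

theorem xpm_sum {ι : Type} (s : Finset ι) (f : ι → α → ℕ) (h : ∀ i ∈ s, PT (f i)) :
    PT fun a => ∑ i ∈ s, f i a := by
  induction s using Finset.induction_on with
  | empty => exact (PT.const 0).congr fun a => by simp
  | insert i s hi ih =>
    exact (PT.add (h i (mem_insert_self _ _)) (ih fun j hj => h j (mem_insert_of_mem hj))).congr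
      fun a => by rw [sum_insert hi]

theorem xpm_forall {ι : Type} (s : Finset ι) (p : ι → α → Prop) (h : ∀ i ∈ s, PTP (p i)) :
    PTP fun a => ∀ i ∈ s, p i a := by
  induction s using Finset.induction_on with
  | empty => exact (PTP.const True).congr fun a => by simp
  | insert i s hi ih =>
    exact (PTP.and (h i (mem_insert_self _ _)) (ih fun j hj => h j (mem_insert_of_mem hj))).congr
      fun a => by simp

theorem xpm_count [inst : DecidableEq X] (h : PM F) (x : X) : PT fun a => (F a).count x :=
  (h x).congr fun a => by congr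

theorem xpm_mk [inst : DecidableEq X] (h : ∀ x, PT fun a => (F a).count x) : PM F :=
  fun x => (h x).congr fun a => by congr

theorem xpm_sum_map (s : Finset X) (w : X → ℕ) (u : Multiset X) (hu : ∀ x ∈ u, x ∈ s) :
    (u.map w).sum = ∑ x ∈ s, u.count x * w x := by
  induction u using Multiset.induction_on with
  | empty => simp
  | cons y u ih =>
    have hy : y ∈ s := hu y (Multiset.mem_cons_self _ _)
    rw [Multiset.map_cons, Multiset.sum_cons, ih fun x hx => hu x (Multiset.mem_cons_of_mem hx)]
    simp only [Multiset.count_cons, add_mul, sum_add_distrib, ite_mul, one_mul, zero_mul]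
    rw [sum_ite_eq' s y w, if_pos hy, add_comm]

theorem xpm_countP_eq (p : X → Prop) [DecidablePred p] (u : Multiset X) :
    u.countP p = (u.map fun x => if p x then 1 else 0).sum := by
  induction u using Multiset.induction_on with
  | empty => simp
  | cons y u ih => rw [Multiset.countP_cons, Multiset.map_cons, Multiset.sum_cons, ih, add_comm]

theorem xpm_wsum (h : PM F) (s : Finset X) (hs : ∀ a, ∀ x ∈ F a, x ∈ s) (w : X → ℕ) :
    PT fun a => ((F a).map w).sum :=
  (xpm_sum s (fun x a => (F a).count x * w x) fun x _ => PT.mul (h x) (PT.const _)).congr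
    fun a => xpm_sum_map s w (F a) (hs a)

theorem xpm_countP (h : PM F) (s : Finset X) (hs : ∀ a, ∀ x ∈ F a, x ∈ s) (p : X → Prop)
    [DecidablePred p] : PT fun a => (F a).countP p :=
  (xpm_wsum h s hs fun x => if p x then 1 else 0).congr fun a => xpm_countP_eq p (F a)

theorem xpm_card (h : PM F) (s : Finset X) (hs : ∀ a, ∀ x ∈ F a, x ∈ s) :
    PT fun a => (F a).card :=
  (xpm_wsum h s hs fun _ => 1).congr fun a => by simp

theorem PM.const (u : Multiset X) : PM fun _ : α => u :=
  fun _ => PT.const _

theorem PM.add (h : PM F) (h' : PM G) : PM fun a => F a + G a :=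
  fun x => (PT.add (h x) (h' x)).congr fun _ => Multiset.count_add _ _ _

theorem PM.nsmul {k : α → ℕ} (hk : PT k) (h : PM F) : PM fun a => k a • F a :=
  fun x => (PT.mul hk (h x)).congr fun _ => Multiset.count_nsmul _ _ _

theorem PM.replicate {k : α → ℕ} (hk : PT k) (x : X) :
    PM fun a => Multiset.replicate (k a) x :=
  fun y => (PT.ite (inst := fun _ => Classical.propDecidable _) (PTP.const (x = y)) hk
    (PT.const 0)).congr fun _ => Multiset.count_replicate _ _ _

theorem PM.map [Fintype X] (h : PM F) (f : X → Z) : PM fun a => (F a).map f :=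
  fun z => (xpm_countP h univ (fun _ _ _ => mem_univ _) fun x => z = f x).congr fun a => by
    rw [Multiset.count_map, Multiset.countP_eq_card_filter]

theorem PM.countP [Fintype X] (h : PM F) (p : X → Prop) : PT fun a => (F a).countP p :=
  xpm_countP h univ (fun _ _ _ => mem_univ _) p

theorem PM.card [Fintype X] (h : PM F) : PT fun a => (F a).card :=
  xpm_card h univ fun _ _ _ => mem_univ _

theorem PM.forall_mem [Fintype X] (h : PM F) (p : X → Prop) : PTP fun a => ∀ x ∈ F a, p x :=
  (PTP.eq (xpm_countP h univ (fun _ _ _ => mem_univ _) fun x => ¬ p x) (PT.const 0)).congr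
    fun a => by
    rw [Multiset.countP_eq_zero]; simp

theorem xpm_mod7 {c : α → ℕ} (hc : PT c) (p : ZMod 7 → Prop) :
    PTP fun a => p ((c a : ℕ) : ZMod 7) :=
  (xpm_forall (range 7) (fun j a => c a % 7 = j → p (j : ZMod 7)) fun j _ =>
    PTP.imp (PTP.eq (PT.mod hc (PT.const 7)) (PT.const j)) (PTP.const _)).congr fun a => by
    constructor
    · intro h j _ hj
      rw [← hj, ZMod.natCast_mod]; exact h
    · intro h
      have := h (c a % 7) (mem_range.2 (Nat.mod_lt _ (by norm_num))) rfl
      rwa [ZMod.natCast_mod] at this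

theorem xpm_period (p : ℕ → Prop) (hp : ∀ i, p i ↔ p (i % 7)) (y : ℕ) :
    (Multiset.range y).countP p = ∑ r ∈ range 7, if p r then (y + 6 - r) / 7 else 0 := by
  induction y with
  | zero =>
    symm
    refine sum_eq_zero fun r _ => ?_
    split_ifs
    · omega
    · rfl
  | succ y ih =>
    rw [Multiset.range_succ, Multiset.countP_cons, ih]
    have e : (if p y then 1 else 0 : ℕ) =
        ∑ r ∈ range 7, if r = y % 7 then (if p r then 1 else 0) else 0 := by
      rw [sum_ite_eq' (range 7) (y % 7) fun r => if p r then 1 else 0,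
        if_pos (mem_range.2 (Nat.mod_lt _ (by norm_num)))]
      by_cases h : p y
      · rw [if_pos h, if_pos ((hp y).1 h)]
      · rw [if_neg h, if_neg fun h' => h ((hp y).2 h')]
    rw [e, ← sum_add_distrib]
    refine sum_congr rfl fun r hr => ?_
    have := mem_range.1 hr
    split_ifs <;> omega

/-- Periodic sequences. -/
theorem PM.range7 {y c : α → ℕ} (hy : PT y) (hc : PT c) (k : ℕ) (g : ZMod 7 → X) :
    PM fun a => (Multiset.range (y a)).map fun i => g ((c a + k * i : ℕ) : ZMod 7) := by
  intro x
  refine (xpm_sum (range 7)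
    (fun r a => if x = g ((c a + k * r : ℕ) : ZMod 7) then (y a + 6 - r) / 7 else 0)
    fun r _ => PT.ite (xpm_mod7 (PT.add hc (PT.const (k * r))) fun t => x = g t)
      (PT.div (PT.sub (PT.add hy (PT.const 6)) (PT.const r)) (PT.const 7)) (PT.const 0)).congr
    fun a => ?_
  rw [Multiset.count_map, ← Multiset.countP_eq_card_filter]
  refine xpm_period (fun i => x = g ((c a + k * i : ℕ) : ZMod 7)) (fun i => ?_) (y a)
  simp only [Nat.cast_add, Nat.cast_mul, ZMod.natCast_mod]

theorem PM.single7 {c : α → ℕ} (hc : PT c) (g : ZMod 7 → X) :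
    PM fun a => ({g ((c a : ℕ) : ZMod 7)} : Multiset X) :=
  fun x => (PT.ite (inst := fun _ => Classical.propDecidable _) (xpm_mod7 hc fun t => x = g t)
    (PT.const 1) (PT.const 0)).congr fun _ => Multiset.count_singleton _ _

theorem xpm_dmul (n : ℕ) : ∀ {U : α → Multiset ℕ} (_ : PM U) (s : Finset ℕ)
    (_ : ∀ a, ∀ x ∈ U a, x ∈ s), PM fun a => dmul n (U a) := by
  induction n with
  | zero => intro U h _ _; exact h
  | succ n ih =>
    intro U h s hs
    refine ih (U := fun a => U a + Multiset.replicate (2 * (U a).card - 4) (3 * 2 ^ n) +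
      Multiset.replicate ((U a).countP (fun x => x.testBit n = true) / 2) (4 * 2 ^ n))
      ((h.add (PM.replicate (PT.sub (PT.mul (PT.const 2) (xpm_card h s hs)) (PT.const 4)) _)).add
        (PM.replicate (PT.div (xpm_countP h s hs _) (PT.const 2)) _))
      (insert (3 * 2 ^ n) (insert (4 * 2 ^ n) s)) fun a x hx => ?_
    rcases Multiset.mem_add.1 hx with hx | hx
    · rcases Multiset.mem_add.1 hx with hx | hx
      · exact mem_insert_of_mem (mem_insert_of_mem (hs a x hx))
      · rw [Multiset.eq_of_mem_replicate hx]; exact mem_insert_self _ _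
    · rw [Multiset.eq_of_mem_replicate hx]; exact mem_insert_of_mem (mem_insert_self _ _)

theorem PM.dm [Fintype X] {Y : Type} [Fintype Y] (h : PM F) (d : X → ℕ) (b : X → Finset Y) :
    PM fun a => dm d b (F a) :=
  xpm_dmul (Fintype.card Y) (h.map (vl d b)) (univ.image (vl d b)) fun a x hx => by
    obtain ⟨y, -, rfl⟩ := Multiset.mem_map.1 hx
    exact mem_image_of_mem _ (mem_univ _)

theorem PM.ok [Fintype X] {Y : Type} [Fintype Y] (h : PM F) (d : X → ℕ) (b : X → Finset Y) :
    PTP fun a => OK d b (F a) := by
  refine (PTP.and (h.forall_mem fun x => 3 ≤ d x) (PTP.and (PTP.le (PT.const 4) h.card)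
    (PTP.and (PTP.eq (PT.add (xpm_wsum h univ (fun _ _ _ => mem_univ _) d) (PT.const 12))
      (PT.mul (PT.const 6) h.card))
      (xpm_forall univ (fun l a => ((F a).countP fun x => l ∈ b x) % 2 = 0) fun l _ =>
        PTP.eq (PT.mod (xpm_countP h univ (fun _ _ _ => mem_univ _) _) (PT.const 2))
          (PT.const 0))))).congr fun a => ?_
  simp only [OK, Nat.even_iff, mem_univ, true_imp_iff]

theorem PM.list {F : α → Multiset ℕ} (h : PM F) (K : ℕ) :
    PT fun a => (List.range K).map fun i => (F a).count (i + 3) := by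
  induction K with
  | zero => exact (PT.const []).congr fun a => by simp
  | succ K ih =>
    exact (PT.append ih (PT.cons (xpm_count h (K + 3)) (PT.const []))).congr fun a => by
      rw [List.range_succ, List.map_append, List.map_singleton]

end Pool.Agent.P.MP_e40812_co
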