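import Pool.Agent.P.MP_e40812_co.XDefs

/-! Stacking every face once. -/

namespace Pool.Agent.P.MP_e40812_co

open Finset Pool.Agent.Lib.PolyTime
open scoped Classical

theorem xstack_aux {V : Finset ℕ} {F : Finset (Finset ℕ)} (h : Pre V F) (g : Geo V F)
    (S : Finset (Finset ℕ)) (hS : S ⊆ F) :
    ∃ (F' : Finset (Finset ℕ)) (y : Finset ℕ → ℕ), Pre (V ∪ S.image y) F' ∧
      Geo (V ∪ S.image y) F' ∧ Set.InjOn y S ∧ (∀ t ∈ S, y t ∉ V) ∧ (∀ t ∈ F, t ∉ S → t ∈ F') ∧
      (∀ v ∈ V, deg F' v = deg F v + deg S v) ∧ (∀ t ∈ S, deg F' (y t) = 3) ∧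
      (∀ t ∈ S, ∀ a ∈ t, ∀ b ∈ t, a ≠ b → T F' a b (y t)) := by
  induction S using Finset.induction_on with
  | empty =>
    exact ⟨F, fun _ => 0, by simpa using h, by simpa using g, by simp, by simp,
      fun t ht _ => ht, by simp [deg], by simp, by simp⟩
  | insert t S ht ih =>
    obtain ⟨G, y, p1, g1, hi, hn, hF, hd, h3, hT⟩ := ih ((subset_insert _ _).trans hS)
    have htF : t ∈ F := hS (mem_insert_self _ _)
    obtain ⟨a, b, c, k, rfl⟩ := p1.exists_T0 (hF t htF ht)
    obtain ⟨z, hz⟩ := Infinite.exists_notMem_finset (V ∪ S.image y)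
    have hzG : ∀ s ∈ G, z ∉ s := fun s hs hz' => hz (p1.sub s hs hz')
    have hzV : z ∉ V := fun hv => hz (mem_union_left _ hv)
    have hup : ∀ s ∈ S, Function.update y {a, b, c} z s = y s := fun s hs =>
      Function.update_of_ne (ne_of_mem_of_not_mem hs ht) _ _
    have hyz : ∀ s ∈ S, y s ≠ z := fun s hs e =>
      hz (mem_union_right _ (mem_image.2 ⟨s, hs, e⟩))
    have hyt : ∀ s ∈ S, y s ∉ ({a, b, c} : Finset ℕ) := fun s hs hy => hn s hs (h.sub _ htF hy)
    have hV : V ∪ (insert {a, b, c} S).image (Function.update y {a, b, c} z) =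
        insert z (V ∪ S.image y) := by
      rw [image_insert, Function.update_self, image_congr fun s hs => hup s hs, union_insert]
    refine ⟨stk G z a b c, Function.update y {a, b, c} z, hV ▸ p1.stk k hz,
      hV ▸ Geo.stk p1 g1 k hz, ?_, ?_, ?_, ?_, ?_, ?_⟩
    · intro s hs s' hs' e
      rcases mem_insert.1 hs with rfl | hs <;> rcases mem_insert.1 hs' with rfl | hs'
      · rfl
      · rw [Function.update_self, hup s' hs'] at e
        exact absurd e.symm (hyz s' hs')
      · rw [Function.update_self, hup s hs] at e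
        exact absurd e (hyz s hs)
      · rw [hup s hs, hup s' hs'] at e
        exact hi hs hs' e
    · intro s hs
      rcases mem_insert.1 hs with rfl | hs
      · rwa [Function.update_self]
      · rw [hup s hs]
        exact hn s hs
    · intro s hs hs'
      rw [mem_insert, not_or] at hs'
      exact mem_stk.2 (Or.inr (Or.inr (Or.inr ⟨hs'.1, hF s hs hs'.2⟩)))
    · intro v hv
      rw [deg_stk k hzG (fun e => hzV (e ▸ hv)), hd v hv, add_assoc]
      congr 1
      unfold deg
      rw [filter_insert]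
      split_ifs with hm
      · rw [card_insert_of_notMem fun hh => ht (mem_filter.1 hh).1]
      · rfl
    · intro s hs
      rcases mem_insert.1 hs with rfl | hs
      · rw [Function.update_self]
        exact deg_stk_self k hzG
      · rw [hup s hs, deg_stk k hzG (hyz s hs), if_neg (hyt s hs), h3 s hs]
    · intro s hs p hp q hq hpq
      rcases mem_insert.1 hs with rfl | hs
      · rw [Function.update_self]
        exact stk_edge k hzG hp hq hpq
      · rw [hup s hs]
        exact stk_up (hT s hs p hp q hq hpq) fun e => hyt s hs (e ▸ by simp)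

theorem stack_all {V : Finset ℕ} {F : Finset (Finset ℕ)} (h : Pre V F) (g : Geo V F) :
    ∃ (F' : Finset (Finset ℕ)) (y : Finset ℕ → ℕ), Pre (V ∪ F.image y) F' ∧
      Geo (V ∪ F.image y) F' ∧ Set.InjOn y F ∧ (∀ t ∈ F, y t ∉ V) ∧
      (∀ v ∈ V, deg F' v = 2 * deg F v) ∧ (∀ t ∈ F, deg F' (y t) = 3) ∧
      (∀ t ∈ F, ∀ a ∈ t, ∀ b ∈ t, a ≠ b → T F' a b (y t)) := by
  obtain ⟨G, y, p1, g1, hi, hn, -, hd, h3, hT⟩ := xstack_aux h g F Subset.rfl
  exact ⟨G, y, p1, g1, hi, hn, fun v hv => by rw [hd v hv, two_mul], h3, hT⟩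

end Pool.Agent.P.MP_e40812_co
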