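import Pool.Agent.P.MP_e40812_co.XDefs

/-! Building realised discs vertex by vertex. -/

namespace Pool.Agent.P.MP_e40812_co

open Finset Pool.Agent.Lib.PolyTime
open scoped Classical

variable {V : Finset ℕ} {I : Finset (Finset ℕ)} {o a b y : ℕ} {c m r : List ℕ}

lemma xstep_deg_insert {F : Finset (Finset ℕ)} {t : Finset ℕ} (h : t ∉ F) (v : ℕ) :
    deg (insert t F) v = deg F v + if v ∈ t then 1 else 0 := by
  rw [deg, card_filter, sum_insert h, deg, card_filter, add_comm]

lemma xstep_deg_union {F G : Finset (Finset ℕ)} (h : Disjoint F G) (v : ℕ) :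
    deg (F ∪ G) v = deg F v + deg G v := by
  rw [deg, card_filter, sum_union h, deg, card_filter, deg, card_filter]

lemma xstep_deg_tris {x z : ℕ} {l : List ℕ} (h : (o :: x :: (l ++ [z])).Nodup) (v : ℕ) :
    deg (tris o (x :: (l ++ [z]))) v =
      if v = o then l.length + 1 else if v = x ∨ v = z then 1 else if v ∈ l then 2 else 0 := by
  induction l generalizing x with
  | nil =>
    rw [List.nil_append, ls_cons, ls_one, xstep_deg_insert (notMem_empty _)]
    by_cases h1 : v = o
    · simp [deg, h1]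
    · simp [deg, h1]
  | cons w l ih =>
    have h1 : (o :: w :: (l ++ [z])).Nodup := h.sublist (by simp)
    simp only [List.nodup_cons, List.mem_cons, List.mem_append, not_or, List.nodup_append,
      List.cons_append, List.not_mem_nil, or_false] at h
    obtain ⟨⟨ox, ow, ol, oz⟩, ⟨xw, xl, xz⟩, ⟨wl, wz⟩, -, -, lz⟩ := h
    have hn : ({o, x, w} : Finset ℕ) ∉ tris o (w :: (l ++ [z])) := fun k => by
      have := (ls_mem k).2 x (by simp)
      simp only [List.mem_cons, List.mem_append, List.not_mem_nil, or_false] at this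
      rcases this with e | e | e | e
      · exact ox e.symm
      · exact xw e
      · exact xl e
      · exact xz e
    rw [List.cons_append, ls_cons, xstep_deg_insert hn, ih h1]
    by_cases e1 : v = o
    · simp [e1]
    by_cases e2 : v = x
    · subst e2
      simp [e1, xw, xz, xl]
    by_cases e3 : v = w
    · subst e3
      simp [e1, e2, wz]
    by_cases e4 : v = z
    · subst e4
      simp [e1, e2, e3]
    simp [e1, e2, e3, e4]

lemma xstep_disj (h : ∀ t ∈ I, o ∉ t) (l : List ℕ) : Disjoint I (tris o l) :=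
  disjoint_left.2 fun t h1 h2 => h t h1 (ls_mem h2).1

lemma xstep_filter (h : ∀ t ∈ I, o ∉ t) (l : List ℕ) :
    ((I ∪ tris o l).filter fun t => o ∈ t) = tris o l := by
  ext t
  simp only [mem_filter, mem_union]
  exact ⟨fun k => k.1.resolve_left fun e => h t e k.2, fun k => ⟨Or.inr k, (ls_mem k).1⟩⟩

lemma xstep_image {l : List ℕ} (h : o ∉ l) :
    (tris o l).image (fun t => insert y (t.erase o)) = tris y l := by
  induction l with
  | nil => simp [ls_nil]
  | cons x l ih =>
    cases l with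
    | nil => simp [ls_one]
    | cons w l =>
      rw [ls_cons, ls_cons, image_insert, ih fun k => h (List.mem_cons_of_mem _ k),
        erase_insert]
      simp only [List.mem_cons, not_or] at h
      simp [h.1, h.2.1]

lemma xstep_rot (o a b : ℕ) (r : List ℕ) :
    tris o (a :: ((b :: r) ++ [a])) = tris o (b :: ((r ++ [a]) ++ [b])) := by
  rw [ls_link o b a r [], union_comm]
  exact ls_link o a b [] r

lemma xstep_pre4 (h : V.card = 4) : Pre V (V.powersetCard 3) := by
  refine ⟨fun t ht => (mem_powersetCard.1 ht).2, fun t ht => (mem_powersetCard.1 ht).1,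
    fun v hv => ?_, fun {p q r} k => ?_, by rw [card_powersetCard, h]; rfl⟩
  · obtain ⟨t, h1, h2, h3⟩ := exists_subsuperset_card_eq (singleton_subset_iff.2 hv)
      (show ({v} : Finset ℕ).card ≤ 3 by simp) (show 3 ≤ V.card by omega)
    exact ⟨t, mem_powersetCard.2 ⟨h2, h3⟩, h1 (mem_singleton_self v)⟩
  · obtain ⟨h1, h2⟩ := mem_powersetCard.1 k.2.2.2
    obtain ⟨d, hd, hd'⟩ := exists_mem_notMem_of_card_lt_card (show
      ({p, q, r} : Finset ℕ).card < V.card by omega)
    simp only [mem_insert, mem_singleton, not_or] at hd'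
    refine ⟨d, hd'.2.2, k.1, Ne.symm hd'.1, Ne.symm hd'.2.1, mem_powersetCard.2 ⟨?_, ?_⟩⟩
    · simp only [insert_subset_iff, singleton_subset_iff] at h1 ⊢
      exact ⟨h1.1, h1.2.1, hd⟩
    · exact card_eq_three.2 ⟨p, q, d, k.1, Ne.symm hd'.1, Ne.symm hd'.2.1, rfl⟩

lemma xstep_geo4 {a b c o : ℕ} (h : [o, a, b, c].Nodup) :
    Geo {o, a, b, c} (({o, a, b, c} : Finset ℕ).powersetCard 3) := by
  simp only [List.nodup_cons, List.mem_cons, List.not_mem_nil, or_false, not_or] at h
  obtain ⟨⟨oa, ob, oc⟩, ⟨ab, ac⟩, bc, -⟩ := h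
  let n : ℕ → EuclideanSpace ℝ (Fin 3) := fun i =>
    if i = o then !₂[1, 1, 1] else if i = a then !₂[1, -1, -1] else if i = b then !₂[-1, 1, -1]
      else !₂[-1, -1, 1]
  have no : n o = !₂[1, 1, 1] := by simp [n]
  have na : n a = !₂[1, -1, -1] := by simp [n, Ne.symm oa]
  have nb : n b = !₂[-1, 1, -1] := by simp [n, Ne.symm ob, Ne.symm ab]
  have nc : n c = !₂[-1, -1, 1] := by simp [n, Ne.symm oc, Ne.symm ac, Ne.symm bc]
  have key : ∀ v ∈ ({o, a, b, c} : Finset ℕ), ∀ u ∈ ({o, a, b, c} : Finset ℕ),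
      inner ℝ (n v) (n u) = -1 + if u = v then 4 else 0 := by
    intro v hv u hu
    simp only [mem_insert, mem_singleton] at hv hu
    rcases hv with e | e | e | e <;> rcases hu with e' | e' | e' | e' <;>
      rw [e, e', PiLp.inner_apply, Fin.sum_univ_three] <;>
      simp [no, na, nb, nc, oa, ob, oc, ab, ac, bc, Ne.symm oa, Ne.symm ob, Ne.symm oc,
        Ne.symm ab, Ne.symm ac, Ne.symm bc] <;> norm_num
  refine ⟨fun v => (innerSL ℝ (n v)).toLinearMap, fun t => ∑ v ∈ t, n v, fun t ht v hv => ?_⟩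
  obtain ⟨h1, h2⟩ := mem_powersetCard.1 ht
  have e : (innerSL ℝ (n v)).toLinearMap (∑ u ∈ t, n u) = -3 + if v ∈ t then 4 else 0 := by
    rw [map_sum]
    have : ∀ u ∈ t, (innerSL ℝ (n v)).toLinearMap (n u) = -1 + if u = v then 4 else 0 :=
      fun u hu => key v hv u (h1 hu)
    rw [sum_congr rfl this, sum_add_distrib, sum_ite_eq', sum_const, h2]
    norm_num
  constructor
  · intro k
    beta_reduce
    rw [e, if_pos k]
    norm_num
  · intro k
    beta_reduce
    rw [e, if_neg k]
    norm_num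

theorem DS.init {a b c o : ℕ} (h : [o, a, b, c].Nodup) : DS {o, a, b, c} {{a, b, c}} o a [b, c] := by
  have h' := h
  simp only [List.nodup_cons, List.mem_cons, List.not_mem_nil, or_false, not_or] at h'
  obtain ⟨⟨oa, ob, oc⟩, ⟨ab, ac⟩, bc, -⟩ := h'
  have out : ∀ t ∈ ({{a, b, c}} : Finset (Finset ℕ)), o ∉ t := by simp [oa, ob, oc]
  have h4 : ({o, a, b, c} : Finset ℕ).card = 4 := by
    rw [card_insert_of_notMem (by simp [oa, ob, oc]), card_insert_of_notMem (by simp [ab, ac]),
      card_pair bc]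
  have e : ({{a, b, c}} : Finset (Finset ℕ)) ∪ tris o (a :: ([b, c] ++ [a])) =
      ({o, a, b, c} : Finset ℕ).powersetCard 3 := by
    refine eq_of_subset_of_card_le ?_ ?_
    · intro t ht
      simp only [List.cons_append, List.nil_append, ls_cons, ls_one, mem_union, mem_insert,
        mem_singleton, notMem_empty, or_false] at ht
      rcases ht with rfl | rfl | rfl | rfl <;> refine mem_powersetCard.2 ⟨?_, ?_⟩
      · simp
      · exact card_eq_three.2 ⟨_, _, _, ab, ac, bc, rfl⟩
      · simp [insert_subset_iff]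
      · exact card_eq_three.2 ⟨_, _, _, oa, ob, ab, rfl⟩
      · simp [insert_subset_iff]
      · exact card_eq_three.2 ⟨_, _, _, ob, oc, bc, rfl⟩
      · simp [insert_subset_iff]
      · exact card_eq_three.2 ⟨_, _, _, oc, oa, Ne.symm ac, rfl⟩
    · have e1 : tris o (a :: ([b, c] ++ [a])) =
          tris o (a :: ([] ++ [b])) ∪ tris o (b :: ([c] ++ [a])) := ls_link o a b [] [c]
      rw [card_powersetCard, h4, card_union_of_disjoint (xstep_disj out _), e1,
        card_union_of_disjoint (ls_disj (m := []) (r := [c]) h le_rfl),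
        ls_card (h.sublist (by simp)), ls_card (ls_swap (m := []) (r := [c]) h)]
      simp
  exact ⟨e ▸ xstep_pre4 h4, e ▸ xstep_geo4 h, h, le_rfl, out⟩

theorem DS.rot (h : DS V I o a (b :: c)) : DS V I o b (c ++ [a]) :=
  ⟨xstep_rot o a b c ▸ h.pre, xstep_rot o a b c ▸ h.geo, ls_swap (m := []) h.nodup,
    by simpa using h.len, h.out⟩

theorem DS.rot' (h : DS V I o a (c ++ [b])) : DS V I o b (a :: c) :=
  ⟨(xstep_rot o b a c).symm ▸ h.pre, (xstep_rot o b a c).symm ▸ h.geo,
    ls_swap (r := []) h.nodup, by simpa using h.len, h.out⟩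

theorem DS.step (h : DS V I o a (m ++ b :: r)) (hy : y ∉ V) :
    DS (insert y V) (I ∪ tris y (a :: (m ++ [b]))) o a (y :: b :: r) ∧
      ∀ v, deg (I ∪ tris y (a :: (m ++ [b]))) v = deg I v +
        if v = y then m.length + 1 else if v = a ∨ v = b then 1 else if v ∈ m then 2 else 0 := by
  have hn := h.nodup
  have h5 := (xstep_filter h.out _).trans (ls_link o a b m r)
  have cu := ls_cut h.pre hn h.len h5
  have hd := ls_disj hn h.len
  have hV : ∀ v ∈ a :: ((m ++ b :: r) ++ [a]), v ∈ V := fun v hv => by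
    obtain ⟨s, k1, k2⟩ := ls_cover (o := o) hv
    exact h.pre.sub s (mem_union_right _ k1) k2
  have oV : o ∈ V := h.pre.nb_mem cu.na
  have yo : y ≠ o := fun e => hy (e ▸ oV)
  have yl : y ∉ a :: (m ++ b :: r) := fun k => hy (hV y (by
    rw [← List.cons_append]
    exact List.mem_append_left _ k))
  have yI : ∀ t ∈ I, y ∉ t := fun t ht k => hy (h.pre.sub t (mem_union_left _ ht) k)
  have sub1 : (a :: (m ++ [b])).Sublist (a :: (m ++ b :: r)) := by simp
  have ol : o ∉ a :: (m ++ [b]) := fun k => (List.nodup_cons.1 hn).1 (sub1.subset k)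
  have e : spl (I ∪ tris o (a :: ((m ++ b :: r) ++ [a]))) (tris o (a :: (m ++ [b]))) o y a b =
      (I ∪ tris y (a :: (m ++ [b]))) ∪ tris o (a :: ((y :: b :: r) ++ [a])) := by
    rw [spl, xstep_image ol, ls_link, union_sdiff_distrib, union_sdiff_cancel_left hd,
      sdiff_eq_left.2 (xstep_disj h.out _), List.cons_append, List.cons_append, ls_cons, ls_cons,
      tri23 o a y]
    ext t
    simp only [mem_insert, mem_union]
    tauto
  refine ⟨⟨e ▸ h.pre.spl cu hy, e ▸ h.geo.spl h.pre cu hy, ?_, by simp, fun t ht => ?_⟩,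
    fun v => ?_⟩
  · have h1 : (o :: a :: b :: r).Nodup := hn.sublist (by simp)
    have h2 : y ∉ o :: a :: b :: r := by
      simp only [List.mem_cons, List.mem_append, not_or] at yl ⊢
      exact ⟨yo, yl.1, yl.2.2⟩
    refine (List.Perm.nodup_iff ?_).1 (List.nodup_cons.2 ⟨h2, h1⟩)
    exact List.perm_append_comm (l₁ := [y]) (l₂ := [o, a]) |>.append_right (b :: r)
  · rcases mem_union.1 ht with k | k
    · exact h.out t k
    · exact fun k' => ((ls_mem k).2 o k').elim yo.symm ol
  · rw [xstep_deg_union (xstep_disj yI _), xstep_deg_tris]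
    exact List.nodup_cons.2 ⟨fun k => yl (sub1.subset k), (List.nodup_cons.1 hn).2.sublist sub1⟩

theorem DS.fin (h : DS V I o a c) (v : ℕ) : deg (I ∪ tris o (a :: (c ++ [a]))) v = deg I v +
    if v = o then c.length + 1 else if v ∈ a :: c then 2 else 0 := by
  have hl := h.len
  obtain ⟨b, r, rfl⟩ := List.exists_cons_of_length_pos (show 0 < c.length by omega)
  have hn := h.nodup
  have e1 : tris o (a :: ((b :: r) ++ [a])) =
      tris o (a :: ([] ++ [b])) ∪ tris o (b :: (r ++ [a])) := ls_link o a b [] r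
  rw [xstep_deg_union (xstep_disj h.out _), e1, xstep_deg_union (ls_disj (m := []) hn hl),
    xstep_deg_tris (hn.sublist (by simp)), xstep_deg_tris (ls_swap (m := []) hn)]
  congr 1
  by_cases e1 : v = o
  · simp [e1, add_comm]
  by_cases e2 : v = a
  · simp [e2, show a ≠ o from e2 ▸ e1]
  by_cases e3 : v = b
  · simp [e3, show b ≠ o from e3 ▸ e1]
  simp [e1, e2, e3]

end Pool.Agent.P.MP_e40812_co
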